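import Pool.Agent.W677.MarF2

set_option autoImplicit false

/-! # Transfer to the exterior of the unit disc -/

namespace Pool.Agent.W677.Mar

open Complex Metric Set Filter Topology MeasureTheory

/-- `f` is holomorphic outside the closed unit disc, with the value `c` at infinity -/
def Hol (f : ℂ → ℂ) (c : ℂ) : Prop :=
  DifferentiableOn ℂ f {z : ℂ | 1 < ‖z‖} ∧ Tendsto f (Bornology.cobounded ℂ) (𝓝 c)

/-- the decomposition of `h` -/
def Dec (K A ε : ℝ) (h : ℂ → ℂ) : Prop :=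
  ∃ (n : ℕ) (k : Fin n → ℂ) (P : Fin n → ℂ → ℂ) (α c d d' : ℂ) (p b e : ℂ → ℂ),
    ∑ j, ‖k j‖ ≤ K ∧ (∀ j, Hol (P j) 1 ∧ ∀ z : ℂ, 1 < ‖z‖ → 0 < (P j z).re) ∧
    ‖α‖ ≤ 1 ∧ Hol p c ∧ 0 < c.re ∧ (∀ z : ℂ, 1 < ‖z‖ → 0 < (p z).re) ∧
    Hol b d ∧ (∀ z : ℂ, 1 < ‖z‖ → ‖b z‖ ≤ A) ∧
    Hol e d' ∧ (∀ z : ℂ, 1 < ‖z‖ → (‖z‖ ^ 2 - 1) * ‖deriv e z‖ ≤ ε) ∧
    ∀ z : ℂ, 1 < ‖z‖ → z * deriv h z =
      ∑ j, k j * (P j z - 1) + α * (z * deriv p z / p z) + z * deriv b z + z * deriv e z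

/-- `w ↦ f (1 / w)` -/
noncomputable def hat (f : ℂ → ℂ) (c : ℂ) (w : ℂ) : ℂ := by
  classical
  exact if w = 0 then c else f w⁻¹

theorem hat_zero (f : ℂ → ℂ) (c : ℂ) : hat f c 0 = c := by simp [hat]

theorem hat_ne (f : ℂ → ℂ) (c : ℂ) {w : ℂ} (hw : w ≠ 0) : hat f c w = f w⁻¹ := by simp [hat, hw]

theorem inv_ext {w : ℂ} (hw : w ∈ ball (0 : ℂ) 1) (hw0 : w ≠ 0) : 1 < ‖w⁻¹‖ := by
  rw [norm_inv]
  exact (one_lt_inv₀ (norm_pos_iff.2 hw0)).2 (mem_ball_zero_iff.1 hw)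

theorem isOpen_ext : IsOpen {z : ℂ | 1 < ‖z‖} := isOpen_lt continuous_const continuous_norm

theorem hat_hasDeriv {f : ℂ → ℂ} {c : ℂ} (hf : Hol f c) {w : ℂ} (hw : w ∈ ball (0 : ℂ) 1)
    (hw0 : w ≠ 0) : HasDerivAt (hat f c) (deriv f w⁻¹ * -(w ^ 2)⁻¹) w := by
  have h1 : HasDerivAt f (deriv f w⁻¹) w⁻¹ :=
    (hf.1.differentiableAt (isOpen_ext.mem_nhds (inv_ext hw hw0))).hasDerivAt
  have h2 := h1.comp w (hasDerivAt_inv hw0)
  refine h2.congr_of_eventuallyEq ?_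
  filter_upwards [isOpen_ne.mem_nhds hw0] with x hx
  exact hat_ne f c hx

theorem hat_diff {f : ℂ → ℂ} {c : ℂ} (hf : Hol f c) : DifferentiableOn ℂ (hat f c) (ball 0 1) := by
  have h0 : ball (0 : ℂ) 1 ∈ 𝓝 (0 : ℂ) := isOpen_ball.mem_nhds (mem_ball_self one_pos)
  rw [← Complex.differentiableOn_compl_singleton_and_continuousAt_iff h0]
  constructor
  · intro w hw
    exact (hat_hasDeriv hf hw.1 hw.2).differentiableAt.differentiableWithinAt
  · rw [continuousAt_iff_punctured_nhds, hat_zero]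
    have h1 : Tendsto (fun w : ℂ => f w⁻¹) (𝓝[≠] 0) (𝓝 c) := hf.2.comp tendsto_inv₀_nhdsNE_zero
    refine h1.congr' ?_
    filter_upwards [self_mem_nhdsWithin] with w hw
    exact (hat_ne f c hw).symm

theorem hat_deriv {f : ℂ → ℂ} {c : ℂ} (hf : Hol f c) {w : ℂ} (hw : w ∈ ball (0 : ℂ) 1)
    (hw0 : w ≠ 0) : w * deriv (hat f c) w = -(w⁻¹ * deriv f w⁻¹) := by
  rw [(hat_hasDeriv hf hw hw0).deriv]
  field_simp

/-- closed conditions pass to the value at infinity -/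
theorem hat_closed {f : ℂ → ℂ} {c : ℂ} (hf : Hol f c) {A : ℝ} (h : ∀ z : ℂ, 1 < ‖z‖ → ‖f z‖ ≤ A)
    {w : ℂ} (hw : w ∈ ball (0 : ℂ) 1) : ‖hat f c w‖ ≤ A := by
  by_cases hw0 : w = 0
  · rw [hw0, hat_zero]
    apply le_of_tendsto hf.2.norm
    have : ∀ᶠ z in Bornology.cobounded ℂ, 1 < ‖z‖ :=
      tendsto_norm_cobounded_atTop.eventually_gt_atTop 1
    filter_upwards [this] with z hz
    exact h z hz
  · rw [hat_ne f c hw0]
    exact h _ (inv_ext hw hw0)

theorem hat_pos {f : ℂ → ℂ} {c : ℂ} (hc : 0 < c.re)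
    (h : ∀ z : ℂ, 1 < ‖z‖ → 0 < (f z).re) {w : ℂ} (hw : w ∈ ball (0 : ℂ) 1) :
    0 < (hat f c w).re := by
  by_cases hw0 : w = 0
  · rw [hw0, hat_zero]
    exact hc
  · rw [hat_ne f c hw0]
    exact h _ (inv_ext hw hw0)

/-- the exterior map in disc coordinates -/
theorem toSg {ψ h : ℂ → ℂ} (hψ : DifferentiableOn ℂ ψ {z : ℂ | 1 < ‖z‖})
    (hi : InjOn ψ {z : ℂ | 1 < ‖z‖})
    (hb : ∃ b : ℂ, Tendsto (fun z => ψ z - z) (Bornology.cobounded ℂ) (𝓝 b))
    (hh : DifferentiableOn ℂ h {z : ℂ | 1 < ‖z‖})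
    (he : ∀ z : ℂ, 1 < ‖z‖ → Complex.exp (h z) = deriv ψ z)
    (h0 : Tendsto h (Bornology.cobounded ℂ) (𝓝 0)) :
    Sg (hat (fun z => ψ z / z) 1) (hat h 0) := by
  have hne : ∀ᶠ z in Bornology.cobounded ℂ, z ≠ 0 := by
    have : ∀ᶠ z in Bornology.cobounded ℂ, 1 < ‖z‖ :=
      tendsto_norm_cobounded_atTop.eventually_gt_atTop 1
    filter_upwards [this] with z hz h0
    rw [h0, norm_zero] at hz
    linarith
  have hq : Hol (fun z => ψ z / z) 1 := by
    constructor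
    · apply hψ.div differentiableOn_id
      intro z hz h0
      have hz' : 1 < ‖z‖ := hz
      have h0' : z = 0 := h0
      rw [h0', norm_zero] at hz'
      linarith
    · obtain ⟨b, hb⟩ := hb
      have h1 : Tendsto (fun z : ℂ => z⁻¹) (Bornology.cobounded ℂ) (𝓝 0) := tendsto_inv₀_cobounded
      have h2 := (hb.mul h1).add_const 1
      rw [mul_zero, zero_add] at h2
      refine h2.congr' ?_
      filter_upwards [hne] with z hz
      field_simp
      ring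
  have hH : Hol h 0 := ⟨hh, h0⟩
  refine ⟨⟨hat_diff hq, hat_zero _ _, ?_⟩, hat_diff hH, hat_zero _ _, ?_⟩
  · intro z hz w hw hzw
    have hz0 : z ≠ 0 := hz.2
    have hw0 : w ≠ 0 := hw.2
    have hzw' : hat (fun z => ψ z / z) 1 z / z = hat (fun z => ψ z / z) 1 w / w := hzw
    rw [hat_ne _ _ hz0, hat_ne _ _ hw0] at hzw'
    have h1 : ψ z⁻¹ = ψ w⁻¹ := by
      have e1 : ψ z⁻¹ / z⁻¹ / z = ψ z⁻¹ := by field_simp
      have e2 : ψ w⁻¹ / w⁻¹ / w = ψ w⁻¹ := by field_simp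
      rw [← e1, ← e2]
      exact hzw'
    exact inv_injective (hi (inv_ext hz.1 hz0) (inv_ext hw.1 hw0) h1)
  · intro w hw
    by_cases hw0 : w = 0
    · rw [hw0, hat_zero, hat_zero]
      simp
    · have hz := inv_ext hw hw0
      rw [hat_deriv hq hw hw0, hat_ne _ _ hw0, hat_ne _ _ hw0, he _ hz]
      have hd : HasDerivAt ψ (deriv ψ w⁻¹) w⁻¹ :=
        (hψ.differentiableAt (isOpen_ext.mem_nhds hz)).hasDerivAt
      have h1 := (hd.div (hasDerivAt_id w⁻¹) (inv_ne_zero hw0)).deriv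
      have h2 : deriv (fun z => ψ z / z) w⁻¹ =
          (deriv ψ w⁻¹ * w⁻¹ - ψ w⁻¹ * 1) / w⁻¹ ^ 2 := h1
      rw [h2]
      field_simp
      ring

theorem toDC {K A ε : ℝ} {h : ℂ → ℂ} (hH : Hol h 0) (hK : 0 ≤ K) (hD : Dec K A ε h) :
    ∃ (Q P g b e : ℂ → ℂ) (u : ℂ), DC (1 + K) A ε (hat h 0) Q P g b e u := by
  obtain ⟨n, k, P, α, c, d, d', p, b, e, hk, hP, hα, hp, hc, hpp, hb, hbA, he, heε, heq⟩ := hD
  have h00 : (0 : ℂ) ∈ ball (0 : ℂ) 1 := mem_ball_self one_pos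
  have hPd : ∀ j, DifferentiableOn ℂ (hat (P j) 1) (ball 0 1) := fun j => hat_diff (hP j).1
  have hPp : ∀ j, ∀ w ∈ ball (0 : ℂ) 1, 0 < (hat (P j) 1 w).re := fun j w hw =>
    hat_pos (by simp) (hP j).2 hw
  have hpd := hat_diff hp
  have hpp' : ∀ w ∈ ball (0 : ℂ) 1, 0 < (hat p c w).re := fun w hw => hat_pos hc hpp hw
  have hed := hat_diff he
  refine ⟨fun w => ∑ j, k j * (hat (P j) 1 w - 1), fun w => 1 + ∑ j, (‖k j‖ : ℂ) * hat (P j) 1 w,
    fun w => Complex.log (hat p c w), hat b d, fun w => hat e d' w - d', α, ?_, ?_, ?_, hat_diff hb,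
    hed.sub_const _, ?_, ?_, ?_, hα, ?_, ?_, ?_, ?_, ?_⟩
  · apply DifferentiableOn.fun_sum
    intro j _
    exact ((hPd j).sub_const 1).const_mul _
  · apply DifferentiableOn.const_add
    apply DifferentiableOn.fun_sum
    intro j _
    exact (hPd j).const_mul _
  · intro w hw
    exact (((hpd w hw).clog (Or.inl (hpp' w hw))))
  · intro w hw
    simp only [add_re, one_re, re_sum, Complex.re_ofReal_mul]
    have : 0 ≤ ∑ j, ‖k j‖ * (hat (P j) 1 w).re :=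
      Finset.sum_nonneg fun j _ => mul_nonneg (norm_nonneg _) (hPp j w hw).le
    linarith
  · simp only [hat_zero, mul_one]
    refine (norm_add_le _ _).trans ?_
    rw [norm_one]
    have := norm_sum_le (Finset.univ : Finset (Fin n)) (fun j => ((‖k j‖ : ℝ) : ℂ))
    simp only [Complex.norm_real, norm_norm] at this
    linarith
  · intro w hw x hx
    have hn : ‖w‖ < 1 := mem_ball_zero_iff.1 hw
    have hsub := ball_sub' (w := w)
    have e1 : (∑ j, k j * (hat (P j) 1 x - 1)) - ∑ j, k j * (hat (P j) 1 w - 1) =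
        ∑ j, k j * (hat (P j) 1 x - hat (P j) 1 w) := by
      rw [← Finset.sum_sub_distrib]
      refine Finset.sum_congr rfl fun j _ => ?_
      ring
    show ‖(∑ j, k j * (hat (P j) 1 x - 1)) - ∑ j, k j * (hat (P j) 1 w - 1)‖ ≤ _
    rw [e1]
    refine (norm_sum_le _ _).trans ?_
    have h1 : ∀ j, ‖k j * (hat (P j) 1 x - hat (P j) 1 w)‖ ≤ 2 * (‖k j‖ * (hat (P j) 1 w).re) := by
      intro j
      rw [norm_mul]
      have h2 := osc (P := hat (P j) 1) (w := w) (δ := 1 - ‖w‖) (by linarith)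
        ((hPd j).mono (hsub hw)) (fun y hy => hPp j y (hsub hw hy)) hx
      have := mul_le_mul_of_nonneg_left h2 (norm_nonneg (k j))
      linarith
    refine (Finset.sum_le_sum fun j _ => h1 j).trans ?_
    rw [← Finset.mul_sum]
    simp only [add_re, one_re, re_sum, Complex.re_ofReal_mul]
    linarith
  · intro w hw
    have h1 := hpp' w hw
    show |(Complex.log (hat p c w)).im| ≤ Real.pi / 2
    rw [Complex.log_im]
    exact (Complex.abs_arg_lt_pi_div_two_iff.2 (Or.inl h1)).le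
  · intro w hw
    exact hat_closed hb hbA hw
  · simp only [hat_zero, sub_self]
  · -- Bloch norm of e
    have hed' : DifferentiableOn ℂ (deriv (fun w => hat e d' w - d')) (ball 0 1) :=
      (hed.sub_const _).deriv isOpen_ball
    have hne : ∀ w ∈ ball (0 : ℂ) 1, w ≠ 0 →
        ‖deriv (fun w => hat e d' w - d') w‖ * (1 - ‖w‖) ≤ ε := by
      intro w hw hw0
      have hn : ‖w‖ < 1 := mem_ball_zero_iff.1 hw
      have hp : 0 < ‖w‖ := norm_pos_iff.2 hw0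
      have h1 : deriv (fun w => hat e d' w - d') w = deriv e w⁻¹ * -(w ^ 2)⁻¹ :=
        ((hat_hasDeriv he hw hw0).sub_const d').deriv
      have h2 := heε _ (inv_ext hw hw0)
      rw [norm_inv] at h2
      rw [h1, norm_mul, norm_neg, norm_inv, norm_pow]
      have h3 : (‖w‖⁻¹ ^ 2 - 1) * ‖deriv e w⁻¹‖ =
          ‖deriv e w⁻¹‖ * (‖w‖ ^ 2)⁻¹ * (1 - ‖w‖ ^ 2) := by
        field_simp
      rw [h3] at h2
      refine le_trans ?_ h2
      apply mul_le_mul_of_nonneg_left _ (by positivity)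
      nlinarith
    intro w hw
    by_cases hw0 : w = 0
    · have hcont : ContinuousAt (fun w => ‖deriv (fun w => hat e d' w - d') w‖ * (1 - ‖w‖)) 0 :=
        ((hed'.continuousOn.continuousAt (isOpen_ball.mem_nhds h00)).norm).mul
          (continuousAt_const.sub continuousAt_id.norm)
      rw [hw0]
      refine le_of_tendsto (hcont.tendsto.mono_left (nhdsWithin_le_nhds (s := {0}ᶜ))) ?_
      filter_upwards [self_mem_nhdsWithin, nhdsWithin_le_nhds (isOpen_ball.mem_nhds h00)] with x hx hxb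
      exact hne x hxb hx
    · exact hne w hw hw0
  · intro w hw
    by_cases hw0 : w = 0
    · rw [hw0]
      simp [hat_zero]
    · have hz := inv_ext hw hw0
      have h1 := heq _ hz
      have dp := hat_hasDeriv hp hw hw0
      have hp0 : p w⁻¹ ≠ 0 := by
        intro h0
        have := hpp _ hz
        rw [h0] at this
        simp at this
      have hdlog : deriv (fun w => Complex.log (hat p c w)) w =
          (deriv p w⁻¹ * -(w ^ 2)⁻¹) / hat p c w :=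
        (dp.clog (Or.inl (hpp' w hw))).deriv
      have hde : deriv (fun w => hat e d' w - d') w = deriv (hat e d') w := by
        rw [deriv_sub_const]
      have h3 := hat_deriv hH hw hw0
      have h4 := hat_deriv hb hw hw0
      have h5 := hat_deriv he hw hw0
      rw [hde, hdlog, hat_ne p c hw0]
      have e1 : ∑ j, k j * (hat (P j) 1 w - 1) = ∑ j, k j * (P j w⁻¹ - 1) :=
        Finset.sum_congr rfl fun j _ => by rw [hat_ne _ _ hw0]
      rw [e1]
      have e2 : w * (α * (deriv p w⁻¹ * -(w ^ 2)⁻¹ / p w⁻¹) + deriv (hat b d) w +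
          deriv (hat e d') w) = -(α * (w⁻¹ * deriv p w⁻¹ / p w⁻¹)) + w * deriv (hat b d) w +
          w * deriv (hat e d') w := by
        field_simp
      rw [e2, h3, h4, h5, h1]
      ring

/-- the main theorem, exterior version -/
theorem main_ext (a A : ℝ) (ha0 : 0 < a) (ha : a < 1) (hA : 0 ≤ A) : ∃ C : ℝ,
    ∀ (R : ℝ) (ψ h : ℂ → ℂ), 1 < R → DifferentiableOn ℂ ψ {z : ℂ | 1 < ‖z‖} →
      InjOn ψ {z : ℂ | 1 < ‖z‖} →
      (∃ b : ℂ, Tendsto (fun z => ψ z - z) (Bornology.cobounded ℂ) (𝓝 b)) →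
      DifferentiableOn ℂ h {z : ℂ | 1 < ‖z‖} →
      (∀ z : ℂ, 1 < ‖z‖ → Complex.exp (h z) = deriv ψ z) →
      Tendsto h (Bornology.cobounded ℂ) (𝓝 0) →
      Dec (A * (R ^ 2 / (R ^ 2 - 1)) ^ ((1 - a) ^ 2 / 20000)) A ((1 - a) / 24) h →
      (1 / (2 * Real.pi)) * ∫ θ in (0 : ℝ)..(2 * Real.pi),
        Real.exp (a * ‖h ((R : ℂ) * Complex.exp ((θ : ℂ) * Complex.I))‖ ^ 2
          / Real.log (R ^ 2 / (R ^ 2 - 1))) ≤ C := by
  have hpi := Real.pi_pos
  obtain ⟨C, hC⟩ := main_disc a A ha0 ha hA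
  refine ⟨(1 / (2 * Real.pi)) * C, ?_⟩
  intro R ψ h hR hψ hi hb hh he h0 hD
  have hR0 : 0 < R := by linarith
  have hR2 : 0 < R ^ 2 - 1 := by nlinarith
  have S := toSg hψ hi hb hh he h0
  obtain ⟨q, hq⟩ : ∃ q, q = R ^ 2 / (R ^ 2 - 1) := ⟨_, rfl⟩
  have hq1 : 1 < q := by
    rw [hq, one_lt_div hR2]
    linarith
  rw [← hq] at hD ⊢
  have hxpos : 0 ≤ (1 - a) ^ 2 / 20000 := by positivity
  have hqp : 1 ≤ q ^ ((1 - a) ^ 2 / 20000) := Real.one_le_rpow hq1.le hxpos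
  obtain ⟨Q, P, g, b, e, u, D⟩ := toDC ⟨hh, h0⟩ (by positivity) hD
  obtain ⟨r, hr⟩ : ∃ r, r = R⁻¹ := ⟨_, rfl⟩
  have hr0 : 0 < r := by rw [hr]; positivity
  have hr1 : r < 1 := by rw [hr]; exact inv_lt_one_of_one_lt₀ hR
  have hlam : lam (r ^ 2) = Real.log q := by
    have : 1 - r ^ 2 = q⁻¹ := by
      rw [hq, hr]
      field_simp
    rw [lam, this, Real.log_inv, neg_neg]
  have hK : 1 + A * q ^ ((1 - a) ^ 2 / 20000) ≤
      (A + 1) * Real.exp ((1 - a) ^ 2 / 20000 * lam (r ^ 2)) := by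
    rw [hlam, mul_comm ((1 - a) ^ 2 / 20000), ← Real.rpow_def_of_pos (by linarith)]
    nlinarith
  have h1 := hC _ _ Q P g b e u _ r hr0 hr1 S D hK
  rw [hlam] at h1
  refine mul_le_mul_of_nonneg_left (le_trans (le_of_eq ?_) h1) (by positivity)
  -- change of variable θ → -θ
  set F : ℝ → ℝ := fun θ => Real.exp (a * ‖hat h 0 (pt r θ)‖ ^ 2 / Real.log q) with hF
  have hper : Function.Periodic F (2 * Real.pi) := by
    intro θ
    simp only [hF, pt_periodic r θ]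
  have h2 : ∀ θ : ℝ, Real.exp (a * ‖h ((R : ℂ) * Complex.exp ((θ : ℂ) * Complex.I))‖ ^ 2 /
      Real.log q) = F (-θ) := by
    intro θ
    simp only [hF]
    have hne : pt r (-θ) ≠ 0 := by
      rw [← norm_pos_iff, norm_pt r _ hr0.le]
      exact hr0
    rw [hat_ne _ _ hne]
    have e1 : (pt r (-θ))⁻¹ = (R : ℂ) * Complex.exp ((θ : ℂ) * Complex.I) := by
      simp only [pt, circleMap, zero_add, hr]
      rw [mul_inv, ← Complex.exp_neg]
      push_cast
      rw [inv_inv]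
      congr 2
      ring
    rw [e1]
  simp only [h2]
  rw [intervalIntegral.integral_comp_neg F]
  have h3 := hper.intervalIntegral_add_eq (-(2 * Real.pi)) 0
  rw [neg_add_cancel, zero_add] at h3
  rw [neg_zero]
  exact h3

end Pool.Agent.W677.Mar
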