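import Mathlib
import Pool.Prelude.Def_F_c31e40fa
import Pool.Agent.H713R2.AR.HB

set_option autoImplicit false

/-! # Multipliers of periodic points of `z ^ d + c` as roots of resultants -/

namespace Pool.Agent.W677.VF

open Complex Set Topology Filter Metric N62a1eb23 Pool.Agent.H712R2 Pool.Agent.H713R2
open Polynomial hiding X C
open Polynomial (X C)

/-- The iterates `f_c^p (z)` as polynomials in `z` over the polynomials in `c`. -/
noncomputable def TT (d : ℕ) : ℕ → Polynomial (Polynomial ℂ)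
  | 0 => X
  | p + 1 => (TT d p) ^ d + C X

theorem TT_eval (d p : ℕ) (c z : ℂ) :
    ((TT d p).map (evalRingHom c)).eval z = (fc d c)^[p] z := by
  induction p with
  | zero => simp [TT]
  | succ p ih =>
    rw [Function.iterate_succ_apply', ← ih]
    simp [TT, fc]

theorem TT_monic {d : ℕ} (hd : 2 ≤ d) (p : ℕ) : (TT d p).Monic ∧ (TT d p).natDegree = d ^ p := by
  induction p with
  | zero => exact ⟨monic_X, by simp [TT]⟩
  | succ p ih =>
    have h1 : ((TT d p) ^ d).Monic := ih.1.pow d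
    have h2 : ((TT d p) ^ d).natDegree = d ^ (p + 1) := by
      rw [ih.1.natDegree_pow, ih.2]; ring
    have h3 : (C X : Polynomial (Polynomial ℂ)).natDegree < ((TT d p) ^ d).natDegree := by
      rw [natDegree_C, h2]
      exact Nat.pow_pos (by omega)
    have h4 : (C X : Polynomial (Polynomial ℂ)).degree < ((TT d p) ^ d).degree :=
      degree_lt_degree h3
    refine ⟨h1.add_of_left h4, ?_⟩
    change ((TT d p) ^ d + C X).natDegree = _
    rw [natDegree_add_eq_left_of_natDegree_lt h3, h2]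

/-- `f_c^p (z) - z`. -/
noncomputable def FF (d p : ℕ) : Polynomial (Polynomial ℂ) := TT d p - X

/-- `(f_c^p)' (z) - ζ`. -/
noncomputable def GG (d p : ℕ) (ζ : ℂ) : Polynomial (Polynomial ℂ) :=
  derivative (TT d p) - C (C ζ)

theorem one_lt_dp {d p : ℕ} (hd : 2 ≤ d) (hp : 1 ≤ p) : 2 ≤ d ^ p := by
  calc 2 ≤ d := hd
    _ = d ^ 1 := (pow_one d).symm
    _ ≤ d ^ p := Nat.pow_le_pow_right (by omega) hp

theorem FF_monic {d p : ℕ} (hd : 2 ≤ d) (hp : 1 ≤ p) : (FF d p).Monic := by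
  have h1 := TT_monic hd p
  have h2 := one_lt_dp hd hp
  apply h1.1.sub_of_left
  apply degree_lt_degree
  rw [natDegree_X, h1.2]
  omega

theorem natDegree_aux {R : Type*} [CommRing R] [IsDomain R] [CharZero R] {T : Polynomial R}
    (hT : 2 ≤ T.natDegree) (a : R) :
    (derivative T - C a).natDegree = T.natDegree - 1 := by
  have h1 : (derivative T).natDegree = T.natDegree - 1 := by
    apply natDegree_eq_of_degree_eq_some
    exact degree_derivative (by omega)
  rw [natDegree_sub_eq_left_of_natDegree_lt, h1]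
  rw [natDegree_C, h1]
  omega

theorem GG_natDegree {d p : ℕ} (hd : 2 ≤ d) (hp : 1 ≤ p) (ζ : ℂ) :
    (GG d p ζ).natDegree = d ^ p - 1 := by
  have h1 := TT_monic hd p
  have h2 := one_lt_dp hd hp
  unfold GG
  rw [natDegree_aux (by rw [h1.2]; exact h2), h1.2]

theorem GG_map (d p : ℕ) (ζ c : ℂ) : (GG d p ζ).map (evalRingHom c) =
    derivative ((TT d p).map (evalRingHom c)) - C ζ := by
  unfold GG
  rw [Polynomial.map_sub, derivative_map, Polynomial.map_C]
  simp

theorem GG_map_natDegree {d p : ℕ} (hd : 2 ≤ d) (hp : 1 ≤ p) (ζ c : ℂ) :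
    ((GG d p ζ).map (evalRingHom c)).natDegree = d ^ p - 1 := by
  have h1 := TT_monic hd p
  have h2 := one_lt_dp hd hp
  have h3 : ((TT d p).map (evalRingHom c)).natDegree = d ^ p := by
    rw [h1.1.natDegree_map, h1.2]
  rw [GG_map, natDegree_aux (by rw [h3]; exact h2), h3]

/-- The resultant, a polynomial in `c`. -/
noncomputable def RR (d p : ℕ) (ζ : ℂ) : Polynomial ℂ := resultant (FF d p) (GG d p ζ)

theorem RR_eval {d p : ℕ} (hd : 2 ≤ d) (hp : 1 ≤ p) (ζ c : ℂ) : (RR d p ζ).eval c =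
    resultant ((FF d p).map (evalRingHom c)) ((GG d p ζ).map (evalRingHom c)) := by
  have h1 : ((FF d p).map (evalRingHom c)).natDegree = (FF d p).natDegree :=
    (FF_monic hd hp).natDegree_map _
  have h2 : ((GG d p ζ).map (evalRingHom c)).natDegree = (GG d p ζ).natDegree := by
    rw [GG_map_natDegree hd hp, GG_natDegree hd hp]
  rw [h1, h2, resultant_map_map]
  rfl

theorem RR_eq_zero_iff {d p : ℕ} (hd : 2 ≤ d) (hp : 1 ≤ p) (ζ c : ℂ) :
    (RR d p ζ).eval c = 0 ↔ ∃ z, (fc d c)^[p] z = z ∧ deriv ((fc d c)^[p]) z = ζ := by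
  rw [RR_eval hd hp, resultant_eq_zero_iff,
    Polynomial.isCoprime_iff_aeval_ne_zero_of_isAlgClosed (k := ℂ) ℂ]
  have h0 : (FF d p).map (evalRingHom c) ≠ 0 := ((FF_monic hd hp).map _).ne_zero
  have hfun : (fc d c)^[p] = fun z => ((TT d p).map (evalRingHom c)).eval z := by
    funext z
    rw [TT_eval]
  have key : ∀ z : ℂ, (Polynomial.aeval z ((FF d p).map (evalRingHom c)) = 0 ∧
      Polynomial.aeval z ((GG d p ζ).map (evalRingHom c)) = 0) ↔
      ((fc d c)^[p] z = z ∧ deriv ((fc d c)^[p]) z = ζ) := by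
    intro z
    rw [GG_map]
    unfold FF
    rw [Polynomial.map_sub, Polynomial.map_X, map_sub, map_sub, Polynomial.aeval_X,
      Polynomial.aeval_C, sub_eq_zero, sub_eq_zero, Polynomial.coe_aeval_eq_eval,
      hfun, Polynomial.deriv]
    rfl
  constructor
  · rintro ⟨-, h⟩
    push Not at h
    obtain ⟨z, hz⟩ := h
    exact ⟨z, (key z).mp hz⟩
  · rintro ⟨z, hz⟩
    refine ⟨Or.inl h0, ?_⟩
    push Not
    exact ⟨z, (key z).mpr hz⟩

/-- For `c = 8` all periodic points are repelling. -/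
theorem RR_eight {d p : ℕ} (hd : 2 ≤ d) (hp : 1 ≤ p) {ζ : ℂ} (hζ : ‖ζ‖ ≤ 1) :
    (RR d p ζ).eval 8 ≠ 0 := by
  rw [Ne, RR_eq_zero_iff hd hp]
  rintro ⟨z, hz1, hz2⟩
  have hfc : ∀ w : ℂ, fc d 8 w = w ^ d + 8 := fun w => rfl
  -- growth
  have hgrow : ∀ w : ℂ, 4 < ‖w‖ → 2 * ‖w‖ ≤ ‖fc d 8 w‖ := by
    intro w hw
    rw [hfc]
    have h1 : ‖w‖ ^ 2 ≤ ‖w‖ ^ d := pow_le_pow_right₀ (by linarith) hd
    have h2 : ‖w ^ d‖ ≤ ‖w ^ d + 8‖ + ‖(8 : ℂ)‖ := by
      have := norm_sub_le (w ^ d + 8) 8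
      rwa [add_sub_cancel_right] at this
    have h3 : ‖(8 : ℂ)‖ = 8 := by norm_num
    rw [norm_pow, h3] at h2
    nlinarith
  have hgrow2 : ∀ n : ℕ, ∀ w : ℂ, 4 < ‖w‖ → 2 ^ n * ‖w‖ ≤ ‖(fc d 8)^[n] w‖ := by
    intro n
    induction n with
    | zero => intro w _; simp
    | succ n ih =>
      intro w hw
      rw [Function.iterate_succ_apply]
      have h1 := hgrow w hw
      have h2 := ih (fc d 8 w) (by linarith)
      calc 2 ^ (n + 1) * ‖w‖ = 2 ^ n * (2 * ‖w‖) := by ring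
        _ ≤ 2 ^ n * ‖fc d 8 w‖ := by gcongr
        _ ≤ _ := h2
  -- periodic points are in the disc of radius 4
  have hper : ∀ w : ℂ, (fc d 8)^[p] w = w → ‖w‖ ≤ 4 := by
    intro w hw
    by_contra hcon
    push Not at hcon
    have h1 := hgrow2 p w hcon
    rw [hw] at h1
    have h2 : (2 : ℝ) ≤ 2 ^ p := by
      calc (2 : ℝ) = 2 ^ 1 := (pow_one 2).symm
        _ ≤ 2 ^ p := pow_le_pow_right₀ (by norm_num) hp
    nlinarith
  have hshift : ∀ w : ℂ, (fc d 8)^[p] w = w → (fc d 8)^[p] (fc d 8 w) = fc d 8 w := by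
    intro w hw
    rw [← Function.iterate_succ_apply, Function.iterate_succ_apply', hw]
  have hbig : ∀ w : ℂ, (fc d 8)^[p] w = w → 1 ≤ ‖w‖ := by
    intro w hw
    have h1 := hper _ (hshift w hw)
    rw [hfc] at h1
    have h2 : ‖(8 : ℂ)‖ ≤ ‖w ^ d + 8‖ + ‖w ^ d‖ := by
      have := norm_sub_le (w ^ d + 8) (w ^ d)
      rwa [add_sub_cancel_left] at this
    have h3 : ‖(8 : ℂ)‖ = 8 := by norm_num
    rw [h3, norm_pow] at h2
    by_contra hcon
    push Not at hcon
    have h4 : ‖w‖ ^ d ≤ 1 := pow_le_one₀ (norm_nonneg _) hcon.le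
    linarith
  -- derivatives
  have hder : ∀ n : ℕ, ∀ w : ℂ, (fc d 8)^[p] w = w →
      ∃ D : ℂ, HasDerivAt ((fc d 8)^[n]) D w ∧ 2 ^ n ≤ ‖D‖ := by
    intro n
    induction n with
    | zero =>
      intro w _
      exact ⟨1, by simpa using hasDerivAt_id w, by simp⟩
    | succ n ih =>
      intro w hw
      obtain ⟨D, hD1, hD2⟩ := ih (fc d 8 w) (hshift w hw)
      have h1 : HasDerivAt (fc d 8) (d * w ^ (d - 1)) w := by
        have := (hasDerivAt_pow d w).add_const (8 : ℂ)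
        exact this
      refine ⟨D * (d * w ^ (d - 1)), ?_, ?_⟩
      · rw [Function.iterate_succ]
        exact hD1.comp w h1
      · rw [norm_mul, norm_mul, norm_pow, Complex.norm_natCast, pow_succ]
        have h2 : (2 : ℝ) ≤ d := by exact_mod_cast hd
        have h3 : 1 ≤ ‖w‖ ^ (d - 1) := one_le_pow₀ (hbig w hw)
        have h4 : (2 : ℝ) ≤ d * ‖w‖ ^ (d - 1) := by nlinarith
        exact mul_le_mul hD2 h4 (by norm_num) (norm_nonneg _)
  obtain ⟨D, hD1, hD2⟩ := hder p z hz1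
  rw [hD1.deriv] at hz2
  rw [hz2] at hD2
  have h2 : (2 : ℝ) ≤ 2 ^ p := by
    calc (2 : ℝ) = 2 ^ 1 := (pow_one 2).symm
      _ ≤ 2 ^ p := pow_le_pow_right₀ (by norm_num) hp
  linarith

end Pool.Agent.W677.VF
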