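import Mathlib
import Pool.Agent.W677.VF1

set_option autoImplicit false

/-! # No indifferent cycles away from the attracting ones -/

namespace Pool.Agent.W677.VF

open Complex Set Topology Filter Metric N62a1eb23 Pool.Agent.H712R2 Pool.Agent.H713R2
open Polynomial hiding X C
open Polynomial (X C)

/-- The resultant as a function of `(ζ, c)` is continuous. -/
theorem continuous_RR {d p : ℕ} (hd : 2 ≤ d) (hp : 1 ≤ p) :
    Continuous fun x : ℂ × ℂ => (RR d p x.1).eval x.2 := by
  have h0 : ∀ x : ℂ × ℂ, (RR d p x.1).eval x.2 =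
      (sylvester ((FF d p).map (evalRingHom x.2)) ((GG d p x.1).map (evalRingHom x.2))
        (d ^ p) (d ^ p - 1)).det := by
    intro x
    have h2 := one_lt_dp hd hp
    have h3 : (FF d p).natDegree = d ^ p := by
      have h4 := TT_monic hd p
      unfold FF
      rw [natDegree_sub_eq_left_of_natDegree_lt, h4.2]
      rw [natDegree_X, h4.2]
      omega
    have h5 : ((FF d p).map (evalRingHom x.2)).natDegree = d ^ p := by
      rw [(FF_monic hd hp).natDegree_map, h3]
    rw [RR_eval hd hp, h5, GG_map_natDegree hd hp]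
    rfl
  simp only [h0]
  apply Continuous.matrix_det
  apply continuous_matrix
  intro i j
  have hF : ∀ k, Continuous fun x : ℂ × ℂ => ((FF d p).map (evalRingHom x.2)).coeff k := by
    intro k
    simp only [coeff_map, coe_evalRingHom]
    exact ((FF d p).coeff k).continuous.comp continuous_snd
  have hG : ∀ k, Continuous fun x : ℂ × ℂ => ((GG d p x.1).map (evalRingHom x.2)).coeff k := by
    intro k
    have h1 : ∀ x : ℂ × ℂ, ((GG d p x.1).map (evalRingHom x.2)).coeff k =
        (((derivative (TT d p)).coeff k).eval x.2) - (if k = 0 then x.1 else 0) := by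
      intro x
      unfold GG
      rw [Polynomial.map_sub, coeff_sub, coeff_map, Polynomial.map_C, coeff_C]
      simp
    simp only [h1]
    apply Continuous.sub
    · exact ((derivative (TT d p)).coeff k).continuous.comp continuous_snd
    · split_ifs
      · exact continuous_fst
      · exact continuous_const
  unfold sylvester
  simp only [Matrix.of_apply]
  refine Fin.addCases (fun j => ?_) (fun j => ?_) j
  · simp only [Fin.addCases_left]
    split_ifs
    · exact hG _
    · exact continuous_const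
  · simp only [Fin.addCases_right]
    split_ifs
    · exact hF _
    · exact continuous_const

/-- A circle around a zero of a nonzero polynomial which carries no zero. -/
theorem exists_circle {R : Polynomial ℂ} (hR : R ≠ 0) (c1 : ℂ) {s0 : ℝ} (hs0 : 0 < s0) :
    ∃ s : ℝ, 0 < s ∧ s < s0 ∧ ∀ c, ‖c - c1‖ = s → R.eval c ≠ 0 := by
  have hfin : ((fun c : ℂ => ‖c - c1‖) '' {c | R.eval c = 0}).Finite := by
    apply Set.Finite.image
    have := R.rootSet_finite ℂ
    refine (R.roots.toFinset.finite_toSet).subset fun c hc => ?_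
    simp only [Finset.mem_coe, Multiset.mem_toFinset]
    exact (mem_roots hR).mpr hc
  have hinf : (Ioo (0 : ℝ) s0).Infinite := Ioo_infinite hs0
  obtain ⟨s, hs, hs2⟩ := (hinf.diff hfin).nonempty
  exact ⟨s, hs.1, hs.2, fun c hc h => hs2 ⟨c, h, hc⟩⟩

/-- If no parameter of a ball has an attracting cycle, then no parameter of the ball has a cycle
with multiplier of modulus at most one. -/
theorem no_indifferent {d : ℕ} (hd : 2 ≤ d) {c0 : ℂ} {r : ℝ}
    (hno : ∀ c ∈ ball c0 r, ¬ ∃ m z, IsAttractingCycle (fun z => z ^ d + c) m z)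
    {c1 : ℂ} (hc1 : c1 ∈ ball c0 r) {p : ℕ} (hp : 1 ≤ p) {z1 : ℂ}
    (hz1 : (fc d c1)^[p] z1 = z1) : 1 < ‖deriv ((fc d c1)^[p]) z1‖ := by
  by_contra hcon
  push Not at hcon
  set l1 : ℂ := deriv ((fc d c1)^[p]) z1 with hl1
  have hnz : ∀ ζ : ℂ, ‖ζ‖ < 1 → ∀ c ∈ ball c0 r, (RR d p ζ).eval c ≠ 0 := by
    intro ζ hζ c hc h
    rw [RR_eq_zero_iff hd hp] at h
    obtain ⟨z, h1, h2⟩ := h
    refine hno c hc ⟨p, z, by omega, h1, ?_, ?_⟩
    · have : Differentiable ℂ ((fun z : ℂ => z ^ d + c)^[p]) :=
        (by fun_prop : Differentiable ℂ (fun z : ℂ => z ^ d + c)).iterate p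
      exact this z
    · have h3 : deriv ((fun z : ℂ => z ^ d + c)^[p]) z = ζ := h2
      rw [h3]
      exact hζ
  have hzero : (RR d p l1).eval c1 = 0 := (RR_eq_zero_iff hd hp l1 c1).mpr ⟨z1, hz1, rfl⟩
  have hR0 : RR d p l1 ≠ 0 := by
    intro h
    apply RR_eight hd hp hcon
    rw [h, eval_zero]
  obtain ⟨s0, hs0, hsub⟩ := Metric.isOpen_iff.mp isOpen_ball c1 hc1
  obtain ⟨s, hs, hss0, hcirc⟩ := exists_circle hR0 c1 hs0
  have hcont := continuous_RR hd hp
  -- lower bound on the circle
  have hcomp : IsCompact (sphere c1 s) := isCompact_sphere c1 s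
  have hne : (sphere c1 s).Nonempty := (NormedSpace.sphere_nonempty).mpr hs.le
  obtain ⟨cm, hcm, hmin⟩ := hcomp.exists_isMinOn hne
    (f := fun c => ‖(RR d p l1).eval c‖) (by fun_prop)
  set μ : ℝ := ‖(RR d p l1).eval cm‖ with hμ
  have hμ0 : 0 < μ := by
    rw [hμ, norm_pos_iff]
    exact hcirc cm (by rwa [mem_sphere_iff_norm] at hcm)
  -- uniform closeness
  have hK : IsCompact (closedBall l1 1 ×ˢ closedBall c1 s) :=
    (isCompact_closedBall l1 1).prod (isCompact_closedBall c1 s)
  have huc := hK.uniformContinuousOn_of_continuous hcont.continuousOn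
  rw [Metric.uniformContinuousOn_iff] at huc
  obtain ⟨δ, hδ, huc⟩ := huc (μ / 3) (by positivity)
  obtain ⟨η, hη, hη1, hηδ⟩ : ∃ η : ℝ, 0 < η ∧ η ≤ 1 / 2 ∧ η < δ :=
    ⟨min (δ / 2) (1 / 2), by positivity, min_le_right _ _, by
      have := min_le_left (δ / 2) (1 / 2 : ℝ)
      linarith⟩
  set ζ : ℂ := ((1 - η : ℝ) : ℂ) * l1 with hζ
  have hζn : ‖ζ‖ < 1 := by
    rw [hζ, norm_mul, Complex.norm_real, Real.norm_eq_abs, abs_of_nonneg (by linarith)]
    nlinarith [norm_nonneg l1]
  have hζl : ‖ζ - l1‖ ≤ η := by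
    have h1 : ζ - l1 = ((-η : ℝ) : ℂ) * l1 := by
      rw [hζ]; push_cast; ring
    rw [h1, norm_mul, Complex.norm_real, Real.norm_eq_abs, abs_neg, abs_of_pos hη]
    nlinarith [norm_nonneg l1]
  have hclose : ∀ c ∈ closedBall c1 s, ‖(RR d p ζ).eval c - (RR d p l1).eval c‖ < μ / 3 := by
    intro c hc
    have h1 := huc (ζ, c) ⟨by rw [mem_closedBall, dist_eq_norm]; linarith, hc⟩ (l1, c)
      ⟨mem_closedBall_self zero_le_one, hc⟩ (by
        rw [Prod.dist_eq, dist_self, dist_eq_norm]
        simp only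
        rw [max_eq_left (norm_nonneg _)]
        linarith)
    rwa [dist_eq_norm] at h1
  have hin : closedBall c1 s ⊆ ball c0 r := (closedBall_subset_ball hss0).trans hsub
  have hle := Complex.norm_le_of_forall_mem_frontier_norm_le (U := ball c1 s) isBounded_ball
    (f := fun c => ((RR d p ζ).eval c)⁻¹) (C := (2 * μ / 3)⁻¹) (z := c1) (by
      apply DifferentiableOn.diffContOnCl
      rw [closure_ball c1 hs.ne']
      intro c hc
      exact (((RR d p ζ).differentiable c).inv (hnz ζ hζn c (hin hc))).differentiableWithinAt)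
    (by
      intro c hc
      rw [frontier_ball c1 hs.ne'] at hc
      have h1 := hclose c (sphere_subset_closedBall hc)
      have h2 : μ ≤ ‖(RR d p l1).eval c‖ := hmin hc
      have h3 : ‖(RR d p l1).eval c‖ ≤ ‖(RR d p ζ).eval c‖ +
          ‖(RR d p ζ).eval c - (RR d p l1).eval c‖ := by
        have := norm_sub_le ((RR d p ζ).eval c) ((RR d p ζ).eval c - (RR d p l1).eval c)
        rwa [sub_sub_cancel] at this
      rw [norm_inv]
      apply inv_anti₀ (by positivity)
      linarith)
    (subset_closure (mem_ball_self hs))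
  have h1 := hclose c1 (mem_closedBall_self hs.le)
  rw [hzero, sub_zero] at h1
  have h2 : 0 < ‖(RR d p ζ).eval c1‖ := norm_pos_iff.mpr (hnz ζ hζn c1 hc1)
  rw [norm_inv] at hle
  have h3 := (inv_le_inv₀ h2 (by positivity)).mp hle
  linarith

end Pool.Agent.W677.VF
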