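import Mathlib
import Pool.Agent.W677.VF2

set_option autoImplicit false

/-! # Infinite critical orbits away from the attracting cycles -/

namespace Pool.Agent.W677.VF

open Complex Set Topology Filter Metric N62a1eb23 Pool.Agent.H712R2 Pool.Agent.H713R2

/-- Divided differences of the iterates. -/
noncomputable def HH (d : ℕ) : ℕ → ℂ → ℂ → ℂ → ℂ
  | 0 => fun _ _ _ => 1
  | p + 1 => fun c x y => HH d p c x y *
      ∑ i ∈ Finset.range d, ((fc d c)^[p] x) ^ i * ((fc d c)^[p] y) ^ (d - 1 - i)

theorem HH_spec (d p : ℕ) (c x y : ℂ) :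
    (fc d c)^[p] x - (fc d c)^[p] y = (x - y) * HH d p c x y := by
  induction p with
  | zero => simp [HH]
  | succ p ih =>
    rw [Function.iterate_succ_apply', Function.iterate_succ_apply']
    change (((fc d c)^[p] x) ^ d + c) - (((fc d c)^[p] y) ^ d + c) = (x - y) * (HH d p c x y *
      ∑ i ∈ Finset.range d, ((fc d c)^[p] x) ^ i * ((fc d c)^[p] y) ^ (d - 1 - i))
    rw [← mul_assoc, ← ih, mul_comm, geom_sum₂_mul]
    ring

theorem HH_deriv (d p : ℕ) (c x : ℂ) : HasDerivAt ((fc d c)^[p]) (HH d p c x x) x := by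
  induction p with
  | zero =>
    change HasDerivAt id (1 : ℂ) x
    exact hasDerivAt_id x
  | succ p ih =>
    rw [Function.iterate_succ']
    have h1 : HasDerivAt (fc d c) (d * ((fc d c)^[p] x) ^ (d - 1)) ((fc d c)^[p] x) :=
      (hasDerivAt_pow d _).add_const c
    have h2 := h1.comp x ih
    have h3 : HH d (p + 1) c x x = d * ((fc d c)^[p] x) ^ (d - 1) * HH d p c x x := by
      change HH d p c x x * ∑ i ∈ Finset.range d, ((fc d c)^[p] x) ^ i *
        ((fc d c)^[p] x) ^ (d - 1 - i) = _
      have h4 : ∑ i ∈ Finset.range d, ((fc d c)^[p] x) ^ i * ((fc d c)^[p] x) ^ (d - 1 - i) =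
          ∑ i ∈ Finset.range d, ((fc d c)^[p] x) ^ (d - 1) := by
        apply Finset.sum_congr rfl
        intro i hi
        rw [Finset.mem_range] at hi
        rw [← pow_add]
        congr 1
        omega
      rw [h4, Finset.sum_const, Finset.card_range, nsmul_eq_mul]
      ring
    rw [h3]
    exact h2

theorem iter_diff {d : ℕ} {a : ℂ → ℂ} (ha : Differentiable ℂ a) (p : ℕ) :
    Differentiable ℂ fun c => (fc d c)^[p] (a c) := by
  induction p with
  | zero => exact ha
  | succ p ih =>
    simp only [Function.iterate_succ_apply']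
    exact (ih.pow d).add differentiable_id

theorem HH_diff {d : ℕ} {a b : ℂ → ℂ} (ha : Differentiable ℂ a) (hb : Differentiable ℂ b) (p : ℕ) :
    Differentiable ℂ fun c => HH d p c (a c) (b c) := by
  induction p with
  | zero => exact differentiable_const _
  | succ p ih =>
    change Differentiable ℂ fun c => HH d p c (a c) (b c) *
      ∑ i ∈ Finset.range d, ((fc d c)^[p] (a c)) ^ i * ((fc d c)^[p] (b c)) ^ (d - 1 - i)
    refine ih.mul ?_
    have h1 := iter_diff (d := d) ha p
    have h2 := iter_diff (d := d) hb p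
    have h3 : ∀ i ∈ Finset.range d, Differentiable ℂ fun c =>
        ((fc d c)^[p] (a c)) ^ i * ((fc d c)^[p] (b c)) ^ (d - 1 - i) :=
      fun i _ => (h1.pow i).mul (h2.pow (d - 1 - i))
    have h4 := Differentiable.fun_sum h3
    exact h4

theorem P_add (d m p : ℕ) (c : ℂ) : P d (m + p) c = (fc d c)^[p] (P d m c) := by
  change (fc d c)^[m + p] 0 = (fc d c)^[p] ((fc d c)^[m] 0)
  rw [add_comm, Function.iterate_add_apply]

theorem PP_sub_ne {d : ℕ} (hd : 2 ≤ d) {k p : ℕ} (hp : 1 ≤ p) : PP d (k + p) - PP d k ≠ 0 := by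
  intro h
  have h1 : PP d (k + p) = PP d k := sub_eq_zero.mp h
  have h2 : (PP d (k + p)).natDegree = d ^ (k + p - 1) := by
    obtain ⟨m, hm⟩ := Nat.exists_eq_add_of_le' (show 1 ≤ k + p by omega)
    rw [hm, natDegree_PP hd, Nat.add_sub_cancel]
  rcases Nat.eq_zero_or_pos k with hk | hk
  · subst hk
    rw [h1] at h2
    have h3 : (PP d 0).natDegree = 0 := by simp [PP]
    rw [h3] at h2
    have : 0 < d ^ (0 + p - 1) := Nat.pow_pos (by omega)
    omega
  · have h3 : (PP d k).natDegree = d ^ (k - 1) := by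
      obtain ⟨m, hm⟩ := Nat.exists_eq_add_of_le' hk
      rw [hm, natDegree_PP hd, Nat.add_sub_cancel]
    rw [h1, h3] at h2
    have h4 : d ^ (k - 1) < d ^ (k + p - 1) := Nat.pow_lt_pow_right (by omega) (by omega)
    omega

/-- In a ball of parameters of the Multibrot set without attracting cycles the critical orbit is
infinite. -/
theorem P_distinct {d : ℕ} (hd : 2 ≤ d) {c0 : ℂ} {r : ℝ} (hr : 0 < r)
    (hc0 : c0 ∈ multibrotSet d)
    (hno : ∀ c ∈ ball c0 r, ¬ ∃ m z, IsAttractingCycle (fun z => z ^ d + c) m z)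
    {c1 : ℂ} (hc1 : c1 ∈ ball c0 r) {k p : ℕ} (hp : 1 ≤ p) :
    P d (k + p) c1 ≠ P d k c1 := by
  intro heq
  have hM := AR.ball_subset hd hr hc0 hno
  set w : ℂ := P d k c1 with hw
  have hper : (fc d c1)^[p] w = w := by rw [hw, ← P_add, heq]
  have hrep := no_indifferent hd hno hc1 hp hper
  rw [(HH_deriv d p c1 w).deriv] at hrep
  set l : ℝ := ‖HH d p c1 w w‖ with hl
  have hall : ∀ i, P d (k + i * p) c1 = w := by
    intro i
    induction i with
    | zero => rw [zero_mul, add_zero]
    | succ i ih =>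
      rw [show k + (i + 1) * p = (k + i * p) + p by ring, P_add, ih, hper]
  have hPd : ∀ m, Differentiable ℂ fun c => P d m c := fun m => differentiable_P d m
  -- the factors
  set h : ℕ → ℂ → ℂ := fun i c => HH d p c (P d (k + (i + 1) * p) c) (P d (k + i * p) c) with hh
  have hhd : ∀ i, Differentiable ℂ (h i) := fun i => HH_diff (hPd _) (hPd _) p
  set U : Polynomial ℂ := PP d (k + p) - PP d k with hU
  have hUe : ∀ c, U.eval c = P d (k + p) c - P d k c := by
    intro c
    rw [hU, Polynomial.eval_sub, eval_PP, eval_PP]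
  have hu : ∀ j c, P d (k + (j + 1) * p) c - P d (k + j * p) c =
      U.eval c * ∏ i ∈ Finset.range j, h i c := by
    intro j c
    induction j with
    | zero =>
      rw [hUe, Finset.range_zero, Finset.prod_empty, mul_one, zero_add, one_mul, zero_mul,
        add_zero]
    | succ j ih =>
      rw [Finset.prod_range_succ, ← mul_assoc, ← ih,
        show k + (j + 1 + 1) * p = (k + (j + 1) * p) + p by ring,
        show P d (k + (j + 1) * p) c = P d ((k + j * p) + p) c by congr 1; ring,
        P_add, P_add d (k + j * p) p c, HH_spec]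
      simp only [hh]
      rw [show P d (k + (j + 1) * p) c = P d ((k + j * p) + p) c by congr 1; ring, P_add]
  have hUne : U ≠ 0 := PP_sub_ne hd hp
  obtain ⟨q, hq1, hq2⟩ := Polynomial.exists_eq_pow_rootMultiplicity_mul_and_not_dvd U hUne c1
  set Q : ℕ := Polynomial.rootMultiplicity c1 U with hQ
  have hqc : q.eval c1 ≠ 0 := by
    intro h0
    exact hq2 (Polynomial.dvd_iff_isRoot.mpr h0)
  obtain ⟨s0, hs0, hsub⟩ := Metric.isOpen_iff.mp isOpen_ball c1 hc1
  set s : ℝ := s0 / 2 with hs
  have hspos : 0 < s := by positivity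
  have hin : closedBall c1 s ⊆ ball c0 r :=
    (closedBall_subset_ball (by rw [hs]; linarith)).trans hsub
  have key : ∀ j : ℕ, ‖q.eval c1‖ * l ^ j ≤ 4 / s ^ Q := by
    intro j
    have hle := Complex.norm_le_of_forall_mem_frontier_norm_le (U := ball c1 s) isBounded_ball
      (f := fun c => q.eval c * ∏ i ∈ Finset.range j, h i c) (C := 4 / s ^ Q) (z := c1) (by
        apply Differentiable.diffContOnCl
        have h3 : ∀ i ∈ Finset.range j, Differentiable ℂ (h i) := fun i _ => hhd i
        exact (q.differentiable).mul (Differentiable.fun_finset_prod h3))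
      (by
        intro c hc
        rw [frontier_ball c1 hspos.ne'] at hc
        have hcs : ‖c - c1‖ = s := by rwa [mem_sphere_iff_norm] at hc
        have hcM := hM (hin (sphere_subset_closedBall hc))
        have hb := (mem_multibrot_iff hd c).mp hcM
        have h1 := hu j c
        have h2 : ‖P d (k + (j + 1) * p) c - P d (k + j * p) c‖ ≤ 4 := by
          have := norm_sub_le (P d (k + (j + 1) * p) c) (P d (k + j * p) c)
          linarith [hb (k + (j + 1) * p), hb (k + j * p)]
        rw [h1, hq1, Polynomial.eval_mul, Polynomial.eval_pow, Polynomial.eval_sub,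
          Polynomial.eval_X, Polynomial.eval_C, mul_assoc, norm_mul, norm_pow, hcs] at h2
        rw [le_div_iff₀ (by positivity)]
        linarith)
      (subset_closure (mem_ball_self hspos))
    simp only [norm_mul, norm_prod] at hle
    have h4 : ∏ i ∈ Finset.range j, ‖h i c1‖ = l ^ j := by
      have h5 : ∀ i ∈ Finset.range j, ‖h i c1‖ = l := by
        intro i _
        simp only [hh]
        rw [hall, hall]
      rw [Finset.prod_congr rfl h5, Finset.prod_const, Finset.card_range]
    rwa [h4] at hle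
  have hq0 : 0 < ‖q.eval c1‖ := norm_pos_iff.mpr hqc
  have ht : Tendsto (fun j : ℕ => ‖q.eval c1‖ * l ^ j) atTop atTop :=
    (tendsto_pow_atTop_atTop_of_one_lt hrep).const_mul_atTop hq0
  obtain ⟨j, hj⟩ := (ht.eventually_gt_atTop (4 / s ^ Q)).exists
  linarith [key j]

end Pool.Agent.W677.VF
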