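import Mathlib
import Pool.Agent.H749R2.Hyp1
import Pool.Agent.Lev.J_schottky
import Pool.Agent.W677.VF3

set_option autoImplicit false

/-! # Three function-theoretic estimates -/

namespace Pool.Agent.W677.VF

open Complex Set Topology Filter Metric

/-- A holomorphic branch of the logarithm on a ball. -/
theorem exists_log_ball {f : ℂ → ℂ} {c : ℂ} {r : ℝ} (hr : 0 < r)
    (hf : DifferentiableOn ℂ f (ball c r)) (h0 : ∀ z ∈ ball c r, f z ≠ 0) :
    ∃ g : ℂ → ℂ, DifferentiableOn ℂ g (ball c r) ∧ g c = log (f c) ∧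
      ∀ z ∈ ball c r, exp (g z) = f z := by
  have hcm : c ∈ ball c r := mem_ball_self hr
  have hd : DifferentiableOn ℂ (fun z => deriv f z / f z) (ball c r) :=
    (hf.deriv isOpen_ball).div hf h0
  obtain ⟨F, hF0, hF⟩ := hd.isExactOn_ball.with_val_at c (Complex.log (f c))
  have hFd : DifferentiableOn ℂ F (ball c r) :=
    fun z hz => (hF z hz).differentiableAt.differentiableWithinAt
  refine ⟨F, hFd, hF0, fun z hz => ?_⟩
  have hc : f z * exp (-F z) = f c * exp (-F c) := by
    refine isOpen_ball.is_const_of_deriv_eq_zero (convex_ball c r).isPreconnected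
      (f := fun z => f z * exp (-F z)) (hf.mul hFd.neg.cexp) ?_ hz hcm
    intro x hx
    have h1 : HasDerivAt f (deriv f x) x :=
      (hf.differentiableAt (isOpen_ball.mem_nhds hx)).hasDerivAt
    have h2 := h1.mul (hF x hx).neg.cexp
    simp only [Pi.zero_apply]
    refine Eq.trans h2.deriv ?_
    have := h0 x hx
    field_simp
    ring
  rw [hF0, exp_neg, exp_neg, exp_log (h0 c hcm), mul_inv_cancel₀ (h0 c hcm)] at hc
  exact (mul_inv_eq_one₀ (exp_ne_zero (F z)) |>.1 hc).symm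

/-- Harnack's inequality for `log (4 / |u|)`. -/
theorem harnack {u : ℂ → ℂ} {c : ℂ} {r : ℝ} (hr : 0 < r)
    (hu : DifferentiableOn ℂ u (ball c r)) (h0 : ∀ z ∈ ball c r, u z ≠ 0)
    (hb : ∀ z ∈ ball c r, ‖u z‖ ≤ 4) {c' : ℂ} (hc' : c' ∈ ball c r) :
    r * |Real.log ‖u c‖ - Real.log ‖u c'‖| ≤
      dist c c' * (Real.log (4 / ‖u c‖) + Real.log (4 / ‖u c'‖)) := by
  have hcm : c ∈ ball c r := mem_ball_self hr
  obtain ⟨g, hg, -, hge⟩ := exists_log_ball hr hu h0
  have hre : ∀ z ∈ ball c r, (g z).re = Real.log ‖u z‖ := by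
    intro z hz
    rw [← hge z hz, Complex.norm_exp, Real.log_exp]
  apply le_of_forall_pos_le_add
  intro η hη
  -- the function with positive real part
  obtain ⟨τ, hτ, hτη⟩ : ∃ τ : ℝ, 0 < τ ∧ dist c c' * (2 * τ) ≤ η := by
    refine ⟨η / (2 * (dist c c' + 1)), by positivity, ?_⟩
    have h1 : 0 ≤ dist c c' := dist_nonneg
    rw [show dist c c' * (2 * (η / (2 * (dist c c' + 1)))) = dist c c' * η / (dist c c' + 1) by
      field_simp]
    rw [div_le_iff₀ (by positivity)]
    nlinarith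
  set G : ℂ → ℂ := fun z => ((Real.log 4 + τ : ℝ) : ℂ) - g z with hG
  have hGd : DifferentiableOn ℂ G (ball c r) := (differentiableOn_const _).sub hg
  have hGre : ∀ z ∈ ball c r, (G z).re = Real.log (4 / ‖u z‖) + τ := by
    intro z hz
    have h1 : 0 < ‖u z‖ := norm_pos_iff.mpr (h0 z hz)
    rw [Real.log_div (by norm_num) h1.ne', hG]
    simp only [sub_re, ofReal_re]
    rw [hre z hz]
    ring
  have hGpos : ∀ z ∈ ball c r, 0 < (G z).re := by
    intro z hz
    rw [hGre z hz]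
    have h1 : 0 < ‖u z‖ := norm_pos_iff.mpr (h0 z hz)
    have h2 : 0 ≤ Real.log (4 / ‖u z‖) := by
      apply Real.log_nonneg
      rw [le_div_iff₀ h1]
      linarith [hb z hz]
    linarith
  set φ : ℂ → ℂ := fun z => (G z - G c) / (G z + starRingEnd ℂ (G c)) with hφ
  have hden : ∀ z ∈ ball c r, G z + starRingEnd ℂ (G c) ≠ 0 := by
    intro z hz h
    have h1 := congrArg Complex.re h
    rw [add_re, conj_re, zero_re] at h1
    linarith [hGpos z hz, hGpos c hcm]
  have hφd : DifferentiableOn ℂ φ (ball c r) :=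
    (hGd.sub (differentiableOn_const _)).div (hGd.add (differentiableOn_const _)) hden
  have hsq : ∀ z, normSq (G z + starRingEnd ℂ (G c)) - normSq (G z - G c) =
      4 * (G z).re * (G c).re := by
    intro z
    rw [normSq_apply, normSq_apply]
    simp only [add_re, add_im, sub_re, sub_im, conj_re, conj_im]
    ring
  have hmaps : MapsTo φ (ball c r) (ball (φ c) 1) := by
    intro z hz
    have hφc : φ c = 0 := by simp [hφ]
    rw [hφc, mem_ball_zero_iff, hφ]
    simp only
    rw [norm_div, div_lt_one (norm_pos_iff.mpr (hden z hz))]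
    apply lt_of_pow_lt_pow_left₀ 2 (norm_nonneg _)
    rw [← normSq_eq_norm_sq, ← normSq_eq_norm_sq]
    have := hsq z
    have h1 := mul_pos (hGpos z hz) (hGpos c hcm)
    linarith
  have hsch := Complex.dist_le_div_mul_dist_of_mapsTo_ball hφd
    (hmaps.mono_right ball_subset_closedBall) hc'
  have hφc : φ c = 0 := by simp [hφ]
  rw [hφc, dist_zero_right, hφ] at hsch
  simp only at hsch
  rw [norm_div, div_le_iff₀ (norm_pos_iff.mpr (hden c' hc'))] at hsch
  set t : ℝ := 1 / r * dist c' c with ht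
  have ht0 : 0 ≤ t := by positivity
  have ht1 : t < 1 := by
    rw [ht, one_div, inv_mul_lt_iff₀ hr, mul_one]
    exact hc'
  set x : ℝ := (G c').re with hx
  set A : ℝ := (G c).re with hA
  have hxp : 0 < x := hGpos c' hc'
  have hAp : 0 < A := hGpos c hcm
  have hmain : |x - A| ≤ t * (x + A) := by
    have h1 : ‖G c' - G c‖ ^ 2 ≤ t ^ 2 * ‖G c' + starRingEnd ℂ (G c)‖ ^ 2 := by
      rw [← mul_pow]
      exact pow_le_pow_left₀ (norm_nonneg _) hsch 2
    rw [← normSq_eq_norm_sq, ← normSq_eq_norm_sq, normSq_apply, normSq_apply] at h1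
    simp only [add_re, add_im, sub_re, sub_im, conj_re, conj_im] at h1
    rw [← hx, ← hA] at h1
    apply abs_le_of_sq_le_sq _ (by positivity)
    have h2 : 0 ≤ (1 - t ^ 2) * ((G c').im - (G c).im) ^ 2 := by
      apply mul_nonneg _ (sq_nonneg _)
      nlinarith
    nlinarith
  have e1 : |Real.log ‖u c‖ - Real.log ‖u c'‖| = |x - A| := by
    rw [hx, hA, hG]
    simp only [sub_re, ofReal_re]
    rw [hre c hcm, hre c' hc']
    congr 1
    ring
  rw [e1]
  have e2 : x + A = (Real.log (4 / ‖u c‖) + Real.log (4 / ‖u c'‖)) + 2 * τ := by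
    rw [hx, hA, hGre c' hc', hGre c hcm]
    ring
  calc r * |x - A| ≤ r * (t * (x + A)) := mul_le_mul_of_nonneg_left hmain hr.le
    _ = dist c c' * (x + A) := by
        rw [ht, dist_comm c' c]
        field_simp
    _ = dist c c' * (Real.log (4 / ‖u c‖) + Real.log (4 / ‖u c'‖)) + dist c c' * (2 * τ) := by
        rw [e2]; ring
    _ ≤ _ := by linarith

/-- The Schwarz-Pick estimate for nonvanishing functions. -/
theorem log_lip {u : ℂ → ℂ} {c : ℂ} {r : ℝ} (hr : 0 < r)
    (hu : DifferentiableOn ℂ u (ball c r)) (h0 : ∀ z ∈ ball c r, u z ≠ 0)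
    (hb : ∀ z ∈ ball c r, ‖u z‖ ≤ 4) :
    r * ‖deriv u c‖ ≤ 2 * ‖u c‖ * Real.log (4 / ‖u c‖) := by
  have hcm : c ∈ ball c r := mem_ball_self hr
  have h1 := Pool.Agent.H749R2.Hyp.log_schwarz (h := fun z => (u z)⁻¹) (m := 1 / 4) hr
    (by norm_num) (hu.inv h0) (by
      intro z hz
      rw [norm_inv, one_div]
      exact inv_anti₀ (norm_pos_iff.mpr (h0 z hz)) (hb z hz))
  have hd : HasDerivAt u (deriv u c) c :=
    (hu.differentiableAt (isOpen_ball.mem_nhds hcm)).hasDerivAt
  have h2 : deriv (fun z => (u z)⁻¹) c = -deriv u c / u c ^ 2 := (hd.inv (h0 c hcm)).deriv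
  have hn : 0 < ‖u c‖ := norm_pos_iff.mpr (h0 c hcm)
  rw [h2, norm_div, norm_neg, norm_pow, norm_inv] at h1
  have e : ‖u c‖⁻¹ / (1 / 4) = 4 / ‖u c‖ := by field_simp
  rw [e] at h1
  have h3 := mul_le_mul_of_nonneg_right h1 (sq_nonneg ‖u c‖)
  have e2 : ‖deriv u c‖ / ‖u c‖ ^ 2 * r * ‖u c‖ ^ 2 = r * ‖deriv u c‖ := by field_simp
  have e3 : 2 * ‖u c‖⁻¹ * Real.log (4 / ‖u c‖) * ‖u c‖ ^ 2 =
      2 * ‖u c‖ * Real.log (4 / ‖u c‖) := by field_simp
  rw [e2, e3] at h3
  exact h3

/-- Landau's theorem in logarithmic form. -/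
theorem landau : ∃ C : ℝ, 0 < C ∧ ∀ (f : ℂ → ℂ) (c : ℂ) (r : ℝ), 0 < r →
    DifferentiableOn ℂ f (ball c r) → (∀ z ∈ ball c r, f z ≠ 0 ∧ f z ≠ 1) →
    r * ‖deriv f c / f c‖ ≤ C * (1 + |Real.log ‖f c‖|) := by
  obtain ⟨C1, hC1⟩ := Pool.Agent.Lev.J_schottky.main 1
  refine ⟨8 * Real.pi * (|C1| + 1) * 4, by positivity, ?_⟩
  intro f c r hr hf h01
  have hcm : c ∈ ball c r := mem_ball_self hr
  obtain ⟨g, hg, hgc, hge⟩ := exists_log_ball hr hf (fun z hz => (h01 z hz).1)
  set N : ℕ := ⌈‖g c‖ / (2 * Real.pi)⌉₊ + 1 with hN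
  have hN1 : (1 : ℝ) ≤ N := by rw [hN]; push_cast; linarith [Nat.cast_nonneg (α := ℝ) ⌈‖g c‖ / (2 * Real.pi)⌉₊]
  have hNg : ‖g c‖ / (2 * Real.pi) ≤ N := by
    rw [hN]; push_cast
    linarith [Nat.le_ceil (‖g c‖ / (2 * Real.pi))]
  have hNg2 : (N : ℝ) ≤ ‖g c‖ / (2 * Real.pi) + 2 := by
    rw [hN]; push_cast
    have := Nat.ceil_lt_add_one (a := ‖g c‖ / (2 * Real.pi)) (by positivity)
    linarith
  have hNC : (N : ℂ) ≠ 0 := by
    have : (0 : ℝ) < N := by linarith
    exact_mod_cast this.ne'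
  have h2pi : (2 * Real.pi * I : ℂ) ≠ 0 := Complex.two_pi_I_ne_zero
  set G : ℂ → ℂ := fun z => g z / (2 * Real.pi * I * N) with hG
  have hGd : DifferentiableOn ℂ G (ball c r) := hg.div_const _
  have hG01 : ∀ z ∈ ball c r, G z ≠ 0 ∧ G z ≠ 1 := by
    intro z hz
    constructor
    · intro h
      apply (h01 z hz).2
      have h1 : g z = 0 := by
        simp only [hG] at h
        rcases div_eq_zero_iff.mp h with h | h
        · exact h
        · exact absurd h (mul_ne_zero h2pi hNC)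
      rw [← hge z hz, h1, exp_zero]
    · intro h
      apply (h01 z hz).2
      have h1 : g z = N * (2 * Real.pi * I) := by
        simp only [hG] at h
        rw [div_eq_one_iff_eq (mul_ne_zero h2pi hNC)] at h
        rw [h]; ring
      rw [← hge z hz, h1, Complex.exp_nat_mul_two_pi_mul_I]
  have hnorm2pi : ‖(2 * Real.pi * I * N : ℂ)‖ = 2 * Real.pi * N := by
    rw [norm_mul, norm_mul, norm_mul, Complex.norm_I, Complex.norm_natCast, Complex.norm_real,
      Real.norm_eq_abs, abs_of_pos Real.pi_pos]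
    norm_num
  have hGc : ‖G c‖ ≤ 1 := by
    simp only [hG]
    rw [norm_div, hnorm2pi, div_le_one (by positivity)]
    rw [div_le_iff₀ (by positivity)] at hNg
    linarith
  have hbd := hC1 G c r hr hGd hG01 hGc
  -- Cauchy estimate
  have hcauchy : ‖deriv G c‖ ≤ (|C1| + 1) / (r / 4) := by
    apply Complex.norm_deriv_le_of_forall_mem_sphere_norm_le (by positivity)
    · apply DifferentiableOn.diffContOnCl
      rw [closure_ball c (by positivity : r / 4 ≠ 0)]
      exact hGd.mono (closedBall_subset_ball (by linarith))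
    · intro z hz
      have h1 := hbd z (by
        rw [mem_sphere_iff_norm] at hz
        rw [mem_ball_iff_norm, hz]
        linarith)
      have h2 := le_abs_self C1
      linarith
  have hgd : HasDerivAt g (deriv g c) c :=
    (hg.differentiableAt (isOpen_ball.mem_nhds hcm)).hasDerivAt
  have hderG : deriv G c = deriv g c / (2 * Real.pi * I * N) := (hgd.div_const _).deriv
  have hfd : deriv f c = f c * deriv g c := by
    have h1 : f =ᶠ[𝓝 c] fun z => exp (g z) := by
      filter_upwards [isOpen_ball.mem_nhds hcm] with z hz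
      exact (hge z hz).symm
    rw [h1.deriv_eq, hgd.cexp.deriv, hge c hcm]
  have hquot : deriv f c / f c = deriv g c := by
    rw [hfd, mul_div_cancel_left₀ _ (h01 c hcm).1]
  rw [hquot]
  have h5 : ‖deriv g c‖ = ‖deriv G c‖ * (2 * Real.pi * N) := by
    rw [hderG, norm_div, hnorm2pi]
    field_simp
  have hgcn : ‖g c‖ ≤ |Real.log ‖f c‖| + Real.pi := by
    rw [hgc]
    have h6 := Complex.norm_le_abs_re_add_abs_im (log (f c))
    rw [Complex.log_re] at h6
    have h7 : |(log (f c)).im| ≤ Real.pi := by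
      rw [Complex.log_im]
      exact Complex.abs_arg_le_pi _
    linarith
  have hN4 : (N : ℝ) ≤ 4 * (1 + |Real.log ‖f c‖|) := by
    have h8 : ‖g c‖ / (2 * Real.pi) ≤ |Real.log ‖f c‖| + 1 := by
      rw [div_le_iff₀ (by positivity)]
      have := Real.pi_gt_three
      have h9 := abs_nonneg (Real.log ‖f c‖)
      nlinarith
    have h9 := abs_nonneg (Real.log ‖f c‖)
    linarith
  have hpi := Real.pi_pos
  calc r * ‖deriv g c‖ = r * (‖deriv G c‖ * (2 * Real.pi * N)) := by rw [h5]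
    _ ≤ r * ((|C1| + 1) / (r / 4) * (2 * Real.pi * N)) := by gcongr
    _ = 8 * Real.pi * (|C1| + 1) * N := by field_simp; ring
    _ ≤ 8 * Real.pi * (|C1| + 1) * (4 * (1 + |Real.log ‖f c‖|)) := by gcongr
    _ = _ := by ring

end Pool.Agent.W677.VF
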