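import Mathlib
import Pool.Agent.W677.VF4

set_option autoImplicit false

/-! # Effective density of hyperbolicity from the motion of the critical orbit -/

namespace Pool.Agent.W677.VF

open Complex Set Topology Filter Metric N62a1eb23 Pool.Agent.H712R2 Pool.Agent.H713R2

/-- The parameters `c` for which `z ^ n + c` has an attracting cycle. -/
def hyp (n : ℕ) : Set ℂ := {c | ∃ m z, IsAttractingCycle (fun z => z ^ n + c) m z}

theorem no_hyp {n : ℕ} {c : ℂ} {c' : ℂ} (hc' : c' ∈ ball c (infDist c (hyp n))) :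
    ¬ ∃ m z, IsAttractingCycle (fun z => z ^ n + c') m z := by
  intro h
  have h1 : c' ∈ hyp n := h
  have h2 := infDist_le_dist_of_mem (x := c) h1
  rw [mem_ball, dist_comm] at hc'
  linarith

theorem distinct {n : ℕ} (hn : 2 ≤ n) {c : ℂ} (hc : c ∈ multibrotSet n)
    (hδ : 0 < infDist c (hyp n)) {c' : ℂ} (hc' : c' ∈ ball c (infDist c (hyp n)))
    {j k : ℕ} (hjk : j ≠ k) : P n j c' ≠ P n k c' := by
  rcases lt_or_gt_of_ne hjk with h | h
  · obtain ⟨p, rfl⟩ := Nat.exists_eq_add_of_lt h
    have h1 := P_distinct hn hδ hc (fun x hx => no_hyp hx) hc' (k := j) (p := p + 1) (by omega)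
    rw [← add_assoc] at h1
    exact h1.symm
  · obtain ⟨p, rfl⟩ := Nat.exists_eq_add_of_lt h
    have h1 := P_distinct hn hδ hc (fun x hx => no_hyp hx) hc' (k := k) (p := p + 1) (by omega)
    rwa [← add_assoc] at h1

theorem P_diff (n j : ℕ) : Differentiable ℂ (P n j) := differentiable_P n j

theorem sub_le_four {n : ℕ} (hn : 2 ≤ n) {c : ℂ} (hc : c ∈ multibrotSet n) (j k : ℕ) :
    ‖P n j c - P n k c‖ ≤ 4 := by
  have h := (mem_multibrot_iff hn c).mp hc
  have := norm_sub_le (P n j c) (P n k c)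
  linarith [h j, h k]

theorem log_nonneg4 {n : ℕ} (hn : 2 ≤ n) {c : ℂ} (hc : c ∈ multibrotSet n) {j k : ℕ}
    (hne : P n j c ≠ P n k c) : 0 ≤ Real.log (4 / ‖P n j c - P n k c‖) := by
  have h1 : 0 < ‖P n j c - P n k c‖ := norm_pos_iff.mpr (sub_ne_zero.mpr hne)
  apply Real.log_nonneg
  rw [le_div_iff₀ h1]
  linarith [sub_le_four hn hc j k]

theorem coincidence {n : ℕ} (hn : 2 ≤ n) {c : ℂ} (hc : c ∈ multibrotSet n) {j k : ℕ}
    (hjk : j ≠ k) (h : P n j c = P n k c) : infDist c (hyp n) = 0 := by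
  by_contra hcon
  have hδ : 0 < infDist c (hyp n) := lt_of_le_of_ne infDist_nonneg (Ne.symm hcon)
  exact distinct hn hc hδ (mem_ball_self hδ) hjk h

theorem two_parameters {n : ℕ} (hn : 2 ≤ n) {c : ℂ} (hc : c ∈ multibrotSet n) {c' : ℂ}
    (hc' : c' ∈ multibrotSet n) {j k : ℕ} (h1 : P n j c ≠ P n k c) (h2 : P n j c' ≠ P n k c') :
    infDist c (hyp n) * |Real.log ‖P n j c - P n k c‖ - Real.log ‖P n j c' - P n k c'‖| ≤
      dist c c' * (Real.log (4 / ‖P n j c - P n k c‖) + Real.log (4 / ‖P n j c' - P n k c'‖)) := by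
  have hjk : j ≠ k := fun h => h1 (by rw [h])
  have hA := log_nonneg4 hn hc h1
  have hA' := log_nonneg4 hn hc' h2
  have hn1 : 0 < ‖P n j c - P n k c‖ := norm_pos_iff.mpr (sub_ne_zero.mpr h1)
  have hn2 : 0 < ‖P n j c' - P n k c'‖ := norm_pos_iff.mpr (sub_ne_zero.mpr h2)
  rcases lt_or_ge (dist c c') (infDist c (hyp n)) with hlt | hge
  · have hδ : 0 < infDist c (hyp n) := lt_of_le_of_lt dist_nonneg hlt
    have hM := AR.ball_subset hn hδ hc (fun x hx => no_hyp hx)
    exact harnack hδ (((P_diff n j).sub (P_diff n k)).differentiableOn)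
      (fun z hz => sub_ne_zero.mpr (distinct hn hc hδ hz hjk))
      (fun z hz => sub_le_four hn (hM hz) j k) (by rw [mem_ball, dist_comm]; exact hlt)
  · have e1 : Real.log ‖P n j c - P n k c‖ - Real.log ‖P n j c' - P n k c'‖ =
        Real.log (4 / ‖P n j c' - P n k c'‖) - Real.log (4 / ‖P n j c - P n k c‖) := by
      rw [Real.log_div (by norm_num) hn1.ne', Real.log_div (by norm_num) hn2.ne']
      ring
    rw [e1]
    have h3 : |Real.log (4 / ‖P n j c' - P n k c'‖) - Real.log (4 / ‖P n j c - P n k c‖)| ≤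
        Real.log (4 / ‖P n j c - P n k c‖) + Real.log (4 / ‖P n j c' - P n k c'‖) := by
      rw [abs_le]
      constructor <;> linarith
    exact mul_le_mul hge h3 (abs_nonneg _) dist_nonneg

theorem velocities {n : ℕ} (hn : 2 ≤ n) {c : ℂ} (hc : c ∈ multibrotSet n) (j k : ℕ) :
    infDist c (hyp n) * ‖deriv (P n j) c - deriv (P n k) c‖ ≤
      2 * ‖P n j c - P n k c‖ * Real.log (4 / ‖P n j c - P n k c‖) := by
  by_cases hjk : j = k
  · rw [hjk]
    simp
  rcases lt_or_eq_of_le (infDist_nonneg (x := c) (s := hyp n)) with hδ | hδ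
  · have hM := AR.ball_subset hn hδ hc (fun x hx => no_hyp hx)
    have h1 := log_lip hδ (((P_diff n j).sub (P_diff n k)).differentiableOn)
      (fun z hz => sub_ne_zero.mpr (distinct hn hc hδ hz hjk))
      (fun z hz => sub_le_four hn (hM hz) j k)
    have h2 : deriv (P n j - P n k) c = deriv (P n j) c - deriv (P n k) c :=
      deriv_sub (P_diff n j c) (P_diff n k c)
    rw [h2] at h1
    exact h1
  · rw [← hδ, zero_mul]
    by_cases h : P n j c = P n k c
    · rw [h, sub_self, norm_zero]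
      simp
    · have := log_nonneg4 hn hc h
      positivity

theorem three_times : ∃ C : ℝ, 0 < C ∧ ∀ n : ℕ, 2 ≤ n → ∀ c ∈ multibrotSet n, ∀ j k l : ℕ,
    P n j c ≠ P n k c → P n l c ≠ P n k c → P n j c ≠ P n l c →
    infDist c (hyp n) * ‖(deriv (P n j) c - deriv (P n k) c) / (P n j c - P n k c) -
      (deriv (P n l) c - deriv (P n k) c) / (P n l c - P n k c)‖ ≤
      C * (1 + |Real.log (‖P n j c - P n k c‖ / ‖P n l c - P n k c‖)|) := by
  obtain ⟨C, hC, hL⟩ := landau
  refine ⟨C, hC, ?_⟩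
  intro n hn c hc j k l h1 h2 h3
  rcases lt_or_eq_of_le (infDist_nonneg (x := c) (s := hyp n)) with hδ | hδ
  · have hjk : j ≠ k := fun h => h1 (by rw [h])
    have hlk : l ≠ k := fun h => h2 (by rw [h])
    have hjl : j ≠ l := fun h => h3 (by rw [h])
    have hd1 : Differentiable ℂ fun z => P n j z - P n k z := (P_diff n j).sub (P_diff n k)
    have hd2 : Differentiable ℂ fun z => P n l z - P n k z := (P_diff n l).sub (P_diff n k)
    have hne1 : ∀ z ∈ ball c (infDist c (hyp n)), P n j z - P n k z ≠ 0 := fun z hz =>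
      sub_ne_zero.mpr (distinct hn hc hδ hz hjk)
    have hne2 : ∀ z ∈ ball c (infDist c (hyp n)), P n l z - P n k z ≠ 0 := fun z hz =>
      sub_ne_zero.mpr (distinct hn hc hδ hz hlk)
    have h4 := hL (fun z => (P n j z - P n k z) / (P n l z - P n k z)) c _ hδ
      (hd1.differentiableOn.div hd2.differentiableOn hne2) (fun z hz => by
        refine ⟨div_ne_zero (hne1 z hz) (hne2 z hz), ?_⟩
        intro h
        rw [div_eq_one_iff_eq (hne2 z hz)] at h
        exact distinct hn hc hδ hz hjl (by linear_combination h))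
    have hcm := mem_ball_self (x := c) hδ
    have e1 : HasDerivAt (fun z => P n j z - P n k z) (deriv (P n j) c - deriv (P n k) c) c :=
      (P_diff n j c).hasDerivAt.sub (P_diff n k c).hasDerivAt
    have e2 : HasDerivAt (fun z => P n l z - P n k z) (deriv (P n l) c - deriv (P n k) c) c :=
      (P_diff n l c).hasDerivAt.sub (P_diff n k c).hasDerivAt
    have e3 := (e1.div e2 (hne2 c hcm)).deriv
    have e4 : deriv (fun z => (P n j z - P n k z) / (P n l z - P n k z)) c /
        ((P n j c - P n k c) / (P n l c - P n k c)) =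
        (deriv (P n j) c - deriv (P n k) c) / (P n j c - P n k c) -
        (deriv (P n l) c - deriv (P n k) c) / (P n l c - P n k c) := by
      have e5 : deriv (fun z => (P n j z - P n k z) / (P n l z - P n k z)) c = _ := e3
      rw [e5]
      have := hne1 c hcm
      have := hne2 c hcm
      field_simp
    rw [e4, norm_div] at h4
    exact h4
  · rw [← hδ, zero_mul]
    positivity

end Pool.Agent.W677.VF
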