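import Mathlib
import Pool.Agent.W677.VF5

set_option autoImplicit false

/-! # Continuation of the periodic points over a ball without attracting parameters -/

namespace Pool.Agent.W677.VF

open Complex Set Topology Filter Metric N62a1eb23 Pool.Agent.H712R2 Pool.Agent.H713R2

/-- The iterate as a function of parameter and point. -/
def FI (d p : ℕ) (q : ℂ × ℂ) : ℂ := (fc d q.1)^[p] q.2

theorem FI_succ (d p : ℕ) (q : ℂ × ℂ) : FI d (p + 1) q = FI d p q ^ d + q.1 := by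
  unfold FI
  rw [Function.iterate_succ_apply']
  rfl

theorem contDiff_FI (d p : ℕ) : ContDiff ℂ ⊤ (FI d p) := by
  induction p with
  | zero =>
    have : FI d 0 = fun q : ℂ × ℂ => q.2 := rfl
    rw [this]
    exact contDiff_snd
  | succ p ih =>
    have : FI d (p + 1) = fun q : ℂ × ℂ => FI d p q ^ d + q.1 := funext (FI_succ d p)
    rw [this]
    exact (ih.pow d).add contDiff_fst

/-- The map `(c, z) ↦ (c, f_c ^ p (z) - z)`. -/
def HE (d p : ℕ) (q : ℂ × ℂ) : ℂ × ℂ := (q.1, FI d p q - q.2)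

theorem contDiff_HE (d p : ℕ) : ContDiff ℂ ⊤ (HE d p) :=
  contDiff_fst.prodMk ((contDiff_FI d p).sub contDiff_snd)

theorem FI_growth {d : ℕ} (hd : 2 ≤ d) {q : ℂ × ℂ} (hq : ‖q.1‖ + 3 ≤ ‖q.2‖) (p : ℕ) :
    (2 : ℝ) ^ p * ‖q.2‖ ≤ ‖FI d p q‖ := by
  induction p with
  | zero => simp [FI]
  | succ p ih =>
    rw [FI_succ]
    have h0 : 1 ≤ (2 : ℝ) ^ p := one_le_pow₀ (by norm_num)
    have hq1 := norm_nonneg q.1
    have h1 : ‖q.2‖ ≤ ‖FI d p q‖ := by nlinarith
    have h2 : ‖FI d p q‖ ^ 2 ≤ ‖FI d p q‖ ^ d := pow_le_pow_right₀ (by linarith) hd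
    have h3 : ‖FI d p q‖ ^ d ≤ ‖FI d p q ^ d + q.1‖ + ‖q.1‖ := by
      rw [← norm_pow]
      have := norm_sub_le (FI d p q ^ d + q.1) q.1
      rwa [add_sub_cancel_right] at this
    have h4 : 2 * ‖FI d p q‖ ≤ ‖FI d p q ^ d + q.1‖ := by nlinarith
    rw [pow_succ]
    nlinarith

theorem HE_norm {d p : ℕ} (hd : 2 ≤ d) (hp : 1 ≤ p) (q : ℂ × ℂ) : ‖q‖ ≤ ‖HE d p q‖ + 3 := by
  have h1 : ‖q.1‖ ≤ ‖HE d p q‖ := norm_fst_le (HE d p q)
  have h2 : ‖FI d p q - q.2‖ ≤ ‖HE d p q‖ := norm_snd_le (HE d p q)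
  rw [Prod.norm_def]
  apply max_le
  · linarith
  · rcases lt_or_ge ‖q.2‖ (‖q.1‖ + 3) with h | h
    · linarith
    · have h3 := FI_growth hd h p
      have h4 : (2 : ℝ) ^ 1 ≤ 2 ^ p := pow_le_pow_right₀ (by norm_num) hp
      have h5 := norm_sub_norm_le (FI d p q) q.2
      have h6 := norm_nonneg q.2
      nlinarith

theorem closed_HE {d p : ℕ} (hd : 2 ≤ d) (hp : 1 ≤ p) : IsClosedMap (HE d p) := by
  have h : IsProperMap (HE d p) := by
    rw [isProperMap_iff_tendsto_cocompact]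
    refine ⟨(contDiff_HE d p).continuous, ?_⟩
    rw [← Metric.cobounded_eq_cocompact, ← tendsto_norm_atTop_iff_cobounded]
    apply tendsto_atTop_mono (f := fun q => ‖q‖ - 3)
    · intro q
      linarith [HE_norm hd hp q]
    · exact tendsto_atTop_add_const_right _ _ tendsto_norm_cobounded_atTop
  exact h.isClosedMap

theorem finite_fibre {d p : ℕ} (hd : 2 ≤ d) (hp : 1 ≤ p) (x : ℂ) :
    {w : ℂ | (fc d x)^[p] w = w}.Finite := by
  have hne : (FF d p).map (Polynomial.evalRingHom x) ≠ 0 :=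
    ((FF_monic hd hp).map _).ne_zero
  refine ((FF d p).map (Polynomial.evalRingHom x)).roots.toFinset.finite_toSet.subset
    fun w hw => ?_
  simp only [Finset.mem_coe, Multiset.mem_toFinset]
  rw [Polynomial.mem_roots hne, Polynomial.IsRoot.def]
  unfold FF
  rw [Polynomial.map_sub, Polynomial.eval_sub, TT_eval, Polynomial.map_X, Polynomial.eval_X]
  rw [Set.mem_setOf_eq] at hw
  rw [hw, sub_self]

theorem deriv_slice (d p : ℕ) (x z : ℂ) :
    HasDerivAt (fun w => FI d p (x, w)) (deriv ((fc d x)^[p]) z) z := by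
  have h1 : (fun w => FI d p (x, w)) = (fc d x)^[p] := rfl
  rw [h1]
  have : Differentiable ℂ ((fc d x)^[p]) := by
    unfold fc
    exact (by fun_prop : Differentiable ℂ (fun z : ℂ => z ^ d + x)).iterate p
  exact (this z).hasDerivAt

theorem mult_eq (d p : ℕ) (q : ℂ × ℂ) :
    deriv ((fc d q.1)^[p]) q.2 = fderiv ℂ (FI d p) q (0, 1) := by
  have h1 := (contDiff_FI d p).differentiable (by simp) q
  have h2 : HasDerivAt (fun w : ℂ => (q.1, w)) ((0 : ℂ), (1 : ℂ)) q.2 :=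
    (hasDerivAt_const q.2 q.1).prodMk (hasDerivAt_id q.2)
  have h3 := h1.hasFDerivAt.comp_hasDerivAt q.2 h2
  exact (deriv_slice d p q.1 q.2).unique h3

theorem mult_differentiable (d p : ℕ) :
    Differentiable ℂ fun q : ℂ × ℂ => deriv ((fc d q.1)^[p]) q.2 := by
  have : (fun q : ℂ × ℂ => deriv ((fc d q.1)^[p]) q.2) =
      fun q => fderiv ℂ (FI d p) q (0, 1) := funext (mult_eq d p)
  rw [this]
  have h1 : ContDiff ℂ 1 (fderiv ℂ (FI d p)) :=
    (contDiff_FI d p).fderiv_right (m := 1) (by exact le_top)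
  exact (h1.differentiable (by simp)).clm_apply (differentiable_const _)

/-- At a periodic point whose multiplier is not `1` the map `HE` has an invertible derivative. -/
theorem exists_equiv {d p : ℕ} {q : ℂ × ℂ} (hl : deriv ((fc d q.1)^[p]) q.2 ≠ 1) :
    ∃ L : (ℂ × ℂ) ≃L[ℂ] ℂ × ℂ, HasStrictFDerivAt (HE d p) (L : (ℂ × ℂ) →L[ℂ] ℂ × ℂ) q := by
  have hS : HasStrictFDerivAt (HE d p) (fderiv ℂ (HE d p) q) q :=
    (contDiff_HE d p).contDiffAt.hasStrictFDerivAt (by simp)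
  have hF : HasFDerivAt (FI d p) (fderiv ℂ (FI d p) q) q :=
    ((contDiff_FI d p).differentiable (by simp) q).hasFDerivAt
  have hH : HasFDerivAt (HE d p) ((ContinuousLinearMap.fst ℂ ℂ ℂ).prod
      (fderiv ℂ (FI d p) q - ContinuousLinearMap.snd ℂ ℂ ℂ)) q :=
    hasFDerivAt_fst.prodMk (hF.sub hasFDerivAt_snd)
  have heq := hS.hasFDerivAt.unique hH
  have hinj : Function.Injective (fderiv ℂ (HE d p) q : (ℂ × ℂ) →ₗ[ℂ] ℂ × ℂ) := by
    rw [← LinearMap.ker_eq_bot, LinearMap.ker_eq_bot']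
    intro v hv
    rw [heq] at hv
    have hv1 : v.1 = 0 := congrArg Prod.fst hv
    have hv2 : fderiv ℂ (FI d p) q v - v.2 = 0 := congrArg Prod.snd hv
    have hv3 : v = v.2 • ((0 : ℂ), (1 : ℂ)) := by
      ext
      · simp [hv1]
      · simp
    rw [hv3, map_smul, ← mult_eq] at hv2
    simp only [Prod.smul_snd, smul_eq_mul, mul_one] at hv2
    have hv4 : v.2 * (deriv ((fc d q.1)^[p]) q.2 - 1) = 0 := by linear_combination hv2
    rcases mul_eq_zero.mp hv4 with h | h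
    · ext
      · exact hv1
      · exact h
    · exact absurd (sub_eq_zero.mp h) hl
  refine ⟨(LinearEquiv.ofInjectiveEndo _ hinj).toContinuousLinearEquiv, ?_⟩
  have hL : (((LinearEquiv.ofInjectiveEndo _ hinj).toContinuousLinearEquiv :
      (ℂ × ℂ) ≃L[ℂ] ℂ × ℂ) : (ℂ × ℂ) →L[ℂ] ℂ × ℂ) = fderiv ℂ (HE d p) q :=
    ContinuousLinearMap.ext fun v => rfl
  rw [hL]
  exact hS

end Pool.Agent.W677.VF
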