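import Mathlib
import Pool.Agent.W677.VF6

set_option autoImplicit false

/-! # The multiplier of a cycle over a ball without attracting parameters -/

namespace Pool.Agent.W677.VF

open Complex Set Topology Filter Metric N62a1eb23 Pool.Agent.H712R2 Pool.Agent.H713R2

/-- Local uniqueness of the continuation of a periodic point. -/
theorem local_unique {d p : ℕ} {c z : ℂ} (hl : deriv ((fc d c)^[p]) z ≠ 1) {φ ψ : ℂ → ℂ}
    (hφ : ContinuousAt φ c) (hψ : ContinuousAt ψ c) (h1 : φ c = z) (h2 : ψ c = z)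
    (h3 : ∀ᶠ x in 𝓝 c, (fc d x)^[p] (φ x) = φ x) (h4 : ∀ᶠ x in 𝓝 c, (fc d x)^[p] (ψ x) = ψ x) :
    φ =ᶠ[𝓝 c] ψ := by
  obtain ⟨L, hL⟩ := exists_equiv (d := d) (p := p) (q := (c, z)) hl
  set e := hL.toOpenPartialHomeomorph (HE d p) with he
  have hsrc : e.source ∈ 𝓝 (c, z) :=
    e.open_source.mem_nhds (hL.mem_toOpenPartialHomeomorph_source)
  have h5 : ∀ᶠ x in 𝓝 c, (x, φ x) ∈ e.source := by
    have : ContinuousAt (fun x => (x, φ x)) c := continuousAt_id.prodMk hφ
    apply this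
    change e.source ∈ 𝓝 (c, φ c)
    rw [h1]
    exact hsrc
  have h6 : ∀ᶠ x in 𝓝 c, (x, ψ x) ∈ e.source := by
    have : ContinuousAt (fun x => (x, ψ x)) c := continuousAt_id.prodMk hψ
    apply this
    change e.source ∈ 𝓝 (c, ψ c)
    rw [h2]
    exact hsrc
  filter_upwards [h3, h4, h5, h6] with x a3 a4 a5 a6
  have h7 : e (x, φ x) = e (x, ψ x) := by
    have h8 : (e : ℂ × ℂ → ℂ × ℂ) = HE d p := hL.toOpenPartialHomeomorph_coe
    rw [h8]
    unfold HE FI
    simp only
    rw [a3, a4, sub_self, sub_self]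
  exact congrArg Prod.snd (e.injOn a5 a6 h7)

/-- A continuous continuation of a periodic point is holomorphic. -/
theorem diff_of_cont {d p : ℕ} {c : ℂ} {φ : ℂ → ℂ} (hl : deriv ((fc d c)^[p]) (φ c) ≠ 1)
    (hφ : ContinuousAt φ c) (h3 : ∀ᶠ x in 𝓝 c, (fc d x)^[p] (φ x) = φ x) :
    DifferentiableAt ℂ φ c := by
  obtain ⟨L, hL⟩ := exists_equiv (d := d) (p := p) (q := (c, φ c)) hl
  set e := hL.toOpenPartialHomeomorph (HE d p) with he
  have hcoe : (e : ℂ × ℂ → ℂ × ℂ) = HE d p := hL.toOpenPartialHomeomorph_coe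
  have hsrc : e.source ∈ 𝓝 (c, φ c) :=
    e.open_source.mem_nhds (hL.mem_toOpenPartialHomeomorph_source)
  have h5 : ∀ᶠ x in 𝓝 c, (x, φ x) ∈ e.source := by
    have : ContinuousAt (fun x => (x, φ x)) c := continuousAt_id.prodMk hφ
    exact this hsrc
  have h6 : HasStrictFDerivAt e.symm (L.symm : (ℂ × ℂ) →L[ℂ] ℂ × ℂ) (HE d p (c, φ c)) := by
    have := hL.to_localInverse
    exact this
  have h7 : HE d p (c, φ c) = (c, 0) := by
    unfold HE FI
    simp only
    rw [h3.self_of_nhds, sub_self]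
  rw [h7] at h6
  have h8 : φ =ᶠ[𝓝 c] fun x => (e.symm (x, 0)).2 := by
    filter_upwards [h3, h5] with x a3 a5
    have h9 : e (x, φ x) = (x, 0) := by
      rw [hcoe]
      unfold HE FI
      simp only
      rw [a3, sub_self]
    have h10 := e.left_inv a5
    rw [h9] at h10
    rw [h10]
  have h11 : DifferentiableAt ℂ (fun x : ℂ => (e.symm (x, 0)).2) c := by
    have h12 : DifferentiableAt ℂ (fun x : ℂ => (x, (0 : ℂ))) c :=
      differentiableAt_id.prodMk (differentiableAt_const _)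
    have h13 : DifferentiableAt ℂ e.symm (c, (0 : ℂ)) := h6.hasFDerivAt.differentiableAt
    exact (DifferentiableAt.comp c (f := fun x : ℂ => (x, (0 : ℂ))) h13 h12).snd
  exact h11.congr_of_eventuallyEq h8

/-- Continuation over a ball on which no multiplier of period `p` is `1`. -/
theorem exists_section {d p : ℕ} (hd : 2 ≤ d) (hp : 1 ≤ p) {c z : ℂ} {r : ℝ} (hr : 0 < r)
    (hmul : ∀ x ∈ ball c r, ∀ w : ℂ, (fc d x)^[p] w = w → deriv ((fc d x)^[p]) w ≠ 1)
    (hz : (fc d c)^[p] z = z) :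
    ∃ g : ℂ → ℂ, g c = z ∧ DifferentiableOn ℂ g (ball c r) ∧
      ∀ x ∈ ball c r, (fc d x)^[p] (g x) = g x := by
  set s : Set (ℂ × ℂ) := {q | q.1 ∈ ball c r ∧ q.2 = 0} with hs
  have hmem : ∀ q : ℂ × ℂ, HE d p q ∈ s ↔ q.1 ∈ ball c r ∧ (fc d q.1)^[p] q.2 = q.2 := by
    intro q
    constructor
    · rintro ⟨h1, h2⟩
      exact ⟨h1, sub_eq_zero.mp h2⟩
    · rintro ⟨h1, h2⟩
      exact ⟨h1, sub_eq_zero.mpr h2⟩
  have hcovOn : IsCoveringMapOn (HE d p) s := by
    apply (closed_HE hd hp).isCoveringMapOn_of_isLocalHomeomorphOn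
    · rintro x hx
      have h1 : (HE d p ⁻¹' {x}) ⊆ (fun w => (x.1, w)) '' {w : ℂ | (fc d x.1)^[p] w = w} := by
        intro q hq
        have h2 : HE d p q = x := hq
        have h3 : q.1 = x.1 := by
          rw [← h2]
          rfl
        have h4 := (hmem q).mp (by rw [h2]; exact hx)
        refine ⟨q.2, ?_, ?_⟩
        · change (fc d x.1)^[p] q.2 = q.2
          rw [← h3]
          exact h4.2
        · rw [← h3]
      exact ((finite_fibre hd hp x.1).image _).subset h1
    · intro q hq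
      have h1 := (hmem q).mp hq
      obtain ⟨L, hL⟩ := exists_equiv (d := d) (p := p) (hmul q.1 h1.1 q.2 h1.2)
      exact ⟨hL.toOpenPartialHomeomorph (HE d p), hL.mem_toOpenPartialHomeomorph_source,
        hL.toOpenPartialHomeomorph_coe.symm⟩
  have hcov := hcovOn.isCoveringMap_restrictPreimage
  have hcvx : Convex ℝ (ball c r) := convex_ball c r
  have : ContractibleSpace (ball c r) := hcvx.contractibleSpace (nonempty_ball.mpr hr)
  have : LocallyPathConnectedSpace (ball c r) := (isOpen_ball).locallyPathConnectedSpace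
  let f : C(ball c r, s) := ⟨fun x => ⟨((x : ℂ), 0), x.2, rfl⟩, by fun_prop⟩
  have hcc : c ∈ ball c r := mem_ball_self hr
  have he0 : (c, z) ∈ HE d p ⁻¹' s := (hmem (c, z)).mpr ⟨hcc, hz⟩
  obtain ⟨F, ⟨hF1, hF2⟩, -⟩ := hcov.existsUnique_continuousMap_lifts f ⟨c, hcc⟩
    (⟨(c, z), he0⟩ : HE d p ⁻¹' s) (by
      apply Subtype.ext
      change HE d p (c, z) = (c, 0)
      unfold HE FI
      simp only
      rw [hz, sub_self])
  classical
  let g : ℂ → ℂ := fun x => if h : x ∈ ball c r then ((F ⟨x, h⟩ : HE d p ⁻¹' s) : ℂ × ℂ).2 else 0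
  have hg : ∀ x (h : x ∈ ball c r), g x = ((F ⟨x, h⟩ : HE d p ⁻¹' s) : ℂ × ℂ).2 := by
    intro x h
    simp only [g, dif_pos h]
  have hHF : ∀ x (h : x ∈ ball c r), HE d p ((F ⟨x, h⟩ : HE d p ⁻¹' s) : ℂ × ℂ) = (x, 0) := by
    intro x h
    have h1 := congrFun hF2 ⟨x, h⟩
    exact congrArg Subtype.val h1
  have hper : ∀ x ∈ ball c r, (fc d x)^[p] (g x) = g x := by
    intro x hx
    have h1 := hHF x hx
    have h2 : ((F ⟨x, hx⟩ : HE d p ⁻¹' s) : ℂ × ℂ).1 = x := congrArg Prod.fst h1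
    have h3 := congrArg Prod.snd h1
    rw [hg x hx]
    have h4 := sub_eq_zero.mp h3
    unfold FI at h4
    rw [h2] at h4
    exact h4
  have hcont : ContinuousOn g (ball c r) := by
    rw [continuousOn_iff_continuous_domRestrict]
    have h1 : (ball c r).domRestrict g = fun x => ((F x : HE d p ⁻¹' s) : ℂ × ℂ).2 := by
      funext x
      exact hg x.1 x.2
    rw [h1]
    exact continuous_snd.comp (continuous_subtype_val.comp F.continuous)
  refine ⟨g, ?_, ?_, hper⟩
  · rw [hg c hcc, hF1]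
  · intro x hx
    have hn : ball c r ∈ 𝓝 x := isOpen_ball.mem_nhds hx
    exact (diff_of_cont (hmul x hx (g x) (hper x hx)) (hcont.continuousAt hn)
      (by filter_upwards [hn] with y hy using hper y hy)).differentiableWithinAt

/-- The distance to the attracting parameters against the derivative of a multiplier. -/
theorem multiplier {n : ℕ} (hn : 2 ≤ n) {c : ℂ} {p : ℕ} (hp : 1 ≤ p)
    {φ : ℂ → ℂ} (hφ : ContinuousAt φ c) (hper : ∀ᶠ x in 𝓝 c, (fc n x)^[p] (φ x) = φ x)
    (hl : 1 ≤ ‖deriv ((fc n c)^[p]) (φ c)‖) :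
    infDist c (hyp n) * ‖deriv (fun x => deriv ((fc n x)^[p]) (φ x)) c‖ ≤
      2 * ‖deriv ((fc n c)^[p]) (φ c)‖ * Real.log ‖deriv ((fc n c)^[p]) (φ c)‖ := by
  rcases lt_or_eq_of_le (infDist_nonneg (x := c) (s := hyp n)) with hδ | hδ
  · have hmul : ∀ x ∈ ball c (infDist c (hyp n)), ∀ w : ℂ, (fc n x)^[p] w = w →
        1 < ‖deriv ((fc n x)^[p]) w‖ := fun x hx w hw =>
      no_indifferent hn (fun y hy => no_hyp hy) hx hp hw
    have hmul1 : ∀ x ∈ ball c (infDist c (hyp n)), ∀ w : ℂ, (fc n x)^[p] w = w →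
        deriv ((fc n x)^[p]) w ≠ 1 := by
      intro x hx w hw h
      have := hmul x hx w hw
      rw [h, norm_one] at this
      exact lt_irrefl _ this
    have hcc : c ∈ ball c (infDist c (hyp n)) := mem_ball_self hδ
    have hz : (fc n c)^[p] (φ c) = φ c := hper.self_of_nhds
    obtain ⟨g, hg1, hg2, hg3⟩ := exists_section hn hp hδ hmul1 hz
    have hn' : ball c (infDist c (hyp n)) ∈ 𝓝 c := isOpen_ball.mem_nhds hcc
    have heq : φ =ᶠ[𝓝 c] g := local_unique (hmul1 c hcc _ hz) hφ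
      (hg2.differentiableAt hn').continuousAt rfl hg1 hper
      (by filter_upwards [hn'] with y hy using hg3 y hy)
    have heq2 : (fun x => deriv ((fc n x)^[p]) (φ x)) =ᶠ[𝓝 c]
        fun x => deriv ((fc n x)^[p]) (g x) := by
      filter_upwards [heq] with x hx
      rw [hx]
    rw [heq2.deriv_eq, ← hg1]
    set lam : ℂ → ℂ := fun x => deriv ((fc n x)^[p]) (g x) with hlam
    have hlamd : DifferentiableOn ℂ lam (ball c (infDist c (hyp n))) := by
      have h1 := mult_differentiable n p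
      exact h1.comp_differentiableOn (differentiableOn_id.prodMk hg2)
    have hlam1 : ∀ x ∈ ball c (infDist c (hyp n)), 1 < ‖lam x‖ := fun x hx =>
      hmul x hx _ (hg3 x hx)
    have hlam0 : ∀ x ∈ ball c (infDist c (hyp n)), lam x ≠ 0 := by
      intro x hx h
      have := hlam1 x hx
      rw [h, norm_zero] at this
      linarith
    have h4 := log_lip (u := fun x => 4 / lam x) hδ
      ((differentiableOn_const 4).div hlamd hlam0)
      (fun x hx => div_ne_zero (by norm_num) (hlam0 x hx))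
      (fun x hx => by
        rw [norm_div, div_le_iff₀ (norm_pos_iff.mpr (hlam0 x hx))]
        have := hlam1 x hx
        norm_num
        linarith)
    have hd1 : HasDerivAt lam (deriv lam c) c := (hlamd.differentiableAt hn').hasDerivAt
    have hd2 : HasDerivAt (fun x => 4 / lam x) (-(4 * deriv lam c) / lam c ^ 2) c := by
      have h9 := (hasDerivAt_const c (4 : ℂ)).fun_div hd1 (hlam0 c hcc)
      have h10 : (0 * lam c - 4 * deriv lam c) / lam c ^ 2 = -(4 * deriv lam c) / lam c ^ 2 := by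
        rw [zero_mul, zero_sub]
      rw [h10] at h9
      exact h9
    rw [hd2.deriv] at h4
    have hL : 0 < ‖lam c‖ := by linarith [hlam1 c hcc]
    have e1 : ‖-(4 * deriv lam c) / lam c ^ 2‖ = 4 * ‖deriv lam c‖ / ‖lam c‖ ^ 2 := by
      rw [norm_div, norm_neg, norm_mul, norm_pow]
      norm_num
    have e2 : ‖4 / lam c‖ = 4 / ‖lam c‖ := by
      rw [norm_div]
      norm_num
    have e3 : 4 / (4 / ‖lam c‖) = ‖lam c‖ := by
      field_simp
    rw [e1, e2, e3] at h4
    have h5 : infDist c (hyp n) * ‖deriv lam c‖ =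
        infDist c (hyp n) * (4 * ‖deriv lam c‖ / ‖lam c‖ ^ 2) * (‖lam c‖ ^ 2 / 4) := by
      field_simp
    have h6 : 2 * ‖lam c‖ * Real.log ‖lam c‖ =
        2 * (4 / ‖lam c‖) * Real.log ‖lam c‖ * (‖lam c‖ ^ 2 / 4) := by
      field_simp
    change infDist c (hyp n) * ‖deriv lam c‖ ≤ 2 * ‖lam c‖ * Real.log ‖lam c‖
    rw [h5, h6]
    exact mul_le_mul_of_nonneg_right h4 (by positivity)
  · rw [← hδ, zero_mul]
    have := Real.log_nonneg hl
    positivity

end Pool.Agent.W677.VF
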