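import Mathlib
import Pool.Agent.W677.VF7

set_option autoImplicit false

/-! # The critical orbit against a cycle -/

namespace Pool.Agent.W677.VF

open Complex Set Topology Filter Metric N62a1eb23 Pool.Agent.H712R2 Pool.Agent.H713R2

theorem norm_fc_gt {n : ℕ} (hn : 2 ≤ n) {x w : ℂ} (hx : ‖x‖ ≤ 2) (hw : 2 < ‖w‖) :
    ‖w‖ < ‖fc n x w‖ := by
  have h1 : ‖w‖ ^ 2 ≤ ‖w‖ ^ n := pow_le_pow_right₀ (by linarith) hn
  have h2 : ‖w‖ ^ n ≤ ‖fc n x w‖ + ‖x‖ := by
    rw [← norm_pow]
    have := norm_sub_le (w ^ n + x) x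
    rwa [add_sub_cancel_right] at this
  nlinarith

theorem periodic_bound {n p : ℕ} (hn : 2 ≤ n) (hp : 1 ≤ p) {x w : ℂ} (hx : ‖x‖ ≤ 2)
    (hw : (fc n x)^[p] w = w) : ‖w‖ ≤ 2 := by
  by_contra hcon
  push Not at hcon
  have h : ∀ k : ℕ, ‖w‖ + (if k = 0 then 0 else 1) * 0 ≤ ‖(fc n x)^[k] w‖ ∧
      (1 ≤ k → ‖w‖ < ‖(fc n x)^[k] w‖) := by
    intro k
    induction k with
    | zero => simp
    | succ k ih =>
      rw [Function.iterate_succ_apply']
      have h1 : ‖w‖ ≤ ‖(fc n x)^[k] w‖ := by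
        have := ih.1
        simpa using this
      have h2 := norm_fc_gt hn hx (lt_of_lt_of_le hcon h1)
      refine ⟨?_, fun _ => lt_of_le_of_lt h1 h2⟩
      simp only [mul_zero, add_zero]
      exact (lt_of_le_of_lt h1 h2).le
  have h3 := (h p).2 hp
  rw [hw] at h3
  exact lt_irrefl _ h3

/-- The velocity of a periodic point against the velocities of the critical orbit. -/
theorem position {n : ℕ} (hn : 2 ≤ n) {c : ℂ} (hc : c ∈ multibrotSet n) {p : ℕ} (hp : 1 ≤ p)
    {φ : ℂ → ℂ} (hφ : ContinuousAt φ c) (hper : ∀ᶠ x in 𝓝 c, (fc n x)^[p] (φ x) = φ x) (j : ℕ) :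
    infDist c (hyp n) * ‖deriv φ c - deriv (P n j) c‖ ≤
      2 * ‖φ c - P n j c‖ * Real.log (4 / ‖φ c - P n j c‖) := by
  have hxle : ∀ x ∈ multibrotSet n, ‖x‖ ≤ 2 := by
    intro x hx
    have h := (mem_multibrot_iff hn x).mp hx 1
    rwa [P_one hn] at h
  have hb : ∀ x ∈ multibrotSet n, ∀ w : ℂ, (fc n x)^[p] w = w → ‖w - P n j x‖ ≤ 4 := by
    intro x hx w hw
    have h1 := periodic_bound hn hp (hxle x hx) hw
    have h2 := (mem_multibrot_iff hn x).mp hx j
    have := norm_sub_le w (P n j x)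
    linarith
  have hz : (fc n c)^[p] (φ c) = φ c := hper.self_of_nhds
  rcases lt_or_eq_of_le (infDist_nonneg (x := c) (s := hyp n)) with hδ | hδ
  · have hM := AR.ball_subset hn hδ hc (fun x hx => no_hyp hx)
    have hmul1 : ∀ x ∈ ball c (infDist c (hyp n)), ∀ w : ℂ, (fc n x)^[p] w = w →
        deriv ((fc n x)^[p]) w ≠ 1 := by
      intro x hx w hw h
      have := no_indifferent hn (fun y hy => no_hyp hy) hx hp hw
      rw [h, norm_one] at this
      exact lt_irrefl _ this
    have hcc : c ∈ ball c (infDist c (hyp n)) := mem_ball_self hδ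
    obtain ⟨g, hg1, hg2, hg3⟩ := exists_section hn hp hδ hmul1 hz
    have hn' : ball c (infDist c (hyp n)) ∈ 𝓝 c := isOpen_ball.mem_nhds hcc
    have heq : φ =ᶠ[𝓝 c] g := local_unique (hmul1 c hcc _ hz) hφ
      (hg2.differentiableAt hn').continuousAt rfl hg1 hper
      (by filter_upwards [hn'] with y hy using hg3 y hy)
    have hne : ∀ x ∈ ball c (infDist c (hyp n)), g x - P n j x ≠ 0 := by
      intro x hx h
      have h1 : g x = P n j x := sub_eq_zero.mp h
      have h2 := hg3 x hx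
      rw [h1] at h2
      have h3 : P n (p + j) x = P n j x := by
        have : P n (p + j) x = (fc n x)^[p] (P n j x) := by
          change (fc n x)^[p + j] 0 = (fc n x)^[p] ((fc n x)^[j] 0)
          rw [Function.iterate_add_apply]
        rw [this, h2]
      exact distinct hn hc hδ hx (by omega) h3
    have h4 := log_lip (u := fun x => g x - P n j x) hδ
      (hg2.sub (P_diff n j).differentiableOn) hne
      (fun x hx => hb x (hM hx) _ (hg3 x hx))
    have h5 : HasDerivAt (fun x => g x - P n j x) (deriv g c - deriv (P n j) c) c :=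
      (hg2.differentiableAt hn').hasDerivAt.sub (P_diff n j c).hasDerivAt
    rw [h5.deriv] at h4
    rw [heq.deriv_eq, ← hg1]
    exact h4
  · rw [← hδ, zero_mul]
    by_cases h : φ c = P n j c
    · rw [h, sub_self, norm_zero]
      simp
    · have h1 : 0 < ‖φ c - P n j c‖ := norm_pos_iff.mpr (sub_ne_zero.mpr h)
      have h2 : 0 ≤ Real.log (4 / ‖φ c - P n j c‖) := by
        apply Real.log_nonneg
        rw [le_div_iff₀ h1]
        linarith [hb c hc _ hz]
      positivity

end Pool.Agent.W677.VF
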