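import Mathlib
import Pool.Agent.H713R2.Main1
import Pool.Agent.H713R2.Seq2

set_option autoImplicit false

/-! # Faber polynomials of general index: the coefficient identity -/

namespace Pool.Agent.W677.MD

open Complex Set Topology Filter Metric N62a1eb23 Pool.Agent.H712R2 Pool.Agent.H713R2

theorem coef_gen {d : ℕ} {β : ℂ → ℂ} (hβ : IsBeta d β) {t : ℂ}
    (ht : t ∈ multibrotSet d) {G : Polynomial ℂ} {m : ℕ} (hm : 1 ≤ m) {H : ℂ → ℂ}
    (hHd : DifferentiableOn ℂ H (ball 0 1))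
    (hHe : ∀ x ∈ ball (0 : ℂ) 1, x ≠ 0 → H x = x ^ m * G.eval (x⁻¹ * β x)) {C r : ℝ}
    (hr0 : 0 < r) (hr1 : r ≤ 1 / 2)
    (hord : ∀ x ∈ ball (0 : ℂ) r, ‖H x - 1‖ ≤ C * ‖x‖ ^ (m + 1)) :
    tc (LL β t) (m - 1) = - G.eval t := by
  have hL := LL_diff hβ ht
  set W : ℂ → ℂ := fun x => x * LL β t x - 1 with hW
  have hxL : DifferentiableOn ℂ (fun x => x * LL β t x) (ball 0 1) := differentiableOn_id.mul hL
  have hWd : DifferentiableOn ℂ W (ball 0 1) := hxL.sub (differentiableOn_const _)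
  -- the polynomial identity
  set pt : Polynomial ℂ := G - Polynomial.C (G.eval t) with hpt
  have hroot : pt.IsRoot t := by simp [hpt, Polynomial.IsRoot.def]
  obtain ⟨Q, hQ⟩ := Polynomial.dvd_iff_isRoot.mpr hroot
  obtain ⟨R, hR⟩ := exists_antideriv Q
  have hQe : ∀ c, G.eval c - G.eval t = (c - t) * Q.eval c := by
    intro c
    have := congrArg (Polynomial.eval c) hQ
    simpa [hpt] using this
  -- the curve
  have hr : (0 : ℝ) < 1 / 4 := by norm_num
  have hcurve : ∮ z in C(0, 1 / 4), Q.eval (z⁻¹ * β z) * ((z⁻¹ * β z - t) * (W z / z)) = 0 := by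
    apply circleIntegral.integral_eq_zero_of_hasDerivWithinAt (f := fun z => R.eval (z⁻¹ * β z))
      hr.le
    intro z hz
    have hzn : ‖z‖ = 1 / 4 := mem_sphere_zero_iff_norm.mp hz
    have hz0 : z ≠ 0 := by
      rintro rfl
      rw [norm_zero] at hzn
      norm_num at hzn
    have hzb : z ∈ ball (0 : ℂ) 1 := by rw [mem_ball_zero_iff, hzn]; norm_num
    have hβz : HasDerivAt β (deriv β z) z :=
      (hβ.diff.differentiableAt (isOpen_ball.mem_nhds hzb)).hasDerivAt
    have h1 : HasDerivAt (fun z => z⁻¹ * β z) (-(z ^ 2)⁻¹ * β z + z⁻¹ * deriv β z) z :=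
      (hasDerivAt_inv hz0).mul hβz
    have h2 : HasDerivAt (fun c => R.eval c) (R.derivative.eval (z⁻¹ * β z)) (z⁻¹ * β z) :=
      R.hasDerivAt _
    have h3 := h2.comp z h1
    rw [hR] at h3
    refine HasDerivAt.hasDerivWithinAt ?_
    suffices hval : (z⁻¹ * β z - t) * (W z / z) = -(z ^ 2)⁻¹ * β z + z⁻¹ * deriv β z by
      rw [hval]
      exact h3
    have hne := hh_ne hβ ht hzb
    have hdh : deriv (hh β t) z = deriv β z - t := by
      have : HasDerivAt (hh β t) (deriv β z - t * 1) z := hβz.sub ((hasDerivAt_id z).const_mul t)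
      rw [this.deriv, mul_one]
    have hWz : W z = z * ((deriv β z - t) * (hh β t z)⁻¹) - 1 := by
      simp only [hW]
      unfold LL
      rw [hdh]
    rw [hWz]
    have h4 : z⁻¹ * β z - t = z⁻¹ * hh β t z := by
      unfold hh
      field_simp
    rw [h4]
    have h5 : z⁻¹ * hh β t z * ((z * ((deriv β z - t) * (hh β t z)⁻¹) - 1) / z) =
        z⁻¹ * ((deriv β z - t) - hh β t z / z) := by
      field_simp
    rw [h5]
    unfold hh
    field_simp
    ring
  -- rewrite the integrand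
  have hcongr : ∮ z in C(0, 1 / 4), Q.eval (z⁻¹ * β z) * ((z⁻¹ * β z - t) * (W z / z)) =
      ∮ z in C(0, 1 / 4), ((fun x => (H x - 1) * W x + W x) z / z ^ (m + 1)
        - G.eval t * (W z / z ^ (0 + 1))) := by
    apply circleIntegral.integral_congr hr.le
    intro z hz
    have hzn : ‖z‖ = 1 / 4 := mem_sphere_zero_iff_norm.mp hz
    have hz0 : z ≠ 0 := by
      rintro rfl
      rw [norm_zero] at hzn
      norm_num at hzn
    beta_reduce
    rw [hHe z (by rw [mem_ball_zero_iff, hzn]; norm_num) hz0, zero_add, pow_one]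
    have h1 := hQe (z⁻¹ * β z)
    have h2 : Q.eval (z⁻¹ * β z) * ((z⁻¹ * β z - t) * (W z / z)) =
        (G.eval (z⁻¹ * β z) - G.eval t) * (W z / z) := by
      rw [h1]; ring
    rw [h2, pow_succ]
    have hzm : z ^ m ≠ 0 := pow_ne_zero _ hz0
    field_simp
    ring
  have hF1d : DifferentiableOn ℂ (fun x => (H x - 1) * W x) (ball 0 1) :=
    (hHd.sub (differentiableOn_const _)).mul hWd
  have hF2d : DifferentiableOn ℂ (fun x => (H x - 1) * W x + W x) (ball 0 1) := hF1d.add hWd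
  have hsph : sphere (0 : ℂ) (1 / 4) ⊆ ball 0 1 := by
    intro z hz
    rw [mem_sphere_zero_iff_norm] at hz
    rw [mem_ball_zero_iff, hz]; norm_num
  have hsph0 : ∀ z ∈ sphere (0 : ℂ) (1 / 4), z ≠ 0 := by
    rintro z hz rfl
    rw [mem_sphere_zero_iff_norm, norm_zero] at hz
    norm_num at hz
  have hI1 : CircleIntegrable (fun z => (fun x => (H x - 1) * W x + W x) z / z ^ (m + 1))
      0 (1 / 4) := by
    apply ContinuousOn.circleIntegrable hr.le
    apply ContinuousOn.div (hF2d.continuousOn.mono hsph) (by fun_prop)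
    intro z hz
    exact pow_ne_zero _ (hsph0 z hz)
  have hI2 : CircleIntegrable (fun z => G.eval t * (W z / z ^ (0 + 1))) 0 (1 / 4) := by
    apply ContinuousOn.circleIntegrable hr.le
    apply ContinuousOn.mul continuousOn_const
    apply ContinuousOn.div (hWd.continuousOn.mono hsph) (by fun_prop)
    intro z hz
    exact pow_ne_zero _ (hsph0 z hz)
  rw [hcongr, circleIntegral.integral_sub hI1 hI2, circleIntegral.integral_const_mul,
    circleIntegral_tc hr (by norm_num) hF2d m, circleIntegral_tc hr (by norm_num) hWd 0] at hcurve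
  have hW0 : tc W 0 = -1 := by rw [tc_zero]; simp [hW]
  have hWm : tc W m = tc (LL β t) (m - 1) := by
    obtain ⟨k, hk⟩ := Nat.exists_eq_add_of_le' (show 1 ≤ m by omega)
    rw [hk, Nat.add_sub_cancel]
    have := tc_sub one_pos hxL (differentiableOn_const (c := (1 : ℂ))) (k + 1)
    rw [tc_const_succ, sub_zero, tc_id_mul one_pos hL] at this
    exact this
  have hF1m : tc (fun x => (H x - 1) * W x) m = 0 := by
    obtain ⟨CW, hCW⟩ : ∃ CW, ∀ x ∈ closedBall (0 : ℂ) (1 / 2), ‖W x‖ ≤ CW :=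
      (isCompact_closedBall (0 : ℂ) (1 / 2)).exists_bound_of_continuousOn
        (hWd.continuousOn.mono (closedBall_subset_ball (by norm_num)))
    have hsub : ball (0 : ℂ) r ⊆ ball 0 1 := ball_subset_ball (by linarith)
    apply tc_eq_zero_of_order (r := r) (C := C * CW) (K := m + 1) hr0
      (by omega) (hF1d.mono hsub)
    intro x hx
    rw [norm_mul]
    have h1 := hord x hx
    have h2 := hCW x (ball_subset_closedBall (ball_subset_ball hr1 hx))
    calc ‖H x - 1‖ * ‖W x‖ ≤ (C * ‖x‖ ^ (m + 1)) * CW :=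
          mul_le_mul h1 h2 (norm_nonneg _) ((norm_nonneg _).trans h1)
      _ = C * CW * ‖x‖ ^ (m + 1) := by ring
  have hF2m : tc (fun x => (H x - 1) * W x + W x) m = tc (LL β t) (m - 1) := by
    rw [tc_add one_pos hF1d hWd, hF1m, zero_add, hWm]
  rw [hF2m, hW0] at hcurve
  have h4 : (2 * Real.pi * I : ℂ) ≠ 0 := Complex.two_pi_I_ne_zero
  have h5 : (2 * Real.pi * I : ℂ) * (tc (LL β t) (m - 1) + G.eval t) = 0 := by
    linear_combination hcurve
  rcases mul_eq_zero.mp h5 with h6 | h6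
  · exact absurd h6 h4
  · linear_combination h6

/-- The basic inequality. -/
theorem basic_gen {d : ℕ} {β : ℂ → ℂ} (hβ : IsBeta d β) {t : ℂ}
    (ht : t ∈ multibrotSet d) {g : ℂ} {m : ℕ} (hm : 1 ≤ m) (h1 : tc (LL β t) (m - 1) = -g) :
    ‖g‖ ≤ ∑ l ∈ Finset.Icc 1 m, (l : ℝ) * ‖tc (hh β t) l‖ * ‖uu β t (m - l)‖ := by
  have hid : DifferentiableOn ℂ (fun x => (hh β t x)⁻¹) (ball 0 1) :=
    (hh_diff hβ t).inv fun x hx => hh_ne hβ ht hx
  have h2 : tc (LL β t) (m - 1) = ∑ p ∈ Finset.HasAntidiagonal.antidiagonal (m - 1),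
      tc (deriv (hh β t)) p.1 * uu β t p.2 :=
    tc_mul one_pos ((hh_diff hβ t).deriv isOpen_ball) hid _
  rw [Finset.Nat.sum_antidiagonal_eq_sum_range_succ_mk] at h2
  have h3 : ‖g‖ = ‖tc (LL β t) (m - 1)‖ := by rw [h1, norm_neg]
  rw [h3, h2]
  refine (norm_sum_le _ _).trans (le_of_eq ?_)
  apply Finset.sum_nbij' (fun i => i + 1) (fun l => l - 1)
  · intro i hi
    rw [Finset.mem_range] at hi
    rw [Finset.mem_Icc]
    omega
  · intro l hl
    rw [Finset.mem_Icc] at hl
    rw [Finset.mem_range]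
    omega
  · intro i _
    omega
  · intro l hl
    rw [Finset.mem_Icc] at hl
    omega
  · intro i hi
    rw [Finset.mem_range] at hi
    simp only
    rw [tc_deriv, norm_mul, norm_mul]
    have h4 : ‖(i : ℂ) + 1‖ = ((i + 1 : ℕ) : ℝ) := by
      have : (i : ℂ) + 1 = (((i + 1 : ℕ) : ℝ) : ℂ) := by push_cast; ring
      rw [this, Complex.norm_real, Real.norm_eq_abs, abs_of_nonneg (by positivity)]
    rw [h4, show m - 1 - i = m - (i + 1) by omega]

/-- The cut-off `⌈(1 - ε) m⌉`. -/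
noncomputable def cutm (ε : ℝ) (m : ℕ) : ℕ := ⌈(1 - ε) * (m : ℝ)⌉₊

theorem cutm_le {ε : ℝ} (hε : 0 ≤ ε) (m : ℕ) : cutm ε m ≤ m := by
  apply Nat.ceil_le.mpr
  have : (0 : ℝ) ≤ (m : ℝ) := by positivity
  nlinarith

theorem sub_cutm {ε : ℝ} (hε : 0 < ε) (hε1 : ε ≤ 1) (m : ℕ) :
    ε * (m : ℝ) ≤ ((m - cutm ε m : ℕ) : ℝ) + 1 := by
  rw [Nat.cast_sub (cutm_le hε.le m)]
  have h1 : (cutm ε m : ℝ) < (1 - ε) * (m : ℝ) + 1 := by
    apply Nat.ceil_lt_add_one
    have : (0 : ℝ) ≤ (m : ℝ) := by positivity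
    exact mul_nonneg (by linarith) this
  linarith

/-- Frequencies below `(1 - ε) m` do not contribute. -/
theorem low_gen {A U : ℕ → ℝ} (hA : ∀ l, 0 ≤ A l) (hU : ∀ j, 0 ≤ U j)
    (hSA : Summable (fun l : ℕ => (l : ℝ) * A l ^ 2))
    (hSU : Summable (fun j : ℕ => ((j : ℝ) + 1) * U j ^ 2)) {ε : ℝ}
    (hε : 0 < ε) (hε1 : ε ≤ 1) :
    Tendsto (fun n : ℕ => ∑ l ∈ Finset.Icc 1 (cutm ε n), (l : ℝ) * A l * U (n - l))
      atTop (𝓝 0) := by
  set w : ℕ → ℝ := fun j => ((j : ℝ) + 1) * U j ^ 2 with hw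
  have hw0 : ∀ j, 0 ≤ w j := fun j => by simp only [hw]; positivity
  set D : ℝ := ∑' l : ℕ, (l : ℝ) * A l ^ 2 with hD
  have hD0 : 0 ≤ D := tsum_nonneg fun l => by positivity
  have hdpos : ∀ n : ℕ, (0 : ℝ) ≤ (n : ℝ) := fun n => Nat.cast_nonneg n
  have hgap : Tendsto (fun n : ℕ => n - cutm ε n) atTop atTop := by
    rw [← tendsto_natCast_atTop_iff (R := ℝ)]
    have h1 : Tendsto (fun n : ℕ => ε * (n : ℝ) - 1) atTop atTop := by
      apply tendsto_atTop_add_const_right
      apply Tendsto.const_mul_atTop hε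
      exact tendsto_natCast_atTop_atTop
    refine tendsto_atTop_mono (fun n => ?_) h1
    have := sub_cutm hε hε1 n
    linarith
  have htail : Tendsto (fun n : ℕ => ∑' k, w (k + (n - cutm ε n))) atTop (𝓝 0) :=
    (tendsto_sum_nat_add w).comp hgap
  -- the quantitative bound
  have hb : ∀ n : ℕ, (∑ l ∈ Finset.Icc 1 (cutm ε n), (l : ℝ) * A l * U (n - l)) ^ 2 ≤
      D / ε * ∑' k, w (k + (n - cutm ε n)) := by
    intro n
    have hgapn := sub_cutm hε hε1 n
    have hLm : cutm ε n ≤ n := cutm_le hε.le n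
    have hmpos := hdpos n
    have hmc : ((n : ℕ) : ℝ) = (n : ℝ) := by push_cast; rfl
    set L : ℕ := cutm ε n with hL
    set m : ℕ := n with hm
    have h1 := Finset.sum_mul_sq_le_sq_mul_sq (Finset.Icc 1 L) (fun l : ℕ => (l : ℝ) * A l)
      (fun l : ℕ => U (m - l))
    have h2 : ∑ l ∈ Finset.Icc 1 L, ((l : ℝ) * A l) ^ 2 ≤ m * D := by
      have h3 : ∑ l ∈ Finset.Icc 1 L, ((l : ℝ) * A l ^ 2) ≤ D :=
        hSA.sum_le_tsum _ (fun l _ => by positivity)
      calc ∑ l ∈ Finset.Icc 1 L, ((l : ℝ) * A l) ^ 2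
          ≤ ∑ l ∈ Finset.Icc 1 L, m * ((l : ℝ) * A l ^ 2) := by
            apply Finset.sum_le_sum
            intro l hl
            have h4 : (l : ℝ) ≤ m := by exact_mod_cast (Finset.mem_Icc.mp hl).2.trans hLm
            have h5 : (0 : ℝ) ≤ l * A l ^ 2 := by positivity
            nlinarith
        _ = m * ∑ l ∈ Finset.Icc 1 L, ((l : ℝ) * A l ^ 2) := by rw [Finset.mul_sum]
        _ ≤ m * D := mul_le_mul_of_nonneg_left h3 (by positivity)
    have h3 : ε * (m : ℝ) * ∑ l ∈ Finset.Icc 1 L, U (m - l) ^ 2 ≤ ∑' k, w (k + (m - L)) := by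
      have h4 : ε * (m : ℝ) * ∑ l ∈ Finset.Icc 1 L, U (m - l) ^ 2 ≤
          ∑ l ∈ Finset.Icc 1 L, w (m - l) := by
        rw [Finset.mul_sum]
        apply Finset.sum_le_sum
        intro l hl
        have hl2 := (Finset.mem_Icc.mp hl).2
        simp only [hw]
        apply mul_le_mul_of_nonneg_right _ (by positivity)
        have h5 : m - L ≤ m - l := by omega
        have h6 : ((m - L : ℕ) : ℝ) ≤ ((m - l : ℕ) : ℝ) := by exact_mod_cast h5
        rw [hmc]
        linarith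
      have h5 : ∑ l ∈ Finset.Icc 1 L, w (m - l) = ∑ k ∈ Finset.range L, w (k + (m - L)) := by
        apply Finset.sum_nbij' (fun l => L - l) (fun k => L - k)
        · intro l hl
          rw [Finset.mem_Icc] at hl
          rw [Finset.mem_range]
          omega
        · intro k hk
          rw [Finset.mem_range] at hk
          rw [Finset.mem_Icc]
          omega
        · intro l hl
          rw [Finset.mem_Icc] at hl
          omega
        · intro k hk
          rw [Finset.mem_range] at hk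
          omega
        · intro l hl
          rw [Finset.mem_Icc] at hl
          congr 1
          omega
      rw [h5] at h4
      refine h4.trans ?_
      exact ((summable_nat_add_iff (m - L)).mpr hSU).sum_le_tsum _ (fun k _ => hw0 _)
    have h6 : 0 ≤ ∑ l ∈ Finset.Icc 1 L, U (m - l) ^ 2 := Finset.sum_nonneg fun l _ => by positivity
    calc (∑ l ∈ Finset.Icc 1 L, (l : ℝ) * A l * U (m - l)) ^ 2
        ≤ (∑ l ∈ Finset.Icc 1 L, ((l : ℝ) * A l) ^ 2) * ∑ l ∈ Finset.Icc 1 L, U (m - l) ^ 2 := h1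
      _ ≤ (m * D) * ∑ l ∈ Finset.Icc 1 L, U (m - l) ^ 2 := mul_le_mul_of_nonneg_right h2 h6
      _ = D / ε * (ε * m * ∑ l ∈ Finset.Icc 1 L, U (m - l) ^ 2) := by field_simp
      _ ≤ D / ε * ∑' k, w (k + (m - L)) := mul_le_mul_of_nonneg_left h3 (by positivity)
  have h7 : Tendsto (fun n : ℕ => Real.sqrt (D / ε * ∑' k, w (k + (n - cutm ε n)))) atTop
      (𝓝 0) := by
    have := (htail.const_mul (D / ε)).sqrt
    simpa using this
  refine squeeze_zero (fun n => ?_) (fun n => ?_) h7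
  · exact Finset.sum_nonneg fun l _ => by
      have := hA l
      have := hU (n - l)
      positivity
  · exact Real.le_sqrt_of_sq_le (hb n)

end Pool.Agent.W677.MD
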