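import Mathlib
import Pool.Agent.W677.MD1

set_option autoImplicit false

/-! # Faber polynomials of index `k d^n`: existence and positivity -/

namespace Pool.Agent.W677.MD

open Complex Set Topology Filter Metric N62a1eb23 Pool.Agent.H712R2 Pool.Agent.H713R2
open Asymptotics

theorem smeval_nonneg {s : ℝ} {l : ℕ} (h : (l : ℝ) ≤ s) :
    0 ≤ (descPochhammer ℤ l).smeval s := by
  induction l with
  | zero => simp
  | succ l ih =>
    push_cast at h
    have h1 := ih (by linarith)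
    have h2 : (descPochhammer ℤ (l + 1)).smeval s = (descPochhammer ℤ l).smeval s * (s - l) := by
      simp [descPochhammer_succ_right, Polynomial.smeval_mul, Polynomial.smeval_natCast]
    rw [h2]
    exact mul_nonneg h1 (by linarith)

theorem choose_nonneg {s : ℝ} {l : ℕ} (h : (l : ℝ) ≤ s) : 0 ≤ Ring.choose s l := by
  rw [Ring.choose_eq_smul, smul_eq_mul]
  exact mul_nonneg (by positivity) (smeval_nonneg h)

theorem binom_exp (s : ℝ) (L : ℕ) :
    (fun y : ℂ => exp (s * log (1 + y)) - ∑ l ∈ Finset.range L, ((Ring.choose s l : ℝ) : ℂ) * y ^ l)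
      =O[𝓝 0] fun y : ℂ => y ^ L := by
  have h := (one_add_cpow_hasFPowerSeriesAt_zero (a := (s : ℂ))).isBigO_sub_partialSum_pow L
  have h2 : (fun y : ℂ => exp (s * log (1 + y)) -
      ∑ l ∈ Finset.range L, ((Ring.choose s l : ℝ) : ℂ) * y ^ l) =ᶠ[𝓝 0]
      fun y : ℂ => (1 + (0 + y)) ^ (s : ℂ) - (binomialSeries ℂ (s : ℂ)).partialSum L y := by
    have h3 : ∀ᶠ y : ℂ in 𝓝 0, 1 + y ≠ 0 := by
      have : ContinuousAt (fun y : ℂ => 1 + y) 0 := by fun_prop
      apply this.eventually_ne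
      simp
    filter_upwards [h3] with y hy
    rw [zero_add, cpow_def_of_ne_zero hy, mul_comm (log (1 + y))]
    congr 1
    unfold FormalMultilinearSeries.partialSum
    apply Finset.sum_congr rfl
    intro l _
    rw [binomialSeries_apply]
    simp [Complex.ofReal_choose]
  refine h2.trans_isBigO (h.trans ?_)
  apply IsBigO.of_norm_right
  simp only [norm_pow]
  exact isBigO_refl _ _

/-- The relative increment `y_m` in `B_{m+1} = B_m ^ d (1 + y_m)`. -/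
noncomputable def yy (d : ℕ) (β : ℂ → ℂ) (m : ℕ) (x : ℂ) : ℂ :=
  x ^ (d ^ (m + 1) - 1) * β x * (BB d β m x ^ d)⁻¹

theorem tendsto_beta {d : ℕ} {β : ℂ → ℂ} (hβ : IsBeta d β) : Tendsto β (𝓝 0) (𝓝 1) := by
  have h := (hβ.diff.differentiableAt (ball_mem_nhds 0 one_pos)).continuousAt.tendsto
  rwa [hβ.zero] at h

theorem tendsto_BB {d : ℕ} (hd : 2 ≤ d) {β : ℂ → ℂ} (hβ : IsBeta d β) (m : ℕ) :
    Tendsto (BB d β m) (𝓝 0) (𝓝 1) := by
  have h := ((BB_diff (d := d) hβ.diff m).differentiableAt (ball_mem_nhds 0 one_pos)).continuousAt.tendsto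
  rwa [BB_at_zero hd, hβ.zero, one_pow] at h

theorem tendsto_log {d : ℕ} (hd : 2 ≤ d) {β : ℂ → ℂ} (hβ : IsBeta d β) (m : ℕ) :
    Tendsto (fun x => log (BB d β m x)) (𝓝 0) (𝓝 0) := by
  have h : ContinuousAt log (1 : ℂ) := continuousAt_clog (by simp)
  have h2 := h.tendsto.comp (tendsto_BB hd hβ m)
  rwa [log_one] at h2

theorem yy_isBigO {d : ℕ} (hd : 2 ≤ d) {β : ℂ → ℂ} (hβ : IsBeta d β) (m : ℕ) :
    (yy d β m) =O[𝓝 0] fun x : ℂ => x ^ (d ^ (m + 1) - 1) := by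
  have h1 : (fun x => β x * (BB d β m x ^ d)⁻¹) =O[𝓝 0] fun _ => (1 : ℂ) := by
    have h2 : Tendsto (fun x => β x * (BB d β m x ^ d)⁻¹) (𝓝 0) (𝓝 (1 * (1 ^ d)⁻¹)) :=
      (tendsto_beta hβ).mul (((tendsto_BB hd hβ m).pow d).inv₀ (by simp))
    exact h2.isBigO_one ℂ
  have h3 := (isBigO_refl (fun x : ℂ => x ^ (d ^ (m + 1) - 1)) (𝓝 0)).mul h1
  refine (h3.congr_left fun x => ?_).congr_right fun x => ?_
  · unfold yy; ring
  · ring

theorem pow_isBigO {a b : ℕ} (h : b ≤ a) : (fun x : ℂ => x ^ a) =O[𝓝 0] fun x : ℂ => x ^ b := by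
  have h1 : (fun x : ℂ => x ^ (a - b)) =O[𝓝 0] fun _ => (1 : ℂ) := by
    have : Tendsto (fun x : ℂ => x ^ (a - b)) (𝓝 0) (𝓝 (0 ^ (a - b))) :=
      (continuous_pow (a - b)).tendsto 0
    exact this.isBigO_one ℂ
  have h2 := h1.mul (isBigO_refl (fun x : ℂ => x ^ b) (𝓝 0))
  refine (h2.congr_left fun x => ?_).congr_right fun x => ?_
  · rw [← pow_add]; congr 1; omega
  · ring

theorem tendsto_yy {d : ℕ} (hd : 2 ≤ d) {β : ℂ → ℂ} (hβ : IsBeta d β) (m : ℕ) :
    Tendsto (yy d β m) (𝓝 0) (𝓝 0) := by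
  refine (yy_isBigO hd hβ m).trans_tendsto ?_
  have h1 : d ^ (m + 1) - 1 ≠ 0 := by
    have : 1 < d ^ (m + 1) := Nat.one_lt_pow (by omega) (by omega)
    omega
  have : Tendsto (fun x : ℂ => x ^ (d ^ (m + 1) - 1)) (𝓝 0) (𝓝 (0 ^ (d ^ (m + 1) - 1))) :=
    (continuous_pow _).tendsto 0
  rwa [zero_pow h1] at this

/-- `log B_{m+1} = d log B_m + log (1 + y_m)` near the origin. -/
theorem log_succ {d : ℕ} (hd : 2 ≤ d) {β : ℂ → ℂ} (hβ : IsBeta d β) (m : ℕ) :
    ∀ᶠ x in 𝓝 (0 : ℂ), BB d β m x ≠ 0 ∧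
      log (BB d β (m + 1) x) = d * log (BB d β m x) + log (1 + yy d β m x) := by
  have h1 : ∀ᶠ x in 𝓝 (0 : ℂ), BB d β m x ≠ 0 :=
    (tendsto_BB hd hβ m).eventually_ne one_ne_zero
  have h2t : Tendsto (fun x => 1 + yy d β m x) (𝓝 0) (𝓝 1) := by
    simpa using (tendsto_yy hd hβ m).const_add 1
  have h2 : ∀ᶠ x in 𝓝 (0 : ℂ), 1 + yy d β m x ≠ 0 := h2t.eventually_ne one_ne_zero
  have h3t : Tendsto (fun x => (d : ℂ) * log (BB d β m x) + log (1 + yy d β m x)) (𝓝 0) (𝓝 0) := by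
    have h : ContinuousAt log (1 : ℂ) := continuousAt_clog (by simp)
    have h4 := h.tendsto.comp h2t
    rw [log_one] at h4
    simpa using ((tendsto_log hd hβ m).const_mul (d : ℂ)).add h4
  have h3 : ∀ᶠ x in 𝓝 (0 : ℂ),
      ‖(d : ℂ) * log (BB d β m x) + log (1 + yy d β m x)‖ < Real.pi := by
    have := h3t.norm
    rw [norm_zero] at this
    exact this.eventually_lt_const Real.pi_pos
  filter_upwards [h1, h2, h3] with x hx1 hx2 hx3
  refine ⟨hx1, ?_⟩
  have h5 : BB d β (m + 1) x =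
      exp ((d : ℂ) * log (BB d β m x) + log (1 + yy d β m x)) := by
    rw [Complex.exp_add, Complex.exp_nat_mul, exp_log hx1, exp_log hx2, BB_succ]
    unfold yy
    field_simp
  have him := (Complex.abs_im_le_norm _).trans_lt hx3
  rw [abs_lt] at him
  rw [h5, log_exp him.1 him.2.le]

end Pool.Agent.W677.MD
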