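import Mathlib
import Pool.Agent.W677.MD2

set_option autoImplicit false

/-! # Faber polynomials of index `k d^n`: the induction -/

namespace Pool.Agent.W677.MD

open Complex Set Topology Filter Metric N62a1eb23 Pool.Agent.H712R2 Pool.Agent.H713R2
open Asymptotics

/-- The value at `1 / 8` is real and at least `(1 / 8) ^ a`. -/
def Pos (G : Polynomial ℂ) (a : ℕ) : Prop :=
  ∃ g : ℝ, (1 / 8 : ℝ) ^ a ≤ g ∧ G.eval (1 / 8 : ℂ) = (g : ℂ)

theorem P_real (d k : ℕ) : ∃ r : ℝ, 1 / 8 ≤ r ∧ P d (k + 1) (1 / 8) = (r : ℂ) := by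
  have key : ∀ k, ∃ r : ℝ, 0 ≤ r ∧ P d k (1 / 8) = (r : ℂ) := by
    intro k
    induction k with
    | zero => exact ⟨0, le_rfl, by rw [P_zero]; simp⟩
    | succ k ih =>
      obtain ⟨r, hr, he⟩ := ih
      refine ⟨r ^ d + 1 / 8, by positivity, ?_⟩
      rw [P_succ, he]
      push_cast
      ring
  obtain ⟨r, hr, he⟩ := key k
  refine ⟨r ^ d + 1 / 8, ?_, ?_⟩
  · have : 0 ≤ r ^ d := by positivity
    linarith
  · rw [P_succ, he]
    push_cast
    ring

theorem nat_ineq1 {q D a a' l : ℕ} (hq : 1 ≤ q) (hD : 1 ≤ D) (ha : a = a' + l * D) :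
    (a + 1) * (q - 1) ≤ l * (q * D - 1) + (a' + 1) * (q - 1) := by
  obtain ⟨p, rfl⟩ := Nat.exists_eq_add_of_le' hq
  obtain ⟨E, rfl⟩ := Nat.exists_eq_add_of_le' hD
  subst ha
  have h1 : (p + 1) * (E + 1) - 1 = p * E + p + E := by
    rw [show (p + 1) * (E + 1) = p * E + p + E + 1 by ring]; omega
  rw [h1, Nat.add_sub_cancel]
  nlinarith [Nat.zero_le (l * E)]

theorem nat_ineq2 {q D a L : ℕ} (hq : 1 ≤ q) (hD : 1 ≤ D) (ha : a + 1 ≤ (L + 1) * D) :
    (a + 1) * (q - 1) ≤ (q * D - 1) * (L + 1) := by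
  obtain ⟨p, rfl⟩ := Nat.exists_eq_add_of_le' hq
  obtain ⟨E, rfl⟩ := Nat.exists_eq_add_of_le' hD
  have h1 : (p + 1) * (E + 1) - 1 = p * E + p + E := by
    rw [show (p + 1) * (E + 1) = p * E + p + E + 1 by ring]; omega
  rw [h1, Nat.add_sub_cancel]
  calc (a + 1) * p ≤ ((L + 1) * (E + 1)) * p := Nat.mul_le_mul_right _ ha
    _ ≤ (p * E + p + E) * (L + 1) := by nlinarith [Nat.zero_le (L * E), Nat.zero_le E]

theorem exists_G {d : ℕ} (hd : 2 ≤ d) {β : ℂ → ℂ} (hβ : IsBeta d β) (n j : ℕ) :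
    ∀ a : ℕ, ∃ G : Polynomial ℂ, Pos G a ∧
      (fun x : ℂ => exp ((((a : ℝ) / (d : ℝ) ^ j : ℝ) : ℂ) * log (BB d β (n + j) x)) -
        x ^ (a * d ^ n) * G.eval (x⁻¹ * β x)) =O[𝓝[≠] 0]
        fun x : ℂ => x ^ ((a + 1) * (d ^ n - 1)) := by
  have hq : 1 ≤ d ^ n := Nat.one_le_pow _ _ (by omega)
  have hd0 : (d : ℝ) ≠ 0 := by
    have : 0 < d := by omega
    exact_mod_cast this.ne'
  induction j with
  | zero =>
    intro a
    obtain ⟨r, hr, hre⟩ := P_real d n
    refine ⟨(PP d (n + 1)) ^ a, ⟨r ^ a, by gcongr, ?_⟩, ?_⟩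
    · rw [Polynomial.eval_pow, eval_PP, hre]
      push_cast
      rfl
    · have h0 : (fun x : ℂ => exp ((((a : ℝ) / (d : ℝ) ^ 0 : ℝ) : ℂ) * log (BB d β (n + 0) x)) -
          x ^ (a * d ^ n) * ((PP d (n + 1)) ^ a).eval (x⁻¹ * β x)) =ᶠ[𝓝[≠] 0] fun _ => 0 := by
        have h1 : ∀ᶠ x in 𝓝 (0 : ℂ), BB d β n x ≠ 0 :=
          (tendsto_BB hd hβ n).eventually_ne one_ne_zero
        filter_upwards [self_mem_nhdsWithin, h1.filter_mono nhdsWithin_le_nhds] with x hx hx1
        rw [pow_zero, div_one, add_zero, Complex.ofReal_natCast, Complex.exp_nat_mul, exp_log hx1,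
          Polynomial.eval_pow, eval_PP, BB_eq hd β n x hx, mul_pow, ← pow_mul, mul_comm a (d ^ n),
          sub_self]
      exact h0.trans_isBigO (isBigO_zero _ _)
  | succ j ih =>
    intro a
    choose Gs hG1 hG2 using ih
    choose gs hg1 hg2 using hG1
    set D : ℕ := d ^ (j + 1) with hD
    have hD1 : 1 ≤ D := Nat.one_le_pow _ _ (by omega)
    set L : ℕ := a / D with hL
    set s : ℝ := (a : ℝ) / (d : ℝ) ^ (j + 1) with hs
    set m : ℕ := n + j with hm
    have hqD : d ^ (m + 1) = d ^ n * D := by rw [hD, ← pow_add]; congr 1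
    have hLa : a + 1 ≤ (L + 1) * D := by
      have := Nat.lt_mul_div_succ a (show 0 < D by omega)
      rw [← hL, mul_comm] at this
      exact this
    have hlD : ∀ l ≤ L, l * D ≤ a := fun l hl =>
      (Nat.mul_le_mul_right D hl).trans (Nat.div_mul_le_self a D)
    have hls : ∀ l ≤ L, (l : ℝ) ≤ s := by
      intro l hl
      have h1 : (l : ℝ) * (D : ℝ) ≤ a := by exact_mod_cast hlD l hl
      rw [hs, le_div_iff₀ (by positivity)]
      rw [hD] at h1
      push_cast at h1
      exact h1
    set c : ℕ → ℝ := fun l => Ring.choose s l with hc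
    have hc0 : c 0 = 1 := Ring.choose_zero_right s
    have hcn : ∀ l ≤ L, 0 ≤ c l := fun l hl => choose_nonneg (hls l hl)
    set al : ℕ → ℕ := fun l => a - l * D with hal
    have hal' : ∀ l ≤ L, a = al l + l * D := fun l hl => by
      have := hlD l hl
      simp only [hal]
      omega
    set G : Polynomial ℂ := ∑ l ∈ Finset.range (L + 1),
      Polynomial.C ((c l : ℝ) : ℂ) * Polynomial.X ^ l * Gs (al l) with hGdef
    have hGe : ∀ z : ℂ, G.eval z = ∑ l ∈ Finset.range (L + 1), ((c l : ℝ) : ℂ) *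
        (z ^ l * (Gs (al l)).eval z) := by
      intro z
      rw [hGdef, Polynomial.eval_finsetSum]
      apply Finset.sum_congr rfl
      intro l _
      simp only [Polynomial.eval_mul, Polynomial.eval_C, Polynomial.eval_pow, Polynomial.eval_X]
      ring
    refine ⟨G, ⟨∑ l ∈ Finset.range (L + 1), c l * ((1 / 8) ^ l * gs (al l)), ?_, ?_⟩, ?_⟩
    · have h1 : ∀ l ∈ Finset.range (L + 1), 0 ≤ c l * ((1 / 8) ^ l * gs (al l)) := by
        intro l hl
        rw [Finset.mem_range] at hl
        have h2 := hcn l (by omega)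
        have h3 : 0 ≤ gs (al l) := le_trans (by positivity) (hg1 (al l))
        positivity
      have h2 := Finset.single_le_sum h1 (Finset.mem_range.mpr (Nat.succ_pos L))
      rw [hc0, pow_zero, one_mul, one_mul] at h2
      refine le_trans ?_ h2
      have h3 := hg1 (al 0)
      simpa [hal] using h3
    · rw [hGe]
      push_cast
      apply Finset.sum_congr rfl
      intro l _
      rw [hg2]
    · -- the expansion
      set W : ℂ → ℂ := fun x => exp ((((a : ℝ) / (d : ℝ) ^ j : ℝ) : ℂ) * log (BB d β m x)) with hW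
      have hWb : W =O[𝓝 0] fun _ => (1 : ℂ) := by
        have h1 : Tendsto W (𝓝 0) (𝓝 (exp ((((a : ℝ) / (d : ℝ) ^ j : ℝ) : ℂ) * 0))) :=
          (Complex.continuous_exp.tendsto _).comp ((tendsto_log hd hβ m).const_mul _)
        exact h1.isBigO_one ℂ
      have hβb : ∀ l : ℕ, (fun x => β x ^ l) =O[𝓝 0] fun _ => (1 : ℂ) := fun l =>
        ((tendsto_beta hβ).pow l).isBigO_one ℂ
      -- main remainder
      have hR1 : (fun x => W x * (exp (s * log (1 + yy d β m x)) -
          ∑ l ∈ Finset.range (L + 1), ((c l : ℝ) : ℂ) * yy d β m x ^ l)) =O[𝓝[≠] 0]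
          fun x : ℂ => x ^ ((a + 1) * (d ^ n - 1)) := by
        have h1 := (binom_exp s (L + 1)).comp_tendsto (tendsto_yy hd hβ m)
        have h2 : (fun x : ℂ => yy d β m x ^ (L + 1)) =O[𝓝 0]
            fun x : ℂ => (x ^ (d ^ (m + 1) - 1)) ^ (L + 1) := (yy_isBigO hd hβ m).pow _
        have h3 : (fun x : ℂ => (x ^ (d ^ (m + 1) - 1)) ^ (L + 1)) =O[𝓝 0]
            fun x : ℂ => x ^ ((a + 1) * (d ^ n - 1)) := by
          simp only [← pow_mul]
          apply pow_isBigO
          rw [hqD]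
          exact nat_ineq2 hq hD1 hLa
        have h4 := hWb.mul (h1.trans (h2.trans h3))
        simp only [one_mul] at h4
        exact h4.mono nhdsWithin_le_nhds
      -- the terms
      have hR2 : ∀ l ∈ Finset.range (L + 1), (fun x : ℂ => ((c l : ℝ) : ℂ) *
          (W x * yy d β m x ^ l -
            x ^ (a * d ^ n) * ((x⁻¹ * β x) ^ l * (Gs (al l)).eval (x⁻¹ * β x)))) =O[𝓝[≠] 0]
          fun x : ℂ => x ^ ((a + 1) * (d ^ n - 1)) := by
        intro l hl
        have hlL : l ≤ L := by rw [Finset.mem_range] at hl; omega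
        have ha' := hal' l hlL
        have h1 := (((isBigO_refl (fun x : ℂ => x ^ (l * (d ^ (m + 1) - 1))) (𝓝 0)).mul
          (hβb l)).mono nhdsWithin_le_nhds).mul (hG2 (al l))
        have h2 : (fun x : ℂ => x ^ (l * (d ^ (m + 1) - 1)) * 1 *
            x ^ ((al l + 1) * (d ^ n - 1))) =O[𝓝[≠] 0]
            fun x : ℂ => x ^ ((a + 1) * (d ^ n - 1)) := by
          simp only [mul_one, ← pow_add]
          apply (pow_isBigO _).mono nhdsWithin_le_nhds
          rw [hqD]
          exact nat_ineq1 hq hD1 ha'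
        have h3 := h1.trans h2
        have h4 : ∀ᶠ x in 𝓝 (0 : ℂ), BB d β m x ≠ 0 :=
          (tendsto_BB hd hβ m).eventually_ne one_ne_zero
        apply IsBigO.const_mul_left
        refine IsBigO.congr' h3 ?_ EventuallyEq.rfl
        filter_upwards [self_mem_nhdsWithin, h4.filter_mono nhdsWithin_le_nhds] with x hx hx1
        have hx0 : x ≠ 0 := hx
        have e1 : W x = exp ((((al l : ℝ) / (d : ℝ) ^ j : ℝ) : ℂ) * log (BB d β m x)) *
            (BB d β m x ^ d) ^ l := by
          have e2 : (BB d β m x ^ d) ^ l = exp (((d * l : ℕ) : ℂ) * log (BB d β m x)) := by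
            rw [Complex.exp_nat_mul, exp_log hx1, pow_mul]
          rw [e2, ← Complex.exp_add, ← add_mul]
          simp only [hW]
          congr 2
          have e3 : (a : ℝ) / (d : ℝ) ^ j = (al l : ℝ) / (d : ℝ) ^ j + ((d * l : ℕ) : ℝ) := by
            have e4 : (a : ℝ) = (al l : ℝ) + (l : ℝ) * (d : ℝ) ^ (j + 1) := by
              have := congrArg (fun k : ℕ => (k : ℝ)) ha'
              simpa [hD] using this
            rw [e4]
            push_cast
            field_simp
            ring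
          rw [e3]
          push_cast
          ring
        have e5 : yy d β m x ^ l = x ^ (l * (d ^ (m + 1) - 1)) * β x ^ l *
            ((BB d β m x ^ d) ^ l)⁻¹ := by
          unfold yy
          rw [mul_pow, mul_pow, ← pow_mul, inv_pow, mul_comm (d ^ (m + 1) - 1) l]
        have e6 : x ^ (a * d ^ n) = x ^ (l * (d ^ (m + 1) - 1)) * x ^ l * x ^ (al l * d ^ n) := by
          rw [← pow_add, ← pow_add]
          congr 1
          have e7 : d ^ (m + 1) - 1 + 1 = d ^ (m + 1) := Nat.sub_add_cancel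
            (Nat.one_le_pow _ _ (by omega))
          have e8 : l * (d ^ (m + 1) - 1) + l = l * d ^ (m + 1) := by
            conv_rhs => rw [← e7]
            ring
          rw [e8, hqD]
          conv_lhs => rw [ha']
          ring
        have hBl : (BB d β m x ^ d) ^ l ≠ 0 := pow_ne_zero _ (pow_ne_zero _ hx1)
        rw [e1, e5, e6, mul_pow, inv_pow]
        have hxl : x ^ l ≠ 0 := pow_ne_zero _ hx0
        field_simp
      have hR3 := IsBigO.sum hR2
      refine IsBigO.congr' (hR1.add hR3) ?_ EventuallyEq.rfl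
      filter_upwards [(log_succ hd hβ m).filter_mono nhdsWithin_le_nhds] with x hx
      have e1 : exp ((s : ℂ) * log (BB d β (n + (j + 1)) x)) =
          W x * exp (s * log (1 + yy d β m x)) := by
        rw [show n + (j + 1) = m + 1 by omega, hx.2, mul_add, Complex.exp_add]
        congr 2
        rw [← mul_assoc]
        congr 1
        have e2 : s * (d : ℝ) = (a : ℝ) / (d : ℝ) ^ j := by
          rw [hs, pow_succ]
          field_simp
        rw [← e2]
        push_cast
        ring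
      rw [e1, hGe]
      simp only [Finset.sum_apply]
      rw [mul_sub, Finset.mul_sum, Finset.mul_sum, sub_add, sub_right_inj, ← Finset.sum_sub_distrib]
      apply Finset.sum_congr rfl
      intro l _
      ring

end Pool.Agent.W677.MD
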