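import Mathlib
import Pool.Agent.W677.MD3

set_option autoImplicit false

/-! # Faber polynomials of index `k d^n`: the lower bound -/

namespace Pool.Agent.W677.MD

open Complex Set Topology Filter Metric N62a1eb23 Pool.Agent.H712R2 Pool.Agent.H713R2
open Asymptotics

theorem nat_ineq3 {q k : ℕ} (hq : k + 2 ≤ q) : k * q + 1 ≤ (k + 1) * (q - 1) := by
  obtain ⟨e, rfl⟩ := Nat.exists_eq_add_of_le hq
  rw [show k + 2 + e - 1 = k + 1 + e by omega]
  nlinarith [Nat.zero_le (k * e)]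

theorem nat_ineq4 {q k E : ℕ} (hq : 1 ≤ q) (hE : k + 2 ≤ E) : k * q + 1 ≤ q * E - 1 := by
  have h : q * (k + 2) ≤ q * E := Nat.mul_le_mul_left q hE
  have h2 : q * (k + 2) = k * q + 2 * q := by ring
  omega

theorem exists_F {d : ℕ} (hd : 2 ≤ d) {β : ℂ → ℂ} (hβ : IsBeta d β) {n k : ℕ}
    (hn : k + 2 ≤ d ^ n) : ∃ G : Polynomial ℂ, Pos G k ∧
      (fun x : ℂ => x ^ (k * d ^ n) * G.eval (x⁻¹ * β x) - 1) =O[𝓝[≠] 0]
        fun x : ℂ => x ^ (k * d ^ n + 1) := by
  obtain ⟨G, hG1, hG2⟩ := exists_G hd hβ n k k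
  refine ⟨G, hG1, ?_⟩
  set s : ℝ := (k : ℝ) / (d : ℝ) ^ k with hs
  have hφ : DifferentiableAt ℂ (fun w : ℂ => exp ((s : ℂ) * log w)) 1 := by
    have h1 : DifferentiableAt ℂ log 1 := Complex.differentiableAt_log (by simp)
    exact (h1.const_mul _).cexp
  have h1 := hφ.isBigO_sub.comp_tendsto (tendsto_BB hd hβ (n + k))
  obtain ⟨C, hC⟩ := hβ.order (n + k)
  have h2 : (fun x => BB d β (n + k) x - 1) =O[𝓝 0] fun x : ℂ => x ^ (d ^ (n + k + 1) - 1) := by
    apply IsBigO.of_bound C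
    filter_upwards [ball_mem_nhds (0 : ℂ) (show (0 : ℝ) < 1 / 2 by norm_num)] with x hx
    rw [norm_pow]
    exact hC x hx
  have h3 : (fun x : ℂ => x ^ (d ^ (n + k + 1) - 1)) =O[𝓝 0]
      fun x : ℂ => x ^ (k * d ^ n + 1) := by
    apply pow_isBigO
    rw [add_assoc, pow_add]
    apply nat_ineq4 (Nat.one_le_pow _ _ (by omega))
    have : k + 1 < d ^ (k + 1) := Nat.lt_pow_self (by omega)
    omega
  have h4 : (fun x : ℂ => x ^ ((k + 1) * (d ^ n - 1))) =O[𝓝 0]
      fun x : ℂ => x ^ (k * d ^ n + 1) := pow_isBigO (nat_ineq3 hn)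
  have h5 := (h1.trans (h2.trans h3)).mono (nhdsWithin_le_nhds (s := {(0 : ℂ)}ᶜ))
  have h6 := hG2.trans (h4.mono nhdsWithin_le_nhds)
  refine (h5.sub h6).congr_left fun x => ?_
  simp only [Function.comp_apply, log_one, mul_zero, Complex.exp_zero]
  ring

theorem coef_F {d : ℕ} (hd : 2 ≤ d) {β : ℂ → ℂ} (hβ : IsBeta d β) {n k : ℕ} (hk : 1 ≤ k)
    (hn : k + 2 ≤ d ^ n) : (1 / 8 : ℝ) ^ k ≤ ∑ l ∈ Finset.Icc 1 (k * d ^ n),
      (l : ℝ) * ‖tc (hh β (1 / 8)) l‖ * ‖uu β (1 / 8) (k * d ^ n - l)‖ := by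
  obtain ⟨G, ⟨g, hg1, hg2⟩, hG⟩ := exists_F hd hβ hn
  have ht : (1 / 8 : ℂ) ∈ multibrotSet d := ball_subset_multibrot hd (mem_ball_self (by norm_num))
  set m : ℕ := k * d ^ n with hm
  have hm1 : 1 ≤ m := Nat.mul_pos hk (Nat.pow_pos (by omega))
  obtain ⟨C, hC⟩ := hG.bound
  rw [eventually_nhdsWithin_iff, Metric.eventually_nhds_iff_ball] at hC
  obtain ⟨r, hr0, hr⟩ := hC
  set q : ℂ → ℂ := fun x => x ^ m * G.eval (x⁻¹ * β x) with hq
  set H : ℂ → ℂ := Function.update q 0 1 with hH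
  have hHe : ∀ x : ℂ, x ≠ 0 → H x = q x := fun x hx => Function.update_of_ne hx _ _
  have hH0 : H 0 = 1 := Function.update_self _ _ _
  have hord : ∀ x ∈ ball (0 : ℂ) (min r (1 / 2)), ‖H x - 1‖ ≤ max C 0 * ‖x‖ ^ (m + 1) := by
    intro x hx
    by_cases hx0 : x = 0
    · rw [hx0, hH0, sub_self, norm_zero]
      positivity
    · rw [hHe x hx0]
      have h1 := hr x (ball_subset_ball (min_le_left _ _) hx) hx0
      rw [norm_pow] at h1
      refine h1.trans ?_
      gcongr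
      exact le_max_left _ _
  have hr0' : 0 < min r (1 / 2) := by positivity
  have hHc : ContinuousAt H 0 := by
    rw [ContinuousAt, hH0, tendsto_iff_norm_sub_tendsto_zero]
    have h1 : Tendsto (fun x : ℂ => max C 0 * ‖x‖ ^ (m + 1)) (𝓝 0)
        (𝓝 (max C 0 * ‖(0 : ℂ)‖ ^ (m + 1))) := by
      have : Continuous (fun x : ℂ => max C 0 * ‖x‖ ^ (m + 1)) := by fun_prop
      exact this.tendsto 0
    rw [norm_zero, zero_pow (Nat.succ_ne_zero m), mul_zero] at h1
    refine squeeze_zero' (Eventually.of_forall fun x => norm_nonneg _) ?_ h1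
    filter_upwards [ball_mem_nhds (0 : ℂ) hr0'] with x hx using hord x hx
  have hHd : DifferentiableOn ℂ H (ball 0 1) := by
    rw [← Complex.differentiableOn_compl_singleton_and_continuousAt_iff (ball_mem_nhds 0 one_pos)]
    refine ⟨?_, hHc⟩
    have h1 : DifferentiableOn ℂ q (ball 0 1 \ {0}) := by
      intro x hx
      have hx0 : x ≠ 0 := hx.2
      have h2 : DifferentiableAt ℂ β x := hβ.diff.differentiableAt (isOpen_ball.mem_nhds hx.1)
      have h3 : DifferentiableAt ℂ (fun x => x⁻¹ * β x) x := (differentiableAt_inv hx0).mul h2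
      have h4 : DifferentiableAt ℂ (fun x => G.eval (x⁻¹ * β x)) x :=
        (G.differentiable _).comp x h3
      exact ((differentiableAt_id.pow m).mul h4).differentiableWithinAt
    exact h1.congr fun x hx => hHe x hx.2
  have h1 := coef_gen hβ ht (G := G) hm1 hHd (fun x _ hx0 => hHe x hx0) hr0' (min_le_right _ _)
    hord
  rw [hg2] at h1
  have h2 := basic_gen hβ ht hm1 h1
  refine le_trans ?_ h2
  rw [Complex.norm_real, Real.norm_eq_abs]
  exact hg1.trans (le_abs_self g)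

end Pool.Agent.W677.MD
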