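import Mathlib
import Pool.Agent.W677.MD4

set_option autoImplicit false

/-! # Lower bound for the Laurent coefficients in every window `[(1 - ε) N, N)` -/

namespace Pool.Agent.W677.MD

open Complex Set Topology Filter Metric N62a1eb23 Pool.Agent.H712R2 Pool.Agent.H713R2
open Asymptotics

theorem le_cutm {ε : ℝ} (m : ℕ) : (1 - ε) * (m : ℝ) ≤ (cutm ε m : ℝ) := Nat.le_ceil _

theorem split_gen {d : ℕ} (hd : 2 ≤ d) {β : ℂ → ℂ} (hβ : IsBeta d β) {ε : ℝ} (hε : 0 < ε)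
    (hε1 : ε < 1) :
    ∃ E : ℕ → ℝ, Tendsto E atTop (𝓝 0) ∧ ∀ (k n : ℕ) (s : ℝ), 1 ≤ k → k + 2 ≤ d ^ n → 0 ≤ s →
      (∀ l, cutm ε (k * d ^ n) ≤ l → l < k * d ^ n → (l : ℝ) * ‖tc β (l + 1)‖ ≤ s) →
      (1 / 8) ^ k ≤ 2 * s * ∑ j ∈ Finset.range (k * d ^ n), ‖uu β (1 / 8) j‖ + E (k * d ^ n) := by
  have hball := ball_subset_multibrot hd
  have hA := dirichlet_hh hβ (1 / 8)
  have hU := dirichlet_u hβ (by norm_num : (0 : ℝ) < 1 / 8) hball
  set A : ℕ → ℝ := fun l => ‖tc (hh β (1 / 8)) l‖ with hAdef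
  set U : ℕ → ℝ := fun j => ‖uu β (1 / 8) j‖ with hUdef
  have hA0 : ∀ l, 0 ≤ A l := fun l => norm_nonneg _
  have hU0 : ∀ l, 0 ≤ U l := fun l => norm_nonneg _
  refine ⟨fun n : ℕ => ∑ l ∈ Finset.Icc 1 (cutm ε n), (l : ℝ) * A l * U (n - l),
    low_gen hA0 hU0 hA hU hε hε1.le, fun k n s hk1 hkn hs hk => ?_⟩
  have h1 := coef_F hd hβ hk1 hkn
  set m := k * d ^ n with hm
  have hm0 : 1 ≤ m := Nat.mul_pos hk1 (Nat.pow_pos (by omega))
  have hL : cutm ε m ≤ m := cutm_le hε.le m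
  have hL1 : 1 ≤ cutm ε m := by
    apply Nat.one_le_ceil_iff.mpr
    have : (0 : ℝ) < (m : ℝ) := by exact_mod_cast hm0
    exact mul_pos (by linarith) this
  set L := cutm ε m with hLdef
  have h3 : ∑ l ∈ Finset.Icc 1 m, (l : ℝ) * A l * U (m - l) =
      ∑ l ∈ Finset.Icc 1 L, (l : ℝ) * A l * U (m - l) +
      ∑ l ∈ Finset.Ioc L m, (l : ℝ) * A l * U (m - l) := by
    rw [← Finset.sum_union]
    · congr 1
      ext l
      simp only [Finset.mem_Icc, Finset.mem_Ioc, Finset.mem_union]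
      omega
    · rw [Finset.disjoint_left]
      intro l hl hl2
      rw [Finset.mem_Icc] at hl
      rw [Finset.mem_Ioc] at hl2
      omega
  have h4 : ∑ l ∈ Finset.Ioc L m, (l : ℝ) * A l * U (m - l) ≤
      2 * s * ∑ j ∈ Finset.range m, U j := by
    have h5 : ∀ l ∈ Finset.Ioc L m, (l : ℝ) * A l * U (m - l) ≤ 2 * s * U (m - l) := by
      intro l hl
      rw [Finset.mem_Ioc] at hl
      apply mul_le_mul_of_nonneg_right _ (hU0 _)
      obtain ⟨k, rfl⟩ := Nat.exists_eq_add_of_le' (show 1 ≤ l by omega)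
      have h6 := hk k (by omega) (by omega)
      have h7 : A (k + 1) = ‖tc β (k + 1)‖ := by
        simp only [hAdef]
        rw [tc_hh hβ _ (by omega)]
      rw [h7]
      push_cast
      have h8 : (1 : ℝ) ≤ k := by exact_mod_cast (show 1 ≤ k by omega)
      have h9 : 0 ≤ ‖tc β (k + 1)‖ := norm_nonneg _
      nlinarith
    refine (Finset.sum_le_sum h5).trans ?_
    rw [← Finset.mul_sum]
    apply mul_le_mul_of_nonneg_left _ (by positivity)
    have h6 : ∑ l ∈ Finset.Ioc L m, U (m - l) = ∑ j ∈ Finset.range (m - L), U j := by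
      apply Finset.sum_nbij' (fun l => m - l) (fun j => m - j)
      · intro l hl
        rw [Finset.mem_Ioc] at hl
        rw [Finset.mem_range]
        omega
      · intro j hj
        rw [Finset.mem_range] at hj
        rw [Finset.mem_Ioc]
        omega
      · intro l hl
        rw [Finset.mem_Ioc] at hl
        omega
      · intro j hj
        rw [Finset.mem_range] at hj
        omega
      · intro l _
        rfl
    rw [h6]
    apply Finset.sum_le_sum_of_subset_of_nonneg _ (fun j _ _ => hU0 j)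
    intro j hj
    rw [Finset.mem_range] at hj ⊢
    omega
  have h5 : ∑ l ∈ Finset.Icc 1 m, (l : ℝ) * A l * U (m - l) =
      ∑ l ∈ Finset.Icc 1 m, (l : ℝ) * ‖tc (hh β (1 / 8)) l‖ *
        ‖uu β (1 / 8) (m - l)‖ := rfl
  rw [← h5, h3] at h1
  linarith

/-- The lower bound just below the integers `k d ^ n` with `k` bounded. -/
theorem main_k {d : ℕ} (hd : 2 ≤ d) {β : ℂ → ℂ} (hβ : IsBeta d β) {ε : ℝ} (hε : 0 < ε)
    (hε1 : ε ≤ 1 / 2) {K : ℝ} (hK : 0 < K) (kmax : ℕ) :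
    ∃ M0 : ℕ, ∀ k n : ℕ, 1 ≤ k → k ≤ kmax → k + 2 ≤ d ^ n → M0 ≤ k * d ^ n →
      ∃ l : ℕ, (1 - ε) * ((k * d ^ n : ℕ) : ℝ) ≤ l ∧ l < k * d ^ n ∧
      K ≤ (l : ℝ) * ‖tc β (l + 1)‖ * Real.sqrt (Real.log l) := by
  obtain ⟨E, hE, hsplit⟩ := split_gen hd hβ hε (by linarith)
  have hball := ball_subset_multibrot hd
  have hU := dirichlet_u hβ (by norm_num : (0 : ℝ) < 1 / 8) hball
  set δ : ℝ := (1 / 8) ^ kmax with hδ
  have hδ0 : 0 < δ := by positivity
  obtain ⟨C, hC0, hC⟩ := partial_sums (U := fun j => ‖uu β (1 / 8) j‖) (fun _ => norm_nonneg _) hU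
    (ε := δ / (16 * K)) (by positivity)
  set y : ℕ → ℝ := fun m => Real.sqrt (Real.log ((m : ℝ) / 2)) with hy
  have hlogt : Tendsto (fun m : ℕ => Real.log ((m : ℝ) / 2)) atTop atTop :=
    Real.tendsto_log_atTop.comp (tendsto_natCast_atTop_atTop.atTop_div_const (by norm_num))
  have hyt : Tendsto y atTop atTop := Real.tendsto_sqrt_atTop.comp hlogt
  have hev1 : ∀ᶠ n in atTop, E n < δ / 4 := hE.eventually (gt_mem_nhds (by positivity))
  have hev2 : ∀ᶠ n in atTop, max 1 (8 * K * C / δ) < y n := hyt.eventually_gt_atTop _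
  have hev3 : ∀ᶠ m : ℕ in atTop, 2 < Real.log ((m : ℝ) / 2) := hlogt.eventually_gt_atTop _
  obtain ⟨M0, hM0⟩ := eventually_atTop.mp ((hev1.and (hev2.and hev3)).and (eventually_ge_atTop 2))
  refine ⟨M0, fun k n hk1 hkm hkn hkM => ?_⟩
  obtain ⟨⟨h1, h2, h2'⟩, hm2⟩ := hM0 _ hkM
  have hsp := hsplit k n (K / y (k * d ^ n))
  have hpar := hC (k * d ^ n)
  set m : ℕ := k * d ^ n with hm
  by_contra hcon
  push Not at hcon
  have hy1 : 1 < y m := lt_of_le_of_lt (le_max_left _ _) h2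
  have hy2 : 8 * K * C / δ < y m := lt_of_le_of_lt (le_max_right _ _) h2
  have hy0 : 0 < y m := by linarith
  have hysq : y m ^ 2 = Real.log ((m : ℝ) / 2) := Real.sq_sqrt (by linarith)
  have hmr : (2 : ℝ) ≤ m := by exact_mod_cast hm2
  have h3 : ∀ l, cutm ε m ≤ l → l < m → (l : ℝ) * ‖tc β (l + 1)‖ ≤ K / y m := by
    intro l hl1 hl2
    have hl3 : (1 - ε) * (m : ℝ) ≤ l := (le_cutm m).trans (by exact_mod_cast hl1)
    have hl4 : (m : ℝ) / 2 ≤ l := by nlinarith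
    have h4 := hcon l hl3 hl2
    have h5 : y m ≤ Real.sqrt (Real.log l) := by
      apply Real.sqrt_le_sqrt
      exact Real.log_le_log (by positivity) hl4
    rw [le_div_iff₀ hy0]
    have h6 : (0 : ℝ) ≤ (l : ℝ) * ‖tc β (l + 1)‖ := by positivity
    calc (l : ℝ) * ‖tc β (l + 1)‖ * y m ≤ (l : ℝ) * ‖tc β (l + 1)‖ * Real.sqrt (Real.log l) :=
          mul_le_mul_of_nonneg_left h5 h6
      _ ≤ K := h4.le
  have h4 := hsp hk1 hkn (by positivity) h3
  have h5 := hpar (by omega)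
  have h6 : Real.sqrt (1 + Real.log (m : ℝ)) ≤ 2 * y m := by
    have h7 : (1 : ℝ) + Real.log (m : ℝ) ≤ (2 * y m) ^ 2 := by
      rw [mul_pow, hysq]
      have h8 : Real.log (m : ℝ) = Real.log ((m : ℝ) / 2) + Real.log 2 := by
        rw [← Real.log_mul (by positivity) (by norm_num)]
        congr 1
        ring
      have h9 : Real.log 2 ≤ 1 := by
        have := Real.log_two_lt_d9
        linarith
      rw [h8]
      linarith
    exact (Real.sqrt_le_sqrt h7).trans_eq (Real.sqrt_sq (by positivity))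
  have h7 : ∑ j ∈ Finset.range m, ‖uu β (1 / 8) j‖ ≤ C + δ / (16 * K) * (2 * y m) := by
    refine h5.trans ?_
    gcongr
  have h8 : 2 * (K / y m) * ∑ j ∈ Finset.range m, ‖uu β (1 / 8) j‖ ≤
      2 * (K / y m) * (C + δ / (16 * K) * (2 * y m)) :=
    mul_le_mul_of_nonneg_left h7 (by positivity)
  have h9 : 2 * (K / y m) * (C + δ / (16 * K) * (2 * y m)) = 2 * K * C / y m + δ / 4 := by
    field_simp
    ring
  have h10 : 2 * K * C / y m ≤ δ / 4 := by
    rw [div_le_iff₀ hy0]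
    rw [div_lt_iff₀ hδ0] at hy2
    linarith
  have h11 : δ ≤ (1 / 8) ^ k := by
    rw [hδ]
    exact pow_le_pow_of_le_one (by norm_num) (by norm_num) hkm
  linarith

/-- From the integers `k d ^ n` with bounded `k` to all integers. -/
theorem all_of_k {d : ℕ} (hd : 2 ≤ d) {ε e : ℝ} (he : 0 < e) (he1 : e ≤ 1 / 2) (hee : 2 * e ≤ ε)
    {K0 M0 : ℕ} (hK0 : 1 / e < K0) {Q : ℕ → Prop}
    (h : ∀ k n : ℕ, 1 ≤ k → k ≤ K0 * d → k + 2 ≤ d ^ n → M0 ≤ k * d ^ n →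
      ∃ l : ℕ, (1 - e) * ((k * d ^ n : ℕ) : ℝ) ≤ l ∧ l < k * d ^ n ∧ Q l) :
    ∀ᶠ N : ℕ in atTop, ∃ l : ℕ, (1 - ε) * (N : ℝ) ≤ l ∧ l < N ∧ Q l := by
  have hK0pos : 0 < K0 := by
    have : (0 : ℝ) < K0 := lt_trans (by positivity) hK0
    exact_mod_cast this
  have hd0 : 0 < d := by omega
  filter_upwards [eventually_ge_atTop (2 * M0), eventually_ge_atTop (K0 * d * (K0 * d + 2)),
    eventually_ge_atTop 1] with N hN1 hN2 hN3
  -- the scale
  have hNK : K0 ≤ N := by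
    refine le_trans ?_ hN2
    nlinarith [Nat.mul_pos hK0pos hd0, Nat.mul_le_mul_left K0 hd0]
  have hdiv : N / K0 ≠ 0 := by
    have := Nat.div_pos hNK hK0pos
    omega
  set n : ℕ := Nat.log d (N / K0) with hn
  have hn1 : d ^ n ≤ N / K0 := Nat.pow_log_le_self d hdiv
  have hn2 : N / K0 < d ^ (n + 1) := Nat.lt_pow_succ_log_self (by omega) _
  have hn3 : d ^ n * K0 ≤ N := (Nat.le_div_iff_mul_le hK0pos).mp hn1
  have hn4 : N < d ^ (n + 1) * K0 := (Nat.div_lt_iff_lt_mul hK0pos).mp hn2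
  have hdn : 0 < d ^ n := Nat.pow_pos hd0
  set k : ℕ := N / d ^ n with hk
  have hk1 : K0 ≤ k := (Nat.le_div_iff_mul_le hdn).mpr (by rw [mul_comm]; exact hn3)
  have hk2 : k ≤ K0 * d := by
    have : k < K0 * d := (Nat.div_lt_iff_lt_mul hdn).mpr (by
      refine hn4.trans_eq ?_
      rw [pow_succ]; ring)
    omega
  have hk3 : k + 2 ≤ d ^ n := by
    by_contra hcon
    push Not at hcon
    have h1 : d ^ n < K0 * d + 2 := by omega
    have h2 : N < (K0 * d + 2) * (d * K0) := by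
      calc N < d ^ n * d * K0 := by rw [← pow_succ]; exact hn4
        _ = d ^ n * (d * K0) := by ring
        _ ≤ (K0 * d + 2) * (d * K0) := Nat.mul_le_mul_right _ h1.le
    have h3 : (K0 * d + 2) * (d * K0) = K0 * d * (K0 * d + 2) := by ring
    omega
  have hkm1 : k * d ^ n ≤ N := Nat.div_mul_le_self N _
  have hkm2 : N < k * d ^ n + d ^ n := by
    have := Nat.lt_mul_div_succ N hdn
    rw [← hk] at this
    nlinarith
  have hkr1 : ((k * d ^ n : ℕ) : ℝ) ≤ N := by exact_mod_cast hkm1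
  have hkr2 : (N : ℝ) < ((k * d ^ n : ℕ) : ℝ) + (d ^ n : ℕ) := by exact_mod_cast hkm2
  have hkr3 : ((d ^ n : ℕ) : ℝ) ≤ e * N := by
    have h1 : ((d ^ n : ℕ) : ℝ) * K0 ≤ N := by exact_mod_cast hn3
    have h2 : 1 < e * K0 := by
      rw [div_lt_iff₀ he] at hK0
      linarith
    have h3 : (0 : ℝ) ≤ ((d ^ n : ℕ) : ℝ) := by positivity
    nlinarith
  have hkM : M0 ≤ k * d ^ n := by
    have h1 : (M0 : ℝ) ≤ ((k * d ^ n : ℕ) : ℝ) := by
      have h2 : 2 * (M0 : ℝ) ≤ N := by exact_mod_cast hN1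
      have h3 : (0 : ℝ) ≤ N := by positivity
      nlinarith
    exact_mod_cast h1
  obtain ⟨l, hl1, hl2, hl3⟩ := h k n (by omega) hk2 hk3 hkM
  refine ⟨l, ?_, by omega, hl3⟩
  refine le_trans ?_ hl1
  have h3 : (0 : ℝ) ≤ N := by positivity
  nlinarith

/-- The lower bound in every window `[(1 - ε) N, N)`. -/
theorem main_all {d : ℕ} (hd : 2 ≤ d) {β : ℂ → ℂ} (hβ : IsBeta d β) {ε : ℝ} (hε : 0 < ε)
    (K : ℝ) : ∀ᶠ N : ℕ in atTop, ∃ l : ℕ, (1 - ε) * (N : ℝ) ≤ l ∧ l < N ∧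
      K ≤ (l : ℝ) * ‖tc β (l + 1)‖ * Real.sqrt (Real.log l) := by
  obtain ⟨K', hK', hKK⟩ : ∃ K' : ℝ, 0 < K' ∧ K ≤ K' := ⟨max K 1, by positivity, le_max_left _ _⟩
  obtain ⟨e, he, he1, hee⟩ : ∃ e : ℝ, 0 < e ∧ e ≤ 1 / 2 ∧ 2 * e ≤ ε :=
    ⟨min (ε / 2) (1 / 2), by positivity, min_le_right _ _, by
      have := min_le_left (ε / 2) (1 / 2 : ℝ)
      linarith⟩
  obtain ⟨K0, hK0⟩ := exists_nat_gt (1 / e)
  obtain ⟨M0, hM0⟩ := main_k hd hβ he he1 hK' (K0 * d)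
  refine all_of_k hd he he1 hee hK0 (M0 := M0) fun k n h1 h2 h3 h4 => ?_
  obtain ⟨l, hl1, hl2, hl3⟩ := hM0 k n h1 h2 h3 h4
  exact ⟨l, hl1, hl2, hKK.trans hl3⟩

end Pool.Agent.W677.MD
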