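import Mathlib
import Pool.Agent.H713R2.Main3
import Pool.Agent.W677.MD5

set_option autoImplicit false

/-! # The absolutely convergent case, in every window `[(1 - ε) N, N)` -/

namespace Pool.Agent.W677.MD

open Complex Set Topology Filter Metric N62a1eb23 Pool.Agent.H712R2 Pool.Agent.H713R2

theorem dich_all {d : ℕ} (hd : 2 ≤ d) {β : ℂ → ℂ} (hβ : IsBeta d β)
    (hs : Summable (fun k => ‖tc β k‖)) {ε : ℝ} (hε : 0 < ε) :
    ∃ c : ℝ, 0 < c ∧ ∀ᶠ N : ℕ in atTop, ∃ l : ℕ, (1 - ε) * (N : ℝ) ≤ l ∧ l < N ∧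
      c ≤ (l : ℝ) * ‖tc β (l + 1)‖ := by
  obtain ⟨e, he, he1, hee⟩ : ∃ e : ℝ, 0 < e ∧ e ≤ 1 / 2 ∧ 2 * e ≤ ε :=
    ⟨min (ε / 2) (1 / 2), by positivity, min_le_right _ _, by
      have := min_le_left (ε / 2) (1 / 2 : ℝ)
      linarith⟩
  obtain ⟨K0, hK0⟩ := exists_nat_gt (1 / e)
  obtain ⟨δ', hδ', hlow⟩ := hh_lower hd hβ
  have hs2 : Summable (fun k => ‖tc (hh β (1 / 8)) k‖) := by
    rw [← summable_nat_add_iff 2] at hs ⊢
    refine hs.congr fun k => ?_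
    rw [tc_hh hβ _ (show 2 ≤ k + 2 by omega)]
  have hU : Summable (fun k => ‖uu β (1 / 8) k‖) := wiener (hh_diff hβ _) hs2 hδ' hlow
  set B : ℝ := ∑' k, ‖uu β (1 / 8) k‖ with hB
  have hB0 : 0 ≤ B := tsum_nonneg fun _ => norm_nonneg _
  set δ : ℝ := (1 / 8) ^ (K0 * d) with hδ
  have hδ0 : 0 < δ := by positivity
  have hc0 : 0 < δ / (8 * (B + 1)) := by positivity
  refine ⟨δ / (8 * (B + 1)), hc0, ?_⟩
  obtain ⟨E, hE, hsplit⟩ := split_gen hd hβ he (by linarith)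
  have hev1 : ∀ᶠ n in atTop, E n < δ / 4 := hE.eventually (gt_mem_nhds (by positivity))
  obtain ⟨M0, hM0⟩ := eventually_atTop.mp hev1
  refine all_of_k hd he he1 hee hK0 (M0 := M0) fun k n h1 h2 h3 h4 => ?_
  by_contra hcon
  push Not at hcon
  have h5 := hsplit k n (δ / (8 * (B + 1))) h1 h3 hc0.le fun l hl1 hl2 =>
    (hcon l ((le_cutm _).trans (by exact_mod_cast hl1)) hl2).le
  have h6 := hM0 _ h4
  have h7 : ∑ j ∈ Finset.range (k * d ^ n), ‖uu β (1 / 8) j‖ ≤ B :=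
    hU.sum_le_tsum _ fun _ _ => norm_nonneg _
  have h8 : 2 * (δ / (8 * (B + 1))) * ∑ j ∈ Finset.range (k * d ^ n), ‖uu β (1 / 8) j‖ ≤
      2 * (δ / (8 * (B + 1))) * B := mul_le_mul_of_nonneg_left h7 (by positivity)
  have h9 : 2 * (δ / (8 * (B + 1))) * B ≤ δ / 4 := by
    rw [show 2 * (δ / (8 * (B + 1))) * B = δ * B / (4 * (B + 1)) by field_simp; ring]
    rw [div_le_div_iff₀ (by positivity) (by norm_num)]
    nlinarith
  have h11 : δ ≤ (1 / 8) ^ k := by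
    rw [hδ]
    exact pow_le_pow_of_le_one (by norm_num) (by norm_num) h2
  linarith

end Pool.Agent.W677.MD
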