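import Pool.Agent.W677.MC7

set_option autoImplicit false

/-! # Sharp distance and coefficient windows, all degrees -/

namespace Pool.Agent.W677.MC

open Complex Metric Set Filter Topology Pool.Agent.H712R2 Pool.Agent.H713R2 N62a1eb23

theorem P_le_two {d : ℕ} (hd : 2 ≤ d) {ψ : ℂ → ℂ} (hψ : IsExteriorMap (multibrotSet d) ψ)
    {z : ℂ} (hz : 1 < ‖z‖) (n : ℕ) : ‖P d (n + 1) (ψ z)‖ ≤ 2 * ‖z‖ ^ (d ^ n) := by
  obtain ⟨β, hβ⟩ := exists_beta (d := d) hd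
  rw [exteriorMap_unique hβ hψ hz]
  obtain ⟨hx, hx0⟩ := inv_mem_ball hz
  have h1 := AR.BB_le_two hd hβ n hx
  have h2 := BB_eq hd β n z⁻¹ hx0
  rw [inv_inv] at h2
  rw [h2, norm_mul, norm_pow, norm_inv] at h1
  have h3 : 0 < ‖z‖ ^ (d ^ n) := by positivity
  rw [inv_pow, inv_mul_le_iff₀ h3] at h1
  linarith

theorem log_le_of_large {d : ℕ} (hd : 2 ≤ d) {ψ : ℂ → ℂ}
    (hψ : IsExteriorMap (multibrotSet d) ψ) {z : ℂ}
    (hz : 1 < ‖z‖) {k : ℕ} (h : 4 < ‖P d k (ψ z)‖) : Real.log (1 / (‖z‖ - 1)) ≤ k * d := by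
  obtain ⟨n, rfl⟩ : ∃ n, k = n + 1 := by
    rcases Nat.eq_zero_or_pos k with h0 | h0
    · rw [h0, P_zero, norm_zero] at h
      norm_num at h
    · exact Nat.exists_eq_add_of_le' h0
  have hdr : (2 : ℝ) ≤ d := by exact_mod_cast hd
  have h1 := P_le_two hd hψ hz n
  have h2 : 2 < ‖z‖ ^ (d ^ n) := by linarith
  obtain ⟨t, ht⟩ : ∃ t, t = ‖z‖ - 1 := ⟨_, rfl⟩
  have ht0 : 0 < t := by rw [ht]; linarith
  have hzt : ‖z‖ = 1 + t := by rw [ht]; ring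
  have h3 : ‖z‖ ^ (d ^ n) ≤ Real.exp (t * d ^ n) := by
    rw [hzt]
    have h4 : 1 + t ≤ Real.exp t := by
      have := Real.add_one_le_exp t
      linarith
    calc (1 + t) ^ (d ^ n) ≤ (Real.exp t) ^ (d ^ n) := pow_le_pow_left₀ (by linarith) h4 _
      _ = Real.exp (t * d ^ n) := by
          rw [← Real.exp_nat_mul]
          congr 1
          push_cast
          ring
  have h5 : Real.log 2 < t * d ^ n := by
    rw [Real.log_lt_iff_lt_exp (by norm_num)]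
    linarith
  have hl2 := Real.log_two_gt_d9
  have h6 : 1 / t ≤ (d : ℝ) ^ (n + 1) := by
    rw [div_le_iff₀ ht0, pow_succ]
    have h7 : 0 ≤ t * (d : ℝ) ^ n := by positivity
    have h8 : (d : ℝ) ^ n * d * t = d * (t * (d : ℝ) ^ n) := by ring
    rw [h8]
    nlinarith
  rw [← ht]
  have h7 := Real.log_le_log (by positivity) h6
  rw [Real.log_pow] at h7
  refine h7.trans ?_
  apply mul_le_mul_of_nonneg_left _ (by positivity)
  exact (Real.log_le_sub_one_of_pos (by linarith)).trans (by linarith)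

/-- **points at distance `ρ` which escape in `C / ρ` steps** -/
theorem nearG {d : ℕ} (hd : 2 ≤ d) {A : ℂ} (hA : A ^ (d - 1) = -1 / d) :
    ∃ C : ℝ, 0 < C ∧ ∀ ψ : ℂ → ℂ, IsExteriorMap (multibrotSet d) ψ →
    ∀ ρ : ℝ, 0 < ρ → ρ ≤ 1 → ∃ z : ℂ, 1 < ‖z‖ ∧ ‖ψ z - cc d A 0‖ ≤ ρ ∧
      Real.log (1 / (‖z‖ - 1)) ≤ C / ρ := by
  obtain ⟨k₀, K, X, hK, hX, hgate⟩ := gateG hd hA
  obtain ⟨C₃, δ₃, hC₃, hδ₃, hcc⟩ := lip0 (cc_diff d A)
  have hdr : (2 : ℝ) ≤ d := by exact_mod_cast hd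
  obtain ⟨T₀, hT₀⟩ : ∃ T₀ : ℕ, T₀ = ⌈max X (K / δ₃)⌉₊ := ⟨_, rfl⟩
  have hT₀X : X ≤ T₀ := (le_max_left _ _).trans (by rw [hT₀]; exact Nat.le_ceil _)
  have hT₀K : K / δ₃ ≤ T₀ := (le_max_right _ _).trans (by rw [hT₀]; exact Nat.le_ceil _)
  have hT₀1 : 1 ≤ T₀ := by
    have : (1 : ℝ) ≤ T₀ := hX.trans hT₀X
    exact_mod_cast this
  refine ⟨(k₀ + 2 * ((T₀ : ℝ) ^ 10 + 1024 * (C₃ * K))) * d, by positivity, ?_⟩
  intro ψ hψ ρ hρ hρ1
  have hex : ∃ T : ℕ, T₀ ≤ T ∧ C₃ * K / ρ ≤ (T : ℝ) ^ 10 := by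
    refine ⟨max T₀ ⌈C₃ * K / ρ⌉₊, le_max_left _ _, ?_⟩
    have h1 : C₃ * K / ρ ≤ ((max T₀ ⌈C₃ * K / ρ⌉₊ : ℕ) : ℝ) :=
      (Nat.le_ceil _).trans (by exact_mod_cast le_max_right _ _)
    have h2 : (1 : ℝ) ≤ ((max T₀ ⌈C₃ * K / ρ⌉₊ : ℕ) : ℝ) := by
      exact_mod_cast hT₀1.trans (le_max_left _ _)
    exact h1.trans (le_self_pow₀ h2 (by norm_num))
  classical
  obtain ⟨T, hT⟩ : ∃ T, T = Nat.find hex := ⟨_, rfl⟩
  obtain ⟨hT1, hT2⟩ := Nat.find_spec hex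
  rw [← hT] at hT1 hT2
  have hT3 : (T : ℝ) ^ 10 ≤ ((T₀ : ℝ) ^ 10 + 1024 * (C₃ * K)) / ρ := by
    rw [le_div_iff₀ hρ]
    rcases Nat.eq_or_lt_of_le hT1 with h | h
    · rw [← h]
      have h1 : (T₀ : ℝ) ^ 10 * ρ ≤ (T₀ : ℝ) ^ 10 := mul_le_of_le_one_right (by positivity) hρ1
      have h2 : 0 ≤ 1024 * (C₃ * K) := by positivity
      linarith
    · have h1 : ¬ (T₀ ≤ T - 1 ∧ C₃ * K / ρ ≤ ((T - 1 : ℕ) : ℝ) ^ 10) :=
        Nat.find_min hex (by rw [← hT]; omega)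
      push Not at h1
      have h2 := h1 (by omega)
      have h3 : (T : ℝ) ≤ 2 * ((T - 1 : ℕ) : ℝ) := by
        exact_mod_cast (show T ≤ 2 * (T - 1) by omega)
      have h4 : (T : ℝ) ^ 10 ≤ (2 * ((T - 1 : ℕ) : ℝ)) ^ 10 :=
        pow_le_pow_left₀ (Nat.cast_nonneg T) h3 10
      have h5 : (T : ℝ) ^ 10 ≤ 1024 * (C₃ * K / ρ) := by
        refine h4.trans ?_
        rw [mul_pow]
        norm_num
        linarith
      have h6 : (T : ℝ) ^ 10 * ρ ≤ 1024 * (C₃ * K / ρ) * ρ := mul_le_mul_of_nonneg_right h5 hρ.le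
      have h7 : 1024 * (C₃ * K / ρ) * ρ = 1024 * (C₃ * K) := by
        field_simp
      have h8 : (0 : ℝ) ≤ (T₀ : ℝ) ^ 10 := by positivity
      linarith
  have hTT₀ : (T₀ : ℝ) ≤ T := by exact_mod_cast hT1
  have hT1' : (1 : ℝ) ≤ T := (hX.trans hT₀X).trans hTT₀
  have hT0 : (0 : ℝ) < T := by linarith
  obtain ⟨x, hx1, n, hn1, hn2⟩ := hgate T (hT₀X.trans hTT₀)
  have hx2 : ‖x‖ ≤ δ₃ := by
    refine hx1.trans ?_
    rw [div_le_iff₀ (by positivity)]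
    have h1 : K / δ₃ ≤ (T : ℝ) ^ 10 := (hT₀K.trans hTT₀).trans (le_self_pow₀ hT1' (by norm_num))
    rw [div_le_iff₀ hδ₃] at h1
    linarith
  have hcM : cc d A x ∉ multibrotSet d := by
    intro h
    have := (mem_multibrot_iff hd _).1 h (k₀ + 2 * n)
    linarith
  rw [← mem_compl_iff, ← hψ.image] at hcM
  obtain ⟨z, hz, hzc⟩ := hcM
  have hz' : 1 < ‖z‖ := hz
  refine ⟨z, hz', ?_, ?_⟩
  · rw [hzc]
    refine (hcc x hx2).trans ?_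
    have h1 : C₃ * ‖x‖ ≤ C₃ * (K / (T : ℝ) ^ 10) := mul_le_mul_of_nonneg_left hx1 hC₃.le
    refine h1.trans ?_
    rw [mul_div_assoc', div_le_iff₀ (by positivity)]
    rw [div_le_iff₀ hρ] at hT2
    linarith
  · rw [← hzc] at hn2
    have h1 := log_le_of_large hd hψ hz' hn2
    refine h1.trans ?_
    have e : (k₀ + 2 * ((T₀ : ℝ) ^ 10 + 1024 * (C₃ * K))) * d / ρ =
        (k₀ / ρ + 2 * (((T₀ : ℝ) ^ 10 + 1024 * (C₃ * K)) / ρ)) * d := by ring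
    rw [e]
    apply mul_le_mul_of_nonneg_right _ (by linarith)
    push_cast
    have h2 : (k₀ : ℝ) ≤ k₀ / ρ := by
      rw [le_div_iff₀ hρ]
      exact mul_le_of_le_one_right (Nat.cast_nonneg _) hρ1
    linarith

/-- **the coefficient windows** -/
theorem window_final {d : ℕ} (hd : 2 ≤ d) {ψ : ℂ → ℂ} {b : ℕ → ℂ}
    (hψ : IsExteriorMap (multibrotSet d) ψ)
    (hb : HasLaurent ψ b) : ∃ (c : ℝ) (A : ℕ), 0 < c ∧ 1 ≤ A ∧ ∀ N : ℕ, 2 ≤ N →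
      c / Real.log N ≤ ∑ m ∈ Finset.Ico N (N ^ A), ‖b m‖ ∧
      c / Real.log N ^ 3 ≤ ∑ m ∈ Finset.Ico N (N ^ A), (m : ℝ) * ‖b m‖ ^ 2 ∧
      c ≤ ∑ m ∈ Finset.Ico N (N ^ A), (m : ℝ) * ‖b m‖ ^ 2 * Real.log m ^ 3 := by
  obtain ⟨A₀, hA₀⟩ := IsAlgClosed.exists_pow_nat_eq (-1 / (d : ℂ)) (show 0 < d - 1 by omega)
  obtain ⟨C, hC, hnear⟩ := nearG hd hA₀
  obtain ⟨c, A, hc, hA, hw⟩ := windows hd hA₀ hψ hb 1 hC (fun ρ h1 h2 => by
    rw [pow_one]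
    exact hnear ψ hψ ρ h1 h2)
  obtain ⟨D, hD⟩ : ∃ D : ℕ, D = ⌈A⌉₊ := ⟨_, rfl⟩
  have hAD : A ≤ D := by rw [hD]; exact Nat.le_ceil _
  have hD1 : 1 ≤ D := by
    have : (0 : ℝ) < D := lt_of_lt_of_le hA hAD
    exact_mod_cast this
  have hDr : (1 : ℝ) ≤ D := by exact_mod_cast hD1
  have hl2 := Pool.Agent.W677.MB.log_two_ge
  obtain ⟨c', hc'⟩ : ∃ c', c' = min c (min (c ^ 2 / (2 * D)) (c ^ 2 / 4)) := ⟨_, rfl⟩
  refine ⟨c', D, by rw [hc']; positivity, hD1, ?_⟩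
  intro N hN
  have hlN := Pool.Agent.W677.MB.log_nat_ge hN
  have hlog0 : 0 < Real.log N := by linarith
  have hNn : N ≤ N ^ D := Nat.le_self_pow (by omega) N
  have h1 := hw N hN (N ^ D) (by
    rw [pow_one]
    push_cast
    have hN0 : (0 : ℝ) < N := by exact_mod_cast (show 0 < N by omega)
    rw [← Real.exp_log hN0, Real.log_exp, ← Real.exp_nat_mul]
    exact Real.exp_le_exp.2 (mul_le_mul_of_nonneg_right hAD hlog0.le))
  refine ⟨?_, ?_, ?_⟩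
  · refine le_trans ?_ h1
    apply div_le_div_of_nonneg_right _ hlog0.le
    rw [hc']
    exact min_le_left _ _
  · have h2 := Pool.Agent.W677.MB.sq_of_window hc hN hNn (D := (D : ℝ)) (p := 1) (by
      rw [pow_one]
      push_cast
      rw [Real.log_pow]) h1
    refine le_trans ?_ h2
    apply div_le_div_of_nonneg_right _ (by positivity)
    rw [hc']
    exact (min_le_right _ _).trans (min_le_left _ _)
  · refine le_trans ?_ (Pool.Agent.W677.MB.log_sq_of_window hc hN hNn h1)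
    rw [hc']
    exact (min_le_right _ _).trans (min_le_right _ _)

end Pool.Agent.W677.MC
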