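import Pool.Agent.W677.Shadow2

set_option autoImplicit false
set_option linter.unusedSectionVars false

/-!
Convex bodies some shadow of codimension one of which is a parallelotope.
-/

open Set Topology
open Pool.Agent.H843R3.Had2

namespace Pool.Agent.W677.Shadow

section cube

variable {n : ℕ}

/-- 0/1 vectors -/
def ind (σ : Finset (Fin n)) : Fin n → ℝ := fun i => if i ∈ σ then 1 else 0

theorem ind_mem (σ : Finset (Fin n)) : ind σ ∈ Icc (0 : Fin n → ℝ) 1 := by
  constructor
  · intro i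
    simp only [ind, Pi.zero_apply]
    split_ifs <;> norm_num
  · intro i
    simp only [ind, Pi.one_apply]
    split_ifs <;> norm_num

theorem hull_ind : convexHull ℝ (Set.range (ind (n := n))) = Icc (0 : Fin n → ℝ) 1 := by
  classical
  have h1 : (Icc (0 : Fin n → ℝ) 1) = Set.pi univ (fun _ => convexHull ℝ ({0, 1} : Set ℝ)) := by
    rw [← Set.pi_univ_Icc]
    simp only [Pi.zero_apply, Pi.one_apply]
    congr 1
    funext i
    rw [convexHull_pair, segment_eq_Icc (zero_le_one)]
  have h2 : Set.range (ind (n := n)) = Set.pi univ (fun _ => ({0, 1} : Set ℝ)) := by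
    ext x
    simp only [Set.mem_range, Set.mem_pi, mem_univ, forall_const, mem_insert_iff,
      mem_singleton_iff]
    constructor
    · rintro ⟨σ, rfl⟩ i
      simp only [ind]
      split_ifs
      · right; rfl
      · left; rfl
    · intro h
      refine ⟨Finset.univ.filter (fun i => x i = 1), ?_⟩
      funext i
      simp only [ind, Finset.mem_filter, Finset.mem_univ, true_and]
      split_ifs with h3
      · exact h3.symm
      · rcases h i with h4 | h4
        · exact h4.symm
        · exact absurd h4 h3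
  rw [h1, h2, convexHull_pi]

variable {G : Set (Fin n → ℝ)}

theorem upd (hGs : G ⊆ Icc (0 : Fin n → ℝ) 1)
    (hG : ∀ x ∈ Icc (0 : Fin n → ℝ) 1, ∀ y ∈ Icc (0 : Fin n → ℝ) 1, ∀ z ∈ G,
      z ∈ openSegment ℝ x y → x ∈ G) {m : Fin n → ℝ} (hm : m ∈ G) {i : Fin n} (h0 : 0 < m i)
    (h1 : m i < 1) : Function.update m i 0 ∈ G ∧ Function.update m i 1 ∈ G := by
  have hmI := hGs hm
  have e0 : Function.update m i 0 ∈ Icc (0 : Fin n → ℝ) 1 := by
    constructor
    · intro j
      by_cases hj : j = i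
      · subst hj; simp
      · rw [Function.update_of_ne hj]; exact hmI.1 j
    · intro j
      by_cases hj : j = i
      · subst hj; simp
      · rw [Function.update_of_ne hj]; exact hmI.2 j
  have e1 : Function.update m i 1 ∈ Icc (0 : Fin n → ℝ) 1 := by
    constructor
    · intro j
      by_cases hj : j = i
      · subst hj; simp
      · rw [Function.update_of_ne hj]; exact hmI.1 j
    · intro j
      by_cases hj : j = i
      · subst hj; simp
      · rw [Function.update_of_ne hj]; exact hmI.2 j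
  have hseg : m ∈ openSegment ℝ (Function.update m i 0) (Function.update m i 1) := by
    refine ⟨1 - m i, m i, by linarith, h0, by ring, ?_⟩
    funext j
    simp only [Pi.add_apply, Pi.smul_apply, smul_eq_mul]
    by_cases hj : j = i
    · subst hj; simp
    · rw [Function.update_of_ne hj, Function.update_of_ne hj]; ring
  refine ⟨hG _ e0 _ e1 m hm hseg, hG _ e1 _ e0 m hm ?_⟩
  rw [openSegment_symm]; exact hseg

theorem rnd (hGs : G ⊆ Icc (0 : Fin n → ℝ) 1)
    (hG : ∀ x ∈ Icc (0 : Fin n → ℝ) 1, ∀ y ∈ Icc (0 : Fin n → ℝ) 1, ∀ z ∈ G,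
      z ∈ openSegment ℝ x y → x ∈ G) (s : Finset (Fin n)) {m : Fin n → ℝ} (hm : m ∈ G) :
    ∃ m' ∈ G, (∀ i ∈ s, m' i = 0 ∨ m' i = 1) ∧ ∀ i ∉ s, m' i = m i := by
  classical
  induction s using Finset.induction_on with
  | empty => exact ⟨m, hm, by simp, fun _ _ => rfl⟩
  | insert a s has ih =>
    obtain ⟨m', hm', h1, h2⟩ := ih
    have hb := hGs hm'
    rcases (hb.1 a).eq_or_lt with h3 | h3
    · refine ⟨m', hm', ?_, fun i hi => h2 i fun h => hi (Finset.mem_insert_of_mem h)⟩
      intro i hi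
      rcases Finset.mem_insert.1 hi with rfl | hi
      · left; exact h3.symm
      · exact h1 i hi
    rcases (hb.2 a).eq_or_lt with h4 | h4
    · refine ⟨m', hm', ?_, fun i hi => h2 i fun h => hi (Finset.mem_insert_of_mem h)⟩
      intro i hi
      rcases Finset.mem_insert.1 hi with rfl | hi
      · right; exact h4
      · exact h1 i hi
    refine ⟨_, (upd hGs hG hm' h3 h4).1, ?_, ?_⟩
    · intro i hi
      by_cases hia : i = a
      · subst hia; left; simp
      · rw [Function.update_of_ne hia]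
        exact h1 i ((Finset.mem_insert.1 hi).resolve_left hia)
    · intro i hi
      have hia : i ≠ a := by rintro rfl; exact hi (Finset.mem_insert_self _ _)
      rw [Function.update_of_ne hia]
      exact h2 i fun h => hi (Finset.mem_insert_of_mem h)

theorem two (hGs : G ⊆ Icc (0 : Fin n → ℝ) 1) (hGc : Convex ℝ G)
    (hG : ∀ x ∈ Icc (0 : Fin n → ℝ) 1, ∀ y ∈ Icc (0 : Fin n → ℝ) 1, ∀ z ∈ G,
      z ∈ openSegment ℝ x y → x ∈ G) (hnt : G.Nontrivial) :
    ∃ (σ : Finset (Fin n)) (j : Fin n), j ∉ σ ∧ ind σ ∈ G ∧ ind (insert j σ) ∈ G := by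
  classical
  obtain ⟨x, hx, y, hy, hxy⟩ := hnt
  obtain ⟨j, hj⟩ : ∃ j, x j ≠ y j := by
    by_contra hcon
    push Not at hcon
    exact hxy (funext hcon)
  set m : Fin n → ℝ := (1 / 2 : ℝ) • x + (1 / 2 : ℝ) • y with hm
  have hmG : m ∈ G := hGc hx hy (by norm_num) (by norm_num) (by norm_num)
  have hmj : m j = (x j + y j) / 2 := by
    simp only [hm, Pi.add_apply, Pi.smul_apply, smul_eq_mul]; ring
  have hxb := hGs hx
  have hyb := hGs hy
  have b1 : 0 ≤ x j := hxb.1 j
  have b2 : x j ≤ 1 := hxb.2 j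
  have b3 : 0 ≤ y j := hyb.1 j
  have b4 : y j ≤ 1 := hyb.2 j
  have hm0 : 0 < m j ∧ m j < 1 := by
    rw [hmj]
    rcases lt_or_gt_of_ne hj with h | h
    · constructor <;> linarith
    · constructor <;> linarith
  obtain ⟨m', hm', h1, h2⟩ := rnd hGs hG (Finset.univ.erase j) hmG
  have hj' : m' j = m j := h2 j (Finset.notMem_erase j _)
  have h3 := upd hGs hG hm' (i := j) (by rw [hj']; exact hm0.1) (by rw [hj']; exact hm0.2)
  refine ⟨Finset.univ.filter (fun i => m' i = 1), j, ?_, ?_, ?_⟩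
  · simp only [Finset.mem_filter, Finset.mem_univ, true_and]
    rw [hj']; exact hm0.2.ne
  · have h4 : ind (Finset.univ.filter (fun i => m' i = 1)) = Function.update m' j 0 := by
      funext i
      simp only [ind, Finset.mem_filter, Finset.mem_univ, true_and]
      by_cases hij : i = j
      · subst hij
        rw [Function.update_self, if_neg (by rw [hj']; exact hm0.2.ne)]
      · rw [Function.update_of_ne hij]
        rcases h1 i (Finset.mem_erase.2 ⟨hij, Finset.mem_univ _⟩) with h5 | h5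
        · rw [if_neg (by rw [h5]; norm_num), h5]
        · rw [if_pos h5, h5]
    rw [h4]; exact h3.1
  · have h4 : ind (insert j (Finset.univ.filter (fun i => m' i = 1))) =
        Function.update m' j 1 := by
      funext i
      simp only [ind, Finset.mem_insert, Finset.mem_filter, Finset.mem_univ, true_and]
      by_cases hij : i = j
      · subst hij
        rw [Function.update_self, if_pos (Or.inl rfl)]
      · rw [Function.update_of_ne hij]
        rcases h1 i (Finset.mem_erase.2 ⟨hij, Finset.mem_univ _⟩) with h5 | h5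
        · rw [if_neg (by rw [h5]; push Not; exact ⟨hij, by norm_num⟩), h5]
        · rw [if_pos (Or.inr h5), h5]
    rw [h4]; exact h3.2

end cube

/-- Parallelotopes: the vertices and the colours. -/
theorem box {F : Type*} [NormedAddCommGroup F] [NormedSpace ℝ F] {n : ℕ} (c : F)
    (b : Module.Basis (Fin n) ℝ F) (Q : Set F)
    (hQ : Q = (fun t : Fin n → ℝ => c + ∑ i, t i • b i) '' Icc 0 1) :
    ∃ (V : Finset F) (col : F → Fin 2), V.card ≤ 2 ^ n ∧ Q = convexHull ℝ (V : Set F) ∧
      ∀ G : Set F, Convex ℝ G → IsExtreme ℝ Q G → G.Nontrivial →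
      ∃ z ∈ V, ∃ z' ∈ V, z ∈ G ∧ z' ∈ G ∧ col z ≠ col z' := by
  classical
  set Φ : (Fin n → ℝ) → F := fun t => c + ∑ i, t i • b i with hΦ
  have hcomb : ∀ x y : Fin n → ℝ, ∀ p q : ℝ, p + q = 1 → Φ (p • x + q • y) = p • Φ x + q • Φ y := by
    intro x y p q hpq
    simp only [hΦ, Pi.add_apply, Pi.smul_apply, smul_eq_mul, add_smul, mul_smul, smul_add,
      Finset.sum_add_distrib, Finset.smul_sum]
    have : c = p • c + q • c := by rw [← add_smul, hpq, one_smul]
    nth_rewrite 1 [this]
    abel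
  have hrepr : ∀ t : Fin n → ℝ, ∀ i, b.repr (Φ t - c) i = t i := by
    intro t i
    simp only [hΦ, add_sub_cancel_left]
    rw [← b.equivFun_symm_apply, ← Module.Basis.equivFun_apply, LinearEquiv.apply_symm_apply]
  have hinj : Function.Injective Φ := by
    intro x y hxy
    funext i
    rw [← hrepr x i, ← hrepr y i, hxy]
  set V : Finset F := Finset.univ.image (fun σ : Finset (Fin n) => Φ (ind σ)) with hV
  have hVQ : Q = convexHull ℝ (V : Set F) := by
    have h1 : (V : Set F) = Φ '' (Set.range (ind (n := n))) := by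
      rw [hV, Finset.coe_image, Finset.coe_univ, image_univ, ← Set.range_comp]
      rfl
    have h2 : (AffineMap.const ℝ (Fin n → ℝ) c +
        b.equivFun.symm.toLinearMap.toAffineMap : (Fin n → ℝ) →ᵃ[ℝ] F) '' (Set.range (ind (n := n)))
        = Φ '' (Set.range (ind (n := n))) := by
      refine Set.image_congr fun t _ => ?_
      simp [hΦ, Module.Basis.equivFun_symm_apply]
    have h3 : (AffineMap.const ℝ (Fin n → ℝ) c +
        b.equivFun.symm.toLinearMap.toAffineMap : (Fin n → ℝ) →ᵃ[ℝ] F) ''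
        (Icc (0 : Fin n → ℝ) 1) = Φ '' (Icc (0 : Fin n → ℝ) 1) := by
      refine Set.image_congr fun t _ => ?_
      simp [hΦ, Module.Basis.equivFun_symm_apply]
    rw [h1, ← h2, ← AffineMap.image_convexHull, hull_ind, h3, hQ]
  refine ⟨V, fun x => if Even ((Finset.univ.filter (fun i => b.repr (x - c) i = 1)).card)
    then 0 else 1, ?_, hVQ, ?_⟩
  · refine Finset.card_image_le.trans ?_
    rw [Finset.card_univ, Fintype.card_finset, Fintype.card_fin]
  intro G hGc hGe hGn
  have hGs : Φ ⁻¹' G ∩ Icc 0 1 ⊆ Icc (0 : Fin n → ℝ) 1 := inter_subset_right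
  have hsub : ∀ x ∈ G, ∃ t ∈ Φ ⁻¹' G ∩ Icc (0 : Fin n → ℝ) 1, Φ t = x := by
    intro x hx
    have h1 := hGe.subset hx
    rw [hQ] at h1
    obtain ⟨t, ht, rfl⟩ := h1
    exact ⟨t, ⟨hx, ht⟩, rfl⟩
  have hIQ : ∀ t ∈ Icc (0 : Fin n → ℝ) 1, Φ t ∈ Q := fun t ht => by
    rw [hQ]; exact ⟨t, ht, rfl⟩
  obtain ⟨σ, j, hj, h1, h2⟩ := two (G := Φ ⁻¹' G ∩ Icc 0 1) hGs (by
      rintro x ⟨hx, hx'⟩ y ⟨hy, hy'⟩ p q hp hq hpq
      refine ⟨?_, (convex_Icc (0 : Fin n → ℝ) 1) hx' hy' hp hq hpq⟩
      show Φ _ ∈ G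
      rw [hcomb _ _ _ _ hpq]
      exact hGc hx hy hp hq hpq) (by
      rintro x hx y hy z ⟨hz, _⟩ ⟨p, q, hp, hq, hpq, rfl⟩
      refine ⟨?_, hx⟩
      refine hGe.left_mem_of_mem_openSegment (hIQ x hx) (hIQ y hy) hz ?_
      exact ⟨p, q, hp, hq, hpq, (hcomb _ _ _ _ hpq).symm⟩) (by
      obtain ⟨x, hx, y, hy, hxy⟩ := hGn
      obtain ⟨t, ht, rfl⟩ := hsub x hx
      obtain ⟨u, hu, rfl⟩ := hsub y hy
      exact ⟨t, ht, u, hu, fun h => hxy (by rw [h])⟩)
  refine ⟨Φ (ind σ), Finset.mem_image_of_mem _ (Finset.mem_univ _), Φ (ind (insert j σ)),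
    Finset.mem_image_of_mem _ (Finset.mem_univ _), h1.1, h2.1, ?_⟩
  have hcard : ∀ τ : Finset (Fin n),
      (Finset.univ.filter (fun i => b.repr (Φ (ind τ) - c) i = 1)) = τ := by
    intro τ
    ext i
    simp only [Finset.mem_filter, Finset.mem_univ, true_and, hrepr, ind]
    split_ifs with h
    · simp [h]
    · simp [h]
  simp only [hcard, Finset.card_insert_of_notMem hj, Nat.even_add_one]
  by_cases h3 : Even σ.card
  · simp [h3]
  · simp [h3]

end Pool.Agent.W677.Shadow
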