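import Mathlib

/-!
# Covering by random sets: measure theoretic lemmas
-/

set_option autoImplicit false

open MeasureTheory Set
open scoped ENNReal Pointwise

namespace Pool.Agent.W677.Lin

section cover

variable {E : Type*} [MeasurableSpace E] {μ : Measure E} [SFinite μ]

/-- random covering: `R` is the relation that `x` covers `p` -/
theorem exists_cover {K : Set E} (_hK : MeasurableSet K) (h0 : μ K ≠ 0) (h1 : μ K ≠ ∞)
    {R : Set (E × E)} (hR : MeasurableSet R) (b : E → ℝ≥0∞)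
    (hb : ∀ p, μ {x | x ∈ K ∧ (x, p) ∉ R} / μ K ≤ b p) (hbm : Measurable b) (N : ℕ) :
    ∀ P : Set E, MeasurableSet P → ∃ T : Finset E, T.card ≤ N ∧ (T : Set E) ⊆ K ∧
      μ {p | p ∈ P ∧ ∀ x ∈ T, (x, p) ∉ R} ≤ ∫⁻ p in P, b p ^ N ∂μ := by
  classical
  induction N with
  | zero =>
    intro P hP
    refine ⟨∅, by simp, by simp, ?_⟩
    simp
  | succ N ih =>
    intro P hP
    have hRc : MeasurableSet Rᶜ := hR.compl
    let Φ : E → ℝ≥0∞ := fun x => ∫⁻ p in P, (Rᶜ).indicator (fun _ => (1 : ℝ≥0∞)) (x, p) * b p ^ N ∂μ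
    have hΦm : Measurable Φ := by
      refine Measurable.lintegral_prod_right' (f := fun z : E × E =>
        (Rᶜ).indicator (fun _ => (1 : ℝ≥0∞)) z * b z.2 ^ N) ?_
      exact (measurable_const.indicator hRc).mul ((hbm.comp measurable_snd).pow_const N)
    obtain ⟨x, hxK, hx⟩ := exists_le_setLAverage h0 h1 hΦm.aemeasurable.restrict
    have hav : ⨍⁻ a in K, Φ a ∂μ ≤ ∫⁻ p in P, b p ^ (N + 1) ∂μ := by
      rw [setLAverage_eq]
      have e1 : ∫⁻ x in K, Φ x ∂μ = ∫⁻ p in P, ∫⁻ x in K,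
          (Rᶜ).indicator (fun _ => (1 : ℝ≥0∞)) (x, p) * b p ^ N ∂μ ∂μ := by
        refine lintegral_lintegral_swap ?_
        exact ((measurable_const.indicator hRc).mul
          ((hbm.comp measurable_snd).pow_const N)).aemeasurable
      rw [e1, ENNReal.div_eq_inv_mul, ← lintegral_const_mul']
      · refine lintegral_mono fun p => ?_
        have hm : Measurable fun x => (Rᶜ).indicator (fun _ => (1 : ℝ≥0∞)) (x, p) :=
          (measurable_const.indicator hRc).comp (measurable_id.prodMk measurable_const)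
        rw [lintegral_mul_const _ hm]
        have e2 : ∫⁻ x in K, (Rᶜ).indicator (fun _ => (1 : ℝ≥0∞)) (x, p) ∂μ
            = μ {x | x ∈ K ∧ (x, p) ∉ R} := by
          have e3 : (fun x => (Rᶜ).indicator (fun _ => (1 : ℝ≥0∞)) (x, p))
              = {x | (x, p) ∉ R}.indicator (fun _ => (1 : ℝ≥0∞)) := by
            ext x
            simp [indicator, mem_compl_iff]
          have hms : MeasurableSet {x | (x, p) ∉ R} :=
            (measurable_id.prodMk measurable_const) hRc
          rw [e3, lintegral_indicator hms, lintegral_one, Measure.restrict_apply_univ,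
            Measure.restrict_apply hms]
          congr 1
          ext x
          simp [and_comm]
        rw [e2, ← mul_assoc, pow_succ, mul_comm (b p ^ N)]
        refine mul_le_mul_left ?_ _
        have := hb p
        rwa [ENNReal.div_eq_inv_mul] at this
      · exact ENNReal.inv_ne_top.2 h0
    have hP' : MeasurableSet {p | p ∈ P ∧ (x, p) ∉ R} :=
      hP.inter ((measurable_const.prodMk measurable_id) hRc)
    obtain ⟨T, hT1, hT2, hT3⟩ := ih {p | p ∈ P ∧ (x, p) ∉ R} hP'
    refine ⟨insert x T, (Finset.card_insert_le _ _).trans (by omega), ?_, ?_⟩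
    · intro y hy
      rw [Finset.coe_insert] at hy
      rcases hy with rfl | hy
      · exact hxK
      · exact hT2 hy
    · have e4 : {p | p ∈ P ∧ ∀ y ∈ insert x T, (y, p) ∉ R}
          = {p | p ∈ {p | p ∈ P ∧ (x, p) ∉ R} ∧ ∀ y ∈ T, (y, p) ∉ R} := by
        ext p
        simp only [Finset.mem_insert, forall_eq_or_imp, mem_ofPred_eq, and_assoc]
      rw [e4]
      refine hT3.trans (le_trans ?_ (hx.trans hav))
      show _ ≤ ∫⁻ p in P, (Rᶜ).indicator (fun _ => (1 : ℝ≥0∞)) (x, p) * b p ^ N ∂μ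
      have hms : MeasurableSet {p | (x, p) ∉ R} :=
        (measurable_const.prodMk measurable_id) hRc
      have e5 : (fun p => (Rᶜ).indicator (fun _ => (1 : ℝ≥0∞)) (x, p) * b p ^ N)
          = {p | (x, p) ∉ R}.indicator (fun p => b p ^ N) := by
        ext p
        by_cases hp : (x, p) ∈ R
        · simp [indicator, hp]
        · simp [indicator, hp]
      rw [e5, lintegral_indicator hms, Measure.restrict_restrict hms]
      have e6 : {p | p ∈ P ∧ (x, p) ∉ R} = {p | (x, p) ∉ R} ∩ P := by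
        ext p
        simp [and_comm]
      rw [e6]

end cover

/-- a linearised Cauchy-Schwarz inequality -/
theorem lin_cs {E : Type*} [MeasurableSpace E] {μ : Measure E} {f : E → ℝ≥0∞}
    (a : ℝ≥0∞) (ha : a ≠ ∞) (hf : ∫⁻ x, f x ∂μ ≠ ∞) (h : a * μ univ ≤ ∫⁻ x, f x ∂μ) :
    a * ∫⁻ x, f x ∂μ ≤ ∫⁻ x, f x ^ 2 ∂μ := by
  have hpt : ∀ x, 2 * a * f x ≤ f x ^ 2 + a ^ 2 := by
    intro x
    by_cases hx : f x = ∞
    · rw [hx]; simp
    · lift f x to NNReal using hx with y hy
      lift a to NNReal using ha with c hc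
      have : 2 * c * y ≤ y ^ 2 + c ^ 2 := by
        have := two_mul_le_add_sq y c
        calc 2 * c * y = 2 * y * c := by ring
          _ ≤ _ := this
      exact_mod_cast this
  have h1 : 2 * a * ∫⁻ x, f x ∂μ ≤ ∫⁻ x, f x ^ 2 ∂μ + a ^ 2 * μ univ := by
    calc 2 * a * ∫⁻ x, f x ∂μ = ∫⁻ x, 2 * a * f x ∂μ := by
          rw [lintegral_const_mul' _ _ (ENNReal.mul_ne_top (by simp) ha)]
      _ ≤ ∫⁻ x, (f x ^ 2 + a ^ 2) ∂μ := lintegral_mono hpt
      _ = _ := by
          rw [lintegral_add_right _ measurable_const, lintegral_const]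
  have h2 : a ^ 2 * μ univ ≤ a * ∫⁻ x, f x ∂μ := by
    rw [pow_two, mul_assoc]
    gcongr
  have h3 : a * ∫⁻ x, f x ∂μ + a * ∫⁻ x, f x ∂μ ≤ ∫⁻ x, f x ^ 2 ∂μ + a * ∫⁻ x, f x ∂μ := by
    calc a * ∫⁻ x, f x ∂μ + a * ∫⁻ x, f x ∂μ = 2 * a * ∫⁻ x, f x ∂μ := by ring
      _ ≤ _ := h1.trans (by gcongr)
  exact (ENNReal.add_le_add_iff_right (ENNReal.mul_ne_top ha hf)).1 h3

end Pool.Agent.W677.Lin
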