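import Pool.Agent.W677.Lin1
import Pool.Agent.H845R2.Sa
import Pool.Agent.H212R2.KLS.T1

/-!
# Convolution identities and the Brunn-Minkowski step
-/

set_option autoImplicit false

open MeasureTheory Set
open scoped ENNReal Pointwise RealInnerProductSpace

namespace Pool.Agent.W677.Lin

open Pool.Agent.H845R2 (SB pol MV)

/-- Euclidean space -/
abbrev E (d : ℕ) : Type := EuclideanSpace ℝ (Fin d)

variable {d : ℕ}

lemma swap_sets {R : Set (E d × E d)} (hR : MeasurableSet R) :
    ∫⁻ x : E d, volume {y | (x, y) ∈ R} = ∫⁻ y : E d, volume {x | (x, y) ∈ R} := by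
  have e1 : ∀ x : E d, volume {y | (x, y) ∈ R} = ∫⁻ y : E d, R.indicator (fun _ => (1 : ℝ≥0∞)) (x, y) := by
    intro x
    have hms : MeasurableSet {y : E d | (x, y) ∈ R} := (measurable_const.prodMk measurable_id) hR
    have : (fun y => R.indicator (fun _ => (1 : ℝ≥0∞)) (x, y))
        = {y : E d | (x, y) ∈ R}.indicator (fun _ => 1) := by
      ext y; simp [indicator]
    rw [this, lintegral_indicator hms, lintegral_one, Measure.restrict_apply_univ]
  have e2 : ∀ y : E d, volume {x | (x, y) ∈ R} = ∫⁻ x : E d, R.indicator (fun _ => (1 : ℝ≥0∞)) (x, y) := by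
    intro y
    have hms : MeasurableSet {x : E d | (x, y) ∈ R} := (measurable_id.prodMk measurable_const) hR
    have : (fun x => R.indicator (fun _ => (1 : ℝ≥0∞)) (x, y))
        = {x : E d | (x, y) ∈ R}.indicator (fun _ => 1) := by
      ext y; simp [indicator]
    rw [this, lintegral_indicator hms, lintegral_one, Measure.restrict_apply_univ]
  simp_rw [e1, e2]
  exact lintegral_lintegral_swap (measurable_const.indicator hR).aemeasurable

lemma conv1 {A B : Set (E d)} (hA : MeasurableSet A) (hB : MeasurableSet B) :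
    ∫⁻ x : E d, volume {y | y ∈ A ∧ y - x ∈ B} = volume A * volume B := by
  have hR : MeasurableSet {z : E d × E d | z.2 ∈ A ∧ z.2 - z.1 ∈ B} :=
    (measurable_snd hA).inter ((measurable_snd.sub measurable_fst) hB)
  have h := swap_sets hR
  refine h.trans ?_
  have e : ∀ y : E d, volume {x : E d | y ∈ A ∧ y - x ∈ B} = A.indicator (fun _ => volume B) y := by
    intro y
    by_cases hy : y ∈ A
    · rw [indicator_of_mem hy]
      have : {x : E d | y ∈ A ∧ y - x ∈ B} = (fun x => y - x) ⁻¹' B := by
        ext x; simp [hy]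
      rw [this]
      exact (Measure.measurePreserving_sub_left volume y).measure_preimage hB.nullMeasurableSet
    · rw [indicator_of_notMem hy]
      have : {x : E d | y ∈ A ∧ y - x ∈ B} = ∅ := by
        ext x; simp [hy]
      rw [this, measure_empty]
  show ∫⁻ y : E d, volume {x : E d | y ∈ A ∧ y - x ∈ B} = _
  simp_rw [e]
  rw [lintegral_indicator hA, lintegral_const, Measure.restrict_apply_univ, mul_comm]

lemma conv2 {A : Set (E d)} (hA : MeasurableSet A) :
    ∫⁻ n : E d, volume {y | y ∈ A ∧ (2 : ℝ) • n - y ∈ A}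
      = ENNReal.ofReal ((1 / 2) ^ d) * volume A ^ 2 := by
  have hR : MeasurableSet {z : E d × E d | z.2 ∈ A ∧ (2 : ℝ) • z.1 - z.2 ∈ A} :=
    (measurable_snd hA).inter (((measurable_fst.const_smul (2 : ℝ)).sub measurable_snd) hA)
  have h := swap_sets hR
  refine h.trans ?_
  have e : ∀ y : E d, volume {x : E d | y ∈ A ∧ (2 : ℝ) • x - y ∈ A}
      = A.indicator (fun _ => ENNReal.ofReal ((1 / 2) ^ d) * volume A) y := by
    intro y
    by_cases hy : y ∈ A
    · rw [indicator_of_mem hy]
      have : {x : E d | y ∈ A ∧ (2 : ℝ) • x - y ∈ A}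
          = (fun x => (2 : ℝ) • x) ⁻¹' ((fun x => x - y) ⁻¹' A) := by
        ext x; simp [hy]
      rw [this, Measure.addHaar_preimage_smul _ (by norm_num : (2 : ℝ) ≠ 0)]
      have h2 : volume ((fun x => x - y) ⁻¹' A) = volume A :=
        (measurePreserving_sub_right volume y).measure_preimage hA.nullMeasurableSet
      rw [h2, finrank_euclideanSpace, Fintype.card_fin]
      congr 2
      rw [abs_of_pos (by positivity)]
      simp
    · rw [indicator_of_notMem hy]
      have : {x : E d | y ∈ A ∧ (2 : ℝ) • x - y ∈ A} = ∅ := by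
        ext x; simp [hy]
      rw [this, measure_empty]
  show ∫⁻ y : E d, volume {x : E d | y ∈ A ∧ (2 : ℝ) • x - y ∈ A} = _
  simp_rw [e]
  rw [lintegral_indicator hA, lintegral_const, Measure.restrict_apply_univ]
  ring

/-- Brunn-Minkowski for compact sets in multiplicative form -/
theorem bm {t : ℝ} (ht0 : 0 < t) (ht1 : t < 1) {A C D : Set (E d)}
    (hA : IsCompact A) (hC : IsCompact C) (hD : IsCompact D)
    (h : ∀ x ∈ A, ∀ y ∈ C, (1 - t) • x + t • y ∈ D) {v : ℝ≥0∞} (hvA : v ≤ volume A)
    (hvC : v ≤ volume C) : v ≤ volume D := by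
  have hPL := Pool.Agent.H212R2.KLS.PL (volume : Measure (E d)) t ht0 ht1 (A.indicator 1)
    (C.indicator 1) (D.indicator 1) (measurable_one.indicator hA.measurableSet)
    (measurable_one.indicator hC.measurableSet) (measurable_one.indicator hD.measurableSet) ?_
  · rw [lintegral_indicator_one hA.measurableSet, lintegral_indicator_one hC.measurableSet,
      lintegral_indicator_one hD.measurableSet] at hPL
    refine le_trans ?_ hPL
    rcases eq_or_ne v 0 with rfl | hv0
    · exact zero_le
    · have hvt : v ≠ ∞ := ne_top_of_le_ne_top hC.measure_ne_top hvC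
      calc v = v ^ (1 - t) * v ^ t := by
            rw [← ENNReal.rpow_add _ _ hv0 hvt]
            norm_num
        _ ≤ (volume A) ^ (1 - t) * (volume C) ^ t := by
            gcongr
  · intro x y
    by_cases hx : x ∈ A
    · by_cases hy : y ∈ C
      · rw [indicator_of_mem hx, indicator_of_mem hy, indicator_of_mem (h x hx y hy)]
        simp
      · rw [indicator_of_notMem hy, ENNReal.zero_rpow_of_pos ht0, mul_zero]
        exact zero_le
    · rw [indicator_of_notMem hx, ENNReal.zero_rpow_of_pos (by linarith), zero_mul]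
      exact zero_le

/-- the intersection of `K` with its translate by `p` -/
def ov (K : Set (E d)) (p : E d) : Set (E d) := {y | y ∈ K ∧ y - p ∈ K}

lemma ov_compact {K : Set (E d)} (hK : IsCompact K) (p : E d) : IsCompact (ov K p) := by
  refine hK.inter_right ?_
  exact hK.isClosed.preimage (by fun_prop)

lemma SB.vol_pos {K : Set (E d)} (hK : SB K) : volume K ≠ 0 :=
  (Measure.measure_pos_of_nonempty_interior _ hK.int).ne'

lemma SB.vol_fin {K : Set (E d)} (hK : SB K) : volume K ≠ ∞ := hK.comp.measure_ne_top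

lemma vol_smul (K : Set (E d)) {c : ℝ} (hc : 0 ≤ c) :
    volume (c • K) = ENNReal.ofReal (c ^ d) * volume K := by
  rw [Measure.addHaar_smul, finrank_euclideanSpace, Fintype.card_fin, abs_of_nonneg (by positivity)]

/-- if the overlap of `K` and `p + K` is nearly as small as possible then the overlap of `K` and
`2 (1 - τ) p + K` is tiny -/
theorem ov_far {K : Set (E d)} (hd : 0 < d) (hK : SB K) {τ : ℝ} (h0 : 0 < τ) (h1 : τ < 1 / 2) {p : E d}
    (h : volume (ov K p) ≤ ENNReal.ofReal (((1 + τ) / 2) ^ d) * volume K) :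
    volume (ov K ((2 * (1 - τ)) • p)) ≤ ENNReal.ofReal ((2 * τ) ^ d) * volume K := by
  by_contra hcon
  push Not at hcon
  set T : ℝ := 2 * (1 - τ) with hT
  have hT1 : 1 < T := by rw [hT]; linarith
  have hT0 : 0 < T := by linarith
  have key : ENNReal.ofReal ((1 / T) ^ d) * volume K ≤ volume (ov K p) := by
    refine bm (t := 1 - 2 * τ) (by linarith) (by linarith)
      (A := (1 / (2 * τ * T)) • ov K (T • p)) (C := (1 / T) • K) (D := ov K p)
      ((ov_compact hK.comp _).smul _) (hK.comp.smul _) (ov_compact hK.comp _) ?_ ?_ ?_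
    · rintro _ ⟨y, ⟨hy1, hy2⟩, rfl⟩ _ ⟨w, hw, rfl⟩
      have e1 : (1 - (1 - 2 * τ)) • (1 / (2 * τ * T)) • y + (1 - 2 * τ) • (1 / T) • w
          = (1 / T) • y + (1 - 1 / T) • w := by
        rw [smul_smul, smul_smul]
        congr 2
        · field_simp; ring
        · field_simp; rw [hT]; ring
      have h2 : (0 : ℝ) ≤ 1 / T := by positivity
      have h3 : (0 : ℝ) ≤ 1 - 1 / T := by
        rw [sub_nonneg, div_le_one hT0]; exact hT1.le
      show (1 - (1 - 2 * τ)) • (1 / (2 * τ * T)) • y + (1 - 2 * τ) • (1 / T) • w ∈ ov K p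
      rw [e1]
      refine ⟨hK.conv hy1 hw h2 h3 (by ring), ?_⟩
      have e2 : (1 / T) • y + (1 - 1 / T) • w - p = (1 / T) • (y - T • p) + (1 - 1 / T) • w := by
        rw [smul_sub, smul_smul, one_div, inv_mul_cancel₀ hT0.ne', one_smul]
        abel
      rw [e2]
      exact hK.conv hy2 hw h2 h3 (by ring)
    · rw [vol_smul _ (by positivity)]
      calc ENNReal.ofReal ((1 / T) ^ d) * volume K
          = ENNReal.ofReal ((1 / (2 * τ * T)) ^ d) * (ENNReal.ofReal ((2 * τ) ^ d) * volume K) := by
            rw [← mul_assoc, ← ENNReal.ofReal_mul (by positivity), ← mul_pow]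
            congr 3
            field_simp
        _ ≤ _ := by gcongr
    · rw [vol_smul _ (by positivity)]
  have h2 := key.trans h
  have h3 := (ENNReal.mul_le_mul_iff_left (SB.vol_pos hK) (SB.vol_fin hK)).1 h2
  rw [ENNReal.ofReal_le_ofReal_iff (by positivity)] at h3
  have h4 : 1 / T ≤ (1 + τ) / 2 := le_of_pow_le_pow_left₀ hd.ne' (by positivity) h3
  rw [div_le_div_iff₀ hT0 (by norm_num), hT] at h4
  nlinarith

end Pool.Agent.W677.Lin
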