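import Pool.Agent.W677.Lin2

/-!
# The normals of a convex body near an extreme point
-/

set_option autoImplicit false

open MeasureTheory Set
open scoped ENNReal Pointwise RealInnerProductSpace

namespace Pool.Agent.W677.Lin

open Pool.Agent.H845R2 (SB pol MV)

variable {d : ℕ}

/-- the functionals which nearly attain their maximum on `K` at `p` -/
def Dp (K : Set (E d)) (τ : ℝ) (p : E d) : Set (E d) := {n | ∀ x ∈ K, ⟪x - (1 - τ) • p, n⟫ ≤ τ}

/-- the symmetric part of `K` with centre `z` -/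
def As (K : Set (E d)) (z : E d) : Set (E d) := {y | z + y ∈ K ∧ z - y ∈ K}

lemma Dp_closed (K : Set (E d)) (τ : ℝ) (p : E d) : IsClosed (Dp K τ p) := by
  have : Dp K τ p = ⋂ x ∈ K, {n | ⟪x - (1 - τ) • p, n⟫ ≤ τ} := by
    ext y; simp [Dp]
  rw [this]
  exact isClosed_biInter fun x _ => isClosed_le (by fun_prop) continuous_const

lemma Dp_convex (K : Set (E d)) (τ : ℝ) (p : E d) : Convex ℝ (Dp K τ p) := by
  intro y hy z hz a b ha hb hab x hx
  rw [inner_add_right, inner_smul_right, inner_smul_right]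
  have h1 := hy x hx
  have h2 := hz x hx
  have h3 := mul_le_mul_of_nonneg_left h1 ha
  have h4 := mul_le_mul_of_nonneg_left h2 hb
  have h5 : a * τ + b * τ = τ := by rw [← add_mul, hab, one_mul]
  linarith

lemma Dp_zero {K : Set (E d)} {τ : ℝ} (h0 : 0 < τ) (p : E d) : (0 : E d) ∈ Dp K τ p := by
  intro x _
  simpa using h0.le

lemma smul_mem' {K : Set (E d)} (hK : SB K) {x : E d} (hx : x ∈ K) {c : ℝ} (h0 : 0 ≤ c) (h1 : c ≤ 1) :
    c • x ∈ K := hK.star x hx c h0 h1

lemma mix {K : Set (E d)} (hK : SB K) {x p : E d} (hx : x ∈ K) (hp : p ∈ K) {τ : ℝ} (h0 : 0 ≤ τ)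
    (h1 : τ ≤ 1) : τ • x + (1 - τ) • p ∈ K :=
  hK.conv hx hp h0 (by linarith) (by ring)

lemma Dp_sub_pol {K : Set (E d)} (hK : SB K) {τ : ℝ} (h0 : 0 < τ) (h1 : τ ≤ 1) {p : E d}
    (hp : p ∈ K) : Dp K τ p ⊆ pol K := by
  intro n hn x hx
  have h2 := hn _ (mix hK hx hp h0.le h1)
  rw [add_sub_cancel_right, inner_smul_left] at h2
  simp only [conj_trivial] at h2
  nlinarith

lemma Dp_compact {K : Set (E d)} (hK : SB K) {τ : ℝ} (h0 : 0 < τ) (h1 : τ ≤ 1) {p : E d}
    (hp : p ∈ K) : IsCompact (Dp K τ p) :=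
  (hK.pol.comp).of_isClosed_subset (Dp_closed K τ p) (Dp_sub_pol hK h0 h1 hp)

lemma Dp_int {K : Set (E d)} (hK : SB K) {τ : ℝ} (h0 : 0 < τ) (p : E d) :
    (interior (Dp K τ p)).Nonempty := by
  obtain ⟨R, hR, h⟩ := hK.exists_bound
  set S : ℝ := R + ‖(1 - τ) • p‖ with hS
  have hS0 : 0 < S := by positivity
  refine ⟨0, mem_interior_iff_mem_nhds.2 (Filter.mem_of_superset (Metric.closedBall_mem_nhds 0
    (show 0 < τ / S by positivity)) fun y hy x hx => ?_)⟩
  rw [mem_closedBall_zero_iff] at hy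
  calc ⟪x - (1 - τ) • p, y⟫ ≤ ‖x - (1 - τ) • p‖ * ‖y‖ := real_inner_le_norm _ y
    _ ≤ S * (τ / S) := by
        refine mul_le_mul ((norm_sub_le _ _).trans ?_) hy (norm_nonneg _) hS0.le
        rw [hS]
        linarith [h x hx]
    _ = τ := by field_simp

lemma As_SB {K : Set (E d)} (hK : SB K) {τ : ℝ} (h0 : 0 < τ) (h1 : τ ≤ 1) {p : E d} (hp : p ∈ K) :
    SB (As K ((1 - τ) • p)) where
  comp := by
    have hc : IsClosed (As K ((1 - τ) • p)) := by
      refine IsClosed.inter (hK.comp.isClosed.preimage (by fun_prop))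
        (hK.comp.isClosed.preimage (by fun_prop))
    obtain ⟨R, hR, h⟩ := hK.exists_bound
    refine Metric.isCompact_of_isClosed_isBounded hc
      ((Metric.isBounded_closedBall (x := (0 : E d)) (r := R + ‖(1 - τ) • p‖)).subset fun y hy => ?_)
    rw [mem_closedBall_zero_iff]
    have h2 := h _ hy.1
    calc ‖y‖ = ‖((1 - τ) • p + y) - (1 - τ) • p‖ := by congr 1; abel
      _ ≤ _ := (norm_sub_le _ _).trans (by linarith)
  conv := by
    intro x hx y hy a b ha hb hab
    constructor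
    · have := hK.conv hx.1 hy.1 ha hb hab
      convert this using 1
      rw [smul_add, smul_add]
      have : (1 - τ) • p = a • (1 - τ) • p + b • (1 - τ) • p := by
        rw [← add_smul, hab, one_smul]
      nth_rewrite 1 [this]
      abel
    · have := hK.conv hx.2 hy.2 ha hb hab
      convert this using 1
      rw [smul_sub, smul_sub]
      have : (1 - τ) • p = a • (1 - τ) • p + b • (1 - τ) • p := by
        rw [← add_smul, hab, one_smul]
      nth_rewrite 1 [this]
      abel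
  symm := by
    intro x hx
    refine ⟨?_, ?_⟩
    · have := hx.2
      rwa [sub_eq_add_neg] at this
    · rw [sub_neg_eq_add]
      exact hx.1
  int := by
    have h2 : τ • K ⊆ As K ((1 - τ) • p) := by
      rintro _ ⟨x, hx, rfl⟩
      refine ⟨?_, ?_⟩
      · have := mix hK hx hp h0.le h1
        rwa [add_comm] at this
      · have := mix hK (hK.symm x hx) hp h0.le h1
        rw [smul_neg, add_comm] at this
        rwa [sub_eq_add_neg]
    have h3 : (interior (τ • K)).Nonempty := (hK.smul h0).int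
    exact h3.mono (interior_mono h2)

lemma As_vol {K : Set (E d)} (hK : SB K) (z : E d) :
    volume (As K z) = volume (ov K ((2 : ℝ) • z)) := by
  have h1 : As K z = (fun y => z + y) ⁻¹' (ov K ((2 : ℝ) • z)) := by
    ext y
    have e : z + y - (2 : ℝ) • z = -(z - y) := by
      rw [two_smul]; abel
    constructor
    · rintro ⟨h1, h2⟩
      refine ⟨h1, ?_⟩
      rw [e]
      exact hK.symm _ h2
    · rintro ⟨h1, h2⟩
      refine ⟨h1, ?_⟩
      rw [e] at h2
      have := hK.symm _ h2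
      rwa [neg_neg] at this
  rw [h1]
  exact (measurePreserving_add_left volume z).measure_preimage
    (ov_compact hK.comp _).measurableSet.nullMeasurableSet

/-- one direction of the bipolar theorem for `K - z` -/
lemma bip {K : Set (E d)} (hK : SB K) {τ : ℝ} (h0 : 0 < τ) (h1 : τ ≤ 1) {p : E d} (hp : p ∈ K)
    {u : ℝ} (hu : 0 < u) {w : E d} (hw : ∀ m ∈ Dp K τ p, ⟪w, m⟫ ≤ u) :
    (1 - τ) • p + (τ / u) • w ∈ K := by
  by_contra hcon
  obtain ⟨g, s, hg1, hg2⟩ := geometric_hahn_banach_closed_point hK.conv hK.comp.isClosed hcon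
  set m := (InnerProductSpace.toDual ℝ (E d)).symm g with hm
  have hgm : ∀ z, g z = ⟪m, z⟫ := by
    intro z
    rw [hm, InnerProductSpace.toDual_symm_apply]
  have hz : (1 - τ) • p ∈ K := smul_mem' hK hp (by linarith) (by linarith)
  set r : ℝ := s - ⟪m, (1 - τ) • p⟫ with hr
  have hr0 : 0 < r := by
    have := hg1 _ hz
    rw [hgm] at this
    linarith
  have hD : (τ / r) • m ∈ Dp K τ p := by
    intro x hx
    have h2 := hg1 x hx
    rw [hgm] at h2
    rw [inner_smul_right, inner_sub_left, real_inner_comm, real_inner_comm m]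
    have h3 : ⟪m, x⟫ - ⟪m, (1 - τ) • p⟫ ≤ r := by rw [hr]; linarith
    calc τ / r * (⟪m, x⟫ - ⟪m, (1 - τ) • p⟫) ≤ τ / r * r := by gcongr
      _ = τ := by field_simp
  have h4 := hw _ hD
  rw [inner_smul_right] at h4
  have h5 : s < ⟪m, (1 - τ) • p + (τ / u) • w⟫ := by rw [← hgm]; exact hg2
  rw [inner_add_right, inner_smul_right (x := m) (y := w), real_inner_comm w m] at h5
  have h6 : r < τ / u * ⟪w, m⟫ := by
    rw [hr]
    linarith
  have h7 : τ * ⟪w, m⟫ ≤ u * r := by
    have : τ / r * ⟪w, m⟫ * r ≤ u * r := by gcongr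
    calc τ * ⟪w, m⟫ = τ / r * ⟪w, m⟫ * r := by field_simp
      _ ≤ _ := this
  have h8 : r * u < τ * ⟪w, m⟫ := by
    have : r * u < τ / u * ⟪w, m⟫ * u := by gcongr
    calc r * u < τ / u * ⟪w, m⟫ * u := this
      _ = _ := by field_simp
  linarith

lemma csub {A B : Set (E d)} (hA : IsCompact A) (hB : IsCompact B) : IsCompact (A - B) := by
  have h : A - B = (fun z : E d × E d => z.1 - z.2) '' (A ×ˢ B) := by
    ext x
    constructor
    · rintro ⟨a, ha, b, hb, rfl⟩
      exact ⟨(a, b), ⟨ha, hb⟩, rfl⟩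
    · rintro ⟨⟨a, b⟩, ⟨ha, hb⟩, rfl⟩
      exact ⟨a, ha, b, hb, rfl⟩
  rw [h]
  exact (hA.prod hB).image (by fun_prop)

lemma pol_sub_diff {K : Set (E d)} (hK : SB K) {τ : ℝ} (h0 : 0 < τ) (h1 : τ ≤ 1) {p : E d}
    (hp : p ∈ K) : τ • pol (As K ((1 - τ) • p)) ⊆ Dp K τ p - Dp K τ p := by
  rintro _ ⟨n, hn, rfl⟩
  show τ • n ∈ _
  by_contra hcon
  have hDc := Dp_compact hK h0 h1 hp
  obtain ⟨f, u, hf1, hf2⟩ := geometric_hahn_banach_closed_point
    ((Dp_convex K τ p).sub (Dp_convex K τ p)) (csub hDc hDc).isClosed hcon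
  set x := (InnerProductSpace.toDual ℝ (E d)).symm f with hx
  have hfx : ∀ z, f z = ⟪x, z⟫ := by
    intro z
    rw [hx, InnerProductSpace.toDual_symm_apply]
  have hD0 : (0 : E d) ∈ Dp K τ p := Dp_zero h0 p
  have hu : 0 < u := by
    have := hf1 0 ⟨0, hD0, 0, hD0, by simp⟩
    simpa using this
  have ha : ∀ m ∈ Dp K τ p, ⟪x, m⟫ ≤ u := by
    intro m hm
    have := hf1 (m - 0) (Set.sub_mem_sub hm hD0)
    rw [hfx, sub_zero] at this
    exact this.le
  have hb : ∀ m ∈ Dp K τ p, ⟪-x, m⟫ ≤ u := by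
    intro m hm
    have := hf1 (0 - m) (Set.sub_mem_sub hD0 hm)
    rw [hfx, zero_sub, inner_neg_right] at this
    rw [inner_neg_left]
    exact this.le
  have h2 := bip hK h0 h1 hp hu ha
  have h3 := bip hK h0 h1 hp hu hb
  have h4 : (τ / u) • x ∈ As K ((1 - τ) • p) := by
    refine ⟨h2, ?_⟩
    rwa [smul_neg, ← sub_eq_add_neg] at h3
  have h5 := hn _ h4
  rw [inner_smul_left] at h5
  simp only [conj_trivial] at h5
  have h6 : u < τ * ⟪x, n⟫ := by
    have := hf2
    rwa [hfx, inner_smul_right] at this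
  have h7 : τ / u * ⟪x, n⟫ * u ≤ 1 * u := by gcongr
  have h8 : τ / u * ⟪x, n⟫ * u = τ * ⟪x, n⟫ := by field_simp
  linarith

/-- a weak form of the inequality of Rogers and Shephard -/
lemma diff_vol {D : Set (E d)} (hc : IsCompact D) (hconv : Convex ℝ D) (h0 : volume D ≠ 0) :
    volume (D - D) ≤ ENNReal.ofReal (4 ^ d) * volume D := by
  have hfin : volume D ≠ ∞ := hc.measure_ne_top
  have h := conv1 hc.measurableSet hc.measurableSet
  have hms : MeasurableSet ((1 / 2 : ℝ) • (D - D)) := ((csub hc hc).smul _).measurableSet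
  have h2 : ENNReal.ofReal ((1 / 2) ^ d) * volume D * volume ((1 / 2 : ℝ) • (D - D))
      ≤ volume D * volume D := by
    rw [← h]
    calc ENNReal.ofReal ((1 / 2) ^ d) * volume D * volume ((1 / 2 : ℝ) • (D - D))
        = ∫⁻ x in (1 / 2 : ℝ) • (D - D), ENNReal.ofReal ((1 / 2) ^ d) * volume D := by
          rw [setLIntegral_const]
      _ ≤ ∫⁻ x in (1 / 2 : ℝ) • (D - D), volume {y | y ∈ D ∧ y - x ∈ D} := by
          refine setLIntegral_mono' hms ?_
          rintro _ ⟨_, ⟨a, ha, b, hb, rfl⟩, rfl⟩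
          have h3 : (fun y => (1 / 2 : ℝ) • a + y) '' ((1 / 2 : ℝ) • D)
              ⊆ {y | y ∈ D ∧ y - (1 / 2 : ℝ) • (a - b) ∈ D} := by
            rintro _ ⟨_, ⟨l, hl, rfl⟩, rfl⟩
            refine ⟨hconv ha hl (by norm_num) (by norm_num) (by norm_num), ?_⟩
            have e : (1 / 2 : ℝ) • a + (1 / 2 : ℝ) • l - (1 / 2 : ℝ) • (a - b)
                = (1 / 2 : ℝ) • b + (1 / 2 : ℝ) • l := by
              rw [smul_sub]; abel
            show (1 / 2 : ℝ) • a + (1 / 2 : ℝ) • l - (1 / 2 : ℝ) • (a - b) ∈ D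
            rw [e]
            exact hconv hb hl (by norm_num) (by norm_num) (by norm_num)
          refine le_trans ?_ (measure_mono h3)
          rw [Set.image_add_left, measure_preimage_add, vol_smul _ (by norm_num)]
      _ ≤ _ := setLIntegral_le_lintegral _ _
  have h3 : ENNReal.ofReal ((1 / 2) ^ d) * (ENNReal.ofReal ((1 / 2) ^ d) * volume (D - D))
      ≤ volume D := by
    rw [vol_smul _ (by norm_num)] at h2
    have h4 : volume D * (ENNReal.ofReal ((1 / 2) ^ d) *
        (ENNReal.ofReal ((1 / 2) ^ d) * volume (D - D))) ≤ volume D * volume D := by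
      calc _ = ENNReal.ofReal ((1 / 2) ^ d) * volume D *
            (ENNReal.ofReal ((1 / 2) ^ d) * volume (D - D)) := by ring
        _ ≤ _ := h2
    exact (ENNReal.mul_le_mul_iff_right h0 hfin).1 h4
  calc volume (D - D) = ENNReal.ofReal (4 ^ d) *
        (ENNReal.ofReal ((1 / 2) ^ d) * (ENNReal.ofReal ((1 / 2) ^ d) * volume (D - D))) := by
        rw [← mul_assoc, ← mul_assoc, ← ENNReal.ofReal_mul (by positivity),
          ← ENNReal.ofReal_mul (by positivity), ← mul_pow, ← mul_pow]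
        norm_num
    _ ≤ _ := by gcongr

end Pool.Agent.W677.Lin
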