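import Pool.Agent.W677.Lin3

/-!
# The set of normals near an extreme point is large, and the double counting
-/

set_option autoImplicit false

open MeasureTheory Set
open scoped ENNReal Pointwise RealInnerProductSpace

namespace Pool.Agent.W677.Lin

open Pool.Agent.H845R2 (SB pol MV)

variable {d : ℕ}

/-- Bourgain-Milman in real form -/
lemma bm_real {K : Set (E d)} (hK : SB K) :
    Real.pi ^ d ≤ 4 ^ d * (d.factorial : ℝ) * ((volume K).toReal * (volume (pol K)).toReal) := by
  have h := hK.bourgain_milman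
  rw [finrank_euclideanSpace, Fintype.card_fin] at h
  have h1 : MV K ≠ ∞ := ENNReal.mul_ne_top (SB.vol_fin hK) (SB.vol_fin hK.pol)
  have h2 := ENNReal.toReal_mono (ENNReal.mul_ne_top (ENNReal.mul_ne_top (by simp) (by simp)) h1) h
  rw [ENNReal.toReal_ofReal (by positivity), ENNReal.toReal_mul, ENNReal.toReal_mul] at h2
  simp only [ENNReal.toReal_pow, ENNReal.toReal_ofNat, ENNReal.toReal_natCast] at h2
  rw [MV, ENNReal.toReal_mul] at h2
  exact h2

lemma fact_le (d : ℕ) : (d.factorial : ℝ) ≤ (d : ℝ) ^ d := by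
  exact_mod_cast Nat.factorial_le_pow d

/-- the set of normals near an extreme point is large -/
theorem Dp_vol {K : Set (E d)} (hd : 0 < d) (hK : SB K) {τ : ℝ} (h0 : 0 < τ) (h1 : τ ≤ 1)
    {p : E d} (hp : p ∈ K)
    (hov : volume (ov K ((2 * (1 - τ)) • p)) ≤ ENNReal.ofReal ((2 * τ) ^ d) * volume K) :
    (volume (pol K)).toReal ≤ (64 * Real.exp 1) ^ d * (volume (Dp K τ p)).toReal := by
  have hA := As_SB hK h0 h1 hp
  set z : E d := (1 - τ) • p with hz
  set k := (volume K).toReal
  set k' := (volume (pol K)).toReal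
  set D := (volume (Dp K τ p)).toReal
  set A := (volume (As K z)).toReal
  set A' := (volume (pol (As K z))).toReal
  have hDc := Dp_compact hK h0 h1 hp
  have b1 : Real.pi ^ d ≤ 4 ^ d * (d.factorial : ℝ) * (A * A') := bm_real hA
  have b2 : A ≤ (2 * τ) ^ d * k := by
    have h2 : volume (As K z) ≤ ENNReal.ofReal ((2 * τ) ^ d) * volume K := by
      rw [As_vol hK, hz, smul_smul]
      exact hov
    have h3 := ENNReal.toReal_mono (ENNReal.mul_ne_top (by simp) (SB.vol_fin hK)) h2
    rwa [ENNReal.toReal_mul, ENNReal.toReal_ofReal (by positivity)] at h3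
  have b3 : τ ^ d * A' ≤ 4 ^ d * D := by
    have h2 : volume (τ • pol (As K z)) ≤ ENNReal.ofReal (4 ^ d) * volume (Dp K τ p) :=
      (measure_mono (pol_sub_diff hK h0 h1 hp)).trans (diff_vol hDc (Dp_convex K τ p)
        (Measure.measure_pos_of_nonempty_interior _ (Dp_int hK h0 p)).ne')
    rw [vol_smul _ h0.le] at h2
    have h3 := ENNReal.toReal_mono (ENNReal.mul_ne_top (by simp) hDc.measure_ne_top) h2
    rwa [ENNReal.toReal_mul, ENNReal.toReal_mul, ENNReal.toReal_ofReal (by positivity),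
      ENNReal.toReal_ofReal (by positivity)] at h3
  have b4 : k * k' ≤ (2 * Real.pi * Real.exp 1 / d) ^ d := Pool.Agent.H845R2.santalo_bound hd hK
  have hk : 0 ≤ k := ENNReal.toReal_nonneg
  have hk' : 0 ≤ k' := ENNReal.toReal_nonneg
  have hD : 0 ≤ D := ENNReal.toReal_nonneg
  have hA0 : 0 ≤ A := ENNReal.toReal_nonneg
  have hA' : 0 ≤ A' := ENNReal.toReal_nonneg
  have hdR : (0 : ℝ) < d := by exact_mod_cast hd
  have c1 : (Real.pi * τ) ^ d * k' ≤ (Real.pi * τ) ^ d * ((64 * Real.exp 1) ^ d * D) := by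
    calc (Real.pi * τ) ^ d * k' = Real.pi ^ d * (τ ^ d * k') := by rw [mul_pow]; ring
      _ ≤ (4 ^ d * (d.factorial : ℝ) * (A * A')) * (τ ^ d * k') := by gcongr
      _ = (4 ^ d * (d.factorial : ℝ)) * A * (τ ^ d * A') * k' := by ring
      _ ≤ (4 ^ d * (d.factorial : ℝ)) * ((2 * τ) ^ d * k) * (4 ^ d * D) * k' := by gcongr
      _ = (4 ^ d * 2 ^ d * 4 ^ d * τ ^ d) * (d.factorial : ℝ) * D * (k * k') := by
          rw [mul_pow 2 τ]; ring
      _ ≤ (4 ^ d * 2 ^ d * 4 ^ d * τ ^ d) * (d : ℝ) ^ d * D *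
            (2 * Real.pi * Real.exp 1 / d) ^ d := by
          gcongr
          exact fact_le d
      _ = (Real.pi * τ) ^ d * ((64 * Real.exp 1) ^ d * D) := by
          have e : (d : ℝ) ^ d * (2 * Real.pi * Real.exp 1 / d) ^ d
              = (2 * Real.pi * Real.exp 1) ^ d := by
            rw [← mul_pow]; congr 1; field_simp
          calc _ = (4 ^ d * 2 ^ d * 4 ^ d * τ ^ d) * D *
                ((d : ℝ) ^ d * (2 * Real.pi * Real.exp 1 / d) ^ d) := by ring
            _ = _ := by
              rw [e]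
              rw [← mul_pow, ← mul_pow, ← mul_pow]
              have e2 : (4 * 2 * 4 * τ) ^ d * D * (2 * Real.pi * Real.exp 1) ^ d
                = ((4 * 2 * 4 * τ) ^ d * (2 * Real.pi * Real.exp 1) ^ d) * D := by ring
              have e3 : (Real.pi * τ) ^ d * ((64 * Real.exp 1) ^ d * D)
                = ((Real.pi * τ) ^ d * (64 * Real.exp 1) ^ d) * D := by ring
              rw [e2, e3, ← mul_pow, ← mul_pow]
              congr 2
              ring
  exact le_of_mul_le_mul_left c1 (by positivity)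

end Pool.Agent.W677.Lin
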