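import Pool.Agent.W677.Lin4

/-!
# Double counting of the points and their normals
-/

set_option autoImplicit false

open MeasureTheory Set
open scoped ENNReal Pointwise RealInnerProductSpace

namespace Pool.Agent.W677.Lin

open Pool.Agent.H845R2 (SB pol MV)

variable {d : ℕ}

lemma swapF {R : Set (E d × E d)} (hR : MeasurableSet R) {M A : Set (E d)} {g : E d → ℝ≥0∞} (hg : Measurable g) :
    ∫⁻ q in M, ∫⁻ n in A ∩ {n | (q, n) ∈ R}, g n =
      ∫⁻ n in A, g n * volume {q | q ∈ M ∧ (q, n) ∈ R} := by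
  have e1 : ∀ q : E d, ∫⁻ n in A ∩ {n | (q, n) ∈ R}, g n =
      ∫⁻ n in A, R.indicator (fun _ => (1 : ℝ≥0∞)) (q, n) * g n := by
    intro q
    have hms : MeasurableSet {n : E d | (q, n) ∈ R} := (measurable_const.prodMk measurable_id) hR
    have : (fun n => R.indicator (fun _ => (1 : ℝ≥0∞)) (q, n) * g n)
        = {n : E d | (q, n) ∈ R}.indicator g := by
      ext n
      by_cases h : (q, n) ∈ R
      · simp [indicator, h]
      · simp [indicator, h]
    rw [this, lintegral_indicator hms, Measure.restrict_restrict hms, inter_comm]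
  simp_rw [e1]
  rw [lintegral_lintegral_swap]
  · refine lintegral_congr fun n => ?_
    have hms : MeasurableSet {q : E d | (q, n) ∈ R} := (measurable_id.prodMk measurable_const) hR
    have hm : Measurable fun q => R.indicator (fun _ => (1 : ℝ≥0∞)) (q, n) :=
      (measurable_const.indicator hR).comp (measurable_id.prodMk measurable_const)
    rw [lintegral_mul_const _ hm, mul_comm]
    congr 1
    have : (fun q => R.indicator (fun _ => (1 : ℝ≥0∞)) (q, n))
        = {q : E d | (q, n) ∈ R}.indicator (fun _ => 1) := by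
      ext n
      simp [indicator]
    rw [this, lintegral_indicator hms, lintegral_one, Measure.restrict_apply_univ,
      Measure.restrict_apply hms]
    congr 1
    ext q
    simp [and_comm]
  · exact ((measurable_const.indicator hR).mul (hg.comp measurable_snd)).aemeasurable

lemma R_closed (K : Set (E d)) (τ : ℝ) : IsClosed {z : E d × E d | z.2 ∈ Dp K τ z.1} := by
  have : {z : E d × E d | z.2 ∈ Dp K τ z.1} = ⋂ x ∈ K, {z | ⟪x - (1 - τ) • z.1, z.2⟫ ≤ τ} := by
    ext y; simp [Dp]
  rw [this]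
  exact isClosed_biInter fun x _ => isClosed_le (by fun_prop) continuous_const

/-- the overlap of a set with its reflections -/
noncomputable def Sf (D : Set (E d)) (n : E d) : ℝ≥0∞ :=
  volume {y | y ∈ D ∧ (2 : ℝ) • n - y ∈ D}

lemma Sf_meas {D : Set (E d)} (hD : MeasurableSet D) : Measurable (Sf D) := by
  have hR : MeasurableSet {z : E d × E d | z.2 ∈ D ∧ (2 : ℝ) • z.1 - z.2 ∈ D} :=
    (measurable_snd hD).inter (((measurable_fst.const_smul (2 : ℝ)).sub measurable_snd) hD)
  exact measurable_measure_prodMk_left hR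

lemma F_meas {R : Set (E d × E d)} (hR : MeasurableSet R) {M : Set (E d)} (hM : MeasurableSet M) :
    Measurable fun n => volume {q | q ∈ M ∧ (q, n) ∈ R} := by
  have hR' : MeasurableSet {z : E d × E d | z.1 ∈ M ∧ z ∈ R} := (measurable_fst hM).inter hR
  exact measurable_measure_prodMk_right hR'

/-- convexity: the reflected overlap integrates to a lot on a convex subset -/
lemma Sf_lower {D L : Set (E d)} (hLD : L ⊆ D) (hL : MeasurableSet L) (hconv : Convex ℝ L) :
    ENNReal.ofReal ((1 / 2) ^ d) * volume L ^ 2 ≤ ∫⁻ n in L, Sf D n := by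
  rw [← conv2 hL]
  have h1 : ∀ n, volume {y | y ∈ L ∧ (2 : ℝ) • n - y ∈ L} ≤ L.indicator (Sf D) n := by
    intro n
    by_cases hn : n ∈ L
    · rw [indicator_of_mem hn]
      exact measure_mono fun y hy => ⟨hLD hy.1, hLD hy.2⟩
    · have : {y | y ∈ L ∧ (2 : ℝ) • n - y ∈ L} = ∅ := by
        ext y
        simp only [mem_ofPred_eq, mem_empty_iff_false, iff_false, not_and]
        intro h1 h2
        apply hn
        have := hconv h1 h2 (show (0 : ℝ) ≤ 1 / 2 by norm_num) (show (0 : ℝ) ≤ 1 / 2 by norm_num)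
          (by norm_num)
        have e : (1 / 2 : ℝ) • y + (1 / 2 : ℝ) • ((2 : ℝ) • n - y) = n := by
          rw [smul_sub, smul_smul]
          norm_num
        rwa [e] at this
      rw [this, measure_empty]
      exact zero_le
  calc _ ≤ ∫⁻ n, L.indicator (Sf D) n := lintegral_mono h1
    _ = _ := lintegral_indicator hL _

lemma D_low {K : Set (E d)} (hK : SB K) {τ : ℝ} (h0 : 0 < τ) (h1 : τ ≤ 1) {p q : E d} (hp : p ∈ K)
    (hq : q ∈ K) {m : E d} (hm : m ∈ Dp K τ p) : -(2 * τ) ≤ ⟪m, p - q⟫ := by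
  have h2 := hm q hq
  have h3 := Dp_sub_pol hK h0 h1 hp hm (-p) (hK.symm p hp)
  rw [inner_neg_left] at h3
  rw [inner_sub_left, inner_smul_left] at h2
  simp only [conj_trivial] at h2
  rw [inner_sub_right, real_inner_comm, real_inner_comm q m]
  have h4 : τ * (-1) ≤ τ * ⟪p, m⟫ := by
    apply mul_le_mul_of_nonneg_left _ h0.le
    linarith
  nlinarith

/-- the upper bound for the fibres -/
lemma fibre {K : Set (E d)} (hd : 0 < d) (hK : SB K) {τ : ℝ} (h0 : 0 < τ) (h1 : τ ≤ 1)
    {M : Set (E d)} (hMK : M ⊆ K) {p : E d} (hp : p ∈ K) (n : E d) :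
    Sf (Dp K τ p) n * volume {q | q ∈ M ∧ n ∈ Dp K τ q} ≤
      ENNReal.ofReal ((4 * τ) ^ d * (2 * Real.pi * Real.exp 1 / d) ^ d) := by
  set D := Dp K τ p with hD
  have hDc : IsCompact D := Dp_compact hK h0 h1 hp
  let B : Set (E d) := {m | n + m ∈ D ∧ n - m ∈ D}
  have hBvol : Sf D n = volume B := by
    have h2 : B = (fun y => n + y) ⁻¹' {y | y ∈ D ∧ (2 : ℝ) • n - y ∈ D} := by
      ext y
      have e : (2 : ℝ) • n - (n + y) = n - y := by rw [two_smul]; abel
      show (n + y ∈ D ∧ n - y ∈ D) ↔ (n + y ∈ D ∧ (2 : ℝ) • n - (n + y) ∈ D)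
      rw [e]
    rw [h2, measure_preimage_add]
    rfl
  have hBclosed : IsClosed B :=
    IsClosed.inter (hDc.isClosed.preimage (by fun_prop)) (hDc.isClosed.preimage (by fun_prop))
  have hBcomp : IsCompact B := by
    have h2 : B ⊆ (fun y => y - n) '' D := by
      intro y hy
      exact ⟨n + y, hy.1, by simp⟩
    exact (hDc.image (by fun_prop)).of_isClosed_subset hBclosed h2
  have hBconv : Convex ℝ B := by
    intro x hx y hy a b ha hb hab
    have en : n = a • n + b • n := by rw [← add_smul, hab, one_smul]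
    constructor
    · have := Dp_convex K τ p hx.1 hy.1 ha hb hab
      rw [smul_add, smul_add] at this
      show n + (a • x + b • y) ∈ D
      nth_rewrite 1 [en]
      convert this using 1
      abel
    · have := Dp_convex K τ p hx.2 hy.2 ha hb hab
      rw [smul_sub, smul_sub] at this
      show n - (a • x + b • y) ∈ D
      nth_rewrite 1 [en]
      convert this using 1
      abel
  have hBsymm : ∀ x ∈ B, -x ∈ B := by
    intro x hx
    exact ⟨by rw [← sub_eq_add_neg]; exact hx.2, by rw [sub_neg_eq_add]; exact hx.1⟩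
  rw [hBvol]
  by_cases hB0 : volume B = 0
  · rw [hB0, zero_mul]
    exact zero_le
  have hBint : (interior B).Nonempty := by
    by_contra hcon
    rw [not_nonempty_iff_eq_empty] at hcon
    apply hB0
    have h2 := hBconv.addHaar_frontier (volume : Measure (E d))
    rw [hBclosed.frontier_eq, hcon, sdiff_empty] at h2
    exact h2
  have hB : SB B := ⟨hBcomp, hBconv, hBsymm, hBint⟩
  have hsub : {q | q ∈ M ∧ n ∈ Dp K τ q} ⊆ (fun x => p - x) ⁻¹' ((4 * τ) • pol B) := by
    rintro q ⟨hqM, hnq⟩
    have hq := hMK hqM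
    show p - q ∈ (4 * τ) • pol B
    rw [Set.mem_smul_set_iff_inv_smul_mem₀ (by positivity)]
    intro m hm
    rw [inner_smul_right]
    have h2 : -(2 * τ) ≤ ⟪n - m, p - q⟫ := D_low hK h0 h1 hp hq hm.2
    have h3 : -(2 * τ) ≤ ⟪n, q - p⟫ := D_low hK h0 h1 hq hp hnq
    rw [inner_sub_left] at h2
    have h4 : ⟪n, q - p⟫ = -⟪n, p - q⟫ := by rw [← inner_neg_right, neg_sub]
    rw [inv_mul_le_iff₀ (by positivity)]
    linarith
  have hvol : volume {q | q ∈ M ∧ n ∈ Dp K τ q} ≤ ENNReal.ofReal ((4 * τ) ^ d) * volume (pol B) := by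
    refine (measure_mono hsub).trans ?_
    rw [(Measure.measurePreserving_sub_left volume p).measure_preimage
      (hB.pol.comp.smul _).measurableSet.nullMeasurableSet, vol_smul _ (by positivity)]
  have hs : volume B * volume (pol B) ≤ ENNReal.ofReal ((2 * Real.pi * Real.exp 1 / d) ^ d) := by
    have h2 := Pool.Agent.H845R2.santalo_bound hd hB
    rw [← ENNReal.toReal_mul] at h2
    exact ENNReal.le_ofReal_iff_toReal_le (ENNReal.mul_ne_top (SB.vol_fin hB) (SB.vol_fin hB.pol))
      (by positivity) |>.2 h2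
  calc volume B * volume {q | q ∈ M ∧ n ∈ Dp K τ q}
      ≤ volume B * (ENNReal.ofReal ((4 * τ) ^ d) * volume (pol B)) := by gcongr
    _ = ENNReal.ofReal ((4 * τ) ^ d) * (volume B * volume (pol B)) := by ring
    _ ≤ ENNReal.ofReal ((4 * τ) ^ d) * ENNReal.ofReal ((2 * Real.pi * Real.exp 1 / d) ^ d) := by
        gcongr
    _ = _ := by rw [← ENNReal.ofReal_mul (by positivity)]

end Pool.Agent.W677.Lin
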