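import Pool.Agent.W677.Lin5

/-!
# The set of points with a small overlap has small volume
-/

set_option autoImplicit false

open MeasureTheory Set
open scoped ENNReal Pointwise RealInnerProductSpace

namespace Pool.Agent.W677.Lin

open Pool.Agent.H845R2 (SB pol MV)

variable {d : ℕ}

/-- double counting -/
theorem count {K : Set (E d)} (hd : 0 < d) (hK : SB K) {τ : ℝ} (h0 : 0 < τ) (h1 : τ ≤ 1)
    {M : Set (E d)} (hMK : M ⊆ K) (hM : MeasurableSet M) {κ : ℝ≥0∞} (hκ : κ ≠ ∞)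
    (hD : ∀ q ∈ M, κ * volume (pol K) ≤ volume (Dp K τ q)) :
    ENNReal.ofReal ((1 / 2) ^ d) * ((κ ^ 2 * volume (pol K)) ^ 2 * volume M) ≤
      ENNReal.ofReal ((4 * τ) ^ d * (2 * Real.pi * Real.exp 1 / d) ^ d) * volume (pol K) := by
  by_cases hM0 : volume M = 0
  · rw [hM0]
    simp
  set k' := volume (pol K) with hk'
  set m := volume M with hm
  have hk'f : k' ≠ ∞ := SB.vol_fin hK.pol
  have hmf : m ≠ ∞ := ne_top_of_le_ne_top (SB.vol_fin hK) (measure_mono hMK)
  have hR : MeasurableSet {z : E d × E d | z.2 ∈ Dp K τ z.1} := (R_closed K τ).measurableSet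
  have hP : MeasurableSet (pol K) := hK.pol.comp.measurableSet
  let F : E d → ℝ≥0∞ := fun n => volume {q | q ∈ M ∧ n ∈ Dp K τ q}
  have hF : Measurable F := F_meas hR hM
  have hFm : ∀ n, F n ≤ m := fun n => measure_mono fun q hq => hq.1
  have hsub : ∀ q ∈ M, pol K ∩ {n | n ∈ Dp K τ q} = Dp K τ q := by
    intro q hq
    exact inter_eq_right.2 (Dp_sub_pol hK h0 h1 (hMK hq))
  -- first moment
  have i1 : ∫⁻ q in M, ∫⁻ n in pol K ∩ {n | n ∈ Dp K τ q}, (1 : ℝ≥0∞) = ∫⁻ n in pol K, F n := by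
    have := swapF hR (M := M) (A := pol K) (g := fun _ => 1) measurable_const
    simp only [one_mul] at this
    exact this
  have i2 : κ * k' * m ≤ ∫⁻ n in pol K, F n := by
    rw [← i1]
    calc κ * k' * m = ∫⁻ q in M, κ * k' := by rw [setLIntegral_const]
      _ ≤ _ := by
        refine setLIntegral_mono' hM fun q hq => ?_
        rw [hsub q hq, setLIntegral_one]
        exact hD q hq
  have hFfin : ∀ A : Set (E d), volume A ≠ ∞ → ∫⁻ n in A, F n ≠ ∞ := by
    intro A hA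
    refine ne_top_of_le_ne_top (ENNReal.mul_ne_top hmf hA) ?_
    calc ∫⁻ n in A, F n ≤ ∫⁻ n in A, m := lintegral_mono hFm
      _ = m * volume A := setLIntegral_const _ _
  -- second moment
  have i3 : κ * m * ∫⁻ n in pol K, F n ≤ ∫⁻ n in pol K, F n ^ 2 := by
    refine lin_cs (κ * m) (ENNReal.mul_ne_top hκ hmf) (hFfin _ hk'f) ?_
    rw [Measure.restrict_apply_univ]
    calc κ * m * k' = κ * k' * m := by ring
      _ ≤ _ := i2
  have i4 : ∫⁻ q in M, ∫⁻ n in pol K ∩ {n | n ∈ Dp K τ q}, F n = ∫⁻ n in pol K, F n ^ 2 := by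
    have := swapF hR (M := M) (A := pol K) (g := F) hF
    rw [show (fun n => F n ^ 2) = fun n => F n * F n by ext n; rw [pow_two]]
    exact this
  let H : E d → ℝ≥0∞ := fun q => ∫⁻ n in Dp K τ q, F n
  have i5 : ∫⁻ q in M, H q = ∫⁻ n in pol K, F n ^ 2 := by
    rw [← i4]
    refine setLIntegral_congr_fun hM fun q hq => ?_
    show H q = _
    rw [hsub q hq]
  have i6 : κ ^ 2 * k' * m * m ≤ ∫⁻ q in M, H q := by
    rw [i5]
    calc κ ^ 2 * k' * m * m = κ * m * (κ * k' * m) := by ring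
      _ ≤ κ * m * ∫⁻ n in pol K, F n := by gcongr
      _ ≤ _ := i3
  obtain ⟨p, hpM, hp⟩ : ∃ p ∈ M, κ ^ 2 * k' * m ≤ H p := by
    have hHm : AEMeasurable H (volume.restrict M) := by
      have e : H = fun q => ∫⁻ n, {z : E d × E d | z.2 ∈ Dp K τ z.1}.indicator
          (fun _ => (1 : ℝ≥0∞)) (q, n) * F n := by
        ext q
        have hms : MeasurableSet (Dp K τ q) := (Dp_closed K τ q).measurableSet
        have : (fun n => {z : E d × E d | z.2 ∈ Dp K τ z.1}.indicator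
          (fun _ => (1 : ℝ≥0∞)) (q, n) * F n) = (Dp K τ q).indicator F := by
          ext n
          by_cases h : n ∈ Dp K τ q
          · simp [indicator, h]
          · simp [indicator, h]
        rw [this, lintegral_indicator hms]
      rw [e]
      exact (Measurable.lintegral_prod_right' (f := fun z : E d × E d =>
        {z : E d × E d | z.2 ∈ Dp K τ z.1}.indicator (fun _ => (1 : ℝ≥0∞)) z * F z.2)
        ((measurable_const.indicator hR).mul (hF.comp measurable_snd))).aemeasurable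
    have hfin : ∫⁻ q in M, H q ≠ ∞ := by
      rw [i5]
      refine ne_top_of_le_ne_top (ENNReal.mul_ne_top (ENNReal.pow_ne_top hmf (n := 2)) hk'f) ?_
      calc ∫⁻ n in pol K, F n ^ 2 ≤ ∫⁻ n in pol K, m ^ 2 :=
            lintegral_mono fun n => by gcongr; exact hFm n
        _ = m ^ 2 * k' := setLIntegral_const _ _
    obtain ⟨p, hpM, hp⟩ := exists_setLAverage_le hM0 hM.nullMeasurableSet hfin
    refine ⟨p, hpM, le_trans ?_ hp⟩
    rw [setLAverage_eq, ENNReal.le_div_iff_mul_le (Or.inl hM0) (Or.inl hmf)]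
    exact i6
  have hpK := hMK hpM
  set D := Dp K τ p with hDdef
  have hDc : IsCompact D := Dp_compact hK h0 h1 hpK
  -- the overlaps with the chosen point
  let G : E d → ℝ≥0∞ := fun q => volume (D ∩ {n | n ∈ Dp K τ q})
  have i7 : ∫⁻ q in M, G q = ∫⁻ n in D, F n := by
    have := swapF hR (M := M) (A := D) (g := fun _ => 1) measurable_const
    simp only [one_mul, setLIntegral_one] at this
    exact this
  have i8 : κ ^ 2 * k' * m ≤ ∫⁻ q in M, G q := by
    rw [i7]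
    exact hp
  have i9 : κ ^ 2 * k' * ∫⁻ q in M, G q ≤ ∫⁻ q in M, G q ^ 2 := by
    refine lin_cs _ (ENNReal.mul_ne_top (ENNReal.pow_ne_top hκ) hk'f) ?_ ?_
    · rw [i7]
      exact hFfin _ hDc.measure_ne_top
    · rw [Measure.restrict_apply_univ]
      exact i8
  have i10 : (κ ^ 2 * k') ^ 2 * m ≤ ∫⁻ q in M, G q ^ 2 := by
    calc (κ ^ 2 * k') ^ 2 * m = κ ^ 2 * k' * (κ ^ 2 * k' * m) := by ring
      _ ≤ κ ^ 2 * k' * ∫⁻ q in M, G q := by gcongr
      _ ≤ _ := i9
  have i11 : ENNReal.ofReal ((1 / 2) ^ d) * ∫⁻ q in M, G q ^ 2 ≤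
      ∫⁻ q in M, ∫⁻ n in D ∩ {n | n ∈ Dp K τ q}, Sf D n := by
    rw [← lintegral_const_mul' _ _ (by simp)]
    refine lintegral_mono fun q => ?_
    exact Sf_lower inter_subset_left (hDc.measurableSet.inter (Dp_closed K τ q).measurableSet)
      ((Dp_convex K τ p).inter (Dp_convex K τ q))
  have i12 : ∫⁻ q in M, ∫⁻ n in D ∩ {n | n ∈ Dp K τ q}, Sf D n = ∫⁻ n in D, Sf D n * F n :=
    swapF hR (M := M) (A := D) (g := Sf D) (Sf_meas hDc.measurableSet)
  have i13 : ∫⁻ n in D, Sf D n * F n ≤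
      ENNReal.ofReal ((4 * τ) ^ d * (2 * Real.pi * Real.exp 1 / d) ^ d) * volume D := by
    calc ∫⁻ n in D, Sf D n * F n ≤ ∫⁻ n in D,
          ENNReal.ofReal ((4 * τ) ^ d * (2 * Real.pi * Real.exp 1 / d) ^ d) :=
          lintegral_mono fun n => fibre hd hK h0 h1 hMK hpK n
      _ = _ := setLIntegral_const _ _
  calc _ ≤ ENNReal.ofReal ((1 / 2) ^ d) * ∫⁻ q in M, G q ^ 2 := by gcongr
    _ ≤ _ := i11
    _ = _ := i12
    _ ≤ _ := i13
    _ ≤ _ := by
      have := measure_mono (μ := (volume : Measure (E d))) (Dp_sub_pol hK h0 h1 hpK)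
      gcongr

/-- the constant -/
noncomputable def C0 : ℝ := (64 * Real.exp 1) ^ 5

lemma C0_pos : 0 < C0 := by unfold C0; positivity

/-- **Few points have a small overlap.** -/
theorem bad_vol {K : Set (E d)} (hd : 0 < d) (hK : SB K) {τ : ℝ} (h0 : 0 < τ) (h1 : τ < 1 / 2)
    {M : Set (E d)} (hMK : M ⊆ K) (hM : MeasurableSet M)
    (h : ∀ q ∈ M, volume (ov K q) ≤ ENNReal.ofReal (((1 + τ) / 2) ^ d) * volume K) :
    volume M ≤ ENNReal.ofReal ((C0 * τ) ^ d) * volume K := by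
  have hc : (0 : ℝ) < 64 * Real.exp 1 := by positivity
  set c : ℝ := ((64 * Real.exp 1) ^ d)⁻¹ with hcdef
  have hc0 : 0 < c := by positivity
  have hD : ∀ q ∈ M, ENNReal.ofReal c * volume (pol K) ≤ volume (Dp K τ q) := by
    intro q hq
    have hqK := hMK hq
    have h2 := Dp_vol hd hK h0 (by linarith) hqK (ov_far hd hK h0 h1 (h q hq))
    have hDf : volume (Dp K τ q) ≠ ∞ := (Dp_compact hK h0 (by linarith) hqK).measure_ne_top
    rw [← ENNReal.toReal_le_toReal (ENNReal.mul_ne_top (by simp) (SB.vol_fin hK.pol)) hDf,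
      ENNReal.toReal_mul, ENNReal.toReal_ofReal hc0.le, hcdef, inv_mul_le_iff₀ (by positivity)]
    exact h2
  have h3 := count hd hK h0 (by linarith) hMK hM (κ := ENNReal.ofReal c) (by simp) hD
  have hmf : volume M ≠ ∞ := ne_top_of_le_ne_top (SB.vol_fin hK) (measure_mono hMK)
  have hkf := SB.vol_fin hK
  have hkf' := SB.vol_fin hK.pol
  have h4 := ENNReal.toReal_mono (ENNReal.mul_ne_top (by simp) hkf') h3
  simp only [ENNReal.toReal_mul, ENNReal.toReal_pow] at h4
  rw [ENNReal.toReal_ofReal (by positivity), ENNReal.toReal_ofReal hc0.le,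
    ENNReal.toReal_ofReal (by positivity)] at h4
  rw [← ENNReal.toReal_le_toReal hmf (ENNReal.mul_ne_top (by simp) hkf), ENNReal.toReal_mul,
    ENNReal.toReal_ofReal (by have := C0_pos; positivity)]
  have b1 := bm_real hK
  set k := (volume K).toReal
  set k' := (volume (pol K)).toReal
  set m := (volume M).toReal
  have hk : 0 ≤ k := ENNReal.toReal_nonneg
  have hm : 0 ≤ m := ENNReal.toReal_nonneg
  have hk'0 : 0 < k' := ENNReal.toReal_pos (SB.vol_pos hK.pol) hkf'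
  have hdR : (0 : ℝ) < d := by exact_mod_cast hd
  -- divide by `k'`
  have h5 : (1 / 2 : ℝ) ^ d * (c ^ 4 * k' * m) ≤ (4 * τ) ^ d * (2 * Real.pi * Real.exp 1 / d) ^ d := by
    have h6 : ((1 / 2 : ℝ) ^ d * (c ^ 4 * k' * m)) * k' ≤
        ((4 * τ) ^ d * (2 * Real.pi * Real.exp 1 / d) ^ d) * k' := by
      calc _ = (1 / 2 : ℝ) ^ d * ((c ^ 2 * k') ^ 2 * m) := by ring
        _ ≤ _ := h4
    exact le_of_mul_le_mul_right h6 hk'0
  have h7 : Real.pi ^ d * ((1 / 2 : ℝ) ^ d * (c ^ 4 * m)) ≤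
      Real.pi ^ d * ((64 * Real.exp 1 / 2) ^ d * τ ^ d * k) := by
    calc Real.pi ^ d * ((1 / 2 : ℝ) ^ d * (c ^ 4 * m))
        ≤ (4 ^ d * (d.factorial : ℝ) * (k * k')) * ((1 / 2 : ℝ) ^ d * (c ^ 4 * m)) := by gcongr
      _ = 4 ^ d * (d.factorial : ℝ) * k * ((1 / 2 : ℝ) ^ d * (c ^ 4 * k' * m)) := by ring
      _ ≤ 4 ^ d * (d : ℝ) ^ d * k * ((4 * τ) ^ d * (2 * Real.pi * Real.exp 1 / d) ^ d) := by
          gcongr
          exact fact_le d
      _ = Real.pi ^ d * ((64 * Real.exp 1 / 2) ^ d * τ ^ d * k) := by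
          have e : (d : ℝ) ^ d * (2 * Real.pi * Real.exp 1 / d) ^ d
              = (2 * Real.pi * Real.exp 1) ^ d := by
            rw [← mul_pow]; congr 1; field_simp
          calc _ = (4 ^ d * (4 * τ) ^ d) * k *
                ((d : ℝ) ^ d * (2 * Real.pi * Real.exp 1 / d) ^ d) := by ring
            _ = _ := by
              rw [e]
              have e2 : 4 ^ d * (4 * τ) ^ d * k * (2 * Real.pi * Real.exp 1) ^ d
                = (4 ^ d * (4 * τ) ^ d * (2 * Real.pi * Real.exp 1) ^ d) * k := by ring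
              have e3 : Real.pi ^ d * ((64 * Real.exp 1 / 2) ^ d * τ ^ d * k)
                = (Real.pi ^ d * (64 * Real.exp 1 / 2) ^ d * τ ^ d) * k := by ring
              rw [e2, e3, ← mul_pow, ← mul_pow, ← mul_pow, ← mul_pow]
              congr 2
              ring
  have h8 := le_of_mul_le_mul_left h7 (by positivity)
  have h9 : m = (2 : ℝ) ^ d * ((64 * Real.exp 1) ^ d) ^ 4 * ((1 / 2 : ℝ) ^ d * (c ^ 4 * m)) := by
    have e1 : (2 : ℝ) ^ d * (1 / 2 : ℝ) ^ d = 1 := by rw [← mul_pow]; norm_num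
    have e2 : ((64 * Real.exp 1) ^ d) ^ 4 * c ^ 4 = 1 := by
      rw [← mul_pow, hcdef, mul_inv_cancel₀ (by positivity), one_pow]
    calc m = ((2 : ℝ) ^ d * (1 / 2 : ℝ) ^ d) * (((64 * Real.exp 1) ^ d) ^ 4 * c ^ 4) * m := by
          rw [e1, e2]; ring
      _ = _ := by ring
  rw [h9]
  calc (2 : ℝ) ^ d * ((64 * Real.exp 1) ^ d) ^ 4 * ((1 / 2 : ℝ) ^ d * (c ^ 4 * m))
      ≤ (2 : ℝ) ^ d * ((64 * Real.exp 1) ^ d) ^ 4 * ((64 * Real.exp 1 / 2) ^ d * τ ^ d * k) := by
        gcongr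
    _ = (C0 * τ) ^ d * k := by
        rw [C0, ← pow_mul, mul_comm d 4, pow_mul]
        have e3 : (2 : ℝ) ^ d * ((64 * Real.exp 1) ^ 4) ^ d * ((64 * Real.exp 1 / 2) ^ d * τ ^ d * k)
          = ((2 : ℝ) ^ d * ((64 * Real.exp 1) ^ 4) ^ d * (64 * Real.exp 1 / 2) ^ d * τ ^ d) * k := by
          ring
        rw [e3, ← mul_pow, ← mul_pow, ← mul_pow]
        congr 2
        ring

end Pool.Agent.W677.Lin
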