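import Pool.Agent.W677.Lin6

/-!
# Covering a symmetric convex body by `33 d 2 ^ d` translates of its interior
-/

set_option autoImplicit false

open MeasureTheory Set
open scoped ENNReal Pointwise RealInnerProductSpace

namespace Pool.Agent.W677.Lin

open Pool.Agent.H845R2 (SB pol MV)

variable {d : ℕ}

/-- the covering relation -/
def Rc (K : Set (E d)) (s : ℝ) : Set (E d × E d) := {z | z.2 - z.1 ∈ s • K}

lemma Rc_meas {K : Set (E d)} (hK : SB K) (s : ℝ) : MeasurableSet (Rc K s) := by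
  have h : IsClosed (s • K) := (hK.comp.smul s).isClosed
  exact (h.preimage (by fun_prop)).measurableSet

lemma ov_meas {K : Set (E d)} (hK : SB K) : Measurable fun p => volume (ov K p) := by
  have hm := hK.comp.measurableSet
  have hR : MeasurableSet {z : E d × E d | z.2 ∈ K ∧ z.2 - z.1 ∈ K} :=
    (measurable_snd hm).inter ((measurable_snd.sub measurable_fst) hm)
  exact measurable_measure_prodMk_left hR

/-- the least possible overlap -/
lemma ov_lower {K : Set (E d)} (hK : SB K) {p : E d} (hp : p ∈ K) :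
    ENNReal.ofReal ((1 / 2) ^ d) * volume K ≤ volume (ov K p) := by
  have h3 : (fun y => (1 / 2 : ℝ) • p + y) '' ((1 / 2 : ℝ) • K) ⊆ ov K p := by
    rintro _ ⟨_, ⟨l, hl, rfl⟩, rfl⟩
    refine ⟨hK.conv hp hl (by norm_num) (by norm_num) (by norm_num), ?_⟩
    have e : (1 / 2 : ℝ) • p + (1 / 2 : ℝ) • l - p = (1 / 2 : ℝ) • (-p) + (1 / 2 : ℝ) • l := by
      module
    show (1 / 2 : ℝ) • p + (1 / 2 : ℝ) • l - p ∈ K
    rw [e]
    exact hK.conv (hK.symm p hp) hl (by norm_num) (by norm_num) (by norm_num)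
  refine le_trans ?_ (measure_mono h3)
  rw [Set.image_add_left, measure_preimage_add, vol_smul _ (by norm_num)]

/-- the probability that a random translate does not cover a point -/
noncomputable def bf (K : Set (E d)) (s : ℝ) (p : E d) : ℝ≥0∞ :=
  volume {x | x ∈ K ∧ (x, p) ∉ Rc K s} / volume K

lemma bf_meas {K : Set (E d)} (hK : SB K) (s : ℝ) : Measurable (bf K s) := by
  have hR : MeasurableSet {z : E d × E d | z.1 ∈ K ∧ z ∉ Rc K s} :=
    (measurable_fst hK.comp.measurableSet).inter (Rc_meas hK s).compl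
  exact (measurable_measure_prodMk_right hR).div_const _

lemma bern (hd : 0 < d) : (24 / 25 : ℝ) ≤ (1 - 1 / (25 * d)) ^ d := by
  have hdR : (1 : ℝ) ≤ d := by exact_mod_cast hd
  have h := one_add_mul_le_pow (a := -(1 / (25 * (d : ℝ)))) (by
    have : 1 / (25 * (d : ℝ)) ≤ 1 := by
      rw [div_le_one (by positivity)]; linarith
    linarith) d
  have e : (d : ℝ) * -(1 / (25 * (d : ℝ))) = -(1 / 25) := by field_simp
  rw [e] at h
  calc (24 / 25 : ℝ) = 1 + -(1 / 25) := by norm_num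
    _ ≤ _ := h
    _ = _ := by rw [← sub_eq_add_neg]

/-- upper bound for the probability -/
lemma bf_le {K : Set (E d)} (hd : 0 < d) (hK : SB K) {p : E d} (hp : p ∈ K) {a : ℝ} (ha : 0 ≤ a)
    (h : ENNReal.ofReal a * volume K ≤ volume (ov K p)) :
    bf K (1 - 1 / (25 * d)) p ≤ ENNReal.ofReal (Real.exp (-(24 / 25 * a))) := by
  have hdR : (1 : ℝ) ≤ d := by exact_mod_cast hd
  set s : ℝ := 1 - 1 / (25 * d) with hs
  have hs1 : 1 / (25 * (d : ℝ)) ≤ 1 := by rw [div_le_one (by positivity)]; linarith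
  have hs0 : 0 ≤ s := by rw [hs]; linarith
  have hs2 : 0 < 1 / (25 * (d : ℝ)) := by positivity
  have hkf := SB.vol_fin hK
  have hk0 := SB.vol_pos hK
  have hA : MeasurableSet {x | x ∈ K ∧ (x, p) ∈ Rc K s} :=
    hK.comp.measurableSet.inter ((measurable_id.prodMk measurable_const) (Rc_meas hK s))
  have h1 : ENNReal.ofReal (24 / 25) * (ENNReal.ofReal a * volume K) ≤
      volume {x | x ∈ K ∧ (x, p) ∈ Rc K s} := by
    have h3 : (fun y => (1 / (25 * (d : ℝ))) • p + y) '' (s • ov K p) ⊆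
        {x | x ∈ K ∧ (x, p) ∈ Rc K s} := by
      rintro _ ⟨_, ⟨l, hl, rfl⟩, rfl⟩
      refine ⟨hK.conv hp hl.1 hs2.le hs0 (by rw [hs]; ring), ?_⟩
      show p - ((1 / (25 * (d : ℝ))) • p + s • l) ∈ s • K
      refine ⟨-(l - p), hK.symm _ hl.2, ?_⟩
      show s • (-(l - p)) = _
      rw [hs]
      module
    calc ENNReal.ofReal (24 / 25) * (ENNReal.ofReal a * volume K)
        ≤ ENNReal.ofReal (s ^ d) * volume (ov K p) := by
          gcongr
          exact bern hd
      _ = volume ((fun y => (1 / (25 * (d : ℝ))) • p + y) '' (s • ov K p)) := by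
          rw [Set.image_add_left, measure_preimage_add, vol_smul _ hs0]
      _ ≤ _ := measure_mono h3
  have h2 : volume {x | x ∈ K ∧ (x, p) ∈ Rc K s} + volume {x | x ∈ K ∧ (x, p) ∉ Rc K s}
      = volume K := by
    have := measure_inter_add_sdiff (μ := (volume : Measure (E d))) K
      ((measurable_id.prodMk measurable_const) (Rc_meas hK s) : MeasurableSet {x | (x, p) ∈ Rc K s})
    exact this
  rw [bf, ENNReal.div_le_iff hk0 hkf]
  have hr : volume {x | x ∈ K ∧ (x, p) ∈ Rc K s} ≠ ∞ :=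
    ne_top_of_le_ne_top hkf (measure_mono fun x hx => hx.1)
  have hr' : volume {x | x ∈ K ∧ (x, p) ∉ Rc K s} ≠ ∞ :=
    ne_top_of_le_ne_top hkf (measure_mono fun x hx => hx.1)
  have h3 := congrArg ENNReal.toReal h2
  rw [ENNReal.toReal_add hr hr'] at h3
  have h4 := ENNReal.toReal_mono hr h1
  rw [ENNReal.toReal_mul, ENNReal.toReal_mul, ENNReal.toReal_ofReal (by norm_num),
    ENNReal.toReal_ofReal ha] at h4
  rw [← ENNReal.toReal_le_toReal hr' (ENNReal.mul_ne_top (by simp) hkf), ENNReal.toReal_mul,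
    ENNReal.toReal_ofReal (Real.exp_pos _).le]
  set k := (volume K).toReal
  have hk : 0 ≤ k := ENNReal.toReal_nonneg
  have h5 : 1 - 24 / 25 * a ≤ Real.exp (-(24 / 25 * a)) := by
    have := Real.add_one_le_exp (-(24 / 25 * a))
    linarith
  have h6 : (1 - 24 / 25 * a) * k ≤ Real.exp (-(24 / 25 * a)) * k := by gcongr
  nlinarith

/-- the level sets of the overlap -/
def Pj (K : Set (E d)) (j : ℕ) : Set (E d) :=
  {p | p ∈ K ∧ volume (ov K p) ≤ ENNReal.ofReal (2 ^ (j + 1) / 2 ^ d) * volume K}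

lemma Pj_meas {K : Set (E d)} (hK : SB K) (j : ℕ) : MeasurableSet (Pj K j) :=
  hK.comp.measurableSet.inter (measurableSet_le (ov_meas hK) measurable_const)

lemma C0_ge : 2 ≤ C0 := by
  unfold C0
  have h1 : (1 : ℝ) ≤ Real.exp 1 := Real.one_le_exp (by norm_num)
  have h2 : (2 : ℝ) ≤ 64 * Real.exp 1 := by linarith
  calc (2 : ℝ) ≤ 64 * Real.exp 1 := h2
    _ = (64 * Real.exp 1) ^ 1 := (pow_one _).symm
    _ ≤ _ := pow_le_pow_right₀ (by linarith) (by norm_num)

lemma Pj_vol {K : Set (E d)} (hd : 0 < d) (hK : SB K) (j : ℕ) :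
    volume (Pj K j) ≤ ENNReal.ofReal ((C0 * (2 ^ (j + 1) / d)) ^ d) * volume K := by
  have hdR : (1 : ℝ) ≤ d := by exact_mod_cast hd
  have hC := C0_pos
  set τ : ℝ := 2 ^ (j + 1) / d with hτ
  have h0 : 0 < τ := by positivity
  by_cases h1 : τ < 1 / 2
  · refine bad_vol hd hK h0 h1 (fun q hq => hq.1) (Pj_meas hK j) ?_
    intro q hq
    refine hq.2.trans ?_
    gcongr
    have h2 := one_add_mul_le_pow (a := τ) (by linarith) d
    have e : (d : ℝ) * τ = 2 ^ (j + 1) := by rw [hτ]; field_simp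
    rw [e] at h2
    rw [div_pow]
    gcongr
    linarith
  · have h2 : (1 : ℝ) ≤ (C0 * τ) ^ d := by
      apply one_le_pow₀
      have := C0_ge
      push Not at h1
      nlinarith
    calc volume (Pj K j) ≤ volume K := measure_mono fun q hq => hq.1
      _ = ENNReal.ofReal 1 * volume K := by simp
      _ ≤ _ := by gcongr

lemma num1 : 300 * C0 ≤ Real.exp (792 / 25) := by
  unfold C0
  have h1 : Real.exp (792 / 25) = (Real.exp 1 ^ 26 * Real.exp (17 / 25)) * Real.exp 1 ^ 5 := by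
    rw [← Real.exp_nat_mul, ← Real.exp_nat_mul, ← Real.exp_add, ← Real.exp_add]
    norm_num
  rw [h1, mul_pow]
  have h2 : (2.7182818283 : ℝ) ^ 26 ≤ Real.exp 1 ^ 26 :=
    pow_le_pow_left₀ (by norm_num) Real.exp_one_gt_d9.le 26
  have h2' := Real.quadratic_le_exp_of_nonneg (show (0 : ℝ) ≤ 17 / 25 by norm_num)
  have h3 : (300 * 64 ^ 5 : ℝ) ≤ 2.7182818283 ^ 26 * (1 + 17 / 25 + (17 / 25) ^ 2 / 2) := by norm_num
  calc 300 * (64 ^ 5 * Real.exp 1 ^ 5) = (300 * 64 ^ 5) * Real.exp 1 ^ 5 := by ring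
    _ ≤ _ := by
      refine mul_le_mul_of_nonneg_right (h3.trans ?_) (by positivity)
      exact mul_le_mul h2 h2' (by norm_num) (by positivity)

lemma num2 (hd : 0 < d) (j : ℕ) :
    Real.exp (-(792 / 25 * d * 2 ^ j)) * (C0 * (2 ^ (j + 1) / d)) ^ d ≤
      (1 / (100 * d)) ^ d * (2 / 3 * (1 / 8) ^ j) := by
  have hdR : (1 : ℝ) ≤ d := by exact_mod_cast hd
  have hC := C0_pos
  have e1 : Real.exp (-(792 / 25 * d * 2 ^ j)) = (Real.exp (-(792 / 25 * 2 ^ j))) ^ d := by
    rw [← Real.exp_nat_mul]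
    congr 1
    ring
  rw [e1, ← mul_pow]
  have hj : ((j : ℝ) + 1) ≤ 2 ^ j := by
    have : j + 1 ≤ 2 ^ j := Nat.lt_two_pow_self
    exact_mod_cast this
  have h1 : 300 * C0 * 16 ^ j ≤ Real.exp (792 / 25 * 2 ^ j) := by
    have h2 : Real.exp (792 / 25) ^ (j + 1) ≤ Real.exp (792 / 25 * 2 ^ j) := by
      rw [← Real.exp_nat_mul]
      apply Real.exp_le_exp.2
      push_cast
      nlinarith
    refine le_trans ?_ h2
    have h3 := num1
    have h5 : (16 : ℝ) ≤ Real.exp (792 / 25) := by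
      have := C0_ge
      linarith
    calc 300 * C0 * 16 ^ j ≤ Real.exp (792 / 25) * Real.exp (792 / 25) ^ j := by gcongr
      _ = Real.exp (792 / 25) ^ (j + 1) := by rw [pow_succ]; ring
  have h2 : Real.exp (-(792 / 25 * 2 ^ j)) * (C0 * (2 ^ (j + 1) / d)) ≤
      (1 / (100 * d)) * (2 / 3 * (1 / 8) ^ j) := by
    have h3 : Real.exp (-(792 / 25 * 2 ^ j)) * Real.exp (792 / 25 * 2 ^ j) = 1 := by
      rw [← Real.exp_add]
      simp
    calc Real.exp (-(792 / 25 * 2 ^ j)) * (C0 * (2 ^ (j + 1) / d))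
        = Real.exp (-(792 / 25 * 2 ^ j)) * (300 * C0 * 16 ^ j) *
            ((1 / (100 * d)) * (2 / 3 * (1 / 8) ^ j)) := by
          have e : (16 : ℝ) ^ j = 2 ^ j * 8 ^ j := by rw [← mul_pow]; norm_num
          rw [e, one_div_pow, pow_succ]
          field_simp
          norm_num
      _ ≤ Real.exp (-(792 / 25 * 2 ^ j)) * Real.exp (792 / 25 * 2 ^ j) *
            ((1 / (100 * d)) * (2 / 3 * (1 / 8) ^ j)) := by
          gcongr
      _ = _ := by rw [h3, one_mul]
  calc (Real.exp (-(792 / 25 * 2 ^ j)) * (C0 * (2 ^ (j + 1) / d))) ^ d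
      ≤ ((1 / (100 * d)) * (2 / 3 * (1 / 8) ^ j)) ^ d := by
        apply pow_le_pow_left₀ _ h2
        positivity
    _ = (1 / (100 * d)) ^ d * (2 / 3 * (1 / 8) ^ j) ^ d := mul_pow _ _ _
    _ ≤ (1 / (100 * d)) ^ d * (2 / 3 * (1 / 8) ^ j) := by
        gcongr
        have h8 : ((1 : ℝ) / 8) ^ j ≤ 1 := pow_le_one₀ (by norm_num) (by norm_num)
        have h9 : (0 : ℝ) ≤ (1 / 8) ^ j := by positivity
        calc (2 / 3 * ((1 : ℝ) / 8) ^ j) ^ d ≤ (2 / 3 * ((1 : ℝ) / 8) ^ j) ^ 1 := by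
              apply pow_le_pow_of_le_one (by positivity) _ hd
              linarith
          _ = _ := pow_one _

/-- the expected volume of the uncovered part is small -/
theorem integral_small {K : Set (E d)} (hd : 0 < d) (hK : SB K) :
    ∫⁻ p in K, bf K (1 - 1 / (25 * d)) p ^ (33 * d * 2 ^ d) <
      ENNReal.ofReal ((1 / (100 * d)) ^ d) * volume K := by
  have hdR : (1 : ℝ) ≤ d := by exact_mod_cast hd
  have hkf := SB.vol_fin hK
  have hk0 := SB.vol_pos hK
  have hC := C0_pos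
  have h1 : ∀ p ∈ K, bf K (1 - 1 / (25 * d)) p ^ (33 * d * 2 ^ d) ≤
      ∑' j : ℕ, (Pj K j).indicator (fun _ => ENNReal.ofReal (Real.exp (-(792 / 25 * d * 2 ^ j)))) p := by
    intro p hp
    have hof : volume (ov K p) ≠ ∞ := ne_top_of_le_ne_top hkf (measure_mono fun x hx => hx.1)
    set o := (volume (ov K p)).toReal with ho
    set k := (volume K).toReal with hk
    have hkpos : 0 < k := ENNReal.toReal_pos hk0 hkf
    have hlow : (1 / 2 : ℝ) ^ d * k ≤ o := by
      have := ENNReal.toReal_mono hof (ov_lower hK hp)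
      rwa [ENNReal.toReal_mul, ENNReal.toReal_ofReal (by positivity)] at this
    have hone : 1 ≤ 2 ^ d * (o / k) := by
      rw [mul_div_assoc', le_div_iff₀ hkpos, one_mul]
      calc k = 2 ^ d * ((1 / 2 : ℝ) ^ d * k) := by
            rw [← mul_assoc, ← mul_pow]; norm_num
        _ ≤ _ := by gcongr
    obtain ⟨j, hj1, hj2⟩ := exists_nat_pow_near hone (by norm_num : (1 : ℝ) < 2)
    have hpow : (0 : ℝ) < 2 ^ d := by positivity
    have hpj : p ∈ Pj K j := by
      refine ⟨hp, ?_⟩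
      rw [← ENNReal.toReal_le_toReal hof (ENNReal.mul_ne_top (by simp) hkf), ENNReal.toReal_mul,
        ENNReal.toReal_ofReal (by positivity)]
      show o ≤ 2 ^ (j + 1) / 2 ^ d * k
      have h3 : o / k ≤ 2 ^ (j + 1) / 2 ^ d := by
        rw [le_div_iff₀ hpow]
        linarith
      calc o = o / k * k := by field_simp
        _ ≤ _ := by gcongr
    have hb : bf K (1 - 1 / (25 * d)) p ≤ ENNReal.ofReal (Real.exp (-(24 / 25 * (2 ^ j / 2 ^ d)))) := by
      refine bf_le hd hK hp (by positivity) ?_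
      rw [← ENNReal.toReal_le_toReal (ENNReal.mul_ne_top (by simp) hkf) hof, ENNReal.toReal_mul,
        ENNReal.toReal_ofReal (by positivity)]
      show 2 ^ j / 2 ^ d * k ≤ o
      have h3 : 2 ^ j / 2 ^ d ≤ o / k := by
        rw [div_le_iff₀ hpow]
        linarith
      calc 2 ^ j / 2 ^ d * k ≤ o / k * k := by gcongr
        _ = o := by field_simp
    refine le_trans ?_ (ENNReal.le_tsum j)
    rw [indicator_of_mem hpj]
    calc bf K (1 - 1 / (25 * d)) p ^ (33 * d * 2 ^ d)
        ≤ ENNReal.ofReal (Real.exp (-(24 / 25 * (2 ^ j / 2 ^ d)))) ^ (33 * d * 2 ^ d) := by gcongr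
      _ = ENNReal.ofReal (Real.exp (-(792 / 25 * d * 2 ^ j))) := by
          rw [← ENNReal.ofReal_pow (Real.exp_pos _).le, ← Real.exp_nat_mul]
          congr 2
          push_cast
          field_simp
          ring
  calc ∫⁻ p in K, bf K (1 - 1 / (25 * d)) p ^ (33 * d * 2 ^ d)
      ≤ ∫⁻ p in K, ∑' j : ℕ, (Pj K j).indicator
          (fun _ => ENNReal.ofReal (Real.exp (-(792 / 25 * d * 2 ^ j)))) p :=
        setLIntegral_mono' hK.comp.measurableSet h1
    _ ≤ ∫⁻ p, ∑' j : ℕ, (Pj K j).indicator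
          (fun _ => ENNReal.ofReal (Real.exp (-(792 / 25 * d * 2 ^ j)))) p := setLIntegral_le_lintegral _ _
    _ = ∑' j : ℕ, ENNReal.ofReal (Real.exp (-(792 / 25 * d * 2 ^ j))) * volume (Pj K j) := by
        rw [lintegral_tsum fun j => (measurable_const.indicator (Pj_meas hK j)).aemeasurable]
        congr 1
        ext j
        rw [lintegral_indicator (Pj_meas hK j), setLIntegral_const]
    _ ≤ ∑' j : ℕ, ENNReal.ofReal ((1 / (100 * d)) ^ d * (2 / 3 * (1 / 8) ^ j)) * volume K := by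
        refine ENNReal.tsum_le_tsum fun j => ?_
        calc ENNReal.ofReal (Real.exp (-(792 / 25 * d * 2 ^ j))) * volume (Pj K j)
            ≤ ENNReal.ofReal (Real.exp (-(792 / 25 * d * 2 ^ j))) *
              (ENNReal.ofReal ((C0 * (2 ^ (j + 1) / d)) ^ d) * volume K) := by
              gcongr
              exact Pj_vol hd hK j
          _ = ENNReal.ofReal (Real.exp (-(792 / 25 * d * 2 ^ j)) * (C0 * (2 ^ (j + 1) / d)) ^ d) *
                volume K := by
              rw [← mul_assoc, ← ENNReal.ofReal_mul (Real.exp_pos _).le]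
          _ ≤ _ := mul_le_mul_left (ENNReal.ofReal_le_ofReal (num2 hd j)) _
    _ = ENNReal.ofReal ((1 / (100 * d)) ^ d * (16 / 21)) * volume K := by
        rw [ENNReal.tsum_mul_right]
        congr 1
        rw [← ENNReal.ofReal_tsum_of_nonneg (fun j => by positivity)]
        · rw [tsum_mul_left]
          congr 2
          rw [tsum_mul_left, tsum_geometric_of_lt_one (by norm_num) (by norm_num)]
          norm_num
        · apply Summable.mul_left
          apply Summable.mul_left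
          exact summable_geometric_of_lt_one (by norm_num) (by norm_num)
    _ < ENNReal.ofReal ((1 / (100 * d)) ^ d) * volume K := by
        have hpos : (0 : ℝ) < (1 / (100 * d)) ^ d := by positivity
        rw [ENNReal.mul_lt_mul_iff_left hk0 hkf, ENNReal.ofReal_lt_ofReal_iff hpos]
        linarith

/-- **Main theorem**: a symmetric convex body is covered by `33 d 2 ^ d` smaller homothetic
copies. -/
theorem main {K : Set (E d)} (hd : 0 < d) (hK : SB K) :
    ∃ T : Finset (E d), T.card ≤ 33 * d * 2 ^ d ∧ (T : Set (E d)) ⊆ K ∧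
      ∀ q ∈ K, ∃ x ∈ T, q - x ∈ (1 - 1 / (50 * (d : ℝ))) • K := by
  have hdR : (1 : ℝ) ≤ d := by exact_mod_cast hd
  have hkf := SB.vol_fin hK
  have hk0 := SB.vol_pos hK
  obtain ⟨T, hT1, hT2, hT3⟩ := exists_cover hK.comp.measurableSet hk0 hkf
    (Rc_meas hK (1 - 1 / (25 * d))) (bf K (1 - 1 / (25 * d))) (fun p => le_rfl)
    (bf_meas hK _) (33 * d * 2 ^ d) K hK.comp.measurableSet
  refine ⟨T, hT1, hT2, fun q hq => ?_⟩
  by_contra hcon
  push Not at hcon
  have h1 := hT3.trans_lt (integral_small hd hK)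
  have hs1 : 1 / (100 * (d : ℝ)) ≤ 1 := by rw [div_le_one (by positivity)]; linarith
  have hs2 : 1 / (25 * (d : ℝ)) ≤ 1 := by rw [div_le_one (by positivity)]; linarith
  have hs4 : 1 / (50 * (d : ℝ)) < 1 := by rw [div_lt_one (by positivity)]; linarith
  have hs0 : 0 < 1 / (100 * (d : ℝ)) := by positivity
  have h2 : (fun y => (1 - 1 / (100 * (d : ℝ))) • q + y) '' ((1 / (100 * (d : ℝ))) • K) ⊆
      {p | p ∈ K ∧ ∀ x ∈ T, (x, p) ∉ Rc K (1 - 1 / (25 * d))} := by
    rintro _ ⟨_, ⟨l, hl, rfl⟩, rfl⟩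
    refine ⟨hK.conv hq hl (by linarith) hs0.le (by ring), ?_⟩
    intro x hx hxr
    apply hcon x hx
    obtain ⟨m, hm, hme⟩ := hxr
    have hme' : (1 - 1 / (25 * (d : ℝ))) • m =
      (1 - 1 / (100 * (d : ℝ))) • q + (1 / (100 * (d : ℝ))) • l - x := hme
    -- `q - x = (1 - 1/(25d)) m + (1/(50d)) ((q - l)/2)`
    have hw : (1 / 2 : ℝ) • q + (1 / 2 : ℝ) • (-l) ∈ K :=
      hK.conv hq (hK.symm l hl) (by norm_num) (by norm_num) (by norm_num)
    set w := (1 / 2 : ℝ) • q + (1 / 2 : ℝ) • (-l) with hwdef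
    have e : q - x = (1 - 1 / (25 * (d : ℝ))) • m + (1 / (50 * (d : ℝ))) • w := by
      rw [hme', hwdef]
      have e8 : (1 / (100 * (d : ℝ))) = (1 / (50 * (d : ℝ))) * (1 / 2) := by field_simp; norm_num
      rw [e8]
      module
    rw [e]
    set t : ℝ := 1 - 1 / (50 * (d : ℝ)) with ht
    have ht0 : 0 < t := by rw [ht]; linarith
    have ht2 : 1 / (25 * (d : ℝ)) = 2 * (1 / (50 * (d : ℝ))) := by field_simp; norm_num
    refine ⟨((1 - 1 / (25 * (d : ℝ))) / t) • m + ((1 / (50 * (d : ℝ))) / t) • w,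
      hK.conv hm hw (div_nonneg (by linarith) ht0.le) (by positivity) ?_, ?_⟩
    · rw [← add_div, div_eq_one_iff_eq ht0.ne', ht, ht2]
      ring
    · show t • (((1 - 1 / (25 * (d : ℝ))) / t) • m + ((1 / (50 * (d : ℝ))) / t) • w) = _
      rw [smul_add, smul_smul, smul_smul, mul_div_cancel₀ _ ht0.ne', mul_div_cancel₀ _ ht0.ne']
  have h3 := measure_mono (μ := (volume : Measure (E d))) h2
  rw [Set.image_add_left, measure_preimage_add, vol_smul _ hs0.le] at h3
  exact absurd h1 (not_lt.2 h3)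

end Pool.Agent.W677.Lin
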