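import Mathlib
import Pool.Agent.H712R2.MultiBott

set_option autoImplicit false

/-! # The parameter `-3/4` of the Mandelbrot set: slow escape nearby -/

namespace Pool.Agent.W677.MB

open Complex Metric Set Filter Topology Pool.Agent.H712R2

/-- two steps of the quadratic family in the coordinate `v = z + 1 / 2`, `c = - 3 / 4 + ε` -/
def F2 (v ε : ℂ) : ℂ := v - 2 * v ^ 3 - 2 * ε * v + (v ^ 2 + ε) ^ 2

theorem two_step (ε : ℂ) (k : ℕ) :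
    P 2 (k + 2) (-3 / 4 + ε) + 1 / 2 = F2 (P 2 k (-3 / 4 + ε) + 1 / 2) ε := by
  rw [P_succ, P_succ]
  unfold F2
  ring

theorem step {v ε : ℂ} (hv : v ≠ 0) (hv1 : ‖v‖ ≤ 1 / 20) (hε : ‖ε‖ ≤ ‖v‖ ^ 2 / 20) :
    F2 v ε ≠ 0 ∧ ‖(F2 v ε ^ 2)⁻¹ - (v ^ 2)⁻¹ - 4‖ ≤ 1 := by
  have hn : 0 < ‖v‖ := norm_pos_iff.2 hv
  obtain ⟨y, hy⟩ : ∃ y, y = ε / v ^ 2 := ⟨_, rfl⟩
  have hεy : ε = y * v ^ 2 := by rw [hy]; field_simp
  have hyn : ‖y‖ ≤ 1 / 20 := by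
    rw [hy, norm_div, norm_pow, div_le_iff₀ (by positivity)]
    linarith
  obtain ⟨θ, hθ⟩ : ∃ θ, θ = 2 * y - v * (1 + y) ^ 2 := ⟨_, rfl⟩
  have hθn : ‖θ‖ ≤ 1 / 5 := by
    rw [hθ]
    have h1 : ‖(1 : ℂ) + y‖ ≤ 21 / 20 := by
      refine (norm_add_le _ _).trans ?_
      rw [norm_one]
      linarith
    have h2 : ‖v * (1 + y) ^ 2‖ ≤ 441 / 8000 := by
      have h5 : ‖v * (1 + y) ^ 2‖ ≤ 1 / 20 * (21 / 20) ^ 2 := by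
        rw [norm_mul, norm_pow]
        gcongr
      refine h5.trans (by norm_num)
    have h3 : ‖2 * y‖ ≤ 1 / 10 := by
      rw [norm_mul, Complex.norm_ofNat]
      linarith
    have h4 := norm_sub_le (2 * y) (v * (1 + y) ^ 2)
    linarith
  obtain ⟨q, hq⟩ : ∃ q, q = v ^ 2 * (2 + θ) := ⟨_, rfl⟩
  have hF : F2 v ε = v * (1 - q) := by
    rw [hq, hθ, hεy]
    unfold F2
    ring
  have hqn : ‖q‖ ≤ 1 / 100 := by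
    rw [hq, norm_mul, norm_pow]
    have h1 : ‖(2 : ℂ) + θ‖ ≤ 11 / 5 := by
      refine (norm_add_le _ _).trans ?_
      rw [Complex.norm_ofNat]
      linarith
    have h2 : ‖v‖ ^ 2 ≤ (1 / 20) ^ 2 := pow_le_pow_left₀ hn.le hv1 2
    have h3 : ‖v‖ ^ 2 * ‖(2 : ℂ) + θ‖ ≤ (1 / 20) ^ 2 * (11 / 5) :=
      mul_le_mul h2 h1 (norm_nonneg _) (by positivity)
    norm_num at h3 ⊢
    linarith
  have h1q : 99 / 100 ≤ ‖1 - q‖ := by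
    have := norm_sub_norm_le (1 : ℂ) q
    rw [norm_one] at this
    linarith
  have h1q0 : 1 - q ≠ 0 := by
    intro h
    rw [h, norm_zero] at h1q
    linarith
  refine ⟨by rw [hF]; exact mul_ne_zero hv h1q0, ?_⟩
  have e1 : (F2 v ε ^ 2)⁻¹ - (v ^ 2)⁻¹ - 4 =
      (2 * θ + 6 * q - θ * q - 4 * q ^ 2) / (1 - q) ^ 2 := by
    rw [hF, eq_div_iff (pow_ne_zero 2 h1q0)]
    have e2 : ((v * (1 - q)) ^ 2)⁻¹ * (1 - q) ^ 2 = (v ^ 2)⁻¹ := by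
      field_simp
    have e3 : (v ^ 2)⁻¹ * q = 2 + θ := by
      rw [hq]
      field_simp
    rw [sub_mul, sub_mul, e2]
    linear_combination (2 - q) * e3
  rw [e1, norm_div, norm_pow, div_le_one (by positivity)]
  have n1 : ‖2 * θ + 6 * q - θ * q - 4 * q ^ 2‖ ≤ 2 * ‖θ‖ + 6 * ‖q‖ + ‖θ‖ * ‖q‖ + 4 * ‖q‖ ^ 2 := by
    have a1 := norm_sub_le (2 * θ + 6 * q - θ * q) (4 * q ^ 2)
    have a2 := norm_sub_le (2 * θ + 6 * q) (θ * q)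
    have a3 := norm_add_le (2 * θ) (6 * q)
    have a4 : ‖2 * θ‖ = 2 * ‖θ‖ := by rw [norm_mul, Complex.norm_ofNat]
    have a5 : ‖6 * q‖ = 6 * ‖q‖ := by rw [norm_mul, Complex.norm_ofNat]
    have a6 : ‖4 * q ^ 2‖ = 4 * ‖q‖ ^ 2 := by rw [norm_mul, Complex.norm_ofNat, norm_pow]
    have a7 : ‖θ * q‖ = ‖θ‖ * ‖q‖ := norm_mul _ _
    linarith
  have n2 : ‖θ‖ * ‖q‖ ≤ 1 / 5 * (1 / 100) := mul_le_mul hθn hqn (norm_nonneg _) (by norm_num)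
  have n3 : ‖q‖ ^ 2 ≤ (1 / 100) ^ 2 := pow_le_pow_left₀ (norm_nonneg _) hqn 2
  have n4 : (99 / 100 : ℝ) ^ 2 ≤ ‖1 - q‖ ^ 2 := pow_le_pow_left₀ (by norm_num) h1q 2
  norm_num at n2 n3 n4
  linarith

/-- the orbit stays near `- 1 / 2` -/
theorem stay {ε : ℂ} {k₀ : ℕ} {R : ℝ}
    (h0 : P 2 k₀ (-3 / 4 + ε) + 1 / 2 ≠ 0)
    (hR : 400 ≤ (((P 2 k₀ (-3 / 4 + ε) + 1 / 2) ^ 2)⁻¹).re)
    (hR' : ‖((P 2 k₀ (-3 / 4 + ε) + 1 / 2) ^ 2)⁻¹‖ ≤ R) :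
    ∀ j : ℕ, ‖ε‖ * (R + 5 * j) ≤ 1 / 20 →
      P 2 (k₀ + 2 * j) (-3 / 4 + ε) + 1 / 2 ≠ 0 ∧
      400 + 3 * (j : ℝ) ≤ (((P 2 (k₀ + 2 * j) (-3 / 4 + ε) + 1 / 2) ^ 2)⁻¹).re ∧
      ‖((P 2 (k₀ + 2 * j) (-3 / 4 + ε) + 1 / 2) ^ 2)⁻¹‖ ≤ R + 5 * j := by
  intro j
  induction j with
  | zero =>
    intro _
    simp only [mul_zero, add_zero, CharP.cast_eq_zero]
    exact ⟨h0, hR, hR'⟩
  | succ j ih =>
    intro hj
    have hε0 : 0 ≤ ‖ε‖ := norm_nonneg ε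
    have hj' : ‖ε‖ * (R + 5 * j) ≤ 1 / 20 := by
      refine le_trans ?_ hj
      apply mul_le_mul_of_nonneg_left _ hε0
      push_cast
      linarith
    obtain ⟨h1, h2, h3⟩ := ih hj'
    obtain ⟨v, hv⟩ : ∃ v, v = P 2 (k₀ + 2 * j) (-3 / 4 + ε) + 1 / 2 := ⟨_, rfl⟩
    have e1 : P 2 (k₀ + 2 * (j + 1)) (-3 / 4 + ε) + 1 / 2 = F2 v ε := by
      rw [hv, show k₀ + 2 * (j + 1) = k₀ + 2 * j + 2 by ring]
      exact two_step ε _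
    rw [← hv] at h1 h2 h3
    rw [e1]
    have hn : 0 < ‖v‖ := norm_pos_iff.2 h1
    have hW : ‖(v ^ 2)⁻¹‖ = (‖v‖ ^ 2)⁻¹ := by rw [norm_inv, norm_pow]
    have h4 : 400 ≤ (‖v‖ ^ 2)⁻¹ := by
      rw [← hW]
      have := re_le_norm ((v ^ 2)⁻¹)
      have : (0 : ℝ) ≤ j := Nat.cast_nonneg j
      linarith
    have h5 : ‖v‖ ≤ 1 / 20 := by
      have h6 : ‖v‖ ^ 2 ≤ (1 / 20) ^ 2 := by
        rw [le_inv_comm₀ (by norm_num) (by positivity)] at h4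
        norm_num at h4 ⊢
        exact h4
      exact (pow_le_pow_iff_left₀ hn.le (by norm_num) two_ne_zero).1 h6
    have h6 : ‖ε‖ ≤ ‖v‖ ^ 2 / 20 := by
      have h7 : ‖ε‖ * (‖v‖ ^ 2)⁻¹ ≤ 1 / 20 := by
        rw [← hW]
        exact (mul_le_mul_of_nonneg_left h3 hε0).trans hj'
      rw [mul_inv_le_iff₀ (by positivity)] at h7
      linarith
    obtain ⟨h7, h8⟩ := step h1 h5 h6
    have e2 : (F2 v ε ^ 2)⁻¹ = (v ^ 2)⁻¹ + 4 + ((F2 v ε ^ 2)⁻¹ - (v ^ 2)⁻¹ - 4) := by ring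
    refine ⟨h7, ?_, ?_⟩
    · have h9 := (abs_le.1 (abs_re_le_norm ((F2 v ε ^ 2)⁻¹ - (v ^ 2)⁻¹ - 4))).1
      rw [e2, add_re, add_re]
      have : (4 : ℂ).re = 4 := by simp
      rw [this]
      push_cast
      linarith
    · rw [e2]
      have h9 := norm_add_le ((v ^ 2)⁻¹ + 4) ((F2 v ε ^ 2)⁻¹ - (v ^ 2)⁻¹ - 4)
      have h10 := norm_add_le ((v ^ 2)⁻¹) 4
      rw [Complex.norm_ofNat] at h10
      push_cast
      linarith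

end Pool.Agent.W677.MB
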