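import Pool.Agent.W677.MB9

set_option autoImplicit false

/-! # The passage through the gate near `-3/4` -/

namespace Pool.Agent.W677.MB

open Complex Metric Set Filter Topology Pool.Agent.H712R2 Pool.Agent.H713R2 N62a1eb23

theorem eps_le {η : ℂ} (h : ‖η‖ ≤ 1) : ‖2 * η - η ^ 2‖ ≤ 3 * ‖η‖ := by
  refine (norm_sub_le _ _).trans ?_
  rw [norm_mul, Complex.norm_ofNat, norm_pow]
  nlinarith [norm_nonneg η]

/-- the first phase -/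
theorem phase_one {k₀ : ℕ} {R δ : ℝ} (hR : 1 ≤ R)
    (hst : ∀ ε : ℂ, ‖ε‖ ≤ δ →
      P 2 k₀ (-3 / 4 + ε) + 1 / 2 ≠ 0 ∧ 400 ≤ (((P 2 k₀ (-3 / 4 + ε) + 1 / 2) ^ 2)⁻¹).re ∧
      ‖((P 2 k₀ (-3 / 4 + ε) + 1 / 2) ^ 2)⁻¹‖ ≤ R) {η : ℂ} (hη : ‖η‖ ≤ 1)
    (hδ : 3 * ‖η‖ ≤ δ) {n : ℕ} (hn : 3 * ‖η‖ * (R + 5 * n) ≤ 1 / 20) :
    ∃ V : ℂ, vv (k₀ + 2 * n) η = V - η ∧ ‖V‖ ^ 2 * (400 + 3 * n) ≤ 1 := by
  have he := eps_le hη
  obtain ⟨h1, h2, h3⟩ := hst (2 * η - η ^ 2) (he.trans hδ)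
  have hn0 : (0 : ℝ) ≤ n := Nat.cast_nonneg n
  obtain ⟨b1, b2, -⟩ := stay h1 h2 h3 n (by
    refine le_trans ?_ hn
    exact mul_le_mul_of_nonneg_right he (by positivity))
  refine ⟨_, rfl, ?_⟩
  obtain ⟨V, hV⟩ : ∃ V, V = P 2 (k₀ + 2 * n) (-3 / 4 + (2 * η - η ^ 2)) + 1 / 2 := ⟨_, rfl⟩
  rw [← hV] at b1 b2 ⊢
  have h4 : 400 + 3 * (n : ℝ) ≤ (‖V‖ ^ 2)⁻¹ := by
    have h5 := re_le_norm ((V ^ 2)⁻¹)
    rw [norm_inv, norm_pow] at h5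
    linarith
  have h6 : 0 < ‖V‖ ^ 2 := by
    have := norm_pos_iff.2 b1
    positivity
  have h7 := mul_le_mul_of_nonneg_left h4 h6.le
  rw [mul_inv_cancel₀ h6.ne'] at h7
  exact h7

/-- the bound for the orbit in both phases -/
theorem phase_two {k₀ : ℕ} {R δ : ℝ} (hR : 1 ≤ R)
    (hst : ∀ ε : ℂ, ‖ε‖ ≤ δ →
      P 2 k₀ (-3 / 4 + ε) + 1 / 2 ≠ 0 ∧ 400 ≤ (((P 2 k₀ (-3 / 4 + ε) + 1 / 2) ^ 2)⁻¹).re ∧
      ‖((P 2 k₀ (-3 / 4 + ε) + 1 / 2) ^ 2)⁻¹‖ ≤ R) {B T : ℕ} (hB2 : 2 ≤ B)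
    (hB : 60 * (R + 5) ≤ B) (hT : 1 ≤ T) {J : ℝ} (hJ : J = (T : ℝ) ^ 10) (hJδ : 3 / J ≤ δ)
    (hJB : (B : ℝ) ^ 4 / J ≤ 1 / 2) (hJR : 120 * R ≤ J)
    (hcon : ∀ η : ℂ, ‖η‖ ≤ (B : ℝ) ^ 4 / J → ∀ n : ℕ, (n : ℝ) ≤ J →
      ‖P 2 (k₀ + 2 * n) (-3 / 4 + (2 * η - η ^ 2))‖ ≤ 4)
    {n : ℕ} (hn : (n : ℝ) ≤ J) (hn2 : J < 60 * (R + 5 * n)) {η : ℂ} (hη : ‖η‖ ≤ 1 / J) :
    ‖vv (k₀ + 2 * n) η‖ ≤ 42 / (T : ℝ) ^ 4 := by
  have hT0 : (0 : ℝ) < T := by exact_mod_cast (show 0 < T by omega)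
  have hT1 : (1 : ℝ) ≤ T := by exact_mod_cast hT
  have hJ0 : 0 < J := by rw [hJ]; positivity
  have hJ1 : 1 ≤ J := by linarith
  have hB0 : (0 : ℝ) < B := by exact_mod_cast (show 0 < B by omega)
  have hn0 : (0 : ℝ) ≤ n := Nat.cast_nonneg n
  have h1 : ∀ x : ℂ, ‖x‖ ≤ (1 / J) / B → ‖vv (k₀ + 2 * n) x‖ ≤ 16 / (T : ℝ) ^ 5 := by
    intro x hx
    have hx1 : ‖x‖ ≤ 1 / J := by
      refine hx.trans ?_
      apply div_le_self (by positivity)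
      have : (2 : ℝ) ≤ B := by exact_mod_cast hB2
      linarith
    have hJ2 : 1 / J ≤ 1 := by rw [div_le_one hJ0]; exact hJ1
    obtain ⟨V, hV1, hV2⟩ := phase_one hR hst (hx1.trans hJ2) (by
      have : 3 / J = 3 * (1 / J) := by ring
      linarith) (n := n) (by
      have h2 : 3 * ‖x‖ * (R + 5 * n) ≤ 3 * ((1 / J) / B) * (R * J + 5 * J) := by
        apply mul_le_mul
        · linarith
        · nlinarith
        · positivity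
        · positivity
      refine h2.trans ?_
      have e : 3 * ((1 / J) / B) * (R * J + 5 * J) = 3 * (R + 5) / B := by
        field_simp
      rw [e, div_le_iff₀ hB0]
      linarith)
    rw [hV1]
    have hV3 : ‖V‖ ≤ 15 / (T : ℝ) ^ 5 := by
      have h3 : J / 200 ≤ 400 + 3 * (n : ℝ) := by linarith
      have h4 : ‖V‖ ^ 2 * (J / 200) ≤ 1 :=
        (mul_le_mul_of_nonneg_left h3 (by positivity)).trans hV2
      have h5 : ‖V‖ ^ 2 ≤ (15 / (T : ℝ) ^ 5) ^ 2 := by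
        rw [div_pow, ← pow_mul, le_div_iff₀ (by positivity)]
        rw [hJ] at h4
        norm_num
        linarith
      exact (pow_le_pow_iff_left₀ (norm_nonneg _) (by positivity) two_ne_zero).1 h5
    have h6 : 1 / J ≤ 1 / (T : ℝ) ^ 5 := by
      rw [hJ]
      apply one_div_le_one_div_of_le (by positivity)
      exact pow_le_pow_right₀ hT1 (by norm_num)
    have h7 := norm_sub_le V x
    have h8 : 16 / (T : ℝ) ^ 5 = 15 / (T : ℝ) ^ 5 + 1 / (T : ℝ) ^ 5 := by ring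
    linarith
  have h2 : ∀ x : ℂ, ‖x‖ ≤ (1 / J) * (B : ℝ) ^ 4 → ‖vv (k₀ + 2 * n) x‖ ≤ 5 := by
    intro x hx
    rw [one_div_mul_eq_div] at hx
    have h3 := hcon x hx n hn
    unfold vv
    have h4 := norm_sub_le (P 2 (k₀ + 2 * n) (-3 / 4 + (2 * x - x ^ 2)) + 1 / 2) x
    have h5 := norm_add_le (P 2 (k₀ + 2 * n) (-3 / 4 + (2 * x - x ^ 2))) (1 / 2)
    have h6 : ‖(1 / 2 : ℂ)‖ = 1 / 2 := by norm_num
    rw [h6] at h5
    linarith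
  have h3 := circles (vv_diff (k₀ + 2 * n)) (s := 1 / J) (m := 16 / (T : ℝ) ^ 5) (by positivity)
    (by positivity) hB2 hT h1 h2 hη
  refine h3.trans (le_of_eq ?_)
  field_simp
  norm_num

theorem gate : ∃ (k₀ : ℕ) (K : ℝ) (T₀ : ℕ), 1 ≤ K ∧ 1 ≤ T₀ ∧ ∀ T : ℕ, T₀ ≤ T →
    ∃ η : ℂ, ‖η‖ ≤ K / (T : ℝ) ^ 10 ∧ ‖η‖ ≤ 1 ∧
      ∃ n : ℕ, (n : ℝ) ≤ (T : ℝ) ^ 10 ∧ 4 < ‖P 2 (k₀ + 2 * n) (-3 / 4 + (2 * η - η ^ 2))‖ := by
  obtain ⟨k₀, R, δ, hR, hδ, hst⟩ := start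
  obtain ⟨B, hBdef⟩ : ∃ B : ℕ, B = ⌈60 * (R + 5)⌉₊ := ⟨_, rfl⟩
  have hB : 60 * (R + 5) ≤ B := by rw [hBdef]; exact Nat.le_ceil _
  have hB2 : 2 ≤ B := by
    have : (2 : ℝ) ≤ B := by linarith
    exact_mod_cast this
  have hBr : (2 : ℝ) ≤ B := by exact_mod_cast hB2
  obtain ⟨X, hX⟩ : ∃ X : ℝ, X = 3 / δ + 2 * (B : ℝ) ^ 4 + 1764 * (20 * R + 298) + 1 := ⟨_, rfl⟩
  have hB4 : 0 < (B : ℝ) ^ 4 := by positivity
  have hδ3 : 0 < 3 / δ := by positivity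
  refine ⟨k₀, (B : ℝ) ^ 4, ⌈X⌉₊, ?_, ?_, ?_⟩
  · exact one_le_pow₀ (by linarith)
  · rw [Nat.one_le_ceil_iff, hX]
    positivity
  intro T hT
  have hTX : X ≤ T := (Nat.le_ceil X).trans (by exact_mod_cast hT)
  have hT1' : (1 : ℝ) ≤ T := by
    refine le_trans ?_ hTX
    rw [hX]
    nlinarith
  have hT1 : 1 ≤ T := by exact_mod_cast hT1'
  have hT0 : (0 : ℝ) < T := by linarith
  obtain ⟨J, hJ⟩ : ∃ J : ℝ, J = (T : ℝ) ^ 10 := ⟨_, rfl⟩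
  have hTJ : (T : ℝ) ≤ J := by rw [hJ]; exact le_self_pow₀ hT1' (by norm_num)
  have hJ0 : 0 < J := by linarith
  have hXJ : X ≤ J := hTX.trans hTJ
  have hRX : 1764 * (20 * R + 298) ≤ X := by rw [hX]; linarith
  have hJδ : 3 / J ≤ δ := by
    rw [div_le_iff₀ hJ0]
    have : 3 / δ ≤ J := by
      refine le_trans ?_ hXJ
      rw [hX]
      have : 0 ≤ 1764 * (20 * R + 298) := by positivity
      linarith
    rw [div_le_iff₀ hδ] at this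
    linarith
  have hJB : (B : ℝ) ^ 4 / J ≤ 1 / 2 := by
    rw [div_le_iff₀ hJ0]
    have : 2 * (B : ℝ) ^ 4 ≤ J := by
      refine le_trans ?_ hXJ
      rw [hX]
      have : 0 ≤ 1764 * (20 * R + 298) := by positivity
      linarith
    linarith
  have hJR : 120 * R ≤ J := by linarith
  rw [← hJ]
  by_contra hneg
  push Not at hneg
  have hcon : ∀ η : ℂ, ‖η‖ ≤ (B : ℝ) ^ 4 / J → ∀ n : ℕ, (n : ℝ) ≤ J →
      ‖P 2 (k₀ + 2 * n) (-3 / 4 + (2 * η - η ^ 2))‖ ≤ 4 := fun η hη n hn =>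
    hneg η hη (hη.trans (hJB.trans (by norm_num))) n hn
  -- the resonant parameter
  obtain ⟨Jn, hJn⟩ : ∃ Jn : ℕ, Jn = T ^ 10 := ⟨_, rfl⟩
  have hJnJ : (Jn : ℝ) = J := by rw [hJn, hJ]; push_cast; rfl
  have hJn2 : 2 ≤ Jn := by
    have : (2 : ℝ) ≤ Jn := by rw [hJnJ]; linarith
    exact_mod_cast this
  obtain ⟨φ, hφ⟩ : ∃ φ : ℝ, φ = Real.pi / (2 * J) := ⟨_, rfl⟩
  obtain ⟨l, hl⟩ : ∃ l : ℂ, l = -Complex.exp (Complex.I * φ) := ⟨_, rfl⟩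
  have hlnorm : ‖l‖ = 1 := by
    rw [hl, norm_neg, mul_comm, Complex.norm_exp_ofReal_mul_I]
  have hl1 : ‖1 + l‖ ≤ 2 / J := by
    have h1 := Real.norm_exp_I_mul_ofReal_sub_one_le (x := φ)
    have e : 1 + l = -(Complex.exp (Complex.I * φ) - 1) := by rw [hl]; ring
    rw [e, norm_neg]
    refine h1.trans ?_
    rw [hφ, Real.norm_of_nonneg (by positivity)]
    rw [div_le_div_iff₀ (by positivity) hJ0]
    nlinarith [Real.pi_le_four]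
  have hl4 : l ^ 4 = Complex.exp (2 * Real.pi * Complex.I / Jn) := by
    rw [hl]
    have e : (-Complex.exp (Complex.I * φ)) ^ 4 = Complex.exp (Complex.I * φ) ^ 4 := by ring
    rw [e, ← Complex.exp_nat_mul]
    congr 1
    have hJc : ((Jn : ℕ) : ℂ) = ((J : ℝ) : ℂ) := by rw [← hJnJ]; push_cast; rfl
    have hJc0 : ((J : ℝ) : ℂ) ≠ 0 := by exact_mod_cast hJ0.ne'
    rw [hφ, hJc]
    push_cast
    field_simp
    norm_num
  have hprim : IsPrimitiveRoot (l ^ 4) Jn := by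
    rw [hl4]
    exact Complex.isPrimitiveRoot_exp Jn (by omega)
  obtain ⟨η, hη⟩ : ∃ η : ℂ, η = (1 + l) / 2 := ⟨_, rfl⟩
  have hηl : l = -1 + 2 * η := by rw [hη]; ring
  have hηn : ‖η‖ ≤ 1 / J := by
    rw [hη, norm_div, Complex.norm_ofNat]
    have : 1 / J = (2 / J) / 2 := by ring
    rw [this]
    linarith
  have hJ2 : 1 / J ≤ 1 := by rw [div_le_one hJ0]; linarith
  -- bounds of the orbit
  obtain ⟨v, hv⟩ : ∃ v : ℕ → ℂ, v = fun n => vv (k₀ + 2 * n) η := ⟨_, rfl⟩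
  have hTpow : ∀ k : ℕ, 1 ≤ k → (T : ℝ) ≤ (T : ℝ) ^ k := fun k hk =>
    le_self_pow₀ hT1' (by omega)
  have hlate : ∀ n : ℕ, (n : ℝ) ≤ J → J < 60 * (R + 5 * n) → ‖v n‖ ≤ 42 / (T : ℝ) ^ 4 := by
    intro n h1 h2
    rw [hv]
    exact phase_two hR hst hB2 hB hT1 hJ hJδ hJB hJR hcon h1 h2 hηn
  have hearly : ∀ n : ℕ, 60 * (R + 5 * n) ≤ J → ∃ V : ℂ, v n = V - η ∧
      ‖V‖ ^ 2 * (400 + 3 * n) ≤ 1 := by
    intro n h1
    rw [hv]
    apply phase_one hR hst (hηn.trans hJ2)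
    · have : 3 / J = 3 * (1 / J) := by ring
      linarith
    · have hn0 : (0 : ℝ) ≤ n := Nat.cast_nonneg n
      have h2 : 3 * ‖η‖ * (R + 5 * n) ≤ 3 * (1 / J) * (R + 5 * n) := by
        apply mul_le_mul_of_nonneg_right _ (by positivity)
        linarith
      refine h2.trans ?_
      have e : 3 * (1 / J) * (R + 5 * n) = 3 * (R + 5 * n) / J := by ring
      rw [e, div_le_iff₀ hJ0]
      linarith
  have h42 : 42 / (T : ℝ) ^ 4 ≤ 1 / 10 := by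
    rw [div_le_div_iff₀ (by positivity) (by norm_num)]
    have := hTpow 4 (by norm_num)
    linarith
  have hsm : ∀ n : ℕ, (n : ℝ) ≤ J → ‖v n‖ ≤ 1 / 10 := by
    intro n hn
    rcases le_or_gt (60 * (R + 5 * (n : ℝ))) J with h | h
    · obtain ⟨V, h1, h2⟩ := hearly n h
      rw [h1]
      have hn0 : (0 : ℝ) ≤ n := Nat.cast_nonneg n
      have h3 : ‖V‖ ^ 2 ≤ (1 / 20) ^ 2 := by nlinarith [sq_nonneg ‖V‖]
      have h4 := (pow_le_pow_iff_left₀ (norm_nonneg _) (by norm_num) two_ne_zero).1 h3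
      have h5 := norm_sub_le V η
      have h6 : 1 / J ≤ 1 / 20 := one_div_le_one_div_of_le (by norm_num) (by linarith)
      linarith
    · exact (hlate n hn h).trans h42
  have hboth : ∀ n : ℕ, (n : ℝ) ≤ J →
      ‖v n‖ ≤ 1 / Real.sqrt ((n : ℝ) + 1) + (1 / J + 42 / (T : ℝ) ^ 4) := by
    intro n hn
    have hn0 : (0 : ℝ) ≤ n := Nat.cast_nonneg n
    have hs : 0 < Real.sqrt ((n : ℝ) + 1) := Real.sqrt_pos.2 (by positivity)
    rcases le_or_gt (60 * (R + 5 * (n : ℝ))) J with h | h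
    · obtain ⟨V, h1, h2⟩ := hearly n h
      rw [h1]
      have h3 : ‖V‖ ≤ 1 / Real.sqrt ((n : ℝ) + 1) := by
        have h4 : ‖V‖ ^ 2 ≤ (1 / Real.sqrt ((n : ℝ) + 1)) ^ 2 := by
          rw [div_pow, one_pow, Real.sq_sqrt (by positivity), le_div_iff₀ (by positivity)]
          nlinarith [sq_nonneg ‖V‖]
        exact (pow_le_pow_iff_left₀ (norm_nonneg _) (by positivity) two_ne_zero).1 h4
      have h5 := norm_sub_le V η
      have h6 : 0 ≤ 42 / (T : ℝ) ^ 4 := by positivity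
      linarith
    · have h1 := hlate n hn h
      have h2 : 0 ≤ 1 / Real.sqrt ((n : ℝ) + 1) := by positivity
      have h3 : 0 ≤ 1 / J := by positivity
      linarith
  -- the recursion
  obtain ⟨C, hC⟩ : ∃ C : ℝ, C = 4 * R + 7 := ⟨_, rfl⟩
  have hC1 : 1 ≤ C := by rw [hC]; linarith
  have hCT : 2 * C / (T : ℝ) ^ 5 ≤ 1 := by
    rw [div_le_one (by positivity)]
    have := hTpow 5 (by norm_num)
    rw [hC]
    linarith
  have hl0 : l ≠ 0 := by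
    intro h
    rw [h, norm_zero] at hlnorm
    norm_num at hlnorm
  have hrec : ∀ n : ℕ, (n : ℝ) ≤ J → v n ≠ 0 ∧ ‖((v n) ^ 2)⁻¹‖ ≤ 4 * R + 7 * n ∧
      ‖(l ^ 4) ^ n * ((v n) ^ 2)⁻¹ + 4 / l * ∑ i ∈ Finset.range n, (l ^ 4) ^ i - ((v 0) ^ 2)⁻¹‖ ≤
        ∑ i ∈ Finset.range n, (4 * C / (T : ℝ) ^ 5 + 6 * ‖v i‖) := by
    intro n
    induction n with
    | zero =>
      intro _
      have h0 : 60 * (R + 5 * ((0 : ℕ) : ℝ)) ≤ J := by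
        push_cast
        linarith
      obtain ⟨b1, b2, b3⟩ := hst (2 * η - η ^ 2) ((eps_le (hηn.trans hJ2)).trans (by
        have : 3 / J = 3 * (1 / J) := by ring
        linarith))
      obtain ⟨V, hV⟩ : ∃ V, V = P 2 k₀ (-3 / 4 + (2 * η - η ^ 2)) + 1 / 2 := ⟨_, rfl⟩
      have hv0 : v 0 = V - η := by rw [hv, hV]; rfl
      rw [← hV] at b1 b3
      have hVn : 0 < ‖V‖ := norm_pos_iff.2 b1
      rw [norm_inv, norm_pow] at b3
      have h1 : 1 ≤ R * ‖V‖ ^ 2 := by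
        rw [inv_le_iff_one_le_mul₀ (by positivity)] at b3
        linarith
      have h2 : 1 ≤ R * ‖V‖ := by
        by_contra hcon2
        push Not at hcon2
        have h3 : (R * ‖V‖) ^ 2 < 1 := by
          have : 0 ≤ R * ‖V‖ := by positivity
          nlinarith
        nlinarith
      have h3 : ‖η‖ ≤ ‖V‖ / 2 := by
        refine hηn.trans ?_
        rw [div_le_div_iff₀ hJ0 (by norm_num)]
        nlinarith
      have h4 : ‖V‖ / 2 ≤ ‖v 0‖ := by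
        rw [hv0]
        have := norm_sub_norm_le V η
        linarith
      have hv0n : 0 < ‖v 0‖ := by linarith
      refine ⟨norm_pos_iff.1 hv0n, ?_, ?_⟩
      · rw [norm_inv, norm_pow, inv_le_iff_one_le_mul₀ (by positivity)]
        push_cast
        have h5 : (‖V‖ / 2) ^ 2 ≤ ‖v 0‖ ^ 2 := pow_le_pow_left₀ (by positivity) h4 2
        nlinarith
      · simp
    | succ n ih =>
      intro hn
      push_cast at hn
      have hn' : (n : ℝ) ≤ J := by linarith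
      obtain ⟨h1, h2, h3⟩ := ih hn'
      have hvn : 0 < ‖v n‖ := norm_pos_iff.2 h1
      have hn0 : (0 : ℝ) ≤ n := Nat.cast_nonneg n
      have h4 : (‖v n‖ ^ 2)⁻¹ ≤ C * J := by
        rw [norm_inv, norm_pow] at h2
        refine h2.trans ?_
        rw [hC]
        nlinarith
      have h5 : (‖v n‖)⁻¹ ≤ C * (T : ℝ) ^ 5 := by
        have h6 : ((‖v n‖)⁻¹) ^ 2 ≤ (C * (T : ℝ) ^ 5) ^ 2 := by
          rw [inv_pow]
          refine h4.trans ?_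
          rw [mul_pow, ← pow_mul, hJ]
          apply mul_le_mul_of_nonneg_right _ (by positivity)
          nlinarith
        exact (pow_le_pow_iff_left₀ (by positivity) (by positivity) two_ne_zero).1 h6
      have h6 : ‖1 + l‖ / ‖v n‖ ≤ 2 * C / (T : ℝ) ^ 5 := by
        rw [div_eq_mul_inv]
        calc ‖1 + l‖ * (‖v n‖)⁻¹ ≤ 2 / J * (C * (T : ℝ) ^ 5) :=
              mul_le_mul hl1 h5 (by positivity) (by positivity)
          _ = 2 * C / (T : ℝ) ^ 5 := by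
              rw [hJ]
              field_simp
      have h7 : ‖1 + l‖ ≤ ‖v n‖ := by
        have := h6.trans hCT
        rwa [div_le_one hvn] at this
      obtain ⟨h8, h9⟩ := step2 hlnorm h1 (hsm n hn') h7
      have hvs : v (n + 1) = v n * (l ^ 2 + l * (1 + l) * v n + 2 * l * v n ^ 2 + v n ^ 3) := by
        rw [hv]
        exact vv_two (k₀ + 2 * n) η hηl
      rw [← hvs] at h8 h9
      have h10 : ‖l ^ 4 * ((v (n + 1)) ^ 2)⁻¹ - ((v n) ^ 2)⁻¹ + 4 / l‖ ≤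
          4 * C / (T : ℝ) ^ 5 + 6 * ‖v n‖ := by
        refine h9.trans ?_
        have : 4 * C / (T : ℝ) ^ 5 = 2 * (2 * C / (T : ℝ) ^ 5) := by ring
        linarith
      have hl4n : ‖l ^ 4‖ = 1 := by rw [norm_pow, hlnorm, one_pow]
      refine ⟨h8, ?_, ?_⟩
      · have e : ‖((v (n + 1)) ^ 2)⁻¹‖ = ‖l ^ 4 * ((v (n + 1)) ^ 2)⁻¹‖ := by
          rw [norm_mul, hl4n, one_mul]
        have e2 : l ^ 4 * ((v (n + 1)) ^ 2)⁻¹ =
            (l ^ 4 * ((v (n + 1)) ^ 2)⁻¹ - ((v n) ^ 2)⁻¹ + 4 / l) + ((v n) ^ 2)⁻¹ - 4 / l := by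
          ring
        rw [e, e2]
        have m1 := norm_sub_le ((l ^ 4 * ((v (n + 1)) ^ 2)⁻¹ - ((v n) ^ 2)⁻¹ + 4 / l) +
          ((v n) ^ 2)⁻¹) (4 / l)
        have m2 := norm_add_le (l ^ 4 * ((v (n + 1)) ^ 2)⁻¹ - ((v n) ^ 2)⁻¹ + 4 / l)
          (((v n) ^ 2)⁻¹)
        have m3 : ‖4 / l‖ = 4 := by rw [norm_div, hlnorm, div_one, Complex.norm_ofNat]
        have m4 := hsm n hn'
        have m5 : 4 * C / (T : ℝ) ^ 5 = 2 * (2 * C / (T : ℝ) ^ 5) := by ring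
        push_cast
        linarith
      · rw [Finset.sum_range_succ, Finset.sum_range_succ]
        have e : (l ^ 4) ^ (n + 1) * ((v (n + 1)) ^ 2)⁻¹ +
            4 / l * (∑ i ∈ Finset.range n, (l ^ 4) ^ i + (l ^ 4) ^ n) - ((v 0) ^ 2)⁻¹ =
            ((l ^ 4) ^ n * ((v n) ^ 2)⁻¹ + 4 / l * ∑ i ∈ Finset.range n, (l ^ 4) ^ i -
              ((v 0) ^ 2)⁻¹) +
            (l ^ 4) ^ n * (l ^ 4 * ((v (n + 1)) ^ 2)⁻¹ - ((v n) ^ 2)⁻¹ + 4 / l) := by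
          rw [pow_succ]
          ring
        rw [e]
        refine (norm_add_le _ _).trans (add_le_add h3 ?_)
        rw [norm_mul, norm_pow, hl4n, one_pow, one_mul]
        exact h10
  -- the end
  obtain ⟨a1, a2, a3⟩ := hrec Jn hJnJ.le
  obtain ⟨-, a4, -⟩ := hrec 0 (by push_cast; exact hJ0.le)
  rw [hprim.geom_sum_eq_zero (by omega), mul_zero, add_zero, hprim.pow_eq_one, one_mul] at a3
  have a5 : ‖((v Jn) ^ 2)⁻¹‖ ≤ 4 * R +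
      ∑ i ∈ Finset.range Jn, (4 * C / (T : ℝ) ^ 5 + 6 * ‖v i‖) := by
    have h1 : ((v Jn) ^ 2)⁻¹ = (((v Jn) ^ 2)⁻¹ - ((v 0) ^ 2)⁻¹) + ((v 0) ^ 2)⁻¹ := by ring
    rw [h1]
    refine (norm_add_le _ _).trans ?_
    push_cast at a4
    linarith
  have a6 : ∑ i ∈ Finset.range Jn, (4 * C / (T : ℝ) ^ 5 + 6 * ‖v i‖) ≤
      ∑ i ∈ Finset.range Jn, ((4 * C / (T : ℝ) ^ 5 + 6 * (1 / J + 42 / (T : ℝ) ^ 4)) +
        6 * (1 / Real.sqrt ((i : ℝ) + 1))) := by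
    apply Finset.sum_le_sum
    intro i hi
    have h1 := hboth i (by
      rw [← hJnJ]
      exact_mod_cast (Finset.mem_range.1 hi).le)
    linarith
  have a6b : ∑ i ∈ Finset.range Jn, ((4 * C / (T : ℝ) ^ 5 + 6 * (1 / J + 42 / (T : ℝ) ^ 4)) +
        6 * (1 / Real.sqrt ((i : ℝ) + 1))) =
      J * (4 * C / (T : ℝ) ^ 5 + 6 * (1 / J + 42 / (T : ℝ) ^ 4)) +
        6 * ∑ i ∈ Finset.range Jn, 1 / Real.sqrt ((i : ℝ) + 1) := by
    rw [Finset.sum_add_distrib, Finset.sum_const, Finset.card_range, nsmul_eq_mul, hJnJ,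
      ← Finset.mul_sum]
  rw [a6b] at a6
  have a7 := sum_sqrt_le Jn
  have a8 : Real.sqrt (Jn : ℝ) = (T : ℝ) ^ 5 := by
    rw [hJnJ, hJ, show (T : ℝ) ^ 10 = ((T : ℝ) ^ 5) ^ 2 by ring]
    exact Real.sqrt_sq (by positivity)
  rw [a8] at a7
  have a9 : J * (4 * C / (T : ℝ) ^ 5 + 6 * (1 / J + 42 / (T : ℝ) ^ 4)) =
      4 * C * (T : ℝ) ^ 5 + 6 + 252 * (T : ℝ) ^ 6 := by
    rw [hJ]
    field_simp
    ring
  rw [a9] at a6
  have hT5 : (1 : ℝ) ≤ (T : ℝ) ^ 5 := one_le_pow₀ hT1'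
  have hT56 : (T : ℝ) ^ 5 ≤ (T : ℝ) ^ 6 := pow_le_pow_right₀ hT1' (by norm_num)
  have hT6 : (1 : ℝ) ≤ (T : ℝ) ^ 6 := one_le_pow₀ hT1'
  have a10 : ‖((v Jn) ^ 2)⁻¹‖ ≤ (20 * R + 298) * (T : ℝ) ^ 6 := by
    have h1 : 4 * R ≤ 4 * R * (T : ℝ) ^ 6 := le_mul_of_one_le_right (by positivity) hT6
    have h2 : 4 * C * (T : ℝ) ^ 5 ≤ 4 * C * (T : ℝ) ^ 6 :=
      mul_le_mul_of_nonneg_left hT56 (by positivity)
    have h3 : (20 * R + 298) * (T : ℝ) ^ 6 = 4 * R * (T : ℝ) ^ 6 + 4 * C * (T : ℝ) ^ 6 +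
        270 * (T : ℝ) ^ 6 := by rw [hC]; ring
    rw [h3]
    linarith
  have a11 := hlate Jn hJnJ.le (by rw [hJnJ]; linarith)
  have hvJ : 0 < ‖v Jn‖ := norm_pos_iff.2 a1
  have a12 : 1 ≤ (20 * R + 298) * (T : ℝ) ^ 6 * (42 / (T : ℝ) ^ 4) ^ 2 := by
    rw [norm_inv, norm_pow] at a10
    calc (1 : ℝ) = (‖v Jn‖ ^ 2)⁻¹ * ‖v Jn‖ ^ 2 := by
          rw [inv_mul_cancel₀]
          positivity
      _ ≤ (20 * R + 298) * (T : ℝ) ^ 6 * (42 / (T : ℝ) ^ 4) ^ 2 :=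
          mul_le_mul a10 (pow_le_pow_left₀ hvJ.le a11 2) (by positivity) (by positivity)
  have a13 : (20 * R + 298) * (T : ℝ) ^ 6 * (42 / (T : ℝ) ^ 4) ^ 2 =
      1764 * (20 * R + 298) / (T : ℝ) ^ 2 := by
    field_simp
    norm_num
  rw [a13, le_div_iff₀ (by positivity), one_mul] at a12
  have a14 : (T : ℝ) ≤ (T : ℝ) ^ 2 := hTpow 2 (by norm_num)
  have a15 : 1764 * (20 * R + 298) < X := by
    rw [hX]
    linarith
  linarith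

end Pool.Agent.W677.MB
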