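import Pool.Agent.W677.MB1

set_option autoImplicit false

/-! # The parameter `-3/4` of the Mandelbrot set: slow escape nearby -/

namespace Pool.Agent.W677.MB

open Complex Metric Set Filter Topology Pool.Agent.H712R2

/-- even iterates of the critical point at `c = - 3 / 4`, shifted by `1 / 2` -/
noncomputable def u : ℕ → ℝ
  | 0 => 1 / 2
  | j + 1 => u j - 2 * u j ^ 3 + u j ^ 4

theorem u_succ (j : ℕ) : u (j + 1) = u j - 2 * u j ^ 3 + u j ^ 4 := rfl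

theorem u_bd (j : ℕ) : 0 < u j ∧ u j ≤ 1 / 2 := by
  induction j with
  | zero => simp [u]
  | succ j ih =>
    obtain ⟨h1, h2⟩ := ih
    rw [u_succ]
    have h3 : u j ^ 2 ≤ (1 / 2) ^ 2 := pow_le_pow_left₀ h1.le h2 2
    have e : u j - 2 * u j ^ 3 + u j ^ 4 = u j * (1 - u j ^ 2 * (2 - u j)) := by ring
    have h4 : u j ^ 2 * (2 - u j) ≤ (1 / 2) ^ 2 * 2 :=
      mul_le_mul h3 (by linarith) (by linarith) (by norm_num)
    have h5 : 0 ≤ u j ^ 2 * (2 - u j) := mul_nonneg (by positivity) (by linarith)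
    rw [e]
    constructor
    · apply mul_pos h1
      norm_num at h4
      linarith
    · have : u j * (1 - u j ^ 2 * (2 - u j)) ≤ u j * 1 :=
        mul_le_mul_of_nonneg_left (by linarith) h1.le
      linarith

theorem u_anti : Antitone u := by
  apply antitone_nat_of_succ_le
  intro j
  obtain ⟨h1, h2⟩ := u_bd j
  rw [u_succ]
  have : 0 ≤ u j ^ 3 * (2 - u j) := mul_nonneg (by positivity) (by linarith)
  nlinarith

theorem u_lim : Tendsto u atTop (𝓝 0) := by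
  have hb : BddBelow (range u) := ⟨0, by rintro _ ⟨j, rfl⟩; exact (u_bd j).1.le⟩
  obtain ⟨L, hL⟩ : ∃ L, L = ⨅ j, u j := ⟨_, rfl⟩
  have h1 : Tendsto u atTop (𝓝 L) := hL ▸ tendsto_atTop_ciInf u_anti hb
  have h2 : Tendsto (fun j => u (j + 1)) atTop (𝓝 L) := h1.comp (tendsto_add_atTop_nat 1)
  have h3 : Tendsto (fun j => u (j + 1)) atTop (𝓝 (L - 2 * L ^ 3 + L ^ 4)) := by
    simp only [u_succ]
    exact (h1.sub ((h1.pow 3).const_mul 2)).add (h1.pow 4)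
  have h4 := tendsto_nhds_unique h2 h3
  have hL0 : 0 ≤ L := ge_of_tendsto' h1 fun j => (u_bd j).1.le
  have hL1 : L ≤ 1 / 2 := le_of_tendsto' h1 fun j => (u_bd j).2
  have h5 : L ^ 3 * (2 - L) = 0 := by linarith
  have h6 : L = 0 := by
    rcases mul_eq_zero.1 h5 with h | h
    · exact pow_eq_zero_iff (three_ne_zero) |>.1 h
    · linarith
  rwa [h6] at h1

theorem orbit_even (j : ℕ) : P 2 (2 * j) (-3 / 4) + 1 / 2 = (u j : ℂ) := by
  induction j with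
  | zero =>
    rw [mul_zero, P_zero]
    simp [u]
  | succ j ih =>
    have h := two_step 0 (2 * j)
    rw [add_zero] at h
    rw [show 2 * (j + 1) = 2 * j + 2 by ring, h, ih, u_succ]
    unfold F2
    push_cast
    ring

theorem orbit_bd (k : ℕ) : ‖P 2 k (-3 / 4)‖ ≤ 1 := by
  have key : ∀ j, ‖P 2 (2 * j) (-3 / 4)‖ ≤ 1 / 2 := by
    intro j
    have h := orbit_even j
    have e : P 2 (2 * j) (-3 / 4) = ((u j - 1 / 2 : ℝ) : ℂ) := by
      push_cast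
      rw [← h]
      ring
    obtain ⟨h1, h2⟩ := u_bd j
    rw [e, Complex.norm_real, Real.norm_eq_abs, abs_le]
    constructor <;> linarith
  rcases Nat.even_or_odd' k with ⟨j, rfl | rfl⟩
  · linarith [key j]
  · rw [P_succ]
    have h1 := norm_add_le (P 2 (2 * j) (-3 / 4) ^ 2) (-3 / 4)
    have h2 : ‖P 2 (2 * j) (-3 / 4) ^ 2‖ ≤ 1 / 4 := by
      rw [norm_pow]
      exact (pow_le_pow_left₀ (norm_nonneg _) (key j) 2).trans (by norm_num)
    have h3 : ‖(-3 / 4 : ℂ)‖ = 3 / 4 := by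
      rw [norm_div, norm_neg, Complex.norm_ofNat, Complex.norm_ofNat]
    rw [h3] at h1
    linarith

/-- **slow escape near `-3/4`** -/
theorem slow : ∃ δ κ : ℝ, 0 < δ ∧ 0 < κ ∧ ∀ ε : ℂ, ‖ε‖ ≤ δ → ∀ k : ℕ, (k : ℝ) * ‖ε‖ ≤ κ →
    ‖P 2 k (-3 / 4 + ε)‖ ≤ 2 := by
  obtain ⟨j₀, hj₀⟩ := (u_lim.eventually (gt_mem_nhds (show (0 : ℝ) < 1 / 30 by norm_num))).exists
  have hu0 := (u_bd j₀).1
  obtain ⟨k₀, hk₀⟩ : ∃ k₀, k₀ = 2 * j₀ := ⟨_, rfl⟩
  -- the start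
  have hcP : ∀ k, Continuous fun ε : ℂ => P 2 k (-3 / 4 + ε) := fun k =>
    (continuous_P 2 k).comp (continuous_const.add continuous_id)
  have h00 : P 2 k₀ (-3 / 4 + 0) + 1 / 2 = (u j₀ : ℂ) := by rw [hk₀, add_zero, orbit_even]
  have hne0 : P 2 k₀ (-3 / 4 + 0) + 1 / 2 ≠ 0 := by
    rw [h00]
    exact_mod_cast hu0.ne'
  have hcW : ContinuousAt (fun ε : ℂ => ((P 2 k₀ (-3 / 4 + ε) + 1 / 2) ^ 2)⁻¹) 0 :=
    (((hcP k₀).continuousAt.add_const _).pow 2).inv₀ (pow_ne_zero 2 hne0)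
  have hW0 : ((P 2 k₀ (-3 / 4 + 0) + 1 / 2) ^ 2)⁻¹ = (((u j₀ ^ 2)⁻¹ : ℝ) : ℂ) := by
    rw [h00]
    push_cast
    rfl
  have hW0' : 900 < (u j₀ ^ 2)⁻¹ := by
    rw [lt_inv_comm₀ (by norm_num) (by positivity)]
    have : u j₀ ^ 2 < (1 / 30) ^ 2 := pow_lt_pow_left₀ hj₀ hu0.le two_ne_zero
    norm_num at this ⊢
    exact this
  obtain ⟨R, hR⟩ : ∃ R, R = (u j₀ ^ 2)⁻¹ + 1 := ⟨_, rfl⟩
  have hR0 : 0 < R := by rw [hR]; linarith
  have ev1 : ∀ᶠ ε in 𝓝 (0 : ℂ), P 2 k₀ (-3 / 4 + ε) + 1 / 2 ≠ 0 :=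
    ((hcP k₀).continuousAt.add_const _).eventually_ne hne0
  have ev2 : ∀ᶠ ε in 𝓝 (0 : ℂ), 400 < (((P 2 k₀ (-3 / 4 + ε) + 1 / 2) ^ 2)⁻¹).re := by
    have h1 : ContinuousAt (fun ε : ℂ => (((P 2 k₀ (-3 / 4 + ε) + 1 / 2) ^ 2)⁻¹).re) 0 :=
      continuous_re.continuousAt.comp hcW
    apply h1.eventually_const_lt
    show 400 < (((P 2 k₀ (-3 / 4 + 0) + 1 / 2) ^ 2)⁻¹).re
    rw [hW0, Complex.ofReal_re]
    linarith
  have ev3 : ∀ᶠ ε in 𝓝 (0 : ℂ), ‖((P 2 k₀ (-3 / 4 + ε) + 1 / 2) ^ 2)⁻¹‖ < R := by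
    have h1 : ContinuousAt (fun ε : ℂ => ‖((P 2 k₀ (-3 / 4 + ε) + 1 / 2) ^ 2)⁻¹‖) 0 := hcW.norm
    apply h1.eventually_lt_const
    show ‖((P 2 k₀ (-3 / 4 + 0) + 1 / 2) ^ 2)⁻¹‖ < R
    rw [hW0, Complex.norm_real, Real.norm_of_nonneg (by positivity), hR]
    linarith
  have ev4 : ∀ᶠ ε in 𝓝 (0 : ℂ), ∀ k ∈ Finset.range (k₀ + 1), ‖P 2 k (-3 / 4 + ε)‖ < 2 := by
    rw [Filter.eventually_all_finset]
    intro k _
    apply (hcP k).norm.continuousAt.eventually_lt_const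
    show ‖P 2 k (-3 / 4 + 0)‖ < 2
    rw [add_zero]
    linarith [orbit_bd k]
  obtain ⟨δ₁, hδ₁, hδ⟩ := Metric.eventually_nhds_iff.1 ((ev1.and ev2).and (ev3.and ev4))
  refine ⟨min (δ₁ / 2) (min (1 / (40 * R)) (1 / 4)), 1 / 200, by positivity, by norm_num, ?_⟩
  intro ε hε k hk
  have hε1 : ‖ε‖ ≤ δ₁ / 2 := hε.trans (min_le_left _ _)
  have hε2 : ‖ε‖ ≤ 1 / (40 * R) := hε.trans ((min_le_right _ _).trans (min_le_left _ _))
  have hε3 : ‖ε‖ ≤ 1 / 4 := hε.trans ((min_le_right _ _).trans (min_le_right _ _))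
  obtain ⟨⟨a1, a2⟩, a3, a4⟩ := hδ (show dist ε 0 < δ₁ by rw [dist_zero_right]; linarith)
  rcases le_or_gt k k₀ with h | h
  · exact (a4 k (Finset.mem_range.2 (by omega))).le
  · have hε4 : ‖ε‖ * R ≤ 1 / 40 := by
      rw [le_div_iff₀ (by positivity)] at hε2
      linarith
    have key : ∀ j : ℕ, k₀ + 2 * j ≤ k → ‖P 2 (k₀ + 2 * j) (-3 / 4 + ε)‖ ≤ 11 / 20 := by
      intro j hj
      have hjk : 2 * (j : ℝ) ≤ k := by exact_mod_cast (show 2 * j ≤ k by omega)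
      have h1 : ‖ε‖ * (R + 5 * j) ≤ 1 / 20 := by
        have h2 := mul_le_mul_of_nonneg_right hjk (norm_nonneg ε)
        linarith
      obtain ⟨b1, b2, b3⟩ := stay a1 a2.le a3.le j h1
      obtain ⟨v, hv⟩ : ∃ v, v = P 2 (k₀ + 2 * j) (-3 / 4 + ε) + 1 / 2 := ⟨_, rfl⟩
      rw [← hv] at b1 b2
      have hn : 0 < ‖v‖ := norm_pos_iff.2 b1
      have hW : ‖(v ^ 2)⁻¹‖ = (‖v‖ ^ 2)⁻¹ := by rw [norm_inv, norm_pow]
      have h4 : 400 ≤ (‖v‖ ^ 2)⁻¹ := by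
        rw [← hW]
        have := re_le_norm ((v ^ 2)⁻¹)
        have : (0 : ℝ) ≤ j := Nat.cast_nonneg j
        linarith
      have h5 : ‖v‖ ≤ 1 / 20 := by
        have h6 : ‖v‖ ^ 2 ≤ (1 / 20) ^ 2 := by
          rw [le_inv_comm₀ (by norm_num) (by positivity)] at h4
          norm_num at h4 ⊢
          exact h4
        exact (pow_le_pow_iff_left₀ hn.le (by norm_num) two_ne_zero).1 h6
      have e : P 2 (k₀ + 2 * j) (-3 / 4 + ε) = v - 1 / 2 := by rw [hv]; ring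
      rw [e]
      have h6 := norm_sub_le v (1 / 2)
      have h7 : ‖(1 / 2 : ℂ)‖ = 1 / 2 := by
        rw [norm_div, norm_one, Complex.norm_ofNat]
      linarith
    obtain ⟨m, hm⟩ := Nat.exists_eq_add_of_lt h
    rcases Nat.even_or_odd' (k - k₀) with ⟨j, hj | hj⟩
    · have : k = k₀ + 2 * j := by omega
      rw [this]
      linarith [key j (by omega)]
    · have : k = k₀ + 2 * j + 1 := by omega
      rw [this, P_succ]
      have h1 := norm_add_le (P 2 (k₀ + 2 * j) (-3 / 4 + ε) ^ 2) (-3 / 4 + ε)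
      have h2 : ‖P 2 (k₀ + 2 * j) (-3 / 4 + ε) ^ 2‖ ≤ 1 := by
        rw [norm_pow]
        exact (pow_le_pow_left₀ (norm_nonneg _) (key j (by omega)) 2).trans (by norm_num)
      have h3 : ‖(-3 / 4 + ε : ℂ)‖ ≤ 1 := by
        refine (norm_add_le _ _).trans ?_
        have : ‖(-3 / 4 : ℂ)‖ = 3 / 4 := by
          rw [norm_div, norm_neg, Complex.norm_ofNat, Complex.norm_ofNat]
        linarith
      linarith

end Pool.Agent.W677.MB
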