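import Pool.Agent.W677.MB2
import Pool.Agent.H712R2.MultibrotConnected
import Pool.Agent.H713R2.Ext1

set_option autoImplicit false

/-! # `-3/4` is a boundary point of the Mandelbrot set -/

namespace Pool.Agent.W677.MB

open Complex Metric Set Filter Topology Pool.Agent.H712R2 N62a1eb23

theorem deriv_succ (k : ℕ) (c : ℂ) :
    deriv (P 2 (k + 1)) c = 2 * P 2 k c * deriv (P 2 k) c + 1 := by
  have h1 : HasDerivAt (P 2 k) (deriv (P 2 k) c) c :=
    (Pool.Agent.H713R2.differentiable_P 2 k c).hasDerivAt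
  have h2 : P 2 (k + 1) = fun c => (P 2 k c) ^ 2 + c := by
    funext c
    exact P_succ 2 k c
  rw [h2]
  have h3 := ((h1.pow 2).add (hasDerivAt_id c)).deriv
  have e : (fun c => (P 2 k c) ^ 2 + c) = (P 2 k ^ 2 + id : ℂ → ℂ) := rfl
  rw [e, h3]
  simp

/-- minus the derivatives at the even times -/
noncomputable def B : ℕ → ℝ
  | 0 => 0
  | j + 1 => (1 - 6 * u j ^ 2 + 4 * u j ^ 3) * B j + (2 * u j - 2 * u j ^ 2)

theorem B_succ (j : ℕ) :
    B (j + 1) = (1 - 6 * u j ^ 2 + 4 * u j ^ 3) * B j + (2 * u j - 2 * u j ^ 2) := rfl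

theorem deriv_even (j : ℕ) : deriv (P 2 (2 * j)) (-3 / 4) = -(B j : ℂ) := by
  induction j with
  | zero =>
    have : P 2 (2 * 0) = fun _ => (0 : ℂ) := by
      funext c
      rw [mul_zero, P_zero]
    rw [this, deriv_const]
    simp [B]
  | succ j ih =>
    have h := orbit_even j
    have e : P 2 (2 * j) (-3 / 4) = (u j : ℂ) - 1 / 2 := by
      rw [← h]
      ring
    rw [show 2 * (j + 1) = 2 * j + 1 + 1 by ring, deriv_succ, deriv_succ, P_succ, ih, e, B_succ]
    push_cast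
    ring

theorem B_nonneg (j : ℕ) : 0 ≤ B j := by
  induction j with
  | zero => simp [B]
  | succ j ih =>
    obtain ⟨h1, h2⟩ := u_bd j
    rw [B_succ]
    have h3 : 1 - 6 * u j ^ 2 + 4 * u j ^ 3 = (1 - 2 * u j) * (1 + 2 * u j - 2 * u j ^ 2) := by ring
    have h4 : 0 ≤ (1 - 2 * u j) * (1 + 2 * u j - 2 * u j ^ 2) :=
      mul_nonneg (by linarith) (by nlinarith)
    rw [h3]
    have h5 : 0 ≤ 2 * u j - 2 * u j ^ 2 := by nlinarith
    have := mul_nonneg h4 ih
    linarith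

theorem inv_u_le (J : ℕ) : (u J)⁻¹ ≤ 2 + 4 * ∑ j ∈ Finset.range J, u j := by
  induction J with
  | zero => simp [u]
  | succ J ih =>
    obtain ⟨h1, h2⟩ := u_bd J
    obtain ⟨h3, h4⟩ := u_bd (J + 1)
    rw [Finset.sum_range_succ]
    have h5 : (u (J + 1))⁻¹ ≤ (u J)⁻¹ + 4 * u J := by
      have e : (u J)⁻¹ + 4 * u J = (1 + 4 * u J ^ 2) / u J := by field_simp
      rw [e, inv_eq_one_div, div_le_div_iff₀ h3 h1, u_succ]
      have h6 : 0 ≤ u J ^ 3 * (2 + u J - 8 * u J ^ 2 + 4 * u J ^ 3) := by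
        apply mul_nonneg (by positivity)
        have : u J ^ 2 ≤ 1 / 4 := by nlinarith
        have : 0 ≤ u J ^ 3 := by positivity
        nlinarith
      nlinarith
    linarith

theorem B_unbounded (C : ℝ) : ∃ j, C < B j := by
  by_contra hcon
  push Not at hcon
  have hC1 : 0 ≤ C := (B_nonneg 0).trans (hcon 0)
  obtain ⟨j₁, hj₁⟩ := eventually_atTop.1
    (u_lim.eventually (gt_mem_nhds (show (0 : ℝ) < 1 / (12 * (C + 1)) by positivity)))
  have hstep : ∀ j, j₁ ≤ j → B j + u j / 2 ≤ B (j + 1) := by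
    intro j hj
    obtain ⟨h1, h2⟩ := u_bd j
    have h3 := hj₁ j hj
    rw [lt_div_iff₀ (by positivity)] at h3
    have h4 := hcon j
    have h5 := B_nonneg j
    rw [B_succ]
    have h6 : u j ^ 2 * B j ≤ u j ^ 2 * C := mul_le_mul_of_nonneg_left h4 (by positivity)
    have h7 : 0 ≤ u j ^ 3 * B j := by positivity
    have h8 : u j * (u j * (12 * (C + 1))) ≤ u j * 1 := mul_le_mul_of_nonneg_left h3.le h1.le
    have h9 : u j ^ 2 ≤ u j * (1 / 2) := by nlinarith
    nlinarith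
  have hsum : ∀ m, B j₁ + (∑ j ∈ Finset.range m, u (j₁ + j)) / 2 ≤ B (j₁ + m) := by
    intro m
    induction m with
    | zero => simp
    | succ m ih =>
      rw [Finset.sum_range_succ]
      have := hstep (j₁ + m) (by omega)
      rw [← add_assoc]
      linarith
  -- the sum of the `u j` is bounded, so `1 / u` is
  obtain ⟨S, hS⟩ : ∃ S, S = ∑ j ∈ Finset.range j₁, u j := ⟨_, rfl⟩
  have hb : ∀ m, (u (j₁ + m))⁻¹ ≤ 2 + 4 * (S + 2 * C) := by
    intro m
    have h1 := inv_u_le (j₁ + m)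
    rw [Finset.sum_range_add, ← hS] at h1
    have h2 := hsum m
    have h3 := hcon (j₁ + m)
    have h4 := B_nonneg j₁
    linarith
  obtain ⟨M, hM⟩ : ∃ M, M = 2 + 4 * (S + 2 * C) := ⟨_, rfl⟩
  have hM0 : 0 < M := by
    rw [hM]
    have : 0 ≤ S := by
      rw [hS]
      exact Finset.sum_nonneg fun j _ => (u_bd j).1.le
    positivity
  obtain ⟨j₂, hj₂⟩ := eventually_atTop.1
    (u_lim.eventually (gt_mem_nhds (show (0 : ℝ) < 1 / M by positivity)))
  have h1 := hj₂ (j₁ + j₂) (by omega)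
  have h2 := hb j₂
  rw [← hM] at h2
  have h3 := (u_bd (j₁ + j₂)).1
  rw [lt_div_iff₀ hM0] at h1
  rw [inv_le_iff_one_le_mul₀ h3] at h2
  linarith

/-- `-3/4` is a limit of parameters outside the Mandelbrot set -/
theorem boundary {r : ℝ} (hr : 0 < r) : ∃ ε : ℂ, ‖ε‖ < r ∧ -3 / 4 + ε ∉ multibrotSet 2 := by
  by_contra hcon
  push Not at hcon
  obtain ⟨j, hj⟩ := B_unbounded (2 / (r / 2))
  have h1 : ‖deriv (P 2 (2 * j)) (-3 / 4)‖ ≤ 2 / (r / 2) := by
    apply Complex.norm_deriv_le_of_forall_mem_sphere_norm_le (by positivity)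
    · exact (Pool.Agent.H713R2.differentiable_P 2 (2 * j)).diffContOnCl
    · intro c hc
      have h2 : -3 / 4 + (c - -3 / 4) ∈ multibrotSet 2 := by
        apply hcon
        rw [mem_sphere_iff_norm] at hc
        rw [hc]
        linarith
      have e : -3 / 4 + (c - -3 / 4) = c := by ring
      rw [e] at h2
      exact (mem_multibrot_iff le_rfl c).1 h2 _
  rw [deriv_even, norm_neg, Complex.norm_real, Real.norm_of_nonneg (B_nonneg j)] at h1
  linarith

/-- `-3/4` belongs to the Mandelbrot set -/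
theorem mem34 : (-3 / 4 : ℂ) ∈ multibrotSet 2 :=
  (mem_multibrot_iff le_rfl _).2 fun k => (orbit_bd k).trans (by norm_num)

end Pool.Agent.W677.MB
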