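import Pool.Agent.W677.MB3
import Pool.Agent.H713R2.AR.PR
import Pool.Agent.Helper113.Gorin.Schottky

set_option autoImplicit false

/-! # A lower bound for the distance of the level curves to `-3/4` -/

namespace Pool.Agent.W677.MB

open Complex Metric Set Filter Topology Pool.Agent.H712R2 Pool.Agent.H713R2 N62a1eb23

theorem P_ne {d : ℕ} {c : ℂ} (hc : c ∉ multibrotSet d) {n : ℕ} (hn : 1 ≤ n) : P d n c ≠ 0 := by
  intro h
  have ht : Tendsto (fun k => P d k c) atTop (Bornology.cobounded ℂ) := not_not.1 hc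
  have h1 : ∀ m, P d (m * n) c = 0 := by
    intro m
    induction m with
    | zero => rw [zero_mul, P_zero]
    | succ m ih =>
      have e : P d ((m + 1) * n) c = (fc d c)^[m * n] (P d n c) := by
        unfold P
        rw [← Function.iterate_add_apply]
        congr 2
        ring
      rw [e, h]
      exact ih
  rw [← tendsto_norm_atTop_iff_cobounded] at ht
  obtain ⟨N, hN⟩ := eventually_atTop.1 (ht.eventually_gt_atTop 0)
  have h2 := hN (N * n) (by nlinarith)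
  rw [h1 N, norm_zero] at h2
  exact lt_irrefl _ h2

theorem BB_ne {d : ℕ} (hd : 2 ≤ d) {β : ℂ → ℂ} (hβ : IsBeta d β) (n : ℕ) {x : ℂ}
    (hx : x ∈ ball (0 : ℂ) 1) : BB d β n x ≠ 0 := by
  by_cases hx0 : x = 0
  · rw [hx0, BB_at_zero hd, hβ.zero, one_pow]
    exact one_ne_zero
  · rw [BB_eq hd β n x hx0]
    exact mul_ne_zero (pow_ne_zero _ hx0) (P_ne (hβ.notMem x hx hx0) (by omega))

theorem BB_lower {d : ℕ} (hd : 2 ≤ d) {β : ℂ → ℂ} (hβ : IsBeta d β) (n : ℕ) {x : ℂ}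
    (hx : x ∈ ball (0 : ℂ) 1) :
    Real.exp (-(2 * Real.log 2 * ‖x‖ / (1 - ‖x‖))) ≤ ‖BB d β n x‖ := by
  obtain ⟨g, hg, hge⟩ := H113G.J_schottky.exists_log (BB_diff hβ.diff n)
    (fun z hz => BB_ne hd hβ n hz)
  have h0 : (0 : ℂ) ∈ ball (0 : ℂ) 1 := mem_ball_self one_pos
  have hg0 : Complex.exp (g 0) = 1 := by
    rw [hge 0 h0, BB_at_zero hd, hβ.zero, one_pow]
  have hexp : ∀ z ∈ ball (0 : ℂ) 1, Complex.exp (g z - g 0) = BB d β n z := by
    intro z hz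
    rw [Complex.exp_sub, hg0, div_one, hge z hz]
  have hre : ∀ z ∈ ball (0 : ℂ) 1, Real.exp (g z - g 0).re = ‖BB d β n z‖ := by
    intro z hz
    rw [← hexp z hz, Complex.norm_exp]
  have h1 := Complex.borelCaratheodory_zero (f := fun z => g z - g 0) (M := Real.log 2) (R := 1)
    (z := x) (Real.log_pos (by norm_num)) (hg.sub_const _) (by
      intro z hz
      have h2 := AR.BB_le_two hd hβ n hz
      rw [← hre z hz] at h2
      show (g z - g 0).re ≤ Real.log 2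
      rw [Real.le_log_iff_exp_le (by norm_num)]
      exact h2) one_pos hx (sub_self _)
  rw [← hre x hx]
  apply Real.exp_le_exp.2
  have h2 := (abs_le.1 ((abs_re_le_norm (g x - g 0)).trans h1)).1
  exact h2

/-- upper bound of the escape rate when the orbit stays bounded for a long time -/
theorem green_lower {ψ : ℂ → ℂ} (hψ : IsExteriorMap (multibrotSet 2) ψ) {z : ℂ} (hz : 1 < ‖z‖)
    {n : ℕ} (h1 : ‖ψ z‖ ≤ 2) (h2 : ‖P 2 (n + 1) (ψ z)‖ ≤ 2) : ‖z‖ ^ (2 ^ n) ≤ 3 := by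
  obtain ⟨β, hβ⟩ := exists_beta (d := 2) le_rfl
  rw [exteriorMap_unique hβ hψ hz] at h1 h2
  obtain ⟨hx, hx0⟩ := inv_mem_ball hz
  obtain ⟨c, hc⟩ : ∃ c, c = z * β z⁻¹ := ⟨_, rfl⟩
  rw [← hc] at h1 h2
  have hgrow : ∀ j, ‖P 2 (n + 1 + j) c‖ ≤ 3 ^ (2 ^ j) - 1 := by
    intro j
    induction j with
    | zero =>
      rw [add_zero, pow_zero, pow_one]
      linarith
    | succ j ih =>
      rw [← add_assoc, P_succ]
      have h3 : (3 : ℝ) ≤ 3 ^ (2 ^ j) := by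
        have : (3 : ℝ) ^ 1 ≤ 3 ^ (2 ^ j) := pow_le_pow_right₀ (by norm_num) Nat.one_le_two_pow
        rwa [pow_one] at this
      have h4 := norm_add_le (P 2 (n + 1 + j) c ^ 2) c
      rw [norm_pow] at h4
      have h5 : ‖P 2 (n + 1 + j) c‖ ^ 2 ≤ (3 ^ (2 ^ j) - 1) ^ 2 :=
        pow_le_pow_left₀ (norm_nonneg _) ih 2
      have h6 : (3 : ℝ) ^ (2 ^ (j + 1)) = (3 ^ (2 ^ j)) ^ 2 := by
        rw [← pow_mul, pow_succ]
      rw [h6]
      nlinarith
  obtain ⟨κ, hκ⟩ : ∃ κ, κ = Real.exp (-(2 * Real.log 2 * ‖z⁻¹‖ / (1 - ‖z⁻¹‖))) := ⟨_, rfl⟩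
  have hκ0 : 0 < κ := by rw [hκ]; exact Real.exp_pos _
  by_contra hcon
  push Not at hcon
  have hzpos : 0 < ‖z‖ := by linarith
  have key : ∀ j, κ ≤ (3 / ‖z‖ ^ (2 ^ n)) ^ (2 ^ j) := by
    intro j
    have h3 := BB_lower le_rfl hβ (n + j) hx
    rw [← hκ, BB_eq le_rfl β (n + j) z⁻¹ hx0, inv_inv, ← hc, norm_mul, norm_pow, norm_inv] at h3
    have h4 := hgrow j
    rw [show n + 1 + j = n + j + 1 by ring] at h4
    have h5 : ‖z‖⁻¹ ^ 2 ^ (n + j) * ‖P 2 (n + j + 1) c‖ ≤ ‖z‖⁻¹ ^ 2 ^ (n + j) * 3 ^ (2 ^ j) :=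
      mul_le_mul_of_nonneg_left (by linarith) (by positivity)
    refine h3.trans (h5.trans (le_of_eq ?_))
    rw [div_pow, ← pow_mul, ← pow_add, inv_pow]
    field_simp
  have hlt : 3 / ‖z‖ ^ (2 ^ n) < 1 := by
    rw [div_lt_one (by positivity)]
    exact hcon
  have hlim : Tendsto (fun j : ℕ => (3 / ‖z‖ ^ (2 ^ n)) ^ (2 ^ j)) atTop (𝓝 0) :=
    (tendsto_pow_atTop_nhds_zero_of_lt_one (by positivity) hlt).comp
      (tendsto_pow_atTop_atTop_of_one_lt (by norm_num : 1 < 2))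
  have := ge_of_tendsto' hlim key
  linarith

/-- **the level curves stay away from `-3/4`** -/
theorem dist34 : ∃ a : ℝ, 0 < a ∧ ∀ ψ : ℂ → ℂ, IsExteriorMap (multibrotSet 2) ψ → ∀ z : ℂ,
    1 < ‖z‖ → ‖z‖ ≤ 2 → a ≤ ‖ψ z + 3 / 4‖ * (1 + Real.log (1 / (‖z‖ - 1))) := by
  obtain ⟨δ, κ, hδ, hκ, hslow⟩ := slow
  refine ⟨min δ (κ / 3), by positivity, ?_⟩
  intro ψ hψ z hz hz2
  obtain ⟨ε, hε⟩ : ∃ ε, ε = ψ z + 3 / 4 := ⟨_, rfl⟩
  have hψε : ψ z = -3 / 4 + ε := by rw [hε]; ring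
  have hε0 : ε ≠ 0 := by
    intro h
    have h1 : ψ z ∈ (multibrotSet 2)ᶜ := by
      rw [← hψ.image]
      exact ⟨z, hz, rfl⟩
    rw [hψε, h, add_zero] at h1
    exact h1 mem34
  have hn : 0 < ‖ε‖ := norm_pos_iff.2 hε0
  rw [← hε]
  have hh : 0 < ‖z‖ - 1 := by linarith
  have hlog : 0 ≤ Real.log (1 / (‖z‖ - 1)) := by
    apply Real.log_nonneg
    rw [le_div_iff₀ hh]
    linarith
  rcases lt_or_ge δ ‖ε‖ with h | h
  · refine (min_le_left _ _).trans ?_
    nlinarith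
  · refine (min_le_right _ _).trans ?_
    obtain ⟨k, hk⟩ : ∃ k, k = ⌊κ / ‖ε‖⌋₊ := ⟨_, rfl⟩
    have hk1 : (k : ℝ) * ‖ε‖ ≤ κ := by
      have := Nat.floor_le (by positivity : 0 ≤ κ / ‖ε‖)
      rw [← hk, le_div_iff₀ hn] at this
      exact this
    have hk2 : κ < (k + 1) * ‖ε‖ := by
      have := Nat.lt_floor_add_one (κ / ‖ε‖)
      rw [← hk, div_lt_iff₀ hn] at this
      exact this
    rcases Nat.eq_zero_or_pos k with h0 | h0
    · rw [h0] at hk2
      norm_num at hk2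
      nlinarith
    · obtain ⟨n, rfl⟩ := Nat.exists_eq_add_of_le' h0
      have h1 : ‖P 2 (n + 1) (ψ z)‖ ≤ 2 := by
        rw [hψε]
        exact hslow ε h (n + 1) hk1
      have h2 : ‖ψ z‖ ≤ 2 := by
        have := hslow ε h 1 (by
          refine le_trans ?_ hk1
          apply mul_le_mul_of_nonneg_right _ hn.le
          push_cast
          linarith [(Nat.cast_nonneg n : (0 : ℝ) ≤ n)])
        rw [P_one le_rfl, ← hψε] at this
        exact this
      have h3 := green_lower hψ hz h2 h1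
      have h4 := one_add_mul_le_pow (a := ‖z‖ - 1) (by linarith) (2 ^ n)
      rw [show 1 + (‖z‖ - 1) = ‖z‖ by ring] at h4
      have h5 : (2 : ℝ) ^ n ≤ 2 * (1 / (‖z‖ - 1)) := by
        rw [mul_one_div, le_div_iff₀ hh]
        push_cast at h4
        linarith
      have h6 := Real.log_le_log (by positivity) h5
      rw [Real.log_pow, Real.log_mul (by norm_num) (by positivity)] at h6
      have hl2 := Real.log_two_gt_d9
      have h7 : (n : ℝ) ≤ 1 + 2 * Real.log (1 / (‖z‖ - 1)) := by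
        by_contra hcon
        push Not at hcon
        have h8 : (1 + 2 * Real.log (1 / (‖z‖ - 1))) * Real.log 2 < n * Real.log 2 :=
          mul_lt_mul_of_pos_right hcon (by linarith)
        nlinarith
      push_cast at hk2
      have h8 : ((n : ℝ) + 1 + 1) * ‖ε‖ ≤ 3 * (1 + Real.log (1 / (‖z‖ - 1))) * ‖ε‖ :=
        mul_le_mul_of_nonneg_right (by linarith) hn.le
      linarith

end Pool.Agent.W677.MB
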