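import Pool.Agent.W677.MB4

set_option autoImplicit false

/-! # Points outside the Mandelbrot set near `-3/4` which escape fast -/

namespace Pool.Agent.W677.MB

open Complex Metric Set Filter Topology Pool.Agent.H712R2 Pool.Agent.H713R2 N62a1eb23

theorem u_upper (j : ℕ) : (4 + 3 * j) * u j ^ 2 ≤ 1 := by
  induction j with
  | zero => norm_num [u]
  | succ j ih =>
    obtain ⟨h1, h2⟩ := u_bd j
    obtain ⟨x, hx⟩ : ∃ x, x = u j ^ 2 := ⟨_, rfl⟩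
    have hx0 : 0 < x := by rw [hx]; positivity
    have hx1 : x ≤ 1 / 4 := by rw [hx]; nlinarith
    have e : u (j + 1) = u j * (1 - 2 * x + u j * x) := by rw [u_succ, hx]; ring
    have hq0 : 0 ≤ 1 - 2 * x + u j * x := by nlinarith
    have hq1 : 1 - 2 * x + u j * x ≤ 1 - 3 / 2 * x := by nlinarith
    have hq2 : (1 - 2 * x + u j * x) ^ 2 ≤ (1 - 3 / 2 * x) ^ 2 := pow_le_pow_left₀ hq0 hq1 2
    rw [e, mul_pow, ← hx]
    rw [← hx] at ih
    push_cast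
    have h3 : (4 + 3 * ((j : ℝ) + 1)) * x ≤ 1 + 3 * x := by linarith
    calc (4 + 3 * ((j : ℝ) + 1)) * (x * (1 - 2 * x + u j * x) ^ 2)
        = ((4 + 3 * ((j : ℝ) + 1)) * x) * (1 - 2 * x + u j * x) ^ 2 := by ring
      _ ≤ (1 + 3 * x) * (1 - 3 / 2 * x) ^ 2 := by
          apply mul_le_mul h3 hq2 (sq_nonneg _) (by positivity)
      _ ≤ 1 := by
          have h5 : 0 ≤ x ^ 2 * (1 - x) := mul_nonneg (sq_nonneg x) (by linarith)
          nlinarith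

theorem u_lower (j : ℕ) : 1 ≤ (4 + 8 * j) * u j ^ 2 := by
  induction j with
  | zero => norm_num [u]
  | succ j ih =>
    obtain ⟨h1, h2⟩ := u_bd j
    obtain ⟨x, hx⟩ : ∃ x, x = u j ^ 2 := ⟨_, rfl⟩
    have hx0 : 0 < x := by rw [hx]; positivity
    have hx1 : x ≤ 1 / 4 := by rw [hx]; nlinarith
    have hux : 2 * x ≤ u j := by rw [hx]; nlinarith
    have e : u (j + 1) = u j * (1 - 2 * x + u j * x) := by rw [u_succ, hx]; ring
    have hq0 : 0 ≤ 1 - 2 * x + 2 * x ^ 2 := by nlinarith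
    have hq1 : 1 - 2 * x + 2 * x ^ 2 ≤ 1 - 2 * x + u j * x := by nlinarith
    have hq2 : (1 - 2 * x + 2 * x ^ 2) ^ 2 ≤ (1 - 2 * x + u j * x) ^ 2 :=
      pow_le_pow_left₀ hq0 hq1 2
    rw [e, mul_pow, ← hx]
    rw [← hx] at ih
    push_cast
    have h3 : 1 + 8 * x ≤ (4 + 8 * ((j : ℝ) + 1)) * x := by linarith
    calc (1 : ℝ) ≤ (1 + 8 * x) * (1 - 2 * x + 2 * x ^ 2) ^ 2 := by
          have e2 : (1 + 8 * x) * (1 - 2 * x + 2 * x ^ 2) ^ 2 =
            1 + x * (4 - 24 * x + 56 * x ^ 2 - 60 * x ^ 3 + 32 * x ^ 4) := by ring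
          rw [e2]
          have h6 : 0 ≤ 4 - 24 * x + 56 * x ^ 2 - 60 * x ^ 3 + 32 * x ^ 4 := by
            have h7 : x ^ 3 ≤ x ^ 2 * (1 / 4) := by nlinarith [sq_nonneg x]
            have h8 : 0 ≤ x ^ 4 := by positivity
            nlinarith [sq_nonneg (x - 1 / 4), sq_nonneg (x - 12 / 41)]
          nlinarith [mul_nonneg hx0.le h6]
      _ ≤ ((4 + 8 * ((j : ℝ) + 1)) * x) * (1 - 2 * x + u j * x) ^ 2 := by
          apply mul_le_mul h3 hq2 (sq_nonneg _) (by positivity)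
      _ = (4 + 8 * ((j : ℝ) + 1)) * (x * (1 - 2 * x + u j * x) ^ 2) := by ring

theorem B_lower (j : ℕ) : (j : ℝ) * u j ≤ 3 * B j := by
  induction j with
  | zero => simp [B]
  | succ j ih =>
    obtain ⟨h1, h2⟩ := u_bd j
    obtain ⟨h1', h2'⟩ := u_bd (j + 1)
    have hup := u_upper j
    have hanti : u (j + 1) ≤ u j := u_anti (Nat.le_succ j)
    have hB := B_nonneg j
    rw [B_succ]
    push_cast
    have h3 : 6 * ((j : ℝ) * u j ^ 2) ≤ 2 := by nlinarith [sq_nonneg (u j)]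
    have h4 : 0 ≤ 1 - 6 * u j ^ 2 + 4 * u j ^ 3 := by
      have e : 1 - 6 * u j ^ 2 + 4 * u j ^ 3 = (1 - 2 * u j) * (1 + 2 * u j - 2 * u j ^ 2) := by ring
      rw [e]
      exact mul_nonneg (by linarith) (by nlinarith)
    have h5 : (1 - 6 * u j ^ 2 + 4 * u j ^ 3) * ((j : ℝ) * u j) ≤
        (1 - 6 * u j ^ 2 + 4 * u j ^ 3) * (3 * B j) := mul_le_mul_of_nonneg_left ih h4
    have h6 : ((j : ℝ) + 1) * u (j + 1) ≤ ((j : ℝ) + 1) * u j :=
      mul_le_mul_of_nonneg_left hanti (by positivity)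
    have h7 : (1 - 6 * u j ^ 2 + 4 * u j ^ 3) * ((j : ℝ) * u j) =
      j * u j - (6 * ((j : ℝ) * u j ^ 2)) * u j + 4 * (j * u j ^ 4) := by ring
    have h8 : 0 ≤ (j : ℝ) * u j ^ 4 := by positivity
    have h9 : (6 * ((j : ℝ) * u j ^ 2)) * u j ≤ 2 * u j := mul_le_mul_of_nonneg_right h3 h1.le
    have h10 : 2 * u j - 2 * u j ^ 2 ≥ u j := by nlinarith
    linarith

theorem B_sq (j : ℕ) : (j : ℝ) ≤ 108 * B j ^ 2 := by
  rcases Nat.eq_zero_or_pos j with rfl | hj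
  · simp [B]
  · have h1 := B_lower j
    have h2 := u_lower j
    have hu := (u_bd j).1
    have hj1 : (1 : ℝ) ≤ j := by exact_mod_cast hj
    have h3 : ((j : ℝ) * u j) ^ 2 ≤ (3 * B j) ^ 2 := pow_le_pow_left₀ (by positivity) h1 2
    have h4 : (1 : ℝ) ≤ (12 * j) * u j ^ 2 := by
      refine h2.trans ?_
      apply mul_le_mul_of_nonneg_right _ (sq_nonneg _)
      linarith
    have h5 : (j : ℝ) * 1 ≤ j * ((12 * j) * u j ^ 2) := mul_le_mul_of_nonneg_left h4 (by linarith)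
    nlinarith

theorem P_le_two {ψ : ℂ → ℂ} (hψ : IsExteriorMap (multibrotSet 2) ψ) {z : ℂ} (hz : 1 < ‖z‖)
    (n : ℕ) : ‖P 2 (n + 1) (ψ z)‖ ≤ 2 * ‖z‖ ^ (2 ^ n) := by
  obtain ⟨β, hβ⟩ := exists_beta (d := 2) le_rfl
  rw [exteriorMap_unique hβ hψ hz]
  obtain ⟨hx, hx0⟩ := inv_mem_ball hz
  have h1 := AR.BB_le_two le_rfl hβ n hx
  have h2 := BB_eq le_rfl β n z⁻¹ hx0
  rw [inv_inv] at h2
  rw [h2, norm_mul, norm_pow, norm_inv] at h1
  have h3 : 0 < ‖z‖ ^ (2 ^ n) := by positivity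
  rw [inv_pow, inv_mul_le_iff₀ h3] at h1
  linarith

/-- **points outside the Mandelbrot set near `-3/4` which escape fast** -/
theorem near34 {ψ : ℂ → ℂ} (hψ : IsExteriorMap (multibrotSet 2) ψ) {ρ : ℝ} (hρ : 0 < ρ)
    (hρ1 : ρ ≤ 1) : ∃ z : ℂ, 1 < ‖z‖ ∧ ‖ψ z + 3 / 4‖ ≤ ρ ∧
      Real.log (1 / (‖z‖ - 1)) ≤ 3458 / ρ ^ 2 := by
  obtain ⟨i, hi⟩ : ∃ i : ℕ, i = ⌊1728 / ρ ^ 2⌋₊ := ⟨_, rfl⟩
  have hi1 : (i : ℝ) ≤ 1728 / ρ ^ 2 := by
    rw [hi]
    exact Nat.floor_le (by positivity)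
  have hi2 : 1728 / ρ ^ 2 < i + 1 := by
    rw [hi]
    exact Nat.lt_floor_add_one _
  obtain ⟨c, hc1, hc2⟩ : ∃ c : ℂ, ‖c - (-3 / 4)‖ = ρ ∧ 4 < ‖P 2 (2 * (i + 1)) c‖ := by
    by_contra hcon
    push Not at hcon
    have h1 : ‖deriv (P 2 (2 * (i + 1))) (-3 / 4)‖ ≤ 4 / ρ := by
      apply Complex.norm_deriv_le_of_forall_mem_sphere_norm_le hρ
      · exact (differentiable_P 2 (2 * (i + 1))).diffContOnCl
      · intro c hc
        rw [mem_sphere_iff_norm] at hc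
        exact hcon c hc
    rw [deriv_even, norm_neg, Complex.norm_real, Real.norm_of_nonneg (B_nonneg _)] at h1
    have h2 := B_sq (i + 1)
    have h3 : B (i + 1) ^ 2 ≤ (4 / ρ) ^ 2 := pow_le_pow_left₀ (B_nonneg _) h1 2
    have h4 : 108 * (4 / ρ) ^ 2 = 1728 / ρ ^ 2 := by ring
    push_cast at h2
    linarith
  have hcM : c ∉ multibrotSet 2 := by
    intro h
    have := (mem_multibrot_iff le_rfl c).1 h (2 * (i + 1))
    linarith
  rw [← mem_compl_iff, ← hψ.image] at hcM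
  obtain ⟨z, hz, rfl⟩ := hcM
  have hz' : 1 < ‖z‖ := hz
  refine ⟨z, hz', ?_, ?_⟩
  · rw [← hc1]
    apply le_of_eq
    congr 1
    ring
  · have h1 := P_le_two hψ hz' (2 * i + 1)
    rw [show 2 * i + 1 + 1 = 2 * (i + 1) by ring] at h1
    have h2 : 2 < ‖z‖ ^ (2 ^ (2 * i + 1)) := by linarith
    obtain ⟨h, hh⟩ : ∃ h, h = ‖z‖ - 1 := ⟨_, rfl⟩
    have hh0 : 0 < h := by rw [hh]; linarith
    have hzh : ‖z‖ = 1 + h := by rw [hh]; ring
    have h3 : ‖z‖ ^ (2 ^ (2 * i + 1)) ≤ Real.exp (h * 2 ^ (2 * i + 1)) := by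
      rw [hzh]
      have h4 : 1 + h ≤ Real.exp h := by
        have := Real.add_one_le_exp h
        linarith
      calc (1 + h) ^ (2 ^ (2 * i + 1)) ≤ (Real.exp h) ^ (2 ^ (2 * i + 1)) :=
            pow_le_pow_left₀ (by linarith) h4 _
        _ = Real.exp (h * 2 ^ (2 * i + 1)) := by
            rw [← Real.exp_nat_mul]
            congr 1
            push_cast
            ring
    have h5 : Real.log 2 < h * 2 ^ (2 * i + 1) := by
      rw [Real.log_lt_iff_lt_exp (by norm_num)]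
      linarith
    have hl2 := Real.log_two_gt_d9
    have h6 : 1 / h ≤ 2 ^ (2 * i + 2) := by
      rw [div_le_iff₀ hh0, pow_succ]
      nlinarith
    rw [← hh]
    have h7 := Real.log_le_log (by positivity) h6
    rw [Real.log_pow] at h7
    have hl3 := Real.log_two_lt_d9
    have h8 : (((2 * i + 2 : ℕ) : ℝ)) * Real.log 2 ≤ ((2 * i + 2 : ℕ) : ℝ) * 1 :=
      mul_le_mul_of_nonneg_left (by linarith) (by positivity)
    push_cast at h8 h7
    have h9 : 1 ≤ 1 / ρ ^ 2 := by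
      rw [le_div_iff₀ (by positivity)]
      nlinarith
    have h10 : 3458 / ρ ^ 2 = 2 * (1728 / ρ ^ 2) + 2 * (1 / ρ ^ 2) := by ring
    rw [h10]
    linarith

end Pool.Agent.W677.MB
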