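import Pool.Agent.W677.MB5
import Pool.Agent.H713R2.Main4

set_option autoImplicit false

/-! # Laurent coefficients: a lower bound on windows -/

namespace Pool.Agent.W677.MB

open Complex Metric Set Filter Topology Pool.Agent.H712R2 Pool.Agent.H713R2 N62a1eb23

theorem coeff_le {ψ : ℂ → ℂ} {b : ℕ → ℂ} (hψ : IsExteriorMap (multibrotSet 2) ψ)
    (hb : HasLaurent ψ b) (m : ℕ) : ‖b m‖ ≤ 2 := by
  obtain ⟨β, hβ⟩ := exists_beta (d := 2) le_rfl
  rw [exterior_coeff hβ hψ hb]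
  have h1 := sum_sq_le hβ.diff hβ.bound (m + 2)
  have h2 : ‖tc β (m + 1)‖ ^ 2 ≤ ∑ k ∈ Finset.range (m + 2), ‖tc β k‖ ^ 2 :=
    Finset.single_le_sum (f := fun k => ‖tc β k‖ ^ 2) (fun k _ => sq_nonneg _)
      (Finset.mem_range.2 (by omega))
  nlinarith [norm_nonneg (tc β (m + 1))]

theorem norm_le_two_of_near {ψ : ℂ → ℂ} (hψ : IsExteriorMap (multibrotSet 2) ψ) {z : ℂ}
    (hz : 1 < ‖z‖) (h : ‖ψ z + 3 / 4‖ ≤ 1 / 4) : ‖z‖ ≤ 2 := by
  have h1 : ‖ψ z‖ ≤ 1 := by
    have e : ψ z = (ψ z + 3 / 4) - 3 / 4 := by ring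
    rw [e]
    refine (norm_sub_le _ _).trans ?_
    have : ‖(3 / 4 : ℂ)‖ = 3 / 4 := by norm_num
    rw [this]
    linarith
  have h2 : ‖P 2 (1 + 1) (ψ z)‖ ≤ 2 := by
    rw [P_succ, P_one le_rfl]
    refine (norm_add_le _ _).trans ?_
    rw [norm_pow]
    nlinarith [norm_nonneg (ψ z)]
  have h3 := green_lower hψ hz (by linarith) h2
  norm_num at h3
  nlinarith

theorem window_one {ψ : ℂ → ℂ} {b : ℕ → ℂ} (hψ : IsExteriorMap (multibrotSet 2) ψ)
    (hb : HasLaurent ψ b) {a Φ : ℝ} (ha : 0 < a) (ha1 : a ≤ 1 / 2)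
    (hdist : ∀ z : ℂ, 1 < ‖z‖ → ‖z‖ ≤ 2 →
      a ≤ ‖ψ z + 3 / 4‖ * (1 + Real.log (1 / (‖z‖ - 1))))
    {N : ℕ} (hN : 1 ≤ N) (hN8 : 8 / (N : ℝ) ≤ a / (4 * (1 + 3 * Real.log N)))
    (hnear : ∃ z : ℂ, 1 < ‖z‖ ∧ ‖ψ z + 3 / 4‖ ≤ a / (2 * (1 + 3 * Real.log N)) ∧
      Real.log (1 / (‖z‖ - 1)) ≤ Φ) {N' : ℕ} (hN' : 4 * Real.exp (2 * Φ) ≤ N') :
    a / (4 * (1 + 3 * Real.log N)) ≤ ∑ m ∈ Finset.Ico N N', ‖b m‖ := by
  obtain ⟨z', hz', hρ, hΦ⟩ := hnear
  have hN0 : (0 : ℝ) < N := by exact_mod_cast hN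
  have hN1 : (1 : ℝ) ≤ N := by exact_mod_cast hN
  have hlN : 0 ≤ Real.log N := Real.log_nonneg hN1
  obtain ⟨L, hL⟩ : ∃ L, L = 1 + 3 * Real.log N := ⟨_, rfl⟩
  have hL1 : 1 ≤ L := by rw [hL]; linarith
  rw [← hL] at hN8 hρ ⊢
  obtain ⟨h', hh'⟩ : ∃ h', h' = ‖z'‖ - 1 := ⟨_, rfl⟩
  have hh'0 : 0 < h' := by rw [hh']; linarith
  rw [← hh'] at hΦ
  have hnz' : ‖z'‖ = 1 + h' := by rw [hh']; ring
  have hρ4 : a / (2 * L) ≤ 1 / 4 := by
    rw [div_le_div_iff₀ (by positivity) (by norm_num)]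
    nlinarith
  have hz'2 := norm_le_two_of_near hψ hz' (hρ.trans hρ4)
  obtain ⟨h, hh⟩ : ∃ h : ℝ, h = 1 / (N : ℝ) ^ 3 := ⟨_, rfl⟩
  have hh0 : 0 < h := by rw [hh]; positivity
  have hN3 : (N : ℝ) ≤ (N : ℝ) ^ 3 := by nlinarith [mul_pos hN0 hN0]
  have hhN : h ≤ 1 / (N : ℝ) := by
    rw [hh]
    exact one_div_le_one_div_of_le hN0 hN3
  have hh1 : h ≤ 1 := hhN.trans (by rw [div_le_one hN0]; exact hN1)
  have hlogh : Real.log (1 / h) = 3 * Real.log N := by
    rw [hh, one_div_one_div, Real.log_pow]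
    push_cast
    ring
  -- `h' ≤ h`
  have hle : h' ≤ h := by
    have h1 := hdist z' hz' hz'2
    rw [← hh'] at h1
    have h2 : 0 ≤ 1 + Real.log (1 / h') := by
      have : 0 ≤ Real.log (1 / h') := by
        apply Real.log_nonneg
        rw [le_div_iff₀ hh'0]
        linarith
      linarith
    have h3 : a ≤ a / (2 * L) * (1 + Real.log (1 / h')) :=
      h1.trans (mul_le_mul_of_nonneg_right hρ h2)
    have h4 : 2 * L ≤ 1 + Real.log (1 / h') := by
      rw [div_mul_eq_mul_div, le_div_iff₀ (by positivity)] at h3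
      exact le_of_mul_le_mul_left h3 ha
    have h5 : Real.log (1 / h) ≤ Real.log (1 / h') := by
      rw [hlogh]
      linarith
    have h6 := (Real.log_le_log_iff (by positivity) (by positivity)).1 h5
    rw [one_div_le_one_div hh0 hh'0] at h6
    exact h6
  -- the comparison point
  obtain ⟨t, ht⟩ : ∃ t : ℝ, t = (1 + h') / (1 + h) := ⟨_, rfl⟩
  have ht0 : 0 < t := by rw [ht]; positivity
  have ht1 : t ≤ 1 := by rw [ht, div_le_one (by positivity)]; linarith
  have ht2 : 1 - t ≤ h := by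
    have : 1 - t = (h - h') / (1 + h) := by rw [ht]; field_simp; ring
    rw [this, div_le_iff₀ (by positivity)]
    nlinarith
  have hz'0 : z' ≠ 0 := by
    intro h0
    rw [h0, norm_zero] at hz'
    linarith
  have htc : (t : ℂ) ≠ 0 := by exact_mod_cast ht0.ne'
  obtain ⟨z, hz⟩ : ∃ z : ℂ, z = (t : ℂ)⁻¹ * z' := ⟨_, rfl⟩
  have hnz : ‖z‖ = 1 + h := by
    rw [hz, norm_mul, norm_inv, Complex.norm_real, Real.norm_of_nonneg ht0.le, hnz', ht]
    field_simp
  have hz1 : 1 < ‖z‖ := by rw [hnz]; linarith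
  have hd := hdist z hz1 (by rw [hnz]; linarith)
  rw [hnz, show 1 + h - 1 = h by ring, hlogh, ← hL] at hd
  have hsub : a / (2 * L) ≤ ‖ψ z - ψ z'‖ := by
    have h1 : a / L ≤ ‖ψ z + 3 / 4‖ := by
      rw [div_le_iff₀ (by positivity)]
      exact hd
    have h2 : ‖ψ z + 3 / 4‖ ≤ ‖ψ z - ψ z'‖ + ‖ψ z' + 3 / 4‖ := by
      refine le_trans (le_of_eq ?_) (norm_add_le _ _)
      congr 1
      ring
    have h3 : a / L = 2 * (a / (2 * L)) := by field_simp
    linarith
  -- the series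
  obtain ⟨g, hg⟩ : ∃ g : ℕ → ℝ, g = fun m => ((1 + h')⁻¹) ^ m * (1 - t ^ m) := ⟨_, rfl⟩
  have hq0 : 0 < (1 + h')⁻¹ := by positivity
  have hq1 : (1 + h')⁻¹ < 1 := inv_lt_one_of_one_lt₀ (by linarith)
  have htm : ∀ m, t ^ m ≤ 1 := fun m => pow_le_one₀ ht0.le ht1
  have hg0 : ∀ m, 0 ≤ g m := fun m => by
    rw [hg]
    exact mul_nonneg (by positivity) (by linarith [htm m])
  have hgq : ∀ m, g m ≤ ((1 + h')⁻¹) ^ m := fun m => by
    rw [hg]
    have : 0 < t ^ m := pow_pos ht0 m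
    exact mul_le_of_le_one_right (by positivity) (by linarith)
  have hg1 : ∀ m, g m ≤ 1 := fun m => (hgq m).trans (pow_le_one₀ hq0.le hq1.le)
  have hgm : ∀ m, g m ≤ m * h := fun m => by
    rw [hg]
    have h1 := one_add_mul_le_pow (a := t - 1) (by linarith) m
    rw [show 1 + (t - 1) = t by ring] at h1
    have h2 : 1 - t ^ m ≤ m * h := by
      have : (m : ℝ) * (1 - t) ≤ m * h := mul_le_mul_of_nonneg_left ht2 (Nat.cast_nonneg m)
      linarith
    refine le_trans ?_ h2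
    exact mul_le_of_le_one_left (by linarith [htm m]) (pow_le_one₀ hq0.le hq1.le)
  have hterm : ∀ m, ‖b m / z ^ m - b m / z' ^ m‖ = ‖b m‖ * g m := by
    intro m
    have e : b m / z ^ m - b m / z' ^ m = b m * ((z'⁻¹) ^ m * (((t ^ m - 1 : ℝ)) : ℂ)) := by
      rw [hz]
      push_cast
      rw [mul_pow, inv_pow, inv_pow]
      field_simp
    rw [e, norm_mul, norm_mul, norm_pow, norm_inv, hnz', Complex.norm_real, Real.norm_eq_abs,
      abs_of_nonpos (by linarith [htm m]), hg]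
    ring
  have hb2 := coeff_le hψ hb
  have hsq : Summable (fun m : ℕ => ((1 + h')⁻¹) ^ m) := summable_geometric_of_lt_one hq0.le hq1
  have hsum : Summable (fun m => ‖b m‖ * g m) := by
    refine Summable.of_nonneg_of_le (fun m => mul_nonneg (norm_nonneg _) (hg0 m)) (fun m => ?_)
      (hsq.mul_left 2)
    exact mul_le_mul (hb2 m) (hgq m) (hg0 m) (by norm_num)
  have hψz := (hb z hz1).sub (hb z' hz')
  have hnorm : ‖ψ z - ψ z'‖ ≤ h + ∑' m, ‖b m‖ * g m := by
    have h1 : ψ z - ψ z' = (z - z') + ∑' m, (b m / z ^ m - b m / z' ^ m) := by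
      rw [hψz.tsum_eq]
      ring
    have h2 : ‖z - z'‖ ≤ h := by
      have e : z - z' = (((t⁻¹ - 1 : ℝ)) : ℂ) * z' := by
        rw [hz]
        push_cast
        ring
      rw [e, norm_mul, Complex.norm_real, Real.norm_of_nonneg, hnz', ht]
      · have : ((1 + h') / (1 + h))⁻¹ - 1 = (h - h') / (1 + h') := by field_simp; ring
        rw [this]
        have : (h - h') / (1 + h') * (1 + h') = h - h' := by field_simp
        rw [this]
        linarith
      · have := one_le_inv₀ ht0 |>.2 ht1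
        linarith
    rw [h1]
    refine (norm_add_le _ _).trans (add_le_add h2 ?_)
    have h3 : Summable (fun m => ‖b m / z ^ m - b m / z' ^ m‖) := by
      simp only [hterm]
      exact hsum
    refine (norm_tsum_le_tsum_norm h3).trans (le_of_eq ?_)
    congr 1
    funext m
    exact hterm m
  -- splitting
  have hΦ0 : Real.exp (-Φ) ≤ h' := by
    rw [Real.exp_neg, inv_eq_one_div]
    have h1 : 1 / h' ≤ Real.exp Φ := by
      rw [← Real.log_le_iff_le_exp (by positivity)]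
      exact hΦ
    rw [div_le_iff₀ hh'0] at h1
    rw [div_le_iff₀ (Real.exp_pos _)]
    linarith
  have hΦnn : 1 ≤ Real.exp (2 * Φ) := by
    apply Real.one_le_exp
    have : 0 ≤ Real.log (1 / h') := by
      apply Real.log_nonneg
      rw [le_div_iff₀ hh'0]
      linarith
    linarith
  have htail : ∑' m, ‖b (m + N')‖ * g (m + N') ≤ 4 * h' := by
    have h1 : ∑' m, ‖b (m + N')‖ * g (m + N') ≤
        ∑' m : ℕ, (2 * ((1 + h')⁻¹) ^ N') * ((1 + h')⁻¹) ^ m := by
      apply Summable.tsum_le_tsum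
      · intro m
        calc ‖b (m + N')‖ * g (m + N') ≤ 2 * ((1 + h')⁻¹) ^ (m + N') :=
              mul_le_mul (hb2 _) (hgq _) (hg0 _) (by norm_num)
          _ = (2 * ((1 + h')⁻¹) ^ N') * ((1 + h')⁻¹) ^ m := by rw [pow_add]; ring
      · exact (summable_nat_add_iff N').2 hsum
      · exact hsq.mul_left _
    rw [tsum_mul_left, tsum_geometric_of_lt_one hq0.le hq1] at h1
    have h2 : (1 - (1 + h')⁻¹)⁻¹ ≤ 2 / h' := by
      have : (1 - (1 + h')⁻¹)⁻¹ = (1 + h') / h' := by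
        have h3 : 1 - (1 + h')⁻¹ = h' / (1 + h') := by
          rw [eq_div_iff (by positivity), sub_mul, inv_mul_cancel₀ (by positivity)]
          ring
        rw [h3, inv_div]
      rw [this]
      apply div_le_div_of_nonneg_right _ hh'0.le
      linarith
    obtain ⟨k, hk⟩ : ∃ k : ℕ, k = ⌈Real.exp (2 * Φ)⌉₊ := ⟨_, rfl⟩
    have hk1 : Real.exp (2 * Φ) ≤ k := by rw [hk]; exact Nat.le_ceil _
    have hk2 : (k : ℝ) < Real.exp (2 * Φ) + 1 := by
      rw [hk]
      exact Nat.ceil_lt_add_one (Real.exp_pos _).le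
    have hk3 : 2 * k ≤ N' := by
      have : ((2 * k : ℕ) : ℝ) ≤ (N' : ℝ) := by
        push_cast
        linarith
      exact_mod_cast this
    have h3 : (h')⁻¹ ≤ k * h' := by
      have h4 : Real.exp (2 * Φ) = Real.exp Φ * Real.exp Φ := by rw [← Real.exp_add]; ring_nf
      have h5 : (h')⁻¹ ≤ Real.exp Φ := by
        rw [inv_le_comm₀ hh'0 (Real.exp_pos _), ← Real.exp_neg]
        exact hΦ0
      have h6 : 1 ≤ Real.exp Φ * h' := by
        rw [inv_le_iff_one_le_mul₀ hh'0] at h5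
        linarith
      calc (h')⁻¹ ≤ Real.exp Φ := h5
        _ ≤ Real.exp Φ * (Real.exp Φ * h') := le_mul_of_one_le_right (Real.exp_pos _).le h6
        _ = Real.exp (2 * Φ) * h' := by rw [h4]; ring
        _ ≤ k * h' := mul_le_mul_of_nonneg_right hk1 hh'0.le
    have h7 : ((h')⁻¹) ^ 2 ≤ (1 + h') ^ N' := by
      calc ((h')⁻¹) ^ 2 ≤ (k * h') ^ 2 := pow_le_pow_left₀ (by positivity) h3 2
        _ ≤ ((1 + h') ^ k) ^ 2 := by
            apply pow_le_pow_left₀ (by positivity)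
            have := one_add_mul_le_pow (a := h') (by linarith) k
            linarith
        _ = (1 + h') ^ (2 * k) := by rw [← pow_mul]; ring_nf
        _ ≤ (1 + h') ^ N' := pow_le_pow_right₀ (by linarith) hk3
    have h8 : ((1 + h')⁻¹) ^ N' ≤ h' ^ 2 := by
      rw [inv_pow]
      rw [inv_le_comm₀ (by positivity) (by positivity), ← inv_pow]
      exact h7
    calc _ ≤ 2 * ((1 + h')⁻¹) ^ N' * (1 - (1 + h')⁻¹)⁻¹ := h1
      _ ≤ 2 * h' ^ 2 * (2 / h') := by
          apply mul_le_mul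
          · linarith
          · exact h2
          · apply inv_nonneg.2
            linarith
          · positivity
      _ = 4 * h' := by field_simp; ring
  have hNN' : N ≤ N' ∨ N' < N := le_or_gt N N'
  have hhead : ∑ m ∈ Finset.range N, ‖b m‖ * g m ≤ 2 / N := by
    calc ∑ m ∈ Finset.range N, ‖b m‖ * g m ≤ ∑ m ∈ Finset.range N, 2 * (N * h) := by
          apply Finset.sum_le_sum
          intro m hm
          apply mul_le_mul (hb2 m) _ (hg0 m) (by norm_num)
          refine (hgm m).trans ?_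
          apply mul_le_mul_of_nonneg_right _ hh0.le
          exact_mod_cast (Finset.mem_range.1 hm).le
      _ = 2 / N := by
          rw [Finset.sum_const, Finset.card_range, nsmul_eq_mul, hh]
          field_simp
  have hsplit : ∑' m, ‖b m‖ * g m ≤ 2 / N + ∑ m ∈ Finset.Ico N N', ‖b m‖ + 4 * h' := by
    rw [← hsum.sum_add_tsum_nat_add N']
    refine add_le_add ?_ htail
    have hmid : ∀ s : Finset ℕ, ∑ m ∈ s, ‖b m‖ * g m ≤ ∑ m ∈ s, ‖b m‖ := by
      intro s
      apply Finset.sum_le_sum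
      intro m _
      exact mul_le_of_le_one_right (norm_nonneg _) (hg1 m)
    rcases hNN' with hc | hc
    · rw [← Finset.sum_range_add_sum_Ico _ hc]
      exact add_le_add hhead (hmid _)
    · have h1 : ∑ m ∈ Finset.range N', ‖b m‖ * g m ≤ ∑ m ∈ Finset.range N, ‖b m‖ * g m := by
        apply Finset.sum_le_sum_of_subset_of_nonneg
        · intro m hm
          rw [Finset.mem_range] at hm ⊢
          omega
        · intro m _ _
          exact mul_nonneg (norm_nonneg _) (hg0 m)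
      have h2 : 0 ≤ ∑ m ∈ Finset.Ico N N', ‖b m‖ := Finset.sum_nonneg fun _ _ => norm_nonneg _
      linarith
  have hfin : a / (2 * L) = 2 * (a / (4 * L)) := by field_simp; ring
  have h8 : 8 / (N : ℝ) = 8 * (1 / N) := by ring
  have h9 : 2 / (N : ℝ) = 2 * (1 / N) := by ring
  rw [h8] at hN8
  rw [h9] at hsplit
  have h10 : 0 < 1 / (N : ℝ) := by positivity
  linarith

end Pool.Agent.W677.MB
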