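import Pool.Agent.W677.MB6

set_option autoImplicit false

/-! # Laurent coefficients: consequences of the lower bound on windows -/

namespace Pool.Agent.W677.MB

open Complex Metric Set Filter Topology Pool.Agent.H712R2 Pool.Agent.H713R2 N62a1eb23

theorem log_two_ge : (1 : ℝ) / 2 ≤ Real.log 2 := by
  have := Real.log_two_gt_d9
  linarith

theorem log_nat_ge {N : ℕ} (hN : 2 ≤ N) : Real.log 2 ≤ Real.log N :=
  Real.log_le_log (by norm_num) (by exact_mod_cast hN)

theorem windows {ψ : ℂ → ℂ} {b : ℕ → ℂ} (hψ : IsExteriorMap (multibrotSet 2) ψ)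
    (hb : HasLaurent ψ b) (p : ℕ) {C : ℝ} (hC : 0 < C)
    (hnear : ∀ ρ : ℝ, 0 < ρ → ρ ≤ 1 → ∃ z : ℂ, 1 < ‖z‖ ∧ ‖ψ z + 3 / 4‖ ≤ ρ ∧
      Real.log (1 / (‖z‖ - 1)) ≤ C / ρ ^ p) :
    ∃ c A : ℝ, 0 < c ∧ 0 < A ∧ ∀ N : ℕ, 2 ≤ N → ∀ n : ℕ, Real.exp (A * Real.log N ^ p) ≤ n →
      c / Real.log N ≤ ∑ m ∈ Finset.Ico N n, ‖b m‖ := by
  obtain ⟨a₀, ha₀, hdist₀⟩ := dist34
  obtain ⟨a, haa⟩ : ∃ a, a = min a₀ (1 / 2) := ⟨_, rfl⟩
  have ha : 0 < a := by rw [haa]; positivity
  have ha1 : a ≤ 1 / 2 := by rw [haa]; exact min_le_right _ _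
  have hdist : ∀ z : ℂ, 1 < ‖z‖ → ‖z‖ ≤ 2 →
      a ≤ ‖ψ z + 3 / 4‖ * (1 + Real.log (1 / (‖z‖ - 1))) := fun z h1 h2 =>
    (by rw [haa]; exact min_le_left _ _ : a ≤ a₀).trans (hdist₀ ψ hψ z h1 h2)
  have hl2 := log_two_ge
  -- the threshold
  obtain ⟨N₀, hN₀⟩ : ∃ N₀ : ℕ, ∀ N : ℕ, N₀ ≤ N →
      8 / (N : ℝ) ≤ a / (4 * (1 + 3 * Real.log N)) := by
    have h1 := Real.isLittleO_log_id_atTop.def (show (0 : ℝ) < a / 200 by positivity)
    have h2 : ∀ᶠ x : ℝ in atTop, 100 / a ≤ x := eventually_ge_atTop _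
    have h3 : ∀ᶠ x : ℝ in atTop, 1 ≤ x := eventually_ge_atTop _
    have h4 := (tendsto_natCast_atTop_atTop (R := ℝ)).eventually (h1.and (h2.and h3))
    obtain ⟨N₀, hN₀⟩ := eventually_atTop.1 h4
    refine ⟨N₀, fun N hN => ?_⟩
    obtain ⟨b1, b2, b3⟩ := hN₀ N hN
    have hlN : 0 ≤ Real.log N := Real.log_nonneg b3
    simp only [id] at b1
    rw [Real.norm_of_nonneg hlN, Real.norm_of_nonneg (by linarith)] at b1
    rw [div_le_iff₀ ha] at b2
    rw [div_le_div_iff₀ (by linarith) (by positivity)]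
    linarith
  obtain ⟨N₁, hN₁⟩ : ∃ N₁ : ℕ, N₁ = max N₀ 2 := ⟨_, rfl⟩
  have hN₁2 : 2 ≤ N₁ := by rw [hN₁]; exact le_max_right _ _
  obtain ⟨A, hA⟩ : ∃ A : ℝ, A = 2 * (C * (10 / a) ^ p) + 2 * 2 ^ p := ⟨_, rfl⟩
  have hA0 : 0 < A := by rw [hA]; positivity
  have hbig : ∀ N : ℕ, N₁ ≤ N → ∀ n : ℕ, Real.exp (A * Real.log N ^ p) ≤ n →
      a / 20 / Real.log N ≤ ∑ m ∈ Finset.Ico N n, ‖b m‖ := by
    intro N hN n hn
    have hN2 : 2 ≤ N := by omega
    have hlN := log_nat_ge hN2
    have hlog0 : 0 < Real.log N := by linarith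
    have hL : 1 + 3 * Real.log N ≤ 5 * Real.log N := by linarith
    have hL0 : 1 ≤ 1 + 3 * Real.log N := by linarith
    have hρ1 : a / (2 * (1 + 3 * Real.log N)) ≤ 1 := by
      rw [div_le_one (by positivity)]
      linarith
    have h1 := window_one hψ hb ha ha1 hdist (show 1 ≤ N by omega)
      (hN₀ N ((by rw [hN₁]; exact le_max_left _ _ : N₀ ≤ N₁).trans hN))
      (hnear _ (by positivity) hρ1) (N' := n) (by
        refine le_trans ?_ hn
        have e1 : C / (a / (2 * (1 + 3 * Real.log N))) ^ p =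
            C * (2 * (1 + 3 * Real.log N) / a) ^ p := by
          rw [div_pow, div_pow]
          field_simp
        have e2 : (2 * (1 + 3 * Real.log N) / a) ^ p ≤ (10 / a) ^ p * Real.log N ^ p := by
          rw [← mul_pow]
          apply pow_le_pow_left₀ (by positivity)
          rw [div_mul_eq_mul_div]
          apply div_le_div_of_nonneg_right _ ha.le
          linarith
        have e3 : C * (2 * (1 + 3 * Real.log N) / a) ^ p ≤
            C * ((10 / a) ^ p * Real.log N ^ p) := mul_le_mul_of_nonneg_left e2 hC.le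
        have e4 : (1 : ℝ) ≤ 2 ^ p * Real.log N ^ p := by
          rw [← mul_pow]
          apply one_le_pow₀
          linarith
        have e5 : (4 : ℝ) ≤ Real.exp 2 := by
          have h7 := Real.exp_one_gt_d9
          have h8 : Real.exp 2 = Real.exp 1 * Real.exp 1 := by rw [← Real.exp_add]; norm_num
          rw [h8]
          nlinarith
        rw [e1]
        calc 4 * Real.exp (2 * (C * (2 * (1 + 3 * Real.log N) / a) ^ p))
            ≤ Real.exp 2 * Real.exp (2 * (C * (2 * (1 + 3 * Real.log N) / a) ^ p)) :=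
              mul_le_mul_of_nonneg_right e5 (Real.exp_pos _).le
          _ = Real.exp (2 + 2 * (C * (2 * (1 + 3 * Real.log N) / a) ^ p)) := by
              rw [← Real.exp_add]
          _ ≤ Real.exp (A * Real.log N ^ p) := by
              apply Real.exp_le_exp.2
              rw [hA]
              nlinarith)
    refine le_trans ?_ h1
    rw [div_div, div_le_div_iff₀ (by positivity) (by positivity)]
    nlinarith
  obtain ⟨l₁, hl₁⟩ : ∃ l₁, l₁ = Real.log N₁ := ⟨_, rfl⟩
  have hl₁2 : Real.log 2 ≤ l₁ := by rw [hl₁]; exact log_nat_ge hN₁2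
  have hl₁0 : 0 < l₁ := by linarith
  have hq : 1 ≤ l₁ / Real.log 2 := by
    rw [one_le_div (by linarith)]
    exact hl₁2
  refine ⟨a / 20 * (Real.log 2 / l₁), A * (l₁ / Real.log 2) ^ p, by positivity, by positivity, ?_⟩
  intro N hN n hn
  have hlN := log_nat_ge hN
  have hlog0 : 0 < Real.log N := by linarith
  rcases le_or_gt N₁ N with h | h
  · refine le_trans ?_ (hbig N h n ?_)
    · apply div_le_div_of_nonneg_right _ hlog0.le
      apply mul_le_of_le_one_right (by positivity)
      rw [div_le_one hl₁0]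
      exact hl₁2
    · refine le_trans ?_ hn
      apply Real.exp_le_exp.2
      apply mul_le_mul_of_nonneg_right _ (by positivity)
      exact le_mul_of_one_le_right hA0.le (one_le_pow₀ hq)
  · have h1 := hbig N₁ le_rfl n (by
      refine le_trans ?_ hn
      apply Real.exp_le_exp.2
      rw [mul_assoc]
      apply mul_le_mul_of_nonneg_left _ hA0.le
      rw [← mul_pow, ← hl₁]
      apply pow_le_pow_left₀ hl₁0.le
      rw [div_mul_eq_mul_div, le_div_iff₀ (by linarith)]
      exact mul_le_mul_of_nonneg_left hlN hl₁0.le)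
    have h2 : ∑ m ∈ Finset.Ico N₁ n, ‖b m‖ ≤ ∑ m ∈ Finset.Ico N n, ‖b m‖ := by
      apply Finset.sum_le_sum_of_subset_of_nonneg
      · exact Finset.Ico_subset_Ico h.le le_rfl
      · intro m _ _
        exact norm_nonneg _
    refine le_trans ?_ (h1.trans h2)
    rw [← hl₁, div_le_div_iff₀ hlog0 hl₁0]
    have e : a / 20 * (Real.log 2 / l₁) * l₁ = a / 20 * Real.log 2 := by field_simp
    rw [e]
    exact mul_le_mul_of_nonneg_left hlN (by positivity)

theorem harm_le {N n : ℕ} (hN : 1 ≤ N) (hn : N ≤ n) :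
    ∑ m ∈ Finset.Ico N n, 1 / (m : ℝ) ≤ 2 * Real.log n := by
  have key : ∀ k : ℕ, ∑ m ∈ Finset.Ico N (N + k), 1 / (m : ℝ) ≤ 2 * Real.log ((N + k : ℕ) : ℝ) := by
    intro k
    induction k with
    | zero =>
      simp only [add_zero, Finset.Ico_self, Finset.sum_empty]
      have : 0 ≤ Real.log (N : ℝ) := Real.log_nonneg (by exact_mod_cast hN)
      linarith
    | succ k ih =>
      rw [← add_assoc, Finset.sum_Ico_succ_top (by omega)]
      obtain ⟨x, hx⟩ : ∃ x : ℝ, x = ((N + k : ℕ) : ℝ) := ⟨_, rfl⟩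
      have hx1 : 1 ≤ x := by rw [hx]; exact_mod_cast (show 1 ≤ N + k by omega)
      rw [← hx] at ih ⊢
      push_cast at hx ⊢
      rw [show (N : ℝ) + k + 1 = x + 1 by rw [hx]]
      have h1 : 1 / x ≤ 2 * Real.log ((x + 1) / x) := by
        have h2 := Real.one_sub_inv_le_log_of_pos (show 0 < (x + 1) / x by positivity)
        have h3 : 1 - ((x + 1) / x)⁻¹ = 1 / (x + 1) := by
          rw [inv_div]
          field_simp
          ring
        rw [h3] at h2
        have h4 : 1 / x ≤ 2 * (1 / (x + 1)) := by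
          rw [mul_one_div, div_le_div_iff₀ (by positivity) (by positivity)]
          linarith
        linarith
      rw [Real.log_div (by positivity) (by positivity)] at h1
      linarith
  obtain ⟨k, rfl⟩ := Nat.exists_eq_add_of_le hn
  exact key k

theorem logsum_le {N n : ℕ} (hN : 2 ≤ N) (hn : N ≤ n) :
    ∑ m ∈ Finset.Ico N n, 1 / ((m : ℝ) * Real.log m ^ 3) ≤ 4 / Real.log N ^ 2 := by
  have key : ∀ k : ℕ, ∑ m ∈ Finset.Ico N (N + k), 1 / ((m : ℝ) * Real.log m ^ 3) ≤
      4 / Real.log N ^ 2 - 4 / Real.log ((N + k : ℕ) : ℝ) ^ 2 := by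
    intro k
    induction k with
    | zero => simp
    | succ k ih =>
      rw [← add_assoc, Finset.sum_Ico_succ_top (by omega)]
      obtain ⟨x, hx⟩ : ∃ x : ℝ, x = ((N + k : ℕ) : ℝ) := ⟨_, rfl⟩
      have hx2 : 2 ≤ x := by rw [hx]; exact_mod_cast (show 2 ≤ N + k by omega)
      rw [← hx] at ih ⊢
      have hx1 : ((N + k + 1 : ℕ) : ℝ) = x + 1 := by rw [hx]; push_cast; ring
      rw [hx1]
      have hp0 : 0 < Real.log x := Real.log_pos (by linarith)
      have hpq : Real.log x ≤ Real.log (x + 1) := Real.log_le_log (by linarith) (by linarith)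
      have hq2 : Real.log (x + 1) ≤ 2 * Real.log x := by
        have h1 : Real.log (x + 1) ≤ Real.log (x ^ 2) :=
          Real.log_le_log (by linarith) (by nlinarith)
        rw [Real.log_pow] at h1
        push_cast at h1
        exact h1
      have hd : 1 / (2 * x) ≤ Real.log (x + 1) - Real.log x := by
        rw [← Real.log_div (by positivity) (by positivity)]
        have h2 := Real.one_sub_inv_le_log_of_pos (show 0 < (x + 1) / x by positivity)
        have h3 : 1 - ((x + 1) / x)⁻¹ = 1 / (x + 1) := by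
          rw [inv_div]
          field_simp
          ring
        rw [h3] at h2
        refine le_trans ?_ h2
        apply one_div_le_one_div_of_le (by positivity)
        linarith
      obtain ⟨p, hp⟩ : ∃ p, p = Real.log x := ⟨_, rfl⟩
      obtain ⟨q, hq⟩ : ∃ q, q = Real.log (x + 1) := ⟨_, rfl⟩
      rw [← hp] at hp0 hpq hq2 hd ih ⊢
      rw [← hq] at hpq hq2 hd ⊢
      have hq0 : 0 < q := by linarith
      have h4 : 1 / (x * p ^ 3) ≤ 4 / p ^ 2 - 4 / q ^ 2 := by
        have e : 4 / p ^ 2 - 4 / q ^ 2 = 4 * ((q - p) * (q + p)) / (p ^ 2 * q ^ 2) := by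
          field_simp
          ring
        rw [e]
        have h5 : 4 * (1 / (2 * x) * (2 * p)) / (p ^ 2 * (2 * p) ^ 2) ≤
            4 * ((q - p) * (q + p)) / (p ^ 2 * q ^ 2) := by
          apply div_le_div₀
          · have : 0 ≤ (q - p) * (q + p) := mul_nonneg (by linarith) (by linarith)
            linarith
          · apply mul_le_mul_of_nonneg_left _ (by norm_num)
            apply mul_le_mul hd (by linarith) (by linarith) (by linarith)
          · positivity
          · apply mul_le_mul_of_nonneg_left _ (by positivity)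
            exact pow_le_pow_left₀ hq0.le hq2 2
        refine le_trans (le_of_eq ?_) h5
        field_simp
        norm_num
      linarith
  obtain ⟨k, rfl⟩ := Nat.exists_eq_add_of_le hn
  have := key k
  have h2 : 0 ≤ 4 / Real.log ((N + k : ℕ) : ℝ) ^ 2 := by positivity
  linarith

end Pool.Agent.W677.MB
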