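import Pool.Agent.W677.MB7

set_option autoImplicit false

/-! # Laurent coefficients: final forms -/

namespace Pool.Agent.W677.MB

open Complex Metric Set Filter Topology Pool.Agent.H712R2 Pool.Agent.H713R2 N62a1eb23

theorem sq_of_window {b : ℕ → ℂ} {c D : ℝ} (hc : 0 < c) {p : ℕ} {N n : ℕ} (hN : 2 ≤ N)
    (hn : N ≤ n) (hlog : Real.log n ≤ D * Real.log N ^ p)
    (h : c / Real.log N ≤ ∑ m ∈ Finset.Ico N n, ‖b m‖) :
    c ^ 2 / (2 * D) / Real.log N ^ (p + 2) ≤ ∑ m ∈ Finset.Ico N n, (m : ℝ) * ‖b m‖ ^ 2 := by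
  have hl2 := log_two_ge
  have hlN := log_nat_ge hN
  have hlog0 : 0 < Real.log N := by linarith
  have hlogn : 0 < Real.log n := by
    have := log_nat_ge (hN.trans hn)
    linarith
  have hD : 0 < D := by
    by_contra hcon
    push Not at hcon
    have : D * Real.log N ^ p ≤ 0 := mul_nonpos_of_nonpos_of_nonneg hcon (by positivity)
    linarith
  obtain ⟨X, hX⟩ : ∃ X, X = ∑ m ∈ Finset.Ico N n, (m : ℝ) * ‖b m‖ ^ 2 := ⟨_, rfl⟩
  have hX0 : 0 ≤ X := by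
    rw [hX]
    exact Finset.sum_nonneg fun m _ => by positivity
  have h1 : (∑ m ∈ Finset.Ico N n, ‖b m‖) ^ 2 ≤ X * ∑ m ∈ Finset.Ico N n, 1 / (m : ℝ) := by
    rw [hX]
    apply Finset.sum_sq_le_sum_mul_sum_of_sq_eq_mul
    · intro m _
      positivity
    · intro m _
      positivity
    · intro m hm
      have : (m : ℝ) ≠ 0 := by
        have := (Finset.mem_Ico.1 hm).1
        exact_mod_cast (show m ≠ 0 by omega)
      field_simp
  have h2 := harm_le (show 1 ≤ N by omega) hn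
  have h3 : (c / Real.log N) ^ 2 ≤ (∑ m ∈ Finset.Ico N n, ‖b m‖) ^ 2 :=
    pow_le_pow_left₀ (by positivity) h 2
  have h4 : (c / Real.log N) ^ 2 ≤ X * (2 * (D * Real.log N ^ p)) :=
    h3.trans (h1.trans (mul_le_mul_of_nonneg_left (by linarith) hX0))
  rw [← hX, div_div, div_le_iff₀ (by positivity)]
  rw [div_pow, div_le_iff₀ (by positivity)] at h4
  calc c ^ 2 ≤ X * (2 * (D * Real.log N ^ p)) * Real.log N ^ 2 := h4
    _ = X * (2 * D * Real.log N ^ (p + 2)) := by rw [pow_add]; ring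

theorem log_sq_of_window {b : ℕ → ℂ} {c : ℝ} (hc : 0 < c) {N n : ℕ} (hN : 2 ≤ N)
    (hn : N ≤ n) (h : c / Real.log N ≤ ∑ m ∈ Finset.Ico N n, ‖b m‖) :
    c ^ 2 / 4 ≤ ∑ m ∈ Finset.Ico N n, (m : ℝ) * ‖b m‖ ^ 2 * Real.log m ^ 3 := by
  have hl2 := log_two_ge
  have hlN := log_nat_ge hN
  have hlog0 : 0 < Real.log N := by linarith
  obtain ⟨X, hX⟩ : ∃ X, X = ∑ m ∈ Finset.Ico N n, (m : ℝ) * ‖b m‖ ^ 2 * Real.log m ^ 3 := ⟨_, rfl⟩
  have hlm : ∀ m ∈ Finset.Ico N n, 0 < Real.log m := by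
    intro m hm
    have h1 := (Finset.mem_Ico.1 hm).1
    have := log_nat_ge (hN.trans h1)
    linarith
  have hX0 : 0 ≤ X := by
    rw [hX]
    exact Finset.sum_nonneg fun m hm => by
      have := hlm m hm
      positivity
  have h1 : (∑ m ∈ Finset.Ico N n, ‖b m‖) ^ 2 ≤
      X * ∑ m ∈ Finset.Ico N n, 1 / ((m : ℝ) * Real.log m ^ 3) := by
    rw [hX]
    apply Finset.sum_sq_le_sum_mul_sum_of_sq_eq_mul
    · intro m hm
      have := hlm m hm
      positivity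
    · intro m hm
      have := hlm m hm
      positivity
    · intro m hm
      have h2 := hlm m hm
      have : (m : ℝ) ≠ 0 := by
        have := (Finset.mem_Ico.1 hm).1
        exact_mod_cast (show m ≠ 0 by omega)
      field_simp
  have h2 := logsum_le hN hn
  have h3 : (c / Real.log N) ^ 2 ≤ (∑ m ∈ Finset.Ico N n, ‖b m‖) ^ 2 :=
    pow_le_pow_left₀ (by positivity) h 2
  have h4 : (c / Real.log N) ^ 2 ≤ X * (4 / Real.log N ^ 2) :=
    h3.trans (h1.trans (mul_le_mul_of_nonneg_left h2 hX0))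
  rw [← hX]
  rw [div_pow, mul_div_assoc', div_le_div_iff_of_pos_right (by positivity)] at h4
  linarith

theorem not_summable_of_window {b : ℕ → ℂ} {c : ℝ} (hc : 0 < c) {n : ℕ → ℕ}
    (h : ∀ N : ℕ, 2 ≤ N → c ≤ ∑ m ∈ Finset.Ico N (n N), (m : ℝ) * ‖b m‖ ^ 2 * Real.log m ^ 3) :
    ¬ Summable (fun m : ℕ => (m : ℝ) * ‖b m‖ ^ 2 * Real.log m ^ 3) := by
  intro hs
  have h1 := tendsto_sum_nat_add (fun m : ℕ => (m : ℝ) * ‖b m‖ ^ 2 * Real.log m ^ 3)
  obtain ⟨N, hN, hN2⟩ := ((h1.eventually (gt_mem_nhds hc)).and (eventually_ge_atTop 2)).exists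
  have h2 := h N hN2
  have h0 : ∀ m : ℕ, 0 ≤ (m : ℝ) * ‖b m‖ ^ 2 * Real.log m ^ 3 := by
    intro m
    rcases Nat.eq_zero_or_pos m with rfl | hm
    · simp
    · have : 0 ≤ Real.log m := Real.log_nonneg (by exact_mod_cast hm)
      positivity
  have h3 : ∑ m ∈ Finset.Ico N (n N), (m : ℝ) * ‖b m‖ ^ 2 * Real.log m ^ 3 ≤
      ∑' m : ℕ, ((m + N : ℕ) : ℝ) * ‖b (m + N)‖ ^ 2 * Real.log ((m + N : ℕ) : ℝ) ^ 3 := by
    rw [Finset.sum_Ico_eq_sum_range]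
    have h4 := (summable_nat_add_iff (f := fun m : ℕ => (m : ℝ) * ‖b m‖ ^ 2 * Real.log m ^ 3) N).2 hs
    have h5 := h4.sum_le_tsum (Finset.range (n N - N)) (fun m _ => h0 (m + N))
    refine le_trans (le_of_eq ?_) h5
    apply Finset.sum_congr rfl
    intro m _
    rw [add_comm N m]
  linarith

/-- if the exterior map extends continuously, its modulus of continuity is at least `1 / log` -/
theorem ext34 : ∃ c : ℝ, 0 < c ∧ ∀ ψ F : ℂ → ℂ, IsExteriorMap (multibrotSet 2) ψ →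
    ContinuousOn F {z | 1 ≤ ‖z‖} → EqOn F ψ {z | 1 < ‖z‖} →
    ∃ ζ : ℂ, ‖ζ‖ = 1 ∧ F ζ = -3 / 4 ∧ ∀ r : ℝ, 1 < r → r ≤ 2 →
      c ≤ ‖F (r * ζ) - F ζ‖ * (1 + Real.log (1 / (r - 1))) := by
  obtain ⟨a, ha, hdist⟩ := dist34
  refine ⟨a, ha, ?_⟩
  intro ψ F hψ hF hE
  have hex : ∀ k : ℕ, ∃ z : ℂ, 1 < ‖z‖ ∧ ‖z‖ ≤ 2 ∧ ‖ψ z + 3 / 4‖ ≤ 1 / (4 * ((k : ℝ) + 1)) := by
    intro k
    have h0 : (0 : ℝ) ≤ k := Nat.cast_nonneg k
    have h1 : 1 / (4 * ((k : ℝ) + 1)) ≤ 1 / 4 := by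
      apply one_div_le_one_div_of_le (by norm_num)
      linarith
    obtain ⟨z, h2, h3, -⟩ := near34 hψ (ρ := 1 / (4 * ((k : ℝ) + 1))) (by positivity)
      (h1.trans (by norm_num))
    exact ⟨z, h2, norm_le_two_of_near hψ h2 (h3.trans h1), h3⟩
  choose z hz1 hz2 hz3 using hex
  have hK : IsCompact ({w : ℂ | 1 ≤ ‖w‖} ∩ closedBall 0 2) := by
    apply (isCompact_closedBall (0 : ℂ) 2).inter_left
    exact isClosed_le continuous_const continuous_norm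
  obtain ⟨ζ, hζ, φ, hφ, hlim⟩ := hK.tendsto_subseq (x := z) (fun k => ⟨(hz1 k).le, by
    rw [mem_closedBall_zero_iff]
    exact hz2 k⟩)
  have h1 : Tendsto (fun k => F (z (φ k))) atTop (𝓝 (F ζ)) := by
    have h2 := (hF ζ hζ.1).tendsto
    refine h2.comp ?_
    rw [tendsto_nhdsWithin_iff]
    exact ⟨hlim, Eventually.of_forall fun k => (hz1 _).le⟩
  have h2 : Tendsto (fun k => ψ (z k) + 3 / 4) atTop (𝓝 0) := by
    rw [tendsto_zero_iff_norm_tendsto_zero]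
    apply squeeze_zero (fun k => norm_nonneg _) hz3
    have h3 := tendsto_one_div_add_atTop_nhds_zero_nat (𝕜 := ℝ)
    have h4 := h3.const_mul (1 / 4 : ℝ)
    rw [mul_zero] at h4
    refine h4.congr fun k => ?_
    have : (k : ℝ) + 1 ≠ 0 := by positivity
    field_simp
  have h3 : Tendsto (fun k => F (z (φ k))) atTop (𝓝 (-3 / 4)) := by
    have h4 := (h2.comp hφ.tendsto_atTop).sub_const (3 / 4 : ℂ)
    rw [zero_sub] at h4
    rw [show (-3 / 4 : ℂ) = -(3 / 4) by ring]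
    refine h4.congr fun k => ?_
    simp only [Function.comp]
    rw [hE (hz1 (φ k))]
    ring
  have hFζ : F ζ = -3 / 4 := tendsto_nhds_unique h1 h3
  have hζ1 : ‖ζ‖ = 1 := by
    by_contra hcon
    have h4 : 1 < ‖ζ‖ := lt_of_le_of_ne hζ.1 (Ne.symm hcon)
    have h5 : ψ ζ ∈ (multibrotSet 2)ᶜ := by
      rw [← hψ.image]
      exact ⟨ζ, h4, rfl⟩
    rw [← hE h4, hFζ] at h5
    exact h5 mem34
  refine ⟨ζ, hζ1, hFζ, ?_⟩
  intro r hr1 hr2
  have hn : ‖(r : ℂ) * ζ‖ = r := by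
    rw [norm_mul, hζ1, mul_one, Complex.norm_real, Real.norm_of_nonneg (by linarith)]
  have h4 := hdist ψ hψ (r * ζ) (by rw [hn]; exact hr1) (by rw [hn]; exact hr2)
  rw [hn] at h4
  have h5 : F (r * ζ) = ψ (r * ζ) := hE (by
    show 1 < ‖(r : ℂ) * ζ‖
    rw [hn]
    exact hr1)
  rw [h5, hFζ]
  have e : ψ (r * ζ) - -3 / 4 = ψ (r * ζ) + 3 / 4 := by ring
  rw [e]
  exact h4

end Pool.Agent.W677.MB
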