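import Pool.Agent.W677.MB8

set_option autoImplicit false

/-! # The passage through the gate near `-3/4`: tools -/

namespace Pool.Agent.W677.MB

open Complex Metric Set Filter Topology Pool.Agent.H712R2 Pool.Agent.H713R2 N62a1eb23

/-- the critical orbit relative to the fixed point `-1/2 + η`, parameter `-3/4 + 2 η - η ^ 2` -/
noncomputable def vv (k : ℕ) (η : ℂ) : ℂ := P 2 k (-3 / 4 + (2 * η - η ^ 2)) + 1 / 2 - η

theorem vv_two (k : ℕ) (η : ℂ) {l : ℂ} (hl : l = -1 + 2 * η) :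
    vv (k + 2) η = vv k η * (l ^ 2 + l * (1 + l) * vv k η + 2 * l * vv k η ^ 2 + vv k η ^ 3) := by
  unfold vv
  rw [P_succ, P_succ, hl]
  ring

theorem vv_diff (k : ℕ) : Differentiable ℂ (vv k) := by
  unfold vv
  have h1 := differentiable_P 2 k
  have h2 : Differentiable ℂ (fun η : ℂ => -3 / 4 + (2 * η - η ^ 2)) := by fun_prop
  exact ((h1.comp h2).add_const _).sub differentiable_id

theorem step2 {l v : ℂ} (hl : ‖l‖ = 1) (hv : v ≠ 0) (hv1 : ‖v‖ ≤ 1 / 10)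
    (hM : ‖1 + l‖ ≤ ‖v‖) :
    v * (l ^ 2 + l * (1 + l) * v + 2 * l * v ^ 2 + v ^ 3) ≠ 0 ∧
    ‖l ^ 4 * ((v * (l ^ 2 + l * (1 + l) * v + 2 * l * v ^ 2 + v ^ 3)) ^ 2)⁻¹ - (v ^ 2)⁻¹ + 4 / l‖ ≤
      2 * (‖1 + l‖ / ‖v‖) + 6 * ‖v‖ := by
  have hn : 0 < ‖v‖ := norm_pos_iff.2 hv
  have hl0 : l ≠ 0 := by
    intro h
    rw [h, norm_zero] at hl
    norm_num at hl
  obtain ⟨τ, hτ⟩ : ∃ τ, τ = ((1 + l) / v * l + 2 * l + v) / l ^ 2 := ⟨_, rfl⟩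
  obtain ⟨σ, hσ⟩ : ∃ σ, σ = τ * v ^ 2 := ⟨_, rfl⟩
  have hMv : ‖1 + l‖ / ‖v‖ ≤ 1 := by
    rw [div_le_one hn]
    exact hM
  have hτn : ‖τ‖ ≤ 31 / 10 := by
    rw [hτ, norm_div, norm_pow, hl, one_pow, div_one]
    refine (norm_add_le _ _).trans ?_
    have h1 := norm_add_le ((1 + l) / v * l) (2 * l)
    rw [norm_mul, norm_div, norm_mul, hl, Complex.norm_ofNat] at h1
    linarith
  have hσn : ‖σ‖ ≤ 31 / 10 * ‖v‖ ^ 2 := by
    rw [hσ, norm_mul, norm_pow]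
    exact mul_le_mul_of_nonneg_right hτn (by positivity)
  have hσn2 : ‖σ‖ ≤ 31 / 1000 := by nlinarith
  have h1σ : 969 / 1000 ≤ ‖1 + σ‖ := by
    have := norm_sub_norm_le (1 : ℂ) (-σ)
    rw [norm_one, norm_neg, sub_neg_eq_add] at this
    linarith
  have h1σ0 : 1 + σ ≠ 0 := by
    intro h
    rw [h, norm_zero] at h1σ
    linarith
  have hw : v * (l ^ 2 + l * (1 + l) * v + 2 * l * v ^ 2 + v ^ 3) = v * (l ^ 2 * (1 + σ)) := by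
    rw [hσ, hτ]
    field_simp
    ring
  rw [hw]
  refine ⟨mul_ne_zero hv (mul_ne_zero (pow_ne_zero 2 hl0) h1σ0), ?_⟩
  have e1 : l ^ 4 * ((v * (l ^ 2 * (1 + σ))) ^ 2)⁻¹ - (v ^ 2)⁻¹ =
      -2 * τ + τ * σ * (3 + 2 * σ) / (1 + σ) ^ 2 := by
    have hτσ : τ = σ * (v ^ 2)⁻¹ := by
      rw [hσ]
      field_simp
    have e2 : l ^ 4 * ((v * (l ^ 2 * (1 + σ))) ^ 2)⁻¹ = (v ^ 2)⁻¹ * ((1 + σ) ^ 2)⁻¹ := by
      field_simp
    rw [e2]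
    have e3 : -2 * τ + τ * σ * (3 + 2 * σ) / (1 + σ) ^ 2 =
        (v ^ 2)⁻¹ * (-2 * σ + σ * σ * (3 + 2 * σ) / (1 + σ) ^ 2) := by
      rw [hτσ]
      ring
    rw [e3, ← mul_sub_one]
    congr 1
    rw [eq_comm, ← sub_eq_zero]
    have h2 : (1 + σ) ^ 2 ≠ 0 := pow_ne_zero 2 h1σ0
    have e4 : -2 * σ + σ * σ * (3 + 2 * σ) / (1 + σ) ^ 2 - (((1 + σ) ^ 2)⁻¹ - 1) =
        ((-2 * σ + 1) * (1 + σ) ^ 2 + σ * σ * (3 + 2 * σ) - 1) / (1 + σ) ^ 2 := by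
      field_simp
      ring
    rw [e4]
    have e5 : (-2 * σ + 1) * (1 + σ) ^ 2 + σ * σ * (3 + 2 * σ) - 1 = 0 := by ring
    rw [e5, zero_div]
  have e2 : -2 * τ + 4 / l = -2 * ((1 + l) / v / l) - 2 * (v / l ^ 2) := by
    rw [hτ]
    field_simp
    ring
  have e3 : l ^ 4 * ((v * (l ^ 2 * (1 + σ))) ^ 2)⁻¹ - (v ^ 2)⁻¹ + 4 / l =
      -2 * ((1 + l) / v / l) - 2 * (v / l ^ 2) + τ * σ * (3 + 2 * σ) / (1 + σ) ^ 2 := by
    rw [e1, ← e2]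
    ring
  rw [e3]
  have n1 : ‖-2 * ((1 + l) / v / l)‖ = 2 * (‖1 + l‖ / ‖v‖) := by
    rw [norm_mul, norm_neg, Complex.norm_ofNat, norm_div, norm_div, hl, div_one]
  have n2 : ‖2 * (v / l ^ 2)‖ = 2 * ‖v‖ := by
    rw [norm_mul, Complex.norm_ofNat, norm_div, norm_pow, hl, one_pow, div_one]
  have n3 : ‖τ * σ * (3 + 2 * σ) / (1 + σ) ^ 2‖ ≤ 4 * ‖v‖ := by
    rw [norm_div, norm_mul, norm_mul, norm_pow, div_le_iff₀ (by positivity)]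
    have h3 : ‖(3 : ℂ) + 2 * σ‖ ≤ 31 / 10 := by
      refine (norm_add_le _ _).trans ?_
      rw [norm_mul, Complex.norm_ofNat, Complex.norm_ofNat]
      linarith
    have h4 : ‖τ‖ * ‖σ‖ ≤ 31 / 10 * (31 / 10 * ‖v‖ ^ 2) :=
      mul_le_mul hτn hσn (norm_nonneg _) (by norm_num)
    have h5 : ‖τ‖ * ‖σ‖ * ‖(3 : ℂ) + 2 * σ‖ ≤ 31 / 10 * (31 / 10 * ‖v‖ ^ 2) * (31 / 10) :=
      mul_le_mul h4 h3 (norm_nonneg _) (by positivity)
    have h6 : (969 / 1000 : ℝ) ^ 2 ≤ ‖1 + σ‖ ^ 2 := pow_le_pow_left₀ (by norm_num) h1σ 2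
    have h7 : ‖v‖ ^ 2 ≤ 1 / 10 * ‖v‖ := by nlinarith
    have h8 : 4 * ‖v‖ * (969 / 1000 : ℝ) ^ 2 ≤ 4 * ‖v‖ * ‖1 + σ‖ ^ 2 :=
      mul_le_mul_of_nonneg_left h6 (by positivity)
    nlinarith
  have n4 := norm_add_le (-2 * ((1 + l) / v / l) - 2 * (v / l ^ 2))
    (τ * σ * (3 + 2 * σ) / (1 + σ) ^ 2)
  have n5 := norm_sub_le (-2 * ((1 + l) / v / l)) (2 * (v / l ^ 2))
  linarith

/-- a three circles estimate -/
theorem circles {f : ℂ → ℂ} (hf : Differentiable ℂ f) {s m : ℝ} {B T : ℕ} (hs : 0 < s)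
    (hm : 0 ≤ m) (hB : 2 ≤ B) (hT : 1 ≤ T)
    (h1 : ∀ x : ℂ, ‖x‖ ≤ s / B → ‖f x‖ ≤ m) (h2 : ∀ x : ℂ, ‖x‖ ≤ s * (B : ℝ) ^ 4 → ‖f x‖ ≤ 5)
    {x : ℂ} (hx : ‖x‖ ≤ s) : ‖f x‖ ≤ 2 * m * T + 10 / (T : ℝ) ^ 4 := by
  have hB0 : (0 : ℝ) < B := by exact_mod_cast (show 0 < B by omega)
  have hB2 : (2 : ℝ) ≤ B := by exact_mod_cast hB
  have hT0 : (0 : ℝ) < T := by exact_mod_cast (show 0 < T by omega)
  obtain ⟨n₀, hn₀⟩ : ∃ n₀, n₀ = Nat.log B T := ⟨_, rfl⟩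
  have hlow : B ^ n₀ ≤ T := by rw [hn₀]; exact Nat.pow_log_le_self B (by omega)
  have hhigh : T < B ^ (n₀ + 1) := by rw [hn₀]; exact Nat.lt_pow_succ_log_self (by omega) T
  have hlow' : (B : ℝ) ^ n₀ ≤ T := by exact_mod_cast hlow
  have hhigh' : (T : ℝ) ≤ (B : ℝ) ^ (n₀ + 1) := by exact_mod_cast hhigh.le
  have hcoef : ∀ (r C : ℝ), 0 < r → (∀ x : ℂ, ‖x‖ ≤ r → ‖f x‖ ≤ C) → ∀ k, ‖tc f k‖ ≤ C / r ^ k := by
    intro r C hr hC k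
    have h3 := Complex.norm_iteratedDeriv_le_of_forall_mem_sphere_norm_le k hr
      (hf.diffContOnCl (s := ball 0 r)) (fun z hz => hC z (by
        rw [mem_sphere_iff_norm, sub_zero] at hz
        exact hz.le))
    unfold tc
    rw [norm_mul, norm_inv, Complex.norm_natCast]
    have h4 : (0 : ℝ) < k.factorial := by exact_mod_cast k.factorial_pos
    rw [inv_mul_le_iff₀ h4]
    calc _ ≤ _ := h3
      _ = _ := by ring
  have hc1 := hcoef (s / B) m (by positivity) h1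
  have hc2 := hcoef (s * (B : ℝ) ^ 4) 5 (by positivity) h2
  have hsum := hasSum_tc (F := f) (r := s + 1) hf.differentiableOn (x := x) (by
    rw [mem_ball_zero_iff]
    linarith)
  obtain ⟨q, hq⟩ : ∃ q : ℝ, q = ((B : ℝ) ^ 4)⁻¹ := ⟨_, rfl⟩
  have hq0 : 0 < q := by rw [hq]; positivity
  have hq2 : q ≤ 1 / 2 := by
    rw [hq, inv_eq_one_div]
    apply one_div_le_one_div_of_le (by norm_num)
    nlinarith [pow_le_pow_left₀ (by norm_num) hB2 4]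
  have hb1 : ∀ k, ‖tc f k * x ^ k‖ ≤ m * (B : ℝ) ^ k := by
    intro k
    rw [norm_mul, norm_pow]
    calc ‖tc f k‖ * ‖x‖ ^ k ≤ m / (s / B) ^ k * s ^ k := by
          apply mul_le_mul (hc1 k) (pow_le_pow_left₀ (norm_nonneg _) hx k) (by positivity)
          positivity
      _ = m * (B : ℝ) ^ k := by
          rw [div_pow]
          field_simp
  have hb2 : ∀ k, ‖tc f k * x ^ k‖ ≤ 5 * q ^ k := by
    intro k
    rw [norm_mul, norm_pow]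
    calc ‖tc f k‖ * ‖x‖ ^ k ≤ 5 / (s * (B : ℝ) ^ 4) ^ k * s ^ k := by
          apply mul_le_mul (hc2 k) (pow_le_pow_left₀ (norm_nonneg _) hx k) (by positivity)
          positivity
      _ = 5 * q ^ k := by
          rw [hq, mul_pow, inv_pow]
          field_simp
  have hqs : Summable (fun k : ℕ => 5 * q ^ k) :=
    (summable_geometric_of_lt_one hq0.le (by linarith)).mul_left 5
  have hns : Summable (fun k => ‖tc f k * x ^ k‖) :=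
    Summable.of_nonneg_of_le (fun _ => norm_nonneg _) hb2 hqs
  have h3 : ‖f x‖ ≤ ∑' k, ‖tc f k * x ^ k‖ := by
    rw [← hsum.tsum_eq]
    exact norm_tsum_le_tsum_norm hns
  rw [← hns.sum_add_tsum_nat_add (n₀ + 1)] at h3
  have h4 : ∑ k ∈ Finset.range (n₀ + 1), ‖tc f k * x ^ k‖ ≤ 2 * m * T := by
    have h5 : ∀ n : ℕ, ∑ k ∈ Finset.range (n + 1), (B : ℝ) ^ k ≤ 2 * (B : ℝ) ^ n := by
      intro n
      induction n with
      | zero => norm_num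
      | succ n ih =>
        rw [Finset.sum_range_succ, pow_succ]
        have : 0 < (B : ℝ) ^ n := by positivity
        nlinarith
    calc ∑ k ∈ Finset.range (n₀ + 1), ‖tc f k * x ^ k‖
        ≤ ∑ k ∈ Finset.range (n₀ + 1), m * (B : ℝ) ^ k := Finset.sum_le_sum fun k _ => hb1 k
      _ = m * ∑ k ∈ Finset.range (n₀ + 1), (B : ℝ) ^ k := by rw [Finset.mul_sum]
      _ ≤ m * (2 * T) := by
          apply mul_le_mul_of_nonneg_left _ hm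
          linarith [h5 n₀]
      _ = 2 * m * T := by ring
  have h6 : ∑' k, ‖tc f (k + (n₀ + 1)) * x ^ (k + (n₀ + 1))‖ ≤ 10 / (T : ℝ) ^ 4 := by
    have h7 : ∑' k, ‖tc f (k + (n₀ + 1)) * x ^ (k + (n₀ + 1))‖ ≤
        ∑' k : ℕ, (5 * q ^ (n₀ + 1)) * q ^ k := by
      apply Summable.tsum_le_tsum
      · intro k
        refine (hb2 _).trans (le_of_eq ?_)
        rw [pow_add]
        ring
      · exact (summable_nat_add_iff (n₀ + 1)).2 hns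
      · exact (summable_geometric_of_lt_one hq0.le (by linarith)).mul_left _
    rw [tsum_mul_left, tsum_geometric_of_lt_one hq0.le (by linarith)] at h7
    have h8 : (1 - q)⁻¹ ≤ 2 := by
      rw [inv_le_comm₀ (by linarith) (by norm_num)]
      linarith
    have h9 : q ^ (n₀ + 1) ≤ 1 / (T : ℝ) ^ 4 := by
      rw [hq, inv_pow, ← pow_mul, mul_comm 4, pow_mul, inv_eq_one_div]
      apply one_div_le_one_div_of_le (by positivity)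
      exact pow_le_pow_left₀ hT0.le hhigh' 4
    calc _ ≤ _ := h7
      _ ≤ 5 * (1 / (T : ℝ) ^ 4) * 2 := by
          apply mul_le_mul (by linarith) h8 (inv_nonneg.2 (by linarith)) (by positivity)
      _ = 10 / (T : ℝ) ^ 4 := by ring
  linarith

/-- the start of the orbit -/
theorem start : ∃ (k₀ : ℕ) (R δ : ℝ), 1 ≤ R ∧ 0 < δ ∧ ∀ ε : ℂ, ‖ε‖ ≤ δ →
    P 2 k₀ (-3 / 4 + ε) + 1 / 2 ≠ 0 ∧ 400 ≤ (((P 2 k₀ (-3 / 4 + ε) + 1 / 2) ^ 2)⁻¹).re ∧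
    ‖((P 2 k₀ (-3 / 4 + ε) + 1 / 2) ^ 2)⁻¹‖ ≤ R := by
  obtain ⟨j₀, hj₀⟩ := (u_lim.eventually (gt_mem_nhds (show (0 : ℝ) < 1 / 30 by norm_num))).exists
  have hu0 := (u_bd j₀).1
  obtain ⟨k₀, hk₀⟩ : ∃ k₀, k₀ = 2 * j₀ := ⟨_, rfl⟩
  have hcP : ∀ k, Continuous fun ε : ℂ => P 2 k (-3 / 4 + ε) := fun k =>
    (continuous_P 2 k).comp (continuous_const.add continuous_id)
  have h00 : P 2 k₀ (-3 / 4 + 0) + 1 / 2 = (u j₀ : ℂ) := by rw [hk₀, add_zero, orbit_even]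
  have hne0 : P 2 k₀ (-3 / 4 + 0) + 1 / 2 ≠ 0 := by
    rw [h00]
    exact_mod_cast hu0.ne'
  have hcW : ContinuousAt (fun ε : ℂ => ((P 2 k₀ (-3 / 4 + ε) + 1 / 2) ^ 2)⁻¹) 0 :=
    (((hcP k₀).continuousAt.add_const _).pow 2).inv₀ (pow_ne_zero 2 hne0)
  have hW0 : ((P 2 k₀ (-3 / 4 + 0) + 1 / 2) ^ 2)⁻¹ = (((u j₀ ^ 2)⁻¹ : ℝ) : ℂ) := by
    rw [h00]
    push_cast
    rfl
  have hW0' : 900 < (u j₀ ^ 2)⁻¹ := by
    rw [lt_inv_comm₀ (by norm_num) (by positivity)]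
    have : u j₀ ^ 2 < (1 / 30) ^ 2 := pow_lt_pow_left₀ hj₀ hu0.le two_ne_zero
    norm_num at this ⊢
    exact this
  have ev1 : ∀ᶠ ε in 𝓝 (0 : ℂ), P 2 k₀ (-3 / 4 + ε) + 1 / 2 ≠ 0 :=
    ((hcP k₀).continuousAt.add_const _).eventually_ne hne0
  have ev2 : ∀ᶠ ε in 𝓝 (0 : ℂ), 400 < (((P 2 k₀ (-3 / 4 + ε) + 1 / 2) ^ 2)⁻¹).re := by
    have h1 : ContinuousAt (fun ε : ℂ => (((P 2 k₀ (-3 / 4 + ε) + 1 / 2) ^ 2)⁻¹).re) 0 :=
      continuous_re.continuousAt.comp hcW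
    apply h1.eventually_const_lt
    show 400 < (((P 2 k₀ (-3 / 4 + 0) + 1 / 2) ^ 2)⁻¹).re
    rw [hW0, Complex.ofReal_re]
    linarith
  have ev3 : ∀ᶠ ε in 𝓝 (0 : ℂ), ‖((P 2 k₀ (-3 / 4 + ε) + 1 / 2) ^ 2)⁻¹‖ < (u j₀ ^ 2)⁻¹ + 1 := by
    have h1 : ContinuousAt (fun ε : ℂ => ‖((P 2 k₀ (-3 / 4 + ε) + 1 / 2) ^ 2)⁻¹‖) 0 := hcW.norm
    apply h1.eventually_lt_const
    show ‖((P 2 k₀ (-3 / 4 + 0) + 1 / 2) ^ 2)⁻¹‖ < _
    rw [hW0, Complex.norm_real, Real.norm_of_nonneg (by positivity)]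
    linarith
  obtain ⟨δ₁, hδ₁, hδ⟩ := Metric.eventually_nhds_iff.1 (ev1.and (ev2.and ev3))
  refine ⟨k₀, (u j₀ ^ 2)⁻¹ + 1, δ₁ / 2, by linarith, by positivity, ?_⟩
  intro ε hε
  obtain ⟨a1, a2, a3⟩ := hδ (show dist ε 0 < δ₁ by rw [dist_zero_right]; linarith)
  exact ⟨a1, a2.le, a3.le⟩

theorem sum_sqrt_le (n : ℕ) :
    ∑ i ∈ Finset.range n, 1 / Real.sqrt ((i : ℝ) + 1) ≤ 2 * Real.sqrt n := by
  induction n with
  | zero => simp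
  | succ n ih =>
    rw [Finset.sum_range_succ]
    push_cast
    obtain ⟨a, ha⟩ : ∃ a, a = Real.sqrt (n : ℝ) := ⟨_, rfl⟩
    obtain ⟨b, hb⟩ : ∃ b, b = Real.sqrt ((n : ℝ) + 1) := ⟨_, rfl⟩
    have ha0 : 0 ≤ a := by rw [ha]; exact Real.sqrt_nonneg _
    have hb0 : 0 < b := by rw [hb]; exact Real.sqrt_pos.2 (by positivity)
    have ha2 : a ^ 2 = n := by rw [ha]; exact Real.sq_sqrt (Nat.cast_nonneg n)
    have hb2 : b ^ 2 = n + 1 := by rw [hb]; exact Real.sq_sqrt (by positivity)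
    rw [← ha] at ih
    rw [← hb]
    have h1 : 1 / b ≤ 2 * (b - a) := by
      rw [div_le_iff₀ hb0]
      nlinarith [sq_nonneg (b - a)]
    linarith

end Pool.Agent.W677.MB
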