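import Mathlib

set_option autoImplicit false

/-! # Two steps of a unicritical map near a fixed point of multiplier close to `-1` -/

namespace Pool.Agent.W677.MC

open Complex Metric Set Filter Topology

/-- the map `z ^ d + c` in the coordinate `z = α (1 + v)`, where `α` is a fixed point of
multiplier `L` -/
noncomputable def FF (d : ℕ) (L v : ℂ) : ℂ := L / d * ((1 + v) ^ d - 1)

noncomputable def aa (d : ℕ) : ℝ := (d.choose 2 : ℝ) / d
noncomputable def bb (d : ℕ) : ℝ := (d.choose 3 : ℝ) / d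
noncomputable def kap (d : ℕ) : ℝ := aa d ^ 2 - bb d

noncomputable def RR (d : ℕ) (v : ℂ) : ℂ :=
  ∑ i ∈ Finset.range d, ((d.choose (i + 4) : ℂ) / d) * v ^ i

noncomputable def EE (d : ℕ) (v : ℂ) : ℂ := 1 + aa d * v + bb d * v ^ 2 + v ^ 3 * RR d v

theorem kap_pos {d : ℕ} (hd : 2 ≤ d) : 0 < kap d := by
  have hdr : (2 : ℝ) ≤ d := by exact_mod_cast hd
  have h2 : (d.choose 2 : ℝ) = d * (d - 1) / 2 := Nat.cast_choose_two ℝ d
  have h3 : (d.choose 3 : ℝ) * 3 = d.choose 2 * (d - 2) := by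
    have h := Nat.choose_succ_right_eq d 2
    have h' : ((d.choose (2 + 1) * (2 + 1) : ℕ) : ℝ) = ((d.choose 2 * (d - 2) : ℕ) : ℝ) := by
      exact_mod_cast h
    rw [Nat.cast_mul, Nat.cast_mul, Nat.cast_sub hd] at h'
    push_cast at h'
    norm_num at h'
    exact h'
  have ha : aa d = (d - 1) / 2 := by
    unfold aa
    rw [h2]
    field_simp
  have hb : bb d = (d - 1) * (d - 2) / 6 := by
    unfold bb
    have : (d.choose 3 : ℝ) = d * (d - 1) * (d - 2) / 6 := by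
      rw [h2] at h3
      linarith
    rw [this]
    field_simp
  unfold kap
  rw [ha, hb]
  nlinarith

theorem FF_eq {d : ℕ} (hd : 1 ≤ d) (L v : ℂ) : FF d L v = L * v * EE d v := by
  have hd0 : (d : ℂ) ≠ 0 := by exact_mod_cast (show d ≠ 0 by omega)
  have h1 : (1 + v) ^ d = ∑ i ∈ Finset.range (d + 4), v ^ i * (d.choose i : ℂ) := by
    rw [add_comm, add_pow]
    simp only [one_pow, mul_one]
    rw [Finset.sum_subset (Finset.range_mono (show d + 1 ≤ d + 4 by omega))]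
    intro i _ hi
    rw [Finset.mem_range] at hi
    rw [Nat.choose_eq_zero_of_lt (by omega)]
    simp
  have h2 : ∑ i ∈ Finset.range (d + 4), v ^ i * (d.choose i : ℂ) =
      1 + d * v + d.choose 2 * v ^ 2 + d.choose 3 * v ^ 3 +
        v ^ 4 * ∑ i ∈ Finset.range d, (d.choose (i + 4) : ℂ) * v ^ i := by
    rw [Finset.sum_range_succ', Finset.sum_range_succ', Finset.sum_range_succ',
      Finset.sum_range_succ']
    have h3 : ∑ k ∈ Finset.range d, v ^ (k + 1 + 1 + 1 + 1) * (d.choose (k + 1 + 1 + 1 + 1) : ℂ) =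
        v ^ 4 * ∑ i ∈ Finset.range d, (d.choose (i + 4) : ℂ) * v ^ i := by
      rw [Finset.mul_sum]
      apply Finset.sum_congr rfl
      intro k _
      rw [show k + 1 + 1 + 1 + 1 = k + 4 by ring]
      ring
    rw [h3]
    simp only [zero_add, Nat.choose_zero_right, pow_zero, Nat.cast_one, mul_one, Nat.choose_one_right,
      pow_one]
    ring
  unfold FF EE RR aa bb
  rw [h1, h2]
  have h4 : ∑ i ∈ Finset.range d, ((d.choose (i + 4) : ℂ) / d) * v ^ i =
      (∑ i ∈ Finset.range d, (d.choose (i + 4) : ℂ) * v ^ i) / d := by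
    rw [Finset.sum_div]
    apply Finset.sum_congr rfl
    intro i _
    ring
  rw [h4]
  push_cast
  field_simp
  ring

theorem RR_cont (d : ℕ) : Continuous (RR d) := by
  unfold RR
  fun_prop

theorem EE_cont (d : ℕ) : Continuous (EE d) := by
  have := RR_cont d
  unfold EE
  fun_prop

/-- the remainder of two steps -/
noncomputable def S2 (d : ℕ) (L v : ℂ) : ℂ :=
  aa d * L * (bb d + v * RR d v) +
    bb d * L ^ 2 * (2 * (aa d + bb d * v + v ^ 2 * RR d v) +
      v * (aa d + bb d * v + v ^ 2 * RR d v) ^ 2) +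
    L ^ 3 * EE d v ^ 3 * RR d (L * v * EE d v)

noncomputable def SS (d : ℕ) (L v : ℂ) : ℂ :=
  aa d * (aa d ^ 2 * L + bb d * L ^ 2) + bb d * (aa d * L) + S2 d L v + RR d v +
    v * (bb d * (aa d ^ 2 * L + bb d * L ^ 2) + aa d * S2 d L v + RR d v * (aa d * L)) +
    v ^ 2 * (bb d * S2 d L v + RR d v * (aa d ^ 2 * L + bb d * L ^ 2)) +
    v ^ 3 * (RR d v * S2 d L v)

theorem SS_cont (d : ℕ) : Continuous (fun q : ℂ × ℂ => SS d q.1 q.2) := by
  have h1 : Continuous (fun q : ℂ × ℂ => RR d q.2) := (RR_cont d).comp continuous_snd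
  have h2 : Continuous (fun q : ℂ × ℂ => EE d q.2) := (EE_cont d).comp continuous_snd
  have h3 : Continuous (fun q : ℂ × ℂ => RR d (q.1 * q.2 * EE d q.2)) :=
    (RR_cont d).comp ((continuous_fst.mul continuous_snd).mul h2)
  have h4 : Continuous (fun q : ℂ × ℂ => S2 d q.1 q.2) := by
    unfold S2
    fun_prop
  unfold SS
  fun_prop

theorem EE_EE (d : ℕ) (L v : ℂ) : EE d v * EE d (L * v * EE d v) =
    1 + aa d * (1 + L) * v + (bb d * (1 + L ^ 2) + 2 * aa d ^ 2 * L) * v ^ 2 +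
      v ^ 3 * SS d L v := by
  obtain ⟨e, he⟩ : ∃ e, e = EE d v := ⟨_, rfl⟩
  have he' : e = 1 + aa d * v + bb d * v ^ 2 + v ^ 3 * RR d v := he
  have h1 : EE d (L * v * e) = 1 + aa d * (L * v * e) + bb d * (L * v * e) ^ 2 +
    (L * v * e) ^ 3 * RR d (L * v * e) := rfl
  unfold SS S2
  rw [← he, h1]
  obtain ⟨ρ, hρ⟩ : ∃ ρ, ρ = RR d (L * v * e) := ⟨_, rfl⟩
  obtain ⟨τ, hτ⟩ : ∃ τ, τ = RR d v := ⟨_, rfl⟩
  rw [← hρ, ← hτ]
  rw [← hτ] at he'
  have h2 : e ^ 3 = e ^ 3 := rfl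
  have h3 : EE d v = e := he.symm
  clear h1 hρ hτ h2 h3 he
  obtain ⟨w, hw⟩ : ∃ w, w = L ^ 3 * e ^ 3 * ρ := ⟨_, rfl⟩
  have h4 : (L * v * e) ^ 3 * ρ = v ^ 3 * w := by rw [hw]; ring
  rw [h4, ← hw]
  clear h4 hw
  subst he'
  ring

end Pool.Agent.W677.MC
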