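import Pool.Agent.W677.MC1

set_option autoImplicit false

/-! # The step estimates -/

namespace Pool.Agent.W677.MC

open Complex Metric Set Filter Topology

theorem aa_nonneg (d : ℕ) : 0 ≤ aa d := by unfold aa; positivity
theorem bb_nonneg (d : ℕ) : 0 ≤ bb d := by unfold bb; positivity

theorem norm_L {L : ℂ} (h : ‖1 + L‖ ≤ 1 / 4) : 3 / 4 ≤ ‖L‖ ∧ ‖L‖ ≤ 5 / 4 := by
  have h1 := norm_sub_norm_le L (-1)
  have h2 := norm_sub_norm_le (-1) L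
  rw [norm_neg, norm_one, sub_neg_eq_add, add_comm] at h1
  rw [norm_neg, norm_one] at h2
  have h3 : ‖-1 - L‖ = ‖1 + L‖ := by
    rw [← norm_neg]
    congr 1
    ring
  rw [h3] at h2
  constructor <;> linarith

theorem stepG {d : ℕ} (hd : 2 ≤ d) : ∃ r C : ℝ, 0 < r ∧ r ≤ 1 ∧ 0 < C ∧ ∀ L v : ℂ,
    ‖1 + L‖ ≤ 1 / 4 → v ≠ 0 → ‖v‖ ≤ r → ‖1 + L‖ ≤ ‖v‖ → FF d L (FF d L v) ≠ 0 ∧
    ‖L ^ 4 * ((FF d L (FF d L v)) ^ 2)⁻¹ - (v ^ 2)⁻¹ - 4 * kap d‖ ≤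
      C * (‖1 + L‖ / ‖v‖ + ‖v‖) := by
  have hκ := kap_pos hd
  have ha0 := aa_nonneg d
  have hb0 := bb_nonneg d
  have hK : IsCompact ((closedBall (0 : ℂ) 2) ×ˢ (closedBall (0 : ℂ) 1)) :=
    (isCompact_closedBall _ _).prod (isCompact_closedBall _ _)
  obtain ⟨C₀, hC₀⟩ := hK.exists_bound_of_continuousOn (SS_cont d).continuousOn
  have hC₀0 : 0 ≤ C₀ := (norm_nonneg _).trans (hC₀ (0, 0) ⟨by simp, by simp⟩)
  obtain ⟨D, hD⟩ : ∃ D : ℝ, D = 3 * bb d + 2 * aa d ^ 2 := ⟨_, rfl⟩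
  have hD0 : 0 ≤ D := by rw [hD]; positivity
  obtain ⟨C₁, hC₁⟩ : ∃ C₁ : ℝ, C₁ = 2 * kap d + aa d + D + C₀ := ⟨_, rfl⟩
  have hC₁0 : 0 < C₁ := by rw [hC₁]; positivity
  refine ⟨1 / (2 * C₁ + 2), 2 * (aa d + D) + 2 * C₀ + 16 * C₁ ^ 2, by positivity, ?_, by positivity, ?_⟩
  · rw [div_le_one (by positivity)]
    linarith
  intro L v hM hv hvr hMv
  have hn : 0 < ‖v‖ := norm_pos_iff.2 hv
  obtain ⟨hL1, hL2⟩ := norm_L hM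
  have hL0 : L ≠ 0 := by
    intro h
    rw [h, norm_zero] at hL1
    linarith
  rw [le_div_iff₀ (by positivity)] at hvr
  have hv1 : ‖v‖ ≤ 1 := by nlinarith
  have hvC : C₁ * ‖v‖ ≤ 1 / 2 := by nlinarith
  obtain ⟨S, hS⟩ : ∃ S, S = SS d L v := ⟨_, rfl⟩
  have hSn : ‖S‖ ≤ C₀ := by
    rw [hS]
    exact hC₀ (L, v) ⟨by rw [mem_closedBall_zero_iff]; linarith, by
      rw [mem_closedBall_zero_iff]; exact hv1⟩
  obtain ⟨q, hq⟩ : ∃ q : ℂ, q = bb d * (L - 1) + 2 * aa d ^ 2 := ⟨_, rfl⟩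
  have hqn : ‖q‖ ≤ D := by
    rw [hq, hD]
    refine (norm_add_le _ _).trans ?_
    rw [norm_mul, norm_mul, norm_pow, Complex.norm_ofNat, Complex.norm_real, Complex.norm_real,
      Real.norm_of_nonneg ha0, Real.norm_of_nonneg hb0]
    have h1 : ‖L - 1‖ ≤ 3 := by
      refine (norm_sub_le _ _).trans ?_
      rw [norm_one]
      linarith
    have h2 := mul_le_mul_of_nonneg_left h1 hb0
    linarith
  obtain ⟨τ, hτ⟩ : ∃ τ : ℂ, τ = -2 * kap d + (1 + L) * (aa d / v + q) + v * S := ⟨_, rfl⟩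
  obtain ⟨σ, hσ⟩ : ∃ σ, σ = τ * v ^ 2 := ⟨_, rfl⟩
  have hMv1 : ‖1 + L‖ / ‖v‖ ≤ 1 := by
    rw [div_le_one hn]
    exact hMv
  have hMM : ‖1 + L‖ ≤ ‖1 + L‖ / ‖v‖ := by
    rw [le_div_iff₀ hn]
    exact mul_le_of_le_one_right (norm_nonneg _) hv1
  have hterm : ‖(1 + L) * (aa d / v + q)‖ ≤ (aa d + D) * (‖1 + L‖ / ‖v‖) := by
    rw [norm_mul]
    have h1 : ‖(aa d : ℂ) / v + q‖ ≤ aa d / ‖v‖ + D := by
      refine (norm_add_le _ _).trans (add_le_add (le_of_eq ?_) hqn)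
      rw [norm_div, Complex.norm_real, Real.norm_of_nonneg ha0]
    calc ‖1 + L‖ * ‖(aa d : ℂ) / v + q‖ ≤ ‖1 + L‖ * (aa d / ‖v‖ + D) :=
          mul_le_mul_of_nonneg_left h1 (norm_nonneg _)
      _ = aa d * (‖1 + L‖ / ‖v‖) + D * ‖1 + L‖ := by ring
      _ ≤ aa d * (‖1 + L‖ / ‖v‖) + D * (‖1 + L‖ / ‖v‖) := by
          have := mul_le_mul_of_nonneg_left hMM hD0
          linarith
      _ = (aa d + D) * (‖1 + L‖ / ‖v‖) := by ring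
  have hvS : ‖v * S‖ ≤ C₀ * ‖v‖ := by
    rw [norm_mul, mul_comm]
    exact mul_le_mul_of_nonneg_right hSn hn.le
  have hτn : ‖τ‖ ≤ C₁ := by
    rw [hτ, hC₁]
    have h1 := norm_add_le (-2 * (kap d : ℂ) + (1 + L) * (aa d / v + q)) (v * S)
    have h2 := norm_add_le (-2 * (kap d : ℂ)) ((1 + L) * (aa d / v + q))
    have h3 : ‖-2 * (kap d : ℂ)‖ = 2 * kap d := by
      rw [norm_mul, norm_neg, Complex.norm_ofNat, Complex.norm_real, Real.norm_of_nonneg hκ.le]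
    have h4 : (aa d + D) * (‖1 + L‖ / ‖v‖) ≤ aa d + D :=
      mul_le_of_le_one_right (by positivity) hMv1
    have h5 : C₀ * ‖v‖ ≤ C₀ := mul_le_of_le_one_right hC₀0 hv1
    linarith
  have hσn : ‖σ‖ ≤ C₁ * ‖v‖ ^ 2 := by
    rw [hσ, norm_mul, norm_pow]
    exact mul_le_mul_of_nonneg_right hτn (by positivity)
  have hσn2 : ‖σ‖ ≤ 1 / 2 := by nlinarith
  have h1σ : 1 / 2 ≤ ‖1 + σ‖ := by
    have := norm_sub_norm_le (1 : ℂ) (-σ)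
    rw [norm_one, norm_neg, sub_neg_eq_add] at this
    linarith
  have h1σ0 : 1 + σ ≠ 0 := by
    intro h
    rw [h, norm_zero] at h1σ
    linarith
  have hσeq : EE d v * EE d (L * v * EE d v) = 1 + σ := by
    rw [EE_EE, hσ, hτ, hq, ← hS]
    unfold kap
    push_cast
    field_simp
    ring
  have hw : FF d L (FF d L v) = L ^ 2 * v * (1 + σ) := by
    rw [FF_eq (by omega), FF_eq (by omega), ← hσeq]
    ring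
  rw [hw]
  refine ⟨mul_ne_zero (mul_ne_zero (pow_ne_zero 2 hL0) hv) h1σ0, ?_⟩
  have e1 : L ^ 4 * ((L ^ 2 * v * (1 + σ)) ^ 2)⁻¹ - (v ^ 2)⁻¹ =
      -2 * τ + τ * σ * (3 + 2 * σ) / (1 + σ) ^ 2 := by
    have hτσ : τ = σ * (v ^ 2)⁻¹ := by
      rw [hσ]
      field_simp
    have e2 : L ^ 4 * ((L ^ 2 * v * (1 + σ)) ^ 2)⁻¹ = (v ^ 2)⁻¹ * ((1 + σ) ^ 2)⁻¹ := by
      field_simp
    rw [e2]
    have e3 : -2 * τ + τ * σ * (3 + 2 * σ) / (1 + σ) ^ 2 =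
        (v ^ 2)⁻¹ * (-2 * σ + σ * σ * (3 + 2 * σ) / (1 + σ) ^ 2) := by
      rw [hτσ]
      ring
    rw [e3, ← mul_sub_one]
    congr 1
    rw [eq_comm, ← sub_eq_zero]
    have e4 : -2 * σ + σ * σ * (3 + 2 * σ) / (1 + σ) ^ 2 - (((1 + σ) ^ 2)⁻¹ - 1) =
        ((-2 * σ + 1) * (1 + σ) ^ 2 + σ * σ * (3 + 2 * σ) - 1) / (1 + σ) ^ 2 := by
      field_simp
      ring
    rw [e4]
    have e5 : (-2 * σ + 1) * (1 + σ) ^ 2 + σ * σ * (3 + 2 * σ) - 1 = 0 := by ring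
    rw [e5, zero_div]
  have e2 : L ^ 4 * ((L ^ 2 * v * (1 + σ)) ^ 2)⁻¹ - (v ^ 2)⁻¹ - 4 * kap d =
      -2 * ((1 + L) * (aa d / v + q)) - 2 * (v * S) + τ * σ * (3 + 2 * σ) / (1 + σ) ^ 2 := by
    rw [e1]
    have : -2 * τ = -2 * (-2 * (kap d : ℂ) + (1 + L) * (aa d / v + q) + v * S) := by rw [hτ]
    rw [this]
    ring
  rw [e2]
  have n3 : ‖τ * σ * (3 + 2 * σ) / (1 + σ) ^ 2‖ ≤ 16 * C₁ ^ 2 * ‖v‖ := by
    rw [norm_div, norm_mul, norm_mul, norm_pow, div_le_iff₀ (by positivity)]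
    have h3 : ‖(3 : ℂ) + 2 * σ‖ ≤ 4 := by
      refine (norm_add_le _ _).trans ?_
      rw [norm_mul, Complex.norm_ofNat, Complex.norm_ofNat]
      linarith
    have h4 : ‖τ‖ * ‖σ‖ ≤ C₁ * (C₁ * ‖v‖ ^ 2) := mul_le_mul hτn hσn (norm_nonneg _) hC₁0.le
    have h5 : ‖τ‖ * ‖σ‖ * ‖(3 : ℂ) + 2 * σ‖ ≤ C₁ * (C₁ * ‖v‖ ^ 2) * 4 :=
      mul_le_mul h4 h3 (norm_nonneg _) (by positivity)
    have h6 : (1 / 2 : ℝ) ^ 2 ≤ ‖1 + σ‖ ^ 2 := pow_le_pow_left₀ (by norm_num) h1σ 2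
    have h7 : ‖v‖ ^ 2 ≤ ‖v‖ := by nlinarith
    have h8 : 16 * C₁ ^ 2 * ‖v‖ * (1 / 2 : ℝ) ^ 2 ≤ 16 * C₁ ^ 2 * ‖v‖ * ‖1 + σ‖ ^ 2 :=
      mul_le_mul_of_nonneg_left h6 (by positivity)
    have h9 : C₁ ^ 2 * ‖v‖ ^ 2 ≤ C₁ ^ 2 * ‖v‖ := mul_le_mul_of_nonneg_left h7 (by positivity)
    nlinarith
  have n4 := norm_add_le (-2 * ((1 + L) * (aa d / v + q)) - 2 * (v * S))
    (τ * σ * (3 + 2 * σ) / (1 + σ) ^ 2)
  have n5 := norm_sub_le (-2 * ((1 + L) * (aa d / v + q))) (2 * (v * S))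
  have n6 : ‖-2 * ((1 + L) * (aa d / v + q))‖ = 2 * ‖(1 + L) * (aa d / v + q)‖ := by
    rw [norm_mul, norm_neg, Complex.norm_ofNat]
  have n7 : ‖2 * (v * S)‖ = 2 * ‖v * S‖ := by rw [norm_mul, Complex.norm_ofNat]
  have n8 : 0 ≤ ‖1 + L‖ / ‖v‖ := by positivity
  have n9 : 0 ≤ (2 * (aa d + D)) * ‖v‖ := by positivity
  have n10 : 0 ≤ (2 * C₀ + 16 * C₁ ^ 2) * (‖1 + L‖ / ‖v‖) := by positivity
  nlinarith

theorem stepS {d : ℕ} (hd : 2 ≤ d) : ∃ r s : ℝ, 0 < r ∧ r ≤ 1 ∧ 0 < s ∧ s ≤ 1 / 4 ∧ ∀ L v : ℂ,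
    v ≠ 0 → ‖v‖ ≤ r → ‖1 + L‖ ≤ s * ‖v‖ ^ 2 → FF d L (FF d L v) ≠ 0 ∧
    ‖((FF d L (FF d L v)) ^ 2)⁻¹ - (v ^ 2)⁻¹ - 4 * kap d‖ ≤ 2 * kap d := by
  obtain ⟨r, C, hr, hr1, hC, h⟩ := stepG hd
  have hκ := kap_pos hd
  obtain ⟨G, hG⟩ : ∃ G : ℝ, G = 4 * C + 20 + 80 * kap d := ⟨_, rfl⟩
  have hG0 : 0 < G := by rw [hG]; positivity
  refine ⟨min r (kap d / (4 * C)), min (1 / 4) (kap d / G), by positivity,
    (min_le_left _ _).trans hr1, by positivity, min_le_left _ _, ?_⟩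
  intro L v hv hvr hM
  have hn : 0 < ‖v‖ := norm_pos_iff.2 hv
  have hv1 : ‖v‖ ≤ r := hvr.trans (min_le_left _ _)
  have hv2 : ‖v‖ ≤ kap d / (4 * C) := hvr.trans (min_le_right _ _)
  have hv3 : ‖v‖ ≤ 1 := hv1.trans hr1
  obtain ⟨s, hs⟩ : ∃ s, s = min (1 / 4) (kap d / G) := ⟨_, rfl⟩
  rw [← hs] at hM
  have hs0 : 0 < s := by rw [hs]; positivity
  have hs4 : s ≤ 1 / 4 := by rw [hs]; exact min_le_left _ _
  have hsG : s * G ≤ kap d := by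
    rw [← le_div_iff₀ hG0, hs]
    exact min_le_right _ _
  have hvv : ‖v‖ ^ 2 ≤ ‖v‖ := by nlinarith
  have hM1 : ‖1 + L‖ ≤ s * ‖v‖ := hM.trans (mul_le_mul_of_nonneg_left hvv hs0.le)
  have hM2 : ‖1 + L‖ ≤ s := hM1.trans (mul_le_of_le_one_right hs0.le hv3)
  have hM4 : ‖1 + L‖ ≤ 1 / 4 := hM2.trans hs4
  have hMv : ‖1 + L‖ ≤ ‖v‖ := hM1.trans (mul_le_of_le_one_left hn.le (by linarith))
  obtain ⟨h1, h2⟩ := h L v hM4 hv hv1 hMv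
  refine ⟨h1, ?_⟩
  obtain ⟨hL1, hL2⟩ := norm_L hM4
  have hL0 : L ≠ 0 := by
    intro h
    rw [h, norm_zero] at hL1
    linarith
  obtain ⟨W, hW⟩ : ∃ W, W = ((FF d L (FF d L v)) ^ 2)⁻¹ := ⟨_, rfl⟩
  obtain ⟨Z, hZ⟩ : ∃ Z, Z = (v ^ 2)⁻¹ := ⟨_, rfl⟩
  rw [← hW, ← hZ] at h2 ⊢
  have hZn : ‖Z‖ = (‖v‖ ^ 2)⁻¹ := by rw [hZ, norm_inv, norm_pow]
  have hMZ : ‖1 + L‖ * ‖Z‖ ≤ s := by
    rw [hZn, mul_inv_le_iff₀ (by positivity)]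
    exact hM
  have hMv2 : ‖1 + L‖ / ‖v‖ ≤ s := by
    rw [div_le_iff₀ hn]
    exact hM1
  have e1 : W - Z - 4 * kap d =
      (L ^ 4)⁻¹ * (L ^ 4 * W - Z - 4 * kap d) + ((L ^ 4)⁻¹ - 1) * (Z + 4 * kap d) := by
    field_simp
    ring
  have hLi : ‖(L ^ 4)⁻¹‖ ≤ 4 := by
    rw [norm_inv, norm_pow, inv_le_comm₀ (by positivity) (by norm_num)]
    have : (3 / 4 : ℝ) ^ 4 ≤ ‖L‖ ^ 4 := pow_le_pow_left₀ (by norm_num) hL1 4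
    norm_num at this ⊢
    linarith
  have hLi2 : ‖(L ^ 4)⁻¹ - 1‖ ≤ 20 * ‖1 + L‖ := by
    have e2 : (L ^ 4)⁻¹ - 1 = (L ^ 4)⁻¹ * ((1 + L) * ((1 - L) * (1 + L ^ 2))) := by
      field_simp
      ring
    rw [e2, norm_mul, norm_mul, norm_mul]
    have e3 : ‖1 - L‖ ≤ 9 / 4 := by
      refine (norm_sub_le _ _).trans ?_
      rw [norm_one]
      linarith
    have e4 : ‖1 + L ^ 2‖ ≤ 41 / 16 := by
      refine (norm_add_le _ _).trans ?_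
      rw [norm_one, norm_pow]
      nlinarith [norm_nonneg L]
    have e5 : ‖(L ^ 4)⁻¹‖ ≤ 16 / 5 := by
      rw [norm_inv, norm_pow, inv_le_comm₀ (by positivity) (by norm_num)]
      have : (3 / 4 : ℝ) ^ 4 ≤ ‖L‖ ^ 4 := pow_le_pow_left₀ (by norm_num) hL1 4
      norm_num at this ⊢
      linarith
    have e6 : ‖1 - L‖ * ‖1 + L ^ 2‖ ≤ 9 / 4 * (41 / 16) :=
      mul_le_mul e3 e4 (norm_nonneg _) (by norm_num)
    have e7 : ‖(L ^ 4)⁻¹‖ * (‖1 - L‖ * ‖1 + L ^ 2‖) ≤ 16 / 5 * (9 / 4 * (41 / 16)) :=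
      mul_le_mul e5 e6 (by positivity) (by norm_num)
    have e8 : ‖(L ^ 4)⁻¹‖ * (‖1 + L‖ * (‖1 - L‖ * ‖1 + L ^ 2‖)) =
        (‖(L ^ 4)⁻¹‖ * (‖1 - L‖ * ‖1 + L ^ 2‖)) * ‖1 + L‖ := by ring
    rw [e8]
    apply mul_le_mul_of_nonneg_right _ (norm_nonneg _)
    refine e7.trans (by norm_num)
  rw [e1]
  refine (norm_add_le _ _).trans ?_
  rw [norm_mul, norm_mul]
  have t1 : ‖(L ^ 4)⁻¹‖ * ‖L ^ 4 * W - Z - 4 * kap d‖ ≤ 4 * (C * (s + ‖v‖)) := by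
    apply mul_le_mul hLi _ (norm_nonneg _) (by norm_num)
    refine h2.trans ?_
    apply mul_le_mul_of_nonneg_left _ hC.le
    linarith
  have t2 : ‖Z + 4 * kap d‖ ≤ ‖Z‖ + 4 * kap d := by
    refine (norm_add_le _ _).trans ?_
    rw [norm_mul, Complex.norm_ofNat, Complex.norm_real, Real.norm_of_nonneg hκ.le]
  have t3 : ‖(L ^ 4)⁻¹ - 1‖ * ‖Z + 4 * kap d‖ ≤ 20 * (s + 4 * kap d * s) := by
    calc ‖(L ^ 4)⁻¹ - 1‖ * ‖Z + 4 * kap d‖ ≤ 20 * ‖1 + L‖ * (‖Z‖ + 4 * kap d) :=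
          mul_le_mul hLi2 t2 (norm_nonneg _) (by positivity)
      _ = 20 * (‖1 + L‖ * ‖Z‖ + 4 * kap d * ‖1 + L‖) := by ring
      _ ≤ 20 * (s + 4 * kap d * s) := by
          have := mul_le_mul_of_nonneg_left hM2 (show 0 ≤ 4 * kap d by positivity)
          linarith
  have t4 : 4 * (C * ‖v‖) ≤ kap d := by
    rw [le_div_iff₀ (by positivity)] at hv2
    linarith
  have t5 : s * G = s * (4 * C) + 20 * s + 80 * kap d * s := by rw [hG]; ring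
  nlinarith

end Pool.Agent.W677.MC
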