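import Pool.Agent.W677.MC2
import Pool.Agent.W677.MB9
import Pool.Agent.H712R2.MultibrotConnected
import Pool.Agent.H713R2.Ext1

set_option autoImplicit false

/-! # The critical orbit near the parameter of multiplier `-1`: slow escape -/

namespace Pool.Agent.W677.MC

open Complex Metric Set Filter Topology Pool.Agent.H712R2 N62a1eb23

/-- the multiplier of the fixed point `A + x` -/
noncomputable def LL (d : ℕ) (A x : ℂ) : ℂ := d * (A + x) ^ (d - 1)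

/-- the parameter of the fixed point `A + x` -/
noncomputable def cc (d : ℕ) (A x : ℂ) : ℂ := (A + x) - (A + x) ^ d

/-- the critical orbit in the coordinate of the fixed point -/
noncomputable def om (d : ℕ) (A : ℂ) : ℕ → ℂ → ℂ
  | 0, _ => -1
  | k + 1, x => FF d (LL d A x) (om d A k x)

theorem om_succ (d : ℕ) (A : ℂ) (k : ℕ) (x : ℂ) :
    om d A (k + 1) x = FF d (LL d A x) (om d A k x) := rfl

theorem P_eq {d : ℕ} (hd : 2 ≤ d) (A : ℂ) (k : ℕ) (x : ℂ) :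
    P d k (cc d A x) = (A + x) * (1 + om d A k x) := by
  have hd0 : (d : ℂ) ≠ 0 := by exact_mod_cast (show d ≠ 0 by omega)
  induction k with
  | zero =>
    rw [P_zero]
    simp [om]
  | succ k ih =>
    rw [P_succ, ih, om_succ]
    unfold FF LL cc
    rw [mul_pow]
    have h1 : (A + x) ^ d = (A + x) * (A + x) ^ (d - 1) := by
      rw [← pow_succ']
      congr 1
      omega
    rw [h1]
    field_simp
    ring

theorem om_diff (d : ℕ) (A : ℂ) (k : ℕ) : Differentiable ℂ (om d A k) := by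
  induction k with
  | zero =>
    have : om d A 0 = fun _ => (-1 : ℂ) := rfl
    rw [this]
    exact differentiable_const _
  | succ k ih =>
    have : om d A (k + 1) = fun x => FF d (LL d A x) (om d A k x) := rfl
    rw [this]
    unfold FF LL
    fun_prop

/-! ## the real orbit -/

noncomputable def hh (d : ℕ) (t : ℝ) : ℝ := (1 - (1 + t) ^ d) / d

noncomputable def uu (d : ℕ) : ℕ → ℝ
  | 0 => -1
  | j + 1 => hh d (hh d (uu d j))

theorem FF_real (d : ℕ) (t : ℝ) : FF d (-1) (t : ℂ) = ((hh d t : ℝ) : ℂ) := by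
  unfold FF hh
  push_cast
  ring

theorem hh_cont (d : ℕ) : Continuous (hh d) := by
  unfold hh
  fun_prop

theorem hh2 {d : ℕ} (hd : 2 ≤ d) {t : ℝ} (h1 : -1 ≤ t) (h2 : t < 0) :
    0 < hh d t ∧ hh d t ≤ 1 / d ∧ t < hh d (hh d t) ∧ hh d (hh d t) < 0 := by
  have hdr : (2 : ℝ) ≤ d := by exact_mod_cast hd
  have hd0 : (0 : ℝ) < d := by linarith
  obtain ⟨x, hx⟩ : ∃ x, x = 1 + t := ⟨_, rfl⟩
  have hx0 : 0 ≤ x := by linarith
  have hx1 : x < 1 := by linarith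
  have hxd : x ^ d < 1 := pow_lt_one₀ hx0 hx1 (by omega)
  have hxd0 : 0 ≤ x ^ d := by positivity
  have a1 : 0 < hh d t := by
    unfold hh
    rw [← hx]
    exact div_pos (by linarith) hd0
  have a2 : hh d t ≤ 1 / d := by
    unfold hh
    rw [← hx]
    exact div_le_div_of_nonneg_right (by linarith) hd0.le
  -- the auxiliary function
  obtain ⟨g, hg⟩ : ∃ g : ℝ → ℝ, g = fun x : ℝ => (1 + (1 - x ^ d) / d) ^ d + d * x := ⟨_, rfl⟩
  have hcont : Continuous g := by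
    rw [hg]
    fun_prop
  have hmono : StrictMonoOn g (Icc 0 1) := by
    apply strictMonoOn_of_deriv_pos (convex_Icc 0 1) hcont.continuousOn
    intro s hs
    rw [interior_Icc] at hs
    have hs0 : 0 < s := hs.1
    have hs1 : s < 1 := hs.2
    have hder : HasDerivAt g ((d : ℝ) * (1 + (1 - s ^ d) / d) ^ (d - 1) *
        (-((d : ℝ) * s ^ (d - 1)) / d) + d) s := by
      rw [hg]
      have b1 : HasDerivAt (fun x : ℝ => x ^ d) ((d : ℝ) * s ^ (d - 1)) s := hasDerivAt_pow d s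
      have b2 : HasDerivAt (fun x : ℝ => 1 + (1 - x ^ d) / d) (-((d : ℝ) * s ^ (d - 1)) / d) s :=
        ((b1.const_sub 1).div_const (d : ℝ)).const_add 1
      have b3 := b2.fun_pow d
      have b4 : HasDerivAt (fun x : ℝ => (d : ℝ) * x) (d : ℝ) s := by
        simpa using (hasDerivAt_id s).const_mul (d : ℝ)
      exact b3.add b4
    rw [hder.deriv]
    obtain ⟨y, hy⟩ : ∃ y, y = 1 + (1 - s ^ d) / d := ⟨_, rfl⟩
    rw [← hy]
    have hsd : s ^ d ≤ 1 := pow_le_one₀ hs0.le hs1.le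
    have hy0 : 0 < y := by
      rw [hy]
      have : 0 ≤ (1 - s ^ d) / d := div_nonneg (by linarith) hd0.le
      linarith
    have hbern := one_add_mul_le_pow (a := s - 1) (by linarith) d
    rw [show 1 + (s - 1) = s by ring] at hbern
    have hy2 : y ≤ 2 - s := by
      rw [hy]
      have : (1 - s ^ d) / d ≤ 1 - s := by
        rw [div_le_iff₀ hd0]
        nlinarith
      linarith
    have hsy : s * y < 1 := by nlinarith
    have hpow : (s * y) ^ (d - 1) < 1 := pow_lt_one₀ (by positivity) hsy (by omega)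
    rw [mul_pow] at hpow
    have e : (d : ℝ) * y ^ (d - 1) * (-((d : ℝ) * s ^ (d - 1)) / d) + d =
        d * (1 - s ^ (d - 1) * y ^ (d - 1)) := by
      field_simp
      ring
    rw [e]
    exact mul_pos hd0 (by linarith)
  have hlt := hmono (show x ∈ Icc (0 : ℝ) 1 from ⟨hx0, hx1.le⟩)
    (show (1 : ℝ) ∈ Icc (0 : ℝ) 1 from ⟨zero_le_one, le_rfl⟩) hx1
  have hg1 : g 1 = 1 + d := by
    rw [hg]
    simp
  have hgx : g x = (1 + hh d t) ^ d + d * x := by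
    rw [hg]
    unfold hh
    rw [← hx]
  rw [hg1, hgx] at hlt
  have e2 : hh d (hh d t) = (1 - (1 + hh d t) ^ d) / d := rfl
  refine ⟨a1, a2, ?_, ?_⟩
  · rw [e2, lt_div_iff₀ hd0]
    have : x = 1 + t := hx
    nlinarith
  · rw [e2]
    apply div_neg_of_neg_of_pos _ hd0
    have : 1 < (1 + hh d t) ^ d := one_lt_pow₀ (by linarith) (by omega)
    linarith

theorem uu_bd {d : ℕ} (hd : 2 ≤ d) (j : ℕ) : -1 ≤ uu d j ∧ uu d j < 0 := by
  induction j with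
  | zero => exact ⟨le_rfl, by simp [uu]⟩
  | succ j ih =>
    obtain ⟨-, -, h3, h4⟩ := hh2 hd ih.1 ih.2
    exact ⟨ih.1.trans h3.le, h4⟩

theorem uu_mono {d : ℕ} (hd : 2 ≤ d) : Monotone (uu d) :=
  monotone_nat_of_le_succ fun j => (hh2 hd (uu_bd hd j).1 (uu_bd hd j).2).2.2.1.le

theorem uu_lim {d : ℕ} (hd : 2 ≤ d) : Tendsto (uu d) atTop (𝓝 0) := by
  have h1 : BddAbove (range (uu d)) := ⟨0, by
    rintro _ ⟨j, rfl⟩
    exact (uu_bd hd j).2.le⟩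
  have h2 := tendsto_atTop_ciSup (uu_mono hd) h1
  obtain ⟨l, hl⟩ : ∃ l, l = ⨆ j, uu d j := ⟨_, rfl⟩
  rw [← hl] at h2
  have h3 : -1 ≤ l := ge_of_tendsto' h2 fun j => (uu_bd hd j).1
  have h4 : l ≤ 0 := le_of_tendsto' h2 fun j => (uu_bd hd j).2.le
  have h5 : Tendsto (fun j => uu d (j + 1)) atTop (𝓝 l) := h2.comp (tendsto_add_atTop_nat 1)
  have h6 : Tendsto (fun j => uu d (j + 1)) atTop (𝓝 (hh d (hh d l))) :=
    (((hh_cont d).comp (hh_cont d)).tendsto l).comp h2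
  have h7 := tendsto_nhds_unique h5 h6
  rcases eq_or_lt_of_le h4 with h | h
  · rw [h] at h2
    exact h2
  · exfalso
    have := (hh2 hd h3 h).2.2.1
    linarith

theorem LL_zero {d : ℕ} (hd : 2 ≤ d) {A : ℂ} (hA : A ^ (d - 1) = -1 / d) : LL d A 0 = -1 := by
  have hd0 : (d : ℂ) ≠ 0 := by exact_mod_cast (show d ≠ 0 by omega)
  unfold LL
  rw [add_zero, hA]
  field_simp

theorem om_even {d : ℕ} (hd : 2 ≤ d) {A : ℂ} (hA : A ^ (d - 1) = -1 / d) (j : ℕ) :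
    om d A (2 * j) 0 = (uu d j : ℂ) := by
  induction j with
  | zero => simp [om, uu]
  | succ j ih =>
    rw [show 2 * (j + 1) = 2 * j + 1 + 1 by ring, om_succ, om_succ, ih, LL_zero hd hA, FF_real,
      FF_real]
    rfl

theorem A_le {d : ℕ} (hd : 2 ≤ d) {A : ℂ} (hA : A ^ (d - 1) = -1 / d) : ‖A‖ ≤ 1 ∧ 0 < ‖A‖ := by
  have hdr : (2 : ℝ) ≤ d := by exact_mod_cast hd
  have h1 : ‖A‖ ^ (d - 1) = 1 / d := by
    rw [← norm_pow, hA, norm_div, norm_neg, norm_one, Complex.norm_natCast]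
  constructor
  · have h2 : ‖A‖ ^ (d - 1) ≤ 1 := by
      rw [h1, div_le_one (by linarith)]
      linarith
    exact (pow_le_one_iff_of_nonneg (norm_nonneg _) (by omega)).1 h2
  · rw [norm_pos_iff]
    rintro rfl
    rw [norm_zero, zero_pow (by omega)] at h1
    have : 0 < 1 / (d : ℝ) := by positivity
    linarith

theorem P_bd0 {d : ℕ} (hd : 2 ≤ d) {A : ℂ} (hA : A ^ (d - 1) = -1 / d) (k : ℕ) :
    ‖P d k (cc d A 0)‖ ≤ 3 / 2 := by
  have hdr : (2 : ℝ) ≤ d := by exact_mod_cast hd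
  rw [P_eq hd, add_zero, norm_mul]
  have h2 : ‖1 + om d A k 0‖ ≤ 3 / 2 := by
    rcases Nat.even_or_odd' k with ⟨j, rfl | rfl⟩
    · rw [om_even hd hA]
      obtain ⟨h1, h2⟩ := uu_bd hd j
      have e : (1 : ℂ) + (uu d j : ℂ) = ((1 + uu d j : ℝ) : ℂ) := by push_cast; ring
      rw [e, Complex.norm_real, Real.norm_eq_abs, abs_le]
      constructor <;> linarith
    · rw [om_succ, om_even hd hA, LL_zero hd hA, FF_real]
      obtain ⟨h1, h2⟩ := uu_bd hd j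
      obtain ⟨h3, h4, -, -⟩ := hh2 hd h1 h2
      have h5 : 1 / (d : ℝ) ≤ 1 / 2 := one_div_le_one_div_of_le (by norm_num) hdr
      have e : (1 : ℂ) + ((hh d (uu d j) : ℝ) : ℂ) = ((1 + hh d (uu d j) : ℝ) : ℂ) := by
        push_cast; ring
      rw [e, Complex.norm_real, Real.norm_eq_abs, abs_le]
      constructor <;> linarith
  calc ‖A‖ * ‖1 + om d A k 0‖ ≤ 1 * (3 / 2) :=
        mul_le_mul (A_le hd hA).1 h2 (norm_nonneg _) zero_le_one
    _ = 3 / 2 := one_mul _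

/-- the parameter `cc d A 0` belongs to the Multibrot set -/
theorem mem0 {d : ℕ} (hd : 2 ≤ d) {A : ℂ} (hA : A ^ (d - 1) = -1 / d) :
    cc d A 0 ∈ multibrotSet d :=
  (mem_multibrot_iff hd _).2 fun k => (P_bd0 hd hA k).trans (by norm_num)

/-! ## local bounds -/

theorem lip0 {f : ℂ → ℂ} (hf : Differentiable ℂ f) :
    ∃ C δ : ℝ, 0 < C ∧ 0 < δ ∧ ∀ x : ℂ, ‖x‖ ≤ δ → ‖f x - f 0‖ ≤ C * ‖x‖ := by
  obtain ⟨C, hC, h⟩ := (hf 0).hasDerivAt.isBigO_sub.exists_pos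
  rw [Asymptotics.isBigOWith_iff] at h
  obtain ⟨δ, hδ, h'⟩ := Metric.eventually_nhds_iff.1 h
  refine ⟨C, δ / 2, hC, by positivity, fun x hx => ?_⟩
  have := h' (show dist x 0 < δ by rw [dist_zero_right]; linarith)
  rwa [sub_zero] at this

theorem LL_diff (d : ℕ) (A : ℂ) : Differentiable ℂ (LL d A) := by
  unfold LL
  fun_prop

theorem cc_diff (d : ℕ) (A : ℂ) : Differentiable ℂ (cc d A) := by
  unfold cc
  fun_prop

theorem inv0 {d : ℕ} (hd : 2 ≤ d) {A : ℂ} (hA : A ^ (d - 1) = -1 / d) :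
    ∃ C δ : ℝ, 0 < C ∧ 0 < δ ∧ ∀ c : ℂ, ‖c - cc d A 0‖ ≤ δ →
      ∃ x : ℂ, cc d A x = c ∧ ‖x‖ ≤ C * ‖c - cc d A 0‖ := by
  have hder : HasStrictDerivAt (cc d A) (1 - LL d A 0) 0 := by
    have h0 : HasStrictDerivAt (fun x : ℂ => A + x) 1 0 := by
      simpa using (hasStrictDerivAt_id (0 : ℂ)).const_add A
    have h1 := h0.sub (h0.fun_pow d)
    have e : (1 : ℂ) - (d : ℂ) * (A + 0) ^ (d - 1) * 1 = 1 - LL d A 0 := by
      unfold LL
      ring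
    rw [e] at h1
    exact h1
  rw [LL_zero hd hA] at hder
  have h2 : (1 : ℂ) - -1 ≠ 0 := by norm_num
  have hr := hder.eventually_right_inverse h2
  have hi := (hder.to_localInverse h2).hasDerivAt.isBigO_sub
  have hi0 : HasStrictDerivAt.localInverse (cc d A) (1 - -1) 0 hder h2 (cc d A 0) = 0 :=
    (hder.hasStrictFDerivAt_equiv h2).localInverse_apply_image
  obtain ⟨C, hC, h⟩ := hi.exists_pos
  rw [Asymptotics.isBigOWith_iff] at h
  obtain ⟨δ, hδ, h'⟩ := Metric.eventually_nhds_iff.1 (h.and hr)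
  refine ⟨C, δ / 2, hC, by positivity, fun c hc => ?_⟩
  obtain ⟨h3, h4⟩ := h' (show dist c (cc d A 0) < δ by rw [dist_eq_norm]; linarith)
  refine ⟨_, h4, ?_⟩
  rwa [hi0, sub_zero] at h3

theorem startG {d : ℕ} (hd : 2 ≤ d) {A : ℂ} (hA : A ^ (d - 1) = -1 / d) (H : ℝ) :
    ∃ (k₀ : ℕ) (R δ : ℝ), 1 ≤ R ∧ 0 < δ ∧ ∀ x : ℂ, ‖x‖ ≤ δ →
      om d A k₀ x ≠ 0 ∧ H ≤ (((om d A k₀ x) ^ 2)⁻¹).re ∧ ‖((om d A k₀ x) ^ 2)⁻¹‖ ≤ R := by
  have h1 : Tendsto (fun j => (uu d j) ^ 2) atTop (𝓝[>] 0) := by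
    rw [tendsto_nhdsWithin_iff]
    refine ⟨?_, Eventually.of_forall fun j => ?_⟩
    · have := (uu_lim hd).pow 2
      rwa [zero_pow two_ne_zero] at this
    · have := (uu_bd hd j).2.ne
      exact mem_Ioi.2 (by positivity)
  obtain ⟨j₀, hj₀⟩ := ((tendsto_inv_nhdsGT_zero.comp h1).eventually_gt_atTop (max H 0)).exists
  have hj1 : H < ((uu d j₀) ^ 2)⁻¹ := (le_max_left _ _).trans_lt hj₀
  have hu0 := (uu_bd hd j₀).2
  have hc := (om_diff d A (2 * j₀)).continuous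
  have h00 := om_even hd hA j₀
  have hne0 : om d A (2 * j₀) 0 ≠ 0 := by
    rw [h00]
    exact_mod_cast hu0.ne
  have hcW : ContinuousAt (fun x : ℂ => ((om d A (2 * j₀) x) ^ 2)⁻¹) 0 :=
    (hc.continuousAt.pow 2).inv₀ (pow_ne_zero 2 hne0)
  have hW0 : ((om d A (2 * j₀) 0) ^ 2)⁻¹ = ((((uu d j₀) ^ 2)⁻¹ : ℝ) : ℂ) := by
    rw [h00]
    push_cast
    rfl
  have hpos : 0 < ((uu d j₀) ^ 2)⁻¹ := by
    have : uu d j₀ ≠ 0 := hu0.ne
    positivity
  have ev1 : ∀ᶠ x in 𝓝 (0 : ℂ), om d A (2 * j₀) x ≠ 0 := hc.continuousAt.eventually_ne hne0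
  have ev2 : ∀ᶠ x in 𝓝 (0 : ℂ), H < (((om d A (2 * j₀) x) ^ 2)⁻¹).re := by
    have h1 : ContinuousAt (fun x : ℂ => (((om d A (2 * j₀) x) ^ 2)⁻¹).re) 0 :=
      continuous_re.continuousAt.comp hcW
    apply h1.eventually_const_lt
    show H < (((om d A (2 * j₀) 0) ^ 2)⁻¹).re
    rw [hW0, Complex.ofReal_re]
    exact hj1
  have ev3 : ∀ᶠ x in 𝓝 (0 : ℂ), ‖((om d A (2 * j₀) x) ^ 2)⁻¹‖ < ((uu d j₀) ^ 2)⁻¹ + 1 := by
    have h1 : ContinuousAt (fun x : ℂ => ‖((om d A (2 * j₀) x) ^ 2)⁻¹‖) 0 := hcW.norm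
    apply h1.eventually_lt_const
    show ‖((om d A (2 * j₀) 0) ^ 2)⁻¹‖ < _
    rw [hW0, Complex.norm_real, Real.norm_of_nonneg hpos.le]
    linarith
  obtain ⟨δ₁, hδ₁, hδ⟩ := Metric.eventually_nhds_iff.1 (ev1.and (ev2.and ev3))
  refine ⟨2 * j₀, ((uu d j₀) ^ 2)⁻¹ + 1, δ₁ / 2, by linarith, by positivity, ?_⟩
  intro x hx
  obtain ⟨a1, a2, a3⟩ := hδ (show dist x 0 < δ₁ by rw [dist_zero_right]; linarith)
  exact ⟨a1, a2.le, a3.le⟩

/-- the orbit stays near the fixed point -/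
theorem stayG {d : ℕ} {A : ℂ} {r s κ C δ : ℝ} (hκ : κ = kap d) (hκ0 : 0 < κ) (hr : 0 < r)
    (hC : 0 < C)
    (hstep : ∀ L v : ℂ, v ≠ 0 → ‖v‖ ≤ r → ‖1 + L‖ ≤ s * ‖v‖ ^ 2 → FF d L (FF d L v) ≠ 0 ∧
      ‖((FF d L (FF d L v)) ^ 2)⁻¹ - (v ^ 2)⁻¹ - 4 * kap d‖ ≤ 2 * kap d)
    (hLL : ∀ x : ℂ, ‖x‖ ≤ δ → ‖1 + LL d A x‖ ≤ C * ‖x‖)
    {x : ℂ} (hx : ‖x‖ ≤ δ) {k₀ : ℕ} {H R : ℝ} (hH : 1 / r ^ 2 ≤ H) (h0 : om d A k₀ x ≠ 0)
    (hre : H ≤ (((om d A k₀ x) ^ 2)⁻¹).re) (hR : ‖((om d A k₀ x) ^ 2)⁻¹‖ ≤ R) :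
    ∀ j : ℕ, C * ‖x‖ * (R + 6 * κ * j) ≤ s →
      om d A (k₀ + 2 * j) x ≠ 0 ∧ H + 2 * κ * j ≤ (((om d A (k₀ + 2 * j) x) ^ 2)⁻¹).re ∧
      ‖((om d A (k₀ + 2 * j) x) ^ 2)⁻¹‖ ≤ R + 6 * κ * j := by
  intro j
  induction j with
  | zero =>
    intro _
    simp only [mul_zero, add_zero, CharP.cast_eq_zero]
    exact ⟨h0, hre, hR⟩
  | succ j ih =>
    intro hj
    have hj' : C * ‖x‖ * (R + 6 * κ * j) ≤ s := by
      refine le_trans ?_ hj
      apply mul_le_mul_of_nonneg_left _ (by positivity)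
      push_cast
      nlinarith
    obtain ⟨h1, h2, h3⟩ := ih hj'
    obtain ⟨v, hv⟩ : ∃ v, v = om d A (k₀ + 2 * j) x := ⟨_, rfl⟩
    have e1 : om d A (k₀ + 2 * (j + 1)) x = FF d (LL d A x) (FF d (LL d A x) v) := by
      rw [hv, show k₀ + 2 * (j + 1) = k₀ + 2 * j + 1 + 1 by ring, om_succ, om_succ]
    rw [← hv] at h1 h2 h3
    rw [e1]
    have hn : 0 < ‖v‖ := norm_pos_iff.2 h1
    have hW : ‖(v ^ 2)⁻¹‖ = (‖v‖ ^ 2)⁻¹ := by rw [norm_inv, norm_pow]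
    have hj0 : (0 : ℝ) ≤ j := Nat.cast_nonneg j
    have h4 : 1 / r ^ 2 ≤ (‖v‖ ^ 2)⁻¹ := by
      rw [← hW]
      have := re_le_norm ((v ^ 2)⁻¹)
      have : 0 ≤ 2 * κ * j := by positivity
      linarith
    have h5 : ‖v‖ ≤ r := by
      have h6 : ‖v‖ ^ 2 ≤ r ^ 2 := by
        rw [one_div, inv_le_inv₀ (by positivity) (by positivity)] at h4
        exact h4
      exact (pow_le_pow_iff_left₀ hn.le hr.le two_ne_zero).1 h6
    have h6 : ‖1 + LL d A x‖ ≤ s * ‖v‖ ^ 2 := by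
      refine (hLL x hx).trans ?_
      have h7 : C * ‖x‖ * (‖v‖ ^ 2)⁻¹ ≤ s := by
        rw [← hW]
        exact (mul_le_mul_of_nonneg_left h3 (by positivity)).trans hj'
      rw [mul_inv_le_iff₀ (by positivity)] at h7
      exact h7
    obtain ⟨h7, h8⟩ := hstep (LL d A x) v h1 h5 h6
    rw [← hκ] at h8
    obtain ⟨W, hWd⟩ : ∃ W, W = ((FF d (LL d A x) (FF d (LL d A x) v)) ^ 2)⁻¹ := ⟨_, rfl⟩
    rw [← hWd] at h8 ⊢
    have e2 : W = (v ^ 2)⁻¹ + 4 * κ + (W - (v ^ 2)⁻¹ - 4 * κ) := by ring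
    refine ⟨h7, ?_, ?_⟩
    · have h9 := (abs_le.1 (abs_re_le_norm (W - (v ^ 2)⁻¹ - 4 * κ))).1
      rw [e2, add_re, add_re]
      have : (4 * (κ : ℂ)).re = 4 * κ := by simp
      rw [this]
      push_cast
      linarith
    · rw [e2]
      have h9 := norm_add_le ((v ^ 2)⁻¹ + 4 * (κ : ℂ)) (W - (v ^ 2)⁻¹ - 4 * κ)
      have h10 := norm_add_le ((v ^ 2)⁻¹) (4 * (κ : ℂ))
      rw [norm_mul, Complex.norm_ofNat, Complex.norm_real, Real.norm_of_nonneg hκ0.le] at h10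
      push_cast
      linarith

end Pool.Agent.W677.MC
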