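import Pool.Agent.W677.MC3
import Pool.Agent.W677.MB4

set_option autoImplicit false

/-! # Slow escape and the distance of the level curves, all degrees -/

namespace Pool.Agent.W677.MC

open Complex Metric Set Filter Topology Pool.Agent.H712R2 Pool.Agent.H713R2 N62a1eb23

/-- **slow escape near the parameter of multiplier `-1`** -/
theorem slowX {d : ℕ} (hd : 2 ≤ d) {A : ℂ} (hA : A ^ (d - 1) = -1 / d) :
    ∃ δ κ' : ℝ, 0 < δ ∧ 0 < κ' ∧ ∀ x : ℂ, ‖x‖ ≤ δ → ∀ k : ℕ, (k : ℝ) * ‖x‖ ≤ κ' →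
      ‖P d k (cc d A x)‖ ≤ 2 := by
  obtain ⟨r, s, hr, hr1, hs, hs4, hstep⟩ := stepS hd
  have hκ0 := kap_pos hd
  obtain ⟨C, δ₁, hC, hδ₁, hLL⟩ := lip0 (LL_diff d A)
  have hLL' : ∀ x : ℂ, ‖x‖ ≤ δ₁ → ‖1 + LL d A x‖ ≤ C * ‖x‖ := by
    intro x hx
    have h := hLL x hx
    rw [LL_zero hd hA, sub_neg_eq_add, add_comm] at h
    exact h
  obtain ⟨E, hE⟩ := (isCompact_closedBall (0 : ℂ) 1).exists_bound_of_continuousOn
    (EE_cont d).continuousOn
  have hE0 : 0 ≤ E := (norm_nonneg _).trans (hE 0 (by simp))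
  obtain ⟨r₂, hr₂⟩ : ∃ r₂, r₂ = min r (1 / (10 * (1 + E))) := ⟨_, rfl⟩
  have hr₂0 : 0 < r₂ := by rw [hr₂]; positivity
  have hr₂r : r₂ ≤ r := by rw [hr₂]; exact min_le_left _ _
  have hr₂E : r₂ ≤ 1 / (10 * (1 + E)) := by rw [hr₂]; exact min_le_right _ _
  have hr₂E' : r₂ * (1 + E) ≤ 1 / 10 := by
    rw [le_div_iff₀ (by positivity)] at hr₂E
    linarith
  have hr₂1 : r₂ ≤ 1 / 10 := by nlinarith
  obtain ⟨k₀, R, δ₂, hR, hδ₂, hst⟩ := startG hd hA (1 / r₂ ^ 2)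
  obtain ⟨hA1, -⟩ := A_le hd hA
  have ev4 : ∀ᶠ x in 𝓝 (0 : ℂ), ∀ k ∈ Finset.range (k₀ + 1), ‖P d k (cc d A x)‖ < 2 := by
    rw [Filter.eventually_all_finset]
    intro k _
    have hcP : Continuous fun x : ℂ => P d k (cc d A x) :=
      (continuous_P d k).comp (cc_diff d A).continuous
    apply hcP.norm.continuousAt.eventually_lt_const
    show ‖P d k (cc d A 0)‖ < 2
    linarith [P_bd0 hd hA k]
  obtain ⟨δ₃, hδ₃, hδ⟩ := Metric.eventually_nhds_iff.1 ev4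
  refine ⟨min (min δ₁ δ₂) (min (min (1 / 10) (1 / (4 * C))) (min (s / (2 * C * R)) (δ₃ / 2))),
    s / (6 * C * kap d), by positivity, by positivity, ?_⟩
  intro x hx k hk
  have hx1 : ‖x‖ ≤ δ₁ := hx.trans ((min_le_left _ _).trans (min_le_left _ _))
  have hx2 : ‖x‖ ≤ δ₂ := hx.trans ((min_le_left _ _).trans (min_le_right _ _))
  have hx3 : ‖x‖ ≤ 1 / 10 :=
    hx.trans ((min_le_right _ _).trans ((min_le_left _ _).trans (min_le_left _ _)))
  have hx4 : ‖x‖ ≤ 1 / (4 * C) :=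
    hx.trans ((min_le_right _ _).trans ((min_le_left _ _).trans (min_le_right _ _)))
  have hx5 : ‖x‖ ≤ s / (2 * C * R) :=
    hx.trans ((min_le_right _ _).trans ((min_le_right _ _).trans (min_le_left _ _)))
  have hx6 : ‖x‖ ≤ δ₃ / 2 :=
    hx.trans ((min_le_right _ _).trans ((min_le_right _ _).trans (min_le_right _ _)))
  rw [le_div_iff₀ (by positivity)] at hx4 hx5
  rw [le_div_iff₀ (by positivity)] at hk
  rcases le_or_gt k k₀ with h | h
  · exact (hδ (show dist x 0 < δ₃ by rw [dist_zero_right]; linarith) k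
      (Finset.mem_range.2 (by omega))).le
  · obtain ⟨a1, a2, a3⟩ := hst x hx2
    have hLx := hLL' x hx1
    have hL4 : ‖1 + LL d A x‖ ≤ 1 / 4 := by linarith
    obtain ⟨-, hL2⟩ := norm_L hL4
    have hAx : ‖A + x‖ ≤ 11 / 10 := by
      refine (norm_add_le _ _).trans ?_
      linarith
    have key : ∀ j : ℕ, k₀ + 2 * j ≤ k → ‖om d A (k₀ + 2 * j) x‖ ≤ r₂ := by
      intro j hj
      have hjk : 2 * (j : ℝ) ≤ k := by exact_mod_cast (show 2 * j ≤ k by omega)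
      have h1 : C * ‖x‖ * (R + 6 * kap d * j) ≤ s := by
        have h2 : C * ‖x‖ * (6 * kap d * j) ≤ C * ‖x‖ * (3 * kap d * k) := by
          apply mul_le_mul_of_nonneg_left _ (by positivity)
          nlinarith
        nlinarith
      obtain ⟨b1, b2, -⟩ := stayG rfl hκ0 hr₂0 hC (fun L v g1 g2 g3 => hstep L v g1
        (g2.trans hr₂r) g3) hLL' hx1 le_rfl a1 a2 a3 j h1
      obtain ⟨v, hv⟩ : ∃ v, v = om d A (k₀ + 2 * j) x := ⟨_, rfl⟩
      rw [← hv] at b1 b2 ⊢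
      have hn : 0 < ‖v‖ := norm_pos_iff.2 b1
      have hW : ‖(v ^ 2)⁻¹‖ = (‖v‖ ^ 2)⁻¹ := by rw [norm_inv, norm_pow]
      have h4 : 1 / r₂ ^ 2 ≤ (‖v‖ ^ 2)⁻¹ := by
        rw [← hW]
        have := re_le_norm ((v ^ 2)⁻¹)
        have : 0 ≤ 2 * kap d * (j : ℝ) := by positivity
        linarith
      have h6 : ‖v‖ ^ 2 ≤ r₂ ^ 2 := by
        rw [one_div, inv_le_inv₀ (by positivity) (by positivity)] at h4
        exact h4
      exact (pow_le_pow_iff_left₀ hn.le hr₂0.le two_ne_zero).1 h6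
    rw [P_eq hd, norm_mul]
    have hfin : ∀ w : ℂ, ‖w‖ ≤ 1 / 8 → ‖A + x‖ * ‖1 + w‖ ≤ 2 := by
      intro w hw
      have : ‖1 + w‖ ≤ 9 / 8 := by
        refine (norm_add_le _ _).trans ?_
        rw [norm_one]
        linarith
      calc ‖A + x‖ * ‖1 + w‖ ≤ 11 / 10 * (9 / 8) := mul_le_mul hAx this (norm_nonneg _) (by norm_num)
        _ ≤ 2 := by norm_num
    rcases Nat.even_or_odd' (k - k₀) with ⟨j, hj | hj⟩
    · have : k = k₀ + 2 * j := by omega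
      rw [this]
      exact hfin _ ((key j (by omega)).trans (by linarith))
    · have : k = k₀ + 2 * j + 1 := by omega
      rw [this, om_succ]
      apply hfin
      have h1 := key j (by omega)
      rw [FF_eq (by omega), norm_mul, norm_mul]
      have h2 : ‖EE d (om d A (k₀ + 2 * j) x)‖ ≤ E := by
        apply hE
        rw [mem_closedBall_zero_iff]
        linarith
      have h3 : ‖LL d A x‖ * ‖om d A (k₀ + 2 * j) x‖ * ‖EE d (om d A (k₀ + 2 * j) x)‖ ≤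
          5 / 4 * r₂ * E := by
        apply mul_le_mul _ h2 (norm_nonneg _) (by positivity)
        exact mul_le_mul hL2 h1 (norm_nonneg _) (by norm_num)
      nlinarith

theorem slowC {d : ℕ} (hd : 2 ≤ d) {A : ℂ} (hA : A ^ (d - 1) = -1 / d) :
    ∃ δ κ' : ℝ, 0 < δ ∧ 0 < κ' ∧ ∀ c : ℂ, ‖c - cc d A 0‖ ≤ δ → ∀ k : ℕ,
      (k : ℝ) * ‖c - cc d A 0‖ ≤ κ' → ‖P d k c‖ ≤ 2 := by
  obtain ⟨δ, κ', hδ, hκ', h⟩ := slowX hd hA
  obtain ⟨C, δ₁, hC, hδ₁, hinv⟩ := inv0 hd hA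
  refine ⟨min δ₁ (δ / C), κ' / C, by positivity, by positivity, ?_⟩
  intro c hc k hk
  obtain ⟨x, hx1, hx2⟩ := hinv c (hc.trans (min_le_left _ _))
  have hc2 := hc.trans (min_le_right _ _)
  rw [le_div_iff₀ hC] at hc2 hk
  rw [← hx1]
  apply h x
  · linarith
  · have := mul_le_mul_of_nonneg_left hx2 (Nat.cast_nonneg (α := ℝ) k)
    linarith

/-- upper bound of the escape rate when the orbit stays bounded for a long time -/
theorem green_lowerG {d : ℕ} (hd : 2 ≤ d) {ψ : ℂ → ℂ} (hψ : IsExteriorMap (multibrotSet d) ψ)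
    {z : ℂ} (hz : 1 < ‖z‖) {n : ℕ} (h1 : ‖ψ z‖ ≤ 2) (h2 : ‖P d (n + 1) (ψ z)‖ ≤ 2) :
    ‖z‖ ^ (d ^ n) ≤ 3 := by
  obtain ⟨β, hβ⟩ := exists_beta (d := d) hd
  rw [exteriorMap_unique hβ hψ hz] at h1 h2
  obtain ⟨hx, hx0⟩ := inv_mem_ball hz
  obtain ⟨c, hc⟩ : ∃ c, c = z * β z⁻¹ := ⟨_, rfl⟩
  rw [← hc] at h1 h2
  have hgrow : ∀ j, ‖P d (n + 1 + j) c‖ ≤ 3 ^ (d ^ j) - 1 := by
    intro j
    induction j with
    | zero =>
      rw [add_zero, pow_zero, pow_one]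
      linarith
    | succ j ih =>
      rw [← add_assoc, P_succ]
      obtain ⟨X, hX⟩ : ∃ X : ℝ, X = 3 ^ (d ^ j) := ⟨_, rfl⟩
      have h3 : (3 : ℝ) ≤ X := by
        rw [hX]
        have : (3 : ℝ) ^ 1 ≤ 3 ^ (d ^ j) :=
          pow_le_pow_right₀ (by norm_num) (Nat.one_le_pow _ _ (by omega))
        rwa [pow_one] at this
      rw [← hX] at ih
      have h4 := norm_add_le (P d (n + 1 + j) c ^ d) c
      rw [norm_pow] at h4
      have h5 : ‖P d (n + 1 + j) c‖ ^ d ≤ (X - 1) ^ d := pow_le_pow_left₀ (norm_nonneg _) ih d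
      have h6 : (3 : ℝ) ^ (d ^ (j + 1)) = X ^ d := by
        rw [hX, ← pow_mul, pow_succ]
      rw [h6]
      have h7 : (X - 1) ^ d + 3 ≤ X ^ d := by
        obtain ⟨e, rfl⟩ : ∃ e, d = e + 1 := ⟨d - 1, by omega⟩
        have h8 : (X - 1) ^ e ≤ X ^ e := pow_le_pow_left₀ (by linarith) (by linarith) e
        have h9 : X ≤ X ^ e := le_self_pow₀ (by linarith) (by omega)
        rw [pow_succ, pow_succ]
        have h10 : (X - 1) ^ e * (X - 1) ≤ X ^ e * (X - 1) :=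
          mul_le_mul_of_nonneg_right h8 (by linarith)
        nlinarith
      linarith
  obtain ⟨κ, hκ⟩ : ∃ κ, κ = Real.exp (-(2 * Real.log 2 * ‖z⁻¹‖ / (1 - ‖z⁻¹‖))) := ⟨_, rfl⟩
  have hκ0 : 0 < κ := by rw [hκ]; exact Real.exp_pos _
  by_contra hcon
  push Not at hcon
  have hzpos : 0 < ‖z‖ := by linarith
  have key : ∀ j, κ ≤ (3 / ‖z‖ ^ (d ^ n)) ^ (d ^ j) := by
    intro j
    have h3 := Pool.Agent.W677.MB.BB_lower hd hβ (n + j) hx
    rw [← hκ, BB_eq hd β (n + j) z⁻¹ hx0, inv_inv, ← hc, norm_mul, norm_pow, norm_inv] at h3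
    have h4 := hgrow j
    rw [show n + 1 + j = n + j + 1 by ring] at h4
    have h5 : ‖z‖⁻¹ ^ d ^ (n + j) * ‖P d (n + j + 1) c‖ ≤ ‖z‖⁻¹ ^ d ^ (n + j) * 3 ^ (d ^ j) :=
      mul_le_mul_of_nonneg_left (by linarith) (by positivity)
    refine h3.trans (h5.trans (le_of_eq ?_))
    rw [div_pow, ← pow_mul, ← pow_add, inv_pow]
    field_simp
  have hlt : 3 / ‖z‖ ^ (d ^ n) < 1 := by
    rw [div_lt_one (by positivity)]
    exact hcon
  have hlim : Tendsto (fun j : ℕ => (3 / ‖z‖ ^ (d ^ n)) ^ (d ^ j)) atTop (𝓝 0) :=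
    (tendsto_pow_atTop_nhds_zero_of_lt_one (by positivity) hlt).comp
      (tendsto_pow_atTop_atTop_of_one_lt (by omega : 1 < d))
  have := ge_of_tendsto' hlim key
  linarith

theorem cc0_le {d : ℕ} (hd : 2 ≤ d) {A : ℂ} (hA : A ^ (d - 1) = -1 / d) :
    ‖cc d A 0‖ ≤ 3 / 2 := by
  have := P_bd0 hd hA 1
  rwa [P_one hd] at this

/-- **the level curves stay away from the parameter of multiplier `-1`** -/
theorem distG {d : ℕ} (hd : 2 ≤ d) {A : ℂ} (hA : A ^ (d - 1) = -1 / d) :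
    ∃ a ρ₀ : ℝ, 0 < a ∧ 0 < ρ₀ ∧ ∀ ψ : ℂ → ℂ, IsExteriorMap (multibrotSet d) ψ →
      (∀ z : ℂ, 1 < ‖z‖ → ‖ψ z - cc d A 0‖ ≤ ρ₀ → ‖z‖ ≤ 2) ∧
      ∀ z : ℂ, 1 < ‖z‖ → ‖z‖ ≤ 2 →
        a ≤ ‖ψ z - cc d A 0‖ * (1 + Real.log (1 / (‖z‖ - 1))) := by
  obtain ⟨δ, κ, hδ, hκ, hslow⟩ := slowC hd hA
  have hdr : (2 : ℝ) ≤ d := by exact_mod_cast hd
  refine ⟨min δ (κ / 3), min δ (κ / 3), by positivity, by positivity, ?_⟩
  intro ψ hψ
  constructor
  · intro z hz hρ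
    have hρ1 := hρ.trans (min_le_left _ _)
    have hρ2 := hρ.trans (min_le_right _ _)
    rw [le_div_iff₀ (by norm_num)] at hρ2
    have h1 := hslow (ψ z) hρ1 1 (by push_cast; linarith [norm_nonneg (ψ z - cc d A 0)])
    have h3 := hslow (ψ z) hρ1 (1 + 1) (by push_cast; linarith [norm_nonneg (ψ z - cc d A 0)])
    rw [P_one hd] at h1
    have h4 := green_lowerG hd hψ hz h1 h3
    rw [pow_one] at h4
    have h5 : ‖z‖ ^ 2 ≤ ‖z‖ ^ d := pow_le_pow_right₀ hz.le hd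
    nlinarith
  intro z hz hz2
  obtain ⟨ε, hε⟩ : ∃ ε, ε = ψ z - cc d A 0 := ⟨_, rfl⟩
  have hε0 : ε ≠ 0 := by
    intro h
    have h1 : ψ z ∈ (multibrotSet d)ᶜ := by
      rw [← hψ.image]
      exact ⟨z, hz, rfl⟩
    rw [h] at hε
    rw [sub_eq_zero.1 hε.symm] at h1
    exact h1 (mem0 hd hA)
  have hn : 0 < ‖ε‖ := norm_pos_iff.2 hε0
  rw [← hε]
  have hh : 0 < ‖z‖ - 1 := by linarith
  have hlog : 0 ≤ Real.log (1 / (‖z‖ - 1)) := by
    apply Real.log_nonneg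
    rw [le_div_iff₀ hh]
    linarith
  rcases lt_or_ge δ ‖ε‖ with h | h
  · refine (min_le_left _ _).trans ?_
    nlinarith
  · refine (min_le_right _ _).trans ?_
    rw [hε] at h
    obtain ⟨k, hk⟩ : ∃ k, k = ⌊κ / ‖ε‖⌋₊ := ⟨_, rfl⟩
    have hk1 : (k : ℝ) * ‖ε‖ ≤ κ := by
      have := Nat.floor_le (by positivity : 0 ≤ κ / ‖ε‖)
      rw [← hk, le_div_iff₀ hn] at this
      exact this
    have hk2 : κ < (k + 1) * ‖ε‖ := by
      have := Nat.lt_floor_add_one (κ / ‖ε‖)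
      rw [← hk, div_lt_iff₀ hn] at this
      exact this
    rcases Nat.eq_zero_or_pos k with h0 | h0
    · rw [h0] at hk2
      norm_num at hk2
      nlinarith
    · obtain ⟨n, rfl⟩ := Nat.exists_eq_add_of_le' h0
      have h1 : ‖P d (n + 1) (ψ z)‖ ≤ 2 := hslow (ψ z) h (n + 1) (by rw [← hε]; exact hk1)
      have h2 : ‖ψ z‖ ≤ 2 := by
        have := hslow (ψ z) h 1 (by
          rw [← hε]
          refine le_trans ?_ hk1
          apply mul_le_mul_of_nonneg_right _ hn.le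
          push_cast
          linarith [(Nat.cast_nonneg n : (0 : ℝ) ≤ n)])
        rw [P_one hd] at this
        exact this
      have h3 := green_lowerG hd hψ hz h2 h1
      have h4 := one_add_mul_le_pow (a := ‖z‖ - 1) (by linarith) (d ^ n)
      rw [show 1 + (‖z‖ - 1) = ‖z‖ by ring] at h4
      have h5 : (2 : ℝ) ^ n ≤ 2 * (1 / (‖z‖ - 1)) := by
        rw [mul_one_div, le_div_iff₀ hh]
        push_cast at h4
        have h6 : (2 : ℝ) ^ n ≤ (d : ℝ) ^ n := pow_le_pow_left₀ (by norm_num) hdr n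
        have h7 : (2 : ℝ) ^ n * (‖z‖ - 1) ≤ (d : ℝ) ^ n * (‖z‖ - 1) :=
          mul_le_mul_of_nonneg_right h6 hh.le
        linarith
      have h6 := Real.log_le_log (by positivity) h5
      rw [Real.log_pow, Real.log_mul (by norm_num) (by positivity)] at h6
      have hl2 := Real.log_two_gt_d9
      have h7 : (n : ℝ) ≤ 1 + 2 * Real.log (1 / (‖z‖ - 1)) := by
        by_contra hcon
        push Not at hcon
        have h8 : (1 + 2 * Real.log (1 / (‖z‖ - 1))) * Real.log 2 < n * Real.log 2 :=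
          mul_lt_mul_of_pos_right hcon (by linarith)
        nlinarith
      push_cast at hk2
      have h8 : ((n : ℝ) + 1 + 1) * ‖ε‖ ≤ 3 * (1 + Real.log (1 / (‖z‖ - 1))) * ‖ε‖ :=
        mul_le_mul_of_nonneg_right (by linarith) hn.le
      linarith

end Pool.Agent.W677.MC
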