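import Pool.Agent.W677.MC4
import Pool.Agent.W677.MB9

set_option autoImplicit false

/-! # The passage through the gate, all degrees: two lemmas -/

namespace Pool.Agent.W677.MC

open Complex Metric Set Filter Topology Pool.Agent.H712R2 Pool.Agent.H713R2 N62a1eb23

theorem circlesG {f : ℂ → ℂ} (hf : Differentiable ℂ f) {s m M : ℝ} {B T : ℕ} (hs : 0 < s)
    (hm : 0 ≤ m) (hM : 0 < M) (hB : 2 ≤ B) (hT : 1 ≤ T)
    (h1 : ∀ x : ℂ, ‖x‖ ≤ s / B → ‖f x‖ ≤ m) (h2 : ∀ x : ℂ, ‖x‖ ≤ s * (B : ℝ) ^ 4 → ‖f x‖ ≤ M)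
    {x : ℂ} (hx : ‖x‖ ≤ s) : ‖f x‖ ≤ 2 * m * T + 2 * M / (T : ℝ) ^ 4 := by
  have hn : ∀ y : ℂ, ‖((5 / M : ℝ) : ℂ) * f y‖ = 5 / M * ‖f y‖ := fun y => by
    rw [norm_mul, Complex.norm_real, Real.norm_of_nonneg (by positivity)]
  have h3 := Pool.Agent.W677.MB.circles (f := fun y => ((5 / M : ℝ) : ℂ) * f y)
    (hf.const_mul _) (m := 5 / M * m) hs (by positivity) hB hT
    (fun y hy => by
      rw [hn]
      exact mul_le_mul_of_nonneg_left (h1 y hy) (by positivity))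
    (fun y hy => by
      rw [hn]
      calc 5 / M * ‖f y‖ ≤ 5 / M * M := mul_le_mul_of_nonneg_left (h2 y hy) (by positivity)
        _ = 5 := by field_simp) hx
  rw [hn] at h3
  have h4 := mul_le_mul_of_nonneg_left h3 (show 0 ≤ M / 5 by positivity)
  have e1 : M / 5 * (5 / M * ‖f x‖) = ‖f x‖ := by field_simp
  have e2 : M / 5 * (2 * (5 / M * m) * T + 10 / (T : ℝ) ^ 4) = 2 * m * T + 2 * M / (T : ℝ) ^ 4 := by
    have hT0 : (T : ℝ) ≠ 0 := by exact_mod_cast (show T ≠ 0 by omega)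
    field_simp
    ring
  rw [e1, e2] at h4
  exact h4

/-- the late phase -/
theorem lateG {d : ℕ} (hd : 2 ≤ d) {A : ℂ} (hA0 : 0 < ‖A‖) {k₀ n B T : ℕ}
    {J R κ s C₁ r Q M : ℝ} (hT1 : 1 ≤ T) (hJ : J = (T : ℝ) ^ 10) (hJ1 : 1 ≤ J) (hR : 1 ≤ R)
    (hκ0 : 0 < κ) (hs : 0 < s) (hC₁ : 0 < C₁) (hr0 : 0 < r) (hQ1 : 1 ≤ Q)
    (hQ2 : 12 * C₁ / s ≤ Q ^ 2) (hM : M = 1 + 8 / ‖A‖) (hB2 : 2 ≤ B)
    (hB' : 2 * C₁ * (R + 6 * κ) ≤ s * B) (hJR : 4 * C₁ * R / s ≤ J)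
    (hJA : 2 * (B : ℝ) ^ 4 / J ≤ ‖A‖ / 2)
    (hearly : ∀ x : ℂ, ‖x‖ ≤ 2 / J → C₁ * ‖x‖ * (R + 6 * κ * n) ≤ s →
      ‖om d A (k₀ + 2 * n) x‖ ^ 2 * (1 / r ^ 2 + 2 * κ * n) ≤ 1)
    (hneg : ∀ x : ℂ, ‖x‖ ≤ 2 * (B : ℝ) ^ 4 / J → ‖P d (k₀ + 2 * n) (cc d A x)‖ ≤ 4)
    (hn : (n : ℝ) ≤ J) (hn2 : s < C₁ * (2 / J) * (R + 6 * κ * n))
    {η : ℂ} (hη : ‖η‖ ≤ 2 / J) :
    ‖om d A (k₀ + 2 * n) η‖ ≤ (2 * Q + 2 * M) / (T : ℝ) ^ 4 := by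
  have hn0 : (0 : ℝ) ≤ n := Nat.cast_nonneg n
  have hT0 : (0 : ℝ) < T := by exact_mod_cast (show 0 < T by omega)
  have hJ0 : 0 < J := by linarith
  have hBr2 : (2 : ℝ) ≤ B := by exact_mod_cast hB2
  have hM0 : 0 < M := by rw [hM]; positivity
  have h1 : ∀ x : ℂ, ‖x‖ ≤ (2 / J) / B → ‖om d A (k₀ + 2 * n) x‖ ≤ Q / (T : ℝ) ^ 5 := by
    intro x hx
    have hx1 : ‖x‖ ≤ 2 / J := by
      refine hx.trans ?_
      apply div_le_self (by positivity)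
      linarith
    have h2 := hearly x hx1 (by
      have h3 : C₁ * ‖x‖ * (R + 6 * κ * n) ≤ C₁ * ((2 / J) / B) * (R * J + 6 * κ * J) := by
        apply mul_le_mul
        · exact mul_le_mul_of_nonneg_left hx hC₁.le
        · have h4 : R ≤ R * J := le_mul_of_one_le_right (by linarith) (by linarith)
          have h5 : 6 * κ * n ≤ 6 * κ * J := mul_le_mul_of_nonneg_left hn (by positivity)
          linarith
        · positivity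
        · positivity
      refine h3.trans ?_
      have e : C₁ * ((2 / J) / B) * (R * J + 6 * κ * J) = 2 * C₁ * (R + 6 * κ) / B := by
        field_simp
      rw [e, div_le_iff₀ (by linarith)]
      exact hB')
    have h3 : s * J / (12 * C₁) ≤ 1 / r ^ 2 + 2 * κ * n := by
      have h4 : s * J < C₁ * 2 * (R + 6 * κ * n) := by
        have e : C₁ * (2 / J) * (R + 6 * κ * n) = C₁ * 2 * (R + 6 * κ * n) / J := by ring
        rw [e, lt_div_iff₀ hJ0] at hn2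
        exact hn2
      have h5 : 4 * C₁ * R ≤ s * J := by
        rw [div_le_iff₀ hs] at hJR
        linarith
      rw [div_le_iff₀ (by positivity)]
      have h6 : 0 < 1 / r ^ 2 * (12 * C₁) := by positivity
      have e1 : (1 / r ^ 2 + 2 * κ * n) * (12 * C₁) = 1 / r ^ 2 * (12 * C₁) +
        24 * (C₁ * κ * n) := by ring
      have e2 : C₁ * 2 * (R + 6 * κ * n) = 2 * (C₁ * R) + 12 * (C₁ * κ * n) := by ring
      rw [e1]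
      rw [e2] at h4
      linarith
    have h4 : ‖om d A (k₀ + 2 * n) x‖ ^ 2 * (s * J / (12 * C₁)) ≤ 1 :=
      (mul_le_mul_of_nonneg_left h3 (sq_nonneg _)).trans h2
    have h5 : ‖om d A (k₀ + 2 * n) x‖ ^ 2 ≤ (Q / (T : ℝ) ^ 5) ^ 2 := by
      rw [div_pow, ← pow_mul, le_div_iff₀ (by positivity)]
      have h6 : ‖om d A (k₀ + 2 * n) x‖ ^ 2 * J ≤ 12 * C₁ / s := by
        rw [le_div_iff₀ hs]
        rw [mul_div_assoc', div_le_iff₀ (by positivity)] at h4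
        linarith
      have e : (5 * 2 : ℕ) = 10 := by norm_num
      rw [e, ← hJ]
      linarith
    exact (pow_le_pow_iff_left₀ (norm_nonneg _) (by positivity) two_ne_zero).1 h5
  have h2 : ∀ x : ℂ, ‖x‖ ≤ (2 / J) * (B : ℝ) ^ 4 → ‖om d A (k₀ + 2 * n) x‖ ≤ M := by
    intro x hx
    have hx2 : ‖x‖ ≤ 2 * (B : ℝ) ^ 4 / J := by
      refine hx.trans (le_of_eq ?_)
      ring
    have h3 := hneg x hx2
    rw [P_eq hd, norm_mul] at h3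
    have h4 : ‖A‖ / 2 ≤ ‖A + x‖ := by
      have h5 := norm_sub_norm_le A (-x)
      rw [norm_neg, sub_neg_eq_add] at h5
      linarith
    have h5 : ‖1 + om d A (k₀ + 2 * n) x‖ ≤ 8 / ‖A‖ := by
      rw [le_div_iff₀ hA0]
      have h6 : ‖A‖ / 2 * ‖1 + om d A (k₀ + 2 * n) x‖ ≤ 4 :=
        (mul_le_mul_of_nonneg_right h4 (norm_nonneg _)).trans h3
      linarith
    have h6 := norm_sub_le (1 + om d A (k₀ + 2 * n) x) 1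
    rw [add_sub_cancel_left, norm_one] at h6
    rw [hM]
    linarith
  have h3 := circlesG (om_diff d A (k₀ + 2 * n)) (s := 2 / J) (m := Q / (T : ℝ) ^ 5)
    (by positivity) (by positivity) hM0 hB2 hT1 h1 h2 hη
  refine h3.trans (le_of_eq ?_)
  field_simp

/-- the recursion of the inverse squares -/
theorem recG {d : ℕ} {l : ℂ} {v : ℕ → ℂ} {J R G C Cg κ rg : ℝ} {T : ℕ} (hT1 : 1 ≤ T)
    (hJ : J = (T : ℝ) ^ 10) (hJ1 : 1 ≤ J) (hR : 1 ≤ R) (hκ : κ = kap d) (hκ0 : 0 < κ)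
    (hCg : 0 < Cg) (hrg1 : rg ≤ 1) (hG : G = 4 * κ + 2 * Cg) (hC : C = R + G)
    (hstepG : ∀ L v : ℂ,
      ‖1 + L‖ ≤ 1 / 4 → v ≠ 0 → ‖v‖ ≤ rg → ‖1 + L‖ ≤ ‖v‖ → FF d L (FF d L v) ≠ 0 ∧
      ‖L ^ 4 * ((FF d L (FF d L v)) ^ 2)⁻¹ - (v ^ 2)⁻¹ - 4 * kap d‖ ≤
        Cg * (‖1 + L‖ / ‖v‖ + ‖v‖))
    (hlnorm : ‖l‖ = 1) (hl1 : ‖1 + l‖ ≤ 2 / J) (hl14 : ‖1 + l‖ ≤ 1 / 4)
    (hvs : ∀ n, v (n + 1) = FF d l (FF d l (v n))) (hsm : ∀ n : ℕ, (n : ℝ) ≤ J → ‖v n‖ ≤ rg)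
    (hCT : 2 * C / (T : ℝ) ^ 5 ≤ 1) (h0 : v 0 ≠ 0) (h0' : ‖((v 0) ^ 2)⁻¹‖ ≤ R) :
    ∀ n : ℕ, (n : ℝ) ≤ J → v n ≠ 0 ∧ ‖((v n) ^ 2)⁻¹‖ ≤ R + G * n ∧
      ‖(l ^ 4) ^ n * ((v n) ^ 2)⁻¹ - 4 * κ * ∑ i ∈ Finset.range n, (l ^ 4) ^ i - ((v 0) ^ 2)⁻¹‖ ≤
        ∑ i ∈ Finset.range n, Cg * (2 * C / (T : ℝ) ^ 5 + ‖v i‖) := by
  have hT0 : (0 : ℝ) < T := by exact_mod_cast (show 0 < T by omega)
  have hG0 : 0 < G := by rw [hG]; positivity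
  have hC1 : 1 ≤ C := by rw [hC]; linarith
  have hl4n : ‖l ^ 4‖ = 1 := by rw [norm_pow, hlnorm, one_pow]
  intro n
  induction n with
  | zero =>
    intro _
    refine ⟨h0, ?_, by simp⟩
    push_cast
    linarith
  | succ n ih =>
    intro hn
    push_cast at hn
    have hn' : (n : ℝ) ≤ J := by linarith
    obtain ⟨h1, h2, h3⟩ := ih hn'
    have hvn : 0 < ‖v n‖ := norm_pos_iff.2 h1
    have hn0 : (0 : ℝ) ≤ n := Nat.cast_nonneg n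
    have h4 : (‖v n‖ ^ 2)⁻¹ ≤ C * J := by
      rw [norm_inv, norm_pow] at h2
      refine h2.trans ?_
      rw [hC]
      have h5 : R ≤ R * J := le_mul_of_one_le_right (by linarith) (by linarith)
      have h6 : G * n ≤ G * J := mul_le_mul_of_nonneg_left hn' hG0.le
      linarith
    have h5 : (‖v n‖)⁻¹ ≤ C * (T : ℝ) ^ 5 := by
      have h6 : ((‖v n‖)⁻¹) ^ 2 ≤ (C * (T : ℝ) ^ 5) ^ 2 := by
        rw [inv_pow]
        refine h4.trans ?_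
        rw [mul_pow, ← pow_mul, hJ]
        apply mul_le_mul_of_nonneg_right _ (by positivity)
        exact le_self_pow₀ hC1 (by norm_num)
      exact (pow_le_pow_iff_left₀ (by positivity) (by positivity) two_ne_zero).1 h6
    have h6 : ‖1 + l‖ / ‖v n‖ ≤ 2 * C / (T : ℝ) ^ 5 := by
      rw [div_eq_mul_inv]
      calc ‖1 + l‖ * (‖v n‖)⁻¹ ≤ 2 / J * (C * (T : ℝ) ^ 5) :=
            mul_le_mul hl1 h5 (by positivity) (by positivity)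
        _ = 2 * C / (T : ℝ) ^ 5 := by
            rw [hJ]
            field_simp
    have h7 : ‖1 + l‖ ≤ ‖v n‖ := by
      have := h6.trans hCT
      rwa [div_le_one hvn] at this
    have hvr := hsm n hn'
    obtain ⟨h8, h9⟩ := hstepG l (v n) hl14 h1 hvr h7
    rw [← hvs, ← hκ] at h9
    rw [← hvs] at h8
    have h10 : ‖l ^ 4 * ((v (n + 1)) ^ 2)⁻¹ - ((v n) ^ 2)⁻¹ - 4 * κ‖ ≤
        Cg * (2 * C / (T : ℝ) ^ 5 + ‖v n‖) := by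
      refine h9.trans ?_
      apply mul_le_mul_of_nonneg_left _ hCg.le
      linarith
    refine ⟨h8, ?_, ?_⟩
    · have e : ‖((v (n + 1)) ^ 2)⁻¹‖ = ‖l ^ 4 * ((v (n + 1)) ^ 2)⁻¹‖ := by
        rw [norm_mul, hl4n, one_mul]
      have e2 : l ^ 4 * ((v (n + 1)) ^ 2)⁻¹ =
          (l ^ 4 * ((v (n + 1)) ^ 2)⁻¹ - ((v n) ^ 2)⁻¹ - 4 * κ) + ((v n) ^ 2)⁻¹ + 4 * κ := by
        ring
      rw [e, e2]
      have m1 := norm_add_le ((l ^ 4 * ((v (n + 1)) ^ 2)⁻¹ - ((v n) ^ 2)⁻¹ - 4 * κ) +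
        ((v n) ^ 2)⁻¹) (4 * (κ : ℂ))
      have m2 := norm_add_le (l ^ 4 * ((v (n + 1)) ^ 2)⁻¹ - ((v n) ^ 2)⁻¹ - 4 * κ)
        (((v n) ^ 2)⁻¹)
      have m3 : ‖4 * (κ : ℂ)‖ = 4 * κ := by
        rw [norm_mul, Complex.norm_ofNat, Complex.norm_real, Real.norm_of_nonneg hκ0.le]
      have m4 : Cg * (2 * C / (T : ℝ) ^ 5 + ‖v n‖) ≤ Cg * 2 := by
        apply mul_le_mul_of_nonneg_left _ hCg.le
        linarith
      have m5 : G * ((n : ℝ) + 1) = G * n + G := by ring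
      push_cast
      rw [m5]
      linarith
    · rw [Finset.sum_range_succ, Finset.sum_range_succ]
      have e : (l ^ 4) ^ (n + 1) * ((v (n + 1)) ^ 2)⁻¹ -
          4 * κ * (∑ i ∈ Finset.range n, (l ^ 4) ^ i + (l ^ 4) ^ n) - ((v 0) ^ 2)⁻¹ =
          ((l ^ 4) ^ n * ((v n) ^ 2)⁻¹ - 4 * κ * ∑ i ∈ Finset.range n, (l ^ 4) ^ i -
            ((v 0) ^ 2)⁻¹) +
          (l ^ 4) ^ n * (l ^ 4 * ((v (n + 1)) ^ 2)⁻¹ - ((v n) ^ 2)⁻¹ - 4 * κ) := by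
        rw [pow_succ]
        ring
      rw [e]
      refine (norm_add_le _ _).trans (add_le_add h3 ?_)
      rw [norm_mul, norm_pow, hl4n, one_pow, one_mul]
      exact h10

/-- the end of the argument -/
theorem endG {v : ℕ → ℂ} {l : ℂ} {J R C Cg κ p W D : ℝ} {T Jn : ℕ} (hT1 : 1 ≤ T)
    (hJ : J = (T : ℝ) ^ 10) (hJnJ : (Jn : ℝ) = J) (hJn2 : 2 ≤ Jn) (hR : 1 ≤ R) (hCg : 0 < Cg)
    (hC1 : 1 ≤ C) (hp1 : 1 ≤ p) (hW0 : 0 < W) (hD : D = R + Cg * (2 * C + 2 * p + W))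
    (hprim : IsPrimitiveRoot (l ^ 4) Jn) (h0' : ‖((v 0) ^ 2)⁻¹‖ ≤ R) (a1 : v Jn ≠ 0)
    (a3 : ‖(l ^ 4) ^ Jn * ((v Jn) ^ 2)⁻¹ - 4 * κ * ∑ i ∈ Finset.range Jn, (l ^ 4) ^ i -
      ((v 0) ^ 2)⁻¹‖ ≤ ∑ i ∈ Finset.range Jn, Cg * (2 * C / (T : ℝ) ^ 5 + ‖v i‖))
    (hboth : ∀ n : ℕ, (n : ℝ) ≤ J →
      ‖v n‖ ≤ p * (1 / Real.sqrt ((n : ℝ) + 1)) + W / (T : ℝ) ^ 4)
    (a11 : ‖v Jn‖ ≤ W / (T : ℝ) ^ 4) : (T : ℝ) ≤ D * W ^ 2 := by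
  have hT1' : (1 : ℝ) ≤ T := by exact_mod_cast hT1
  have hT0 : (0 : ℝ) < T := by linarith
  rw [hprim.geom_sum_eq_zero (by omega), mul_zero, sub_zero, hprim.pow_eq_one, one_mul] at a3
  have a5 : ‖((v Jn) ^ 2)⁻¹‖ ≤ R +
      ∑ i ∈ Finset.range Jn, Cg * (2 * C / (T : ℝ) ^ 5 + ‖v i‖) := by
    have h1 : ((v Jn) ^ 2)⁻¹ = (((v Jn) ^ 2)⁻¹ - ((v 0) ^ 2)⁻¹) + ((v 0) ^ 2)⁻¹ := by ring
    rw [h1]
    refine (norm_add_le _ _).trans ?_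
    linarith
  have a6 : ∑ i ∈ Finset.range Jn, Cg * (2 * C / (T : ℝ) ^ 5 + ‖v i‖) ≤
      ∑ i ∈ Finset.range Jn, (Cg * (2 * C / (T : ℝ) ^ 5 + W / (T : ℝ) ^ 4) +
        Cg * p * (1 / Real.sqrt ((i : ℝ) + 1))) := by
    apply Finset.sum_le_sum
    intro i hi
    have h1 := hboth i (by
      rw [← hJnJ]
      exact_mod_cast (Finset.mem_range.1 hi).le)
    have h2 := mul_le_mul_of_nonneg_left h1 hCg.le
    have e1 : Cg * (2 * C / (T : ℝ) ^ 5 + ‖v i‖) = Cg * (2 * C / (T : ℝ) ^ 5) + Cg * ‖v i‖ := by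
      ring
    have e2 : Cg * (2 * C / (T : ℝ) ^ 5 + W / (T : ℝ) ^ 4) +
        Cg * p * (1 / Real.sqrt ((i : ℝ) + 1)) = Cg * (2 * C / (T : ℝ) ^ 5) +
        Cg * (p * (1 / Real.sqrt ((i : ℝ) + 1)) + W / (T : ℝ) ^ 4) := by ring
    rw [e1, e2]
    linarith
  have a6b : ∑ i ∈ Finset.range Jn, (Cg * (2 * C / (T : ℝ) ^ 5 + W / (T : ℝ) ^ 4) +
        Cg * p * (1 / Real.sqrt ((i : ℝ) + 1))) =
      J * (Cg * (2 * C / (T : ℝ) ^ 5 + W / (T : ℝ) ^ 4)) +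
        Cg * p * ∑ i ∈ Finset.range Jn, 1 / Real.sqrt ((i : ℝ) + 1) := by
    rw [Finset.sum_add_distrib, Finset.sum_const, Finset.card_range, nsmul_eq_mul, hJnJ,
      ← Finset.mul_sum]
  rw [a6b] at a6
  have a7 := Pool.Agent.W677.MB.sum_sqrt_le Jn
  have a8 : Real.sqrt (Jn : ℝ) = (T : ℝ) ^ 5 := by
    rw [hJnJ, hJ, show (T : ℝ) ^ 10 = ((T : ℝ) ^ 5) ^ 2 by ring]
    exact Real.sqrt_sq (by positivity)
  rw [a8] at a7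
  have a9 : J * (Cg * (2 * C / (T : ℝ) ^ 5 + W / (T : ℝ) ^ 4)) =
      Cg * (2 * C * (T : ℝ) ^ 5 + W * (T : ℝ) ^ 6) := by
    rw [hJ]
    field_simp
  rw [a9] at a6
  have a7' := mul_le_mul_of_nonneg_left a7 (show 0 ≤ Cg * p by positivity)
  have hT56 : (T : ℝ) ^ 5 ≤ (T : ℝ) ^ 6 := pow_le_pow_right₀ hT1' (by norm_num)
  have hT6 : (1 : ℝ) ≤ (T : ℝ) ^ 6 := one_le_pow₀ hT1'
  have a10 : ‖((v Jn) ^ 2)⁻¹‖ ≤ D * (T : ℝ) ^ 6 := by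
    have h1 : R ≤ R * (T : ℝ) ^ 6 := le_mul_of_one_le_right (by linarith) hT6
    have h2 : Cg * (2 * C) * (T : ℝ) ^ 5 ≤ Cg * (2 * C) * (T : ℝ) ^ 6 :=
      mul_le_mul_of_nonneg_left hT56 (by positivity)
    have h3 : Cg * p * (2 * (T : ℝ) ^ 5) ≤ Cg * p * (2 * (T : ℝ) ^ 6) :=
      mul_le_mul_of_nonneg_left (by linarith) (by positivity)
    have h4 : D * (T : ℝ) ^ 6 = R * (T : ℝ) ^ 6 + Cg * (2 * C) * (T : ℝ) ^ 6 +
        Cg * p * (2 * (T : ℝ) ^ 6) + Cg * (W * (T : ℝ) ^ 6) := by rw [hD]; ring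
    have h5 : Cg * (2 * C * (T : ℝ) ^ 5 + W * (T : ℝ) ^ 6) =
        Cg * (2 * C) * (T : ℝ) ^ 5 + Cg * (W * (T : ℝ) ^ 6) := by ring
    rw [h4]
    linarith
  have hD0 : 0 < D := by rw [hD]; positivity
  have hvJ : 0 < ‖v Jn‖ := norm_pos_iff.2 a1
  have a12 : 1 ≤ D * (T : ℝ) ^ 6 * (W / (T : ℝ) ^ 4) ^ 2 := by
    rw [norm_inv, norm_pow] at a10
    calc (1 : ℝ) = (‖v Jn‖ ^ 2)⁻¹ * ‖v Jn‖ ^ 2 := by
          rw [inv_mul_cancel₀]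
          positivity
      _ ≤ D * (T : ℝ) ^ 6 * (W / (T : ℝ) ^ 4) ^ 2 :=
          mul_le_mul a10 (pow_le_pow_left₀ hvJ.le a11 2) (by positivity) (by positivity)
  have a13 : D * (T : ℝ) ^ 6 * (W / (T : ℝ) ^ 4) ^ 2 = D * W ^ 2 / (T : ℝ) ^ 2 := by
    field_simp
  rw [a13, le_div_iff₀ (by positivity), one_mul] at a12
  exact (le_self_pow₀ hT1' (by norm_num)).trans a12

end Pool.Agent.W677.MC
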