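import Pool.Agent.W677.MC5

set_option autoImplicit false

/-! # The passage through the gate, all degrees -/

namespace Pool.Agent.W677.MC

open Complex Metric Set Filter Topology Pool.Agent.H712R2 Pool.Agent.H713R2 N62a1eb23

/-- the resonant parameter -/
theorem resG {d : ℕ} (hd : 2 ≤ d) {A : ℂ} (hA : A ^ (d - 1) = -1 / d) (hA1 : ‖A‖ ≤ 1)
    {J : ℝ} {Jn : ℕ} (hJnJ : (Jn : ℝ) = J) (hJn2 : 2 ≤ Jn) :
    ∃ η l : ℂ, l = LL d A η ∧ ‖η‖ ≤ 2 / J ∧ ‖l‖ = 1 ∧ ‖1 + l‖ ≤ 2 / J ∧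
      IsPrimitiveRoot (l ^ 4) Jn := by
  have hJ0 : 0 < J := by rw [← hJnJ]; exact_mod_cast (show 0 < Jn by omega)
  have hd1 : (0 : ℝ) < ((d - 1 : ℕ) : ℝ) := by exact_mod_cast (show 0 < d - 1 by omega)
  have hd1' : (1 : ℝ) ≤ ((d - 1 : ℕ) : ℝ) := by exact_mod_cast (show 1 ≤ d - 1 by omega)
  obtain ⟨φ, hφ⟩ : ∃ φ : ℝ, φ = Real.pi / (2 * J) := ⟨_, rfl⟩
  have hφ0 : 0 < φ := by rw [hφ]; have := Real.pi_pos; positivity
  have hφ2 : φ ≤ 2 / J := by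
    rw [hφ, div_le_div_iff₀ (by positivity) hJ0]
    have := mul_le_mul_of_nonneg_right Real.pi_le_four hJ0.le
    linarith
  obtain ⟨θ, hθ⟩ : ∃ θ : ℝ, θ = φ / ((d - 1 : ℕ) : ℝ) := ⟨_, rfl⟩
  have hθ0 : 0 < θ := by rw [hθ]; positivity
  have hθφ : θ ≤ φ := by rw [hθ]; exact div_le_self hφ0.le hd1'
  obtain ⟨η, hη⟩ : ∃ η : ℂ, η = A * (Complex.exp (Complex.I * θ) - 1) := ⟨_, rfl⟩
  obtain ⟨l, hldef⟩ : ∃ l : ℂ, l = LL d A η := ⟨_, rfl⟩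
  have hl : l = -Complex.exp (Complex.I * φ) := by
    rw [hldef]
    unfold LL
    have h1 : A + η = A * Complex.exp (Complex.I * θ) := by rw [hη]; ring
    rw [h1, mul_pow, hA, ← Complex.exp_nat_mul]
    have h2 : ((d - 1 : ℕ) : ℂ) * (Complex.I * θ) = Complex.I * φ := by
      have h3 : ((d - 1 : ℕ) : ℂ) ≠ 0 := by exact_mod_cast (show d - 1 ≠ 0 by omega)
      rw [hθ]
      push_cast
      field_simp
    rw [h2]
    have hd0 : (d : ℂ) ≠ 0 := by exact_mod_cast (show d ≠ 0 by omega)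
    field_simp
  refine ⟨η, l, hldef, ?_, ?_, ?_, ?_⟩
  · rw [hη, norm_mul]
    have h1 := Real.norm_exp_I_mul_ofReal_sub_one_le (x := θ)
    rw [Real.norm_of_nonneg hθ0.le] at h1
    calc ‖A‖ * ‖Complex.exp (Complex.I * θ) - 1‖ ≤ 1 * θ :=
          mul_le_mul hA1 h1 (norm_nonneg _) zero_le_one
      _ ≤ 2 / J := by linarith
  · rw [hl, norm_neg, mul_comm, Complex.norm_exp_ofReal_mul_I]
  · have h1 := Real.norm_exp_I_mul_ofReal_sub_one_le (x := φ)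
    have e : 1 + l = -(Complex.exp (Complex.I * φ) - 1) := by rw [hl]; ring
    rw [e, norm_neg]
    refine h1.trans ?_
    rw [Real.norm_of_nonneg hφ0.le]
    exact hφ2
  · have hl4 : l ^ 4 = Complex.exp (2 * Real.pi * Complex.I / Jn) := by
      rw [hl]
      have e : (-Complex.exp (Complex.I * φ)) ^ 4 = Complex.exp (Complex.I * φ) ^ 4 := by ring
      rw [e, ← Complex.exp_nat_mul]
      congr 1
      have hJc : ((Jn : ℕ) : ℂ) = ((J : ℝ) : ℂ) := by rw [← hJnJ]; push_cast; rfl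
      have hJc0 : ((J : ℝ) : ℂ) ≠ 0 := by exact_mod_cast hJ0.ne'
      rw [hφ, hJc]
      push_cast
      field_simp
      norm_num
    rw [hl4]
    exact Complex.isPrimitiveRoot_exp Jn (by omega)

/-- the bound of the early phase -/
theorem sqrt_bound {κ q p r n x : ℝ} (hκ0 : 0 < κ) (hq0 : 0 < q) (hq1 : q ≤ 1)
    (hqκ : q ≤ 2 * κ) (hp : p = 1 / q) (hr0 : 0 < r) (hr1 : r ≤ 1) (hn : 0 ≤ n) (hx : 0 ≤ x)
    (h2 : x ^ 2 * (1 / r ^ 2 + 2 * κ * n) ≤ 1) : x ≤ p * (1 / Real.sqrt (n + 1)) := by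
  have hsq : 0 < Real.sqrt (n + 1) := Real.sqrt_pos.2 (by positivity)
  have hp0 : 0 < p := by rw [hp]; positivity
  have hp1 : 1 ≤ p := by rw [hp, le_div_iff₀ hq0]; linarith
  have h4 : x ^ 2 ≤ (p * (1 / Real.sqrt (n + 1))) ^ 2 := by
    rw [mul_one_div, div_pow, Real.sq_sqrt (by positivity), le_div_iff₀ (by positivity)]
    have h5 : q * (n + 1) ≤ 1 / r ^ 2 + 2 * κ * n := by
      have h6 : 1 ≤ 1 / r ^ 2 := by
        rw [le_div_iff₀ (by positivity), one_mul]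
        exact pow_le_one₀ hr0.le hr1
      have h7 : q * n ≤ 2 * κ * n := mul_le_mul_of_nonneg_right hqκ hn
      linarith
    have h6 : x ^ 2 * (q * (n + 1)) ≤ 1 :=
      (mul_le_mul_of_nonneg_left h5 (sq_nonneg _)).trans h2
    have h7 : x ^ 2 * (n + 1) ≤ p := by
      rw [hp, le_div_iff₀ hq0]
      linarith
    exact h7.trans (le_self_pow₀ hp1 (by norm_num))
  exact (pow_le_pow_iff_left₀ hx (by positivity) two_ne_zero).1 h4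

theorem gateG {d : ℕ} (hd : 2 ≤ d) {A : ℂ} (hA : A ^ (d - 1) = -1 / d) :
    ∃ (k₀ : ℕ) (K X : ℝ), 1 ≤ K ∧ 1 ≤ X ∧ ∀ T : ℕ, X ≤ T →
      ∃ x : ℂ, ‖x‖ ≤ K / (T : ℝ) ^ 10 ∧
        ∃ n : ℕ, (n : ℝ) ≤ (T : ℝ) ^ 10 ∧ 4 < ‖P d (k₀ + 2 * n) (cc d A x)‖ := by
  obtain ⟨rs, s, hrs, hrs1, hs, -, hstep⟩ := stepS hd
  obtain ⟨rg, Cg, hrg, hrg1, hCg, hstepG⟩ := stepG hd
  obtain ⟨κ, hκ⟩ : ∃ κ, κ = kap d := ⟨_, rfl⟩
  have hκ0 : 0 < κ := by rw [hκ]; exact kap_pos hd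
  obtain ⟨C₁, δ₁, hC₁, hδ₁, hLL⟩ := lip0 (LL_diff d A)
  have hLL' : ∀ x : ℂ, ‖x‖ ≤ δ₁ → ‖1 + LL d A x‖ ≤ C₁ * ‖x‖ := by
    intro x hx
    have h := hLL x hx
    rw [LL_zero hd hA, sub_neg_eq_add, add_comm] at h
    exact h
  obtain ⟨r, hr⟩ : ∃ r, r = min rs rg := ⟨_, rfl⟩
  have hr0 : 0 < r := by rw [hr]; positivity
  have hrrs : r ≤ rs := by rw [hr]; exact min_le_left _ _
  have hrrg : r ≤ rg := by rw [hr]; exact min_le_right _ _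
  have hr1 : r ≤ 1 := hrrs.trans hrs1
  clear hr
  obtain ⟨k₀, R, δ₂, hR, hδ₂, hst⟩ := startG hd hA (1 / r ^ 2)
  obtain ⟨hA1, hA0⟩ := A_le hd hA
  -- constants
  obtain ⟨B, hB2, hB'⟩ : ∃ B : ℕ, 2 ≤ B ∧ 2 * C₁ * (R + 6 * κ) ≤ s * B := by
    refine ⟨⌈2 * C₁ * (R + 6 * κ) / s⌉₊ + 2, by omega, ?_⟩
    have h1 := Nat.le_ceil (2 * C₁ * (R + 6 * κ) / s)
    rw [div_le_iff₀ hs] at h1
    push_cast
    linarith
  obtain ⟨Q, hQ1, hQ2⟩ : ∃ Q : ℝ, 1 ≤ Q ∧ 12 * C₁ / s ≤ Q ^ 2 := by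
    have hQ0 : 0 < 12 * C₁ / s := by positivity
    refine ⟨1 + 12 * C₁ / s, by linarith, ?_⟩
    have : (1 + 12 * C₁ / s) ^ 2 = 12 * C₁ / s + (1 + 12 * C₁ / s + (12 * C₁ / s) ^ 2) := by ring
    rw [this]
    have h2 : 0 ≤ 1 + 12 * C₁ / s + (12 * C₁ / s) ^ 2 := by positivity
    linarith
  obtain ⟨M, hM⟩ : ∃ M : ℝ, M = 1 + 8 / ‖A‖ := ⟨_, rfl⟩
  have hM0 : 0 < M := by rw [hM]; positivity
  obtain ⟨W, hW⟩ : ∃ W : ℝ, W = 2 * Q + 2 * M := ⟨_, rfl⟩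
  have hW0 : 0 < W := by rw [hW]; positivity
  obtain ⟨q, hq⟩ : ∃ q : ℝ, q = min 1 (2 * κ) := ⟨_, rfl⟩
  have hq0 : 0 < q := by rw [hq]; positivity
  have hq1 : q ≤ 1 := by rw [hq]; exact min_le_left _ _
  have hqκ : q ≤ 2 * κ := by rw [hq]; exact min_le_right _ _
  clear hq
  obtain ⟨p, hp⟩ : ∃ p : ℝ, p = 1 / q := ⟨_, rfl⟩
  have hp1 : 1 ≤ p := by rw [hp, le_div_iff₀ hq0]; linarith
  obtain ⟨G, hG⟩ : ∃ G : ℝ, G = 4 * κ + 2 * Cg := ⟨_, rfl⟩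
  have hG0 : 0 < G := by rw [hG]; positivity
  obtain ⟨C, hC⟩ : ∃ C : ℝ, C = R + G := ⟨_, rfl⟩
  have hC1 : 1 ≤ C := by rw [hC]; linarith
  obtain ⟨D, hD⟩ : ∃ D : ℝ, D = R + Cg * (2 * C + 2 * p + W) := ⟨_, rfl⟩
  have hD0 : 0 < D := by rw [hD]; positivity
  obtain ⟨X, hX8, hXW, hXC, hXD, hXR, hXδ₁, hXδ₂, hXA, hXp⟩ : ∃ X : ℝ, 8 ≤ X ∧ W / rg ≤ X ∧
      2 * C ≤ X ∧ D * W ^ 2 < X ∧ 4 * C₁ * R / s ≤ X ∧ 2 / δ₁ ≤ X ∧ 2 / δ₂ ≤ X ∧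
      2 * (B : ℝ) ^ 4 / (‖A‖ / 2) ≤ X ∧ p ≤ X := by
    have x1 : 0 < W / rg := by positivity
    have x2 : 0 < 2 * C := by positivity
    have x3 : 0 < D * W ^ 2 := by positivity
    have x4 : 0 < 4 * C₁ * R / s := by positivity
    have x5 : 0 < 2 / δ₁ := by positivity
    have x6 : 0 < 2 / δ₂ := by positivity
    have x7 : 0 < 2 * (B : ℝ) ^ 4 / (‖A‖ / 2) := by positivity
    refine ⟨8 + W / rg + 2 * C + D * W ^ 2 + 4 * C₁ * R / s + 2 / δ₁ + 2 / δ₂ +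
      2 * (B : ℝ) ^ 4 / (‖A‖ / 2) + p, ?_, ?_, ?_, ?_, ?_, ?_, ?_, ?_, ?_⟩ <;> linarith
  refine ⟨k₀, 2 * (B : ℝ) ^ 4, X, ?_, by linarith, ?_⟩
  · have : (1 : ℝ) ≤ (B : ℝ) ^ 4 := one_le_pow₀ (by exact_mod_cast (show 1 ≤ B by omega))
    linarith
  intro T hTX
  have hT1' : (1 : ℝ) ≤ T := by linarith
  have hT1 : 1 ≤ T := by exact_mod_cast hT1'
  have hT0 : (0 : ℝ) < T := by linarith
  obtain ⟨J, hJ⟩ : ∃ J : ℝ, J = (T : ℝ) ^ 10 := ⟨_, rfl⟩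
  have hTJ : (T : ℝ) ≤ J := by rw [hJ]; exact le_self_pow₀ hT1' (by norm_num)
  have hXJ : X ≤ J := hTX.trans hTJ
  have hJ8 : 8 ≤ J := hX8.trans hXJ
  have hJ0 : 0 < J := by linarith
  have hJR : 4 * C₁ * R / s ≤ J := hXR.trans hXJ
  have hdivJ : ∀ {a b : ℝ}, 0 < b → a / b ≤ X → a / J ≤ b := by
    intro a b hb h
    have h1 := h.trans hXJ
    rw [div_le_iff₀ hb] at h1
    rw [div_le_iff₀ hJ0]
    linarith
  have hJδ₁ : 2 / J ≤ δ₁ := hdivJ hδ₁ hXδ₁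
  have hJδ₂ : 2 / J ≤ δ₂ := hdivJ hδ₂ hXδ₂
  have hJA : 2 * (B : ℝ) ^ 4 / J ≤ ‖A‖ / 2 := hdivJ (by positivity) hXA
  have hTpow : ∀ k : ℕ, 1 ≤ k → (T : ℝ) ≤ (T : ℝ) ^ k := fun k hk =>
    le_self_pow₀ hT1' (by omega)
  rw [← hJ]
  by_contra hneg
  push Not at hneg
  have hearlyG : ∀ (x : ℂ) (n : ℕ), ‖x‖ ≤ 2 / J → C₁ * ‖x‖ * (R + 6 * κ * n) ≤ s →
      ‖om d A (k₀ + 2 * n) x‖ ^ 2 * (1 / r ^ 2 + 2 * κ * n) ≤ 1 := by
    intro x n hx hn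
    obtain ⟨a1, a2, a3⟩ := hst x (hx.trans hJδ₂)
    obtain ⟨b1, b2, -⟩ := stayG hκ hκ0 hr0 hC₁ (fun L v g1 g2 g3 => hstep L v g1
      (g2.trans hrrs) g3) hLL' (hx.trans hJδ₁) le_rfl a1 a2 a3 n hn
    have hn : 0 < ‖om d A (k₀ + 2 * n) x‖ := norm_pos_iff.2 b1
    have h5 := re_le_norm (((om d A (k₀ + 2 * n) x) ^ 2)⁻¹)
    rw [norm_inv, norm_pow] at h5
    have h7 := mul_le_mul_of_nonneg_left (b2.trans h5) (sq_nonneg ‖om d A (k₀ + 2 * n) x‖)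
    rw [mul_inv_cancel₀ (pow_ne_zero 2 hn.ne')] at h7
    exact h7
  obtain ⟨Jn, hJn⟩ : ∃ Jn : ℕ, Jn = T ^ 10 := ⟨_, rfl⟩
  have hJnJ : (Jn : ℝ) = J := by rw [hJn, hJ]; push_cast; rfl
  have hJn2 : 2 ≤ Jn := by
    have : (2 : ℝ) ≤ Jn := by rw [hJnJ]; linarith
    exact_mod_cast this
  obtain ⟨η, l, hldef, hηn, hlnorm, hl1, hprim⟩ := resG hd hA hA1 hJnJ hJn2
  have hl14 : ‖1 + l‖ ≤ 1 / 4 := by
    refine hl1.trans ?_
    rw [div_le_div_iff₀ hJ0 (by norm_num)]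
    linarith
  obtain ⟨v, hv⟩ : ∃ v : ℕ → ℂ, v = fun n => om d A (k₀ + 2 * n) η := ⟨_, rfl⟩
  have hearly : ∀ n : ℕ, C₁ * (2 / J) * (R + 6 * κ * n) ≤ s →
      ‖v n‖ ^ 2 * (1 / r ^ 2 + 2 * κ * n) ≤ 1 := by
    intro n h
    rw [hv]
    apply hearlyG η n hηn
    refine le_trans ?_ h
    apply mul_le_mul_of_nonneg_right _ (by positivity)
    exact mul_le_mul_of_nonneg_left hηn hC₁.le
  have hlate : ∀ n : ℕ, (n : ℝ) ≤ J → s < C₁ * (2 / J) * (R + 6 * κ * n) →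
      ‖v n‖ ≤ W / (T : ℝ) ^ 4 := by
    intro n hn hn2
    rw [hv, hW]
    exact lateG hd hA0 hT1 hJ (by linarith) hR hκ0 hs hC₁ hr0 hQ1 hQ2 hM hB2 hB' hJR hJA
      (fun x h1 h2 => hearlyG x n h1 h2) (fun x hx => hneg x hx n hn) hn hn2 hηn
  have hWr : W / (T : ℝ) ^ 4 ≤ rg := by
    rw [div_le_iff₀ (by positivity)]
    have h1 : W / rg ≤ (T : ℝ) ^ 4 := (hXW.trans hTX).trans (hTpow 4 (by norm_num))
    rw [div_le_iff₀ hrg] at h1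
    linarith
  have hsm : ∀ n : ℕ, (n : ℝ) ≤ J → ‖v n‖ ≤ rg := by
    intro n hn
    have hn0 : (0 : ℝ) ≤ n := Nat.cast_nonneg n
    rcases le_or_gt (C₁ * (2 / J) * (R + 6 * κ * n)) s with h | h
    · have h2 := hearly n h
      have h3 : ‖v n‖ ^ 2 * (1 / r ^ 2) ≤ 1 := by
        refine le_trans ?_ h2
        apply mul_le_mul_of_nonneg_left _ (sq_nonneg _)
        have : 0 ≤ 2 * κ * (n : ℝ) := by positivity
        linarith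
      have h4 : ‖v n‖ ^ 2 ≤ r ^ 2 := by
        rw [mul_one_div, div_le_one (by positivity)] at h3
        exact h3
      exact ((pow_le_pow_iff_left₀ (norm_nonneg _) hr0.le two_ne_zero).1 h4).trans hrrg
    · exact (hlate n hn h).trans hWr
  have hboth : ∀ n : ℕ, (n : ℝ) ≤ J →
      ‖v n‖ ≤ p * (1 / Real.sqrt ((n : ℝ) + 1)) + W / (T : ℝ) ^ 4 := by
    intro n hn
    have hn0 : (0 : ℝ) ≤ n := Nat.cast_nonneg n
    rcases le_or_gt (C₁ * (2 / J) * (R + 6 * κ * n)) s with h | h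
    · have h3 := sqrt_bound hκ0 hq0 hq1 hqκ hp hr0 hr1 hn0 (norm_nonneg _) (hearly n h)
      have h6 : 0 ≤ W / (T : ℝ) ^ 4 := by positivity
      linarith
    · have h1 := hlate n hn h
      have h2 : 0 ≤ p * (1 / Real.sqrt ((n : ℝ) + 1)) := by positivity
      linarith
  have hCT : 2 * C / (T : ℝ) ^ 5 ≤ 1 := by
    rw [div_le_one (by positivity)]
    exact (hXC.trans hTX).trans (hTpow 5 (by norm_num))
  obtain ⟨b1, -, b3⟩ := hst η (hηn.trans hJδ₂)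
  have hv0 : v 0 = om d A k₀ η := by rw [hv]; rfl
  rw [← hv0] at b1 b3
  have hvs : ∀ n, v (n + 1) = FF d l (FF d l (v n)) := by
    intro n
    rw [hv, hldef]
    rfl
  have hrec := recG hT1 hJ (by linarith) hR hκ hκ0 hCg hrg1 hG hC hstepG hlnorm hl1 hl14 hvs hsm
    hCT b1 b3
  obtain ⟨a1, -, a3⟩ := hrec Jn hJnJ.le
  have a11 : ‖v Jn‖ ≤ W / (T : ℝ) ^ 4 := by
    rcases le_or_gt (C₁ * (2 / J) * (R + 6 * κ * Jn)) s with h | h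
    · have h3 := sqrt_bound hκ0 hq0 hq1 hqκ hp hr0 hr1 (Nat.cast_nonneg Jn) (norm_nonneg _)
        (hearly Jn h)
      refine h3.trans ?_
      have h4 : (T : ℝ) ^ 5 ≤ Real.sqrt ((Jn : ℝ) + 1) := by
        apply Real.le_sqrt_of_sq_le
        rw [← pow_mul, hJnJ, hJ]
        norm_num
      have h5 : p * (1 / Real.sqrt ((Jn : ℝ) + 1)) ≤ p * (1 / (T : ℝ) ^ 5) := by
        apply mul_le_mul_of_nonneg_left _ (by linarith)
        exact one_div_le_one_div_of_le (by positivity) h4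
      refine h5.trans ?_
      rw [mul_one_div, div_le_div_iff₀ (by positivity) (by positivity)]
      have h6 : p ≤ T := hXp.trans hTX
      have h7 : 1 ≤ W := by rw [hW]; linarith
      calc p * (T : ℝ) ^ 4 ≤ T * (T : ℝ) ^ 4 := mul_le_mul_of_nonneg_right h6 (by positivity)
        _ = 1 * (T : ℝ) ^ 5 := by ring
        _ ≤ W * (T : ℝ) ^ 5 := mul_le_mul_of_nonneg_right h7 (by positivity)
    · exact hlate Jn hJnJ.le h
  have hfin := endG hT1 hJ hJnJ hJn2 hR hCg hC1 hp1 hW0 hD hprim b3 a1 a3 hboth a11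
  linarith

end Pool.Agent.W677.MC
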