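import Pool.Agent.W677.MC6
import Pool.Agent.W677.MB8
import Pool.Agent.H713R2.Main4

set_option autoImplicit false

/-! # Laurent coefficients: a lower bound on windows, all degrees -/

namespace Pool.Agent.W677.MC

open Complex Metric Set Filter Topology Pool.Agent.H712R2 Pool.Agent.H713R2 N62a1eb23

theorem coeff_le {d : ℕ} (hd : 2 ≤ d) {ψ : ℂ → ℂ} {b : ℕ → ℂ}
    (hψ : IsExteriorMap (multibrotSet d) ψ)
    (hb : HasLaurent ψ b) (m : ℕ) : ‖b m‖ ≤ 2 := by
  obtain ⟨β, hβ⟩ := exists_beta (d := d) hd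
  rw [exterior_coeff hβ hψ hb]
  have h1 := sum_sq_le hβ.diff hβ.bound (m + 2)
  have h2 : ‖tc β (m + 1)‖ ^ 2 ≤ ∑ k ∈ Finset.range (m + 2), ‖tc β k‖ ^ 2 :=
    Finset.single_le_sum (f := fun k => ‖tc β k‖ ^ 2) (fun k _ => sq_nonneg _)
      (Finset.mem_range.2 (by omega))
  nlinarith [norm_nonneg (tc β (m + 1))]

theorem window_one {d : ℕ} (hd2 : 2 ≤ d) {c₀ : ℂ} {ρ₀ : ℝ} {ψ : ℂ → ℂ} {b : ℕ → ℂ}
    (hψ : IsExteriorMap (multibrotSet d) ψ)
    (hb : HasLaurent ψ b) {a Φ : ℝ} (ha : 0 < a) (ha1 : a ≤ 2 * ρ₀)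
    (hle2 : ∀ z : ℂ, 1 < ‖z‖ → ‖ψ z - c₀‖ ≤ ρ₀ → ‖z‖ ≤ 2)
    (hdist : ∀ z : ℂ, 1 < ‖z‖ → ‖z‖ ≤ 2 →
      a ≤ ‖ψ z - c₀‖ * (1 + Real.log (1 / (‖z‖ - 1))))
    {N : ℕ} (hN : 1 ≤ N) (hN8 : 8 / (N : ℝ) ≤ a / (4 * (1 + 3 * Real.log N)))
    (hnear : ∃ z : ℂ, 1 < ‖z‖ ∧ ‖ψ z - c₀‖ ≤ a / (2 * (1 + 3 * Real.log N)) ∧
      Real.log (1 / (‖z‖ - 1)) ≤ Φ) {N' : ℕ} (hN' : 4 * Real.exp (2 * Φ) ≤ N') :
    a / (4 * (1 + 3 * Real.log N)) ≤ ∑ m ∈ Finset.Ico N N', ‖b m‖ := by
  obtain ⟨z', hz', hρ, hΦ⟩ := hnear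
  have hN0 : (0 : ℝ) < N := by exact_mod_cast hN
  have hN1 : (1 : ℝ) ≤ N := by exact_mod_cast hN
  have hlN : 0 ≤ Real.log N := Real.log_nonneg hN1
  obtain ⟨L, hL⟩ : ∃ L, L = 1 + 3 * Real.log N := ⟨_, rfl⟩
  have hL1 : 1 ≤ L := by rw [hL]; linarith
  rw [← hL] at hN8 hρ ⊢
  obtain ⟨h', hh'⟩ : ∃ h', h' = ‖z'‖ - 1 := ⟨_, rfl⟩
  have hh'0 : 0 < h' := by rw [hh']; linarith
  rw [← hh'] at hΦ
  have hnz' : ‖z'‖ = 1 + h' := by rw [hh']; ring
  have hρ4 : a / (2 * L) ≤ ρ₀ := by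
    rw [div_le_iff₀ (by positivity)]
    have : ρ₀ * 1 ≤ ρ₀ * L := mul_le_mul_of_nonneg_left hL1 (by linarith)
    linarith
  have hz'2 := hle2 z' hz' (hρ.trans hρ4)
  obtain ⟨h, hh⟩ : ∃ h : ℝ, h = 1 / (N : ℝ) ^ 3 := ⟨_, rfl⟩
  have hh0 : 0 < h := by rw [hh]; positivity
  have hN3 : (N : ℝ) ≤ (N : ℝ) ^ 3 := by nlinarith [mul_pos hN0 hN0]
  have hhN : h ≤ 1 / (N : ℝ) := by
    rw [hh]
    exact one_div_le_one_div_of_le hN0 hN3
  have hh1 : h ≤ 1 := hhN.trans (by rw [div_le_one hN0]; exact hN1)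
  have hlogh : Real.log (1 / h) = 3 * Real.log N := by
    rw [hh, one_div_one_div, Real.log_pow]
    push_cast
    ring
  -- `h' ≤ h`
  have hle : h' ≤ h := by
    have h1 := hdist z' hz' hz'2
    rw [← hh'] at h1
    have h2 : 0 ≤ 1 + Real.log (1 / h') := by
      have : 0 ≤ Real.log (1 / h') := by
        apply Real.log_nonneg
        rw [le_div_iff₀ hh'0]
        linarith
      linarith
    have h3 : a ≤ a / (2 * L) * (1 + Real.log (1 / h')) :=
      h1.trans (mul_le_mul_of_nonneg_right hρ h2)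
    have h4 : 2 * L ≤ 1 + Real.log (1 / h') := by
      rw [div_mul_eq_mul_div, le_div_iff₀ (by positivity)] at h3
      exact le_of_mul_le_mul_left h3 ha
    have h5 : Real.log (1 / h) ≤ Real.log (1 / h') := by
      rw [hlogh]
      linarith
    have h6 := (Real.log_le_log_iff (by positivity) (by positivity)).1 h5
    rw [one_div_le_one_div hh0 hh'0] at h6
    exact h6
  -- the comparison point
  obtain ⟨t, ht⟩ : ∃ t : ℝ, t = (1 + h') / (1 + h) := ⟨_, rfl⟩
  have ht0 : 0 < t := by rw [ht]; positivity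
  have ht1 : t ≤ 1 := by rw [ht, div_le_one (by positivity)]; linarith
  have ht2 : 1 - t ≤ h := by
    have : 1 - t = (h - h') / (1 + h) := by rw [ht]; field_simp; ring
    rw [this, div_le_iff₀ (by positivity)]
    nlinarith
  have hz'0 : z' ≠ 0 := by
    intro h0
    rw [h0, norm_zero] at hz'
    linarith
  have htc : (t : ℂ) ≠ 0 := by exact_mod_cast ht0.ne'
  obtain ⟨z, hz⟩ : ∃ z : ℂ, z = (t : ℂ)⁻¹ * z' := ⟨_, rfl⟩
  have hnz : ‖z‖ = 1 + h := by
    rw [hz, norm_mul, norm_inv, Complex.norm_real, Real.norm_of_nonneg ht0.le, hnz', ht]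
    field_simp
  have hz1 : 1 < ‖z‖ := by rw [hnz]; linarith
  have hd := hdist z hz1 (by rw [hnz]; linarith)
  rw [hnz, show 1 + h - 1 = h by ring, hlogh, ← hL] at hd
  have hsub : a / (2 * L) ≤ ‖ψ z - ψ z'‖ := by
    have h1 : a / L ≤ ‖ψ z - c₀‖ := by
      rw [div_le_iff₀ (by positivity)]
      exact hd
    have h2 : ‖ψ z - c₀‖ ≤ ‖ψ z - ψ z'‖ + ‖ψ z' - c₀‖ := by
      refine le_trans (le_of_eq ?_) (norm_add_le _ _)
      congr 1
      ring
    have h3 : a / L = 2 * (a / (2 * L)) := by field_simp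
    linarith
  -- the series
  obtain ⟨g, hg⟩ : ∃ g : ℕ → ℝ, g = fun m => ((1 + h')⁻¹) ^ m * (1 - t ^ m) := ⟨_, rfl⟩
  have hq0 : 0 < (1 + h')⁻¹ := by positivity
  have hq1 : (1 + h')⁻¹ < 1 := inv_lt_one_of_one_lt₀ (by linarith)
  have htm : ∀ m, t ^ m ≤ 1 := fun m => pow_le_one₀ ht0.le ht1
  have hg0 : ∀ m, 0 ≤ g m := fun m => by
    rw [hg]
    exact mul_nonneg (by positivity) (by linarith [htm m])
  have hgq : ∀ m, g m ≤ ((1 + h')⁻¹) ^ m := fun m => by
    rw [hg]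
    have : 0 < t ^ m := pow_pos ht0 m
    exact mul_le_of_le_one_right (by positivity) (by linarith)
  have hg1 : ∀ m, g m ≤ 1 := fun m => (hgq m).trans (pow_le_one₀ hq0.le hq1.le)
  have hgm : ∀ m, g m ≤ m * h := fun m => by
    rw [hg]
    have h1 := one_add_mul_le_pow (a := t - 1) (by linarith) m
    rw [show 1 + (t - 1) = t by ring] at h1
    have h2 : 1 - t ^ m ≤ m * h := by
      have : (m : ℝ) * (1 - t) ≤ m * h := mul_le_mul_of_nonneg_left ht2 (Nat.cast_nonneg m)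
      linarith
    refine le_trans ?_ h2
    exact mul_le_of_le_one_left (by linarith [htm m]) (pow_le_one₀ hq0.le hq1.le)
  have hterm : ∀ m, ‖b m / z ^ m - b m / z' ^ m‖ = ‖b m‖ * g m := by
    intro m
    have e : b m / z ^ m - b m / z' ^ m = b m * ((z'⁻¹) ^ m * (((t ^ m - 1 : ℝ)) : ℂ)) := by
      rw [hz]
      push_cast
      rw [mul_pow, inv_pow, inv_pow]
      field_simp
    rw [e, norm_mul, norm_mul, norm_pow, norm_inv, hnz', Complex.norm_real, Real.norm_eq_abs,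
      abs_of_nonpos (by linarith [htm m]), hg]
    ring
  have hb2 := coeff_le hd2 hψ hb
  have hsq : Summable (fun m : ℕ => ((1 + h')⁻¹) ^ m) := summable_geometric_of_lt_one hq0.le hq1
  have hsum : Summable (fun m => ‖b m‖ * g m) := by
    refine Summable.of_nonneg_of_le (fun m => mul_nonneg (norm_nonneg _) (hg0 m)) (fun m => ?_)
      (hsq.mul_left 2)
    exact mul_le_mul (hb2 m) (hgq m) (hg0 m) (by norm_num)
  have hψz := (hb z hz1).sub (hb z' hz')
  have hnorm : ‖ψ z - ψ z'‖ ≤ h + ∑' m, ‖b m‖ * g m := by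
    have h1 : ψ z - ψ z' = (z - z') + ∑' m, (b m / z ^ m - b m / z' ^ m) := by
      rw [hψz.tsum_eq]
      ring
    have h2 : ‖z - z'‖ ≤ h := by
      have e : z - z' = (((t⁻¹ - 1 : ℝ)) : ℂ) * z' := by
        rw [hz]
        push_cast
        ring
      rw [e, norm_mul, Complex.norm_real, Real.norm_of_nonneg, hnz', ht]
      · have : ((1 + h') / (1 + h))⁻¹ - 1 = (h - h') / (1 + h') := by field_simp; ring
        rw [this]
        have : (h - h') / (1 + h') * (1 + h') = h - h' := by field_simp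
        rw [this]
        linarith
      · have := one_le_inv₀ ht0 |>.2 ht1
        linarith
    rw [h1]
    refine (norm_add_le _ _).trans (add_le_add h2 ?_)
    have h3 : Summable (fun m => ‖b m / z ^ m - b m / z' ^ m‖) := by
      simp only [hterm]
      exact hsum
    refine (norm_tsum_le_tsum_norm h3).trans (le_of_eq ?_)
    congr 1
    funext m
    exact hterm m
  -- splitting
  have hΦ0 : Real.exp (-Φ) ≤ h' := by
    rw [Real.exp_neg, inv_eq_one_div]
    have h1 : 1 / h' ≤ Real.exp Φ := by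
      rw [← Real.log_le_iff_le_exp (by positivity)]
      exact hΦ
    rw [div_le_iff₀ hh'0] at h1
    rw [div_le_iff₀ (Real.exp_pos _)]
    linarith
  have hΦnn : 1 ≤ Real.exp (2 * Φ) := by
    apply Real.one_le_exp
    have : 0 ≤ Real.log (1 / h') := by
      apply Real.log_nonneg
      rw [le_div_iff₀ hh'0]
      linarith
    linarith
  have htail : ∑' m, ‖b (m + N')‖ * g (m + N') ≤ 4 * h' := by
    have h1 : ∑' m, ‖b (m + N')‖ * g (m + N') ≤
        ∑' m : ℕ, (2 * ((1 + h')⁻¹) ^ N') * ((1 + h')⁻¹) ^ m := by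
      apply Summable.tsum_le_tsum
      · intro m
        calc ‖b (m + N')‖ * g (m + N') ≤ 2 * ((1 + h')⁻¹) ^ (m + N') :=
              mul_le_mul (hb2 _) (hgq _) (hg0 _) (by norm_num)
          _ = (2 * ((1 + h')⁻¹) ^ N') * ((1 + h')⁻¹) ^ m := by rw [pow_add]; ring
      · exact (summable_nat_add_iff N').2 hsum
      · exact hsq.mul_left _
    rw [tsum_mul_left, tsum_geometric_of_lt_one hq0.le hq1] at h1
    have h2 : (1 - (1 + h')⁻¹)⁻¹ ≤ 2 / h' := by
      have : (1 - (1 + h')⁻¹)⁻¹ = (1 + h') / h' := by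
        have h3 : 1 - (1 + h')⁻¹ = h' / (1 + h') := by
          rw [eq_div_iff (by positivity), sub_mul, inv_mul_cancel₀ (by positivity)]
          ring
        rw [h3, inv_div]
      rw [this]
      apply div_le_div_of_nonneg_right _ hh'0.le
      linarith
    obtain ⟨k, hk⟩ : ∃ k : ℕ, k = ⌈Real.exp (2 * Φ)⌉₊ := ⟨_, rfl⟩
    have hk1 : Real.exp (2 * Φ) ≤ k := by rw [hk]; exact Nat.le_ceil _
    have hk2 : (k : ℝ) < Real.exp (2 * Φ) + 1 := by
      rw [hk]
      exact Nat.ceil_lt_add_one (Real.exp_pos _).le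
    have hk3 : 2 * k ≤ N' := by
      have : ((2 * k : ℕ) : ℝ) ≤ (N' : ℝ) := by
        push_cast
        linarith
      exact_mod_cast this
    have h3 : (h')⁻¹ ≤ k * h' := by
      have h4 : Real.exp (2 * Φ) = Real.exp Φ * Real.exp Φ := by rw [← Real.exp_add]; ring_nf
      have h5 : (h')⁻¹ ≤ Real.exp Φ := by
        rw [inv_le_comm₀ hh'0 (Real.exp_pos _), ← Real.exp_neg]
        exact hΦ0
      have h6 : 1 ≤ Real.exp Φ * h' := by
        rw [inv_le_iff_one_le_mul₀ hh'0] at h5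
        linarith
      calc (h')⁻¹ ≤ Real.exp Φ := h5
        _ ≤ Real.exp Φ * (Real.exp Φ * h') := le_mul_of_one_le_right (Real.exp_pos _).le h6
        _ = Real.exp (2 * Φ) * h' := by rw [h4]; ring
        _ ≤ k * h' := mul_le_mul_of_nonneg_right hk1 hh'0.le
    have h7 : ((h')⁻¹) ^ 2 ≤ (1 + h') ^ N' := by
      calc ((h')⁻¹) ^ 2 ≤ (k * h') ^ 2 := pow_le_pow_left₀ (by positivity) h3 2
        _ ≤ ((1 + h') ^ k) ^ 2 := by
            apply pow_le_pow_left₀ (by positivity)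
            have := one_add_mul_le_pow (a := h') (by linarith) k
            linarith
        _ = (1 + h') ^ (2 * k) := by rw [← pow_mul]; ring_nf
        _ ≤ (1 + h') ^ N' := pow_le_pow_right₀ (by linarith) hk3
    have h8 : ((1 + h')⁻¹) ^ N' ≤ h' ^ 2 := by
      rw [inv_pow]
      rw [inv_le_comm₀ (by positivity) (by positivity), ← inv_pow]
      exact h7
    calc _ ≤ 2 * ((1 + h')⁻¹) ^ N' * (1 - (1 + h')⁻¹)⁻¹ := h1
      _ ≤ 2 * h' ^ 2 * (2 / h') := by
          apply mul_le_mul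
          · linarith
          · exact h2
          · apply inv_nonneg.2
            linarith
          · positivity
      _ = 4 * h' := by field_simp; ring
  have hNN' : N ≤ N' ∨ N' < N := le_or_gt N N'
  have hhead : ∑ m ∈ Finset.range N, ‖b m‖ * g m ≤ 2 / N := by
    calc ∑ m ∈ Finset.range N, ‖b m‖ * g m ≤ ∑ m ∈ Finset.range N, 2 * (N * h) := by
          apply Finset.sum_le_sum
          intro m hm
          apply mul_le_mul (hb2 m) _ (hg0 m) (by norm_num)
          refine (hgm m).trans ?_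
          apply mul_le_mul_of_nonneg_right _ hh0.le
          exact_mod_cast (Finset.mem_range.1 hm).le
      _ = 2 / N := by
          rw [Finset.sum_const, Finset.card_range, nsmul_eq_mul, hh]
          field_simp
  have hsplit : ∑' m, ‖b m‖ * g m ≤ 2 / N + ∑ m ∈ Finset.Ico N N', ‖b m‖ + 4 * h' := by
    rw [← hsum.sum_add_tsum_nat_add N']
    refine add_le_add ?_ htail
    have hmid : ∀ s : Finset ℕ, ∑ m ∈ s, ‖b m‖ * g m ≤ ∑ m ∈ s, ‖b m‖ := by
      intro s
      apply Finset.sum_le_sum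
      intro m _
      exact mul_le_of_le_one_right (norm_nonneg _) (hg1 m)
    rcases hNN' with hc | hc
    · rw [← Finset.sum_range_add_sum_Ico _ hc]
      exact add_le_add hhead (hmid _)
    · have h1 : ∑ m ∈ Finset.range N', ‖b m‖ * g m ≤ ∑ m ∈ Finset.range N, ‖b m‖ * g m := by
        apply Finset.sum_le_sum_of_subset_of_nonneg
        · intro m hm
          rw [Finset.mem_range] at hm ⊢
          omega
        · intro m _ _
          exact mul_nonneg (norm_nonneg _) (hg0 m)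
      have h2 : 0 ≤ ∑ m ∈ Finset.Ico N N', ‖b m‖ := Finset.sum_nonneg fun _ _ => norm_nonneg _
      linarith
  have hfin : a / (2 * L) = 2 * (a / (4 * L)) := by field_simp; ring
  have h8 : 8 / (N : ℝ) = 8 * (1 / N) := by ring
  have h9 : 2 / (N : ℝ) = 2 * (1 / N) := by ring
  rw [h8] at hN8
  rw [h9] at hsplit
  have h10 : 0 < 1 / (N : ℝ) := by positivity
  linarith

theorem windows {d : ℕ} (hd : 2 ≤ d) {A₀ : ℂ} (hA₀ : A₀ ^ (d - 1) = -1 / d)
    {ψ : ℂ → ℂ} {b : ℕ → ℂ} (hψ : IsExteriorMap (multibrotSet d) ψ)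
    (hb : HasLaurent ψ b) (p : ℕ) {C : ℝ} (hC : 0 < C)
    (hnear : ∀ ρ : ℝ, 0 < ρ → ρ ≤ 1 → ∃ z : ℂ, 1 < ‖z‖ ∧ ‖ψ z - cc d A₀ 0‖ ≤ ρ ∧
      Real.log (1 / (‖z‖ - 1)) ≤ C / ρ ^ p) :
    ∃ c A : ℝ, 0 < c ∧ 0 < A ∧ ∀ N : ℕ, 2 ≤ N → ∀ n : ℕ, Real.exp (A * Real.log N ^ p) ≤ n →
      c / Real.log N ≤ ∑ m ∈ Finset.Ico N n, ‖b m‖ := by
  obtain ⟨a₀, ρ₀, ha₀, hρ₀, hdist₀⟩ := distG hd hA₀
  obtain ⟨hle2, hdist₁⟩ := hdist₀ ψ hψ
  obtain ⟨a, haa⟩ : ∃ a, a = min a₀ (min (1 / 2) (2 * ρ₀)) := ⟨_, rfl⟩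
  have ha : 0 < a := by rw [haa]; positivity
  have ha1 : a ≤ 1 / 2 := by rw [haa]; exact (min_le_right _ _).trans (min_le_left _ _)
  have ha2 : a ≤ 2 * ρ₀ := by rw [haa]; exact (min_le_right _ _).trans (min_le_right _ _)
  have hdist : ∀ z : ℂ, 1 < ‖z‖ → ‖z‖ ≤ 2 →
      a ≤ ‖ψ z - cc d A₀ 0‖ * (1 + Real.log (1 / (‖z‖ - 1))) := fun z h1 h2 =>
    (by rw [haa]; exact min_le_left _ _ : a ≤ a₀).trans (hdist₁ z h1 h2)
  have hl2 := Pool.Agent.W677.MB.log_two_ge
  -- the threshold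
  obtain ⟨N₀, hN₀⟩ : ∃ N₀ : ℕ, ∀ N : ℕ, N₀ ≤ N →
      8 / (N : ℝ) ≤ a / (4 * (1 + 3 * Real.log N)) := by
    have h1 := Real.isLittleO_log_id_atTop.def (show (0 : ℝ) < a / 200 by positivity)
    have h2 : ∀ᶠ x : ℝ in atTop, 100 / a ≤ x := eventually_ge_atTop _
    have h3 : ∀ᶠ x : ℝ in atTop, 1 ≤ x := eventually_ge_atTop _
    have h4 := (tendsto_natCast_atTop_atTop (R := ℝ)).eventually (h1.and (h2.and h3))
    obtain ⟨N₀, hN₀⟩ := eventually_atTop.1 h4
    refine ⟨N₀, fun N hN => ?_⟩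
    obtain ⟨b1, b2, b3⟩ := hN₀ N hN
    have hlN : 0 ≤ Real.log N := Real.log_nonneg b3
    simp only [id] at b1
    rw [Real.norm_of_nonneg hlN, Real.norm_of_nonneg (by linarith)] at b1
    rw [div_le_iff₀ ha] at b2
    rw [div_le_div_iff₀ (by linarith) (by positivity)]
    linarith
  obtain ⟨N₁, hN₁⟩ : ∃ N₁ : ℕ, N₁ = max N₀ 2 := ⟨_, rfl⟩
  have hN₁2 : 2 ≤ N₁ := by rw [hN₁]; exact le_max_right _ _
  obtain ⟨A, hA⟩ : ∃ A : ℝ, A = 2 * (C * (10 / a) ^ p) + 2 * 2 ^ p := ⟨_, rfl⟩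
  have hA0 : 0 < A := by rw [hA]; positivity
  have hbig : ∀ N : ℕ, N₁ ≤ N → ∀ n : ℕ, Real.exp (A * Real.log N ^ p) ≤ n →
      a / 20 / Real.log N ≤ ∑ m ∈ Finset.Ico N n, ‖b m‖ := by
    intro N hN n hn
    have hN2 : 2 ≤ N := by omega
    have hlN := Pool.Agent.W677.MB.log_nat_ge hN2
    have hlog0 : 0 < Real.log N := by linarith
    have hL : 1 + 3 * Real.log N ≤ 5 * Real.log N := by linarith
    have hL0 : 1 ≤ 1 + 3 * Real.log N := by linarith
    have hρ1 : a / (2 * (1 + 3 * Real.log N)) ≤ 1 := by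
      rw [div_le_one (by positivity)]
      linarith
    have h1 := window_one hd hψ hb ha ha2 hle2 hdist (show 1 ≤ N by omega)
      (hN₀ N ((by rw [hN₁]; exact le_max_left _ _ : N₀ ≤ N₁).trans hN))
      (hnear _ (by positivity) hρ1) (N' := n) (by
        refine le_trans ?_ hn
        have e1 : C / (a / (2 * (1 + 3 * Real.log N))) ^ p =
            C * (2 * (1 + 3 * Real.log N) / a) ^ p := by
          rw [div_pow, div_pow]
          field_simp
        have e2 : (2 * (1 + 3 * Real.log N) / a) ^ p ≤ (10 / a) ^ p * Real.log N ^ p := by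
          rw [← mul_pow]
          apply pow_le_pow_left₀ (by positivity)
          rw [div_mul_eq_mul_div]
          apply div_le_div_of_nonneg_right _ ha.le
          linarith
        have e3 : C * (2 * (1 + 3 * Real.log N) / a) ^ p ≤
            C * ((10 / a) ^ p * Real.log N ^ p) := mul_le_mul_of_nonneg_left e2 hC.le
        have e4 : (1 : ℝ) ≤ 2 ^ p * Real.log N ^ p := by
          rw [← mul_pow]
          apply one_le_pow₀
          linarith
        have e5 : (4 : ℝ) ≤ Real.exp 2 := by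
          have h7 := Real.exp_one_gt_d9
          have h8 : Real.exp 2 = Real.exp 1 * Real.exp 1 := by rw [← Real.exp_add]; norm_num
          rw [h8]
          nlinarith
        rw [e1]
        calc 4 * Real.exp (2 * (C * (2 * (1 + 3 * Real.log N) / a) ^ p))
            ≤ Real.exp 2 * Real.exp (2 * (C * (2 * (1 + 3 * Real.log N) / a) ^ p)) :=
              mul_le_mul_of_nonneg_right e5 (Real.exp_pos _).le
          _ = Real.exp (2 + 2 * (C * (2 * (1 + 3 * Real.log N) / a) ^ p)) := by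
              rw [← Real.exp_add]
          _ ≤ Real.exp (A * Real.log N ^ p) := by
              apply Real.exp_le_exp.2
              rw [hA]
              nlinarith)
    refine le_trans ?_ h1
    rw [div_div, div_le_div_iff₀ (by positivity) (by positivity)]
    nlinarith
  obtain ⟨l₁, hl₁⟩ : ∃ l₁, l₁ = Real.log N₁ := ⟨_, rfl⟩
  have hl₁2 : Real.log 2 ≤ l₁ := by rw [hl₁]; exact Pool.Agent.W677.MB.log_nat_ge hN₁2
  have hl₁0 : 0 < l₁ := by linarith
  have hq : 1 ≤ l₁ / Real.log 2 := by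
    rw [one_le_div (by linarith)]
    exact hl₁2
  refine ⟨a / 20 * (Real.log 2 / l₁), A * (l₁ / Real.log 2) ^ p, by positivity, by positivity, ?_⟩
  intro N hN n hn
  have hlN := Pool.Agent.W677.MB.log_nat_ge hN
  have hlog0 : 0 < Real.log N := by linarith
  rcases le_or_gt N₁ N with h | h
  · refine le_trans ?_ (hbig N h n ?_)
    · apply div_le_div_of_nonneg_right _ hlog0.le
      apply mul_le_of_le_one_right (by positivity)
      rw [div_le_one hl₁0]
      exact hl₁2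
    · refine le_trans ?_ hn
      apply Real.exp_le_exp.2
      apply mul_le_mul_of_nonneg_right _ (by positivity)
      exact le_mul_of_one_le_right hA0.le (one_le_pow₀ hq)
  · have h1 := hbig N₁ le_rfl n (by
      refine le_trans ?_ hn
      apply Real.exp_le_exp.2
      rw [mul_assoc]
      apply mul_le_mul_of_nonneg_left _ hA0.le
      rw [← mul_pow, ← hl₁]
      apply pow_le_pow_left₀ hl₁0.le
      rw [div_mul_eq_mul_div, le_div_iff₀ (by linarith)]
      exact mul_le_mul_of_nonneg_left hlN hl₁0.le)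
    have h2 : ∑ m ∈ Finset.Ico N₁ n, ‖b m‖ ≤ ∑ m ∈ Finset.Ico N n, ‖b m‖ := by
      apply Finset.sum_le_sum_of_subset_of_nonneg
      · exact Finset.Ico_subset_Ico h.le le_rfl
      · intro m _ _
        exact norm_nonneg _
    refine le_trans ?_ (h1.trans h2)
    rw [← hl₁, div_le_div_iff₀ hlog0 hl₁0]
    have e : a / 20 * (Real.log 2 / l₁) * l₁ = a / 20 * Real.log 2 := by field_simp
    rw [e]
    exact mul_le_mul_of_nonneg_left hlN (by positivity)


end Pool.Agent.W677.MC
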