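import Pool.Agent.W677.Mar1

set_option autoImplicit false

/-! # Energy identities on circles, with a weight, and comparison of differential inequalities -/

namespace Pool.Agent.W677.Mar

open Complex Metric Set Filter Topology MeasureTheory

/-- differentiation under the integral sign -/
theorem hasDerivAt_int {F F' : ℝ → ℝ → ℝ} {U : Set ℝ} (hU : IsOpen U)
    (hF : ContinuousOn (Function.uncurry F) (U ×ˢ univ))
    (hF' : ContinuousOn (Function.uncurry F') (U ×ˢ univ))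
    (hd : ∀ s ∈ U, ∀ θ, HasDerivAt (fun s => F s θ) (F' s θ) s) {s₀ : ℝ} (hs : s₀ ∈ U) (a b : ℝ) :
    HasDerivAt (fun s => ∫ θ in a..b, F s θ) (∫ θ in a..b, F' s₀ θ) s₀ := by
  obtain ⟨ε, hε, hεU⟩ := Metric.isOpen_iff.1 hU s₀ hs
  have hsub : closedBall s₀ (ε / 2) ⊆ U := (closedBall_subset_ball (by linarith)).trans hεU
  have hcomp : IsCompact (closedBall s₀ (ε / 2) ×ˢ uIcc a b) :=
    (isCompact_closedBall _ _).prod isCompact_uIcc
  obtain ⟨B, hB⟩ := hcomp.exists_bound_of_continuousOn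
    (hF'.mono (prod_mono hsub (subset_univ _)))
  have hcont : ∀ {f : ℝ → ℝ → ℝ}, ContinuousOn (Function.uncurry f) (U ×ˢ univ) → ∀ s ∈ U,
      Continuous (f s) := by
    intro f hf s hs
    rw [← continuousOn_univ]
    exact hf.comp (continuousOn_const.prodMk continuousOn_id) (fun θ _ => ⟨hs, mem_univ _⟩)
  refine (intervalIntegral.hasDerivAt_integral_of_dominated_loc_of_deriv_le
    (s := ball s₀ (ε / 2)) (bound := fun _ => B) (ball_mem_nhds _ (by linarith)) ?_ ?_ ?_ ?_ ?_ ?_).2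
  · filter_upwards [hU.mem_nhds hs] with s hs
    exact (hcont hF s hs).aestronglyMeasurable
  · exact (hcont hF s₀ hs).intervalIntegrable _ _
  · exact (hcont hF' s₀ hs).aestronglyMeasurable
  · refine Eventually.of_forall fun θ hθ s hs => ?_
    exact hB (s, θ) ⟨ball_subset_closedBall hs, uIoc_subset_uIcc hθ⟩
  · exact intervalIntegrable_const
  · refine Eventually.of_forall fun θ _ s hs => ?_
    exact hd s (hsub (ball_subset_closedBall hs)) θ

/-- `s + i θ` -/
noncomputable def zt (s θ : ℝ) : ℂ := (s : ℂ) + (θ : ℂ) * I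

theorem zt_re (s θ : ℝ) : (zt s θ).re = s := by simp [zt]

theorem exp_zt (s θ : ℝ) : Complex.exp (zt s θ) = pt (Real.exp s) θ := by
  simp [zt, pt, circleMap, Complex.exp_add]

theorem zt_per (s θ : ℝ) : zt s (θ + 2 * Real.pi) = zt s θ + 2 * Real.pi * I := by
  simp only [zt]
  push_cast
  ring

theorem zt_d1 (s θ : ℝ) : HasDerivAt (fun s : ℝ => zt s θ) 1 s := by
  have h : HasDerivAt (fun s : ℝ => (s : ℂ)) 1 s := by
    simpa using (hasDerivAt_id s).ofReal_comp
  exact h.add_const _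

theorem zt_d2 (s θ : ℝ) : HasDerivAt (fun θ : ℝ => zt s θ) I θ := by
  have h : HasDerivAt (fun θ : ℝ => (θ : ℂ)) 1 θ := by
    simpa using (hasDerivAt_id θ).ofReal_comp
  have h2 := (h.mul_const I).const_add (s : ℂ)
  rw [one_mul] at h2
  exact h2

theorem re_d {f : ℝ → ℂ} {f' : ℂ} {x : ℝ} (h : HasDerivAt f f' x) :
    HasDerivAt (fun x => (f x).re) f'.re x := reCLM.hasFDerivAt.comp_hasDerivAt x h

theorem im_d {f : ℝ → ℂ} {f' : ℂ} {x : ℝ} (h : HasDerivAt f f' x) :
    HasDerivAt (fun x => (f x).im) f'.im x := imCLM.hasFDerivAt.comp_hasDerivAt x h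

/-- a periodic holomorphic function on a half plane, with two derivatives -/
structure KD (c : ℝ) (K K1 K2 : ℂ → ℂ) : Prop where
  d1 : ∀ ζ : ℂ, ζ.re < c → HasDerivAt K (K1 ζ) ζ
  d2 : ∀ ζ : ℂ, ζ.re < c → HasDerivAt K1 (K2 ζ) ζ
  c2 : ContinuousOn K2 {ζ : ℂ | ζ.re < c}
  p0 : ∀ ζ, K (ζ + 2 * Real.pi * I) = K ζ
  p1 : ∀ ζ, K1 (ζ + 2 * Real.pi * I) = K1 ζ

/-- a periodic weight with two derivatives -/
structure WD (W W1 W2 : ℝ → ℝ) : Prop where
  d1 : ∀ θ, HasDerivAt W (W1 θ) θ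
  d2 : ∀ θ, HasDerivAt W1 (W2 θ) θ
  c2 : Continuous W2
  p0 : ∀ θ, W (θ + 2 * Real.pi) = W θ
  p1 : ∀ θ, W1 (θ + 2 * Real.pi) = W1 θ

/-- the functions coming from the disc -/
theorem kd_of {k : ℂ → ℂ} {R₁ : ℝ} (hR : 0 < R₁) (hk : DifferentiableOn ℂ k (ball 0 R₁)) :
    KD (Real.log R₁) (fun ζ => k (Complex.exp ζ)) (fun ζ => Complex.exp ζ * deriv k (Complex.exp ζ))
      (deriv fun ζ => Complex.exp ζ * deriv k (Complex.exp ζ)) := by
  have hop : IsOpen {ζ : ℂ | ζ.re < Real.log R₁} := isOpen_lt continuous_re continuous_const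
  have hmap : ∀ ζ : ℂ, ζ.re < Real.log R₁ → Complex.exp ζ ∈ ball (0 : ℂ) R₁ := by
    intro ζ hζ
    rw [mem_ball_zero_iff, Complex.norm_exp, ← Real.exp_log hR]
    exact Real.exp_lt_exp.2 hζ
  have hd : DifferentiableOn ℂ (fun ζ => Complex.exp ζ * deriv k (Complex.exp ζ))
      {ζ : ℂ | ζ.re < Real.log R₁} := by
    apply DifferentiableOn.mul Complex.differentiable_exp.differentiableOn
    exact (hk.deriv isOpen_ball).comp Complex.differentiable_exp.differentiableOn
      (fun ζ hζ => hmap ζ hζ)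
  refine ⟨?_, ?_, ?_, ?_, ?_⟩
  · intro ζ hζ
    have h1 := (hk.differentiableAt (isOpen_ball.mem_nhds (hmap ζ hζ))).hasDerivAt
    have h2 := h1.comp ζ (Complex.hasDerivAt_exp ζ)
    rw [mul_comm] at h2
    exact h2
  · intro ζ hζ
    exact (hd.differentiableAt (hop.mem_nhds hζ)).hasDerivAt
  · exact (hd.deriv hop).continuousOn
  · intro ζ
    simp only [Complex.exp_periodic ζ]
  · intro ζ
    simp only [Complex.exp_periodic ζ]

section

variable {c : ℝ} {K K1 K2 : ℂ → ℂ} {W W1 W2 : ℝ → ℝ}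

theorem zt_cont : Continuous fun q : ℝ × ℝ => zt q.1 q.2 := by
  unfold zt
  fun_prop

theorem kc0 (hK : KD c K K1 K2) {f : ℂ → ℂ} (hf : ContinuousOn f {ζ : ℂ | ζ.re < c}) :
    ContinuousOn (fun q : ℝ × ℝ => f (zt q.1 q.2)) (Iio c ×ˢ univ) := by
  apply hf.comp zt_cont.continuousOn
  intro q hq
  show (zt q.1 q.2).re < c
  rw [zt_re]
  exact hq.1

theorem kcK (hK : KD c K K1 K2) : ContinuousOn K {ζ : ℂ | ζ.re < c} := fun ζ hζ =>
  (hK.d1 ζ hζ).continuousAt.continuousWithinAt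

theorem kcK1 (hK : KD c K K1 K2) : ContinuousOn K1 {ζ : ℂ | ζ.re < c} := fun ζ hζ =>
  (hK.d2 ζ hζ).continuousAt.continuousWithinAt

theorem wc0 (hW : WD W W1 W2) : Continuous W :=
  continuous_iff_continuousAt.2 fun θ => (hW.d1 θ).continuousAt

theorem wc1 (hW : WD W W1 W2) : Continuous W1 :=
  continuous_iff_continuousAt.2 fun θ => (hW.d2 θ).continuousAt

/-- first derivative -/
theorem en1 (hK : KD c K K1 K2) (hW : WD W W1 W2) {s : ℝ} (hs : s < c) :
    HasDerivAt (fun s => ∫ θ in (0 : ℝ)..(2 * Real.pi), W θ * Real.exp (K (zt s θ)).re)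
      (∫ θ in (0 : ℝ)..(2 * Real.pi), W θ * (Real.exp (K (zt s θ)).re * (K1 (zt s θ)).re)) s := by
  have h1 := (continuous_re.comp_continuousOn (kc0 hK (kcK hK)))
  have h2 := (continuous_re.comp_continuousOn (kc0 hK (kcK1 hK)))
  have h3 := Real.continuous_exp.comp_continuousOn h1
  have hWc : ContinuousOn (fun q : ℝ × ℝ => W q.2) (Iio c ×ˢ univ) :=
    ((wc0 hW).comp continuous_snd).continuousOn
  apply hasDerivAt_int (U := Iio c)
    (F := fun s θ => W θ * Real.exp (K (zt s θ)).re)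
    (F' := fun s θ => W θ * (Real.exp (K (zt s θ)).re * (K1 (zt s θ)).re)) isOpen_Iio
  · exact hWc.mul h3
  · exact hWc.mul (h3.mul h2)
  · intro s hs θ
    have hz : (zt s θ).re < c := by rw [zt_re]; exact hs
    have a1 := re_d ((hK.d1 _ hz).comp s (zt_d1 s θ))
    rw [mul_one] at a1
    exact (a1.exp).const_mul (W θ)
  · exact hs

/-- second derivative -/
theorem en2 (hK : KD c K K1 K2) (hW : WD W W1 W2) {s : ℝ} (hs : s < c) :
    HasDerivAt (fun s => ∫ θ in (0 : ℝ)..(2 * Real.pi), W θ * (Real.exp (K (zt s θ)).re * (K1 (zt s θ)).re))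
      ((∫ θ in (0 : ℝ)..(2 * Real.pi), W θ * (Real.exp (K (zt s θ)).re * ‖K1 (zt s θ)‖ ^ 2)) -
        ∫ θ in (0 : ℝ)..(2 * Real.pi), W2 θ * Real.exp (K (zt s θ)).re) s := by
  have h1 := (continuous_re.comp_continuousOn (kc0 hK (kcK hK)))
  have h2 := (continuous_re.comp_continuousOn (kc0 hK (kcK1 hK)))
  have h4 := (continuous_re.comp_continuousOn (kc0 hK hK.c2))
  have h3 := Real.continuous_exp.comp_continuousOn h1
  have hWc : ContinuousOn (fun q : ℝ × ℝ => W q.2) (Iio c ×ˢ univ) :=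
    ((wc0 hW).comp continuous_snd).continuousOn
  have hraw := hasDerivAt_int (U := Iio c)
    (F := fun s θ => W θ * (Real.exp (K (zt s θ)).re * (K1 (zt s θ)).re))
    (F' := fun s θ => W θ * (Real.exp (K (zt s θ)).re * (K1 (zt s θ)).re * (K1 (zt s θ)).re +
      Real.exp (K (zt s θ)).re * (K2 (zt s θ)).re)) isOpen_Iio (hWc.mul (h3.mul h2))
    (hWc.mul (((h3.mul h2).mul h2).add (h3.mul h4))) (by
      intro s hs θ
      have hz : (zt s θ).re < c := by rw [zt_re]; exact hs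
      have a1 := re_d ((hK.d1 _ hz).comp s (zt_d1 s θ))
      have a2 := re_d ((hK.d2 _ hz).comp s (zt_d1 s θ))
      rw [mul_one] at a1 a2
      exact (a1.exp.mul a2).const_mul (W θ)) (s₀ := s) hs 0 (2 * Real.pi)
  refine hraw.congr_deriv ?_
  -- continuity in the angle
  have cc : ∀ {f : ℂ → ℂ}, ContinuousOn f {ζ : ℂ | ζ.re < c} → Continuous fun θ : ℝ => f (zt s θ) := by
    intro f hf
    apply hf.comp_continuous (zt_cont.comp (continuous_const.prodMk continuous_id))
    intro θ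
    show (zt s θ).re < c
    rw [zt_re]
    exact hs
  have c0 := cc (kcK hK)
  have c1 := cc (kcK1 hK)
  have c2 := cc hK.c2
  have cw := wc0 hW
  have e0 : Continuous fun θ : ℝ => Real.exp (K (zt s θ)).re :=
    Real.continuous_exp.comp (continuous_re.comp c0)
  -- integration by parts
  have hz : ∀ θ, (zt s θ).re < c := fun θ => by rw [zt_re]; exact hs
  have hibp : ∫ θ in (0 : ℝ)..(2 * Real.pi), (W θ * (Real.exp (K (zt s θ)).re *
      ((K1 (zt s θ)).im ^ 2 - (K2 (zt s θ)).re)) - W2 θ * Real.exp (K (zt s θ)).re) = 0 := by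
    have hd : ∀ θ : ℝ, HasDerivAt (fun θ => W θ * (Real.exp (K (zt s θ)).re * (-(K1 (zt s θ)).im)) -
        W1 θ * Real.exp (K (zt s θ)).re)
        (W θ * (Real.exp (K (zt s θ)).re * ((K1 (zt s θ)).im ^ 2 - (K2 (zt s θ)).re)) -
          W2 θ * Real.exp (K (zt s θ)).re) θ := by
      intro θ
      have a1 := re_d ((hK.d1 _ (hz θ)).comp θ (zt_d2 s θ))
      have a2 := im_d ((hK.d2 _ (hz θ)).comp θ (zt_d2 s θ))
      have a3 := ((hW.d1 θ).fun_mul (a1.exp.fun_mul a2.fun_neg)).fun_sub ((hW.d2 θ).fun_mul a1.exp)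
      refine a3.congr_deriv ?_
      simp only [Function.comp, mul_re, mul_im, I_re, I_im, mul_zero, mul_one, zero_sub, add_zero]
      ring
    rw [intervalIntegral.integral_eq_sub_of_hasDerivAt (fun θ _ => hd θ)]
    · have p1 : zt s (2 * Real.pi) = zt s 0 + 2 * Real.pi * I := by
        have := zt_per s 0
        rwa [zero_add] at this
      have w0 : W (2 * Real.pi) = W 0 := by
        have := hW.p0 0
        rwa [zero_add] at this
      have w1 : W1 (2 * Real.pi) = W1 0 := by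
        have := hW.p1 0
        rwa [zero_add] at this
      rw [p1, hK.p0, hK.p1, w0, w1, sub_self]
    · apply Continuous.intervalIntegrable
      exact (cw.mul (e0.mul (((continuous_im.comp c1).pow 2).sub (continuous_re.comp c2)))).sub
        (hW.c2.mul e0)
  have i1 : IntervalIntegrable (fun θ : ℝ => W θ * (Real.exp (K (zt s θ)).re * ‖K1 (zt s θ)‖ ^ 2))
      volume 0 (2 * Real.pi) :=
    (cw.mul (e0.mul (c1.norm.pow 2))).intervalIntegrable _ _
  have i2 : IntervalIntegrable (fun θ : ℝ => W2 θ * Real.exp (K (zt s θ)).re)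
      volume 0 (2 * Real.pi) := (hW.c2.mul e0).intervalIntegrable _ _
  have i3 : IntervalIntegrable (fun θ : ℝ => W θ * (Real.exp (K (zt s θ)).re *
      ((K1 (zt s θ)).im ^ 2 - (K2 (zt s θ)).re)) - W2 θ * Real.exp (K (zt s θ)).re)
      volume 0 (2 * Real.pi) :=
    ((cw.mul (e0.mul (((continuous_im.comp c1).pow 2).sub (continuous_re.comp c2)))).sub
        (hW.c2.mul e0)).intervalIntegrable _ _
  rw [← intervalIntegral.integral_sub i1 i2]
  have e1 : ∫ θ in (0 : ℝ)..(2 * Real.pi), W θ * (Real.exp (K (zt s θ)).re * (K1 (zt s θ)).re *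
      (K1 (zt s θ)).re + Real.exp (K (zt s θ)).re * (K2 (zt s θ)).re) =
      ∫ θ in (0 : ℝ)..(2 * Real.pi), ((W θ * (Real.exp (K (zt s θ)).re * ‖K1 (zt s θ)‖ ^ 2) -
        W2 θ * Real.exp (K (zt s θ)).re) - (W θ * (Real.exp (K (zt s θ)).re *
      ((K1 (zt s θ)).im ^ 2 - (K2 (zt s θ)).re)) - W2 θ * Real.exp (K (zt s θ)).re)) := by
    refine intervalIntegral.integral_congr fun θ _ => ?_
    rw [← Complex.normSq_eq_norm_sq, Complex.normSq_apply]
    ring
  rw [e1, intervalIntegral.integral_sub (i1.sub i2) i3, hibp, sub_zero]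

/-- the imaginary part has mean zero -/
theorem en3 (hK : KD c K K1 K2) {s : ℝ} (hs : s < c) :
    ∫ θ in (0 : ℝ)..(2 * Real.pi), Real.exp (K (zt s θ)).re * (K1 (zt s θ)).im = 0 := by
  have hz : ∀ θ, (zt s θ).re < c := fun θ => by rw [zt_re]; exact hs
  have cc : ∀ {f : ℂ → ℂ}, ContinuousOn f {ζ : ℂ | ζ.re < c} → Continuous fun θ : ℝ => f (zt s θ) := by
    intro f hf
    apply hf.comp_continuous (zt_cont.comp (continuous_const.prodMk continuous_id))
    intro θ
    exact hz θ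
  have hd : ∀ θ : ℝ, HasDerivAt (fun θ => -Real.exp (K (zt s θ)).re)
      (Real.exp (K (zt s θ)).re * (K1 (zt s θ)).im) θ := by
    intro θ
    have a1 := re_d ((hK.d1 _ (hz θ)).comp θ (zt_d2 s θ))
    refine a1.exp.neg.congr_deriv ?_
    simp only [Function.comp, mul_re, I_re, I_im, mul_zero, mul_one, zero_sub]
    ring
  rw [intervalIntegral.integral_eq_sub_of_hasDerivAt (fun θ _ => hd θ)]
  · have p1 : zt s (2 * Real.pi) = zt s 0 + 2 * Real.pi * I := by
      have := zt_per s 0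
      rwa [zero_add] at this
    rw [p1, hK.p0, sub_self]
  · apply Continuous.intervalIntegrable
    exact (Real.continuous_exp.comp (continuous_re.comp (cc (kcK hK)))).mul
      (continuous_im.comp (cc (kcK1 hK)))

end

/-- comparison of differential inequalities, first step -/
theorem ode1 {G G1 G2 S S1 S2 E p q : ℝ → ℝ} {a b : ℝ}
    (hG : ∀ s ∈ Icc a b, HasDerivAt G (G1 s) s) (hG1 : ∀ s ∈ Icc a b, HasDerivAt G1 (G2 s) s)
    (hS : ∀ s ∈ Icc a b, HasDerivAt S (S1 s) s) (hS1 : ∀ s ∈ Icc a b, HasDerivAt S1 (S2 s) s)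
    (hE : ∀ s ∈ Icc a b, HasDerivAt E (-(p s * E s)) s) (hE0 : ∀ s ∈ Icc a b, 0 < E s)
    (hG0 : ∀ s ∈ Icc a b, 0 ≤ G s) (hS0 : ∀ s ∈ Icc a b, 0 < S s)
    (hGi : ∀ s ∈ Icc a b, G2 s ≤ p s * G1 s + q s * G s)
    (hSi : ∀ s ∈ Icc a b, p s * S1 s + q s * S s ≤ S2 s) {s : ℝ} (hs : s ∈ Icc a b) :
    (G1 s * S s - G s * S1 s) * E s ≤ (G1 a * S a - G a * S1 a) * E a := by
  have hd : ∀ s ∈ Icc a b, HasDerivAt (fun s => (G1 s * S s - G s * S1 s) * E s)
      ((G2 s * S s - G s * S2 s) * E s - (G1 s * S s - G s * S1 s) * (p s * E s)) s := by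
    intro s hs
    have h1 := ((((hG1 s hs).fun_mul (hS s hs)).fun_sub ((hG s hs).fun_mul (hS1 s hs))).fun_mul (hE s hs))
    refine h1.congr_deriv ?_
    ring
  have hanti : AntitoneOn (fun s => (G1 s * S s - G s * S1 s) * E s) (Icc a b) := by
    apply antitoneOn_of_deriv_nonpos (convex_Icc a b)
    · intro s hs
      exact (hd s hs).continuousAt.continuousWithinAt
    · intro s hs
      exact (hd s (interior_subset hs)).differentiableAt.differentiableWithinAt
    · intro s hs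
      have hs' := interior_subset hs
      rw [(hd s hs').deriv]
      have h1 := mul_le_mul_of_nonneg_right (hGi s hs') (hS0 s hs').le
      have h2 := mul_le_mul_of_nonneg_left (hSi s hs') (hG0 s hs')
      have h3 : (G2 s * S s - G s * S2 s) ≤ p s * (G1 s * S s - G s * S1 s) := by nlinarith
      have h4 := mul_le_mul_of_nonneg_right h3 (hE0 s hs').le
      linarith
  exact hanti ⟨le_rfl, hs.1.trans hs.2⟩ hs hs.1

/-- comparison, second step -/
theorem ode2 {G G1 S S1 : ℝ → ℝ} {a b : ℝ} (hab : a ≤ b)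
    (hG : ∀ s ∈ Icc a b, HasDerivAt G (G1 s) s)
    (hS : ∀ s ∈ Icc a b, HasDerivAt S (S1 s) s) (hS0 : ∀ s ∈ Icc a b, 0 < S s)
    (hw : ∀ s ∈ Icc a b, G1 s * S s - G s * S1 s ≤ 0) : G b / S b ≤ G a / S a := by
  have hd : ∀ s ∈ Icc a b, HasDerivAt (fun s => G s / S s)
      ((G1 s * S s - G s * S1 s) / S s ^ 2) s := fun s hs => (hG s hs).div (hS s hs) (hS0 s hs).ne'
  have hanti : AntitoneOn (fun s => G s / S s) (Icc a b) := by
    apply antitoneOn_of_deriv_nonpos (convex_Icc a b)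
    · intro s hs
      exact (hd s hs).continuousAt.continuousWithinAt
    · intro s hs
      exact (hd s (interior_subset hs)).differentiableAt.differentiableWithinAt
    · intro s hs
      have hs' := interior_subset hs
      rw [(hd s hs').deriv]
      exact div_nonpos_of_nonpos_of_nonneg (hw s hs') (sq_nonneg _)
  exact hanti ⟨le_rfl, hab⟩ ⟨hab, le_rfl⟩ hab

end Pool.Agent.W677.Mar
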