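import Pool.Agent.Helper240.ZFM.AreaA
import Pool.Agent.W677.Mar1

set_option autoImplicit false

/-! # Makarov's moment estimate for Bloch functions (crude constant) -/

namespace Pool.Agent.W677.Mar

open Complex Metric Set Filter Topology MeasureTheory
open Pool.Agent.Helper405.Area (parseval hasSum_Q summable_of_hasSum)

/-- mean square in terms of the Taylor coefficients -/
theorem mean_sq {f : ℂ → ℂ} {a : ℕ → ℂ}
    (ha : ∀ z ∈ ball (0 : ℂ) 1, HasSum (fun j => a j * z ^ j) (f z)) {r : ℝ} (hr0 : 0 ≤ r)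
    (hr1 : r < 1) : HasSum (fun j => ‖a j‖ ^ 2 * (r ^ 2) ^ j)
      ((2 * Real.pi)⁻¹ * ∫ θ in (0 : ℝ)..(2 * Real.pi), ‖f (pt r θ)‖ ^ 2) := by
  have hs := summable_of_hasSum ha hr0 hr1
  have hb : ∀ z, ‖z‖ = r → HasSum (fun j => a j * z ^ j) (f z) := fun z hz =>
    ha z (by rw [mem_ball_zero_iff, hz]; exact hr1)
  have h1 := parseval hr0 hs hs hb hb
  rw [← Complex.hasSum_ofReal]
  have e1 : (fun j : ℕ => (starRingEnd ℂ) (a j) * a j * ((r ^ (2 * j) : ℝ) : ℂ)) =
      fun j => ((‖a j‖ ^ 2 * (r ^ 2) ^ j : ℝ) : ℂ) := by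
    funext j
    rw [← Complex.normSq_eq_conj_mul_self, Complex.normSq_eq_norm_sq, ← pow_mul]
    push_cast
    rfl
  have e2 : ((2 * Real.pi : ℂ)⁻¹ * ∫ θ in (0:ℝ)..(2 * Real.pi),
      (starRingEnd ℂ) (f (circleMap 0 r θ)) * f (circleMap 0 r θ)) =
      (((2 * Real.pi)⁻¹ * ∫ θ in (0 : ℝ)..(2 * Real.pi), ‖f (pt r θ)‖ ^ 2 : ℝ) : ℂ) := by
    rw [Complex.ofReal_mul, ← intervalIntegral.integral_ofReal]
    push_cast
    congr 1
    refine intervalIntegral.integral_congr fun θ _ => ?_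
    show (starRingEnd ℂ) (f (circleMap 0 r θ)) * f (circleMap 0 r θ) = _
    rw [← Complex.normSq_eq_conj_mul_self, Complex.normSq_eq_norm_sq]
    push_cast
    rfl
  rw [e1, e2] at h1
  exact h1

/-- comparison on `[0,1)` -/
theorem cmp {f g f' g' : ℝ → ℝ} (hf : ∀ x ∈ Ico (0 : ℝ) 1, HasDerivAt f (f' x) x)
    (hg : ∀ x ∈ Ico (0 : ℝ) 1, HasDerivAt g (g' x) x) (h : ∀ x ∈ Ioo (0 : ℝ) 1, f' x ≤ g' x)
    (h0 : f 0 ≤ g 0) {x : ℝ} (hx : x ∈ Ico (0 : ℝ) 1) : f x ≤ g x := by
  have hd : ∀ x ∈ Ico (0 : ℝ) 1, HasDerivAt (fun x => g x - f x) (g' x - f' x) x :=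
    fun x hx => (hg x hx).sub (hf x hx)
  have hm : MonotoneOn (fun x => g x - f x) (Ico 0 1) := by
    apply monotoneOn_of_deriv_nonneg (convex_Ico 0 1)
    · intro x hx
      exact (hd x hx).continuousAt.continuousWithinAt
    · intro x hx
      rw [interior_Ico] at hx
      exact (hd x ⟨hx.1.le, hx.2⟩).differentiableAt.differentiableWithinAt
    · intro x hx
      rw [interior_Ico] at hx
      rw [(hd x ⟨hx.1.le, hx.2⟩).deriv]
      linarith [h x hx]
  have := hm ⟨le_rfl, one_pos⟩ hx hx.1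
  simp only at this
  linarith

/-- `log (1 / (1 - x))` -/
noncomputable def lam (x : ℝ) : ℝ := -Real.log (1 - x)

theorem lam_zero : lam 0 = 0 := by simp [lam]

theorem lam_nonneg {x : ℝ} (h0 : 0 ≤ x) (h1 : x < 1) : 0 ≤ lam x := by
  have := Real.log_nonpos (by linarith : 0 ≤ 1 - x) (by linarith)
  unfold lam
  linarith

theorem lam_pos {x : ℝ} (h0 : 0 < x) (h1 : x < 1) : 0 < lam x := by
  have := Real.log_neg (by linarith : 0 < 1 - x) (by linarith)
  unfold lam
  linarith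

theorem lam_deriv {x : ℝ} (h1 : x < 1) : HasDerivAt lam (1 / (1 - x)) x := by
  have h : HasDerivAt (fun x : ℝ => 1 - x) (-1) x := by
    simpa using (hasDerivAt_id x).const_sub 1
  have h2 := (h.log (by linarith : (1 : ℝ) - x ≠ 0)).neg
  refine h2.congr_deriv ?_
  ring

/-- double integration -/
theorem dint {α : ℕ → ℝ} (h0 : α 0 = 0) {K : ℝ} (hK : 0 ≤ K) (m : ℕ)
    (N : ℕ) (hD : ∀ x ∈ Ioo (0 : ℝ) 1, ∑ k ∈ Finset.range N, (k : ℝ) ^ 2 * α k * x ^ (k - 1) ≤
      K * lam x ^ m / (1 - x) ^ 2) {x : ℝ} (hx : x ∈ Ico (0 : ℝ) 1) :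
    ∑ k ∈ Finset.range N, α k * x ^ k ≤ K / (m + 1) * lam x ^ (m + 1) := by
  -- first integration
  have hU : ∀ x ∈ Ico (0 : ℝ) 1, ∑ k ∈ Finset.range N, (k : ℝ) * α k * x ^ k ≤
      K * lam x ^ m * (x / (1 - x)) := by
    intro x hx
    apply cmp (f := fun x => ∑ k ∈ Finset.range N, (k : ℝ) * α k * x ^ k)
      (g := fun x => K * lam x ^ m * (x / (1 - x)))
      (f' := fun x => ∑ k ∈ Finset.range N, (k : ℝ) * α k * ((k : ℝ) * x ^ (k - 1)))
      (g' := fun x => K * (m * lam x ^ (m - 1) * (1 / (1 - x))) * (x / (1 - x)) +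
        K * lam x ^ m * (((1 - x) - x * (-1)) / (1 - x) ^ 2)) _ _ _ _ hx
    · intro y _
      apply HasDerivAt.fun_sum
      intro k _
      exact (hasDerivAt_pow k y).const_mul _
    · intro y hy
      have h1 : (1 : ℝ) - y ≠ 0 := by linarith [hy.2]
      have d1 := (((lam_deriv hy.2).pow m).const_mul K)
      have d2 : HasDerivAt (fun x : ℝ => 1 - x) (-1) y := by
        simpa using (hasDerivAt_id y).const_sub 1
      have d3 := (hasDerivAt_id y).div d2 h1
      have d4 := d1.mul d3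
      refine d4.congr_deriv ?_
      simp only [id, one_mul]
      rfl
    · intro y hy
      have h1 : 0 < 1 - y := by linarith [hy.2]
      have h2 := hD y hy
      have h3 := lam_nonneg hy.1.le hy.2
      have e1 : ∑ k ∈ Finset.range N, (k : ℝ) * α k * ((k : ℝ) * y ^ (k - 1)) =
          ∑ k ∈ Finset.range N, (k : ℝ) ^ 2 * α k * y ^ (k - 1) :=
        Finset.sum_congr rfl fun k _ => by ring
      show _ ≤ _
      rw [e1]
      refine h2.trans ?_
      have h4 : 0 ≤ K * (m * lam y ^ (m - 1) * (1 / (1 - y))) * (y / (1 - y)) := by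
        have := hy.1.le
        positivity
      have e2 : K * lam y ^ m * (((1 - y) - y * (-1)) / (1 - y) ^ 2) = K * lam y ^ m / (1 - y) ^ 2 := by
        ring
      rw [e2]
      linarith
    · show ∑ k ∈ Finset.range N, (k : ℝ) * α k * 0 ^ k ≤ K * lam 0 ^ m * (0 / (1 - 0))
      rw [Finset.sum_eq_zero]
      · simp
      · intro k _
        rcases Nat.eq_zero_or_pos k with h | h
        · simp [h]
        · simp [h.ne']
  apply cmp (f := fun x => ∑ k ∈ Finset.range N, α k * x ^ k)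
    (g := fun x => K / (m + 1) * lam x ^ (m + 1))
    (f' := fun x => ∑ k ∈ Finset.range N, α k * ((k : ℝ) * x ^ (k - 1)))
    (g' := fun x => K * lam x ^ m * (1 / (1 - x))) _ _ _ _ hx
  · intro y _
    apply HasDerivAt.fun_sum
    intro k _
    exact (hasDerivAt_pow k y).const_mul _
  · intro y hy
    have d1 := (((lam_deriv hy.2).pow (m + 1)).const_mul (K / (m + 1)))
    refine d1.congr_deriv ?_
    have : ((m : ℝ) + 1) ≠ 0 := by positivity
    rw [Nat.add_sub_cancel]
    push_cast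
    field_simp
  · intro y hy
    have h1 : 0 < 1 - y := by linarith [hy.2]
    have h2 := hU y ⟨hy.1.le, hy.2⟩
    have e1 : y * ∑ k ∈ Finset.range N, α k * ((k : ℝ) * y ^ (k - 1)) =
        ∑ k ∈ Finset.range N, (k : ℝ) * α k * y ^ k := by
      rw [Finset.mul_sum]
      refine Finset.sum_congr rfl fun k _ => ?_
      rcases Nat.eq_zero_or_pos k with h | h
      · simp [h]
      · have : y ^ k = y * y ^ (k - 1) := by
          rw [← pow_succ', Nat.sub_add_cancel h]
        rw [this]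
        ring
    rw [← e1] at h2
    have h3 : y * ∑ k ∈ Finset.range N, α k * ((k : ℝ) * y ^ (k - 1)) ≤
        y * (K * lam y ^ m * (1 / (1 - y))) := by
      refine h2.trans (le_of_eq ?_)
      ring
    exact le_of_mul_le_mul_left h3 hy.1
  · show ∑ k ∈ Finset.range N, α k * 0 ^ k ≤ K / (m + 1) * lam 0 ^ (m + 1)
    rw [lam_zero, Finset.sum_eq_zero]
    · simp
    · intro k _
      rcases Nat.eq_zero_or_pos k with h | h
      · simp [h, h0]
      · simp [h.ne']

section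

variable {g : ℂ → ℂ} {B : ℝ}

theorem cont_circ (hg : DifferentiableOn ℂ g (ball 0 1)) {r : ℝ} (hr0 : 0 ≤ r) (hr1 : r < 1) :
    Continuous fun θ : ℝ => g (pt r θ) := by
  apply hg.continuousOn.comp_continuous (continuous_pt r)
  intro θ
  rw [mem_ball_zero_iff, norm_pt r θ hr0]
  exact hr1

/-- moments of Bloch functions -/
theorem mom (hg : DifferentiableOn ℂ g (ball 0 1)) (h0 : g 0 = 0)
    (hB : ∀ w ∈ ball (0 : ℂ) 1, ‖deriv g w‖ * (1 - ‖w‖) ≤ B) (n : ℕ) :
    ∀ r : ℝ, 0 ≤ r → r < 1 →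
      (2 * Real.pi)⁻¹ * ∫ θ in (0 : ℝ)..(2 * Real.pi), ‖g (pt r θ)‖ ^ (2 * n) ≤
        n.factorial * (4 * B ^ 2) ^ n * lam (r ^ 2) ^ n := by
  have hpi := Real.pi_pos
  have hB0 : 0 ≤ B := by
    have := hB 0 (mem_ball_self one_pos)
    rw [norm_zero, sub_zero, mul_one] at this
    exact (norm_nonneg _).trans this
  induction n with
  | zero =>
    intro r _ _
    simp only [Nat.mul_zero, pow_zero, Nat.factorial_zero, Nat.cast_one, mul_one,
      intervalIntegral.integral_const, sub_zero, smul_eq_mul]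
    rw [inv_mul_cancel₀ (by positivity)]
  | succ n ih =>
    set f : ℂ → ℂ := fun z => g z ^ (n + 1) with hf
    have hfd : DifferentiableOn ℂ f (ball 0 1) := hg.pow (n + 1)
    set a : ℕ → ℂ := fun n => (n.factorial : ℂ)⁻¹ * iteratedDeriv n f 0 with hadef
    have ha : ∀ z ∈ ball (0:ℂ) 1, HasSum (fun j => a j * z ^ j) (f z) := by
      intro z hz
      have h1 := Complex.hasSum_taylorSeries_on_ball hfd hz
      refine h1.congr_fun ?_ |> fun h => h
      intro n
      simp only [hadef, smul_eq_mul, sub_zero]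
      ring
    have ha0 : a 0 = 0 := by
      simp [hadef, hf, h0]
    have hfder : ∀ z ∈ ball (0 : ℂ) 1, deriv f z = (n + 1 : ℕ) * g z ^ n * deriv g z := by
      intro z hz
      have h1 := ((hg.differentiableAt (isOpen_ball.mem_nhds hz)).hasDerivAt).pow (n + 1)
      exact h1.deriv
    obtain ⟨K, hK⟩ : ∃ K : ℝ, K = 4 * ((n : ℝ) + 1) ^ 2 * B ^ 2 * (n.factorial * (4 * B ^ 2) ^ n) :=
      ⟨_, rfl⟩
    have hK0 : 0 ≤ K := by rw [hK]; positivity
    -- the bound on the mean of `|z f'|^2`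
    have hD : ∀ N : ℕ, ∀ x ∈ Ioo (0 : ℝ) 1,
        ∑ k ∈ Finset.range N, (k : ℝ) ^ 2 * ‖a k‖ ^ 2 * x ^ (k - 1) ≤
        K * lam x ^ n / (1 - x) ^ 2 := by
      intro N x hx
      obtain ⟨r, hr⟩ : ∃ r, r = Real.sqrt x := ⟨_, rfl⟩
      have hr2 : r ^ 2 = x := by rw [hr]; exact Real.sq_sqrt hx.1.le
      have hr0 : 0 < r := by rw [hr]; exact Real.sqrt_pos.2 hx.1
      have hr1 : r < 1 := by
        rw [hr, Real.sqrt_lt' one_pos]
        simpa using hx.2
      have hQ := hasSum_Q ha 0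
      have hQ' : ∀ z ∈ ball (0 : ℂ) 1, HasSum (fun j : ℕ => ((j : ℂ) * a j) * z ^ j) (z * deriv f z) := by
        intro z hz
        have := hQ z hz
        simpa using this
      have h1 := mean_sq hQ' hr0.le hr1
      rw [hr2] at h1
      have h2 : ∑ k ∈ Finset.range N, (k : ℝ) ^ 2 * ‖a k‖ ^ 2 * x ^ k ≤
          (2 * Real.pi)⁻¹ * ∫ θ in (0 : ℝ)..(2 * Real.pi), ‖pt r θ * deriv f (pt r θ)‖ ^ 2 := by
        refine le_trans (le_of_eq (Finset.sum_congr rfl fun k _ => ?_)) (sum_le_hasSum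
          (Finset.range N) (fun k _ => by have := hx.1.le; positivity) h1)
        rw [norm_mul (k : ℂ) (a k), Complex.norm_natCast, mul_pow]
      have hcf : Continuous fun θ : ℝ => deriv f (pt r θ) :=
        cont_circ (hfd.deriv isOpen_ball) hr0.le hr1
      have h3 : ∫ θ in (0 : ℝ)..(2 * Real.pi), ‖pt r θ * deriv f (pt r θ)‖ ^ 2 ≤
          ∫ θ in (0 : ℝ)..(2 * Real.pi), ((n + 1 : ℝ) ^ 2 * B ^ 2 * (4 * x / (1 - x) ^ 2)) *
            ‖g (pt r θ)‖ ^ (2 * n) := by
        apply intervalIntegral.integral_mono_on (by positivity)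
        · exact (((continuous_pt r).mul hcf).norm.pow 2).intervalIntegrable _ _
        · exact (continuous_const.mul ((cont_circ hg hr0.le hr1).norm.pow _)).intervalIntegrable _ _
        · intro θ _
          have hm : pt r θ ∈ ball (0 : ℂ) 1 := by
            rw [mem_ball_zero_iff, norm_pt r θ hr0.le]
            exact hr1
          have h4 := hB _ hm
          rw [norm_pt r θ hr0.le] at h4
          have h5 : ‖deriv g (pt r θ)‖ ≤ B / (1 - r) := by
            rw [le_div_iff₀ (by linarith)]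
            exact h4
          have h6 : ‖deriv g (pt r θ)‖ ^ 2 ≤ B ^ 2 * (4 / (1 - x) ^ 2) := by
            have h7 : B / (1 - r) ≤ B * (2 / (1 - x)) := by
              rw [div_eq_mul_inv]
              refine mul_le_mul_of_nonneg_left ?_ hB0
              rw [← one_div, div_le_div_iff₀ (by linarith) (by linarith [hx.2]), ← hr2]
              nlinarith
            have h8 := pow_le_pow_left₀ (norm_nonneg _) (h5.trans h7) 2
            refine h8.trans (le_of_eq ?_)
            rw [mul_pow, div_pow]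
            norm_num
          rw [norm_mul, norm_pt r θ hr0.le, hfder _ hm, norm_mul, norm_mul, norm_pow,
            Complex.norm_natCast]
          calc (r * ((n + 1 : ℕ) * ‖g (pt r θ)‖ ^ n * ‖deriv g (pt r θ)‖)) ^ 2
              = (n + 1 : ℝ) ^ 2 * r ^ 2 * ‖g (pt r θ)‖ ^ (2 * n) * ‖deriv g (pt r θ)‖ ^ 2 := by
                push_cast
                ring
            _ ≤ (n + 1 : ℝ) ^ 2 * r ^ 2 * ‖g (pt r θ)‖ ^ (2 * n) * (B ^ 2 * (4 / (1 - x) ^ 2)) := by
                gcongr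
            _ = _ := by
                rw [hr2]
                ring
      rw [intervalIntegral.integral_const_mul] at h3
      have h4 := ih r hr0.le hr1
      rw [hr2] at h4
      have h5 : ∑ k ∈ Finset.range N, (k : ℝ) ^ 2 * ‖a k‖ ^ 2 * x ^ k ≤
          x * (K * lam x ^ n / (1 - x) ^ 2) := by
        refine h2.trans ?_
        have h6 := mul_le_mul_of_nonneg_left h3 (by positivity : (0 : ℝ) ≤ (2 * Real.pi)⁻¹)
        refine h6.trans ?_
        have h7 := mul_le_mul_of_nonneg_left h4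
          (by have := hx.1.le; positivity : (0 : ℝ) ≤ (n + 1 : ℝ) ^ 2 * B ^ 2 * (4 * x / (1 - x) ^ 2))
        calc (2 * Real.pi)⁻¹ * ((n + 1 : ℝ) ^ 2 * B ^ 2 * (4 * x / (1 - x) ^ 2) *
              ∫ θ in (0 : ℝ)..(2 * Real.pi), ‖g (pt r θ)‖ ^ (2 * n))
            = (n + 1 : ℝ) ^ 2 * B ^ 2 * (4 * x / (1 - x) ^ 2) *
              ((2 * Real.pi)⁻¹ * ∫ θ in (0 : ℝ)..(2 * Real.pi), ‖g (pt r θ)‖ ^ (2 * n)) := by ring
          _ ≤ _ := h7
          _ = _ := by
            rw [hK]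
            ring
      have h6 : x * ∑ k ∈ Finset.range N, (k : ℝ) ^ 2 * ‖a k‖ ^ 2 * x ^ (k - 1) =
          ∑ k ∈ Finset.range N, (k : ℝ) ^ 2 * ‖a k‖ ^ 2 * x ^ k := by
        rw [Finset.mul_sum]
        refine Finset.sum_congr rfl fun k _ => ?_
        rcases Nat.eq_zero_or_pos k with h | h
        · simp [h]
        · have : x ^ k = x * x ^ (k - 1) := by
            rw [← pow_succ', Nat.sub_add_cancel h]
          rw [this]
          ring
      rw [← h6] at h5
      exact le_of_mul_le_mul_left h5 hx.1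
    intro r hr0 hr1
    have hx : r ^ 2 ∈ Ico (0 : ℝ) 1 := ⟨sq_nonneg r, pow_lt_one₀ hr0 hr1 two_ne_zero⟩
    have h1 := mean_sq ha hr0 hr1
    have h2 : ∀ N : ℕ, ∑ k ∈ Finset.range N, ‖a k‖ ^ 2 * (r ^ 2) ^ k ≤
        K / (n + 1) * lam (r ^ 2) ^ (n + 1) := by
      intro N
      exact dint (α := fun k => ‖a k‖ ^ 2) (by simp [ha0]) hK0 n N (hD N) hx
    have h3 := le_of_tendsto h1.tendsto_sum_nat (Eventually.of_forall h2)
    have e1 : ∀ θ : ℝ, ‖f (pt r θ)‖ ^ 2 = ‖g (pt r θ)‖ ^ (2 * (n + 1)) := by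
      intro θ
      simp only [hf]
      rw [norm_pow, ← pow_mul, mul_comm]
    simp only [e1] at h3
    refine h3.trans (le_of_eq ?_)
    rw [hK, Nat.factorial_succ]
    have : ((n : ℝ) + 1) ≠ 0 := by positivity
    push_cast
    field_simp
    ring

/-- exponential square integrability of Bloch functions -/
theorem bloch_exp (hg : DifferentiableOn ℂ g (ball 0 1)) (h0 : g 0 = 0)
    (hB : ∀ w ∈ ball (0 : ℂ) 1, ‖deriv g w‖ * (1 - ‖w‖) ≤ B) {c : ℝ} (hc : 0 ≤ c)
    (hcB : 4 * c * B ^ 2 < 1) {r : ℝ} (hr0 : 0 < r) (hr1 : r < 1) :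
    ∫ θ in (0 : ℝ)..(2 * Real.pi), Real.exp (c * ‖g (pt r θ)‖ ^ 2 / lam (r ^ 2)) ≤
      2 * Real.pi * (1 - 4 * c * B ^ 2)⁻¹ := by
  have hpi := Real.pi_pos
  have hx1 : r ^ 2 < 1 := pow_lt_one₀ hr0.le hr1 two_ne_zero
  have hL := lam_pos (by positivity : 0 < r ^ 2) hx1
  obtain ⟨L, hLd⟩ : ∃ L, L = lam (r ^ 2) := ⟨_, rfl⟩
  rw [← hLd] at hL ⊢
  have hgc := cont_circ hg hr0.le hr1
  obtain ⟨G, hG⟩ := (isCompact_Icc (a := (0 : ℝ)) (b := 2 * Real.pi)).exists_bound_of_continuousOn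
    (f := fun θ => c * ‖g (pt r θ)‖ ^ 2 / L)
    ((continuous_const.mul (hgc.norm.pow 2)).div_const L).continuousOn
  have hsum : HasSum (fun n : ℕ => ∫ θ in (0 : ℝ)..(2 * Real.pi),
      (c * ‖g (pt r θ)‖ ^ 2 / L) ^ n / n.factorial)
      (∫ θ in (0 : ℝ)..(2 * Real.pi), Real.exp (c * ‖g (pt r θ)‖ ^ 2 / L)) := by
    apply intervalIntegral.hasSum_integral_of_dominated_convergence
      (fun (n : ℕ) _ => G ^ n / n.factorial)
    · intro n
      apply Continuous.aestronglyMeasurable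
      exact (((continuous_const.mul (hgc.norm.pow 2)).div_const L).pow n).div_const _
    · intro n
      refine Eventually.of_forall fun θ hθ => ?_
      rw [uIoc_of_le (by positivity)] at hθ
      have h1 := hG θ ⟨hθ.1.le, hθ.2⟩
      rw [norm_div, norm_pow, Real.norm_natCast]
      gcongr
    · refine Eventually.of_forall fun θ _ => ?_
      exact Real.summable_pow_div_factorial G
    · exact intervalIntegrable_const
    · refine Eventually.of_forall fun θ _ => ?_
      have := NormedSpace.expSeries_div_hasSum_exp (𝔸 := ℝ) (c * ‖g (pt r θ)‖ ^ 2 / L)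
      rw [← Real.exp_eq_exp_ℝ] at this
      exact this
  have hterm : ∀ n : ℕ, ∫ θ in (0 : ℝ)..(2 * Real.pi),
      (c * ‖g (pt r θ)‖ ^ 2 / L) ^ n / n.factorial ≤ 2 * Real.pi * (4 * c * B ^ 2) ^ n := by
    intro n
    have h1 := mom hg h0 hB n r hr0.le hr1
    rw [← hLd] at h1
    have e1 : ∫ θ in (0 : ℝ)..(2 * Real.pi), (c * ‖g (pt r θ)‖ ^ 2 / L) ^ n / n.factorial =
        (2 * Real.pi * (c ^ n / L ^ n / n.factorial)) *
        ((2 * Real.pi)⁻¹ * ∫ θ in (0 : ℝ)..(2 * Real.pi), ‖g (pt r θ)‖ ^ (2 * n)) := by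
      rw [← mul_assoc, ← intervalIntegral.integral_const_mul]
      refine intervalIntegral.integral_congr fun θ _ => ?_
      show (c * ‖g (pt r θ)‖ ^ 2 / L) ^ n / n.factorial = _
      rw [pow_mul, div_pow, mul_pow]
      field_simp
    rw [e1]
    have h2 := mul_le_mul_of_nonneg_left h1
      (by positivity : (0 : ℝ) ≤ 2 * Real.pi * (c ^ n / L ^ n / n.factorial))
    refine h2.trans (le_of_eq ?_)
    have : (n.factorial : ℝ) ≠ 0 := by positivity
    rw [mul_pow (4 * c), mul_pow 4 c, mul_pow 4 (B ^ 2)]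
    field_simp
  have hgeo := (hasSum_geometric_of_lt_one (r := 4 * c * B ^ 2) (by positivity) hcB).mul_left
    (2 * Real.pi)
  exact hasSum_le hterm hsum hgeo

end

end Pool.Agent.W677.Mar
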