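import Pool.Agent.W677.MarG1

set_option autoImplicit false

/-! # The logarithm of `(ψ(1/z) - ψ(1/ζ)) / (1/z - 1/ζ)` in two variables -/

namespace Pool.Agent.W677.Mar

open Complex Metric Set Filter Topology MeasureTheory

/-- uniqueness of continuous logarithms -/
theorem exp_unique {X : Type*} [TopologicalSpace X] {S : Set X} (hS : IsPreconnected S)
    {f g : X → ℂ} (hf : ContinuousOn f S) (hg : ContinuousOn g S)
    (h : ∀ x ∈ S, Complex.exp (f x) = Complex.exp (g x)) {x₀ : X} (hx₀ : x₀ ∈ S)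
    (h0 : f x₀ = g x₀) {x : X} (hx : x ∈ S) : f x = g x := by
  have hT : IsDiscrete {w : ℂ | Complex.exp w = 1} := by
    rw [isDiscrete_iff_discreteTopology]
    apply DiscreteTopology.of_forall_le_dist one_pos
    rintro ⟨a, ha⟩ ⟨b, hb⟩ hne
    have ha' : Complex.exp a = 1 := ha
    have hb' : Complex.exp b = 1 := hb
    have h1 : Complex.exp (a - b) = 1 := by rw [Complex.exp_sub, ha', hb', div_one]
    obtain ⟨n, hn⟩ := Complex.exp_eq_one_iff.1 h1
    have hn0 : n ≠ 0 := by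
      intro h0
      apply hne
      rw [h0, Int.cast_zero, zero_mul, sub_eq_zero] at hn
      exact Subtype.ext hn
    rw [Subtype.dist_eq, dist_eq_norm]
    show (1 : ℝ) ≤ ‖a - b‖
    rw [hn, norm_mul, norm_mul, norm_mul, Complex.norm_I, mul_one, Complex.norm_intCast,
      Complex.norm_real, Real.norm_of_nonneg Real.pi_pos.le, Complex.norm_ofNat]
    have h2 : (1 : ℝ) ≤ |(n : ℝ)| := by
      rw [← Int.cast_abs]
      exact_mod_cast Int.one_le_abs hn0
    have h3 := Real.pi_gt_three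
    nlinarith
  have h1 : f x - g x = f x₀ - g x₀ := by
    apply hS.constant_of_mapsTo hT (f := fun x => f x - g x) (hf.sub hg) _ hx hx₀
    intro y hy
    show Complex.exp (f y - g y) = 1
    rw [Complex.exp_sub, h y hy, div_self (Complex.exp_ne_zero _)]
  rw [h0, sub_self, sub_eq_zero] at h1
  exact h1

/-- `(z Y(ζ) - ζ Y(z)) / (z - ζ)` -/
noncomputable def NN (Y : ℂ → ℂ) (ζ z : ℂ) : ℂ := Y z - z * dslope Y ζ z

theorem NN_mul (Y : ℂ → ℂ) (ζ z : ℂ) : NN Y ζ z * (z - ζ) = z * Y ζ - ζ * Y z := by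
  have h := sub_smul_dslope Y ζ z
  rw [smul_eq_mul] at h
  unfold NN
  linear_combination (-z) * h

theorem NN_diff {Y : ℂ → ℂ} (hY : DifferentiableOn ℂ Y (ball 0 1)) {ζ : ℂ} (hζ : ζ ∈ ball (0 : ℂ) 1) :
    DifferentiableOn ℂ (NN Y ζ) (ball 0 1) := by
  apply hY.sub
  apply differentiableOn_id.mul
  exact (Complex.differentiableOn_dslope (isOpen_ball.mem_nhds hζ)).2 hY

/-- the exterior map and the logarithm of its derivative, in disc coordinates -/
structure Sg (Y H : ℂ → ℂ) : Prop where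
  G : IsG0 Y
  dH : DifferentiableOn ℂ H (ball 0 1)
  H0 : H 0 = 0
  eq : ∀ w ∈ ball (0 : ℂ) 1, Complex.exp (H w) = Y w - w * deriv Y w

theorem NN_ne {Y H : ℂ → ℂ} (S : Sg Y H) {ζ z : ℂ} (hζ : ζ ∈ ball (0 : ℂ) 1)
    (hz : z ∈ ball (0 : ℂ) 1) : NN Y ζ z ≠ 0 := by
  by_cases h : z = ζ
  · rw [h]
    unfold NN
    rw [dslope_same, ← S.eq ζ hζ]
    exact Complex.exp_ne_zero _
  · have h1 := NN_mul Y ζ z
    have h2 : z - ζ ≠ 0 := sub_ne_zero.2 h
    intro h0
    rw [h0, zero_mul] at h1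
    by_cases hz0 : z = 0
    · rw [hz0, zero_mul, zero_sub, S.G.one, mul_one] at h1
      have : ζ = 0 := by
        have := neg_eq_zero.1 h1.symm
        exact this
      exact h (hz0.trans this.symm)
    · by_cases hζ0 : ζ = 0
      · rw [hζ0, zero_mul, sub_zero, S.G.one, mul_one] at h1
        exact hz0 h1.symm
      · apply h
        apply S.G.inj ⟨hz, hz0⟩ ⟨hζ, hζ0⟩
        show Y z / z = Y ζ / ζ
        rw [div_eq_div_iff hz0 hζ0]
        linear_combination h1

/-- clamp to `[0,1]` -/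
noncomputable def cl (t : ℝ) : ℝ := max 0 (min t 1)

theorem continuous_cl : Continuous cl := continuous_const.max (continuous_id.min continuous_const)

theorem cl_mem (t : ℝ) : cl t ∈ Icc (0 : ℝ) 1 :=
  ⟨le_max_left _ _, max_le zero_le_one (min_le_right _ _)⟩

theorem cl_eq {t : ℝ} (ht : t ∈ Icc (0 : ℝ) 1) : cl t = t := by
  unfold cl
  rw [min_eq_left ht.2, max_eq_right ht.1]

theorem seg_mem {ζ z : ℂ} (hζ : ζ ∈ ball (0 : ℂ) 1) (hz : z ∈ ball (0 : ℂ) 1) {t : ℝ}
    (ht : t ∈ Icc (0 : ℝ) 1) : ζ + (t : ℂ) * (z - ζ) ∈ ball (0 : ℂ) 1 := by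
  have := (convex_ball (0 : ℂ) 1).add_smul_sub_mem hζ hz ht
  simpa using this

theorem dslope_eq {Y : ℂ → ℂ} (hY : DifferentiableOn ℂ Y (ball 0 1)) {ζ z : ℂ}
    (hζ : ζ ∈ ball (0 : ℂ) 1) (hz : z ∈ ball (0 : ℂ) 1) :
    dslope Y ζ z = ∫ t in (0 : ℝ)..1, deriv Y (ζ + (cl t : ℂ) * (z - ζ)) := by
  have hY' : ContinuousOn (deriv Y) (ball 0 1) := (hY.deriv isOpen_ball).continuousOn
  by_cases h : z = ζ
  · rw [h, dslope_same]
    simp
  · rw [dslope_of_ne _ h, slope_def_field, eq_comm, eq_div_iff (sub_ne_zero.2 h)]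
    have hcont : Continuous fun t : ℝ => deriv Y (ζ + (cl t : ℂ) * (z - ζ)) := by
      apply hY'.comp_continuous
      · exact continuous_const.add ((Complex.continuous_ofReal.comp continuous_cl).mul continuous_const)
      · intro t
        exact seg_mem hζ hz (cl_mem t)
    have h1 : ∫ t in (0 : ℝ)..1, deriv Y (ζ + (cl t : ℂ) * (z - ζ)) * (z - ζ) =
        Y (ζ + ((1 : ℝ) : ℂ) * (z - ζ)) - Y (ζ + ((0 : ℝ) : ℂ) * (z - ζ)) := by
      apply intervalIntegral.integral_eq_sub_of_hasDerivAt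
        (f := fun t : ℝ => Y (ζ + (t : ℂ) * (z - ζ)))
      · intro t ht
        rw [uIcc_of_le zero_le_one] at ht
        rw [cl_eq ht]
        have hm := seg_mem hζ hz ht
        have h2 : HasDerivAt Y (deriv Y (ζ + (t : ℂ) * (z - ζ))) (ζ + (t : ℂ) * (z - ζ)) :=
          (hY.differentiableAt (isOpen_ball.mem_nhds hm)).hasDerivAt
        have h3 : HasDerivAt (fun t : ℝ => ζ + (t : ℂ) * (z - ζ)) (z - ζ) t := by
          have := ((Complex.ofRealCLM.hasDerivAt (x := t)).mul_const (z - ζ)).const_add ζ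
          simpa using this
        exact h2.comp t h3
      · exact (hcont.mul continuous_const).intervalIntegrable _ _
    rw [intervalIntegral.integral_mul_const] at h1
    rw [h1]
    simp

/-- joint continuity -/
theorem NN_cont {Y : ℂ → ℂ} (hY : DifferentiableOn ℂ Y (ball 0 1)) :
    ContinuousOn (fun p : ℂ × ℂ => NN Y p.1 p.2) (ball 0 1 ×ˢ ball 0 1) := by
  have hY' : ContinuousOn (deriv Y) (ball 0 1) := (hY.deriv isOpen_ball).continuousOn
  have h1 : ContinuousOn (fun p : ℂ × ℂ => ∫ t in (0 : ℝ)..1,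
      deriv Y (p.1 + (cl t : ℂ) * (p.2 - p.1))) (ball 0 1 ×ˢ ball 0 1) := by
    rw [continuousOn_iff_continuous_domRestrict]
    have h2 : Continuous (Function.uncurry fun (p : ↥(ball (0 : ℂ) 1 ×ˢ ball (0 : ℂ) 1)) (t : ℝ) =>
        deriv Y (p.1.1 + (cl t : ℂ) * (p.1.2 - p.1.1))) := by
      apply hY'.comp_continuous
      · have c1 : Continuous fun q : ↥(ball (0 : ℂ) 1 ×ˢ ball (0 : ℂ) 1) × ℝ => q.1.1.1 :=
          continuous_fst.comp (continuous_subtype_val.comp continuous_fst)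
        have c2 : Continuous fun q : ↥(ball (0 : ℂ) 1 ×ˢ ball (0 : ℂ) 1) × ℝ => q.1.1.2 :=
          continuous_snd.comp (continuous_subtype_val.comp continuous_fst)
        have c3 : Continuous fun q : ↥(ball (0 : ℂ) 1 ×ˢ ball (0 : ℂ) 1) × ℝ => (cl q.2 : ℂ) :=
          Complex.continuous_ofReal.comp (continuous_cl.comp continuous_snd)
        exact c1.add (c3.mul (c2.sub c1))
      · intro q
        exact seg_mem q.1.2.1 q.1.2.2 (cl_mem q.2)
    exact intervalIntegral.continuous_parametric_intervalIntegral_of_continuous' h2 _ _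
  have h3 : ContinuousOn (fun p : ℂ × ℂ => Y p.2 - p.2 * ∫ t in (0 : ℝ)..1,
      deriv Y (p.1 + (cl t : ℂ) * (p.2 - p.1))) (ball 0 1 ×ˢ ball 0 1) := by
    apply ContinuousOn.sub
    · exact hY.continuousOn.comp continuousOn_snd (fun p hp => hp.2)
    · exact continuousOn_snd.mul h1
  refine h3.congr fun p hp => ?_
  simp only [NN]
  rw [dslope_eq hY hp.1 hp.2]

/-- the two variable logarithm -/
theorem exists_log {Y H : ℂ → ℂ} (S : Sg Y H) : ∃ f : ℂ × ℂ → ℂ,
    ContinuousOn f (ball 0 1 ×ˢ ball 0 1) ∧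
    (∀ ζ ∈ ball (0 : ℂ) 1, ∀ z ∈ ball (0 : ℂ) 1, Complex.exp (f (ζ, z)) = NN Y ζ z) ∧
    (∀ ζ ∈ ball (0 : ℂ) 1, f (ζ, 0) = 0) := by
  have hne : (ball (0 : ℂ) 1 ×ˢ ball (0 : ℂ) 1).Nonempty := ⟨(0, 0), by simp⟩
  have hconv : Convex ℝ (ball (0 : ℂ) 1 ×ˢ ball (0 : ℂ) 1) :=
    (convex_ball _ _).prod (convex_ball _ _)
  have hcon : ContractibleSpace ↥(ball (0 : ℂ) 1 ×ˢ ball (0 : ℂ) 1) := hconv.contractibleSpace hne
  have hsc : IsSimplyConnected (ball (0 : ℂ) 1 ×ˢ ball (0 : ℂ) 1) := by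
    unfold IsSimplyConnected
    infer_instance
  obtain ⟨f, hf, hfe⟩ := Complex.exists_continuousOn_eqOn_exp_comp hsc
    (isOpen_ball.prod isOpen_ball) (NN_cont S.G.diff) (by
      rintro ⟨p, hp, h0⟩
      exact NN_ne S hp.1 hp.2 h0)
  have h00 : (0 : ℂ) ∈ ball (0 : ℂ) 1 := mem_ball_self one_pos
  have hN0 : ∀ ζ : ℂ, NN Y ζ 0 = 1 := by
    intro ζ
    unfold NN
    rw [zero_mul, sub_zero, S.G.one]
  refine ⟨fun p => f p - f (0, 0), hf.sub continuousOn_const, ?_, ?_⟩
  · intro ζ hζ z hz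
    have h1 := hfe (x := (ζ, z)) ⟨hζ, hz⟩
    have h2 := hfe (x := ((0 : ℂ), (0 : ℂ))) ⟨h00, h00⟩
    simp only [Function.comp_apply, hN0] at h1 h2
    show Complex.exp (f (ζ, z) - f (0, 0)) = NN Y ζ z
    rw [Complex.exp_sub, h1, h2, div_one]
  · intro ζ hζ
    have h3 : f (ζ, 0) = (fun _ : ℂ => f (0, 0)) ζ := by
      apply exp_unique (convex_ball (0 : ℂ) 1).isPreconnected (f := fun ζ => f (ζ, 0))
        (g := fun _ => f (0, 0)) _ continuousOn_const _ h00 rfl hζ
      · apply hf.comp (by fun_prop)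
        intro w hw
        exact ⟨hw, h00⟩
      · intro w hw
        have h1 := hfe (x := (w, (0 : ℂ))) ⟨hw, h00⟩
        have h2 := hfe (x := ((0 : ℂ), (0 : ℂ))) ⟨h00, h00⟩
        simp only [Function.comp_apply, hN0] at h1 h2
        rw [h1, h2]
    show f (ζ, 0) - f (0, 0) = 0
    rw [h3, sub_self]

/-- a continuous logarithm of a differentiable function is differentiable -/
theorem log_diff {f N : ℂ → ℂ} {U : Set ℂ} (hU : IsOpen U) (hf : ContinuousOn f U)
    (hN : DifferentiableOn ℂ N U) (h : ∀ z ∈ U, Complex.exp (f z) = N z) :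
    DifferentiableOn ℂ f U := by
  intro z₀ hz₀
  have hz₀n := hU.mem_nhds hz₀
  have hfc : ContinuousAt f z₀ := hf.continuousAt hz₀n
  have hNd : DifferentiableAt ℂ N z₀ := hN.differentiableAt hz₀n
  have hN0 : N z₀ ≠ 0 := by rw [← h z₀ hz₀]; exact Complex.exp_ne_zero _
  have h1 : DifferentiableAt ℂ (fun z => f z₀ + Complex.log (N z / N z₀)) z₀ := by
    apply DifferentiableAt.const_add
    apply DifferentiableAt.clog
    · exact hNd.div_const _
    · rw [div_self hN0]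
      exact Complex.one_mem_slitPlane
  refine (h1.congr_of_eventuallyEq ?_).differentiableWithinAt
  have hc : ∀ᶠ z in 𝓝 z₀, ‖f z - f z₀‖ < 1 := by
    have := hfc.tendsto
    rw [tendsto_iff_norm_sub_tendsto_zero] at this
    exact this.eventually_lt_const one_pos
  filter_upwards [hc, hz₀n] with z hz hzU
  have h2 : N z / N z₀ = Complex.exp (f z - f z₀) := by
    rw [Complex.exp_sub, h z hzU, h z₀ hz₀]
  have h3 := abs_le.1 ((Complex.abs_im_le_norm (f z - f z₀)).trans hz.le)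
  have h4 := Real.pi_gt_three
  rw [h2, Complex.log_exp (by linarith) (by linarith)]
  ring

end Pool.Agent.W677.Mar
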