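import Pool.Agent.W677.MarG2

set_option autoImplicit false

/-! # Goluzin's inequality `|log ψ'(z)| ≤ -log (1 - |z|^{-2})` -/

namespace Pool.Agent.W677.Mar

open Complex Metric Set Filter Topology MeasureTheory
open Pool.Agent.H33R3.Bom (J)

/-- negative Laurent coefficients of `log (1 - ζ / z)` -/
noncomputable def de (ζ : ℂ) (k : ℕ) : ℂ := -(ζ ^ k / (k : ℂ))

theorem de_zero (ζ : ℂ) : de ζ 0 = 0 := by simp [de]

theorem de_norm (ζ : ℂ) (k : ℕ) : ‖de ζ k‖ = ‖ζ‖ ^ k / k := by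
  simp [de]

theorem de_norm_le (ζ : ℂ) (k : ℕ) : ‖de ζ k‖ ≤ 1 * ‖ζ‖ ^ k := by
  rw [de_norm, one_mul]
  rcases Nat.eq_zero_or_pos k with h | h
  · simp [h]
  · exact div_le_self (by positivity) (by exact_mod_cast h)

theorem de_hasSum {ζ w : ℂ} (h : ‖ζ‖ < ‖w‖) :
    HasSum (fun k : ℕ => de ζ k * (w⁻¹) ^ k) (Complex.log (1 - ζ * w⁻¹)) := by
  have hw : 0 < ‖w‖ := (norm_nonneg _).trans_lt h
  have hx : ‖ζ * w⁻¹‖ < 1 := by
    rw [norm_mul, norm_inv, ← div_eq_mul_inv, div_lt_one hw]; exact h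
  have h1 := (Complex.hasSum_taylorSeries_neg_log hx).neg
  rw [neg_neg] at h1
  refine h1.congr_fun ?_ |> fun h => h
  intro k
  rw [de, mul_pow]
  ring

/-- the real logarithmic series -/
theorem hasSum_log {x : ℝ} (h0 : 0 ≤ x) (h1 : x < 1) :
    HasSum (fun k : ℕ => x ^ k / k) (-Real.log (1 - x)) := by
  have h := Real.hasSum_pow_div_log_of_abs_lt_one (x := x) (by rw [abs_of_nonneg h0]; exact h1)
  have h2 := (hasSum_nat_add_iff (f := fun k : ℕ => x ^ k / (k : ℝ)) (g := -Real.log (1 - x)) 1).1 (by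
    refine h.congr_fun ?_ |> fun h => h
    intro k
    push_cast
    rfl)
  simpa using h2

section

variable {Y H : ℂ → ℂ}

/-- derivative of the logarithm on the annulus -/
theorem phi_deriv (S : Sg Y H) {ζ : ℂ} (hζ0 : ζ ≠ 0) (hζ : ζ ∈ ball (0 : ℂ) 1) {A : ℂ → ℂ}
    (hA : DifferentiableOn ℂ A (ball 0 1)) (hAe : ∀ z ∈ ball (0 : ℂ) 1, Complex.exp (A z) = NN Y ζ z)
    {z : ℂ} (hz1 : ‖ζ‖ < ‖z‖) (hz : ‖z‖ < 1) :
    HasDerivAt (fun z => A z + ∑' k : ℕ, de ζ k * (z⁻¹) ^ k)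
      (-(Y ζ / ζ - Y z / z)⁻¹ * deriv (fun z => Y z / z) z) z := by
  have hz0 : z ≠ 0 := by
    rw [← norm_pos_iff]
    exact (norm_nonneg _).trans_lt hz1
  have hzb : z ∈ ball (0 : ℂ) 1 := by rw [mem_ball_zero_iff]; exact hz
  have hne : Y ζ / ζ - Y z / z ≠ 0 := by
    intro h
    have := S.G.inj ⟨hζ, hζ0⟩ ⟨hzb, hz0⟩ (sub_eq_zero.1 h)
    rw [this] at hz1
    exact lt_irrefl _ hz1
  have hop : {w : ℂ | ‖ζ‖ < ‖w‖} ∈ 𝓝 z :=
    (isOpen_lt continuous_const continuous_norm).mem_nhds hz1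
  -- the function with the closed form logarithm
  have hlogd : DifferentiableAt ℂ (fun w : ℂ => Complex.log (1 - ζ * w⁻¹)) z := by
    apply DifferentiableAt.clog
    · exact ((differentiableAt_inv hz0).const_mul ζ).const_sub 1
    · have hx : ‖ζ * z⁻¹‖ < 1 := by
        rw [norm_mul, norm_inv, ← div_eq_mul_inv, div_lt_one (norm_pos_iff.2 hz0)]
        exact hz1
      have := Complex.mem_slitPlane_of_norm_lt_one (z := -(ζ * z⁻¹)) (by rwa [norm_neg])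
      rwa [← sub_eq_add_neg] at this
  have hΦd : DifferentiableAt ℂ (fun w => A w + Complex.log (1 - ζ * w⁻¹)) z :=
    (hA.differentiableAt (isOpen_ball.mem_nhds hzb)).add hlogd
  have hev : (fun w => A w + ∑' k : ℕ, de ζ k * (w⁻¹) ^ k) =ᶠ[𝓝 z]
      fun w => A w + Complex.log (1 - ζ * w⁻¹) := by
    filter_upwards [hop] with w hw
    rw [(de_hasSum hw).tsum_eq]
  have hexp : (fun w => Complex.exp (A w + Complex.log (1 - ζ * w⁻¹))) =ᶠ[𝓝 z]
      fun w => ζ * (Y ζ / ζ - Y w / w) := by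
    filter_upwards [hop, isOpen_ball.mem_nhds hzb] with w hw hwb
    have hw0 : w ≠ 0 := by
      rw [← norm_pos_iff]
      exact (norm_nonneg _).trans_lt hw
    have hwζ : w - ζ ≠ 0 := by
      intro h
      rw [sub_eq_zero] at h
      rw [h] at hw
      exact lt_irrefl _ hw
    have h1 : (1 : ℂ) - ζ * w⁻¹ ≠ 0 := by
      intro h
      apply hwζ
      field_simp at h
      simpa using h
    rw [Complex.exp_add, Complex.exp_log h1, hAe w hwb]
    have h2 := NN_mul Y ζ w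
    have h3 : NN Y ζ w = (w * Y ζ - ζ * Y w) / (w - ζ) := by
      rw [eq_div_iff hwζ]
      exact h2
    rw [h3]
    field_simp
  have hGd : HasDerivAt (fun z => Y z / z) (deriv (fun z => Y z / z) z) z := by
    apply DifferentiableAt.hasDerivAt
    exact (S.G.diff.differentiableAt (isOpen_ball.mem_nhds hzb)).div differentiableAt_id hz0
  have h1 : HasDerivAt (fun w => ζ * (Y ζ / ζ - Y w / w)) (ζ * -deriv (fun z => Y z / z) z) z :=
    (hGd.const_sub _).const_mul ζ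
  have h2 := (hΦd.hasDerivAt).cexp
  have h3 := h1.congr_of_eventuallyEq hexp
  have h4 := h2.unique h3
  have h5 : Complex.exp (A z + Complex.log (1 - ζ * z⁻¹)) = ζ * (Y ζ / ζ - Y z / z) :=
    hexp.self_of_nhds
  rw [h5] at h4
  refine (hΦd.hasDerivAt.congr_of_eventuallyEq hev).congr_deriv ?_
  rw [neg_mul, ← mul_neg, eq_comm, inv_mul_eq_div, div_eq_iff hne]
  have h6 : ζ * (-deriv (fun z => Y z / z) z) = ζ * ((Y ζ / ζ - Y z / z) *
      deriv (fun w => A w + Complex.log (1 - ζ * w⁻¹)) z) := by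
    rw [← h4]
    ring
  rw [mul_left_cancel₀ hζ0 h6]
  ring

/-- the area inequality for the logarithm -/
theorem area_log (S : Sg Y H) {ζ : ℂ} (hζ0 : ζ ≠ 0) (hζ : ζ ∈ ball (0 : ℂ) 1) {A : ℂ → ℂ}
    (hA : DifferentiableOn ℂ A (ball 0 1)) (hAe : ∀ z ∈ ball (0 : ℂ) 1, Complex.exp (A z) = NN Y ζ z)
    {c : ℕ → ℂ} (hc : ∀ z ∈ ball (0 : ℂ) 1, HasSum (fun k : ℕ => c k * z ^ k) (A z)) (N : ℕ) :
    ∑ k ∈ Finset.range N, (k : ℝ) * ‖c k‖ ^ 2 ≤ -Real.log (1 - ‖ζ‖ ^ 2) := by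
  have hn : ‖ζ‖ < 1 := mem_ball_zero_iff.1 hζ
  have hp : 0 < ‖ζ‖ := norm_pos_iff.2 hζ0
  have key : ∀ R : ℝ, ‖ζ‖ < R → R < 1 →
      ∑ k ∈ Finset.range N, (k : ℝ) * ‖c k‖ ^ 2 * R ^ (2 * k) ≤
      -Real.log (1 - (‖ζ‖ / R) ^ 2) := by
    intro R hR hR1
    have hR0 : 0 < R := hp.trans hR
    obtain ⟨g1, g2, g3⟩ := Pool.Agent.H643R3.BomC4.taskC4 R ‖ζ‖ 1 c (de ζ) A hp hR hR1
      (de_zero ζ) hc (de_norm_le ζ)
    have g4 := t3 t1 Y S.G R hR0 hR1 (fun z => -(Y ζ / ζ - Y z / z)⁻¹)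
      (fun z => A z + ∑' k : ℕ, de ζ k * (z⁻¹) ^ k) (by
        intro δ hδ
        obtain ⟨q, hq⟩ := t2 Y S.G R hR1 ζ hζ0 hR δ hδ
        refine ⟨-q, fun z hz => ?_⟩
        rw [Polynomial.eval_neg, ← neg_sub', norm_neg]
        exact hq z hz) (by
        intro z hz
        exact phi_deriv S hζ0 hζ hA hAe (by rw [hz]; exact hR) (by rw [hz]; exact hR1))
    rw [g3] at g4
    have hpi : 0 < 2 * Real.pi := by positivity
    have g5 : ∑' k : ℕ, (k : ℝ) * ‖c k‖ ^ 2 * R ^ (2 * k) ≤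
        ∑' k : ℕ, (k : ℝ) * ‖de ζ k‖ ^ 2 * (R⁻¹) ^ (2 * k) := by
      by_contra hcon
      push Not at hcon
      have := mul_pos hpi (sub_pos.2 hcon)
      linarith
    have g6 : ∑' k : ℕ, (k : ℝ) * ‖de ζ k‖ ^ 2 * (R⁻¹) ^ (2 * k) =
        -Real.log (1 - (‖ζ‖ / R) ^ 2) := by
      have hx1 : (‖ζ‖ / R) ^ 2 < 1 := by
        apply pow_lt_one₀ (by positivity) _ two_ne_zero
        rw [div_lt_one hR0]
        exact hR
      refine HasSum.tsum_eq ((hasSum_log (by positivity) hx1).congr_fun ?_ |> fun h => h)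
      intro k
      rw [de_norm]
      rcases Nat.eq_zero_or_pos k with h | h
      · simp [h]
      · have hk : (k : ℝ) ≠ 0 := by positivity
        rw [div_pow, div_pow, div_pow, inv_pow, ← pow_mul, mul_comm 2 k]
        field_simp
        ring
    rw [g6] at g5
    refine le_trans ?_ g5
    exact g1.sum_le_tsum _ (fun k _ => by positivity)
  have hL : Tendsto (fun R : ℝ => ∑ k ∈ Finset.range N, (k : ℝ) * ‖c k‖ ^ 2 * R ^ (2 * k))
      (𝓝[<] 1) (𝓝 (∑ k ∈ Finset.range N, (k : ℝ) * ‖c k‖ ^ 2)) := by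
    have hcont : Continuous (fun R : ℝ => ∑ k ∈ Finset.range N, (k : ℝ) * ‖c k‖ ^ 2 * R ^ (2 * k)) := by
      fun_prop
    have := (hcont.tendsto 1).mono_left (nhdsWithin_le_nhds (s := Iio 1))
    simpa using this
  have hRt : Tendsto (fun R : ℝ => -Real.log (1 - (‖ζ‖ / R) ^ 2)) (𝓝[<] 1)
      (𝓝 (-Real.log (1 - ‖ζ‖ ^ 2))) := by
    have hc1 : ContinuousAt (fun R : ℝ => -Real.log (1 - (‖ζ‖ / R) ^ 2)) 1 := by
      apply ContinuousAt.neg
      apply ContinuousAt.log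
      · apply ContinuousAt.sub continuousAt_const
        apply ContinuousAt.pow
        exact continuousAt_const.div continuousAt_id one_ne_zero
      · have : ‖ζ‖ ^ 2 < 1 := pow_lt_one₀ hp.le hn two_ne_zero
        rw [div_one]
        linarith
    have := hc1.tendsto.mono_left (nhdsWithin_le_nhds (s := Iio 1))
    simpa using this
  refine le_of_tendsto_of_tendsto hL hRt ?_
  have hIoo : Ioo ‖ζ‖ 1 ∈ 𝓝[<] (1 : ℝ) := Ioo_mem_nhdsLT hn
  filter_upwards [hIoo] with R hR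
  exact key R hR.1 hR.2

/-- Cauchy-Schwarz -/
theorem log_bound (S : Sg Y H) {ζ : ℂ} (hζ0 : ζ ≠ 0) (hζ : ζ ∈ ball (0 : ℂ) 1) {A : ℂ → ℂ}
    (hA : DifferentiableOn ℂ A (ball 0 1)) (hA0 : A 0 = 0)
    (hAe : ∀ z ∈ ball (0 : ℂ) 1, Complex.exp (A z) = NN Y ζ z) :
    ‖A ζ‖ ≤ -Real.log (1 - ‖ζ‖ ^ 2) := by
  have hn : ‖ζ‖ < 1 := mem_ball_zero_iff.1 hζ
  have hp : 0 < ‖ζ‖ := norm_pos_iff.2 hζ0
  have hx1 : ‖ζ‖ ^ 2 < 1 := pow_lt_one₀ hp.le hn two_ne_zero
  obtain ⟨L, hL⟩ : ∃ L, L = -Real.log (1 - ‖ζ‖ ^ 2) := ⟨_, rfl⟩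
  have hL0 : 0 ≤ L := by
    rw [hL]
    have := Real.log_nonpos (by linarith : 0 ≤ 1 - ‖ζ‖ ^ 2) (by nlinarith)
    linarith
  set c : ℕ → ℂ := fun n => (n.factorial : ℂ)⁻¹ * iteratedDeriv n A 0 with hcdef
  have hc : ∀ z ∈ ball (0:ℂ) 1, HasSum (fun j => c j * z ^ j) (A z) := by
    intro z hz
    have h1 := Complex.hasSum_taylorSeries_on_ball hA hz
    refine h1.congr_fun ?_ |> fun h => h
    intro n
    simp only [hcdef, smul_eq_mul, sub_zero]
    ring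
  have hc0 : c 0 = 0 := by
    simp [hcdef, hA0]
  rw [← hL]
  have hpart : ∀ N : ℕ, ‖∑ k ∈ Finset.range N, c k * ζ ^ k‖ ≤ L := by
    intro N
    have h1 : ‖∑ k ∈ Finset.range N, c k * ζ ^ k‖ ≤
        ∑ k ∈ Finset.range N, (Real.sqrt k * ‖c k‖) * (‖ζ‖ ^ k / Real.sqrt k) := by
      refine (norm_sum_le _ _).trans (Finset.sum_le_sum fun k _ => ?_)
      rw [norm_mul, norm_pow]
      rcases Nat.eq_zero_or_pos k with h | h
      · rw [h, hc0]
        simp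
      · have hk : Real.sqrt k ≠ 0 := by
          have : (0 : ℝ) < k := by exact_mod_cast h
          positivity
        apply le_of_eq
        field_simp
    have h2 := Finset.sum_mul_sq_le_sq_mul_sq (Finset.range N) (fun k : ℕ => Real.sqrt k * ‖c k‖)
      (fun k : ℕ => ‖ζ‖ ^ k / Real.sqrt k)
    have h3 : ∑ k ∈ Finset.range N, (Real.sqrt (k : ℝ) * ‖c k‖) ^ 2 ≤ L := by
      have := area_log S hζ0 hζ hA hAe hc N
      rw [← hL] at this
      refine le_trans (le_of_eq (Finset.sum_congr rfl fun k _ => ?_)) this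
      rw [mul_pow, Real.sq_sqrt (Nat.cast_nonneg k)]
    have h4 : ∑ k ∈ Finset.range N, (‖ζ‖ ^ k / Real.sqrt (k : ℝ)) ^ 2 ≤ L := by
      have h5 := hasSum_log (by positivity) hx1
      rw [← hL] at h5
      refine le_trans (le_of_eq (Finset.sum_congr rfl fun k _ => ?_)) (sum_le_hasSum
        (Finset.range N) (fun k _ => by positivity) h5)
      rw [div_pow, Real.sq_sqrt (Nat.cast_nonneg k), ← pow_mul, ← pow_mul, mul_comm]
    have h5 : (∑ k ∈ Finset.range N, (Real.sqrt k * ‖c k‖) * (‖ζ‖ ^ k / Real.sqrt k)) ^ 2 ≤ L ^ 2 := by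
      refine h2.trans ?_
      rw [sq L]
      exact mul_le_mul h3 h4 (Finset.sum_nonneg fun k _ => sq_nonneg _) hL0
    have h6 := abs_le_of_sq_le_sq h5 hL0
    exact h1.trans ((le_abs_self _).trans h6)
  exact le_of_tendsto ((hc ζ hζ).tendsto_sum_nat.norm) (Eventually.of_forall hpart)

/-- **Goluzin's inequality** in disc coordinates -/
theorem goluzin (S : Sg Y H) {ζ : ℂ} (hζ : ζ ∈ ball (0 : ℂ) 1) :
    ‖H ζ‖ ≤ -Real.log (1 - ‖ζ‖ ^ 2) := by
  by_cases hζ0 : ζ = 0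
  · rw [hζ0, S.H0]
    simp
  obtain ⟨f, hf, hfe, hf0⟩ := exists_log S
  have h00 : (0 : ℂ) ∈ ball (0 : ℂ) 1 := mem_ball_self one_pos
  have hdiag : H ζ = f (ζ, ζ) := by
    apply exp_unique (convex_ball (0 : ℂ) 1).isPreconnected (f := H) (g := fun w => f (w, w))
      S.dH.continuousOn _ _ h00 _ hζ
    · apply hf.comp (by fun_prop)
      intro w hw
      exact ⟨hw, hw⟩
    · intro w hw
      rw [hfe w hw w hw, S.eq w hw]
      unfold NN
      rw [dslope_same]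
    · show H 0 = f (0, 0)
      rw [S.H0, hf0 0 h00]
  have hAc : ContinuousOn (fun z => f (ζ, z)) (ball 0 1) := by
    apply hf.comp (by fun_prop)
    intro w hw
    exact ⟨hζ, hw⟩
  have hAd : DifferentiableOn ℂ (fun z => f (ζ, z)) (ball 0 1) :=
    log_diff isOpen_ball hAc (NN_diff S.G.diff hζ) (fun z hz => hfe ζ hζ z hz)
  rw [hdiag]
  exact log_bound S hζ0 hζ hAd (hf0 ζ hζ) (fun z hz => hfe ζ hζ z hz)

end

end Pool.Agent.W677.Mar
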