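import Pool.Agent.W677.MarB
import Pool.Agent.Helper240.ZFM.B1

set_option autoImplicit false

/-! # The sharp bound of the logarithmic derivative in the class `Σ` -/

namespace Pool.Agent.W677.Mar

open Complex Metric Set Filter Topology

section

variable {Y H : ℂ → ℂ}

theorem Y_hasDeriv (S : Sg Y H) {w : ℂ} (hw : w ∈ ball (0 : ℂ) 1) :
    HasDerivAt Y (deriv Y w) w :=
  (S.G.diff.differentiableAt (isOpen_ball.mem_nhds hw)).hasDerivAt

theorem H_hasDeriv (S : Sg Y H) {w : ℂ} (hw : w ∈ ball (0 : ℂ) 1) :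
    HasDerivAt H (deriv H w) w :=
  (S.dH.differentiableAt (isOpen_ball.mem_nhds hw)).hasDerivAt

theorem G_inj (S : Sg Y H) {z w : ℂ} (hz : z ∈ ball (0 : ℂ) 1) (hw : w ∈ ball (0 : ℂ) 1)
    (hz0 : z ≠ 0) (h : Y w = w * (Y z / z)) : w = z := by
  by_cases hw0 : w = 0
  · rw [hw0, zero_mul, S.G.one] at h
    exact absurd h one_ne_zero
  · apply S.G.inj ⟨hw, hw0⟩ ⟨hz, hz0⟩
    show Y w / w = Y z / z
    rw [h]
    field_simp

/-- Bieberbach's inequality for a Moebius transform of the map, normalised on the disc of radius `ρ` -/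
theorem step1 (S : Sg Y H) {v w₁ : ℂ} {ρ : ℝ} (hv0 : v ≠ 0) (hv : ‖v‖ < ρ) (hρ : ρ < 1)
    (hw₁ : ‖w₁‖ = ρ) :
    ‖((ρ ^ 2 - ‖v‖ ^ 2 : ℝ) : ℂ) * (deriv H v - 2 / v - 2 * Complex.exp (H v) /
      (v ^ 2 * (Y w₁ / w₁ - Y v / v))) - 2 * (starRingEnd ℂ) v‖ ≤ 4 * ρ := by
  have hρ0 : 0 < ρ := (norm_nonneg v).trans_lt hv
  have hρc : (ρ : ℂ) ≠ 0 := by exact_mod_cast hρ0.ne'
  have hvm : v ∈ ball (0 : ℂ) 1 := by rw [mem_ball_zero_iff]; linarith
  have hwm : w₁ ∈ ball (0 : ℂ) 1 := by rw [mem_ball_zero_iff]; linarith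
  have hw0 : w₁ ≠ 0 := by rw [← norm_pos_iff, hw₁]; exact hρ0
  obtain ⟨c, hc⟩ : ∃ c, c = Y v / v := ⟨_, rfl⟩
  obtain ⟨c₁, hc₁⟩ : ∃ c₁, c₁ = Y w₁ / w₁ := ⟨_, rfl⟩
  have hcc : c₁ - c ≠ 0 := by
    intro h
    have h1 : Y w₁ = w₁ * (Y v / v) := by
      have : Y w₁ / w₁ = Y v / v := by rw [← hc, ← hc₁]; exact sub_eq_zero.1 h
      rw [← this]
      field_simp
    have h2 := G_inj S hvm hwm hv0 h1
    rw [h2] at hw₁
    linarith
  rw [← hc, ← hc₁]
  -- the denominator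
  have hD : ∀ w : ℂ, ‖w‖ < ρ → w * c₁ - Y w ≠ 0 := by
    intro w hw h
    have h1 : Y w = w * (Y w₁ / w₁) := by rw [← hc₁]; linear_combination -h
    have h2 := G_inj S hwm (by rw [mem_ball_zero_iff]; linarith) hw0 h1
    rw [h2, hw₁] at hw
    exact lt_irrefl _ hw
  have hmem : ∀ x ∈ ball (0 : ℂ) 1, ‖(ρ : ℂ) * x‖ < ρ := by
    intro x hx
    rw [mem_ball_zero_iff] at hx
    rw [norm_mul, Complex.norm_real, Real.norm_of_nonneg hρ0.le]
    nlinarith
  have hmem1 : ∀ w : ℂ, ‖w‖ < ρ → w ∈ ball (0 : ℂ) 1 := by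
    intro w hw
    rw [mem_ball_zero_iff]
    linarith
  set ψ : ℂ → ℂ := fun x => (Y (ρ * x) - ρ * x * c) / (ρ * x * c₁ - Y (ρ * x)) with hψ
  have hder : ∀ x ∈ ball (0 : ℂ) 1, HasDerivAt ψ
      (ρ * (-((c₁ - c) * Complex.exp (H (ρ * x))) / (ρ * x * c₁ - Y (ρ * x)) ^ 2)) x := by
    intro x hx
    have hm := hmem x hx
    have h1 : HasDerivAt (fun x : ℂ => (ρ : ℂ) * x) (ρ : ℂ) x := by
      simpa using (hasDerivAt_id x).const_mul (ρ : ℂ)
    have h2 : HasDerivAt (fun x => Y (ρ * x)) (deriv Y (ρ * x) * ρ) x :=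
      (Y_hasDeriv S (hmem1 _ hm)).comp x h1
    have h3 := (h2.sub (h1.mul_const c)).div ((h1.mul_const c₁).sub h2) (hD _ hm)
    refine h3.congr_deriv ?_
    have h4 := hD _ hm
    simp only [Pi.sub_apply]
    rw [S.eq _ (hmem1 _ hm)]
    field_simp
    ring
  have hψd : DifferentiableOn ℂ ψ (ball 0 1) := fun x hx =>
    (hder x hx).differentiableAt.differentiableWithinAt
  have hψi : InjOn ψ (ball 0 1) := by
    intro x hx y hy h
    have mx := hmem x hx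
    have my := hmem y hy
    have h1 := hD _ mx
    have h2 := hD _ my
    simp only [hψ] at h
    rw [div_eq_div_iff h1 h2] at h
    have h3 : (Y (ρ * x) * (ρ * y) - Y (ρ * y) * (ρ * x)) * (c₁ - c) = 0 := by linear_combination h
    have h4 : Y (ρ * x) * (ρ * y) - Y (ρ * y) * (ρ * x) = 0 := by
      rcases mul_eq_zero.1 h3 with h | h
      · exact h
      · exact absurd h hcc
    by_cases hx0 : x = 0
    · rw [hx0, mul_zero, S.G.one, mul_zero, one_mul, sub_zero] at h4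
      rcases mul_eq_zero.1 h4 with h | h
      · exact absurd h hρc
      · rw [hx0, h]
    · have hx0' : (ρ : ℂ) * x ≠ 0 := mul_ne_zero hρc hx0
      have h5 : Y (ρ * y) = ρ * y * (Y (ρ * x) / (ρ * x)) := by
        field_simp
        apply mul_left_cancel₀ hρc
        linear_combination -h4
      have h6 := G_inj S (hmem1 _ mx) (hmem1 _ my) hx0' h5
      exact (mul_left_cancel₀ hρc h6).symm
  -- apply the theorem
  obtain ⟨ζ, hζ⟩ : ∃ ζ : ℂ, ζ = v / ρ := ⟨_, rfl⟩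
  have hρζ : (ρ : ℂ) * ζ = v := by rw [hζ]; field_simp
  have hζn : ‖ζ‖ = ‖v‖ / ρ := by
    rw [hζ, norm_div, Complex.norm_real, Real.norm_of_nonneg hρ0.le]
  have hζm : ζ ∈ ball (0 : ℂ) 1 := by
    rw [mem_ball_zero_iff, hζn, div_lt_one hρ0]
    exact hv
  have key := ZFM.koebe_second hψd hψi hζm
  have hD0 := hD v hv
  obtain ⟨e, he⟩ : ∃ e, e = Complex.exp (H v) := ⟨_, rfl⟩
  have he0 : e ≠ 0 := he ▸ Complex.exp_ne_zero _
  have hYv : deriv Y v = (Y v - e) / v := by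
    rw [he, S.eq v hvm]
    field_simp
    ring
  have hYc : Y v = v * c := by rw [hc]; field_simp
  have hd1 : deriv ψ ζ = ρ * (-((c₁ - c) * e) / (v * (c₁ - c)) ^ 2) := by
    rw [(hder ζ hζm).deriv, hρζ, ← he, hYc]
    congr 3
    ring
  have hd2 : deriv (deriv ψ) ζ = deriv ψ ζ * (ρ * (deriv H v - 2 / v - 2 * e /
      (v ^ 2 * (c₁ - c)))) := by
    have e1 : deriv ψ =ᶠ[𝓝 ζ] fun x => ρ * (-((c₁ - c) * Complex.exp (H (ρ * x))) /
        (ρ * x * c₁ - Y (ρ * x)) ^ 2) := by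
      filter_upwards [isOpen_ball.mem_nhds hζm] with x hx using (hder x hx).deriv
    rw [e1.deriv_eq]
    have h1 : HasDerivAt (fun x : ℂ => (ρ : ℂ) * x) (ρ : ℂ) ζ := by
      simpa using (hasDerivAt_id ζ).const_mul (ρ : ℂ)
    have hvζ : (ρ : ℂ) * ζ ∈ ball (0 : ℂ) 1 := by rw [hρζ]; exact hvm
    have h2 : HasDerivAt (fun x => Y (ρ * x)) (deriv Y (ρ * ζ) * ρ) ζ :=
      (Y_hasDeriv S hvζ).comp ζ h1
    have h3 : HasDerivAt (fun x => H (ρ * x)) (deriv H (ρ * ζ) * ρ) ζ :=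
      (H_hasDeriv S hvζ).comp ζ h1
    have hD1 : (ρ : ℂ) * ζ * c₁ - Y (ρ * ζ) ≠ 0 := by rw [hρζ]; exact hD0
    have h4 := (((h3.cexp.const_mul (c₁ - c)).neg).div (((h1.mul_const c₁).sub h2).pow 2)
      (pow_ne_zero 2 hD1)).const_mul (ρ : ℂ)
    refine h4.deriv.trans ?_
    simp only [Pi.sub_apply, Pi.neg_apply, Pi.pow_apply]
    rw [hρζ, hYv, ← he, hd1, hYc]
    have e2 : v * c₁ - v * c = v * (c₁ - c) := by ring
    rw [e2]
    field_simp
    push_cast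
    ring
  rw [hd2] at key
  have hψ0 : deriv ψ ζ ≠ 0 := by
    rw [hd1]
    apply mul_ne_zero hρc
    apply div_ne_zero (neg_ne_zero.2 (mul_ne_zero hcc he0))
    exact pow_ne_zero 2 (mul_ne_zero hv0 hcc)
  have e3 : deriv ψ ζ * (ρ * (deriv H v - 2 / v - 2 * e / (v ^ 2 * (c₁ - c)))) *
      ((1 - ‖ζ‖ ^ 2 : ℝ) : ℂ) - 2 * (starRingEnd ℂ) ζ * deriv ψ ζ =
      deriv ψ ζ * ((1 / ρ : ℂ) * (((ρ ^ 2 - ‖v‖ ^ 2 : ℝ) : ℂ) * (deriv H v - 2 / v - 2 * e /
      (v ^ 2 * (c₁ - c))) - 2 * (starRingEnd ℂ) v)) := by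
    have e4 : ((1 - ‖ζ‖ ^ 2 : ℝ) : ℂ) = ((ρ ^ 2 - ‖v‖ ^ 2 : ℝ) : ℂ) / ρ ^ 2 := by
      rw [hζn]
      push_cast
      field_simp
    have e5 : (starRingEnd ℂ) ζ = (starRingEnd ℂ) v / ρ := by
      rw [hζ, map_div₀, Complex.conj_ofReal]
    rw [e4, e5]
    field_simp
  rw [e3, norm_mul, norm_mul] at key
  have hψp := norm_pos_iff.2 hψ0
  have h5 : ‖deriv ψ ζ‖ * (‖(1 / ρ : ℂ)‖ * ‖((ρ ^ 2 - ‖v‖ ^ 2 : ℝ) : ℂ) * (deriv H v - 2 / v - 2 * e /
      (v ^ 2 * (c₁ - c))) - 2 * (starRingEnd ℂ) v‖) ≤ ‖deriv ψ ζ‖ * 4 := by linarith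
  have h6 := le_of_mul_le_mul_left h5 hψp
  have h7 : ‖(1 / ρ : ℂ)‖ = 1 / ρ := by
    rw [norm_div, norm_one, Complex.norm_real, Real.norm_of_nonneg hρ0.le]
  rw [h7, one_div, inv_mul_le_iff₀ hρ0] at h6
  rw [he] at h6
  linarith

/-- the estimate at level `ρ`, after the maximum principle -/
theorem step2 (S : Sg Y H) {v : ℂ} {ρ : ℝ} (hv0 : v ≠ 0) (hv : ‖v‖ < ρ) (hρ : ρ < 1) :
    ‖((ρ ^ 2 - ‖v‖ ^ 2 : ℝ) : ℂ) * (deriv H v / 2) - (starRingEnd ℂ) v‖ ≤ 2 * ρ := by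
  have hρ0 : 0 < ρ := (norm_nonneg v).trans_lt hv
  have hρc : (ρ : ℂ) ≠ 0 := by exact_mod_cast hρ0.ne'
  have hvm : v ∈ ball (0 : ℂ) 1 := by rw [mem_ball_zero_iff]; linarith
  have hvn : 0 < ‖v‖ := norm_pos_iff.2 hv0
  obtain ⟨c, hc⟩ : ∃ c, c = Y v / v := ⟨_, rfl⟩
  have hYc : Y v = v * c := by rw [hc]; field_simp
  obtain ⟨κ, hκ⟩ : ∃ κ : ℂ, κ = ((ρ ^ 2 - ‖v‖ ^ 2 : ℝ) : ℂ) := ⟨_, rfl⟩
  obtain ⟨e, he⟩ : ∃ e, e = Complex.exp (H v) := ⟨_, rfl⟩
  have he0 : e ≠ 0 := he ▸ Complex.exp_ne_zero _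
  rw [← hκ]
  have hvv : (starRingEnd ℂ) v * v = (‖v‖ : ℂ) ^ 2 := Complex.conj_mul' v
  have hκv : κ = (ρ : ℂ) ^ 2 - (starRingEnd ℂ) v * v := by
    rw [hκ, hvv]
    push_cast
    ring
  -- the functions
  set Dv : ℂ → ℂ := fun w => Y w - w * c with hDv
  have hDd : DifferentiableOn ℂ Dv (ball 0 1) := S.G.diff.sub (differentiableOn_id.mul_const c)
  have hDv0 : Dv v = 0 := by simp only [hDv]; rw [hYc]; ring
  have hnv : ball (0 : ℂ) 1 ∈ 𝓝 v := isOpen_ball.mem_nhds hvm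
  set q : ℂ → ℂ := dslope Dv v with hq
  have hqd : DifferentiableOn ℂ q (ball 0 1) := (Complex.differentiableOn_dslope hnv).2 hDd
  have hqv : q v = -e / v := by
    have h1 : HasDerivAt Dv (deriv Y v - 1 * c) v := (Y_hasDeriv S hvm).sub ((hasDerivAt_id v).mul_const c)
    rw [hq, dslope_same, h1.deriv, he, S.eq v hvm, hYc]
    field_simp
    ring
  have hqw : ∀ w, (w - v) * q w = Dv w := by
    intro w
    have := sub_smul_dslope Dv v w
    rw [hDv0, sub_zero, smul_eq_mul] at this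
    exact this
  have hDne : ∀ w ∈ ball (0 : ℂ) 1, w ≠ v → Dv w ≠ 0 := by
    intro w hw hwv h
    apply hwv
    apply G_inj S hvm hw hv0
    rw [← hc]
    simp only [hDv] at h
    linear_combination h
  have hqne : ∀ w ∈ ball (0 : ℂ) 1, q w ≠ 0 := by
    intro w hw h
    by_cases hwv : w = v
    · rw [hwv, hqv] at h
      exact div_ne_zero (neg_ne_zero.2 he0) hv0 h
    · apply hDne w hw hwv
      rw [← hqw w, h, mul_zero]
  set N : ℂ → ℂ := fun w => -(κ * e * w) / (v ^ 2 * q w) - (ρ ^ 2 - (starRingEnd ℂ) v * w) with hN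
  have hNd : DifferentiableOn ℂ N (ball 0 1) := by
    apply DifferentiableOn.sub
    · apply DifferentiableOn.div
      · exact (differentiableOn_id.const_mul _).neg
      · exact hqd.const_mul _
      · intro w hw
        exact mul_ne_zero (pow_ne_zero 2 hv0) (hqne w hw)
    · exact (differentiableOn_const _).sub (differentiableOn_id.const_mul _)
  have hNv : N v = 0 := by
    simp only [hN]
    rw [hqv, hκv]
    field_simp
    ring
  set U : ℂ → ℂ := fun w => κ * (deriv H v / 2 - 1 / v) - (starRingEnd ℂ) v + dslope N v w with hU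
  have hUd : DifferentiableOn ℂ U (ball 0 1) :=
    ((Complex.differentiableOn_dslope hnv).2 hNd).const_add _
  have hdsl : ∀ w, w ≠ v → dslope N v w = N w / (w - v) := by
    intro w hw
    rw [dslope_of_ne N hw, slope_def_field, hNv, sub_zero]
  obtain ⟨Z, hZ⟩ : ∃ Z, Z = κ * (deriv H v / 2) - (starRingEnd ℂ) v := ⟨_, rfl⟩
  rw [← hZ]
  -- it is enough to bound the real parts
  have hmain : ∀ ω : ℂ, ‖ω‖ = 1 → (ω * Z).re ≤ 2 * ρ := by
    intro ω hω
    have hden : ∀ w ∈ closedBall (0 : ℂ) ρ, (ρ : ℂ) ^ 2 - (starRingEnd ℂ) v * w ≠ 0 := by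
      intro w hw h
      rw [mem_closedBall_zero_iff] at hw
      have h1 : (starRingEnd ℂ) v * w = (ρ : ℂ) ^ 2 := by linear_combination -h
      have h2 := congrArg norm h1
      rw [norm_mul, RCLike.norm_conj, norm_pow, Complex.norm_real, Real.norm_of_nonneg hρ0.le] at h2
      have h3 : ‖v‖ * ‖w‖ ≤ ‖v‖ * ρ := mul_le_mul_of_nonneg_left hw hvn.le
      nlinarith
    set f : ℂ → ℂ := fun w => Complex.exp (ω * U w + (starRingEnd ℂ) ω *
      (ρ * (ρ * (w - v) / (ρ ^ 2 - (starRingEnd ℂ) v * w)))) with hf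
    have hcb : closedBall (0 : ℂ) ρ ⊆ ball 0 1 := closedBall_subset_ball hρ
    have hfd : DiffContOnCl ℂ f (ball 0 ρ) := by
      apply DifferentiableOn.diffContOnCl
      rw [closure_ball _ hρ0.ne']
      apply DifferentiableOn.cexp
      apply DifferentiableOn.add
      · exact (hUd.mono hcb).const_mul _
      · apply DifferentiableOn.const_mul
        apply DifferentiableOn.const_mul
        apply DifferentiableOn.div
        · exact (differentiableOn_id.sub_const v).const_mul _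
        · exact (differentiableOn_const _).sub (differentiableOn_id.const_mul _)
        · exact hden
    have hfr : ∀ w ∈ frontier (ball (0 : ℂ) ρ), ‖f w‖ ≤ Real.exp (2 * ρ) := by
      intro w hw
      rw [frontier_ball _ hρ0.ne', mem_sphere_zero_iff_norm] at hw
      have hwv : w ≠ v := by
        intro h
        rw [h] at hw
        linarith
      have hwv' : w - v ≠ 0 := sub_ne_zero.2 hwv
      have hwm : w ∈ ball (0 : ℂ) 1 := by rw [mem_ball_zero_iff]; linarith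
      have hw0 : w ≠ 0 := by rw [← norm_pos_iff, hw]; exact hρ0
      have hdw := hden w (by rw [mem_closedBall_zero_iff]; exact hw.le)
      have hDw := hDne w hwm hwv
      obtain ⟨B, hB⟩ : ∃ B : ℂ, B = ρ * (w - v) / (ρ ^ 2 - (starRingEnd ℂ) v * w) := ⟨_, rfl⟩
      have hww : (starRingEnd ℂ) w * w = (ρ : ℂ) ^ 2 := by
        rw [Complex.conj_mul', hw]
      have hconjB : (ρ : ℂ) * (starRingEnd ℂ) B = (ρ ^ 2 - (starRingEnd ℂ) v * w) / (w - v) := by
        have h1 : (starRingEnd ℂ) (w - v) ≠ 0 := (map_ne_zero _).2 hwv'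
        have h2 : (starRingEnd ℂ) ((ρ : ℂ) ^ 2 - (starRingEnd ℂ) v * w) ≠ 0 := (map_ne_zero _).2 hdw
        rw [map_sub] at h1
        rw [map_sub, map_mul, Complex.conj_conj, map_pow, Complex.conj_ofReal] at h2
        rw [hB, map_div₀, map_mul, map_sub, map_sub, map_mul, Complex.conj_conj, map_pow,
          Complex.conj_ofReal, ← mul_div_assoc, div_eq_div_iff h2 hwv']
        linear_combination ((ρ : ℂ) ^ 2 - (starRingEnd ℂ) v * v) * hww
      have hX := step1 S hv0 hv hρ hw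
      rw [← hc, ← he, ← hκ] at hX
      have hGw : Y w / w - c = Dv w / w := by
        simp only [hDv]
        field_simp
      rw [hGw] at hX
      -- `X / 2`
      obtain ⟨X, hXd⟩ : ∃ X : ℂ, X = κ * (deriv H v / 2 - 1 / v - e * w / (v ^ 2 * Dv w)) -
          (starRingEnd ℂ) v := ⟨_, rfl⟩
      have hX2 : ‖X‖ ≤ 2 * ρ := by
        have e1 : κ * (deriv H v - 2 / v - 2 * e / (v ^ 2 * (Dv w / w))) - 2 * (starRingEnd ℂ) v =
            2 * X := by
          rw [hXd]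
          field_simp
        rw [e1, norm_mul, Complex.norm_ofNat] at hX
        linarith
      have hUX : U w = X - ρ * (starRingEnd ℂ) B := by
        simp only [hU]
        rw [hdsl w hwv, hconjB, hXd]
        simp only [hN]
        rw [← hqw w]
        have := hqne w hwm
        field_simp
        ring
      simp only [hf]
      rw [Complex.norm_exp, ← hB, hUX]
      apply Real.exp_le_exp.2
      have e2 : (ω * (X - ρ * (starRingEnd ℂ) B) + (starRingEnd ℂ) ω * (ρ * B)).re = (ω * X).re := by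
        simp only [add_re, mul_re, sub_re, sub_im, mul_im, conj_re, conj_im, ofReal_re, ofReal_im]
        ring
      rw [e2]
      refine (re_le_norm _).trans ?_
      rw [norm_mul, hω, one_mul]
      exact hX2
    have h0 := Complex.norm_le_of_forall_mem_frontier_norm_le isBounded_ball hfd hfr
      (subset_closure (mem_ball_self hρ0))
    simp only [hf] at h0
    rw [Complex.norm_exp] at h0
    have h1 := Real.exp_le_exp.1 h0
    refine le_trans (le_of_eq ?_) h1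
    have hU0 : U 0 = κ * (deriv H v / 2 - 1 / v) - (starRingEnd ℂ) v + ρ ^ 2 / v := by
      simp only [hU]
      rw [hdsl 0 (Ne.symm hv0)]
      simp only [hN]
      field_simp
      ring
    have e3 : (ρ : ℂ) * (ρ * (0 - v) / (ρ ^ 2 - (starRingEnd ℂ) v * 0)) = -v := by
      field_simp
      ring
    rw [e3, hU0]
    have e4 : ω * (κ * (deriv H v / 2 - 1 / v) - (starRingEnd ℂ) v + ρ ^ 2 / v) =
        ω * Z + ω * (starRingEnd ℂ) v := by
      rw [hZ]
      have : (ρ : ℂ) ^ 2 = κ + (starRingEnd ℂ) v * v := by rw [hκv]; ring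
      rw [this]
      field_simp
      ring
    rw [e4]
    simp only [add_re, mul_re, conj_re, conj_im, neg_re, neg_im]
    ring
  by_cases hZ0 : Z = 0
  · rw [hZ0, norm_zero]
    positivity
  have hZn : 0 < ‖Z‖ := norm_pos_iff.2 hZ0
  have hZc : (‖Z‖ : ℂ) ≠ 0 := by exact_mod_cast hZn.ne'
  have h := hmain ((starRingEnd ℂ) Z / ‖Z‖) (by
    rw [norm_div, RCLike.norm_conj, Complex.norm_real, norm_norm, div_self hZn.ne'])
  have e5 : (starRingEnd ℂ) Z / ‖Z‖ * Z = (‖Z‖ : ℂ) := by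
    rw [div_mul_eq_mul_div, Complex.conj_mul']
    field_simp
  rw [e5, Complex.ofReal_re] at h
  exact h

/-- **the sharp bound** `|(1 - |v|²) v H'(v) - 2 |v|²| ≤ 4 |v|` -/
theorem kbound (S : Sg Y H) {v : ℂ} (hv : v ∈ ball (0 : ℂ) 1) :
    ‖((1 - ‖v‖ ^ 2 : ℝ) : ℂ) * (v * deriv H v) - 2 * (‖v‖ : ℂ) ^ 2‖ ≤ 4 * ‖v‖ := by
  have hn : ‖v‖ < 1 := mem_ball_zero_iff.1 hv
  by_cases hv0 : v = 0
  · rw [hv0]
    simp
  have h1 : ‖((1 ^ 2 - ‖v‖ ^ 2 : ℝ) : ℂ) * (deriv H v / 2) - (starRingEnd ℂ) v‖ ≤ 2 * 1 := by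
    have hc : Continuous fun ρ : ℝ => ‖((ρ ^ 2 - ‖v‖ ^ 2 : ℝ) : ℂ) * (deriv H v / 2) -
        (starRingEnd ℂ) v‖ := by fun_prop
    have hc2 : Continuous fun ρ : ℝ => 2 * ρ := by fun_prop
    have hmem : Ioo ‖v‖ 1 ∈ 𝓝[<] (1 : ℝ) := Ioo_mem_nhdsLT hn
    exact le_of_tendsto_of_tendsto (hc.continuousWithinAt (s := Iio 1) (x := 1))
      (hc2.continuousWithinAt (s := Iio 1) (x := 1))
      (by filter_upwards [hmem] with ρ hρ using step2 S hv0 hρ.1 hρ.2)
  rw [one_pow] at h1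
  have hvv : (starRingEnd ℂ) v * v = (‖v‖ : ℂ) ^ 2 := Complex.conj_mul' v
  have e : ((1 - ‖v‖ ^ 2 : ℝ) : ℂ) * (v * deriv H v) - 2 * (‖v‖ : ℂ) ^ 2 =
      2 * v * (((1 - ‖v‖ ^ 2 : ℝ) : ℂ) * (deriv H v / 2) - (starRingEnd ℂ) v) := by
    rw [← hvv]
    ring
  rw [e, norm_mul, norm_mul, Complex.norm_ofNat]
  have := norm_nonneg v
  nlinarith

end

end Pool.Agent.W677.Mar
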