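import Pool.Agent.W677.MarE
import Pool.Agent.W677.MarM

set_option autoImplicit false

/-! # Localised exponential moments of the increments of a Bloch function -/

namespace Pool.Agent.W677.Mar

open Complex Metric Set Filter Topology MeasureTheory

section

variable {r : ℝ}

theorem rx_d (r s : ℝ) : HasDerivAt (fun s : ℝ => (r * Real.exp s) ^ 2) (2 * (r * Real.exp s) ^ 2) s := by
  have := ((Real.hasDerivAt_exp s).const_mul r).pow 2
  refine this.congr_deriv ?_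
  push_cast
  ring

theorem rlam_d {r s : ℝ} (hx : (r * Real.exp s) ^ 2 < 1) :
    HasDerivAt (fun s : ℝ => lam ((r * Real.exp s) ^ 2))
    (2 * (r * Real.exp s) ^ 2 / (1 - (r * Real.exp s) ^ 2)) s := by
  have h4 := (lam_deriv hx).comp s (rx_d r s)
  refine h4.congr_deriv ?_
  ring

theorem rxx_d {r s : ℝ} (hx : (r * Real.exp s) ^ 2 < 1) :
    HasDerivAt (fun s : ℝ => 2 * (r * Real.exp s) ^ 2 / (1 - (r * Real.exp s) ^ 2))
    (4 * (r * Real.exp s) ^ 2 / (1 - (r * Real.exp s) ^ 2) ^ 2) s := by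
  have hx' : 1 - (r * Real.exp s) ^ 2 ≠ 0 := by linarith
  have h4 := ((rx_d r s).const_mul 2).div ((rx_d r s).const_sub 1) hx'
  refine h4.congr_deriv ?_
  field_simp
  ring

end

theorem sq_aux {q y z : ℝ} (hy : y ≠ 0) (hz : z ≠ 0) : (q / y + 1 / z) ^ 2 =
    q ^ 2 / y ^ 2 + (2 * q + y / z) / (y * z) := by
  field_simp
  ring

theorem d3_aux {κ β X y z : ℝ} (hy : y ≠ 0) (hz : z ≠ 0) :
    (κ * (2 * X / y) + β / z * (2 * X)) * (κ * (2 * X / y) + β / z * (2 * X)) =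
    (κ * (2 * X / y)) ^ 2 + 8 * κ * β * X ^ 2 / (y * z) + 4 * β ^ 2 * X ^ 2 / z ^ 2 := by
  field_simp
  ring

/-- **Localised exponential moments** -/
theorem LB {e : ℂ → ℂ} (he : DifferentiableOn ℂ e (ball 0 1))
    (hb : ∀ w ∈ ball (0 : ℂ) 1, ‖deriv e w‖ * (1 - ‖w‖ ^ 2) ≤ 1) {r ρ : ℝ} (hr : 1 / 2 ≤ r)
    (hr1 : r < 1) (hρ : 1 / 2 ≤ ρ) (hρ1 : ρ < 1) {W W1 W2 : ℝ → ℝ} (hW : WD W W1 W2)
    (hW0 : ∀ θ, 0 ≤ W θ) {D B : ℝ} (hB0 : 0 ≤ B) (hDB : 64 * D ≤ B ^ 2)
    (hWD : ∀ θ, -W2 θ ≤ D / (1 - (r * ρ) ^ 2) ^ 2 * W θ) (t : ℂ) :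
    ∫ θ in (0 : ℝ)..(2 * Real.pi), W θ *
      Real.exp ((starRingEnd ℂ) t * (e (r * pt 1 θ) - e ((r * ρ : ℝ) * pt 1 θ))).re ≤
    Real.exp (384 + B + 17 * ‖t‖ + ‖t‖ ^ 2 / 4 * (lam (r ^ 2) - lam ((r * ρ) ^ 2))) *
      ∫ θ in (0 : ℝ)..(2 * Real.pi), W θ := by
  have hpi := Real.pi_pos
  have hr0 : 0 < r := by linarith
  have hρ0 : 0 < ρ := by linarith
  have hrρ : r * ρ < 1 := by nlinarith
  have hrρ0 : 0 < r * ρ := by positivity
  obtain ⟨y₀, hy₀⟩ : ∃ y₀, y₀ = 1 - (r * ρ) ^ 2 := ⟨_, rfl⟩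
  have hy₀0 : 0 < y₀ := by rw [hy₀]; nlinarith
  have hy₀1 : y₀ ≤ 1 := by rw [hy₀]; nlinarith [sq_nonneg (r * ρ)]
  rw [← hy₀] at hWD
  have hR : 1 < 1 / r := by rw [lt_div_iff₀ hr0]; linarith
  have hmr : ∀ z : ℂ, ‖z‖ < 1 / r → (r : ℂ) * z ∈ ball (0 : ℂ) 1 := by
    intro z hz
    rw [lt_div_iff₀ hr0] at hz
    rw [mem_ball_zero_iff, norm_mul, Complex.norm_real, Real.norm_of_nonneg hr0.le]
    linarith
  have hmρ : ∀ z : ℂ, ‖z‖ < 1 / r → ((r * ρ : ℝ) : ℂ) * z ∈ ball (0 : ℂ) 1 := by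
    intro z hz
    rw [lt_div_iff₀ hr0] at hz
    rw [mem_ball_zero_iff, norm_mul, Complex.norm_real, Real.norm_of_nonneg hrρ0.le]
    have := norm_nonneg z
    nlinarith
  set k : ℂ → ℂ := fun z => (starRingEnd ℂ) t * (e (r * z) - e ((r * ρ : ℝ) * z)) with hk
  have hkd : ∀ z : ℂ, ‖z‖ < 1 / r → HasDerivAt k ((starRingEnd ℂ) t *
      (deriv e (r * z) * r - deriv e ((r * ρ : ℝ) * z) * ((r * ρ : ℝ) : ℂ))) z := by
    intro z hz
    have h1 : HasDerivAt (fun z : ℂ => (r : ℂ) * z) (r : ℂ) z := by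
      simpa using (hasDerivAt_id z).const_mul (r : ℂ)
    have h2 : HasDerivAt (fun z : ℂ => ((r * ρ : ℝ) : ℂ) * z) ((r * ρ : ℝ) : ℂ) z := by
      simpa using (hasDerivAt_id z).const_mul ((r * ρ : ℝ) : ℂ)
    have h3 := ((he.differentiableAt (isOpen_ball.mem_nhds (hmr z hz))).hasDerivAt).comp z h1
    have h4 := ((he.differentiableAt (isOpen_ball.mem_nhds (hmρ z hz))).hasDerivAt).comp z h2
    exact (h3.sub h4).const_mul _
  have hkD : DifferentiableOn ℂ k (ball 0 (1 / r)) := by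
    intro z hz
    rw [mem_ball_zero_iff] at hz
    exact (hkd z hz).differentiableAt.differentiableWithinAt
  have hK := kd_of (R₁ := 1 / r) (by positivity) hkD
  obtain ⟨c, hc⟩ : ∃ c, c = Real.log (1 / r) := ⟨_, rfl⟩
  have hc0 : 0 < c := by rw [hc]; exact Real.log_pos hR
  rw [← hc] at hK
  set K : ℂ → ℂ := fun ζ => k (Complex.exp ζ) with hKd
  set K1 : ℂ → ℂ := fun ζ => Complex.exp ζ * deriv k (Complex.exp ζ) with hK1d
  -- the functions
  set G : ℝ → ℝ := fun s => ∫ θ in (0 : ℝ)..(2 * Real.pi), W θ * Real.exp (K (zt s θ)).re with hG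
  set G1 : ℝ → ℝ := fun s => ∫ θ in (0 : ℝ)..(2 * Real.pi), W θ * (Real.exp (K (zt s θ)).re * (K1 (zt s θ)).re)
    with hG1
  set G2 : ℝ → ℝ := fun s => (∫ θ in (0 : ℝ)..(2 * Real.pi), W θ * (Real.exp (K (zt s θ)).re * ‖K1 (zt s θ)‖ ^ 2)) -
    ∫ θ in (0 : ℝ)..(2 * Real.pi), W2 θ * Real.exp (K (zt s θ)).re with hG2
  obtain ⟨τ, hτ⟩ : ∃ τ, τ = ‖t‖ := ⟨_, rfl⟩
  have hτ0 : 0 ≤ τ := hτ ▸ norm_nonneg t
  rw [← hτ]
  obtain ⟨κ, hκ⟩ : ∃ κ, κ = τ ^ 2 / 4 := ⟨_, rfl⟩
  have hκ0 : 0 ≤ κ := by rw [hκ]; positivity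
  obtain ⟨β, hβ⟩ : ∃ β, β = 384 + B + 16 * τ := ⟨_, rfl⟩
  have hβ0 : 0 < β := by rw [hβ]; positivity
  set x : ℝ → ℝ := fun s => (r * Real.exp s) ^ 2 with hx
  set X : ℝ → ℝ := fun s => 2 * x s / (1 - x s) with hX
  set F : ℝ → ℝ := fun s => Real.exp (κ * lam (x s) - β / y₀ * (1 - x s)) with hF
  set F1 : ℝ → ℝ := fun s => F s * (κ * X s + β / y₀ * (2 * x s)) with hF1
  set F2 : ℝ → ℝ := fun s => F s * (κ * X s + β / y₀ * (2 * x s)) * (κ * X s + β / y₀ * (2 * x s)) +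
    F s * (κ * (4 * x s / (1 - x s) ^ 2) + β / y₀ * (2 * (2 * x s))) with hF2
  obtain ⟨s₀, hs₀⟩ : ∃ s₀, s₀ = Real.log ρ := ⟨_, rfl⟩
  have hs₀0 : s₀ < 0 := by rw [hs₀]; exact Real.log_neg hρ0 hρ1
  have hes₀ : Real.exp s₀ = ρ := by rw [hs₀]; exact Real.exp_log hρ0
  have hexpI : ∀ s ∈ Icc s₀ 0, ρ ≤ Real.exp s ∧ Real.exp s ≤ 1 := by
    intro s hs
    constructor
    · rw [← hes₀]
      exact Real.exp_le_exp.2 hs.1
    · exact Real.exp_le_one_iff.2 hs.2
  have hxI : ∀ s ∈ Icc s₀ 0, 1 / 16 ≤ x s ∧ x s < 1 ∧ 1 - x s ≤ y₀ := by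
    intro s hs
    obtain ⟨h1, h2⟩ := hexpI s hs
    have h3 : r * ρ ≤ r * Real.exp s := mul_le_mul_of_nonneg_left h1 hr0.le
    have h4 : r * Real.exp s ≤ r := by nlinarith
    have h5 : 1 / 4 ≤ r * ρ := by nlinarith
    simp only [hx]
    refine ⟨by nlinarith, by nlinarith, ?_⟩
    rw [hy₀]
    nlinarith
  have hIc : ∀ s ∈ Icc s₀ 0, s < c := fun s hs => hs.2.trans_lt hc0
  have dG : ∀ s ∈ Icc s₀ 0, HasDerivAt G (G1 s) s := fun s hs => en1 hK hW (hIc s hs)
  have dG1 : ∀ s ∈ Icc s₀ 0, HasDerivAt G1 (G2 s) s := fun s hs => en2 hK hW (hIc s hs)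
  have dF : ∀ s ∈ Icc s₀ 0, HasDerivAt F (F1 s) s := by
    intro s hs
    have h1 := (((rlam_d (hxI s hs).2.1).const_mul κ).sub (((rx_d r s).const_sub 1).const_mul (β / y₀))).exp
    refine h1.congr_deriv ?_
    simp only [hF1, hF, hX, hx, Pi.sub_apply]
    ring
  have dF1 : ∀ s ∈ Icc s₀ 0, HasDerivAt F1 (F2 s) s := by
    intro s hs
    exact (dF s hs).fun_mul (((rxx_d (hxI s hs).2.1).const_mul κ).fun_add
      (((rx_d r s).const_mul 2).const_mul (β / y₀)))
  have hF0 : ∀ s, 0 < F s := fun s => Real.exp_pos _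
  have hGn : ∀ s, 0 ≤ G s := by
    intro s
    apply intervalIntegral.integral_nonneg (by positivity)
    intro θ _
    exact mul_nonneg (hW0 θ) (Real.exp_pos _).le
  have cc : ∀ {f : ℂ → ℂ} {s : ℝ}, s < c → ContinuousOn f {ζ : ℂ | ζ.re < c} →
      Continuous fun θ : ℝ => f (zt s θ) := by
    intro f s hs hf
    apply hf.comp_continuous (zt_cont.comp (continuous_const.prodMk continuous_id))
    intro θ
    show (zt s θ).re < c
    rw [zt_re]
    exact hs
  have cw := wc0 hW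
  -- bound of `K1`
  have hK1b : ∀ s ∈ Icc s₀ 0, ∀ θ, ‖K1 (zt s θ)‖ ≤ τ * (Real.sqrt (x s) / (1 - x s) + 1 / y₀) := by
    intro s hs θ
    obtain ⟨h1, h2⟩ := hexpI s hs
    obtain ⟨h3, h4, h5⟩ := hxI s hs
    have hz : ‖pt (Real.exp s) θ‖ = Real.exp s := norm_pt _ θ (Real.exp_pos s).le
    have hz1 : ‖pt (Real.exp s) θ‖ < 1 / r := by rw [hz]; linarith
    obtain ⟨z, hzd⟩ : ∃ z, z = pt (Real.exp s) θ := ⟨_, rfl⟩
    rw [← hzd] at hz hz1
    have e1 : K1 (zt s θ) = (starRingEnd ℂ) t * (z * (deriv e (r * z) * r) -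
        z * (deriv e ((r * ρ : ℝ) * z) * ((r * ρ : ℝ) : ℂ))) := by
      simp only [hK1d]
      rw [exp_zt, ← hzd, (hkd z hz1).deriv]
      ring
    have hsq : Real.sqrt (x s) = r * Real.exp s := by
      simp only [hx]
      exact Real.sqrt_sq (by positivity)
    have n1 : ‖z * (deriv e (r * z) * r)‖ ≤ Real.sqrt (x s) / (1 - x s) := by
      have a1 := hb _ (hmr z hz1)
      rw [norm_mul, Complex.norm_real, Real.norm_of_nonneg hr0.le, hz] at a1
      have a2 : 0 < 1 - x s := by linarith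
      rw [norm_mul, norm_mul, Complex.norm_real, Real.norm_of_nonneg hr0.le, hz, hsq,
        le_div_iff₀ a2]
      have a3 : 0 ≤ r * Real.exp s := by positivity
      have a4 := mul_le_mul_of_nonneg_left a1 a3
      have a5 : (r * Real.exp s) * (‖deriv e (r * z)‖ * (1 - (r * Real.exp s) ^ 2)) =
          Real.exp s * (‖deriv e (r * z)‖ * r) * (1 - x s) := by
        simp only [hx]
        ring
      linarith
    have n2 : ‖z * (deriv e ((r * ρ : ℝ) * z) * ((r * ρ : ℝ) : ℂ))‖ ≤ 1 / y₀ := by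
      have a1 := hb _ (hmρ z hz1)
      rw [norm_mul, Complex.norm_real, Real.norm_of_nonneg hrρ0.le, hz] at a1
      have a3 : r * ρ * Real.exp s ≤ r * ρ := by nlinarith
      have a6 : 0 ≤ r * ρ * Real.exp s := by positivity
      have a2 : y₀ ≤ 1 - (r * ρ * Real.exp s) ^ 2 := by
        rw [hy₀]
        nlinarith
      have a4 : ‖deriv e ((r * ρ : ℝ) * z)‖ * y₀ ≤ 1 :=
        (mul_le_mul_of_nonneg_left a2 (norm_nonneg _)).trans a1
      rw [norm_mul, norm_mul, Complex.norm_real, Real.norm_of_nonneg hrρ0.le, hz, le_div_iff₀ hy₀0]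
      have a5 : Real.exp s * (‖deriv e ((r * ρ : ℝ) * z)‖ * (r * ρ)) * y₀ =
          (r * ρ * Real.exp s) * (‖deriv e ((r * ρ : ℝ) * z)‖ * y₀) := by ring
      rw [a5]
      have a7 : 0 ≤ ‖deriv e ((r * ρ : ℝ) * z)‖ * y₀ := by positivity
      nlinarith
    rw [e1, norm_mul, RCLike.norm_conj, ← hτ]
    apply mul_le_mul_of_nonneg_left _ hτ0
    exact (norm_sub_le _ _).trans (add_le_add n1 n2)
  set q : ℝ → ℝ := fun s => τ ^ 2 * (x s / (1 - x s) ^ 2 + 3 / ((1 - x s) * y₀)) + D / y₀ ^ 2 with hq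
  have hGi : ∀ s ∈ Icc s₀ 0, G2 s ≤ 0 * G1 s + q s * G s := by
    intro s hs
    obtain ⟨h3, h4, h5⟩ := hxI s hs
    have hsc := hIc s hs
    have c0 := cc hsc (kcK hK)
    have c1 := cc hsc (kcK1 hK)
    have ce : Continuous fun θ : ℝ => Real.exp (K (zt s θ)).re :=
      Real.continuous_exp.comp (continuous_re.comp c0)
    have i1 : IntervalIntegrable (fun θ : ℝ => W θ * (Real.exp (K (zt s θ)).re * ‖K1 (zt s θ)‖ ^ 2))
        volume 0 (2 * Real.pi) := (cw.mul (ce.mul (c1.norm.pow 2))).intervalIntegrable _ _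
    have i2 : IntervalIntegrable (fun θ : ℝ => W2 θ * Real.exp (K (zt s θ)).re)
        volume 0 (2 * Real.pi) := (hW.c2.mul ce).intervalIntegrable _ _
    rw [zero_mul, zero_add]
    simp only [hG2]
    rw [← intervalIntegral.integral_sub i1 i2]
    simp only [hG]
    rw [← intervalIntegral.integral_const_mul]
    apply intervalIntegral.integral_mono_on (by positivity) (i1.sub i2)
    · exact (continuous_const.mul (cw.mul ce)).intervalIntegrable _ _
    · intro θ _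
      have hy : 0 < 1 - x s := by linarith
      have a1 := hK1b s hs θ
      have a2 : ‖K1 (zt s θ)‖ ^ 2 ≤ τ ^ 2 * (x s / (1 - x s) ^ 2 + 3 / ((1 - x s) * y₀)) := by
        have b1 := pow_le_pow_left₀ (norm_nonneg _) a1 2
        rw [mul_pow] at b1
        refine b1.trans (mul_le_mul_of_nonneg_left ?_ (sq_nonneg τ))
        have b2 : Real.sqrt (x s) ≤ 1 := Real.sqrt_le_one.2 h4.le
        have b3 : Real.sqrt (x s) ^ 2 = x s := Real.sq_sqrt (by linarith)
        have b4 := Real.sqrt_nonneg (x s)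
        rw [sq_aux hy.ne' hy₀0.ne', b3]
        have b6 : (1 - x s) / y₀ ≤ 1 := by rw [div_le_one hy₀0]; exact h5
        have b7 : (2 * Real.sqrt (x s) + (1 - x s) / y₀) / ((1 - x s) * y₀) ≤ 3 / ((1 - x s) * y₀) := by
          apply div_le_div_of_nonneg_right _ (by positivity)
          linarith
        linarith
      have a3 := mul_le_mul_of_nonneg_left a2 (hW0 θ)
      have a4 := hWD θ
      have a5 := (Real.exp_pos (K (zt s θ)).re).le
      have a6 := mul_le_mul_of_nonneg_right (add_le_add a3 a4) a5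
      simp only [hq]
      linarith
  have hFi : ∀ s ∈ Icc s₀ 0, 0 * F1 s + q s * F s ≤ F2 s := by
    intro s hs
    obtain ⟨h3, h4, h5⟩ := hxI s hs
    have hy : 0 < 1 - x s := by linarith
    have hx0 : 0 < x s := by linarith
    have key : q s ≤ (κ * X s + β / y₀ * (2 * x s)) * (κ * X s + β / y₀ * (2 * x s)) +
        (κ * (4 * x s / (1 - x s) ^ 2) + β / y₀ * (2 * (2 * x s))) := by
      simp only [hq, hX]
      have d1 : 0 ≤ β / y₀ * (2 * (2 * x s)) := by positivity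
      have d2 : κ * (4 * x s / (1 - x s) ^ 2) = τ ^ 2 * (x s / (1 - x s) ^ 2) := by
        rw [hκ]
        ring
      have d3 : (κ * (2 * x s / (1 - x s)) + β / y₀ * (2 * x s)) *
          (κ * (2 * x s / (1 - x s)) + β / y₀ * (2 * x s)) =
          (κ * (2 * x s / (1 - x s))) ^ 2 + 8 * κ * β * x s ^ 2 / ((1 - x s) * y₀) +
          4 * β ^ 2 * x s ^ 2 / y₀ ^ 2 := d3_aux hy.ne' hy₀0.ne'
      have hx2 : 1 / 256 ≤ x s ^ 2 := by nlinarith
      have d4 : 0 ≤ (κ * (2 * x s / (1 - x s))) ^ 2 := sq_nonneg _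
      have d5 : τ ^ 2 * (3 / ((1 - x s) * y₀)) ≤ 8 * κ * β * x s ^ 2 / ((1 - x s) * y₀) := by
        rw [← mul_div_assoc]
        apply div_le_div_of_nonneg_right _ (by positivity)
        have f1 : 384 ≤ β := by rw [hβ]; linarith
        have f2 : 384 * (1 / 256) ≤ β * x s ^ 2 := by
          apply mul_le_mul f1 hx2 (by norm_num) hβ0.le
        have f3 : 8 * κ * β * x s ^ 2 = τ ^ 2 * (2 * (β * x s ^ 2)) := by rw [hκ]; ring
        rw [f3]
        apply mul_le_mul_of_nonneg_left _ (sq_nonneg τ)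
        linarith
      have d6 : D / y₀ ^ 2 ≤ 4 * β ^ 2 * x s ^ 2 / y₀ ^ 2 := by
        apply div_le_div_of_nonneg_right _ (by positivity)
        have f1 : B ^ 2 ≤ β ^ 2 := by
          apply pow_le_pow_left₀ hB0
          rw [hβ]
          linarith
        have f2 : β ^ 2 * (1 / 256) ≤ β ^ 2 * x s ^ 2 :=
          mul_le_mul_of_nonneg_left hx2 (sq_nonneg β)
        linarith
      rw [d3, d2]
      linarith
    have := mul_le_mul_of_nonneg_right key (hF0 s).le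
    simp only [hF2, hF1]
    linarith
  have hmem0 : s₀ ∈ Icc s₀ 0 := ⟨le_rfl, hs₀0.le⟩
  have hxs₀ : x s₀ = (r * ρ) ^ 2 := by simp only [hx]; rw [hes₀]
  have hyeq : 1 - x s₀ = y₀ := by rw [hxs₀, hy₀]
  -- initial condition
  have hw0 : G1 s₀ * F s₀ - G s₀ * F1 s₀ ≤ 0 := by
    obtain ⟨h3, h4, h5⟩ := hxI s₀ hmem0
    have hsc := hIc s₀ hmem0
    have c0 := cc hsc (kcK hK)
    have c1 := cc hsc (kcK1 hK)
    have ce : Continuous fun θ : ℝ => Real.exp (K (zt s₀ θ)).re :=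
      Real.continuous_exp.comp (continuous_re.comp c0)
    have a1 : G1 s₀ ≤ (2 * τ / y₀) * G s₀ := by
      simp only [hG1, hG]
      rw [← intervalIntegral.integral_const_mul]
      apply intervalIntegral.integral_mono_on (by positivity)
      · exact (cw.mul (ce.mul (continuous_re.comp c1))).intervalIntegrable _ _
      · exact (continuous_const.mul (cw.mul ce)).intervalIntegrable _ _
      · intro θ _
        have b1 := (re_le_norm _).trans (hK1b s₀ hmem0 θ)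
        rw [hyeq] at b1
        have b2 : Real.sqrt (x s₀) ≤ 1 := Real.sqrt_le_one.2 h4.le
        have b3 : Real.sqrt (x s₀) / y₀ ≤ 1 / y₀ := div_le_div_of_nonneg_right b2 hy₀0.le
        have b4 : (K1 (zt s₀ θ)).re ≤ 2 * τ / y₀ := by
          refine b1.trans ?_
          have := mul_le_mul_of_nonneg_left (add_le_add b3 (le_refl (1 / y₀))) hτ0
          refine this.trans (le_of_eq ?_)
          ring
        have b5 := mul_le_mul_of_nonneg_left b4 (mul_nonneg (hW0 θ) (Real.exp_pos (K (zt s₀ θ)).re).le)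
        linarith
    have a2 : F s₀ * (2 * τ / y₀) ≤ F1 s₀ := by
      simp only [hF1]
      apply mul_le_mul_of_nonneg_left _ (hF0 s₀).le
      have b1 : 0 ≤ κ * X s₀ := by
        apply mul_nonneg hκ0
        simp only [hX]
        apply div_nonneg (by linarith) (by linarith)
      have b2 : 2 * τ / y₀ ≤ β / y₀ * (2 * x s₀) := by
        rw [div_mul_eq_mul_div]
        apply div_le_div_of_nonneg_right _ hy₀0.le
        have : 16 * τ ≤ β := by rw [hβ]; linarith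
        nlinarith
      linarith
    have a3 := mul_le_mul_of_nonneg_right a1 (hF0 s₀).le
    have a4 := mul_le_mul_of_nonneg_left a2 (hGn s₀)
    nlinarith
  have hw : ∀ s ∈ Icc s₀ 0, G1 s * F s - G s * F1 s ≤ 0 := by
    intro s hs
    have h1 := ode1 (G := G) (G1 := G1) (G2 := G2) (S := F) (S1 := F1) (S2 := F2) (E := fun _ => 1)
      (p := fun _ => 0) (q := q) (a := s₀) (b := 0) dG dG1 dF dF1
      (fun s _ => by simpa using hasDerivAt_const s (1 : ℝ))
      (fun s _ => one_pos) (fun s _ => hGn s) (fun s _ => hF0 s) hGi hFi hs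
    simp only [mul_one] at h1
    exact h1.trans hw0
  have hfin := ode2 (G := G) (G1 := G1) (S := F) (S1 := F1) hs₀0.le dG dF (fun s _ => hF0 s) hw
  -- the initial value
  have hG0 : G s₀ ≤ Real.exp τ * ∫ θ in (0 : ℝ)..(2 * Real.pi), W θ := by
    have hsc := hIc s₀ hmem0
    have c0 := cc hsc (kcK hK)
    have ce : Continuous fun θ : ℝ => Real.exp (K (zt s₀ θ)).re :=
      Real.continuous_exp.comp (continuous_re.comp c0)
    simp only [hG]
    rw [← intervalIntegral.integral_const_mul]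
    apply intervalIntegral.integral_mono_on (by positivity)
    · exact (cw.mul ce).intervalIntegrable _ _
    · exact (continuous_const.mul cw).intervalIntegrable _ _
    · intro θ _
      rw [mul_comm]
      apply mul_le_mul_of_nonneg_right _ (hW0 θ)
      apply Real.exp_le_exp.2
      refine (re_le_norm _).trans ?_
      simp only [hKd, hk]
      rw [exp_zt, hes₀, norm_mul, RCLike.norm_conj, ← hτ]
      have hz : ‖pt ρ θ‖ = ρ := norm_pt ρ θ hρ0.le
      have hcv : Convex ℝ (closedBall (0 : ℂ) (r * ρ)) := convex_closedBall _ _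
      have m1 : (r : ℂ) * pt ρ θ ∈ closedBall (0 : ℂ) (r * ρ) := by
        rw [mem_closedBall_zero_iff, norm_mul, Complex.norm_real, Real.norm_of_nonneg hr0.le, hz]
      have m2 : ((r * ρ : ℝ) : ℂ) * pt ρ θ ∈ closedBall (0 : ℂ) (r * ρ) := by
        rw [mem_closedBall_zero_iff, norm_mul, Complex.norm_real, Real.norm_of_nonneg hrρ0.le, hz]
        nlinarith
      have hcb : ∀ w ∈ closedBall (0 : ℂ) (r * ρ), w ∈ ball (0 : ℂ) 1 := by
        intro w hw
        rw [mem_closedBall_zero_iff] at hw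
        rw [mem_ball_zero_iff]
        linarith
      have h1 := hcv.norm_image_sub_le_of_norm_deriv_le (𝕜 := ℂ) (f := e) (C := 1 / y₀)
        (fun w hw => he.differentiableAt (isOpen_ball.mem_nhds (hcb w hw)))
        (by
          intro w hw
          have a1 := hb w (hcb w hw)
          rw [mem_closedBall_zero_iff] at hw
          have a2 : y₀ ≤ 1 - ‖w‖ ^ 2 := by
            rw [hy₀]
            have := norm_nonneg w
            nlinarith
          rw [le_div_iff₀ hy₀0]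
          exact (mul_le_mul_of_nonneg_left a2 (norm_nonneg _)).trans a1) m2 m1
      have e2 : (r : ℂ) * pt ρ θ - ((r * ρ : ℝ) : ℂ) * pt ρ θ =
          ((r * (1 - ρ) : ℝ) : ℂ) * pt ρ θ := by
        push_cast
        ring
      rw [e2, norm_mul, Complex.norm_real, Real.norm_of_nonneg (by nlinarith), hz] at h1
      have h2 : 1 / y₀ * (r * (1 - ρ) * ρ) ≤ 1 := by
        rw [div_mul_eq_mul_div, one_mul, div_le_one hy₀0, hy₀]
        nlinarith [mul_pos hr0 hρ0]
      calc τ * ‖e (r * pt ρ θ) - e ((r * ρ : ℝ) * pt ρ θ)‖ ≤ τ * 1 :=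
            mul_le_mul_of_nonneg_left (h1.trans h2) hτ0
        _ = τ := mul_one τ
  have e0 : G 0 = ∫ θ in (0 : ℝ)..(2 * Real.pi), W θ *
      Real.exp ((starRingEnd ℂ) t * (e (r * pt 1 θ) - e ((r * ρ : ℝ) * pt 1 θ))).re := by
    simp only [hG, hKd, hk]
    refine intervalIntegral.integral_congr fun θ _ => ?_
    beta_reduce
    rw [exp_zt, Real.exp_zero]
  rw [← e0]
  rw [div_le_div_iff₀ (hF0 0) (hF0 s₀)] at hfin
  have hF00 : F 0 = Real.exp (κ * lam (r ^ 2) - β / y₀ * (1 - r ^ 2)) := by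
    simp only [hF, hx]
    rw [Real.exp_zero, mul_one]
  have hFs : F s₀ = Real.exp (κ * lam ((r * ρ) ^ 2) - β) := by
    simp only [hF]
    rw [hyeq, hxs₀]
    congr 1
    field_simp
  have hlast : G 0 * F s₀ ≤ (Real.exp (384 + B + 17 * τ + τ ^ 2 / 4 * (lam (r ^ 2) - lam ((r * ρ) ^ 2))) *
      ∫ θ in (0 : ℝ)..(2 * Real.pi), W θ) * F s₀ := by
    refine hfin.trans ?_
    have hI : 0 ≤ ∫ θ in (0 : ℝ)..(2 * Real.pi), W θ :=
      intervalIntegral.integral_nonneg (by positivity) fun θ _ => hW0 θ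
    have h1 := mul_le_mul_of_nonneg_right hG0 (hF0 0).le
    refine h1.trans ?_
    have h2 : Real.exp τ * F 0 ≤
        Real.exp (384 + B + 17 * τ + τ ^ 2 / 4 * (lam (r ^ 2) - lam ((r * ρ) ^ 2))) * F s₀ := by
      rw [hF00, hFs, ← Real.exp_add, ← Real.exp_add]
      apply Real.exp_le_exp.2
      have h3 : 0 ≤ β / y₀ * (1 - r ^ 2) := by
        apply mul_nonneg (by positivity)
        nlinarith
      rw [hβ] at h3 ⊢
      rw [hκ]
      linarith
    calc Real.exp τ * (∫ θ in (0 : ℝ)..(2 * Real.pi), W θ) * F 0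
        = (Real.exp τ * F 0) * ∫ θ in (0 : ℝ)..(2 * Real.pi), W θ := by ring
      _ ≤ (Real.exp (384 + B + 17 * τ + τ ^ 2 / 4 * (lam (r ^ 2) - lam ((r * ρ) ^ 2))) * F s₀) *
          ∫ θ in (0 : ℝ)..(2 * Real.pi), W θ := mul_le_mul_of_nonneg_right h2 hI
      _ = _ := by ring
  exact le_of_mul_le_mul_right hlast (hF0 s₀)

end Pool.Agent.W677.Mar
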