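import Pool.Agent.W677.MarK
import Pool.Agent.W677.MarE
import Pool.Agent.W677.MarM

set_option autoImplicit false

/-! # Exponential moments of `log ψ'` for the whole class `Σ` -/

namespace Pool.Agent.W677.Mar

open Complex Metric Set Filter Topology MeasureTheory

theorem wd_one : WD (fun _ => 1) (fun _ => 0) (fun _ => 0) :=
  ⟨fun θ => hasDerivAt_const θ 1, fun θ => hasDerivAt_const θ 0, continuous_const, fun _ => rfl,
    fun _ => rfl⟩

/-- derivative of `s ↦ lam (exp (2 s))` -/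
theorem lam_exp_d {s : ℝ} (hs : s < 0) : HasDerivAt (fun s : ℝ => lam (Real.exp s ^ 2))
    (2 * Real.exp s ^ 2 / (1 - Real.exp s ^ 2)) s := by
  have h1 : Real.exp s < 1 := Real.exp_lt_one_iff.2 hs
  have h2 := Real.exp_pos s
  have hx : Real.exp s ^ 2 < 1 := by nlinarith
  have h3 : HasDerivAt (fun s : ℝ => Real.exp s ^ 2) (2 * Real.exp s ^ 2) s := by
    have := (Real.hasDerivAt_exp s).pow 2
    refine this.congr_deriv ?_
    push_cast
    ring
  have h4 := (lam_deriv hx).comp s h3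
  refine h4.congr_deriv ?_
  ring

theorem xx_d {s : ℝ} (hs : s < 0) : HasDerivAt (fun s : ℝ => 2 * Real.exp s ^ 2 / (1 - Real.exp s ^ 2))
    (4 * Real.exp s ^ 2 / (1 - Real.exp s ^ 2) ^ 2) s := by
  have h1 : Real.exp s < 1 := Real.exp_lt_one_iff.2 hs
  have h2 := Real.exp_pos s
  have hx : 1 - Real.exp s ^ 2 ≠ 0 := by nlinarith
  have h3 : HasDerivAt (fun s : ℝ => Real.exp s ^ 2) (2 * Real.exp s ^ 2) s := by
    have := (Real.hasDerivAt_exp s).pow 2
    refine this.congr_deriv ?_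
    push_cast
    ring
  have h4 := (h3.const_mul 2).div (h3.const_sub 1) hx
  refine h4.congr_deriv ?_
  field_simp
  ring

section

variable {Y H : ℂ → ℂ}

/-- the pointwise inequality -/
theorem kb_sq (S : Sg Y H) {w : ℂ} (hw : w ∈ ball (0 : ℂ) 1) :
    ‖w * deriv H w‖ ^ 2 ≤ (16 * ‖w‖ ^ 2 - 4 * (‖w‖ ^ 2) ^ 2) / (1 - ‖w‖ ^ 2) ^ 2 +
      4 * ‖w‖ ^ 2 / (1 - ‖w‖ ^ 2) * (w * deriv H w).re := by
  have hn : ‖w‖ < 1 := mem_ball_zero_iff.1 hw
  have hn0 := norm_nonneg w
  have h1 := kbound S hw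
  obtain ⟨x, hx⟩ : ∃ x, x = ‖w‖ ^ 2 := ⟨_, rfl⟩
  have hx1 : 0 < 1 - x := by rw [hx]; nlinarith
  have e1 : (2 : ℂ) * (‖w‖ : ℂ) ^ 2 = ((2 * x : ℝ) : ℂ) := by rw [hx]; push_cast; ring
  rw [e1, ← hx] at h1
  rw [← hx]
  have h2 : ‖((1 - x : ℝ) : ℂ) * (w * deriv H w) - ((2 * x : ℝ) : ℂ)‖ ^ 2 ≤ 16 * x := by
    have := pow_le_pow_left₀ (norm_nonneg _) h1 2
    rw [mul_pow, ← hx] at this
    linarith
  obtain ⟨P, hP⟩ : ∃ P, P = w * deriv H w := ⟨_, rfl⟩
  rw [← hP] at h2 ⊢
  rw [← Complex.normSq_eq_norm_sq, Complex.normSq_apply] at h2 ⊢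
  simp only [sub_re, sub_im, Complex.re_ofReal_mul, Complex.im_ofReal_mul, ofReal_re, ofReal_im,
    sub_zero] at h2
  have e2 : (16 * x - 4 * x ^ 2) / (1 - x) ^ 2 + 4 * x / (1 - x) * P.re =
      ((16 * x - 4 * x ^ 2) + 4 * x * (1 - x) * P.re) / (1 - x) ^ 2 := by
    field_simp
  rw [e2, le_div_iff₀ (by positivity)]
  nlinarith

/-- **exponential moments** -/
theorem exp_mom (S : Sg Y H) (t : ℂ) {r : ℝ} (hr0 : 0 < r) (hr1 : r < 1) :
    ∫ θ in (0 : ℝ)..(2 * Real.pi), Real.exp ((starRingEnd ℂ) t * H (pt r θ)).re ≤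
      2 * Real.pi * Real.exp (4 * ‖t‖ ^ 2 * lam (r ^ 2)) := by
  have hpi := Real.pi_pos
  have hK := kd_of (R₁ := 1) one_pos (S.dH.const_mul ((starRingEnd ℂ) t))
  rw [Real.log_one] at hK
  set K : ℂ → ℂ := fun ζ => (starRingEnd ℂ) t * H (Complex.exp ζ) with hKd
  set K1 : ℂ → ℂ := fun ζ => Complex.exp ζ * deriv (fun w => (starRingEnd ℂ) t * H w) (Complex.exp ζ)
    with hK1d
  have hmem : ∀ s θ : ℝ, s < 0 → pt (Real.exp s) θ ∈ ball (0 : ℂ) 1 := by
    intro s θ hs
    rw [mem_ball_zero_iff, norm_pt _ θ (Real.exp_pos s).le]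
    exact Real.exp_lt_one_iff.2 hs
  have hK1e : ∀ s θ : ℝ, s < 0 → K1 (zt s θ) =
      (starRingEnd ℂ) t * (pt (Real.exp s) θ * deriv H (pt (Real.exp s) θ)) := by
    intro s θ hs
    simp only [hK1d]
    rw [exp_zt, deriv_const_mul_field]
    ring
  have hKe : ∀ s θ : ℝ, K (zt s θ) = (starRingEnd ℂ) t * H (pt (Real.exp s) θ) := by
    intro s θ
    simp only [hKd]
    rw [exp_zt]
  -- the functions
  set G : ℝ → ℝ := fun s => ∫ θ in (0 : ℝ)..(2 * Real.pi), 1 * Real.exp (K (zt s θ)).re with hG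
  set G1 : ℝ → ℝ := fun s => ∫ θ in (0 : ℝ)..(2 * Real.pi), 1 * (Real.exp (K (zt s θ)).re * (K1 (zt s θ)).re)
    with hG1
  set G2 : ℝ → ℝ := fun s => (∫ θ in (0 : ℝ)..(2 * Real.pi), 1 * (Real.exp (K (zt s θ)).re * ‖K1 (zt s θ)‖ ^ 2)) -
    ∫ θ in (0 : ℝ)..(2 * Real.pi), 0 * Real.exp (K (zt s θ)).re with hG2
  obtain ⟨κ, hκ⟩ : ∃ κ, κ = 4 * ‖t‖ ^ 2 := ⟨_, rfl⟩
  have hκ0 : 0 ≤ κ := by rw [hκ]; positivity
  set x : ℝ → ℝ := fun s => Real.exp s ^ 2 with hx
  set X : ℝ → ℝ := fun s => 2 * x s / (1 - x s) with hX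
  set F : ℝ → ℝ := fun s => Real.exp (κ * lam (x s)) with hF
  set F1 : ℝ → ℝ := fun s => F s * (κ * X s) with hF1
  set F2 : ℝ → ℝ := fun s => F s * (κ * X s) * (κ * X s) + F s * (κ * (4 * x s / (1 - x s) ^ 2)) with hF2
  set E : ℝ → ℝ := fun s => Real.exp (-(2 * t.re) * lam (x s)) with hE
  have hx0 : ∀ s, 0 < x s := fun s => by simp only [hx]; positivity
  have hx1 : ∀ s, s < 0 → x s < 1 := by
    intro s hs
    have h1 : Real.exp s < 1 := Real.exp_lt_one_iff.2 hs
    have h2 := Real.exp_pos s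
    simp only [hx]
    nlinarith
  have dG : ∀ s, s < 0 → HasDerivAt G (G1 s) s := fun s hs => en1 hK wd_one hs
  have dG1 : ∀ s, s < 0 → HasDerivAt G1 (G2 s) s := fun s hs => en2 hK wd_one hs
  have dF : ∀ s, s < 0 → HasDerivAt F (F1 s) s := fun s hs => ((lam_exp_d hs).const_mul κ).exp
  have dF1 : ∀ s, s < 0 → HasDerivAt F1 (F2 s) s := fun s hs =>
    (dF s hs).fun_mul ((xx_d hs).const_mul κ)
  have dE : ∀ s, s < 0 → HasDerivAt E (-(2 * t.re * X s * E s)) s := by
    intro s hs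
    refine ((lam_exp_d hs).const_mul (-(2 * t.re))).exp.congr_deriv ?_
    simp only [hE, hX, hx]
    ring
  have hF0 : ∀ s, 0 < F s := fun s => Real.exp_pos _
  have hE0 : ∀ s, 0 < E s := fun s => Real.exp_pos _
  have hX0 : ∀ s, s < 0 → 0 ≤ X s := by
    intro s hs
    have h1 := hx0 s
    have h2 := hx1 s hs
    simp only [hX]
    exact div_nonneg (by linarith) (by linarith)
  have hGn : ∀ s, 0 ≤ G s := by
    intro s
    apply intervalIntegral.integral_nonneg (by positivity)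
    intro θ _
    positivity
  -- continuity in the angle
  have cc : ∀ {f : ℂ → ℂ} {s : ℝ}, s < 0 → ContinuousOn f {ζ : ℂ | ζ.re < 0} →
      Continuous fun θ : ℝ => f (zt s θ) := by
    intro f s hs hf
    apply hf.comp_continuous (zt_cont.comp (continuous_const.prodMk continuous_id))
    intro θ
    show (zt s θ).re < 0
    rw [zt_re]
    exact hs
  -- the differential inequality for `G`
  have hGi : ∀ s, s < 0 → G2 s ≤ 2 * t.re * X s * G1 s +
      ‖t‖ ^ 2 * ((16 * x s - 4 * x s ^ 2) / (1 - x s) ^ 2) * G s := by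
    intro s hs
    have c0 := cc hs (kcK hK)
    have c1 := cc hs (kcK1 hK)
    have ce : Continuous fun θ : ℝ => Real.exp (K (zt s θ)).re :=
      Real.continuous_exp.comp (continuous_re.comp c0)
    have hx1' := hx1 s hs
    have hm : ∫ θ in (0 : ℝ)..(2 * Real.pi), 1 * (Real.exp (K (zt s θ)).re * ‖K1 (zt s θ)‖ ^ 2) ≤
        ∫ θ in (0 : ℝ)..(2 * Real.pi),
          ((‖t‖ ^ 2 * ((16 * x s - 4 * x s ^ 2) / (1 - x s) ^ 2)) * (1 * Real.exp (K (zt s θ)).re) +
          ((2 * t.re * X s) * (1 * (Real.exp (K (zt s θ)).re * (K1 (zt s θ)).re)) -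
          (2 * t.im * X s) * (Real.exp (K (zt s θ)).re * (K1 (zt s θ)).im))) := by
      apply intervalIntegral.integral_mono_on (by positivity)
      · exact (continuous_const.mul (ce.mul (c1.norm.pow 2))).intervalIntegrable _ _
      · exact ((continuous_const.mul (continuous_const.mul ce)).add
          ((continuous_const.mul (continuous_const.mul (ce.mul (continuous_re.comp c1)))).sub
          (continuous_const.mul (ce.mul (continuous_im.comp c1))))).intervalIntegrable _ _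
      · intro θ _
        have h1 := kb_sq S (hmem s θ hs)
        rw [norm_pt _ θ (Real.exp_pos s).le] at h1
        obtain ⟨P, hP⟩ : ∃ P, P = pt (Real.exp s) θ * deriv H (pt (Real.exp s) θ) := ⟨_, rfl⟩
        have e1 := hK1e s θ hs
        rw [← hP] at h1 e1
        have e2 : ‖K1 (zt s θ)‖ ^ 2 = ‖t‖ ^ 2 * ‖P‖ ^ 2 := by
          rw [e1, norm_mul, RCLike.norm_conj, mul_pow]
        have e3 : ‖t‖ ^ 2 * P.re = t.re * (K1 (zt s θ)).re - t.im * (K1 (zt s θ)).im := by
          rw [e1, ← Complex.normSq_eq_norm_sq, Complex.normSq_apply]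
          simp only [mul_re, mul_im, conj_re, conj_im]
          ring
        have h2 := mul_le_mul_of_nonneg_left h1 (sq_nonneg ‖t‖)
        have e4 : ‖t‖ ^ 2 * ((16 * Real.exp s ^ 2 - 4 * (Real.exp s ^ 2) ^ 2) /
            (1 - Real.exp s ^ 2) ^ 2 + 4 * Real.exp s ^ 2 / (1 - Real.exp s ^ 2) * P.re) =
            ‖t‖ ^ 2 * ((16 * x s - 4 * x s ^ 2) / (1 - x s) ^ 2) +
            2 * X s * (‖t‖ ^ 2 * P.re) := by
          simp only [hX, hx]
          ring
        rw [e4, e3, ← e2] at h2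
        have h3 := mul_le_mul_of_nonneg_left h2 (Real.exp_pos (K (zt s θ)).re).le
        linarith
    have i1 : IntervalIntegrable (fun θ : ℝ => (‖t‖ ^ 2 * ((16 * x s - 4 * x s ^ 2) / (1 - x s) ^ 2)) *
        (1 * Real.exp (K (zt s θ)).re)) volume 0 (2 * Real.pi) :=
      (continuous_const.mul (continuous_const.mul ce)).intervalIntegrable _ _
    have i2 : IntervalIntegrable (fun θ : ℝ => (2 * t.re * X s) *
        (1 * (Real.exp (K (zt s θ)).re * (K1 (zt s θ)).re))) volume 0 (2 * Real.pi) :=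
      (continuous_const.mul (continuous_const.mul (ce.mul (continuous_re.comp c1)))).intervalIntegrable _ _
    have i3 : IntervalIntegrable (fun θ : ℝ => (2 * t.im * X s) *
        (Real.exp (K (zt s θ)).re * (K1 (zt s θ)).im)) volume 0 (2 * Real.pi) :=
      (continuous_const.mul (ce.mul (continuous_im.comp c1))).intervalIntegrable _ _
    have j1 : ∫ θ in (0 : ℝ)..(2 * Real.pi), (‖t‖ ^ 2 * ((16 * x s - 4 * x s ^ 2) / (1 - x s) ^ 2)) *
        (1 * Real.exp (K (zt s θ)).re) =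
        (‖t‖ ^ 2 * ((16 * x s - 4 * x s ^ 2) / (1 - x s) ^ 2)) * G s :=
      intervalIntegral.integral_const_mul _ _
    have j2 : ∫ θ in (0 : ℝ)..(2 * Real.pi), (2 * t.re * X s) *
        (1 * (Real.exp (K (zt s θ)).re * (K1 (zt s θ)).re)) = (2 * t.re * X s) * G1 s :=
      intervalIntegral.integral_const_mul _ _
    have j3 : ∫ θ in (0 : ℝ)..(2 * Real.pi), (2 * t.im * X s) *
        (Real.exp (K (zt s θ)).re * (K1 (zt s θ)).im) = 0 := by
      rw [intervalIntegral.integral_const_mul, en3 hK hs, mul_zero]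
    rw [intervalIntegral.integral_add i1 (i2.sub i3), intervalIntegral.integral_sub i2 i3,
      j1, j2, j3, sub_zero] at hm
    have h0 : ∫ θ in (0 : ℝ)..(2 * Real.pi), 0 * Real.exp (K (zt s θ)).re = 0 := by simp
    simp only [hG2, h0, sub_zero]
    linarith
  -- the differential inequality for `F`
  have hFi : ∀ s, s < 0 → 2 * t.re * X s * F1 s +
      ‖t‖ ^ 2 * ((16 * x s - 4 * x s ^ 2) / (1 - x s) ^ 2) * F s ≤ F2 s := by
    intro s hs
    have h1 := hx0 s
    have h2 := hx1 s hs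
    have h3 := hF0 s
    have h4 : t.re ≤ ‖t‖ := re_le_norm t
    have hy : 0 < 1 - x s := by linarith
    obtain ⟨τ, hτ⟩ : ∃ τ, τ = ‖t‖ := ⟨_, rfl⟩
    have hτ0 : 0 ≤ τ := hτ ▸ norm_nonneg t
    rw [← hτ] at h4 hκ ⊢
    have key : 2 * t.re * X s * (κ * X s) + τ ^ 2 * ((16 * x s - 4 * x s ^ 2) / (1 - x s) ^ 2) ≤
        (κ * X s) * (κ * X s) + κ * (4 * x s / (1 - x s) ^ 2) := by
      simp only [hX]
      rw [hκ]
      have e1 : 2 * t.re * (2 * x s / (1 - x s)) * (4 * τ ^ 2 * (2 * x s / (1 - x s))) +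
          τ ^ 2 * ((16 * x s - 4 * x s ^ 2) / (1 - x s) ^ 2) =
          (32 * t.re * τ ^ 2 * x s ^ 2 + τ ^ 2 * (16 * x s - 4 * x s ^ 2)) / (1 - x s) ^ 2 := by
        field_simp
        ring
      have e2 : 4 * τ ^ 2 * (2 * x s / (1 - x s)) * (4 * τ ^ 2 * (2 * x s / (1 - x s))) +
          4 * τ ^ 2 * (4 * x s / (1 - x s) ^ 2) =
          (64 * τ ^ 4 * x s ^ 2 + 16 * τ ^ 2 * x s) / (1 - x s) ^ 2 := by
        field_simp
        ring
      rw [e1, e2, div_le_div_iff_of_pos_right (by positivity)]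
      have h5 : 32 * t.re * τ ^ 2 * x s ^ 2 ≤ 32 * τ * τ ^ 2 * x s ^ 2 := by gcongr
      have h6 : 0 ≤ 4 * τ ^ 2 * x s ^ 2 * (4 * τ - 1) ^ 2 := by positivity
      nlinarith
    have := mul_le_mul_of_nonneg_left key h3.le
    simp only [hF1, hF2]
    linarith
  -- behaviour near the centre
  have hH : ∀ s θ : ℝ, s < 0 → ‖H (pt (Real.exp s) θ)‖ ≤ lam (x s) := by
    intro s θ hs
    have := goluzin S (hmem s θ hs)
    rw [norm_pt _ θ (Real.exp_pos s).le] at this
    exact this
  have hKre : ∀ s θ : ℝ, s < 0 → (K (zt s θ)).re ≤ ‖t‖ * lam (x s) := by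
    intro s θ hs
    rw [hKe]
    refine (re_le_norm _).trans ?_
    rw [norm_mul, RCLike.norm_conj]
    exact mul_le_mul_of_nonneg_left (hH s θ hs) (norm_nonneg t)
  have hGb : ∀ s, s < 0 → G s ≤ 2 * Real.pi * Real.exp (‖t‖ * lam (x s)) := by
    intro s hs
    have h1 : G s ≤ ∫ _θ in (0 : ℝ)..(2 * Real.pi), Real.exp (‖t‖ * lam (x s)) := by
      apply intervalIntegral.integral_mono_on (by positivity)
      · exact (continuous_const.mul (Real.continuous_exp.comp
          (continuous_re.comp (cc hs (kcK hK))))).intervalIntegrable _ _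
      · exact continuous_const.intervalIntegrable _ _
      · intro θ _
        rw [one_mul]
        exact Real.exp_le_exp.2 (hKre s θ hs)
    rw [intervalIntegral.integral_const, smul_eq_mul, sub_zero] at h1
    exact h1
  have hlim : Tendsto (fun s : ℝ => x s) atBot (𝓝 0) := by
    have := (Real.tendsto_exp_atBot).pow 2
    rwa [zero_pow two_ne_zero] at this
  have hlamc : Tendsto (fun s : ℝ => lam (x s)) atBot (𝓝 0) := by
    have h1 : ContinuousAt lam 0 := (lam_deriv (by norm_num : (0 : ℝ) < 1)).continuousAt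
    have h2 := h1.tendsto.comp hlim
    rwa [lam_zero] at h2
  have hsmall : ∀ a, a < Real.log (1 / 2) → (G1 a * F a - G a * F1 a) * E a ≤
      (2 * Real.pi * (Real.exp (‖t‖ * lam (x a)) * (‖t‖ * 12 * Real.exp a)) * F a) * E a := by
    intro a ha
    have ha0 : a < 0 := ha.trans (Real.log_neg (by norm_num) (by norm_num))
    have hea : Real.exp a < 1 / 2 := by
      have := Real.exp_lt_exp.2 ha
      rwa [Real.exp_log (by norm_num)] at this
    apply mul_le_mul_of_nonneg_right _ (hE0 a).le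
    have h1 : 0 ≤ G a * F1 a := mul_nonneg (hGn a)
      (mul_nonneg (hF0 a).le (mul_nonneg hκ0 (hX0 a ha0)))
    have h2 : G1 a ≤ 2 * Real.pi * (Real.exp (‖t‖ * lam (x a)) * (‖t‖ * 12 * Real.exp a)) := by
      have h3 : G1 a ≤ ∫ _θ in (0 : ℝ)..(2 * Real.pi),
          (Real.exp (‖t‖ * lam (x a)) * (‖t‖ * 12 * Real.exp a)) := by
        apply intervalIntegral.integral_mono_on (by positivity)
        · exact (continuous_const.mul ((Real.continuous_exp.comp
            (continuous_re.comp (cc ha0 (kcK hK)))).mul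
            (continuous_re.comp (cc ha0 (kcK1 hK))))).intervalIntegrable _ _
        · exact continuous_const.intervalIntegrable _ _
        · intro θ _
          rw [one_mul]
          have h4 : (K1 (zt a θ)).re ≤ ‖t‖ * 12 * Real.exp a := by
            refine (re_le_norm _).trans ?_
            rw [hK1e a θ ha0, norm_mul, norm_mul, RCLike.norm_conj,
              norm_pt _ θ (Real.exp_pos a).le]
            have h5 := H_bloch S (hmem a θ ha0)
            rw [norm_pt _ θ (Real.exp_pos a).le] at h5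
            have h6 := norm_nonneg (deriv H (pt (Real.exp a) θ))
            have h7 : ‖deriv H (pt (Real.exp a) θ)‖ ≤ 12 := by nlinarith
            have h8 := Real.exp_pos a
            have h9 := norm_nonneg t
            calc ‖t‖ * (Real.exp a * ‖deriv H (pt (Real.exp a) θ)‖)
                ≤ ‖t‖ * (Real.exp a * 12) := by gcongr
              _ = _ := by ring
          have h5 : Real.exp (K (zt a θ)).re ≤ Real.exp (‖t‖ * lam (x a)) :=
            Real.exp_le_exp.2 (hKre a θ ha0)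
          have h6 : 0 ≤ ‖t‖ * 12 * Real.exp a := by positivity
          calc Real.exp (K (zt a θ)).re * (K1 (zt a θ)).re
              ≤ Real.exp (K (zt a θ)).re * (‖t‖ * 12 * Real.exp a) :=
                mul_le_mul_of_nonneg_left h4 (Real.exp_pos _).le
            _ ≤ _ := mul_le_mul_of_nonneg_right h5 h6
      rw [intervalIntegral.integral_const, smul_eq_mul, sub_zero] at h3
      exact h3
    have h3 := mul_le_mul_of_nonneg_right h2 (hF0 a).le
    linarith
  have hwneg : ∀ s, s < 0 → G1 s * F s - G s * F1 s ≤ 0 := by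
    intro s hs
    have h1 : ∀ a, a ≤ s → (G1 s * F s - G s * F1 s) * E s ≤ (G1 a * F a - G a * F1 a) * E a := by
      intro a ha
      apply ode1 (G := G) (G1 := G1) (G2 := G2) (S := F) (S1 := F1) (S2 := F2) (E := E)
        (p := fun s => 2 * t.re * X s)
        (q := fun s => ‖t‖ ^ 2 * ((16 * x s - 4 * x s ^ 2) / (1 - x s) ^ 2)) (a := a) (b := s)
      · exact fun u hu => dG u (hu.2.trans_lt hs)
      · exact fun u hu => dG1 u (hu.2.trans_lt hs)
      · exact fun u hu => dF u (hu.2.trans_lt hs)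
      · exact fun u hu => dF1 u (hu.2.trans_lt hs)
      · exact fun u hu => dE u (hu.2.trans_lt hs)
      · exact fun u _ => hE0 u
      · exact fun u _ => hGn u
      · exact fun u _ => hF0 u
      · exact fun u hu => hGi u (hu.2.trans_lt hs)
      · exact fun u hu => hFi u (hu.2.trans_lt hs)
      · exact ⟨ha, le_rfl⟩
    have h2 : Tendsto (fun a => (2 * Real.pi * (Real.exp (‖t‖ * lam (x a)) *
        (‖t‖ * 12 * Real.exp a)) * F a) * E a) atBot (𝓝 0) := by
      have t1 : Tendsto (fun a => Real.exp (‖t‖ * lam (x a))) atBot (𝓝 (Real.exp (‖t‖ * 0))) :=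
        (Real.continuous_exp.tendsto _).comp (hlamc.const_mul _)
      have t2 : Tendsto (fun a => F a) atBot (𝓝 (Real.exp (κ * 0))) :=
        (Real.continuous_exp.tendsto _).comp (hlamc.const_mul _)
      have t3 : Tendsto (fun a => E a) atBot (𝓝 (Real.exp (-(2 * t.re) * 0))) :=
        (Real.continuous_exp.tendsto _).comp (hlamc.const_mul _)
      have t4 : Tendsto (fun a => ‖t‖ * 12 * Real.exp a) atBot (𝓝 (‖t‖ * 12 * 0)) :=
        Real.tendsto_exp_atBot.const_mul _
      have t5 := (((t1.mul t4).const_mul (2 * Real.pi)).mul t2).mul t3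
      simpa using t5
    have h3 : (G1 s * F s - G s * F1 s) * E s ≤ 0 := by
      refine ge_of_tendsto h2 ?_
      filter_upwards [eventually_le_atBot s, eventually_lt_atBot (Real.log (1 / 2))] with a ha1 ha2
      exact (h1 a ha1).trans (hsmall a ha2)
    by_contra hcon
    push Not at hcon
    have := mul_pos hcon (hE0 s)
    linarith
  -- conclusion
  obtain ⟨s, hs⟩ : ∃ s, s = Real.log r := ⟨_, rfl⟩
  have hs0 : s < 0 := by rw [hs]; exact Real.log_neg hr0 hr1
  have hes : Real.exp s = r := by rw [hs]; exact Real.exp_log hr0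
  have hfin : ∀ a, a ≤ s → G s / F s ≤ 2 * Real.pi * Real.exp (‖t‖ * lam (x a)) := by
    intro a ha
    have ha0 : a < 0 := ha.trans_lt hs0
    have h1 := ode2 (G := G) (G1 := G1) (S := F) (S1 := F1) ha
      (fun u hu => dG u (hu.2.trans_lt hs0)) (fun u hu => dF u (hu.2.trans_lt hs0))
      (fun u _ => hF0 u) (fun u hu => hwneg u (hu.2.trans_lt hs0))
    have h2 : G a / F a ≤ G a := by
      apply div_le_self (hGn a)
      simp only [hF]
      apply Real.one_le_exp
      exact mul_nonneg hκ0 (lam_nonneg (hx0 a).le (hx1 a ha0))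
    exact h1.trans (h2.trans (hGb a ha0))
  have hlim2 : Tendsto (fun a => 2 * Real.pi * Real.exp (‖t‖ * lam (x a))) atBot
      (𝓝 (2 * Real.pi)) := by
    have t1 : Tendsto (fun a => Real.exp (‖t‖ * lam (x a))) atBot (𝓝 (Real.exp (‖t‖ * 0))) :=
      (Real.continuous_exp.tendsto _).comp (hlamc.const_mul _)
    have t2 := t1.const_mul (2 * Real.pi)
    simpa using t2
  have h1 : G s / F s ≤ 2 * Real.pi := by
    refine ge_of_tendsto hlim2 ?_
    filter_upwards [eventually_le_atBot s] with a ha using hfin a ha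
  rw [div_le_iff₀ (hF0 s)] at h1
  have e1 : G s = ∫ θ in (0 : ℝ)..(2 * Real.pi), Real.exp ((starRingEnd ℂ) t * H (pt r θ)).re := by
    simp only [hG]
    refine intervalIntegral.integral_congr fun θ _ => ?_
    simp only [one_mul]
    rw [hKe, hes]
  have e2 : F s = Real.exp (4 * ‖t‖ ^ 2 * lam (r ^ 2)) := by
    simp only [hF, hx]
    rw [hκ, hes]
  rw [← e1, ← e2]
  exact h1

end

end Pool.Agent.W677.Mar
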