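import Pool.Agent.W677.MarW
import Pool.Agent.W677.MarP
import Pool.Agent.W677.MarF2

set_option autoImplicit false

/-! # Exponential moments for the class with a Bloch part of norm one -/

namespace Pool.Agent.W677.Mar

open Complex Metric Set Filter Topology MeasureTheory

/-- the pointwise estimate, for differences -/
theorem ptw2 {K Λ B A R₁ : ℝ} {H Q P g b : ℂ → ℂ} {u : ℂ} (D : DA K Λ B A R₁ H Q P g b u) (θ : ℝ)
    {j : ℕ} (hj : 1 ≤ j)
    (hsm : ∀ i, j < i → (1 / 2) ^ i * (P (pt (rr i) θ)).re ≤ cc i) :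
    ‖H (pt 1 θ) - H (pt (rr j) θ)‖ ≤ ‖g (pt 1 θ) - g (pt (rr j) θ)‖ + (4 * B + 4 + 2 * A) := by
  have h0 := rr_nonneg j
  have h1 := rr_lt j
  have hmj : pt (rr j) θ ∈ ball (0 : ℂ) 1 := by rw [mem_ball_zero_iff, norm_pt _ θ h0]; exact h1
  have hsub : ball (0 : ℂ) 1 ⊆ ball 0 R₁ := ball_subset_ball D.R.le
  obtain ⟨-, -, hs3⟩ := shell D θ hj
  have hF : ∀ n, j + 1 ≤ n → ‖FF H g b u θ (rr n) - FF H g b u θ (rr j)‖ ≤ 4 * B + 4 := by
    intro n hn
    have a1 := tele D θ (by omega : 1 ≤ j + 1) n hn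
    have a2 : 2 * (1 / 2) ^ (j + 1) * ‖Q (pt (rr (j + 1)) θ)‖ ≤ 2 * B := by
      have := D.bQ (pt (rr (j + 1)) θ) (by
        rw [mem_ball_zero_iff, norm_pt _ θ (rr_nonneg _)]
        exact rr_lt _)
      rw [norm_pt _ θ (rr_nonneg _), one_sub_rr] at this
      linarith
    have a3 : ∑ i ∈ Finset.Ico (j + 1) n, (1 / 2) ^ i * (P (pt (rr i) θ)).re ≤ 1 := by
      have b2 : ∑ i ∈ Finset.Ico (j + 1) n, (1 / 2) ^ i * (P (pt (rr i) θ)).re ≤
          ∑ i ∈ Finset.Ico (j + 1) n, cc i := by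
        apply Finset.sum_le_sum
        intro i hi
        exact hsm i (Finset.mem_Ico.1 hi).1
      exact b2.trans (sum_cc (j + 1) n (by omega) hn)
    have a4 : 0 ≤ 2 * (1 / 2) ^ n * ‖Q (pt (rr n) θ)‖ := by positivity
    have a5 : ‖FF H g b u θ (rr n) - FF H g b u θ (rr j)‖ ≤
        ‖FF H g b u θ (rr n) - FF H g b u θ (rr (j + 1))‖ +
        ‖FF H g b u θ (rr (j + 1)) - FF H g b u θ (rr j)‖ := norm_sub_le_norm_sub_add_norm_sub _ _ _
    linarith
  have hcont : ContinuousAt (FF H g b u θ) 1 := (hasDerivAt_FF D θ one_pos le_rfl).continuousAt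
  have hlim : Tendsto (fun n => ‖FF H g b u θ (rr n) - FF H g b u θ (rr j)‖) atTop
      (𝓝 ‖FF H g b u θ 1 - FF H g b u θ (rr j)‖) :=
    ((hcont.tendsto.comp tendsto_rr).sub_const _).norm
  have hF1 : ‖FF H g b u θ 1 - FF H g b u θ (rr j)‖ ≤ 4 * B + 4 := by
    apply le_of_tendsto hlim
    filter_upwards [eventually_ge_atTop (j + 1)] with n hn
    exact hF n hn
  have e : H (pt 1 θ) - H (pt (rr j) θ) = (FF H g b u θ 1 - FF H g b u θ (rr j)) +
      u * (g (pt 1 θ) - g (pt (rr j) θ)) + (b (pt 1 θ) - b (pt (rr j) θ)) := by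
    unfold FF
    ring
  rw [e]
  have n1 := norm_add_le ((FF H g b u θ 1 - FF H g b u θ (rr j)) +
      u * (g (pt 1 θ) - g (pt (rr j) θ))) (b (pt 1 θ) - b (pt (rr j) θ))
  have n2 := norm_add_le (FF H g b u θ 1 - FF H g b u θ (rr j))
      (u * (g (pt 1 θ) - g (pt (rr j) θ)))
  have n4 := norm_sub_le (b (pt 1 θ)) (b (pt (rr j) θ))
  have n5 := D.bb _ (mem_R D zero_le_one le_rfl θ)
  have n6 := D.bb _ (hsub hmj)
  have n8 : ‖u * (g (pt 1 θ) - g (pt (rr j) θ))‖ ≤ ‖g (pt 1 θ) - g (pt (rr j) θ)‖ := by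
    rw [norm_mul]
    have := mul_le_mul_of_nonneg_right D.u1 (norm_nonneg (g (pt 1 θ) - g (pt (rr j) θ)))
    linarith
  linarith

/-- bound for `Q` -/
theorem Q_bloch4 {K A ε : ℝ} {Y H Q P g b e : ℂ → ℂ} {u : ℂ} (S : Sg Y H)
    (D : DC K A ε H Q P g b e u) (hε1 : ε ≤ 4) {w : ℂ}
    (hw : w ∈ ball (0 : ℂ) 1) : ‖Q w‖ * (1 - ‖w‖) ≤ 22 + 2 * A := by
  have hn : ‖w‖ < 1 := mem_ball_zero_iff.1 hw
  have h1 := H_bloch S hw
  have h2 := strip_bloch D.dg D.sg hw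
  have h3 := cauchy_half D.db hw (M := A) (by
    intro x hx
    apply D.bb
    apply ball_sub' hw
    rw [mem_ball_iff_norm]
    linarith)
  have h4 := D.be w hw
  have e1 : Q w = w * (u * deriv g w + deriv b w + deriv e w - deriv H w) := by
    have := D.eq w hw
    linear_combination this
  have h5 : ‖u * deriv g w + deriv b w + deriv e w - deriv H w‖ ≤
      ‖deriv g w‖ + ‖deriv b w‖ + ‖deriv e w‖ + ‖deriv H w‖ := by
    have n1 := norm_sub_le (u * deriv g w + deriv b w + deriv e w) (deriv H w)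
    have n2 := norm_add_le (u * deriv g w + deriv b w) (deriv e w)
    have n3 := norm_add_le (u * deriv g w) (deriv b w)
    have n4 : ‖u * deriv g w‖ ≤ ‖deriv g w‖ := by
      rw [norm_mul]
      have := mul_le_mul_of_nonneg_right D.u1 (norm_nonneg (deriv g w))
      linarith
    linarith
  have h6 : ‖Q w‖ ≤ ‖deriv g w‖ + ‖deriv b w‖ + ‖deriv e w‖ + ‖deriv H w‖ := by
    rw [e1, norm_mul]
    have := mul_le_mul_of_nonneg_right hn.le
      (norm_nonneg (u * deriv g w + deriv b w + deriv e w - deriv H w))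
    linarith
  have h7 := mul_le_mul_of_nonneg_right h6 (by linarith : 0 ≤ 1 - ‖w‖)
  have h8 : (‖deriv g w‖ + ‖deriv b w‖ + ‖deriv e w‖ + ‖deriv H w‖) * (1 - ‖w‖) =
    ‖deriv g w‖ * (1 - ‖w‖) + ‖deriv b w‖ * (1 - ‖w‖) + ‖deriv e w‖ * (1 - ‖w‖) +
      ‖deriv H w‖ * (1 - ‖w‖) := by ring
  linarith

/-- the dilated data -/
theorem toDA4 {K A ε r : ℝ} {Y H Q P g b e : ℂ → ℂ} {u : ℂ} (S : Sg Y H)
    (D : DC K A ε H Q P g b e u) (hε0 : 0 ≤ ε) (hε1 : ε ≤ 4) (hr0 : 0 < r)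
    (hr1 : r < 1) :
    DA K (1 + 2 * ε) (22 + 2 * A) A (1 / r) (fun w => H (r * w) - e (r * w)) (fun w => Q (r * w))
      (fun w => P (r * w)) (fun w => g (r * w)) (fun w => b (r * w)) u := by
  have hR : 1 < 1 / r := by rw [lt_div_iff₀ hr0]; linarith
  have hsub : ball (0 : ℂ) 1 ⊆ ball 0 (1 / r) := ball_subset_ball hR.le
  have hrw : ∀ w ∈ ball (0 : ℂ) 1, ‖(r : ℂ) * w‖ ≤ ‖w‖ := by
    intro w _
    rw [dil_norm hr0]
    have := mul_le_mul_of_nonneg_right hr1.le (norm_nonneg w)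
    linarith
  refine ⟨hR, (dil_diff S.dH hr0).sub (dil_diff D.de hr0), dil_diff D.dQ hr0, dil_diff D.dP hr0,
    dil_diff D.dg hr0, dil_diff D.db hr0, ?_, ?_, ?_, ?_, ?_, D.u1, ?_, ?_, ?_⟩
  · intro w hw
    have hm := dil_mem hr0 (hsub hw)
    have h1 := goluzin_le S hm
    have h2 := bloch_growth D.de D.e0 D.be hm
    have hn : ‖w‖ < 1 := mem_ball_zero_iff.1 hw
    have h3 : -Real.log (1 - ‖(r : ℂ) * w‖) ≤ -Real.log (1 - ‖w‖) := by
      apply neg_le_neg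
      apply Real.log_le_log (by linarith)
      have := hrw w hw
      linarith
    have h4 : 0 ≤ -Real.log (1 - ‖w‖) := by
      have := Real.log_nonpos (by linarith : 0 ≤ 1 - ‖w‖) (by linarith [norm_nonneg w])
      linarith
    have h5 := norm_sub_le (H ((r : ℂ) * w)) (e ((r : ℂ) * w))
    have h6 : ε * -Real.log (1 - ‖(r : ℂ) * w‖) ≤ ε * -Real.log (1 - ‖w‖) :=
      mul_le_mul_of_nonneg_left h3 hε0
    have h7 : 0 ≤ ε * -Real.log (1 - ‖w‖) := mul_nonneg hε0 h4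
    show ‖H ((r : ℂ) * w) - e ((r : ℂ) * w)‖ ≤ (1 + 2 * ε) * -Real.log (1 - ‖w‖)
    linarith
  · intro w hw
    exact D.pP _ (dil_mem hr0 hw)
  · show ‖P ((r : ℂ) * 0)‖ ≤ K
    rw [mul_zero]
    exact D.P0
  · intro w hw
    have hm := dil_mem hr0 (hsub hw)
    have h1 := Q_bloch4 S D hε1 hm
    have h2 := hrw w hw
    have h3 := mul_le_mul_of_nonneg_left (by linarith : 1 - ‖w‖ ≤ 1 - ‖(r : ℂ) * w‖)
      (norm_nonneg (Q ((r : ℂ) * w)))
    exact h3.trans h1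
  · intro w hw x hx
    have hm := dil_mem hr0 (hsub hw)
    apply D.oQ _ hm
    have e1 : (r : ℂ) * x - r * w = r * (x - w) := by ring
    rw [e1, dil_norm hr0, dil_norm hr0]
    have := mul_le_mul_of_nonneg_left hx hr0.le
    nlinarith [norm_nonneg w]
  · intro w hw
    exact D.sg _ (dil_mem hr0 hw)
  · intro w hw
    exact D.bb _ (dil_mem hr0 hw)
  · intro w hw
    have hm := dil_mem hr0 hw
    have d1 := ((dil_deriv S.dH hr0 hw).sub (dil_deriv D.de hr0 hw)).deriv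
    have d2 := (dil_deriv D.dg hr0 hw).deriv
    have d3 := (dil_deriv D.db hr0 hw).deriv
    have d1' : deriv (fun w => H ((r : ℂ) * w) - e ((r : ℂ) * w)) w =
        (r : ℂ) * deriv H ((r : ℂ) * w) - (r : ℂ) * deriv e ((r : ℂ) * w) := d1
    rw [d1', d2, d3]
    have := D.eq _ hm
    linear_combination this

/-- the localised moments for a Bloch function of norm at most `β` -/
theorem LBb {e : ℂ → ℂ} (he : DifferentiableOn ℂ e (ball 0 1)) {β : ℝ} (hβ : 0 < β)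
    (hb : ∀ w ∈ ball (0 : ℂ) 1, ‖deriv e w‖ * (1 - ‖w‖ ^ 2) ≤ β) {r ρ : ℝ} (hr : 1 / 2 ≤ r)
    (hr1 : r < 1) (hρ : 1 / 2 ≤ ρ) (hρ1 : ρ < 1) {W W1 W2 : ℝ → ℝ} (hW : WD W W1 W2)
    (hW0 : ∀ θ, 0 ≤ W θ) {D B : ℝ} (hB0 : 0 ≤ B) (hDB : 64 * D ≤ B ^ 2)
    (hWD : ∀ θ, -W2 θ ≤ D / (1 - (r * ρ) ^ 2) ^ 2 * W θ) (t : ℂ) :
    ∫ θ in (0 : ℝ)..(2 * Real.pi), W θ *
      Real.exp ((starRingEnd ℂ) t * (e (r * pt 1 θ) - e ((r * ρ : ℝ) * pt 1 θ))).re ≤
    Real.exp (384 + B + 17 * (β * ‖t‖) + β ^ 2 * ‖t‖ ^ 2 / 4 * (lam (r ^ 2) - lam ((r * ρ) ^ 2))) *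
      ∫ θ in (0 : ℝ)..(2 * Real.pi), W θ := by
  have hβc : (β : ℂ) ≠ 0 := by exact_mod_cast hβ.ne'
  have h1 := LB (e := fun w => e w / β) (he.div_const _) (by
    intro w hw
    have hd : deriv (fun w => e w / (β : ℂ)) w = deriv e w / β :=
      ((he.differentiableAt (isOpen_ball.mem_nhds hw)).hasDerivAt.div_const _).deriv
    rw [hd, norm_div, Complex.norm_real, Real.norm_of_nonneg hβ.le, div_mul_eq_mul_div,
      div_le_one hβ]
    exact hb w hw) hr hr1 hρ hρ1 hW hW0 hB0 hDB hWD ((β : ℂ) * t)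
  have hn : ‖(β : ℂ) * t‖ = β * ‖t‖ := by
    rw [norm_mul, Complex.norm_real, Real.norm_of_nonneg hβ.le]
  have e1 : ∀ θ : ℝ, (starRingEnd ℂ) ((β : ℂ) * t) * (e (r * pt 1 θ) / β -
      e ((r * ρ : ℝ) * pt 1 θ) / β) =
      (starRingEnd ℂ) t * (e (r * pt 1 θ) - e ((r * ρ : ℝ) * pt 1 θ)) := by
    intro θ
    rw [map_mul, Complex.conj_ofReal]
    field_simp
  simp only [e1] at h1
  rw [hn] at h1
  have e2 : (β * ‖t‖) ^ 2 / 4 = β ^ 2 * ‖t‖ ^ 2 / 4 := by ring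
  rw [e2] at h1
  exact h1

/-- level of the `j`-th radius -/
noncomputable def lj (r : ℝ) (j : ℕ) : ℝ := lam ((r * rr j) ^ 2)

theorem pt_mul (r s θ : ℝ) : (r : ℂ) * pt s θ = pt (r * s) θ := by
  rw [pt_eq s, pt_eq (r * s)]
  push_cast
  ring

/-- **the main estimate of the exponential moments** -/
theorem mom2 {K A r β : ℝ} {Y H Q P b e : ℂ → ℂ} (S : Sg Y H)
    (D : DC K A β H Q P (fun _ => 0) b e 0) (hA : 0 ≤ A) (hK : 0 ≤ K) (hβ0 : 0 < β) (hβ4 : β ≤ 4)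
    (he2 : ∀ w ∈ ball (0 : ℂ) 1, ‖deriv e w‖ * (1 - ‖w‖ ^ 2) ≤ β)
    (hr : 1 / 2 ≤ r) (hr1 : r < 1) {j₀ : ℕ} (hj₀ : 1 ≤ j₀) (t : ℂ)
    {ξ E v : ℝ} (hv0 : 0 ≤ v)
    (hbase : 4 * ‖t‖ ^ 2 * lj r j₀ + β ^ 2 * ‖t‖ ^ 2 / 4 * (lam (r ^ 2) - lj r j₀) ≤ E)
    (hterm : ∀ j, j₀ ≤ j → K * (1 / 2) ^ j * Real.exp (‖t‖ * lj r j +
      β ^ 2 * ‖t‖ ^ 2 / 4 * (lam (r ^ 2) - lj r j)) ≤ ξ * v ^ j * Real.exp E)
    (hsum : Summable fun j : ℕ => ((j : ℝ) * (j + 1)) * v ^ j) (hξ : 0 ≤ ξ) :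
    ∫ θ in (0 : ℝ)..(2 * Real.pi), Real.exp ((starRingEnd ℂ) t * H (pt r θ)).re ≤
      2 * Real.pi * Real.exp (784 + (200 + 10 * A) * ‖t‖) *
        (1 + ξ * ∑' j : ℕ, ((j : ℝ) * (j + 1)) * v ^ j) * Real.exp E := by
  have hpi := Real.pi_pos
  have hr0 : 0 < r := by linarith
  obtain ⟨τ, hτ⟩ : ∃ τ, τ = ‖t‖ := ⟨_, rfl⟩
  have hτ0 : 0 ≤ τ := hτ ▸ norm_nonneg t
  have hβτ : β * τ ≤ 4 * τ := mul_le_mul_of_nonneg_right hβ4 hτ0
  rw [← hτ] at hbase hterm ⊢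
  obtain ⟨L, hL⟩ : ∃ L, L = lam (r ^ 2) := ⟨_, rfl⟩
  rw [← hL] at hbase hterm
  have D' := toDA4 S D hβ0.le hβ4 hr0 hr1
  obtain ⟨J, hJ⟩ := exists_J D'
  obtain ⟨C₀, hC₀⟩ : ∃ C₀, C₀ = 92 + 10 * A := ⟨_, rfl⟩
  have hC₀0 : 0 ≤ C₀ := by rw [hC₀]; positivity
  have hRj : ∀ j, 0 ≤ r * rr j ∧ r * rr j < 1 := by
    intro j
    have h1 := rr_nonneg j
    have h2 := rr_lt j
    exact ⟨mul_nonneg hr0.le h1, by nlinarith⟩
  have hmr : ∀ θ, pt r θ ∈ ball (0 : ℂ) 1 := fun θ => pt_mem hr0.le hr1 θ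
  have hmj : ∀ j θ, pt (r * rr j) θ ∈ ball (0 : ℂ) 1 := fun j θ => pt_mem (hRj j).1 (hRj j).2 θ
  -- the increments
  set Z : ℕ → ℝ → ℝ := fun j θ => Real.exp ((starRingEnd ℂ) t *
    (e (r * pt 1 θ) - e ((r * rr j : ℝ) * pt 1 θ))).re with hZ
  have hp1 : ∀ θ, (r : ℂ) * pt 1 θ = pt r θ := fun θ => by rw [pt_mul, mul_one]
  have hpj : ∀ j θ, ((r * rr j : ℝ) : ℂ) * pt 1 θ = pt (r * rr j) θ := fun j θ => by
    rw [pt_mul, mul_one]
  have hec : ∀ {R : ℝ}, 0 ≤ R → R < 1 → ∀ {f : ℂ → ℂ}, DifferentiableOn ℂ f (ball 0 1) →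
      Continuous fun θ : ℝ => f (pt R θ) := by
    intro R h0 h1 f hf
    exact cont_circ hf h0 h1
  have hZc : ∀ j, Continuous (Z j) := by
    intro j
    simp only [hZ, hp1, hpj]
    apply Real.continuous_exp.comp
    apply continuous_re.comp
    exact continuous_const.mul ((hec hr0.le hr1 D.de).sub (hec (hRj j).1 (hRj j).2 D.de))
  have hZ0 : ∀ j θ, 0 < Z j θ := fun j θ => Real.exp_pos _
  set Wb : ℝ → ℝ := fun θ => Real.exp ((starRingEnd ℂ) t * H (pt (r * rr j₀) θ)).re with hWb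
  have hWbc : Continuous Wb := by
    simp only [hWb]
    apply Real.continuous_exp.comp
    apply continuous_re.comp
    exact continuous_const.mul (hec (hRj j₀).1 (hRj j₀).2 S.dH)
  set Wa : ℕ → ℝ → ℝ := fun j θ => (P (pt (r * rr j) θ)).re with hWa
  have hWac : ∀ j, Continuous (Wa j) := fun j =>
    continuous_re.comp (hec (hRj j).1 (hRj j).2 D.dP)
  have hWa0 : ∀ j θ, 0 < Wa j θ := fun j θ => D.pP _ (hmj j θ)
  have hMeq : ∀ i θ, (1 / 2) ^ i * ((fun w => P (r * w)) (pt (rr i) θ)).re =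
      (1 / 2 : ℝ) ^ i * Wa i θ := by
    intro i θ
    simp only [hWa]
    rw [pt_mul]
  -- the two pointwise claims
  have claim1 : ∀ (θ : ℝ) (j : ℕ), 1 ≤ j → (∀ i, j < i → (1 / 2 : ℝ) ^ i * Wa i θ ≤ cc i) →
      Real.exp ((starRingEnd ℂ) t * H (pt r θ)).re ≤
      Real.exp (C₀ * τ) * (Real.exp ((starRingEnd ℂ) t * H (pt (r * rr j) θ)).re * Z j θ) := by
    intro θ j hj hsm
    have h1 := ptw2 D' θ hj (fun i hi => by rw [hMeq]; exact hsm i hi)
    simp only [sub_self, norm_zero, zero_add] at h1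
    rw [hp1, pt_mul] at h1
    simp only [hZ]
    rw [hp1, hpj, ← Real.exp_add, ← Real.exp_add]
    apply Real.exp_le_exp.2
    have h2 : ((starRingEnd ℂ) t * H (pt r θ)).re =
        ((starRingEnd ℂ) t * (H (pt r θ) - e (pt r θ) - (H (pt (r * rr j) θ) - e (pt (r * rr j) θ)))).re +
        (((starRingEnd ℂ) t * H (pt (r * rr j) θ)).re +
          ((starRingEnd ℂ) t * (e (pt r θ) - e (pt (r * rr j) θ))).re) := by
      rw [← add_re, ← add_re]
      congr 1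
      ring
    rw [h2]
    have h3 : ((starRingEnd ℂ) t * (H (pt r θ) - e (pt r θ) - (H (pt (r * rr j) θ) -
        e (pt (r * rr j) θ)))).re ≤ C₀ * τ := by
      refine (re_le_norm _).trans ?_
      rw [norm_mul, RCLike.norm_conj, ← hτ, mul_comm]
      apply mul_le_mul_of_nonneg_right _ hτ0
      rw [hC₀]
      linarith
    linarith
  have claim2 : ∀ (θ : ℝ) (j : ℕ), Real.exp ((starRingEnd ℂ) t * H (pt (r * rr j) θ)).re ≤
      Real.exp (τ * lj r j) := by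
    intro θ j
    apply Real.exp_le_exp.2
    refine (re_le_norm _).trans ?_
    rw [norm_mul, RCLike.norm_conj, ← hτ]
    apply mul_le_mul_of_nonneg_left _ hτ0
    have := goluzin S (hmj j θ)
    rw [norm_pt _ θ (hRj j).1] at this
    exact this
  -- pointwise
  have hpt : ∀ θ, Real.exp ((starRingEnd ℂ) t * H (pt r θ)).re ≤
      Real.exp (C₀ * τ) * (Wb θ * Z j₀ θ) + ∑ j ∈ Finset.Ico j₀ J,
        ((1 / 2 : ℝ) ^ j * Wa j θ / cc j) * (Real.exp (C₀ * τ) * (Real.exp (τ * lj r j) * Z j θ)) := by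
    intro θ
    have hnn : ∀ j ∈ Finset.Ico j₀ J, 0 ≤ ((1 / 2 : ℝ) ^ j * Wa j θ / cc j) *
        (Real.exp (C₀ * τ) * (Real.exp (τ * lj r j) * Z j θ)) := by
      intro j hj
      have h1 := cc_pos (hj₀.trans (Finset.mem_Ico.1 hj).1)
      have h2 := (hWa0 j θ).le
      have h3 := (hZ0 j θ).le
      positivity
    by_cases hex : ∃ j, j ≤ J ∧ (j₀ ≤ j ∧ cc j < (1 / 2 : ℝ) ^ j * Wa j θ)
    · classical
      obtain ⟨j₁, hj₁, hp₁⟩ := hex
      set j := Nat.findGreatest (fun j => j₀ ≤ j ∧ cc j < (1 / 2 : ℝ) ^ j * Wa j θ) J with hjdef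
      have hspec : j₀ ≤ j ∧ cc j < (1 / 2 : ℝ) ^ j * Wa j θ :=
        Nat.findGreatest_spec (P := fun j => j₀ ≤ j ∧ cc j < (1 / 2 : ℝ) ^ j * Wa j θ) hj₁ hp₁
      have hgr : ∀ i, j < i → (1 / 2 : ℝ) ^ i * Wa i θ ≤ cc i := by
        intro i hi
        rcases le_or_gt i J with h | h
        · have := Nat.findGreatest_is_greatest
            (P := fun j => j₀ ≤ j ∧ cc j < (1 / 2 : ℝ) ^ j * Wa j θ) hi h
          by_contra hcon
          exact this ⟨by omega, not_le.1 hcon⟩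
        · have := hJ i h.le θ
          rw [hMeq] at this
          exact this
      have hjJ : j < J := by
        by_contra hcon
        have := hJ j (not_lt.1 hcon) θ
        rw [hMeq] at this
        exact absurd this (not_le.2 hspec.2)
      have hj1 : 1 ≤ j := hj₀.trans hspec.1
      have hcj := cc_pos hj1
      have h1 := claim1 θ j hj1 hgr
      have h2 := claim2 θ j
      have h3 : Real.exp ((starRingEnd ℂ) t * H (pt r θ)).re ≤
          Real.exp (C₀ * τ) * (Real.exp (τ * lj r j) * Z j θ) := by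
        refine h1.trans (mul_le_mul_of_nonneg_left ?_ (Real.exp_pos _).le)
        exact mul_le_mul_of_nonneg_right h2 (hZ0 j θ).le
      have h4 : Real.exp (C₀ * τ) * (Real.exp (τ * lj r j) * Z j θ) ≤
          ((1 / 2 : ℝ) ^ j * Wa j θ / cc j) * (Real.exp (C₀ * τ) * (Real.exp (τ * lj r j) * Z j θ)) := by
        have h5 : 1 ≤ (1 / 2 : ℝ) ^ j * Wa j θ / cc j := by
          rw [one_le_div hcj]
          exact hspec.2.le
        have h6 : 0 ≤ Real.exp (C₀ * τ) * (Real.exp (τ * lj r j) * Z j θ) := by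
          have := (hZ0 j θ).le
          positivity
        have := mul_le_mul_of_nonneg_right h5 h6
        rwa [one_mul] at this
      have h5 := Finset.single_le_sum (f := fun j => ((1 / 2 : ℝ) ^ j * Wa j θ / cc j) *
        (Real.exp (C₀ * τ) * (Real.exp (τ * lj r j) * Z j θ))) hnn
          (Finset.mem_Ico.2 ⟨hspec.1, hjJ⟩)
      have h6 : 0 ≤ Real.exp (C₀ * τ) * (Wb θ * Z j₀ θ) := by
        have := (hZ0 j₀ θ).le
        have h7 : 0 ≤ Wb θ := (Real.exp_pos _).le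
        positivity
      have h7 := h3.trans (h4.trans h5)
      linarith
    · push Not at hex
      have hgr : ∀ i, j₀ < i → (1 / 2 : ℝ) ^ i * Wa i θ ≤ cc i := by
        intro i hi
        rcases le_or_gt i J with h | h
        · exact hex i h (by omega)
        · have := hJ i h.le θ
          rw [hMeq] at this
          exact this
      have h1 := claim1 θ j₀ hj₀ hgr
      have h9 := Finset.sum_nonneg hnn
      show _ ≤ Real.exp (C₀ * τ) * (Real.exp ((starRingEnd ℂ) t * H (pt (r * rr j₀) θ)).re * Z j₀ θ) +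
        ∑ j ∈ Finset.Ico j₀ J, ((1 / 2 : ℝ) ^ j * Wa j θ / cc j) *
        (Real.exp (C₀ * τ) * (Real.exp (τ * lj r j) * Z j θ))
      linarith
  -- integrate
  have cB : Continuous fun θ => Real.exp (C₀ * τ) * (Wb θ * Z j₀ θ) :=
    continuous_const.mul (hWbc.mul (hZc j₀))
  have cT : ∀ j, Continuous fun θ => ((1 / 2 : ℝ) ^ j * Wa j θ / cc j) *
      (Real.exp (C₀ * τ) * (Real.exp (τ * lj r j) * Z j θ)) := fun j =>
    ((continuous_const.mul (hWac j)).div_const _).mul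
      (continuous_const.mul (continuous_const.mul (hZc j)))
  have cS : Continuous fun θ => ∑ j ∈ Finset.Ico j₀ J, ((1 / 2 : ℝ) ^ j * Wa j θ / cc j) *
      (Real.exp (C₀ * τ) * (Real.exp (τ * lj r j) * Z j θ)) :=
    continuous_finsetSum _ fun j _ => cT j
  have hI1 : ∫ θ in (0 : ℝ)..(2 * Real.pi), Real.exp ((starRingEnd ℂ) t * H (pt r θ)).re ≤
      ∫ θ in (0 : ℝ)..(2 * Real.pi), (Real.exp (C₀ * τ) * (Wb θ * Z j₀ θ) +
        ∑ j ∈ Finset.Ico j₀ J, ((1 / 2 : ℝ) ^ j * Wa j θ / cc j) *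
        (Real.exp (C₀ * τ) * (Real.exp (τ * lj r j) * Z j θ))) := by
    apply intervalIntegral.integral_mono_on (by positivity)
    · apply Continuous.intervalIntegrable
      exact Real.continuous_exp.comp (continuous_re.comp (continuous_const.mul
        (hec hr0.le hr1 S.dH)))
    · exact (cB.add cS).intervalIntegrable _ _
    · intro θ _
      exact hpt θ
  rw [intervalIntegral.integral_add (cB.intervalIntegrable _ _) (cS.intervalIntegrable _ _),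
    intervalIntegral.integral_finsetSum (fun j _ => (cT j).intervalIntegrable _ _)] at hI1
  -- the base term
  have hBase : ∫ θ in (0 : ℝ)..(2 * Real.pi), Real.exp (C₀ * τ) * (Wb θ * Z j₀ θ) ≤
      2 * Real.pi * Real.exp (784 + (200 + 10 * A) * τ) * Real.exp E := by
    rw [intervalIntegral.integral_const_mul]
    have hρ : 1 / 2 ≤ rr j₀ := rr_half hj₀
    have h1 := LBb D.de hβ0 he2 hr hr1 hρ (rr_lt j₀)
      (wd_exp (S.dH.const_mul ((starRingEnd ℂ) t)) (hRj j₀).1 (hRj j₀).2)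
      (fun θ => (Real.exp_pos _).le) (D := 96 * τ) (B := 400 + 4 * τ) (by positivity)
      (by nlinarith [sq_nonneg (τ - 92)])
      (fun θ => by rw [hτ]; exact wb S.dH (fun w hw => H_bloch S hw) t (hRj j₀).1 (hRj j₀).2 θ) t
    have h2 := exp_mom S t (r := r * rr j₀) (by
      have : 0 < rr j₀ := by linarith
      positivity) (hRj j₀).2
    rw [← hτ, ← hL] at h1
    rw [← hτ] at h2
    have h3 : ∫ θ in (0 : ℝ)..(2 * Real.pi), Wb θ * Z j₀ θ ≤
        Real.exp (384 + (400 + 4 * τ) + 17 * (β * τ) + β ^ 2 * τ ^ 2 / 4 * (L - lj r j₀)) *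
          (2 * Real.pi * Real.exp (4 * τ ^ 2 * lj r j₀)) :=
      h1.trans (mul_le_mul_of_nonneg_left h2 (Real.exp_pos _).le)
    refine (mul_le_mul_of_nonneg_left h3 (Real.exp_pos _).le).trans ?_
    have e1 : Real.exp (C₀ * τ) * (Real.exp (384 + (400 + 4 * τ) + 17 * (β * τ) + β ^ 2 * τ ^ 2 / 4 * (L - lj r j₀)) *
          (2 * Real.pi * Real.exp (4 * τ ^ 2 * lj r j₀))) =
        2 * Real.pi * (Real.exp (C₀ * τ) * Real.exp (384 + (400 + 4 * τ) + 17 * (β * τ) +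
          β ^ 2 * τ ^ 2 / 4 * (L - lj r j₀)) * Real.exp (4 * τ ^ 2 * lj r j₀)) := by ring
    rw [e1, mul_assoc (2 * Real.pi), ← Real.exp_add, ← Real.exp_add, ← Real.exp_add]
    apply mul_le_mul_of_nonneg_left _ (by positivity)
    apply Real.exp_le_exp.2
    rw [hC₀]
    linarith
  -- the other terms
  have hT : ∀ j ∈ Finset.Ico j₀ J, ∫ θ in (0 : ℝ)..(2 * Real.pi),
      ((1 / 2 : ℝ) ^ j * Wa j θ / cc j) * (Real.exp (C₀ * τ) * (Real.exp (τ * lj r j) * Z j θ)) ≤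
      (2 * Real.pi * Real.exp (784 + (200 + 10 * A) * τ) * Real.exp E * ξ) *
        (((j : ℝ) * (j + 1)) * v ^ j) := by
    intro j hj
    have hjj := (Finset.mem_Ico.1 hj).1
    have hj1 : 1 ≤ j := hj₀.trans hjj
    have hj0 : (0 : ℝ) < j := by exact_mod_cast hj1
    have hρ : 1 / 2 ≤ rr j := rr_half hj1
    have h1 := LBb D.de hβ0 he2 hr hr1 hρ (rr_lt j) (wd_re D.dP (hRj j).1 (hRj j).2)
      (fun θ => (hWa0 j θ).le) (D := 192) (B := 112) (by norm_num) (by norm_num)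
      (fun θ => wa D.dP D.pP (hRj j).1 (hRj j).2 θ) t
    rw [← hτ, ← hL] at h1
    have h2 : ∫ θ in (0 : ℝ)..(2 * Real.pi), (P (pt (r * rr j) θ)).re ≤ 2 * Real.pi * K := by
      have a1 := mean_re D'.R D'.dP (rr_nonneg j) (rr_lt j).le
      simp only [pt_mul, mul_zero] at a1
      rw [a1]
      have a2 : (P 0).re ≤ K := (re_le_norm _).trans D.P0
      gcongr
    have h3 : ∫ θ in (0 : ℝ)..(2 * Real.pi), Wa j θ * Z j θ ≤
        Real.exp (384 + 112 + 17 * (β * τ) + β ^ 2 * τ ^ 2 / 4 * (L - lj r j)) * (2 * Real.pi * K) :=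
      h1.trans (mul_le_mul_of_nonneg_left h2 (Real.exp_pos _).le)
    have e1 : ∫ θ in (0 : ℝ)..(2 * Real.pi), ((1 / 2 : ℝ) ^ j * Wa j θ / cc j) *
        (Real.exp (C₀ * τ) * (Real.exp (τ * lj r j) * Z j θ)) =
        ((1 / 2 : ℝ) ^ j * ((j : ℝ) * (j + 1)) * (Real.exp (C₀ * τ) * Real.exp (τ * lj r j))) *
          ∫ θ in (0 : ℝ)..(2 * Real.pi), Wa j θ * Z j θ := by
      rw [← intervalIntegral.integral_const_mul]
      refine intervalIntegral.integral_congr fun θ _ => ?_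
      simp only [cc]
      field_simp
    rw [e1]
    refine (mul_le_mul_of_nonneg_left h3 (by positivity)).trans ?_
    have h4 := hterm j hjj
    have e2 : (1 / 2 : ℝ) ^ j * ((j : ℝ) * (j + 1)) * (Real.exp (C₀ * τ) * Real.exp (τ * lj r j)) *
        (Real.exp (384 + 112 + 17 * (β * τ) + β ^ 2 * τ ^ 2 / 4 * (L - lj r j)) * (2 * Real.pi * K)) =
        (2 * Real.pi * ((j : ℝ) * (j + 1)) * Real.exp (C₀ * τ + (384 + 112 + 17 * (β * τ)))) *
          (K * (1 / 2) ^ j * Real.exp (τ * lj r j + β ^ 2 * τ ^ 2 / 4 * (L - lj r j))) := by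
      rw [Real.exp_add (C₀ * τ), Real.exp_add (τ * lj r j), Real.exp_add (384 + 112 + 17 * (β * τ))]
      ring
    rw [e2]
    refine (mul_le_mul_of_nonneg_left h4 (by positivity)).trans ?_
    have h5 : Real.exp (C₀ * τ + (384 + 112 + 17 * (β * τ))) ≤ Real.exp (784 + (200 + 10 * A) * τ) := by
      apply Real.exp_le_exp.2
      rw [hC₀]
      linarith
    calc 2 * Real.pi * ((j : ℝ) * (j + 1)) * Real.exp (C₀ * τ + (384 + 112 + 17 * (β * τ))) *
          (ξ * v ^ j * Real.exp E)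
        = (2 * Real.pi * ((j : ℝ) * (j + 1)) * (ξ * v ^ j * Real.exp E)) *
          Real.exp (C₀ * τ + (384 + 112 + 17 * (β * τ))) := by ring
      _ ≤ (2 * Real.pi * ((j : ℝ) * (j + 1)) * (ξ * v ^ j * Real.exp E)) *
          Real.exp (784 + (200 + 10 * A) * τ) := by
          apply mul_le_mul_of_nonneg_left h5
          positivity
      _ = _ := by ring
  have hS := Finset.sum_le_sum hT
  rw [← Finset.mul_sum] at hS
  have hS2 : ∑ j ∈ Finset.Ico j₀ J, ((j : ℝ) * (j + 1)) * v ^ j ≤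
      ∑' j : ℕ, ((j : ℝ) * (j + 1)) * v ^ j :=
    hsum.sum_le_tsum _ (fun j _ => by positivity)
  have hS3 := mul_le_mul_of_nonneg_left hS2
    (by positivity : 0 ≤ 2 * Real.pi * Real.exp (784 + (200 + 10 * A) * τ) * Real.exp E * ξ)
  refine hI1.trans ((add_le_add hBase (hS.trans hS3)).trans (le_of_eq ?_))
  ring

end Pool.Agent.W677.Mar
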