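import Pool.Agent.W677.MarQ
import Pool.Agent.W677.MarGa

set_option autoImplicit false

/-! # The critical Bloch norm: disc version -/

namespace Pool.Agent.W677.Mar

open Complex Metric Set Filter Topology MeasureTheory

theorem lj_le {r : ℝ} (hr0 : 0 ≤ r) (hr1 : r < 1) (j : ℕ) : lj r j ≤ j * Real.log 2 := by
  have h0 := rr_nonneg j
  have h1 := rr_lt j
  rw [← neg_log_rr]
  unfold lj lam
  apply neg_le_neg
  apply Real.log_le_log (by linarith)
  have h2 : r * rr j ≤ rr j := by nlinarith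
  have h3 : (r * rr j) ^ 2 ≤ rr j ^ 2 := pow_le_pow_left₀ (mul_nonneg hr0 h0) h2 2
  nlinarith

theorem lj_le_L {r : ℝ} (hr0 : 0 ≤ r) (hr1 : r < 1) (j : ℕ) : lj r j ≤ lam (r ^ 2) := by
  have h0 := rr_nonneg j
  have h1 := rr_lt j
  unfold lj lam
  apply neg_le_neg
  have h2 : r * rr j ≤ r := by nlinarith
  have h3 : (r * rr j) ^ 2 ≤ r ^ 2 := pow_le_pow_left₀ (mul_nonneg hr0 h0) h2 2
  have h4 : r ^ 2 < 1 := pow_lt_one₀ hr0 hr1 two_ne_zero
  apply Real.log_le_log (by linarith)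
  linarith

theorem lj_nonneg {r : ℝ} (hr0 : 0 ≤ r) (hr1 : r < 1) (j : ℕ) : 0 ≤ lj r j := by
  have h0 := rr_nonneg j
  have h1 := rr_lt j
  unfold lj
  apply lam_nonneg (by positivity)
  have h2 : r * rr j ≤ r := by nlinarith
  exact pow_lt_one₀ (mul_nonneg hr0 h0) (by linarith) two_ne_zero

theorem log6 : Real.log 2 + Real.log 3 ≤ 2 := by
  rw [← Real.log_mul (by norm_num) (by norm_num)]
  have h1 : (2 : ℝ) * 3 ≤ Real.exp 2 := by
    have h2 := Real.exp_one_gt_d9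
    have h3 : Real.exp 2 = Real.exp 1 * Real.exp 1 := by
      rw [← Real.exp_add]
      norm_num
    rw [h3]
    nlinarith
  have h4 := Real.log_le_log (by norm_num) h1
  rwa [Real.log_exp] at h4

theorem lj_ge {r : ℝ} (hr0 : 0 ≤ r) (hr1 : r < 1) {j₀ j : ℕ} (hj : j₀ ≤ j)
    (hL : (j₀ : ℝ) * Real.log 2 ≤ lam (r ^ 2)) : (j₀ : ℝ) * Real.log 2 - Real.log 3 ≤ lj r j := by
  have h0 := rr_nonneg j
  have h1 := rr_lt j
  have h4 : r ^ 2 < 1 := pow_lt_one₀ hr0 hr1 two_ne_zero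
  obtain ⟨u, hu⟩ : ∃ u, u = (1 / 2 : ℝ) ^ j₀ := ⟨_, rfl⟩
  have hu0 : 0 < u := by rw [hu]; positivity
  have hlu : Real.log u = -(j₀ * Real.log 2) := by
    rw [hu, Real.log_pow, one_div, Real.log_inv]
    ring
  have h5 : 1 - r ^ 2 ≤ u := by
    unfold lam at hL
    rw [← Real.log_le_log_iff (by linarith) hu0, hlu]
    linarith
  have h6 : 1 - rr j ≤ u := by
    rw [one_sub_rr, hu]
    exact pow_le_pow_of_le_one (by norm_num) (by norm_num) hj
  have h7 : 1 - (r * rr j) ^ 2 ≤ 3 * u := by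
    have e : 1 - (r * rr j) ^ 2 = (1 - r ^ 2) + r ^ 2 * ((1 - rr j) * (1 + rr j)) := by ring
    rw [e]
    have h8 : (1 - rr j) * (1 + rr j) ≤ u * 2 := by
      apply mul_le_mul h6 (by linarith) (by linarith) hu0.le
    have h9 : 0 ≤ (1 - rr j) * (1 + rr j) := mul_nonneg (by linarith) (by linarith)
    have h10 : r ^ 2 * ((1 - rr j) * (1 + rr j)) ≤ 1 * ((1 - rr j) * (1 + rr j)) :=
      mul_le_mul_of_nonneg_right h4.le h9
    linarith
  have h8 : 0 < 1 - (r * rr j) ^ 2 := by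
    have h2 : r * rr j ≤ r := by nlinarith
    have h3 : (r * rr j) ^ 2 < 1 := pow_lt_one₀ (mul_nonneg hr0 h0) (by linarith) two_ne_zero
    linarith
  have h9 := Real.log_le_log h8 h7
  rw [Real.log_mul (by norm_num) hu0.ne', hlu] at h9
  unfold lj lam
  linarith

/-- the quadratic inequality -/
theorem quad {s B δ η x σ τ : ℝ} (hs0 : 0 < s) (hs1 : s ≤ 1) (hB1 : 1 ≤ B) (hB : B < 16)
    (hδ0 : 0 < δ) (hδ : δ ≤ 1 / 3) (hη : η = δ * (s * (16 - B)) / 32)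
    (hx0 : 0 ≤ x) (hx : x ≤ 15 / 16 * s * (1 - 2 * δ)) (hσ0 : s * (1 - δ) ≤ σ) (hσ1 : σ ≤ 1) :
    x - (1 - η) * σ + τ * σ + B * τ ^ 2 / 4 * (1 - σ) ≤ (B + s * (16 - B)) / 4 * τ ^ 2 := by
  obtain ⟨N, hN⟩ : ∃ N, N = 16 - B := ⟨_, rfl⟩
  rw [← hN] at hη ⊢
  have hN0 : 0 < N := by linarith
  have hη0 : 0 ≤ η := by rw [hη]; positivity
  have hσs : 0 < s * (1 - δ) := mul_pos hs0 (by linarith)
  have hσp : 0 < σ := lt_of_lt_of_le hσs hσ0
  obtain ⟨c, hc⟩ : ∃ c, c = (B - 1) * (s * (1 - δ)) + s * N * (1 - δ / 2) - x * B := ⟨_, rfl⟩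
  -- the value at the left end
  have hc1 : 0 ≤ s * (1 - δ) * c - x * (s * N) := by
    have e1 : s * (1 - δ) * c - x * (s * N) =
        s * ((1 - δ) * (s * ((B - 1) * (1 - δ) + N * (1 - δ / 2))) - x * (16 - δ * B)) := by
      rw [hc, hN]
      ring
    rw [e1]
    apply mul_nonneg hs0.le
    have h1 : x * (16 - δ * B) ≤ 15 / 16 * s * (1 - 2 * δ) * (16 - δ * B) := by
      apply mul_le_mul_of_nonneg_right hx
      nlinarith
    have h2 : 15 / 16 * s * (1 - 2 * δ) * (16 - δ * B) ≤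
        (1 - δ) * (s * ((B - 1) * (1 - δ) + N * (1 - δ / 2))) := by
      have e2 : (1 - δ) * (s * ((B - 1) * (1 - δ) + N * (1 - δ / 2))) -
          15 / 16 * s * (1 - 2 * δ) * (16 - δ * B) =
          s * δ * (8 + 7 / 16 * B + 7 * δ - 11 / 8 * (δ * B)) := by
        rw [hN]
        ring
      have h3 : δ * B ≤ 1 / 3 * B := mul_le_mul_of_nonneg_right hδ (by linarith)
      have h4 : 0 ≤ s * δ * (8 + 7 / 16 * B + 7 * δ - 11 / 8 * (δ * B)) := by
        apply mul_nonneg (by positivity)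
        linarith
      linarith
    linarith
  have hc0 : 0 ≤ c := by
    have h1 : 0 ≤ x * (s * N) := by positivity
    have h2 : 0 ≤ s * (1 - δ) * c := by linarith
    exact nonneg_of_mul_nonneg_right h2 hσs
  have hg : 0 ≤ ((1 - η) * σ - x) * (s * N + B * σ) - σ ^ 2 := by
    have h1 : σ * c - x * (s * N) ≤ ((1 - η) * σ - x) * (s * N + B * σ) - σ ^ 2 := by
      have h2 : η * (s * N + B * σ) ≤ δ * (s * N) / 2 := by
        have h3 : s * N + B * σ ≤ 16 := by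
          have h4 : s * N ≤ 1 * N := mul_le_mul_of_nonneg_right hs1 hN0.le
          have h5 : B * σ ≤ B * 1 := mul_le_mul_of_nonneg_left hσ1 (by linarith)
          linarith
        have h4 := mul_le_mul_of_nonneg_left h3 hη0
        rw [hη] at h4 ⊢
        linarith
      have h3 := mul_le_mul_of_nonneg_left h2 hσp.le
      have h4 : 0 ≤ (B - 1) * σ * (σ - s * (1 - δ)) :=
        mul_nonneg (mul_nonneg (by linarith) hσp.le) (by linarith)
      have e3 : ((1 - η) * σ - x) * (s * N + B * σ) - σ ^ 2 - (σ * c - x * (s * N)) =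
          (B - 1) * σ * (σ - s * (1 - δ)) + (σ * (δ * (s * N) / 2) - σ * (η * (s * N + B * σ))) := by
        rw [hc]
        ring
      linarith
    have h2 : s * (1 - δ) * c ≤ σ * c := mul_le_mul_of_nonneg_right hσ0 hc0
    linarith
  have hpos : 0 < s * N + B * σ := by positivity
  have key : 0 ≤ (s * N + B * σ) * (τ ^ 2 / 4 * (s * N + B * σ) - τ * σ + (1 - η) * σ - x) := by
    have e : (s * N + B * σ) * (τ ^ 2 / 4 * (s * N + B * σ) - τ * σ + (1 - η) * σ - x) =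
        (τ * (s * N + B * σ) / 2 - σ) ^ 2 + (((1 - η) * σ - x) * (s * N + B * σ) - σ ^ 2) := by ring
    rw [e]
    positivity
  have h1 := nonneg_of_mul_nonneg_right key hpos
  nlinarith

/-- Gaussian average of a bound with a linear term -/
theorem gauss_lin {h : ℝ → ℂ} (hc : Continuous h) {M : ℝ} (hM : ∀ θ, ‖h θ‖ ≤ M) {b β C₁ C₂ : ℝ}
    (hb : 0 < b) (hβ : β < b) (hC₂ : 0 ≤ C₂)
    (hB : ∀ t, ∫ θ in (0 : ℝ)..(2 * Real.pi), Real.exp ((starRingEnd ℂ) t * h θ).re ≤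
      2 * Real.pi * (C₁ * Real.exp (C₂ * ‖t‖) * Real.exp (β * ‖t‖ ^ 2))) (hC₁ : 0 ≤ C₁) :
    ∫ θ in (0 : ℝ)..(2 * Real.pi), Real.exp (‖h θ‖ ^ 2 / (4 * b)) ≤
      2 * Real.pi * (C₁ * Real.exp (C₂ ^ 2 / (2 * (b - β))) * (2 * (b / (b - β)))) := by
  have hpi := Real.pi_pos
  obtain ⟨c, hcc⟩ : ∃ c, c = b - β := ⟨_, rfl⟩
  have hc0 : 0 < c := by rw [hcc]; linarith
  rw [← hcc]
  obtain ⟨M₁, hM₁⟩ : ∃ M₁, M₁ = 2 * Real.pi * (C₁ * Real.exp (C₂ ^ 2 / (2 * c))) := ⟨_, rfl⟩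
  have hM₁0 : 0 ≤ M₁ := by rw [hM₁]; positivity
  have hB2 : ∀ t, ∫ θ in (0 : ℝ)..(2 * Real.pi), Real.exp ((starRingEnd ℂ) t * h θ).re ≤
      M₁ * Real.exp ((β + c / 2) * ‖t‖ ^ 2) := by
    intro t
    refine (hB t).trans ?_
    have e1 : 2 * Real.pi * (C₁ * Real.exp (C₂ * ‖t‖) * Real.exp (β * ‖t‖ ^ 2)) =
        2 * Real.pi * C₁ * Real.exp (C₂ * ‖t‖ + β * ‖t‖ ^ 2) := by
      rw [Real.exp_add]
      ring
    have e2 : M₁ * Real.exp ((β + c / 2) * ‖t‖ ^ 2) =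
        2 * Real.pi * C₁ * Real.exp (C₂ ^ 2 / (2 * c) + (β + c / 2) * ‖t‖ ^ 2) := by
      rw [hM₁, Real.exp_add]
      ring
    rw [e1, e2]
    apply mul_le_mul_of_nonneg_left _ (by positivity)
    apply Real.exp_le_exp.2
    have h3 : 0 ≤ (c * ‖t‖ - C₂) ^ 2 / (2 * c) := by positivity
    have h4 : (c * ‖t‖ - C₂) ^ 2 / (2 * c) = c / 2 * ‖t‖ ^ 2 - C₂ * ‖t‖ + C₂ ^ 2 / (2 * c) := by
      field_simp
      ring
    rw [h4] at h3
    linarith
  have e3 : (fun t : ℂ => Real.exp (-b * ‖t‖ ^ 2) * (M₁ * Real.exp ((β + c / 2) * ‖t‖ ^ 2))) =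
      fun t : ℂ => M₁ * Real.exp (-(c / 2) * ‖t‖ ^ 2) := by
    funext t
    have : Real.exp (-(c / 2) * ‖t‖ ^ 2) =
        Real.exp (-b * ‖t‖ ^ 2) * Real.exp ((β + c / 2) * ‖t‖ ^ 2) := by
      rw [← Real.exp_add]
      congr 1
      rw [hcc]
      ring
    rw [this]
    ring
  have hg := gauss0 (by linarith : 0 < c / 2)
  have h1 := gauss_avg hc hM hb hB2 (by
    rw [e3]
    exact hg.1.const_mul _)
  rw [e3, integral_const_mul, hg.2] at h1
  refine h1.trans (le_of_eq ?_)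
  rw [hM₁]
  field_simp

end Pool.Agent.W677.Mar
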