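import Pool.Agent.W677.MarR

set_option autoImplicit false

/-! # The critical Bloch norm: disc version -/

namespace Pool.Agent.W677.Mar

open Complex Metric Set Filter Topology MeasureTheory

theorem summ {v : ℝ} (h0 : 0 ≤ v) (h1 : v < 1) :
    Summable fun j : ℕ => ((j : ℝ) * (j + 1)) * v ^ j := by
  have hv : ‖v‖ < 1 := by rw [Real.norm_of_nonneg h0]; exact h1
  have s1 := summable_pow_mul_geometric_of_norm_lt_one 1 hv
  have s2 := summable_pow_mul_geometric_of_norm_lt_one 2 hv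
  refine (s2.add s1).congr fun j => ?_
  ring

/-- **the main theorem with a Bloch part of norm one, disc version** -/
theorem main_disc2 (a A β x : ℝ) (ha : 1 / 16 ≤ a) (hβ1 : 1 ≤ β) (haβ : a * β ^ 2 < 1) (hA : 0 ≤ A)
    (hx0 : 0 ≤ x) (hx : 16 * a * (16 - β ^ 2) * x < 15 * (1 - a * β ^ 2)) : ∃ C : ℝ,
    ∀ (Y H Q P b e : ℂ → ℂ) (K r : ℝ), 0 < r → r < 1 → Sg Y H →
      DC K A β H Q P (fun _ => 0) b e 0 →
      (∀ w ∈ ball (0 : ℂ) 1, ‖deriv e w‖ * (1 - ‖w‖ ^ 2) ≤ β) →
      K ≤ (A + 1) * Real.exp (x * lam (r ^ 2)) →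
      ∫ θ in (0 : ℝ)..(2 * Real.pi), Real.exp (a * ‖H (pt r θ)‖ ^ 2 / lam (r ^ 2)) ≤ C := by
  have hpi := Real.pi_pos
  have hlog2 : 0 < Real.log 2 := Real.log_pos (by norm_num)
  have hlog21 : Real.log 2 < 1 := by
    have := Real.log_two_lt_d9
    linarith
  have ha0 : 0 < a := by linarith
  obtain ⟨B, hBβ⟩ : ∃ B, B = β ^ 2 := ⟨_, rfl⟩
  rw [← hBβ] at haβ hx
  have hB1 : 1 ≤ B := by rw [hBβ]; exact one_le_pow₀ hβ1
  have ha1 : a < 1 := by
    have h1 : a * 1 ≤ a * B := mul_le_mul_of_nonneg_left hB1 ha0.le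
    linarith
  have hB16 : B < 16 := by
    have h1 : 1 / 16 * B ≤ a * B := mul_le_mul_of_nonneg_right ha (by linarith)
    linarith
  have hβ4 : β ≤ 4 := by
    have h5 : β ^ 2 < 4 ^ 2 := by rw [← hBβ]; linarith
    exact (lt_of_pow_lt_pow_left₀ 2 (by norm_num) h5).le
  have hβ0 : 0 < β := by linarith
  obtain ⟨N, hN⟩ : ∃ N, N = 16 - B := ⟨_, rfl⟩
  have hN0 : 0 < N := by linarith
  rw [← hN] at hx
  obtain ⟨D, hD⟩ : ∃ D, D = (1 - a * B) / a := ⟨_, rfl⟩
  have hD0 : 0 < D := by rw [hD]; exact div_pos (by linarith) ha0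
  have hDN : D ≤ N := by
    rw [hD, div_le_iff₀ ha0, hN]
    linarith
  have hxD : 16 * N * x < 15 * D := by
    have : 15 * D = 15 * (1 - a * B) / a := by rw [hD]; ring
    rw [this, lt_div_iff₀ ha0]
    linarith
  obtain ⟨δ, hδ⟩ : ∃ δ, δ = (1 - 16 * N * x / (15 * D)) / 3 := ⟨_, rfl⟩
  have hδ0 : 0 < δ := by
    rw [hδ]
    have : 16 * N * x / (15 * D) < 1 := by rw [div_lt_one (by positivity)]; exact hxD
    linarith
  have hδ3 : δ ≤ 1 / 3 := by
    rw [hδ]
    have : 0 ≤ 16 * N * x / (15 * D) := by positivity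
    linarith
  have hxδ : x = 15 / 16 * (D / N) * (1 - 3 * δ) := by
    rw [hδ]
    field_simp
    ring
  obtain ⟨s, hs⟩ : ∃ s, s = D / N * (1 - δ) := ⟨_, rfl⟩
  have hs0 : 0 < s := by rw [hs]; exact mul_pos (by positivity) (by linarith)
  have hDN1 : D / N ≤ 1 := by rw [div_le_one hN0]; exact hDN
  have hs1 : s ≤ 1 := by
    rw [hs]
    have h1 : D / N * (1 - δ) ≤ 1 * (1 - δ) := mul_le_mul_of_nonneg_right hDN1 (by linarith)
    linarith
  have hsN : s * N = D * (1 - δ) := by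
    rw [hs]
    field_simp
  have hxs : x ≤ 15 / 16 * s * (1 - 2 * δ) := by
    rw [hxδ, hs]
    have h1 : 0 ≤ 15 / 16 * (D / N) * (2 * δ ^ 2) := by positivity
    have h2 : 15 / 16 * (D / N * (1 - δ)) * (1 - 2 * δ) =
        15 / 16 * (D / N) * (1 - 3 * δ) + 15 / 16 * (D / N) * (2 * δ ^ 2) := by ring
    rw [h2]
    linarith
  obtain ⟨η, hη⟩ : ∃ η, η = δ * (s * (16 - B)) / 32 := ⟨_, rfl⟩
  have hη0 : 0 < η := by rw [hη, ← hN]; positivity
  have hη1 : η ≤ 1 := by
    rw [hη, ← hN]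
    have h1 : s * N ≤ 1 * 15 := mul_le_mul hs1 (by linarith) hN0.le (by norm_num)
    have : δ * (s * N) ≤ 1 / 3 * (1 * 15) := mul_le_mul hδ3 h1 (by positivity) (by norm_num)
    linarith
  obtain ⟨v, hv⟩ : ∃ v, v = Real.exp (-(η * Real.log 2)) := ⟨_, rfl⟩
  have hv0 : 0 ≤ v := by rw [hv]; positivity
  have hv1 : v < 1 := by
    rw [hv, Real.exp_lt_one_iff]
    have := mul_pos hη0 hlog2
    linarith
  have hsum := summ hv0 hv1
  obtain ⟨W₀, hW⟩ : ∃ W₀ : ℝ, W₀ = ∑' j : ℕ, ((j : ℝ) * (j + 1)) * v ^ j := ⟨_, rfl⟩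
  have hW0 : 0 ≤ W₀ := by
    rw [hW]
    exact tsum_nonneg fun j => by positivity
  obtain ⟨C₂, hC₂⟩ : ∃ C₂, C₂ = 200 + 10 * A := ⟨_, rfl⟩
  have hC₂0 : 0 ≤ C₂ := by rw [hC₂]; positivity
  obtain ⟨C₁, hC₁⟩ : ∃ C₁, C₁ = Real.exp 784 * (1 + (A + 1) * W₀) := ⟨_, rfl⟩
  have hC₁0 : 0 ≤ C₁ := by rw [hC₁]; positivity
  obtain ⟨L₀, hL₀⟩ : ∃ L₀, L₀ = 2 / (s * δ) := ⟨_, rfl⟩
  have hDδ : 0 < s * δ := mul_pos hs0 hδ0
  have hL₀0 : 0 < L₀ := by rw [hL₀]; positivity
  have hL₀1 : 1 ≤ L₀ := by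
    rw [hL₀, le_div_iff₀ hDδ]
    have : s * δ ≤ 1 * (1 / 3) := mul_le_mul hs1 hδ3 hδ0.le (by norm_num)
    linarith
  have haB0 : 0 < 1 - a * B := by linarith
  refine ⟨2 * Real.pi * Real.exp L₀ + 2 * Real.pi * (C₁ * Real.exp (C₂ ^ 2 / N) *
    (2 * (1 / ((1 - a * B) * δ)))), ?_⟩
  intro Y H Q P b e K r hr0 hr1 S DD he2 hK
  have hr2 : r ^ 2 < 1 := pow_lt_one₀ hr0.le hr1 two_ne_zero
  have hr20 : 0 < r ^ 2 := by positivity
  obtain ⟨L, hL⟩ : ∃ L, L = lam (r ^ 2) := ⟨_, rfl⟩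
  have hL0 : 0 < L := hL ▸ lam_pos hr20 hr2
  rw [← hL] at hK ⊢
  have hHL : ∀ θ, ‖H (pt r θ)‖ ≤ L := by
    intro θ
    have := goluzin S (pt_mem hr0.le hr1 θ)
    rw [norm_pt r θ hr0.le] at this
    rw [hL]
    exact this
  have hHc : Continuous fun θ => H (pt r θ) := cont_circ S.dH hr0.le hr1
  have hadd0 : 0 ≤ 2 * Real.pi * (C₁ * Real.exp (C₂ ^ 2 / N) * (2 * (1 / ((1 - a * B) * δ)))) := by
    positivity
  rcases lt_or_ge L L₀ with hLL | hLL
  · -- trivial case
    have h1 : ∫ θ in (0 : ℝ)..(2 * Real.pi), Real.exp (a * ‖H (pt r θ)‖ ^ 2 / L) ≤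
        ∫ θ in (0 : ℝ)..(2 * Real.pi), Real.exp L₀ := by
      apply intervalIntegral.integral_mono_on (by positivity)
      · apply Continuous.intervalIntegrable
        exact Real.continuous_exp.comp ((continuous_const.mul (hHc.norm.pow 2)).div_const L)
      · exact continuous_const.intervalIntegrable _ _
      · intro θ _
        apply Real.exp_le_exp.2
        rw [div_le_iff₀ hL0]
        have h2 := hHL θ
        have h3 : ‖H (pt r θ)‖ ^ 2 ≤ L ^ 2 := pow_le_pow_left₀ (norm_nonneg _) h2 2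
        have h4 : a * ‖H (pt r θ)‖ ^ 2 ≤ 1 * ‖H (pt r θ)‖ ^ 2 :=
          mul_le_mul_of_nonneg_right ha1.le (by positivity)
        have h5 : L ^ 2 ≤ L₀ * L := by
          rw [sq]
          exact mul_le_mul_of_nonneg_right hLL.le hL0.le
        linarith
    rw [intervalIntegral.integral_const, sub_zero, smul_eq_mul] at h1
    linarith
  · -- the radius is at least `1 / 2`
    have hrh : 1 / 2 ≤ r := by
      by_contra hcon
      push Not at hcon
      have h1 : L ≤ Real.log 2 := by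
        rw [hL]
        unfold lam
        have h2 : (1 / 2 : ℝ) ≤ 1 - r ^ 2 := by
          have h5 : r ^ 2 ≤ (1 / 2) ^ 2 := pow_le_pow_left₀ hr0.le hcon.le 2
          norm_num at h5
          linarith
        have h3 := Real.log_le_log (by norm_num) h2
        rw [one_div, Real.log_inv] at h3
        linarith
      linarith
    -- the first scale
    have hLD : 2 ≤ s * δ * L := by
      have : 2 / (s * δ) ≤ L := by rw [← hL₀]; exact hLL
      rw [div_le_iff₀ hDδ] at this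
      linarith
    have hsL : Real.log 2 ≤ s * L := by
      have h1 : s * δ * L ≤ s * 1 * L := by
        apply mul_le_mul_of_nonneg_right _ hL0.le
        apply mul_le_mul_of_nonneg_left (by linarith) (by positivity)
      linarith
    obtain ⟨j₀, hj₀⟩ : ∃ j₀, j₀ = ⌊s * L / Real.log 2⌋₊ := ⟨_, rfl⟩
    have hj1 : 1 ≤ j₀ := by
      rw [hj₀, Nat.one_le_floor_iff, le_div_iff₀ hlog2]
      linarith
    have hjhi : (j₀ : ℝ) * Real.log 2 ≤ s * L := by
      have := Nat.floor_le (by positivity : 0 ≤ s * L / Real.log 2)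
      rw [← hj₀, le_div_iff₀ hlog2] at this
      exact this
    have hjlo : s * L - Real.log 2 ≤ j₀ * Real.log 2 := by
      have h1 := Nat.lt_floor_add_one (s * L / Real.log 2)
      rw [← hj₀, div_lt_iff₀ hlog2] at h1
      linarith
    have hjL : (j₀ : ℝ) * Real.log 2 ≤ lam (r ^ 2) := by
      rw [← hL]
      have : s * L ≤ 1 * L := mul_le_mul_of_nonneg_right hs1 hL0.le
      linarith
    have hK0 : 0 ≤ K := (norm_nonneg _).trans DD.P0
    -- the moments
    have hmom : ∀ t : ℂ, ∫ θ in (0 : ℝ)..(2 * Real.pi), Real.exp ((starRingEnd ℂ) t * H (pt r θ)).re ≤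
        2 * Real.pi * (C₁ * Real.exp (C₂ * ‖t‖) * Real.exp ((B + s * N) * L / 4 * ‖t‖ ^ 2)) := by
      intro t
      obtain ⟨τ, hτ⟩ : ∃ τ, τ = ‖t‖ := ⟨_, rfl⟩
      have h1 := mom2 S DD hA hK0 hβ0 hβ4 he2 hrh hr1 hj1 t (ξ := A + 1) (E := (B + s * N) * L / 4 * ‖t‖ ^ 2)
        (v := v) hv0 (by
          rw [← hL, ← hτ, ← hBβ]
          have h2 := lj_le hr0.le hr1 j₀
          have h3 : N * lj r j₀ ≤ N * (s * L) := mul_le_mul_of_nonneg_left (by linarith) hN0.le
          have h4 := mul_le_mul_of_nonneg_left h3 (by positivity : 0 ≤ τ ^ 2 / 4)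
          rw [hN] at h4 ⊢
          linarith) (by
          intro j hj
          rw [← hL, ← hτ, ← hBβ]
          obtain ⟨l, hl⟩ : ∃ l, l = lj r j := ⟨_, rfl⟩
          have h2 := lj_le hr0.le hr1 j
          have h3 := lj_le_L hr0.le hr1 j
          have h4 := lj_ge hr0.le hr1 hj hjL
          rw [← hL] at h3
          rw [← hl] at h2 h3 h4 ⊢
          have h5 := log6
          have h6 : s * (1 - δ) * L ≤ l := by linarith
          obtain ⟨σ, hσ⟩ : ∃ σ, σ = l / L := ⟨_, rfl⟩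
          have hlσ : l = σ * L := by rw [hσ]; field_simp
          have hσ0 : s * (1 - δ) ≤ σ := by rw [hσ, le_div_iff₀ hL0]; exact h6
          have hσ1 : σ ≤ 1 := by rw [hσ, div_le_one hL0]; exact h3
          have h7 := quad (τ := τ) hs0 hs1 hB1 hB16 hδ0 hδ3 hη hx0 hxs hσ0 hσ1
          rw [← hN] at h7
          have h8 := mul_le_mul_of_nonneg_right h7 hL0.le
          -- the factor `(1 / 2) ^ j`
          have h9 : (1 / 2 : ℝ) ^ j ≤ v ^ j * Real.exp (-((1 - η) * l)) := by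
            have e1 : (1 / 2 : ℝ) ^ j = Real.exp (-(j * Real.log 2)) := by
              rw [← Real.log_rpow (by norm_num), Real.exp_neg, Real.exp_log (by positivity),
                Real.rpow_natCast, one_div, inv_pow]
            have e2 : v ^ j = Real.exp (-(η * (j * Real.log 2))) := by
              rw [hv, ← Real.exp_nat_mul]
              congr 1
              ring
            rw [e1, e2, ← Real.exp_add]
            apply Real.exp_le_exp.2
            have := mul_le_mul_of_nonneg_left h2 (by linarith : 0 ≤ 1 - η)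
            linarith
          calc K * (1 / 2) ^ j * Real.exp (τ * l + B * τ ^ 2 / 4 * (L - l))
              ≤ ((A + 1) * Real.exp (x * L)) * (v ^ j * Real.exp (-((1 - η) * l))) *
                Real.exp (τ * l + B * τ ^ 2 / 4 * (L - l)) := by
                apply mul_le_mul_of_nonneg_right _ (Real.exp_pos _).le
                exact mul_le_mul hK h9 (by positivity) (by positivity)
            _ = (A + 1) * v ^ j * Real.exp (x * L + -((1 - η) * l) +
                (τ * l + B * τ ^ 2 / 4 * (L - l))) := by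
                rw [Real.exp_add (x * L + -((1 - η) * l)) (τ * l + B * τ ^ 2 / 4 * (L - l)),
                  Real.exp_add (x * L)]
                ring
            _ ≤ (A + 1) * v ^ j * Real.exp ((B + s * N) * L / 4 * τ ^ 2) := by
                apply mul_le_mul_of_nonneg_left _ (by positivity)
                apply Real.exp_le_exp.2
                rw [hlσ]
                linarith) hsum (by linarith)
      refine h1.trans (le_of_eq ?_)
      rw [← hW, ← hC₂, hC₁, Real.exp_add]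
      ring
    obtain ⟨b₁, hb₁⟩ : ∃ b₁, b₁ = L / (4 * a) := ⟨_, rfl⟩
    have hb₁0 : 0 < b₁ := by rw [hb₁]; positivity
    have hβ : b₁ - (B + s * N) * L / 4 = L / 4 * (D * δ) := by
      have h1 : 1 / a = B + D := by
        rw [hD]
        field_simp
        ring
      have e : L / (4 * a) = L / 4 * (1 / a) := by field_simp
      rw [hb₁, e, h1, hsN]
      ring
    have hβ0 : 0 < L / 4 * (D * δ) := by positivity
    have h1 := gauss_lin hHc hHL hb₁0 (by linarith : (B + s * N) * L / 4 < b₁) hC₂0 hmom hC₁0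
    have e2 : ∀ θ : ℝ, a * ‖H (pt r θ)‖ ^ 2 / L = ‖H (pt r θ)‖ ^ 2 / (4 * b₁) := by
      intro θ
      rw [hb₁]
      field_simp
    simp only [e2]
    have h2 : C₂ ^ 2 / (2 * (b₁ - (B + s * N) * L / 4)) ≤ C₂ ^ 2 / N := by
      rw [hβ]
      apply div_le_div_of_nonneg_left (by positivity) hN0
      have h3 : s * δ * L * N ≤ D * δ * L := by
        have : s * N ≤ D := by
          rw [hsN]
          have h5 := mul_nonneg hD0.le hδ0.le
          linarith
        have h4 := mul_le_mul_of_nonneg_right this (by positivity : 0 ≤ δ * L)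
        linarith
      have h4 := mul_le_mul_of_nonneg_right hLD hN0.le
      linarith
    have h3 : b₁ / (b₁ - (B + s * N) * L / 4) = 1 / ((1 - a * B) * δ) := by
      rw [hβ, hb₁, hD]
      field_simp
    rw [h3] at h1
    have h4 : 2 * Real.pi * (C₁ * Real.exp (C₂ ^ 2 / (2 * (b₁ - (B + s * N) * L / 4))) *
        (2 * (1 / ((1 - a * B) * δ)))) ≤
        2 * Real.pi * (C₁ * Real.exp (C₂ ^ 2 / N) * (2 * (1 / ((1 - a * B) * δ)))) := by
      gcongr
    have h6 : 0 ≤ 2 * Real.pi * Real.exp L₀ := by positivity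
    linarith

end Pool.Agent.W677.Mar
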