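import Pool.Agent.W677.MarS
import Pool.Agent.W677.MarF3

set_option autoImplicit false

/-! # The critical Bloch norm: transfer to the exterior of the unit disc -/

namespace Pool.Agent.W677.Mar

open Complex Metric Set Filter Topology MeasureTheory

/-- the decomposition of `h` -/
def Dec2 (K A β : ℝ) (h : ℂ → ℂ) : Prop :=
  ∃ (n : ℕ) (k : Fin n → ℂ) (P : Fin n → ℂ → ℂ) (d d' : ℂ) (b e : ℂ → ℂ),
    ∑ j, ‖k j‖ ≤ K ∧ (∀ j, Hol (P j) 1 ∧ ∀ z : ℂ, 1 < ‖z‖ → 0 < (P j z).re) ∧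
    Hol b d ∧ (∀ z : ℂ, 1 < ‖z‖ → ‖b z‖ ≤ A) ∧
    Hol e d' ∧ (∀ z : ℂ, 1 < ‖z‖ → (‖z‖ ^ 2 - 1) * ‖deriv e z‖ ≤ β) ∧
    ∀ z : ℂ, 1 < ‖z‖ → z * deriv h z =
      ∑ j, k j * (P j z - 1) + z * deriv b z + z * deriv e z

theorem toDC2 {K A β : ℝ} {h : ℂ → ℂ} (hH : Hol h 0) (hK : 0 ≤ K) (hD : Dec2 K A β h) :
    ∃ (Q P b e : ℂ → ℂ), DC (1 + K) A β (hat h 0) Q P (fun _ => 0) b e 0 ∧
      ∀ w ∈ ball (0 : ℂ) 1, ‖deriv e w‖ * (1 - ‖w‖ ^ 2) ≤ β := by
  obtain ⟨n, k, P, d, d', b, e, hk, hP, hb, hbA, he, heε, heq⟩ := hD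
  have h00 : (0 : ℂ) ∈ ball (0 : ℂ) 1 := mem_ball_self one_pos
  have hPd : ∀ j, DifferentiableOn ℂ (hat (P j) 1) (ball 0 1) := fun j => hat_diff (hP j).1
  have hPp : ∀ j, ∀ w ∈ ball (0 : ℂ) 1, 0 < (hat (P j) 1 w).re := fun j w hw =>
    hat_pos (by simp) (hP j).2 hw
  have hed := hat_diff he
  -- the Bloch norm of `e`
  have hbl : ∀ w ∈ ball (0 : ℂ) 1, ‖deriv (fun w => hat e d' w - d') w‖ * (1 - ‖w‖ ^ 2) ≤ β := by
    have hed' : DifferentiableOn ℂ (deriv (fun w => hat e d' w - d')) (ball 0 1) :=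
      (hed.sub_const _).deriv isOpen_ball
    have hne : ∀ w ∈ ball (0 : ℂ) 1, w ≠ 0 →
        ‖deriv (fun w => hat e d' w - d') w‖ * (1 - ‖w‖ ^ 2) ≤ β := by
      intro w hw hw0
      have hn : ‖w‖ < 1 := mem_ball_zero_iff.1 hw
      have hp : 0 < ‖w‖ := norm_pos_iff.2 hw0
      have h1 : deriv (fun w => hat e d' w - d') w = deriv e w⁻¹ * -(w ^ 2)⁻¹ :=
        ((hat_hasDeriv he hw hw0).sub_const d').deriv
      have h2 := heε _ (inv_ext hw hw0)
      rw [norm_inv] at h2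
      rw [h1, norm_mul, norm_neg, norm_inv, norm_pow]
      have h3 : (‖w‖⁻¹ ^ 2 - 1) * ‖deriv e w⁻¹‖ =
          ‖deriv e w⁻¹‖ * (‖w‖ ^ 2)⁻¹ * (1 - ‖w‖ ^ 2) := by
        field_simp
      rw [h3] at h2
      exact h2
    intro w hw
    by_cases hw0 : w = 0
    · have hcont : ContinuousAt
          (fun w => ‖deriv (fun w => hat e d' w - d') w‖ * (1 - ‖w‖ ^ 2)) 0 :=
        ((hed'.continuousOn.continuousAt (isOpen_ball.mem_nhds h00)).norm).mul
          (continuousAt_const.sub (continuousAt_id.norm.pow 2))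
      rw [hw0]
      refine le_of_tendsto (hcont.tendsto.mono_left (nhdsWithin_le_nhds (s := {0}ᶜ))) ?_
      filter_upwards [self_mem_nhdsWithin, nhdsWithin_le_nhds (isOpen_ball.mem_nhds h00)] with x hx hxb
      exact hne x hxb hx
    · exact hne w hw hw0
  refine ⟨fun w => ∑ j, k j * (hat (P j) 1 w - 1), fun w => 1 + ∑ j, (‖k j‖ : ℂ) * hat (P j) 1 w,
    hat b d, fun w => hat e d' w - d', ⟨?_, ?_, differentiableOn_const _, hat_diff hb,
    hed.sub_const _, ?_, ?_, ?_, by simp, ?_, ?_, ?_, ?_, ?_⟩, hbl⟩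
  · apply DifferentiableOn.fun_sum
    intro j _
    exact ((hPd j).sub_const 1).const_mul _
  · apply DifferentiableOn.const_add
    apply DifferentiableOn.fun_sum
    intro j _
    exact (hPd j).const_mul _
  · intro w hw
    simp only [add_re, one_re, re_sum, Complex.re_ofReal_mul]
    have : 0 ≤ ∑ j, ‖k j‖ * (hat (P j) 1 w).re :=
      Finset.sum_nonneg fun j _ => mul_nonneg (norm_nonneg _) (hPp j w hw).le
    linarith
  · simp only [hat_zero, mul_one]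
    refine (norm_add_le _ _).trans ?_
    rw [norm_one]
    have := norm_sum_le (Finset.univ : Finset (Fin n)) (fun j => ((‖k j‖ : ℝ) : ℂ))
    simp only [Complex.norm_real, norm_norm] at this
    linarith
  · intro w hw x hx
    have hn : ‖w‖ < 1 := mem_ball_zero_iff.1 hw
    have hsub := ball_sub' (w := w)
    have e1 : (∑ j, k j * (hat (P j) 1 x - 1)) - ∑ j, k j * (hat (P j) 1 w - 1) =
        ∑ j, k j * (hat (P j) 1 x - hat (P j) 1 w) := by
      rw [← Finset.sum_sub_distrib]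
      refine Finset.sum_congr rfl fun j _ => ?_
      ring
    show ‖(∑ j, k j * (hat (P j) 1 x - 1)) - ∑ j, k j * (hat (P j) 1 w - 1)‖ ≤ _
    rw [e1]
    refine (norm_sum_le _ _).trans ?_
    have h1 : ∀ j, ‖k j * (hat (P j) 1 x - hat (P j) 1 w)‖ ≤ 2 * (‖k j‖ * (hat (P j) 1 w).re) := by
      intro j
      rw [norm_mul]
      have h2 := osc (P := hat (P j) 1) (w := w) (δ := 1 - ‖w‖) (by linarith)
        ((hPd j).mono (hsub hw)) (fun y hy => hPp j y (hsub hw hy)) hx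
      have := mul_le_mul_of_nonneg_left h2 (norm_nonneg (k j))
      linarith
    refine (Finset.sum_le_sum fun j _ => h1 j).trans ?_
    rw [← Finset.mul_sum]
    simp only [add_re, one_re, re_sum, Complex.re_ofReal_mul]
    linarith
  · intro w hw
    simp only [zero_im, abs_zero]
    positivity
  · intro w hw
    exact hat_closed hb hbA hw
  · simp only [hat_zero, sub_self]
  · intro w hw
    have hn : ‖w‖ < 1 := mem_ball_zero_iff.1 hw
    refine le_trans ?_ (hbl w hw)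
    apply mul_le_mul_of_nonneg_left _ (norm_nonneg _)
    nlinarith [norm_nonneg w]
  · intro w hw
    by_cases hw0 : w = 0
    · rw [hw0]
      simp [hat_zero]
    · have hz := inv_ext hw hw0
      have h1 := heq _ hz
      have hde : deriv (fun w => hat e d' w - d') w = deriv (hat e d') w := by
        rw [deriv_sub_const]
      have h3 := hat_deriv hH hw hw0
      have h4 := hat_deriv hb hw hw0
      have h5 := hat_deriv he hw hw0
      rw [hde]
      have e1 : ∑ j, k j * (hat (P j) 1 w - 1) = ∑ j, k j * (P j w⁻¹ - 1) :=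
        Finset.sum_congr rfl fun j _ => by rw [hat_ne _ _ hw0]
      rw [e1]
      have e2 : w * (0 * deriv (fun _ : ℂ => (0 : ℂ)) w + deriv (hat b d) w +
          deriv (hat e d') w) = w * deriv (hat b d) w + w * deriv (hat e d') w := by
        ring
      rw [e2, h3, h4, h5, h1]
      ring

/-- the whole class and `a < 1 / 16` -/
theorem disc16 {Y H : ℂ → ℂ} (S : Sg Y H) {a r : ℝ} (ha0 : 0 < a) (ha : a < 1 / 16) (hr0 : 0 < r)
    (hr1 : r < 1) : ∫ θ in (0 : ℝ)..(2 * Real.pi),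
      Real.exp (a * ‖H (pt r θ)‖ ^ 2 / lam (r ^ 2)) ≤ 2 * Real.pi * (1 / (1 - 16 * a)) := by
  have hpi := Real.pi_pos
  have hx1 : r ^ 2 < 1 := pow_lt_one₀ hr0.le hr1 two_ne_zero
  obtain ⟨L, hL⟩ : ∃ L, L = lam (r ^ 2) := ⟨_, rfl⟩
  have hL0 : 0 < L := hL ▸ lam_pos (by positivity) hx1
  rw [← hL]
  obtain ⟨b, hb⟩ : ∃ b, b = L / (4 * a) := ⟨_, rfl⟩
  have hb0 : 0 < b := by rw [hb]; positivity
  have hbL : 0 < b - 4 * L := by
    have : b - 4 * L = L * (1 - 16 * a) / (4 * a) := by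
      rw [hb]
      field_simp
      ring
    rw [this]
    apply div_pos _ (by positivity)
    apply mul_pos hL0
    linarith
  have hmem : ∀ θ : ℝ, pt r θ ∈ Metric.ball (0 : ℂ) 1 := fun θ => pt_mem hr0.le hr1 θ
  have hc : Continuous fun θ : ℝ => H (pt r θ) := cont_circ S.dH hr0.le hr1
  have hM : ∀ θ : ℝ, ‖H (pt r θ)‖ ≤ L := by
    intro θ
    have := goluzin S (hmem θ)
    rw [norm_pt r θ hr0.le] at this
    rw [hL]
    exact this
  have hB : ∀ t : ℂ, ∫ θ in (0 : ℝ)..(2 * Real.pi),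
      Real.exp ((starRingEnd ℂ) t * H (pt r θ)).re ≤ 2 * Real.pi * Real.exp (4 * ‖t‖ ^ 2 * L) := by
    intro t
    rw [hL]
    exact exp_mom S t hr0 hr1
  have e1 : (fun t : ℂ => Real.exp (-b * ‖t‖ ^ 2) * (2 * Real.pi * Real.exp (4 * ‖t‖ ^ 2 * L))) =
      fun t : ℂ => 2 * Real.pi * Real.exp (-(b - 4 * L) * ‖t‖ ^ 2) := by
    funext t
    have : Real.exp (-(b - 4 * L) * ‖t‖ ^ 2) =
        Real.exp (-b * ‖t‖ ^ 2) * Real.exp (4 * ‖t‖ ^ 2 * L) := by
      rw [← Real.exp_add]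
      congr 1
      ring
    rw [this]
    ring
  have hg := gauss0 hbL
  have h1 := gauss_avg hc hM hb0 hB (by
    rw [e1]
    exact hg.1.const_mul _)
  rw [e1, integral_const_mul, hg.2] at h1
  have e2 : ∀ θ : ℝ, a * ‖H (pt r θ)‖ ^ 2 / L = ‖H (pt r θ)‖ ^ 2 / (4 * b) := by
    intro θ
    rw [hb]
    field_simp
  simp only [e2]
  refine h1.trans (le_of_eq ?_)
  have h2 : (1 : ℝ) - 16 * a ≠ 0 := by linarith
  have h3 : b - 4 * L = L * (1 - 16 * a) / (4 * a) := by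
    rw [hb]
    field_simp
    ring
  rw [h3, hb]
  field_simp

/-- the main theorem, exterior version -/
theorem main_ext2 (a A β x : ℝ) (ha0 : 0 < a) (hβ1 : 1 ≤ β) (haβ : a * β ^ 2 < 1) (hA : 0 ≤ A)
    (hx0 : 0 ≤ x) (hx : 16 * a * (16 - β ^ 2) * x < 15 * (1 - a * β ^ 2)) : ∃ C : ℝ,
    ∀ (R : ℝ) (ψ h : ℂ → ℂ), 1 < R → DifferentiableOn ℂ ψ {z : ℂ | 1 < ‖z‖} →
      InjOn ψ {z : ℂ | 1 < ‖z‖} →
      (∃ b : ℂ, Tendsto (fun z => ψ z - z) (Bornology.cobounded ℂ) (𝓝 b)) →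
      DifferentiableOn ℂ h {z : ℂ | 1 < ‖z‖} →
      (∀ z : ℂ, 1 < ‖z‖ → Complex.exp (h z) = deriv ψ z) →
      Tendsto h (Bornology.cobounded ℂ) (𝓝 0) →
      Dec2 (A * (R ^ 2 / (R ^ 2 - 1)) ^ x) A β h →
      (1 / (2 * Real.pi)) * ∫ θ in (0 : ℝ)..(2 * Real.pi),
        Real.exp (a * ‖h ((R : ℂ) * Complex.exp ((θ : ℂ) * Complex.I))‖ ^ 2
          / Real.log (R ^ 2 / (R ^ 2 - 1))) ≤ C := by
  have hpi := Real.pi_pos
  obtain ⟨C, hC⟩ : ∃ C : ℝ, ∀ (Y H Q P b e : ℂ → ℂ) (K r : ℝ), 0 < r → r < 1 → Sg Y H →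
      DC K A β H Q P (fun _ => 0) b e 0 →
      (∀ w ∈ ball (0 : ℂ) 1, ‖deriv e w‖ * (1 - ‖w‖ ^ 2) ≤ β) →
      K ≤ (A + 1) * Real.exp (x * lam (r ^ 2)) →
      ∫ θ in (0 : ℝ)..(2 * Real.pi), Real.exp (a * ‖H (pt r θ)‖ ^ 2 / lam (r ^ 2)) ≤ C := by
    rcases lt_or_ge a (1 / 16) with h16 | h16
    · exact ⟨_, fun Y H Q P b e K r hr0 hr1 S _ _ _ => disc16 S ha0 h16 hr0 hr1⟩
    · exact main_disc2 a A β x h16 hβ1 haβ hA hx0 hx
  refine ⟨(1 / (2 * Real.pi)) * C, ?_⟩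
  intro R ψ h hR hψ hi hb hh he h0 hD
  have hR0 : 0 < R := by linarith
  have hR2 : 0 < R ^ 2 - 1 := by nlinarith
  have S := toSg hψ hi hb hh he h0
  obtain ⟨q, hq⟩ : ∃ q, q = R ^ 2 / (R ^ 2 - 1) := ⟨_, rfl⟩
  have hq1 : 1 < q := by
    rw [hq, one_lt_div hR2]
    linarith
  rw [← hq] at hD ⊢
  have hqp : 1 ≤ q ^ x := Real.one_le_rpow hq1.le hx0
  obtain ⟨Q, P, b, e, D, he2⟩ := toDC2 ⟨hh, h0⟩ (by positivity) hD
  obtain ⟨r, hr⟩ : ∃ r, r = R⁻¹ := ⟨_, rfl⟩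
  have hr0 : 0 < r := by rw [hr]; positivity
  have hr1 : r < 1 := by rw [hr]; exact inv_lt_one_of_one_lt₀ hR
  have hlam : lam (r ^ 2) = Real.log q := by
    have : 1 - r ^ 2 = q⁻¹ := by
      rw [hq, hr]
      field_simp
    rw [lam, this, Real.log_inv, neg_neg]
  have hK : 1 + A * q ^ x ≤ (A + 1) * Real.exp (x * lam (r ^ 2)) := by
    rw [hlam, mul_comm x, ← Real.rpow_def_of_pos (by linarith)]
    nlinarith
  have h1 := hC _ _ Q P b e _ r hr0 hr1 S D he2 hK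
  rw [hlam] at h1
  refine mul_le_mul_of_nonneg_left (le_trans (le_of_eq ?_) h1) (by positivity)
  -- change of variable θ → -θ
  set F : ℝ → ℝ := fun θ => Real.exp (a * ‖hat h 0 (pt r θ)‖ ^ 2 / Real.log q) with hF
  have hper : Function.Periodic F (2 * Real.pi) := by
    intro θ
    simp only [hF, pt_periodic r θ]
  have h2 : ∀ θ : ℝ, Real.exp (a * ‖h ((R : ℂ) * Complex.exp ((θ : ℂ) * Complex.I))‖ ^ 2 /
      Real.log q) = F (-θ) := by
    intro θ
    simp only [hF]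
    have hne : pt r (-θ) ≠ 0 := by
      rw [← norm_pos_iff, norm_pt r _ hr0.le]
      exact hr0
    rw [hat_ne _ _ hne]
    have e1 : (pt r (-θ))⁻¹ = (R : ℂ) * Complex.exp ((θ : ℂ) * Complex.I) := by
      simp only [pt, circleMap, zero_add, hr]
      rw [mul_inv, ← Complex.exp_neg]
      push_cast
      rw [inv_inv]
      congr 2
      ring
    rw [e1]
  simp only [h2]
  rw [intervalIntegral.integral_comp_neg F]
  have h3 := hper.intervalIntegral_add_eq (-(2 * Real.pi)) 0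
  rw [neg_add_cancel, zero_add] at h3
  rw [neg_zero]
  exact h3

end Pool.Agent.W677.Mar
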