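import Pool.Agent.W677.MarL
import Pool.Agent.W677.MarB

set_option autoImplicit false

/-! # The two weights -/

namespace Pool.Agent.W677.Mar

open Complex Metric Set Filter Topology MeasureTheory

theorem pt_hasDeriv (R θ : ℝ) : HasDerivAt (fun θ : ℝ => pt R θ) (I * pt R θ) θ := by
  have h := hasDerivAt_circleMap (0 : ℂ) R θ
  rw [mul_comm] at h
  exact h

section

variable {f : ℂ → ℂ} {R : ℝ}

/-- rotational derivative -/
noncomputable def rd (f : ℂ → ℂ) (z : ℂ) : ℂ := I * z * deriv f z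

theorem rd_diff (hf : DifferentiableOn ℂ f (ball 0 1)) : DifferentiableOn ℂ (rd f) (ball 0 1) :=
  (differentiableOn_id.const_mul I).mul (hf.deriv isOpen_ball)

theorem pt_mem (hR0 : 0 ≤ R) (hR1 : R < 1) (θ : ℝ) : pt R θ ∈ ball (0 : ℂ) 1 := by
  rw [mem_ball_zero_iff, norm_pt R θ hR0]
  exact hR1

theorem rot_d (hf : DifferentiableOn ℂ f (ball 0 1)) (hR0 : 0 ≤ R) (hR1 : R < 1) (θ : ℝ) :
    HasDerivAt (fun θ : ℝ => f (pt R θ)) (rd f (pt R θ)) θ := by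
  have h1 := (hf.differentiableAt (isOpen_ball.mem_nhds (pt_mem hR0 hR1 θ))).hasDerivAt
  have h2 := h1.comp θ (pt_hasDeriv R θ)
  refine h2.congr_deriv ?_
  simp only [rd]
  ring

theorem wd_re (hf : DifferentiableOn ℂ f (ball 0 1)) (hR0 : 0 ≤ R) (hR1 : R < 1) :
    WD (fun θ => (f (pt R θ)).re) (fun θ => (rd f (pt R θ)).re)
      (fun θ => (rd (rd f) (pt R θ)).re) := by
  refine ⟨fun θ => re_d (rot_d hf hR0 hR1 θ), fun θ => re_d (rot_d (rd_diff hf) hR0 hR1 θ), ?_,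
    fun θ => ?_, fun θ => ?_⟩
  · apply continuous_re.comp
    exact (rd_diff (rd_diff hf)).continuousOn.comp_continuous (continuous_pt R)
      (fun θ => pt_mem hR0 hR1 θ)
  · rw [pt_periodic R θ]
  · rw [pt_periodic R θ]

theorem wd_exp (hf : DifferentiableOn ℂ f (ball 0 1)) (hR0 : 0 ≤ R) (hR1 : R < 1) :
    WD (fun θ => Real.exp (f (pt R θ)).re) (fun θ => Real.exp (f (pt R θ)).re * (rd f (pt R θ)).re)
      (fun θ => Real.exp (f (pt R θ)).re * (rd f (pt R θ)).re * (rd f (pt R θ)).re +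
        Real.exp (f (pt R θ)).re * (rd (rd f) (pt R θ)).re) := by
  have h := wd_re hf hR0 hR1
  refine ⟨fun θ => (h.d1 θ).exp, fun θ => (h.d1 θ).exp.fun_mul (h.d2 θ), ?_, fun θ => ?_,
    fun θ => ?_⟩
  · have c0 := Real.continuous_exp.comp (wc0 h)
    exact ((c0.mul (wc1 h)).mul (wc1 h)).add (c0.mul h.c2)
  · rw [pt_periodic R θ]
  · rw [pt_periodic R θ]

/-- Cauchy estimate for the rotational derivative -/
theorem rd_bound (hf : DifferentiableOn ℂ f (ball 0 1)) {w : ℂ} (hw : w ∈ ball (0 : ℂ) 1) {M : ℝ}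
    (hM : ∀ x, ‖x - w‖ ≤ (1 - ‖w‖) / 2 → ‖f x‖ ≤ M) : ‖rd f w‖ * (1 - ‖w‖) ≤ 2 * M := by
  have hn : ‖w‖ < 1 := mem_ball_zero_iff.1 hw
  have h1 := cauchy_half hf hw hM
  have h2 : ‖rd f w‖ ≤ ‖deriv f w‖ := by
    rw [rd, norm_mul, norm_mul, norm_I, one_mul]
    have := norm_nonneg (deriv f w)
    nlinarith
  have := mul_le_mul_of_nonneg_right h2 (by linarith : 0 ≤ 1 - ‖w‖)
  linarith

theorem half_mem {w x : ℂ} (hw : w ∈ ball (0 : ℂ) 1) (hx : ‖x - w‖ ≤ (1 - ‖w‖) / 2) :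
    x ∈ ball (0 : ℂ) 1 ∧ (1 - ‖w‖) / 2 ≤ 1 - ‖x‖ := by
  have hn : ‖w‖ < 1 := mem_ball_zero_iff.1 hw
  have h1 := norm_add_le (x - w) w
  rw [sub_add_cancel] at h1
  refine ⟨?_, by linarith⟩
  rw [mem_ball_zero_iff]
  linarith

/-- the weight `Re P` -/
theorem wa {P : ℂ → ℂ} (hP : DifferentiableOn ℂ P (ball 0 1)) (hp : ∀ w ∈ ball (0 : ℂ) 1, 0 < (P w).re)
    (hR0 : 0 ≤ R) (hR1 : R < 1) (θ : ℝ) :
    -(rd (rd P) (pt R θ)).re ≤ 192 / (1 - R ^ 2) ^ 2 * (P (pt R θ)).re := by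
  have hm := pt_mem hR0 hR1 θ
  obtain ⟨w, hw⟩ : ∃ w, w = pt R θ := ⟨_, rfl⟩
  have hwR : ‖w‖ = R := by rw [hw, norm_pt R θ hR0]
  rw [← hw] at hm ⊢
  obtain ⟨p, hpd⟩ : ∃ p, p = (P w).re := ⟨_, rfl⟩
  have hp0 : 0 < p := hpd ▸ hp w hm
  have hδ : 0 < 1 - ‖w‖ := by rw [hwR]; linarith
  have hder : ∀ x ∈ ball (0 : ℂ) 1, ‖rd P x‖ * (1 - ‖x‖) ≤ 4 * (P x).re := by
    intro x hx
    have hxn : ‖x‖ < 1 := mem_ball_zero_iff.1 hx
    have h1 := rd_bound (f := fun y => P y - P x) (hP.sub_const _) hx (M := 2 * (P x).re) (by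
      intro y hy
      exact osc (P := P) (w := x) (δ := 1 - ‖x‖) (by linarith) (hP.mono (ball_sub' hx))
        (fun z hz => hp z (ball_sub' hx hz)) hy)
    have e : rd (fun y => P y - P x) x = rd P x := by
      simp only [rd]
      rw [deriv_sub_const]
    rw [e] at h1
    linarith
  have h1 : ∀ x, ‖x - w‖ ≤ (1 - ‖w‖) / 2 → ‖rd P x‖ ≤ 24 * p / (1 - ‖w‖) := by
    intro x hx
    obtain ⟨hxm, hx2⟩ := half_mem hm hx
    have a1 := hder x hxm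
    have a2 := harn (P := P) (w := w) (δ := 1 - ‖w‖) hδ (hP.mono (ball_sub' hm))
      (fun z hz => hp z (ball_sub' hm hz)) hx
    rw [← hpd] at a2
    rw [le_div_iff₀ hδ]
    have a3 := mul_le_mul_of_nonneg_left hx2 (norm_nonneg (rd P x))
    linarith
  have h2 := rd_bound (rd_diff hP) hm h1
  have h3 : ‖rd (rd P) w‖ ≤ 48 * p / (1 - ‖w‖) ^ 2 := by
    rw [le_div_iff₀ (by positivity)]
    have h4 := mul_le_mul_of_nonneg_right h2 hδ.le
    have e1 : 2 * (24 * p / (1 - ‖w‖)) * (1 - ‖w‖) = 48 * p := by field_simp; norm_num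
    rw [e1] at h4
    linarith
  have h4 : 48 * p / (1 - ‖w‖) ^ 2 ≤ 192 / (1 - R ^ 2) ^ 2 * p := by
    rw [hwR, div_mul_eq_mul_div, div_le_div_iff₀ (by rw [← hwR]; positivity) (by
      have : 0 < 1 - R ^ 2 := by nlinarith
      positivity)]
    have h5 : (1 - R ^ 2) ^ 2 ≤ (2 * (1 - R)) ^ 2 := by
      apply pow_le_pow_left₀ (by nlinarith)
      nlinarith
    nlinarith
  have h5 : -(rd (rd P) w).re ≤ ‖rd (rd P) w‖ := (neg_le_abs _).trans (abs_re_le_norm _)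
  rw [← hpd]
  exact h5.trans (h3.trans h4)

/-- the weight `exp Re (conj t H)` -/
theorem wb {H : ℂ → ℂ} (hH : DifferentiableOn ℂ H (ball 0 1))
    (hb : ∀ w ∈ ball (0 : ℂ) 1, ‖deriv H w‖ * (1 - ‖w‖) ≤ 6) (t : ℂ)
    (hR0 : 0 ≤ R) (hR1 : R < 1) (θ : ℝ) :
    -(Real.exp ((starRingEnd ℂ) t * H (pt R θ)).re *
        (rd (fun z => (starRingEnd ℂ) t * H z) (pt R θ)).re *
        (rd (fun z => (starRingEnd ℂ) t * H z) (pt R θ)).re +
        Real.exp ((starRingEnd ℂ) t * H (pt R θ)).re *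
        (rd (rd (fun z => (starRingEnd ℂ) t * H z)) (pt R θ)).re) ≤
      96 * ‖t‖ / (1 - R ^ 2) ^ 2 * Real.exp ((starRingEnd ℂ) t * H (pt R θ)).re := by
  have hm := pt_mem hR0 hR1 θ
  obtain ⟨w, hw⟩ : ∃ w, w = pt R θ := ⟨_, rfl⟩
  have hwR : ‖w‖ = R := by rw [hw, norm_pt R θ hR0]
  rw [← hw] at hm ⊢
  set f : ℂ → ℂ := fun z => (starRingEnd ℂ) t * H z with hf
  have hfd : DifferentiableOn ℂ f (ball 0 1) := hH.const_mul _
  have hδ : 0 < 1 - ‖w‖ := by rw [hwR]; linarith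
  have h1 : ∀ x, ‖x - w‖ ≤ (1 - ‖w‖) / 2 → ‖rd f x‖ ≤ 12 * ‖t‖ / (1 - ‖w‖) := by
    intro x hx
    obtain ⟨hxm, hx2⟩ := half_mem hm hx
    have hxn : ‖x‖ < 1 := mem_ball_zero_iff.1 hxm
    have a1 := hb x hxm
    have a2 : ‖rd f x‖ ≤ ‖t‖ * ‖deriv H x‖ := by
      simp only [rd, hf]
      rw [deriv_const_mul_field, norm_mul, norm_mul, norm_I, one_mul, norm_mul, RCLike.norm_conj]
      have : 0 ≤ ‖t‖ * ‖deriv H x‖ := by positivity
      nlinarith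
    rw [le_div_iff₀ hδ]
    have a3 := mul_le_mul_of_nonneg_left hx2 (norm_nonneg (deriv H x))
    have a4 : ‖deriv H x‖ * (1 - ‖w‖) ≤ 12 := by linarith
    have a5 := mul_le_mul_of_nonneg_right a2 hδ.le
    have a6 := mul_le_mul_of_nonneg_left a4 (norm_nonneg t)
    linarith
  have h2 := rd_bound (rd_diff hfd) hm h1
  have ht := norm_nonneg t
  have h3 : ‖rd (rd f) w‖ ≤ 24 * ‖t‖ / (1 - ‖w‖) ^ 2 := by
    rw [le_div_iff₀ (by positivity)]
    have h4 := mul_le_mul_of_nonneg_right h2 hδ.le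
    have e1 : 2 * (12 * ‖t‖ / (1 - ‖w‖)) * (1 - ‖w‖) = 24 * ‖t‖ := by field_simp; ring
    rw [e1] at h4
    linarith
  have h4 : 24 * ‖t‖ / (1 - ‖w‖) ^ 2 ≤ 96 * ‖t‖ / (1 - R ^ 2) ^ 2 := by
    rw [hwR, div_le_div_iff₀ (by rw [← hwR]; positivity) (by
      have : 0 < 1 - R ^ 2 := by nlinarith
      positivity)]
    have h5 : (1 - R ^ 2) ^ 2 ≤ (2 * (1 - R)) ^ 2 := by
      apply pow_le_pow_left₀ (by nlinarith)
      nlinarith
    have h6 := mul_le_mul_of_nonneg_left h5 ht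
    nlinarith
  have h5 : -(rd (rd f) w).re ≤ ‖rd (rd f) w‖ := (neg_le_abs _).trans (abs_re_le_norm _)
  have h6 := h5.trans (h3.trans h4)
  have hE : 0 < Real.exp (f w).re := Real.exp_pos _
  have h7 := mul_le_mul_of_nonneg_left h6 hE.le
  have h8 : 0 ≤ Real.exp (f w).re * ((rd f w).re * (rd f w).re) :=
    mul_nonneg hE.le (mul_self_nonneg _)
  show -(Real.exp (f w).re * (rd f w).re * (rd f w).re + Real.exp (f w).re * (rd (rd f) w).re) ≤
    96 * ‖t‖ / (1 - R ^ 2) ^ 2 * Real.exp (f w).re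
  linarith

end

end Pool.Agent.W677.Mar
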