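import Mathlib
import Pool.Agent.H843R3.Had2.Cone

set_option autoImplicit false
set_option linter.unusedSectionVars false

/-!
Illumination of a convex body some shadow of codimension one of which is a polytope.
-/

open Set Topology
open Pool.Agent.H843R3.Had2

namespace Pool.Agent.W677.Shadow

/-- A set of directions gives a covering. -/
theorem cover_of_dirs {E : Type*} [NormedAddCommGroup E] [NormedSpace ℝ E] {K : Set E}
    (hK : Convex ℝ K) (hKc : IsCompact K) (D : Finset E) (h : ∀ x ∈ K, ∃ v ∈ D, Co K x v) :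
    ∃ T : Finset E, T.card ≤ D.card ∧ K ⊆ ⋃ t ∈ T, (fun x => t + x) '' interior K := by
  classical
  obtain ⟨r, hr, h1⟩ := unif hK hKc subset_rfl (fun v : D => (v : E)) (fun x hx => by
    obtain ⟨v, hv, h2⟩ := h x hx
    exact ⟨⟨v, hv⟩, h2⟩)
  refine ⟨D.image (fun v => -(r • v)), Finset.card_image_le, fun x hx => ?_⟩
  obtain ⟨v, hv⟩ := h1 x hx
  refine Set.mem_iUnion₂.2 ⟨-(r • (v : E)), Finset.mem_image_of_mem _ v.2, x + r • (v : E), hv, ?_⟩
  simp

variable {E F : Type*} [NormedAddCommGroup E] [NormedSpace ℝ E] [NormedAddCommGroup F]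
  [NormedSpace ℝ F]

/-- Interior points of the shadow are shadows of interior points. -/
theorem lift_int {K : Set E} (hK : Convex ℝ K) {p₀ : E} (hp₀ : p₀ ∈ interior K) (π : E →L[ℝ] F)
    {q : F} (hq : q ∈ interior (π '' K)) : ∃ y ∈ interior K, π y = q := by
  obtain ⟨ε, hε, h1⟩ := Co.of_interior hq (q - π p₀)
  obtain ⟨y, hy, h2⟩ := interior_subset h1
  refine ⟨(1 / (1 + ε)) • y + (ε / (1 + ε)) • p₀,
    hK.combo_self_interior_mem_interior hy hp₀ (by positivity) (by positivity)
      (by field_simp), ?_⟩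
  rw [map_add, map_smul, map_smul, h2]
  have h3 : (1 / (1 + ε)) * ε = ε / (1 + ε) := by ring
  have h4 : (1 / (1 + ε)) = 1 - ε / (1 + ε) := by field_simp; ring
  rw [smul_add, smul_smul, smul_sub, h3, h4]
  module

/-- **The core.** `π` has the one-dimensional kernel spanned by `e`; `π K` is the convex hull of the
set `V`; the finite set `Z ⊆ V` consists of points with one-point fibres; the other points of `V`
have fibres of length at least `δ`; the directions in `A` illuminate `π K \ Z`. -/
theorem core {K : Set E} (hK : Convex ℝ K) (hKc : IsCompact K) {p₀ : E} (hp₀ : p₀ ∈ interior K)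
    (π : E →L[ℝ] F) (s : F → E) (hs : ∀ v, π (s v) = v) (e : E) (he0 : e ≠ 0) (hπe : π e = 0)
    (he : ∀ y, π y = 0 → ∃ c : ℝ, y = c • e) (V : Set F)
    (hV : π '' K ⊆ convexHull ℝ V) (P : F → E)
    (hP : ∀ v ∈ V, P v ∈ K ∧ π (P v) = v) (Z : Finset F)
    (hZ : ∀ z ∈ Z, ∀ y ∈ K, π y = z → y = P z) {δ : ℝ} (hδ0 : 0 < δ)
    (hδ : ∀ v ∈ V, v ∉ Z → P v + δ • e ∈ K) (A : Finset F)
    (hA : ∀ x ∈ π '' K, x ∉ Z → ∃ v ∈ A, Co (π '' K) x v) :
    ∃ R : ℝ, ∀ X ∈ K, (∃ z ∈ Z, Co K X (p₀ - P z)) ∨
      (∃ v ∈ A, Co K X (s v + R • e) ∨ Co K X (s v - R • e)) := by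
  classical
  obtain ⟨B, hB⟩ := hKc.isBounded.exists_norm_le
  have hep : 0 < ‖e‖ := norm_pos_iff.2 he0
  obtain ⟨ρ, hρ, hball⟩ := Metric.isOpen_iff.1 isOpen_interior p₀ hp₀
  have hKne : K.Nonempty := ⟨p₀, interior_subset hp₀⟩
  set l : ℝ := 1 / (2 * (Z.card + 1)) with hl
  have hl0 : 0 < l := by positivity
  have hZc0 : (0 : ℝ) ≤ Z.card := by positivity
  have hl1 : l < 1 := by
    rw [hl, div_lt_one (by positivity)]
    linarith
  set η : ℝ := min (δ / 4) (l * ρ / (2 * ‖e‖)) with hη
  have hη0 : 0 < η := lt_min (by positivity) (by positivity)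
  have hηδ : η ≤ δ / 4 := min_le_left _ _
  have hηρ : η * ‖e‖ ≤ l * ρ / 2 := by
    have h1 : η ≤ l * ρ / (2 * ‖e‖) := min_le_right _ _
    rw [le_div_iff₀ (by positivity)] at h1
    linarith
  -- the compact set of the points which can be moved by `η e` or `-η e`
  set S : Set E := {X | X ∈ K ∧ (X + η • e ∈ K ∨ X - η • e ∈ K)} with hS
  have hSc : IsCompact S := by
    have h1 : S = (K ∩ (fun X => X + η • e) ⁻¹' K) ∪ (K ∩ (fun X => X - η • e) ⁻¹' K) := by
      ext X
      simp only [hS, mem_ofPred_eq, mem_union, mem_inter_iff, mem_preimage]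
      tauto
    rw [h1]
    refine IsCompact.union ?_ ?_
    · exact hKc.inter_right (hKc.isClosed.preimage (by fun_prop))
    · exact hKc.inter_right (hKc.isClosed.preimage (by fun_prop))
  have hSZ : ∀ X ∈ S, π X ∉ Z := by
    rintro X ⟨hX, hX2⟩ hXZ
    have h1 := hZ _ hXZ X hX rfl
    rcases hX2 with h2 | h2
    · have h3 := hZ _ hXZ _ h2 (by rw [map_add, map_smul, hπe, smul_zero, add_zero])
      rw [← h1] at h3
      have h4 : η • e = 0 := by simpa using h3
      rcases smul_eq_zero.1 h4 with h5 | h5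
      · exact hη0.ne' h5
      · exact he0 h5
    · have h3 := hZ _ hXZ _ h2 (by rw [map_sub, map_smul, hπe, smul_zero, sub_zero])
      rw [← h1] at h3
      have h4 : η • e = 0 := by simpa using h3
      rcases smul_eq_zero.1 h4 with h5 | h5
      · exact hη0.ne' h5
      · exact he0 h5
  have hQ : Convex ℝ (π '' K) := hK.linear_image π.toLinearMap
  obtain ⟨r, hr, hr1⟩ := unif hQ (hSc.image π.continuous)
    (Set.image_mono (fun X hX => hX.1)) (fun v : A => (v : F)) (by
      rintro _ ⟨X, hX, rfl⟩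
      obtain ⟨v, hv, h1⟩ := hA (π X) ⟨X, hX.1, rfl⟩ (hSZ X hX)
      exact ⟨⟨v, hv⟩, h1⟩)
  obtain ⟨M, hM⟩ : ∃ M : ℝ, ∀ v ∈ A, ‖s v‖ ≤ M := by
    refine ⟨∑ v ∈ A, ‖s v‖, fun v hv => ?_⟩
    exact Finset.single_le_sum (f := fun v => ‖s v‖) (fun _ _ => norm_nonneg _) hv
  refine ⟨(2 * B + r * M) / (r * ‖e‖), fun X hX => ?_⟩
  set R : ℝ := (2 * B + r * M) / (r * ‖e‖) with hR
  by_cases hXS : X ∈ S
  · right
    obtain ⟨v, hv⟩ := hr1 (π X) ⟨X, hXS, rfl⟩
    refine ⟨v, v.2, ?_⟩
    obtain ⟨Y, hY, hY1⟩ := lift_int hK hp₀ π hv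
    obtain ⟨c, hc⟩ := he (Y - X - r • s v) (by
      rw [map_sub, map_sub, map_smul, hs, hY1]
      abel)
    have hYX : Y - X = r • s v + c • e := by rw [← hc]; abel
    have hcR : |c| ≤ r * R := by
      have h1 : ‖c • e‖ ≤ 2 * B + r * M := by
        rw [← hc]
        have h2 := norm_sub_le (Y - X) (r • s v)
        have h3 := norm_sub_le Y X
        have h4 := hB Y (interior_subset hY)
        have h5 := hB X hX
        have h6 : ‖r • s (v : F)‖ ≤ r * M := by
          rw [norm_smul, Real.norm_eq_abs, abs_of_pos hr]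
          exact mul_le_mul_of_nonneg_left (hM v v.2) hr.le
        linarith
      rw [norm_smul, Real.norm_eq_abs] at h1
      have h2 : r * R = (2 * B + r * M) / ‖e‖ := by
        rw [hR]
        field_simp
      rw [h2, le_div_iff₀ hep]
      exact h1
    have hc1 := abs_le.1 hcR
    rcases hXS.2 with h1 | h1
    · left
      have h2 : Cn K X e := ⟨η, hη0, h1⟩
      have h3 := Co.of hK (h2.smul hX (c := r * R - c) (by linarith [hc1.2])) hY
      rw [hYX] at h3
      have h4 := h3.smul (c := 1 / r) (by positivity)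
      have h5 : (1 / r) • ((r * R - c) • e + (r • s (v : F) + c • e)) = s v + R • e := by
        have : (1 / r) • ((r * R - c) • e + (r • s (v : F) + c • e)) =
          ((1 / r) * r) • (s (v : F) + R • e) := by module
        rw [this, one_div, inv_mul_cancel₀ hr.ne', one_smul]
      rwa [h5] at h4
    · right
      have h2 : Cn K X (-e) := ⟨η, hη0, by rw [smul_neg, ← sub_eq_add_neg]; exact h1⟩
      have h3 := Co.of hK (h2.smul hX (c := r * R + c) (by linarith [hc1.1])) hY
      rw [hYX] at h3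
      have h4 := h3.smul (c := 1 / r) (by positivity)
      have h5 : (1 / r) • ((r * R + c) • (-e) + (r • s (v : F) + c • e)) = s v - R • e := by
        have : (1 / r) • ((r * R + c) • (-e) + (r • s (v : F) + c • e)) =
          ((1 / r) * r) • (s (v : F) - R • e) := by module
        rw [this, one_div, inv_mul_cancel₀ hr.ne', one_smul]
      rwa [h5] at h4
  · left
    have hXp : X + η • e ∉ K := fun h => hXS ⟨hX, Or.inl h⟩
    have hXm : X - η • e ∉ K := fun h => hXS ⟨hX, Or.inr h⟩
    have hXV := hV ⟨X, hX, rfl⟩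
    rw [convexHull_eq_union_convexHull_finite_subsets] at hXV
    obtain ⟨V₀, hV₀, hXV₀⟩ := Set.mem_iUnion₂.1 hXV
    obtain ⟨w, hw0, hw1, hwX⟩ := (Finset.mem_convexHull'.1 hXV₀)
    set X' : E := ∑ v ∈ V₀, w v • P v with hX'
    have hX'K : X' ∈ K := hK.sum_mem hw0 hw1 (fun v hv => (hP v (hV₀ hv)).1)
    set μ : ℝ := ∑ v ∈ V₀ \ Z, w v with hμ
    have hX'μ : X' + (μ * δ) • e ∈ K := by
      have h1 : X' + (μ * δ) • e = ∑ v ∈ V₀, w v • (P v + (if v ∈ Z then (0 : ℝ) else δ) • e) := by
        simp only [smul_add, Finset.sum_add_distrib]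
        rw [← hX']
        congr 1
        simp only [smul_smul]
        rw [← Finset.sum_smul]
        congr 1
        rw [hμ, Finset.sum_mul, ← Finset.sum_inter_add_sum_sdiff V₀ Z, add_comm]
        rw [Finset.sum_congr rfl (fun v (hv : v ∈ V₀ \ Z) => by
          rw [if_neg (Finset.mem_sdiff.1 hv).2] :
          ∀ v ∈ V₀ \ Z, w v * (if v ∈ Z then (0 : ℝ) else δ) = w v * δ)]
        rw [Finset.sum_congr rfl (fun v (hv : v ∈ V₀ ∩ Z) => by
          rw [if_pos (Finset.mem_inter.1 hv).2, mul_zero] :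
          ∀ v ∈ V₀ ∩ Z, w v * (if v ∈ Z then (0 : ℝ) else δ) = 0)]
        simp
      rw [h1]
      refine hK.sum_mem hw0 hw1 (fun v hv => ?_)
      by_cases hvZ : v ∈ Z
      · rw [if_pos hvZ, zero_smul, add_zero]
        exact (hP v (hV₀ hv)).1
      · rw [if_neg hvZ]
        exact hδ v (hV₀ hv) hvZ
    have hπX' : π X' = π X := by
      rw [hX', map_sum, ← hwX]
      refine Finset.sum_congr rfl fun v hv => ?_
      rw [map_smul, (hP v (hV₀ hv)).2]
    obtain ⟨c, hc⟩ := he (X - X') (by rw [map_sub, hπX', sub_self])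
    have hX1 : X = X' + c • e := by rw [← hc]; abel
    have hcm : c < η := by
      by_contra hcon
      push Not at hcon
      refine hXm ?_
      have hc0 : 0 < c := by linarith
      have h1 : X' + (c - η) • e ∈ K := Cn.shrink hK hX'K (v := e) (ε := c) (by
        rw [← hX1]; exact hX) (by linarith) (by linarith) hc0
      have h2 : X - η • e = X' + (c - η) • e := by rw [hX1]; module
      rw [h2]; exact h1
    have hcp : -η < c := by
      by_contra hcon
      push Not at hcon
      refine hXp ?_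
      have h1 : X + η • e ∈ K := Cn.shrink hK hX (v := e) (ε := -c) (by
        have : X + -c • e = X' := by rw [hX1]; module
        rw [this]; exact hX'K) (by linarith) (by linarith) (by linarith)
      exact h1
    have hμ0 : 0 ≤ μ := Finset.sum_nonneg fun v hv => hw0 v (Finset.mem_sdiff.1 hv).1
    have hμ2 : μ < 1 / 2 := by
      have h1 : μ * δ - c < η := by
        by_contra hcon
        push Not at hcon
        refine hXp ?_
        refine Cn.shrink hK hX (v := e) (ε := μ * δ - c) (by
          have : X + (μ * δ - c) • e = X' + (μ * δ) • e := by rw [hX1]; module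
          rw [this]; exact hX'μ) hη0.le hcon (by linarith)
      by_contra hcon
      push Not at hcon
      nlinarith
    have hZw : 1 / 2 < ∑ z ∈ V₀ ∩ Z, w z := by
      have h1 := Finset.sum_inter_add_sum_sdiff V₀ Z w
      rw [hw1] at h1
      rw [← hμ] at h1
      linarith
    obtain ⟨z, hzZ', hz⟩ : ∃ z ∈ V₀ ∩ Z, l ≤ w z := by
      by_contra hcon
      push Not at hcon
      have h1 : ∑ z ∈ V₀ ∩ Z, w z ≤ (V₀ ∩ Z).card * l := by
        rw [← nsmul_eq_mul]
        exact Finset.sum_le_card_nsmul _ _ _ (fun z hz => (hcon z hz).le)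
      have h2 : ((V₀ ∩ Z).card : ℝ) * l ≤ (Z.card + 1) * l := by
        have : ((V₀ ∩ Z).card : ℝ) ≤ Z.card := by
          exact_mod_cast Finset.card_le_card Finset.inter_subset_right
        gcongr
        linarith
      have h3 : (Z.card + 1 : ℝ) * l = 1 / 2 := by
        rw [hl]; field_simp
      linarith
    have hzZ : z ∈ Z := (Finset.mem_inter.1 hzZ').2
    refine ⟨z, hzZ, l, hl0, ?_⟩
    have hzV : z ∈ V₀ := (Finset.mem_inter.1 hzZ').1
    set Y : E := ∑ v ∈ V₀, ((w v - if v = z then l else 0) / (1 - l)) • P v with hY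
    have hYK : Y ∈ K := by
      refine hK.sum_mem (fun v hv => ?_) ?_ (fun v hv => (hP v (hV₀ hv)).1)
      · refine div_nonneg ?_ (by linarith)
        split_ifs with h
        · subst h; linarith
        · rw [sub_zero]; exact hw0 v hv
      · rw [← Finset.sum_div, Finset.sum_sub_distrib, hw1, Finset.sum_ite_eq' V₀ z, if_pos hzV]
        exact div_self (by linarith)
    have hY1 : (1 - l) • Y = X' - l • P z := by
      rw [hY, Finset.smul_sum]
      have h1 : ∀ v ∈ V₀, (1 - l) • (((w v - if v = z then l else 0) / (1 - l)) • P v) =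
          w v • P v - (if v = z then l • P v else 0) := by
        intro v hv
        rw [smul_smul, mul_div_cancel₀ _ (by linarith : (1 - l) ≠ 0), sub_smul]
        split_ifs
        · rfl
        · rw [zero_smul]
      rw [Finset.sum_congr rfl h1, Finset.sum_sub_distrib, Finset.sum_ite_eq' V₀ z, if_pos hzV]
    have hp1 : p₀ + (c / l) • e ∈ interior K := by
      apply hball
      rw [Metric.mem_ball, dist_eq_norm, add_sub_cancel_left, norm_smul, Real.norm_eq_abs, abs_div,
        abs_of_pos hl0, div_mul_eq_mul_div, div_lt_iff₀ hl0]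
      have h1 : |c| ≤ η := abs_le.2 ⟨hcp.le, hcm.le⟩
      have h2 : |c| * ‖e‖ ≤ η * ‖e‖ := by gcongr
      have h3 : 0 < l * ρ := by positivity
      linarith
    have h2 : X + l • (p₀ - P z) = (1 - l) • Y + l • (p₀ + (c / l) • e) := by
      rw [hY1, hX1, smul_add l, smul_smul, mul_div_cancel₀ _ hl0.ne', smul_sub]
      abel
    rw [h2]
    exact hK.combo_self_interior_mem_interior hYK hp1 (by linarith) hl0 (by ring)

end Pool.Agent.W677.Shadow
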