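import Pool.Agent.W677.Shadow

set_option autoImplicit false
set_option linter.unusedSectionVars false

/-!
Convex bodies some shadow of codimension one of which is a polytope: the count.
-/

open Set Topology
open Pool.Agent.H843R3.Had2

namespace Pool.Agent.W677.Shadow

section face

variable {F : Type*} [NormedAddCommGroup F] [NormedSpace ℝ F]

/-- The smallest face of `Q` containing `x`. -/
def face (Q : Set F) (x : F) : Set F := {y | y ∈ Q ∧ Cn Q x (x - y)}

variable {Q : Set F} {x : F}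

theorem face_convex (hQ : Convex ℝ Q) (hx : x ∈ Q) : Convex ℝ (face Q x) := by
  rintro y ⟨hy, hy1⟩ z ⟨hz, hz1⟩ a b ha hb hab
  refine ⟨hQ hy hz ha hb hab, ?_⟩
  have h1 : x - (a • y + b • z) = a • (x - y) + b • (x - z) := by
    have : x = a • x + b • x := by rw [← add_smul, hab, one_smul]
    nth_rewrite 1 [this]
    module
  rw [h1]
  exact (hy1.smul hx ha).add hQ hx (hz1.smul hx hb)

theorem self_mem_face (hx : x ∈ Q) : x ∈ face Q x :=
  ⟨hx, by rw [sub_self]; exact Cn.zero hx⟩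

theorem face_extreme (hQ : Convex ℝ Q) (hx : x ∈ Q) : IsExtreme ℝ Q (face Q x) := by
  refine ⟨fun y hy => hy.1, ?_⟩
  rintro y₁ h1 y₂ h2 y ⟨_, hy⟩ ⟨a, b, ha, hb, hab, rfl⟩
  refine ⟨h1, ?_⟩
  have h3 : x - y₁ = (1 / a) • (x - (a • y₁ + b • y₂)) + (b / a) • (y₂ - x) := by
    have hb' : b = 1 - a := by linarith
    subst hb'
    have e1 : (1 / a) * a = 1 := by field_simp
    have e2 : (1 / a) * (1 - a) = (1 - a) / a := by ring
    have e3 : (1 - a) / a = 1 / a - 1 := by field_simp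
    rw [smul_sub (1 / a), smul_add (1 / a), smul_smul, smul_smul, e1, e2, e3]
    module
  rw [h3]
  refine (hy.smul hx (by positivity)).add hQ hx (Cn.smul ⟨1, one_pos, ?_⟩ hx (by positivity))
  rw [one_smul, add_sub_cancel]
  exact h2

theorem extreme_of_trivial (hQ : Convex ℝ Q) (hx : x ∈ Q) (h : ¬ (face Q x).Nontrivial) :
    x ∈ Q.extremePoints ℝ := by
  rw [Set.not_nontrivial_iff] at h
  refine ⟨hx, fun x₁ h1 x₂ h2 h3 => ?_⟩
  exact h ((face_extreme hQ hx).left_mem_of_mem_openSegment h1 h2 (self_mem_face hx) h3)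
    (self_mem_face hx)

theorem illum_of_face (hQ : Convex ℝ Q) {q₀ z : F} (hq : q₀ ∈ interior Q) (hz : z ∈ face Q x) :
    Co Q x (q₀ - z) := by
  have h1 := Co.of hQ hz.2 hq
  have h2 : x - z + (q₀ - x) = q₀ - z := by abel
  rwa [h2] at h1

end face

variable {E F : Type*} [NormedAddCommGroup E] [NormedSpace ℝ E] [NormedAddCommGroup F]
  [NormedSpace ℝ F]

/-- The general bound `c(K) ≤ 2 c(π K) + |Z|`. -/
theorem gen {K : Set E} (hK : Convex ℝ K) (hKc : IsCompact K) (hKi : (interior K).Nonempty)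
    (π : E →L[ℝ] F) (s : F → E) (hs : ∀ v, π (s v) = v) (e : E)
    (he0 : e ≠ 0) (hπe : π e = 0) (he : ∀ y, π y = 0 → ∃ c : ℝ, y = c • e) (V : Set F)
    (hV : π '' K = convexHull ℝ V) (Z : Finset F)
    (hZ : ∀ z ∈ Z, ∀ y ∈ K, ∀ y' ∈ K, π y = z → π y' = z → y = y') {δ : ℝ} (hδ0 : 0 < δ)
    (hδ : ∀ v ∈ V, v ∉ Z → ∃ y ∈ K, ∃ y' ∈ K, π y = v ∧ π y' = v ∧ δ ≤ dist y y') (N : ℕ)
    (hN : ∃ T : Finset F, T.card ≤ N ∧ π '' K ⊆ ⋃ t ∈ T, (fun x => t + x) '' interior (π '' K)) :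
    ∃ T : Finset E, T.card ≤ 2 * N + Z.card ∧
      K ⊆ ⋃ t ∈ T, (fun x => t + x) '' interior K := by
  classical
  obtain ⟨p₀, hp₀⟩ := hKi
  obtain ⟨T₀, hT₀, hcov⟩ := hN
  have hep : 0 < ‖e‖ := norm_pos_iff.2 he0
  have hVQ : ∀ v ∈ V, v ∈ π '' K := fun v hv => by
    rw [hV]; exact subset_convexHull ℝ _ hv
  have hPex : ∀ v ∈ V, ∃ y : E, (y ∈ K ∧ π y = v) ∧ (v ∉ Z → y + (δ / ‖e‖) • e ∈ K) := by
    intro v hv
    by_cases hvZ : v ∈ Z
    · obtain ⟨y, hy, hyv⟩ := hVQ v hv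
      exact ⟨y, ⟨hy, hyv⟩, fun h => absurd hvZ h⟩
    · obtain ⟨y, hy, y', hy', h1, h2, h3⟩ := hδ v hv hvZ
      obtain ⟨c, hc⟩ := he (y' - y) (by rw [map_sub, h1, h2, sub_self])
      have hc1 : δ / ‖e‖ ≤ |c| := by
        rw [div_le_iff₀ hep]
        rw [dist_comm, dist_eq_norm, hc, norm_smul, Real.norm_eq_abs] at h3
        exact h3
      have hδe : 0 < δ / ‖e‖ := by positivity
      rcases le_or_gt 0 c with h4 | h4
      · rw [abs_of_nonneg h4] at hc1
        refine ⟨y, ⟨hy, h1⟩, fun _ => Cn.shrink hK hy (ε := c) ?_ hδe.le hc1 (by linarith)⟩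
        have : y + c • e = y' := by rw [← hc]; abel
        rw [this]; exact hy'
      · rw [abs_of_neg h4] at hc1
        refine ⟨y', ⟨hy', h2⟩, fun _ => Cn.shrink hK hy' (ε := -c) ?_ hδe.le hc1 (by linarith)⟩
        have : y' + -c • e = y := by rw [neg_smul, ← hc]; abel
        rw [this]; exact hy
  choose! P hP hPd using hPex
  set Z' : Finset F := Z.filter (fun z => z ∈ V) with hZ'
  have hZ'Z : Z'.card ≤ Z.card := Finset.card_le_card (Finset.filter_subset _ _)
  set A : Finset F := T₀.image (fun t => -t) with hA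
  have hAN : A.card ≤ N := Finset.card_image_le.trans hT₀
  obtain ⟨R, hR⟩ := core hK hKc hp₀ π s hs e he0 hπe he V hV.subset P (fun v hv => hP v hv) Z'
    (fun z hz y hy hyz => by
      have h1 := Finset.mem_filter.1 hz
      exact hZ z h1.1 y hy (P z) (hP z h1.2).1 hyz (hP z h1.2).2)
    (δ := δ / ‖e‖) (by positivity) (fun v hv hvZ => hPd v hv fun h =>
      hvZ (Finset.mem_filter.2 ⟨h, hv⟩)) A (by
      intro x hx _
      obtain ⟨t, ht, y, hy, hyx⟩ := Set.mem_iUnion₂.1 (hcov hx)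
      simp only at hyx
      refine ⟨-t, Finset.mem_image_of_mem _ ht, 1, one_pos, ?_⟩
      rw [one_smul, ← hyx, add_comm t y, add_neg_cancel_right]
      exact hy)
  set D : Finset E := Z'.image (fun z => p₀ - P z) ∪
    (A.image (fun v => s v + R • e) ∪ A.image (fun v => s v - R • e)) with hD
  have hDcard : D.card ≤ Z'.card + (A.card + A.card) := by
    refine (Finset.card_union_le _ _).trans ?_
    refine add_le_add Finset.card_image_le ((Finset.card_union_le _ _).trans ?_)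
    exact add_le_add Finset.card_image_le Finset.card_image_le
  obtain ⟨T, hT1, hT2⟩ := cover_of_dirs hK hKc D (by
    intro X hX
    rcases hR X hX with ⟨z, hz, h1⟩ | ⟨v, hv, h1 | h1⟩
    · exact ⟨_, Finset.mem_union_left _ (Finset.mem_image_of_mem _ hz), h1⟩
    · exact ⟨_, Finset.mem_union_right _ (Finset.mem_union_left _
        (Finset.mem_image_of_mem _ hv)), h1⟩
    · exact ⟨_, Finset.mem_union_right _ (Finset.mem_union_right _
        (Finset.mem_image_of_mem _ hv)), h1⟩)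
  exact ⟨T, by omega, hT2⟩

theorem poly {K : Set E} (hK : Convex ℝ K) (hKc : IsCompact K) (hKi : (interior K).Nonempty)
    (π : E →L[ℝ] F) (hopen : IsOpenMap π) (s : F → E) (hs : ∀ v, π (s v) = v) (e : E)
    (he0 : e ≠ 0) (hπe : π e = 0)
    (he : ∀ y, π y = 0 → ∃ c : ℝ, y = c • e) (V : Finset F)
    (hV : π '' K = convexHull ℝ (V : Set F)) (k : ℕ) (hk : 2 ≤ k) (col : F → Fin k)
    (hcol : ∀ G : Set F, Convex ℝ G → IsExtreme ℝ (π '' K) G → G.Nontrivial →
      ∃ z ∈ V, ∃ z' ∈ V, z ∈ G ∧ z' ∈ G ∧ col z ≠ col z') :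
    ∃ T : Finset E, k * T.card ≤ (3 * k - 2) * V.card ∧
      K ⊆ ⋃ t ∈ T, (fun x => t + x) '' interior K := by
  classical
  obtain ⟨p₀, hp₀⟩ := hKi
  have hQ : Convex ℝ (π '' K) := hK.linear_image π.toLinearMap
  have hq₀ : π p₀ ∈ interior (π '' K) := by
    have h1 : π '' (interior K) ⊆ interior (π '' K) :=
      interior_maximal (Set.image_mono interior_subset) (hopen _ isOpen_interior)
    exact h1 ⟨p₀, hp₀, rfl⟩
  have hVQ : ∀ v ∈ V, v ∈ π '' K := fun v hv => by
    rw [hV]; exact subset_convexHull ℝ _ hv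
  -- the lowest points of the fibres
  have hPex : ∀ v ∈ V, ∃ y : E, ∃ d : ℝ, 0 ≤ d ∧ (y ∈ K ∧ π y = v) ∧ y + d • e ∈ K ∧
      (d = 0 → ∀ y' ∈ K, π y' = v → y' = y) := by
    intro v hv
    obtain ⟨y, hy, hyv⟩ := hVQ v hv
    by_cases h : ∃ y' ∈ K, π y' = v ∧ y' ≠ y
    · obtain ⟨y', hy', h2, h3⟩ := h
      obtain ⟨c, hc⟩ := he (y' - y) (by rw [map_sub, h2, hyv, sub_self])
      have hc0 : c ≠ 0 := by
        rintro rfl
        rw [zero_smul, sub_eq_zero] at hc
        exact h3 hc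
      rcases lt_or_gt_of_ne hc0 with h4 | h4
      · refine ⟨y', -c, by linarith, ⟨hy', h2⟩, ?_, fun h5 => by linarith⟩
        have : y' + -c • e = y := by rw [neg_smul, ← hc]; abel
        rw [this]; exact hy
      · refine ⟨y, c, h4.le, ⟨hy, hyv⟩, ?_, fun h5 => by linarith⟩
        have : y + c • e = y' := by rw [← hc]; abel
        rw [this]; exact hy'
    · push Not at h
      exact ⟨y, 0, le_rfl, ⟨hy, hyv⟩, by rw [zero_smul, add_zero]; exact hy, fun _ => h⟩
  choose! P d hd0 hP hPd hP1 using hPex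
  set Z : Finset F := V.filter (fun v => d v = 0) with hZ
  have hZV : Z ⊆ V := Finset.filter_subset _ _
  obtain ⟨δ, hδ0, hδ⟩ : ∃ δ : ℝ, 0 < δ ∧ ∀ v ∈ V, v ∉ Z → δ ≤ d v := by
    rcases (V \ Z).eq_empty_or_nonempty with h | h
    · refine ⟨1, one_pos, fun v hv hvZ => ?_⟩
      have : v ∈ V \ Z := Finset.mem_sdiff.2 ⟨hv, hvZ⟩
      rw [h] at this
      exact absurd this (Finset.notMem_empty v)
    · obtain ⟨v₀, hv₀, hmin⟩ := Finset.exists_min_image (V \ Z) d h
      have hv1 := Finset.mem_sdiff.1 hv₀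
      refine ⟨d v₀, lt_of_le_of_ne (hd0 v₀ hv1.1) ?_, fun v hv hvZ =>
        hmin v (Finset.mem_sdiff.2 ⟨hv, hvZ⟩)⟩
      intro h0
      exact hv1.2 (Finset.mem_filter.2 ⟨hv1.1, h0.symm⟩)
  -- the largest colour class of `Z`
  obtain ⟨c₀, hc₀⟩ : ∃ c₀ : Fin k, Z.card ≤ k * (Z.filter (fun v => col v = c₀)).card := by
    by_contra hcon
    push Not at hcon
    have h1 : Z.card = ∑ c : Fin k, (Z.filter (fun v => col v = c)).card :=
      Finset.card_eq_sum_card_fiberwise (fun _ _ => Finset.mem_univ _)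
    have h2 : ∑ c : Fin k, k * (Z.filter (fun v => col v = c)).card < ∑ _c : Fin k, Z.card := by
      refine Finset.sum_lt_sum_of_nonempty ⟨⟨0, by omega⟩, Finset.mem_univ _⟩ fun c _ => hcon c
    rw [← Finset.mul_sum, ← h1, Finset.sum_const, Finset.card_univ, Fintype.card_fin,
      smul_eq_mul] at h2
    exact absurd h2 (lt_irrefl _)
  set I : Finset F := Z.filter (fun v => col v = c₀) with hI
  have hIZ : I ⊆ Z := Finset.filter_subset _ _
  set A : Finset F := (V \ I).image (fun z => π p₀ - z) with hA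
  have hAcard : A.card ≤ V.card - I.card := by
    refine Finset.card_image_le.trans ?_
    rw [Finset.card_sdiff_of_subset (hIZ.trans hZV)]
  have hAill : ∀ x ∈ π '' K, x ∉ Z → ∃ v ∈ A, Co (π '' K) x v := by
    intro x hx hxZ
    have key : ∃ z ∈ V, z ∉ I ∧ z ∈ face (π '' K) x := by
      by_cases hnt : (face (π '' K) x).Nontrivial
      · obtain ⟨z, hz, z', hz', h1, h2, h3⟩ := hcol _ (face_convex hQ hx) (face_extreme hQ hx) hnt
        by_cases h4 : col z = c₀
        · refine ⟨z', hz', fun h5 => h3 ?_, h2⟩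
          rw [h4, (Finset.mem_filter.1 h5).2]
        · exact ⟨z, hz, fun h5 => h4 (Finset.mem_filter.1 h5).2, h1⟩
      · have h1 := extreme_of_trivial hQ hx hnt
        have h2 : x ∈ (V : Set F) := by
          rw [hV] at h1
          exact extremePoints_convexHull_subset h1
        exact ⟨x, h2, fun h3 => hxZ (hIZ h3), self_mem_face hx⟩
    obtain ⟨z, hz, hzI, hzf⟩ := key
    exact ⟨π p₀ - z, Finset.mem_image_of_mem _ (Finset.mem_sdiff.2 ⟨hz, hzI⟩),
      illum_of_face hQ hq₀ hzf⟩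
  obtain ⟨R, hR⟩ := core hK hKc hp₀ π s hs e he0 hπe he (V : Set F) hV.subset P
    (fun v hv => hP v hv) Z
    (fun z hz y hy hyz => hP1 z (hZV hz) (Finset.mem_filter.1 hz).2 y hy hyz) hδ0
    (fun v hv hvZ => Cn.shrink hK (hP v hv).1 (hPd v hv) hδ0.le (hδ v hv hvZ)
      (lt_of_lt_of_le hδ0 (hδ v hv hvZ))) A hAill
  set D : Finset E := Z.image (fun z => p₀ - P z) ∪
    (A.image (fun v => s v + R • e) ∪ A.image (fun v => s v - R • e)) with hD
  have hDcard : D.card ≤ Z.card + (A.card + A.card) := by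
    refine (Finset.card_union_le _ _).trans ?_
    refine add_le_add Finset.card_image_le ((Finset.card_union_le _ _).trans ?_)
    exact add_le_add Finset.card_image_le Finset.card_image_le
  obtain ⟨T, hT1, hT2⟩ := cover_of_dirs hK hKc D (by
    intro X hX
    rcases hR X hX with ⟨z, hz, h1⟩ | ⟨v, hv, h1 | h1⟩
    · exact ⟨_, Finset.mem_union_left _ (Finset.mem_image_of_mem _ hz), h1⟩
    · exact ⟨_, Finset.mem_union_right _ (Finset.mem_union_left _
        (Finset.mem_image_of_mem _ hv)), h1⟩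
    · exact ⟨_, Finset.mem_union_right _ (Finset.mem_union_right _
        (Finset.mem_image_of_mem _ hv)), h1⟩)
  refine ⟨T, ?_, hT2⟩
  have hZVc := Finset.card_le_card hZV
  have hIZc := Finset.card_le_card hIZ
  have h1 : T.card + 2 * I.card ≤ 2 * V.card + Z.card := by omega
  obtain ⟨j, rfl⟩ : ∃ j, k = j + 2 := ⟨k - 2, by omega⟩
  have h2 : (j + 2) * T.card + 2 * ((j + 2) * I.card) ≤
      2 * ((j + 2) * V.card) + (j + 2) * Z.card := by
    have := Nat.mul_le_mul_left (j + 2) h1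
    nlinarith
  have h3 : 3 * (j + 2) - 2 = 3 * j + 4 := by omega
  rw [h3]
  nlinarith [Nat.mul_le_mul_left j hZVc]

end Pool.Agent.W677.Shadow
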