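import Pool.Agent.W677.Shadow3

set_option autoImplicit false
set_option linter.unusedSectionVars false

/-!
Colourings of polygons with at most four vertices.
-/

open Set Topology
open Pool.Agent.H843R3.Had2

namespace Pool.Agent.W677.Shadow

variable {F : Type*} [NormedAddCommGroup F] [NormedSpace ℝ F]

theorem pos_weight {Q G : Set F} (hQ : Convex ℝ Q) (hG : IsExtreme ℝ Q G) (V : Finset F)
    (hV : ∀ v ∈ V, v ∈ Q) {w : F → ℝ} (hw0 : ∀ v ∈ V, 0 ≤ w v) (hw1 : ∑ v ∈ V, w v = 1)
    (hx : ∑ v ∈ V, w v • v ∈ G) {u : F} (hu : u ∈ V) (hwu : 0 < w u) : u ∈ G := by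
  classical
  have h1 : w u ≤ 1 := by
    rw [← hw1]
    exact Finset.single_le_sum hw0 hu
  rcases h1.eq_or_lt with h2 | h2
  · have h3 : ∀ v ∈ V, v ≠ u → w v = 0 := by
      intro v hv hvu
      have h4 : ∑ x ∈ V.erase u, w x = 0 := by
        have := Finset.add_sum_erase V w hu
        rw [hw1, h2] at this
        linarith
      exact (Finset.sum_eq_zero_iff_of_nonneg
        (fun x hx => hw0 x (Finset.mem_of_mem_erase hx))).1 h4 v (Finset.mem_erase.2 ⟨hvu, hv⟩)
    have h4 : ∑ v ∈ V, w v • v = u := by
      rw [Finset.sum_eq_single u]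
      · rw [h2, one_smul]
      · intro v hv hvu
        rw [h3 v hv hvu, zero_smul]
      · intro h; exact absurd hu h
    rwa [h4] at hx
  · have h3 : (0 : ℝ) < 1 - w u := by linarith
    set y : F := ∑ v ∈ V.erase u, (w v / (1 - w u)) • v with hy
    have hyQ : y ∈ Q := by
      refine hQ.sum_mem (fun v hv => div_nonneg (hw0 v (Finset.mem_of_mem_erase hv)) h3.le) ?_
        (fun v hv => hV v (Finset.mem_of_mem_erase hv))
      rw [← Finset.sum_div, div_eq_one_iff_eq h3.ne']
      have := Finset.add_sum_erase V w hu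
      rw [hw1] at this
      linarith
    refine hG.left_mem_of_mem_openSegment (hV u hu) hyQ hx ⟨w u, 1 - w u, hwu, h3, by ring, ?_⟩
    rw [← Finset.add_sum_erase V (fun v => w v • v) hu, hy, Finset.smul_sum]
    congr 1
    refine Finset.sum_congr rfl fun v _ => ?_
    rw [smul_smul, mul_div_cancel₀ _ h3.ne']

theorem face_two {Q G : Set F} (hG : IsExtreme ℝ Q G) (V : Finset F)
    (hV : Q = convexHull ℝ (V : Set F)) (hnt : G.Nontrivial) :
    ∃ u ∈ V, ∃ v ∈ V, u ∈ G ∧ v ∈ G ∧ u ≠ v := by
  classical
  have hVQ : ∀ v ∈ V, v ∈ Q := fun v hv => by rw [hV]; exact subset_convexHull ℝ _ hv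
  have hQ : Convex ℝ Q := by rw [hV]; exact convex_convexHull ℝ _
  by_contra hcon
  push Not at hcon
  refine Set.not_nontrivial_iff.2 ?_ hnt
  -- every point of `G` is equal to a point of `V ∩ G`
  have key : ∀ x ∈ G, x ∈ V := by
    intro x hx
    have h1 := hG.subset hx
    rw [hV] at h1
    obtain ⟨w, hw0, hw1, hwx⟩ := Finset.mem_convexHull'.1 h1
    obtain ⟨u, hu, hwu⟩ : ∃ u ∈ V, 0 < w u := by
      by_contra h2
      push Not at h2
      have h3 : ∑ v ∈ V, w v ≤ 0 := Finset.sum_nonpos h2
      linarith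
    have hxG : ∑ v ∈ V, w v • v ∈ G := by rw [hwx]; exact hx
    have huG := pos_weight hQ hG V hVQ hw0 hw1 hxG hu hwu
    have h2 : ∀ v ∈ V, v ≠ u → w v = 0 := by
      intro v hv hvu
      by_contra h3
      have h4 : 0 < w v := lt_of_le_of_ne (hw0 v hv) (Ne.symm h3)
      exact hvu (hcon v hv u hu (pos_weight hQ hG V hVQ hw0 hw1 hxG hv h4) huG)
    have h3 : w u = 1 := by
      rw [← hw1, Finset.sum_eq_single u (fun v hv hvu => h2 v hv hvu)
        (fun h => absurd hu h)]
    have h4 : x = u := by
      rw [← hwx, Finset.sum_eq_single u (fun v hv hvu => by rw [h2 v hv hvu, zero_smul])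
        (fun h => absurd hu h), h3, one_smul]
    rw [h4]; exact hu
  intro x hx y hy
  exact hcon x (key x hx) y (key y hy) hx hy

/-- A planar polytope with at most four vertices has a weak colouring with 3 or 2 colours. -/
theorem four [FiniteDimensional ℝ F] (hF : Module.finrank ℝ F = 2) (Q : Set F) (V : Finset F)
    (hV4 : V.card ≤ 4) (hV : Q = convexHull ℝ (V : Set F)) :
    ∃ (V' : Finset F) (k : ℕ) (col : F → Fin k), 2 ≤ k ∧ (3 * k - 2) * V'.card ≤ 8 * k ∧
      Q = convexHull ℝ (V' : Set F) ∧
      ∀ G : Set F, Convex ℝ G → IsExtreme ℝ Q G → G.Nontrivial →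
      ∃ z ∈ V', ∃ z' ∈ V', z ∈ G ∧ z' ∈ G ∧ col z ≠ col z' := by
  classical
  set V' : Finset F := V.filter (fun v => v ∈ Q.extremePoints ℝ) with hV'
  have hQc : Convex ℝ Q := by rw [hV]; exact convex_convexHull ℝ _
  have hQk : IsCompact Q := by rw [hV]; exact V.finite_toSet.isCompact_convexHull ℝ
  have hext : Q.extremePoints ℝ = (V' : Set F) := by
    ext x
    simp only [hV', Finset.coe_filter, mem_ofPred_eq]
    refine ⟨fun h => ⟨?_, h⟩, fun h => h.2⟩
    rw [hV] at h
    exact extremePoints_convexHull_subset h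
  have hQV' : Q = convexHull ℝ (V' : Set F) := by
    rw [← hext]
    have h1 := closure_convexHull_extremePoints hQk hQc
    rw [hext] at h1 ⊢
    rw [(V'.finite_toSet.isCompact_convexHull ℝ).isClosed.closure_eq] at h1
    exact h1.symm
  have hV'4 : V'.card ≤ 4 := (Finset.card_le_card (Finset.filter_subset _ _)).trans hV4
  rcases Nat.lt_or_ge V'.card 4 with h3 | h3
  · -- three colours
    have hc : V'.card ≤ 3 := by omega
    set f : F → Fin 3 := fun x => if h : x ∈ V' then Fin.castLE hc (V'.equivFin ⟨x, h⟩) else 0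
      with hf
    refine ⟨V', 3, f, by norm_num, by omega, hQV', ?_⟩
    intro G _ hGe hnt
    obtain ⟨u, hu, v, hv, h4, h5, h6⟩ := face_two hGe V' hQV' hnt
    refine ⟨u, hu, v, hv, h4, h5, fun h7 => h6 ?_⟩
    simp only [hf, dif_pos hu, dif_pos hv] at h7
    have h8 := (Fin.castLE_injective hc) h7
    have h9 := V'.equivFin.injective h8
    exact congrArg Subtype.val h9
  · have hc : V'.card = 4 := by omega
    have hnai : ¬ AffineIndependent ℝ (fun x : V' => (x : F)) := by
      intro h
      have h1 := h.card_le_finrank_succ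
      rw [Fintype.card_coe, hc] at h1
      have h2 : Module.finrank ℝ (vectorSpan ℝ (Set.range (fun x : V' => (x : F)))) ≤ 2 := by
        rw [← hF]
        exact Submodule.finrank_le _
      omega
    obtain ⟨I, p, hp1, hp2⟩ := Convex.radon_partition hnai
    set I' : Finset F := V'.filter (fun x => ∃ h : x ∈ V', (⟨x, h⟩ : V') ∈ I) with hI'
    have e1 : (fun x : V' => (x : F)) '' I = (I' : Set F) := by
      ext x
      simp only [hI', Finset.coe_filter, mem_ofPred_eq, Set.mem_image, Subtype.exists,
        exists_and_right, exists_eq_right]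
      constructor
      · rintro ⟨h1, h2⟩; exact ⟨h1, h1, h2⟩
      · rintro ⟨_, h1, h2⟩; exact ⟨h1, h2⟩
    have e2 : (fun x : V' => (x : F)) '' Iᶜ = ((V' \ I' : Finset F) : Set F) := by
      ext x
      simp only [hI', Finset.coe_sdiff, Finset.coe_filter, mem_ofPred_eq, Set.mem_image,
        Subtype.exists, exists_and_right, exists_eq_right, Set.mem_sdiff, Finset.mem_coe]
      constructor
      · rintro ⟨h1, h2⟩
        exact ⟨h1, fun h3 => h2 h3.2.2⟩
      · rintro ⟨h1, h2⟩
        exact ⟨h1, fun h3 => h2 ⟨h1, h1, h3⟩⟩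
    rw [e1] at hp1
    rw [e2] at hp2
    set col : F → Fin 2 := fun x => if x ∈ I' then 0 else 1 with hcol
    refine ⟨V', 2, col, le_rfl, by omega, hQV', ?_⟩
    intro G hGc hGe hnt
    obtain ⟨u, hu, v, hv, h4, h5, h6⟩ := face_two hGe V' hQV' hnt
    by_contra hcon
    push Not at hcon
    -- the general argument for a partition `S₁ ∪ S₂`
    have gen : ∀ S₁ S₂ : Finset F, S₁ ∪ S₂ = V' → Disjoint S₁ S₂ →
        p ∈ convexHull ℝ (S₁ : Set F) → p ∈ convexHull ℝ (S₂ : Set F) →
        u ∈ S₁ → v ∈ S₁ → ∃ z ∈ S₂, z ∈ G := by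
      intro S₁ S₂ hU hD hq1 hq2 hu1 hv1
      have hcard : S₁.card + S₂.card = 4 := by
        rw [← Finset.card_union_of_disjoint hD, hU, hc]
      have hS1 : 1 < S₁.card := Finset.one_lt_card.2 ⟨u, hu1, v, hv1, h6⟩
      have hsub1 : (S₁ : Set F) ⊆ V' := by
        rw [← hU]; exact_mod_cast Finset.subset_union_left
      have hsub2 : S₂ ⊆ V' := by
        rw [← hU]; exact Finset.subset_union_right
      have hS2 : 1 < S₂.card := by
        by_contra h7
        push Not at h7
        rcases Nat.lt_or_ge 0 S₂.card with h8 | h8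
        · obtain ⟨z, hz⟩ := Finset.card_eq_one.1 (by omega : S₂.card = 1)
          rw [hz, Finset.coe_singleton, convexHull_singleton, mem_singleton_iff] at hq2
          have hzV : z ∈ V' := hsub2 (by rw [hz]; exact Finset.mem_singleton_self z)
          have hze : z ∈ Q.extremePoints ℝ := by rw [hext]; exact hzV
          have h9 : convexHull ℝ (S₁ : Set F) ⊆ Q := by
            rw [hQV']; exact convexHull_mono hsub1
          have h10 : z ∈ (convexHull ℝ (S₁ : Set F)).extremePoints ℝ :=
            inter_extremePoints_subset_extremePoints_of_subset h9 ⟨hq2 ▸ hq1, hze⟩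
          have h11 : z ∈ S₁ := extremePoints_convexHull_subset h10
          exact (Finset.disjoint_left.1 hD h11) (by rw [hz]; exact Finset.mem_singleton_self z)
        · have h9 : S₂ = ∅ := Finset.card_eq_zero.1 (by omega)
          rw [h9] at hq2
          simp at hq2
      have hS1' : S₁ = {u, v} := by
        symm
        refine Finset.eq_of_subset_of_card_le ?_ ?_
        · intro x hx
          rcases Finset.mem_insert.1 hx with rfl | hx
          · exact hu1
          · rw [Finset.mem_singleton.1 hx]; exact hv1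
        · rw [Finset.card_pair h6]; omega
      have hpG : p ∈ G := by
        rw [hS1'] at hq1
        have : ((({u, v} : Finset F)) : Set F) = {u, v} := by simp
        rw [this] at hq1
        exact (convexHull_min (by
          intro x hx
          rcases hx with rfl | hx
          · exact h4
          · rw [mem_singleton_iff.1 hx]; exact h5) hGc) hq1
      obtain ⟨w, hw0, hw1, hwp⟩ := Finset.mem_convexHull'.1 hq2
      obtain ⟨z, hz, hwz⟩ : ∃ z ∈ S₂, 0 < w z := by
        by_contra h7
        push Not at h7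
        have h8 : ∑ y ∈ S₂, w y ≤ 0 := Finset.sum_nonpos h7
        linarith
      refine ⟨z, hz, pos_weight hQc hGe S₂ (fun y hy => ?_) hw0 hw1 (by rw [hwp]; exact hpG)
        hz hwz⟩
      rw [hQV']
      exact subset_convexHull ℝ _ (hsub2 hy)
    have hI'V : I' ⊆ V' := Finset.filter_subset _ _
    by_cases huI : u ∈ I'
    · have hvI : v ∈ I' := by
        by_contra h7
        have := hcon u hu v hv h4 h5
        simp only [hcol, if_pos huI, if_neg h7] at this
        exact absurd this (by decide)
      obtain ⟨z, hz, hzG⟩ := gen I' (V' \ I') (Finset.union_sdiff_of_subset hI'V)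
        Finset.disjoint_sdiff hp1 hp2 huI hvI
      have hz' := Finset.mem_sdiff.1 hz
      have := hcon u hu z hz'.1 h4 hzG
      simp only [hcol, if_pos huI, if_neg hz'.2] at this
      exact absurd this (by decide)
    · have hvI : v ∉ I' := by
        intro h7
        have := hcon u hu v hv h4 h5
        simp only [hcol, if_neg huI, if_pos h7] at this
        exact absurd this (by decide)
      obtain ⟨z, hz, hzG⟩ := gen (V' \ I') I' (Finset.sdiff_union_of_subset hI'V)
        Finset.sdiff_disjoint hp2 hp1 (Finset.mem_sdiff.2 ⟨hu, huI⟩)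
        (Finset.mem_sdiff.2 ⟨hv, hvI⟩)
      have := hcon u hu z (hI'V hz) h4 hzG
      simp only [hcol, if_neg huI, if_pos hz] at this
      exact absurd this (by decide)

end Pool.Agent.W677.Shadow
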