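import Pool.Agent.W677.Shadow2

set_option autoImplicit false
set_option linter.unusedSectionVars false

/-!
Illumination of convex bodies with a lower-dimensional summand.
-/

open Set Topology
open Pool.Agent.H843R3.Had2 Pool.Agent.W677.Shadow

namespace Pool.Agent.W677.Summand

theorem depth {U : Type*} [NormedAddCommGroup U] [NormedSpace ℝ U] {L : Set U} (hL : IsCompact L)
    (W : Finset U) (r : ℝ) (h : ∀ y ∈ L, ∃ w ∈ W, y + r • w ∈ interior L) :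
    ∃ ρ : ℝ, 0 < ρ ∧ ∀ y ∈ L, ∃ w ∈ W, ∀ z, ‖z‖ ≤ ρ → y + r • w + z ∈ L := by
  have key : ∃ ρ : ℝ, 0 < ρ ∧ ∀ y ∈ L, ∃ w ∈ W, ∀ z, ‖z‖ ≤ ρ → y + r • w + z ∈ L := by
    refine hL.induction_on (p := fun s => ∃ ρ : ℝ, 0 < ρ ∧ ∀ y ∈ s, ∃ w ∈ W, ∀ z, ‖z‖ ≤ ρ →
      y + r • w + z ∈ L) ?_ ?_ ?_ ?_
    · exact ⟨1, one_pos, fun y hy => absurd hy (notMem_empty y)⟩
    · rintro s t hst ⟨ρ, hρ, h1⟩
      exact ⟨ρ, hρ, fun y hy => h1 y (hst hy)⟩
    · rintro s t ⟨ρ, hρ, h1⟩ ⟨ρ', hρ', h2⟩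
      refine ⟨min ρ ρ', lt_min hρ hρ', fun y hy => ?_⟩
      rcases hy with hy | hy
      · obtain ⟨w, hw, h3⟩ := h1 y hy
        exact ⟨w, hw, fun z hz => h3 z (hz.trans (min_le_left _ _))⟩
      · obtain ⟨w, hw, h3⟩ := h2 y hy
        exact ⟨w, hw, fun z hz => h3 z (hz.trans (min_le_right _ _))⟩
    · intro y hy
      obtain ⟨w, hw, h1⟩ := h y hy
      obtain ⟨ρ, hρ, hb⟩ := Metric.isOpen_iff.1 isOpen_interior _ h1
      refine ⟨Metric.ball y (ρ / 2), mem_nhdsWithin_of_mem_nhds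
        (Metric.ball_mem_nhds y (by positivity)), ρ / 4, by positivity, fun y' hy' =>
        ⟨w, hw, fun z hz => interior_subset (hb ?_)⟩⟩
      rw [Metric.mem_ball, dist_eq_norm] at hy' ⊢
      have h2 : y' + r • w + z - (y + r • w) = (y' - y) + z := by abel
      rw [h2]
      have h3 := norm_add_le (y' - y) z
      linarith
  exact key

variable {E F U : Type*} [NormedAddCommGroup E] [NormedSpace ℝ E] [NormedAddCommGroup F]
  [NormedSpace ℝ F] [NormedAddCommGroup U] [NormedSpace ℝ U]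

/-- **The core.** -/
theorem core {K B : Set E} {L : Set U} (hK : Convex ℝ K) (hKc : IsCompact K) {p₀ : E}
    (hp₀ : p₀ ∈ interior K) (hL : Convex ℝ L) (hLc : IsCompact L) (ι : U →ₗᵢ[ℝ] E)
    (hsum : ∀ X, X ∈ K ↔ ∃ y ∈ L, ∃ b ∈ B, X = ι y + b)
    (π : E →L[ℝ] F) (s : F → E) (hs : ∀ v, π (s v) = v)
    (he : ∀ y, π y = 0 → ∃ z : U, y = ι z)
    (W : Finset U) (hW : ∀ y ∈ L, ∃ w ∈ W, Co L y w) (A : Finset F)
    (hA : ∀ x ∈ π '' K, ∃ v ∈ A, Co (π '' K) x v) :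
    ∃ R : ℝ, ∀ X ∈ K, ∃ w ∈ W, ∃ v ∈ A, Co K X (s v + R • ι w) := by
  classical
  obtain ⟨C, hC⟩ := hKc.isBounded.exists_norm_le
  have hQ : Convex ℝ (π '' K) := hK.linear_image π.toLinearMap
  obtain ⟨r, hr, hr1⟩ := unif hQ (hKc.image π.continuous) subset_rfl (fun v : A => (v : F)) (by
    intro x hx
    obtain ⟨v, hv, h1⟩ := hA x hx
    exact ⟨⟨v, hv⟩, h1⟩)
  obtain ⟨q, hq, hq1⟩ := unif hL hLc subset_rfl (fun w : W => (w : U)) (by
    intro x hx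
    obtain ⟨v, hv, h1⟩ := hW x hx
    exact ⟨⟨v, hv⟩, h1⟩)
  obtain ⟨ρ, hρ, hρ1⟩ := depth hLc W q (fun y hy => by
    obtain ⟨w, hw⟩ := hq1 y hy
    exact ⟨w, w.2, hw⟩)
  obtain ⟨M, hM0, hM⟩ : ∃ M : ℝ, 0 ≤ M ∧ ∀ v ∈ A, ‖s v‖ ≤ M := by
    refine ⟨∑ v ∈ A, ‖s v‖, Finset.sum_nonneg fun _ _ => norm_nonneg _, fun v hv => ?_⟩
    exact Finset.single_le_sum (f := fun v => ‖s v‖) (fun _ _ => norm_nonneg _) hv
  have hC0 : 0 ≤ C := (norm_nonneg _).trans (hC p₀ (interior_subset hp₀))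
  set D : ℝ := 2 * C + r * M + 1 with hD
  have hD0 : 0 < D := by positivity
  set R : ℝ := q * D / (r * ρ) with hR
  have hR0 : 0 < R := by positivity
  refine ⟨R, fun X hX => ?_⟩
  obtain ⟨y, hy, b, hb, hXy⟩ := (hsum X).1 hX
  obtain ⟨w, hw, hw1⟩ := hρ1 y hy
  obtain ⟨v, hv⟩ := hr1 (π X) ⟨X, hX, rfl⟩
  refine ⟨w, hw, v, v.2, ?_⟩
  obtain ⟨Y, hY, hY1⟩ := lift_int hK hp₀ π hv
  obtain ⟨z, hz⟩ := he (Y - X - r • s v) (by
    rw [map_sub, map_sub, map_smul, hs, hY1]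
    abel)
  have hYX : Y - X = r • s v + ι z := by rw [← hz]; abel
  have hzD : ‖z‖ ≤ D := by
    rw [← ι.norm_map z, ← hz]
    have h2 := norm_sub_le (Y - X) (r • s v)
    have h3 := norm_sub_le Y X
    have h4 := hC Y (interior_subset hY)
    have h5 := hC X hX
    have h6 : ‖r • s (v : F)‖ ≤ r * M := by
      rw [norm_smul, Real.norm_eq_abs, abs_of_pos hr]
      exact mul_le_mul_of_nonneg_left (hM v v.2) hr.le
    linarith
  have hcn : Cn K X (ι ((r * R) • w - z)) := by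
    refine ⟨q / (r * R), by positivity, ?_⟩
    refine (hsum _).2 ⟨y + q • w + -((q / (r * R)) • z), hw1 _ ?_, b, hb, ?_⟩
    · rw [norm_neg, norm_smul, Real.norm_eq_abs, abs_of_pos (by positivity)]
      have h1 : q / (r * R) = ρ / D := by
        rw [hR]; field_simp
      rw [h1, div_mul_eq_mul_div, div_le_iff₀ hD0]
      gcongr
    · rw [hXy, ← map_smul, smul_sub, smul_smul, div_mul_cancel₀ _ (by positivity : r * R ≠ 0)]
      rw [map_add, map_add, map_sub, map_neg]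
      abel
  have h3 := Co.of hK hcn hY
  rw [hYX] at h3
  have h4 := h3.smul (c := 1 / r) (by positivity)
  have h5 : (1 / r) • (ι ((r * R) • w - z) + (r • s (v : F) + ι z)) = s v + R • ι w := by
    rw [map_sub, map_smul]
    have h6 : (1 / r) * r = 1 := by field_simp
    have h7 : (r * R) • ι w - ι z + (r • s (v : F) + ι z) = r • (s (v : F) + R • ι w) := by
      rw [smul_add, smul_smul]; abel
    rw [h7, smul_smul, h6, one_smul]
  rwa [h5] at h4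

/-- a covering gives directions -/
theorem dirs_of_cover {L : Set U} {N : ℕ}
    (h : ∃ T : Finset U, T.card ≤ N ∧ L ⊆ ⋃ t ∈ T, (fun x => t + x) '' interior L) :
    ∃ W : Finset U, W.card ≤ N ∧ ∀ y ∈ L, ∃ w ∈ W, Co L y w := by
  classical
  obtain ⟨T, hT, h1⟩ := h
  refine ⟨T.image (fun t => -t), Finset.card_image_le.trans hT, fun x hx => ?_⟩
  obtain ⟨t, ht, y, hy, hyx⟩ := Set.mem_iUnion₂.1 (h1 hx)
  simp only at hyx
  refine ⟨-t, Finset.mem_image_of_mem _ ht, 1, one_pos, ?_⟩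
  rw [one_smul, ← hyx, add_comm t y, add_neg_cancel_right]
  exact hy

/-- **The bound** `c(K) ≤ c(L) c(Q)`. -/
theorem bound {K B : Set E} {L : Set U} (hK : Convex ℝ K) (hKc : IsCompact K)
    (hKi : (interior K).Nonempty) (hL : Convex ℝ L) (hLc : IsCompact L) (ι : U →ₗᵢ[ℝ] E)
    (hsum : ∀ X, X ∈ K ↔ ∃ y ∈ L, ∃ b ∈ B, X = ι y + b)
    (π : E →L[ℝ] F) (s : F → E) (hs : ∀ v, π (s v) = v)
    (he : ∀ y, π y = 0 → ∃ z : U, y = ι z) (N M : ℕ)
    (hN : ∃ T : Finset U, T.card ≤ N ∧ L ⊆ ⋃ t ∈ T, (fun x => t + x) '' interior L)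
    (hM : ∃ T : Finset F, T.card ≤ M ∧ π '' K ⊆ ⋃ t ∈ T, (fun x => t + x) '' interior (π '' K)) :
    ∃ T : Finset E, T.card ≤ N * M ∧ K ⊆ ⋃ t ∈ T, (fun x => t + x) '' interior K := by
  classical
  obtain ⟨p₀, hp₀⟩ := hKi
  obtain ⟨W, hW, hW1⟩ := dirs_of_cover hN
  obtain ⟨A, hA, hA1⟩ := dirs_of_cover hM
  obtain ⟨R, hR⟩ := core hK hKc hp₀ hL hLc ι hsum π s hs he W hW1 A hA1
  obtain ⟨T, hT1, hT2⟩ := cover_of_dirs hK hKc
    ((W ×ˢ A).image (fun p => s p.2 + R • ι p.1)) (by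
      intro X hX
      obtain ⟨w, hw, v, hv, h1⟩ := hR X hX
      exact ⟨_, Finset.mem_image_of_mem _ (Finset.mk_mem_product hw hv), h1⟩)
  refine ⟨T, hT1.trans (Finset.card_image_le.trans ?_), hT2⟩
  rw [Finset.card_product]
  exact Nat.mul_le_mul hW hA

end Pool.Agent.W677.Summand
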