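import Pool.Agent.W677.Summand
import Pool.Agent.W677.Shadow4

set_option autoImplicit false
set_option linter.unusedSectionVars false

/-!
Convex bodies with a lower-dimensional summand: relative interiors, coordinates.
-/

open Set Topology
open scoped Pointwise
open Pool.Agent.H843R3.Had2 Pool.Agent.W677.Shadow

namespace Pool.Agent.W677.Summand

/-- `X` is covered by `N` translates of its interior. -/
def Cov {V : Type*} [NormedAddCommGroup V] [NormedSpace ℝ V] (X : Set V) (N : ℕ) : Prop :=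
  ∃ T : Finset V, T.card ≤ N ∧ X ⊆ ⋃ t ∈ T, (fun x => t + x) '' interior X

theorem intrinsicInterior_of_span {V : Type*} [NormedAddCommGroup V] [NormedSpace ℝ V]
    {s : Set V} (h : affineSpan ℝ s = ⊤) : intrinsicInterior ℝ s = interior s := by
  refine subset_antisymm ?_ interior_subset_intrinsicInterior
  refine interior_maximal intrinsicInterior_subset ?_
  have h1 : IsOpen ((affineSpan ℝ s : AffineSubspace ℝ V) : Set V) := by
    rw [h]; exact isOpen_univ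
  exact h1.isOpenEmbedding_subtypeVal.isOpenMap _ isOpen_interior

section sub

variable {E V : Type*} [NormedAddCommGroup E] [NormedSpace ℝ E]
  [NormedAddCommGroup V] [NormedSpace ℝ V]
variable {A : Set E} {a₀ : E} {ι : V →ₗᵢ[ℝ] E}

/-- `A` in its own span. -/
def Lset (ι : V →ₗᵢ[ℝ] E) (A : Set E) (a₀ : E) : Set V := {u | a₀ + ι u ∈ A}

/-- the embedding -/
noncomputable def phi (ι : V →ₗᵢ[ℝ] E) (a₀ : E) : V →ᵃⁱ[ℝ] E :=
  (AffineIsometryEquiv.constVAdd ℝ E a₀).toAffineIsometry.comp ι.toAffineIsometry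

theorem phi_apply (u : V) : phi ι a₀ u = a₀ + ι u := rfl

theorem phi_image (hι : ∀ x ∈ vectorSpan ℝ A, ∃ u, ι u = x) (ha : a₀ ∈ A) :
    phi ι a₀ '' Lset ι A a₀ = A := by
  ext x
  constructor
  · rintro ⟨u, hu, rfl⟩
    exact hu
  · intro hx
    obtain ⟨u, hu⟩ := hι (x - a₀) (vsub_mem_vectorSpan ℝ hx ha)
    refine ⟨u, ?_, ?_⟩
    · show a₀ + ι u ∈ A
      rw [hu, add_sub_cancel]; exact hx
    · rw [phi_apply, hu, add_sub_cancel]

theorem Lset_convex (hA : Convex ℝ A) : Convex ℝ (Lset ι A a₀) := by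
  rintro x hx y hy p q hp hq hpq
  show a₀ + ι (p • x + q • y) ∈ A
  have h1 : a₀ + ι (p • x + q • y) = p • (a₀ + ι x) + q • (a₀ + ι y) := by
    rw [map_add, map_smul, map_smul]
    have : a₀ = p • a₀ + q • a₀ := by rw [← add_smul, hpq, one_smul]
    nth_rewrite 1 [this]
    module
  rw [h1]
  exact hA hx hy hp hq hpq

theorem Lset_compact (hι : ∀ x ∈ vectorSpan ℝ A, ∃ u, ι u = x) (ha : a₀ ∈ A) (hA : IsCompact A) :
    IsCompact (Lset ι A a₀) := by
  have h1 : IsCompact (phi ι a₀ '' Lset ι A a₀) := by rw [phi_image hι ha]; exact hA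
  exact (phi ι a₀).isometry.isEmbedding.isInducing.isCompact_iff.2 h1

theorem Lset_span (hι : ∀ x, x ∈ vectorSpan ℝ A ↔ ∃ u, ι u = x) (ha : a₀ ∈ A) :
    affineSpan ℝ (Lset ι A a₀) = ⊤ := by
  have h0 : (0 : V) ∈ Lset ι A a₀ := by
    show a₀ + ι 0 ∈ A
    simpa using ha
  have h1 : vectorSpan ℝ (Lset ι A a₀) = ⊤ := by
    have h2 : Submodule.map ι.toLinearMap (vectorSpan ℝ (Lset ι A a₀)) = vectorSpan ℝ A := by
      have h3 := (phi ι a₀).toAffineMap.map_vectorSpan (s := Lset ι A a₀)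
      have h4 : (phi ι a₀).toAffineMap.linear = ι.toLinearMap := rfl
      have h5 : (phi ι a₀).toAffineMap '' Lset ι A a₀ = A := phi_image (fun x hx => (hι x).1 hx) ha
      rw [h4, h5] at h3
      exact h3
    refine Submodule.map_injective_of_injective (f := ι.toLinearMap) ι.injective ?_
    rw [h2, Submodule.map_top]
    ext x
    rw [hι x, LinearMap.mem_range]
    rfl
  exact (AffineSubspace.affineSpan_eq_top_iff_vectorSpan_eq_top_of_nonempty ℝ _ _ ⟨0, h0⟩).2 h1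

theorem Lset_int [FiniteDimensional ℝ V] (hι : ∀ x, x ∈ vectorSpan ℝ A ↔ ∃ u, ι u = x)
    (ha : a₀ ∈ A) (hA : Convex ℝ A) : (interior (Lset ι A a₀)).Nonempty :=
  (Lset_convex hA).interior_nonempty_iff_affineSpan_eq_top.2 (Lset_span hι ha)

theorem intrinsic_eq (hι : ∀ x, x ∈ vectorSpan ℝ A ↔ ∃ u, ι u = x) (ha : a₀ ∈ A) :
    intrinsicInterior ℝ A = phi ι a₀ '' interior (Lset ι A a₀) := by
  have h1 := (phi ι a₀).intrinsicInterior_image (𝕜 := ℝ) (Lset ι A a₀)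
  rw [phi_image (fun x hx => (hι x).1 hx) ha, intrinsicInterior_of_span (Lset_span hι ha)] at h1
  exact h1

theorem cov_of_rel (hι : ∀ x, x ∈ vectorSpan ℝ A ↔ ∃ u, ι u = x) (ha : a₀ ∈ A) {N : ℕ}
    (h : ∃ T : Finset E, T.card ≤ N ∧ A ⊆ ⋃ t ∈ T, (fun x => t + x) '' intrinsicInterior ℝ A) :
    Cov (Lset ι A a₀) N := by
  classical
  obtain ⟨T, hT, h1⟩ := h
  refine ⟨T.preimage ι ι.injective.injOn, ?_, fun y hy => ?_⟩
  · refine le_trans ?_ hT
    rw [← Finset.card_image_of_injective _ ι.injective]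
    refine Finset.card_le_card ?_
    intro x hx
    obtain ⟨u, hu, rfl⟩ := Finset.mem_image.1 hx
    exact Finset.mem_preimage.1 hu
  · obtain ⟨t, ht, x, hx, hxy⟩ := Set.mem_iUnion₂.1 (h1 hy)
    rw [intrinsic_eq hι ha] at hx
    obtain ⟨u, hu, rfl⟩ := hx
    simp only [phi_apply] at hxy
    have h2 : t = ι (y - u) := by
      have : t + (a₀ + ι u) - (a₀ + ι u) = a₀ + ι y - (a₀ + ι u) := by rw [hxy]
      rw [add_sub_cancel_right] at this
      rw [this, map_sub]; abel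
    refine Set.mem_iUnion₂.2 ⟨y - u, Finset.mem_preimage.2 (h2 ▸ ht), u, hu, ?_⟩
    simp

theorem rel_of_cov (hι : ∀ x, x ∈ vectorSpan ℝ A ↔ ∃ u, ι u = x) (ha : a₀ ∈ A) {N : ℕ}
    (h : Cov (Lset ι A a₀) N) :
    ∃ T : Finset E, T.card ≤ N ∧ A ⊆ ⋃ t ∈ T, (fun x => t + x) '' intrinsicInterior ℝ A := by
  classical
  obtain ⟨T, hT, h1⟩ := h
  refine ⟨T.image ι, Finset.card_image_le.trans hT, fun x hx => ?_⟩
  rw [← phi_image (fun x hx => (hι x).1 hx) ha] at hx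
  obtain ⟨y, hy, rfl⟩ := hx
  obtain ⟨t, ht, u, hu, hty⟩ := Set.mem_iUnion₂.1 (h1 hy)
  refine Set.mem_iUnion₂.2 ⟨ι t, Finset.mem_image_of_mem _ ht, phi ι a₀ u, ?_, ?_⟩
  · rw [intrinsic_eq hι ha]
    exact ⟨u, hu, rfl⟩
  · simp only at hty
    rw [← hty]
    simp only [phi_apply, map_add]
    abel

/-- `c(K) ≤ c(A) c(Q)` for `K = A + B`. -/
theorem bound' {F : Type*} [NormedAddCommGroup F] [NormedSpace ℝ F]
    (hι : ∀ x, x ∈ vectorSpan ℝ A ↔ ∃ u, ι u = x) (ha : a₀ ∈ A) (hA : Convex ℝ A)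
    (hAc : IsCompact A) {K B : Set E} (hK : Convex ℝ K) (hKc : IsCompact K)
    (hKi : (interior K).Nonempty) (hsum : K = A + B) (π : E →L[ℝ] F) (s : F → E)
    (hs : ∀ v, π (s v) = v) (he : ∀ y, π y = 0 → y ∈ vectorSpan ℝ A) (N M : ℕ)
    (hN : Cov (Lset ι A a₀) N) (hM : Cov (π '' K) M) : Cov K (N * M) := by
  have hι' : ∀ x ∈ vectorSpan ℝ A, ∃ u, ι u = x := fun x hx => (hι x).1 hx
  refine bound (B := (fun b => a₀ + b) '' B) hK hKc hKi (Lset_convex (a₀ := a₀) hA)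
    (Lset_compact hι' ha hAc) ι ?_ π s hs (fun y hy => ?_) N M hN hM
  · intro X
    rw [hsum, Set.mem_add]
    constructor
    · rintro ⟨x, hx, b, hb, rfl⟩
      rw [← phi_image hι' ha] at hx
      obtain ⟨u, hu, rfl⟩ := hx
      refine ⟨u, hu, a₀ + b, ⟨b, hb, rfl⟩, ?_⟩
      rw [phi_apply]; abel
    · rintro ⟨u, hu, _, ⟨b, hb, rfl⟩, rfl⟩
      exact ⟨a₀ + ι u, hu, b, hb, by simp only [add_assoc, add_left_comm]⟩
  · obtain ⟨u, hu⟩ := hι' y (he y hy)
    exact ⟨u, hu.symm⟩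

end sub

end Pool.Agent.W677.Summand
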