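import Pool.Agent.W677.Summand2

set_option autoImplicit false
set_option linter.unusedSectionVars false

/-!
Convex bodies with a lower-dimensional summand: dimensions at most two, and the final form.
-/

open Set Topology
open scoped Pointwise
open Pool.Agent.H843R3.Had2 Pool.Agent.W677.Shadow

namespace Pool.Agent.W677.Summand

/-- the Euclidean space -/
abbrev Eu (d : ℕ) : Type := EuclideanSpace ℝ (Fin d)

/-- convex bodies -/
def Bdy {d : ℕ} (K : Set (Eu d)) : Prop := Convex ℝ K ∧ IsCompact K ∧ (interior K).Nonempty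

theorem one_dim (Q : Set (Eu 1)) (hc : IsCompact Q) (hne : Q.Nonempty) (hconv : Convex ℝ Q) :
    ∃ a b : Eu 1, Q = convexHull ℝ (({a, b} : Finset (Eu 1)) : Set (Eu 1)) := by
  have hf : Continuous (fun x : Eu 1 => x 0) := by fun_prop
  obtain ⟨a, ha, ha1⟩ := hc.exists_isMinOn hne hf.continuousOn
  obtain ⟨b, hb, hb1⟩ := hc.exists_isMaxOn hne hf.continuousOn
  refine ⟨a, b, ?_⟩
  rw [Finset.coe_pair, convexHull_pair]
  refine subset_antisymm ?_ (hconv.segment_subset ha hb)
  intro x hx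
  have h1 : a 0 ≤ x 0 := ha1 hx
  have h2 : x 0 ≤ b 0 := hb1 hx
  have h3 : x 0 ∈ segment ℝ (a 0) (b 0) := by
    rw [segment_eq_Icc (h1.trans h2)]
    exact ⟨h1, h2⟩
  obtain ⟨p, q, hp, hq, hpq, h4⟩ := h3
  refine ⟨p, q, hp, hq, hpq, ?_⟩
  ext i
  have hi : i = 0 := Subsingleton.elim _ _
  subst hi
  simpa using h4

/-- isometric coordinates in a subspace -/
theorem coords {n k : ℕ} (U : Submodule ℝ (Eu n)) (hk : Module.finrank ℝ U = k) :
    ∃ ι : Eu k →ₗᵢ[ℝ] Eu n, ∀ x, x ∈ U ↔ ∃ u, ι u = x := by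
  let e : U ≃ₗᵢ[ℝ] Eu k := ((stdOrthonormalBasis ℝ U).reindex (finCongr hk)).repr
  refine ⟨U.subtypeₗᵢ.comp e.symm.toLinearIsometry, fun x => ⟨fun hx => ⟨e ⟨x, hx⟩, ?_⟩, ?_⟩⟩
  · simp
  · rintro ⟨u, rfl⟩
    exact (e.symm u).2

/-- coordinates modulo a subspace -/
theorem quot {n m : ℕ} (U : Submodule ℝ (Eu n)) (hm : Module.finrank ℝ U + m = n) :
    ∃ π : Eu n →L[ℝ] Eu m, Function.Surjective π ∧ ∀ x, π x = 0 ↔ x ∈ U := by
  have h1 : Module.finrank ℝ Uᗮ = m := by
    have := Submodule.finrank_add_finrank_orthogonal U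
    rw [finrank_euclideanSpace, Fintype.card_fin] at this
    omega
  let e : Uᗮ ≃ₗᵢ[ℝ] Eu m := ((stdOrthonormalBasis ℝ Uᗮ).reindex (finCongr h1)).repr
  refine ⟨(e.toContinuousLinearEquiv : Uᗮ →L[ℝ] Eu m) ∘L (Uᗮ.orthogonalProjectionOnto), ?_, ?_⟩
  · refine e.surjective.comp ?_
    intro w
    exact ⟨w, Submodule.orthogonalProjectionOnto_mem_subspace_eq_self w⟩
  · intro x
    show e (Uᗮ.orthogonalProjectionOnto x) = 0 ↔ x ∈ U
    rw [map_eq_zero_iff e e.injective, Submodule.orthogonalProjectionOnto_eq_zero_iff,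
      Submodule.orthogonal_orthogonal]

theorem body_one_two {n : ℕ} (hn : n ≤ 1) {K : Set (Eu (n + 1))} (hK : Bdy K) :
    Cov K (2 ^ (n + 1)) := by
  classical
  obtain ⟨hKv, hKc, hKi⟩ := hK
  set e : Eu (n + 1) := EuclideanSpace.single 0 1 with he'
  have he0 : e ≠ 0 := by
    intro h
    have := congrArg (fun x : Eu (n + 1) => x 0) h
    simp [he'] at this
  obtain ⟨p, hπ, hker⟩ := quot (n := n + 1) (m := n) (ℝ ∙ e) (by
    rw [finrank_span_singleton he0, add_comm])
  have hπe : p e = 0 := (hker e).2 (Submodule.mem_span_singleton_self e)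
  have he : ∀ y, p y = 0 → ∃ c : ℝ, y = c • e := by
    intro y hy
    obtain ⟨c, hc⟩ := Submodule.mem_span_singleton.1 ((hker y).1 hy)
    exact ⟨c, hc.symm⟩
  have hQc : IsCompact (p '' K) := hKc.image p.continuous
  have hQv : Convex ℝ (p '' K) := hKv.linear_image p.toLinearMap
  have hQn : (p '' K).Nonempty := (hKi.mono interior_subset).image p
  obtain ⟨V, col, hV1, hV2, hV3⟩ : ∃ (V : Finset (Eu n)) (col : Eu n → Fin 2), V.card ≤ 2 ^ n ∧
      p '' K = convexHull ℝ (V : Set (Eu n)) ∧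
      ∀ G : Set (Eu n), Convex ℝ G → IsExtreme ℝ (p '' K) G → G.Nontrivial →
      ∃ z ∈ V, ∃ z' ∈ V, z ∈ G ∧ z' ∈ G ∧ col z ≠ col z' := by
    rcases Nat.eq_zero_or_pos n with rfl | hn0
    · obtain ⟨q, hq⟩ := hQn
      refine ⟨{q}, fun _ => 0, by simp, ?_, ?_⟩
      · rw [Finset.coe_singleton, convexHull_singleton]
        ext x
        rw [mem_singleton_iff]
        exact ⟨fun _ => Subsingleton.elim _ _, fun h => h ▸ hq⟩
      · intro G _ _ hG
        exact absurd hG (Set.not_nontrivial_iff.2 (Set.subsingleton_of_subsingleton))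
    · have : n = 1 := by omega
      subst this
      obtain ⟨a, b, hab⟩ := one_dim _ hQc hQn hQv
      refine ⟨{a, b}, fun x => if x = a then 0 else 1, by
        exact (Finset.card_insert_le _ _).trans (by simp), hab, ?_⟩
      intro G _ hGe hG
      obtain ⟨u, hu, v, hv, h1, h2, h3⟩ := face_two hGe _ hab hG
      refine ⟨u, hu, v, hv, h1, h2, ?_⟩
      rw [Finset.mem_insert, Finset.mem_singleton] at hu hv
      rcases hu with rfl | rfl
      · rcases hv with rfl | rfl
        · exact absurd rfl h3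
        · simp [Ne.symm h3]
      · rcases hv with rfl | rfl
        · simp [h3]
        · exact absurd rfl h3
  obtain ⟨T, hT, h1⟩ := poly hKv hKc hKi p (ContinuousLinearMap.isOpenMap _ hπ)
    (Function.surjInv hπ) (Function.surjInv_eq hπ) e he0 hπe he V hV2 2 le_rfl col hV3
  refine ⟨T, ?_, h1⟩
  rw [pow_succ]
  omega

/-- dimension at most two -/
theorem body_le_two {d : ℕ} (hd : d ≤ 2) {K : Set (Eu d)} (hK : Bdy K) : Cov K (2 ^ d) := by
  classical
  cases d with
  | zero =>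
    obtain ⟨x, hx⟩ := hK.2.2
    refine ⟨{0}, by simp, fun y _ => ?_⟩
    refine Set.mem_iUnion₂.2 ⟨0, Finset.mem_singleton_self _, x, hx, Subsingleton.elim _ _⟩
  | succ n => exact body_one_two (by omega) hK

end Pool.Agent.W677.Summand
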